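import Mathlib

set_option autoImplicit false
set_option maxHeartbeats 1000000

/-! Functions of the residue classes: the numerical part. -/

namespace Pool.Agent.N735.CL

lemma pn_t1 {γ γc vv cb v δ : ℝ} (hγ0 : 0 < γ) (hγ1 : γ ≤ 1) (hcb : |cb| ≤ 1) (hγc : |γc - γ * cb| ≤ δ) (hvv : |vv - γ * v| ≤ δ) :
    (vv - γc ^ 2) / γ ^ 2 ≤ v / γ - cb ^ 2 + 3 * δ / γ ^ 2 := by
  have hγ2 : 0 < γ ^ 2 := by positivity
  rw [div_le_iff₀ hγ2]
  have e : (v / γ - cb ^ 2 + 3 * δ / γ ^ 2) * γ ^ 2 = γ * v - γ ^ 2 * cb ^ 2 + 3 * δ := by field_simp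
  rw [e]
  have h2 : γc ^ 2 = (γ * cb) ^ 2 + 2 * ((γ * cb) * (γc - γ * cb)) + (γc - γ * cb) ^ 2 := by ring
  have h3 : |(γ * cb) * (γc - γ * cb)| ≤ 1 * δ := by
    rw [abs_mul]
    apply mul_le_mul _ hγc (abs_nonneg _) (by norm_num)
    rw [abs_mul, abs_of_pos hγ0]
    calc γ * |cb| ≤ 1 * 1 := mul_le_mul hγ1 hcb (abs_nonneg _) (by norm_num)
      _ = 1 := by norm_num
  have h4 := (abs_le.1 h3).1
  have h5 := (abs_le.1 hvv).2
  have h6 := sq_nonneg (γc - γ * cb)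
  have h7 : (γ * cb) ^ 2 = γ ^ 2 * cb ^ 2 := by ring
  linarith

lemma pn_t2 {γ γc b b' d d' cb v δ : ℝ} (hγ0 : 0 < γ) (hcb : |cb| ≤ 1) (hγc : |γc - γ * cb| ≤ δ) (hδ0 : 0 ≤ δ) (hδ1 : δ ≤ 1 / 10)
    (hB : |b - cb| ≤ δ) (hB' : |b' - cb| ≤ δ) (hD : |d - v| ≤ δ) (hD' : |d' - v| ≤ δ) :
    -(((d + d') - γc * (b + b')) / γ) ≤ -2 * (v / γ) + 7 * (δ / γ) + 2 * cb ^ 2 + 2 * δ := by
  obtain ⟨b1, b2⟩ := abs_le.1 hB
  obtain ⟨b1', b2'⟩ := abs_le.1 hB'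
  obtain ⟨d1, d2⟩ := abs_le.1 hD
  obtain ⟨d1', d2'⟩ := abs_le.1 hD'
  obtain ⟨c1, c2⟩ := abs_le.1 hcb
  rw [← neg_div, div_le_iff₀ hγ0]
  have e : (-2 * (v / γ) + 7 * (δ / γ) + 2 * cb ^ 2 + 2 * δ) * γ = -(2 * v) + 7 * δ + γ * (2 * cb ^ 2 + 2 * δ) := by
    field_simp
    ring
  rw [e]
  have h1 : γc * (b + b') ≤ γ * (2 * cb ^ 2 + 2 * δ) + 5 * δ := by
    have h2 : γc * (b + b') = γ * (cb * (b + b')) + (γc - γ * cb) * (b + b') := by ring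
    have h3 : cb * (b + b') ≤ 2 * cb ^ 2 + 2 * δ := by
      have h4 : cb * (b + b') = 2 * cb ^ 2 + cb * ((b - cb) + (b' - cb)) := by ring
      have h5 : |cb * ((b - cb) + (b' - cb))| ≤ 1 * (2 * δ) := by
        rw [abs_mul]
        apply mul_le_mul hcb ((abs_add_le _ _).trans (by linarith)) (abs_nonneg _) (by norm_num)
      have := (abs_le.1 h5).2
      linarith
    have h6 : |(γc - γ * cb) * (b + b')| ≤ δ * 4 := by
      rw [abs_mul]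
      apply mul_le_mul hγc _ (abs_nonneg _) hδ0
      rw [abs_le]; constructor <;> linarith
    have h7 := (abs_le.1 h6).2
    have h8 := mul_le_mul_of_nonneg_left h3 hγ0.le
    linarith
  linarith

lemma pn_t3 {x γ L δ R R' P P' : ℝ} (hγ0 : 0 < γ) (hL : 0 < L) (hx : |x| ≤ 1)
    (hP : L * P ≤ 2) (hP' : L * P' ≤ 2) (hR : |R| ≤ 4 * P) (hR' : |R'| ≤ 4 * P') (hLδ : 16 ≤ δ * L) :
    x * (R + R') / γ ^ 2 ≤ δ / γ ^ 2 := by
  apply div_le_div_of_nonneg_right _ (by positivity)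
  have h1 : |x * (R + R')| ≤ 1 * (4 * P + 4 * P') := by
    rw [abs_mul]
    exact mul_le_mul hx ((abs_add_le _ _).trans (by linarith)) (abs_nonneg _) (by norm_num)
  have h2 : (4 * P + 4 * P') * L ≤ δ * L := by
    have : (4 * P + 4 * P') * L = 4 * (L * P) + 4 * (L * P') := by ring
    linarith
  have h3 := le_of_mul_le_mul_right h2 hL
  have := (abs_le.1 h1).2
  linarith

lemma pn_t4 {l γc b b' d d' cb v δ : ℝ} (hlδ : |l| ≤ δ) (hcb : |cb| ≤ 1) (hγc1 : |γc| ≤ 1) (hδ0 : 0 ≤ δ) (hδ1 : δ ≤ 1 / 10) (hv0 : 0 ≤ v) (hv1 : v ≤ 1)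
    (hB : |b - cb| ≤ δ) (hB' : |b' - cb| ≤ δ) (hD : |d - v| ≤ δ) (hD' : |d' - v| ≤ δ) :
    -((b + l * (d - γc * b)) * (b' + l * (d' - γc * b'))) ≤ -cb ^ 2 + 12 * δ := by
  obtain ⟨c1, c2⟩ := abs_le.1 hcb
  have hs : ∀ y z : ℝ, |y - cb| ≤ δ → |z - v| ≤ δ → |(y + l * (z - γc * y)) - cb| ≤ 4 * δ := by
    intro y z hy hz
    have e : (y + l * (z - γc * y)) - cb = (y - cb) + l * (z - γc * y) := by ring
    rw [e]
    refine (abs_add_le _ _).trans ?_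
    have h1 : |l * (z - γc * y)| ≤ δ * 3 := by
      rw [abs_mul]
      apply mul_le_mul hlδ _ (abs_nonneg _) hδ0
      have hy2 : |y| ≤ 11 / 10 := by
        obtain ⟨y1, y2⟩ := abs_le.1 hy
        rw [abs_le]; constructor <;> linarith
      have hz2 : |z| ≤ 11 / 10 := by
        obtain ⟨z1, z2⟩ := abs_le.1 hz
        rw [abs_le]; constructor <;> linarith
      have h2 : |γc * y| ≤ 1 * (11 / 10) := by
        rw [abs_mul]
        exact mul_le_mul hγc1 hy2 (abs_nonneg _) (by norm_num)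
      exact (abs_sub _ _).trans (by linarith)
    linarith
  have s1 := hs b d hB hD
  have s2 := hs b' d' hB' hD'
  generalize b + l * (d - γc * b) = p at s1 ⊢
  generalize b' + l * (d' - γc * b') = p' at s2 ⊢
  have e : p * p' = cb ^ 2 + cb * ((p - cb) + (p' - cb)) + (p - cb) * (p' - cb) := by ring
  have h1 : |cb * ((p - cb) + (p' - cb))| ≤ 1 * (8 * δ) := by
    rw [abs_mul]
    exact mul_le_mul hcb ((abs_add_le _ _).trans (by linarith)) (abs_nonneg _) (by norm_num)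
  have h2 : |(p - cb) * (p' - cb)| ≤ (4 * δ) * (4 * δ) := by
    rw [abs_mul]
    exact mul_le_mul s1 s2 (abs_nonneg _) (by positivity)
  have h3 := (abs_le.1 h1).1
  have h4 := (abs_le.1 h2).1
  have h5 : (4 * δ) * (4 * δ) ≤ 2 * δ := by
    have : (4 * δ) * (4 * δ) = (16 * δ) * δ := by ring
    rw [this]
    exact mul_le_mul_of_nonneg_right (by linarith) hδ0
  linarith

lemma pair_id {x l γ γc vv L B B' D D' R R' Q : ℝ} (hγ0 : 0 < γ) (hL : 0 < L) (hl : l = -x / (γ * L)) :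
    L ^ 2 * ((1 + l ^ 2 * (vv - γc ^ 2) + x * ((1 - 2 * l * γc) * (B + B') + 2 * l * (D + D') + l ^ 2 * (R + R')) + x ^ 2 * Q) -
      (1 + x * ((1 - l * γc) * B + l * D)) * (1 + x * ((1 - l * γc) * B' + l * D'))) =
      x ^ 2 * ((vv - γc ^ 2) / γ ^ 2 + -((((L * D) + (L * D')) - γc * ((L * B) + (L * B'))) / γ) + x * (R + R') / γ ^ 2 + L ^ 2 * Q +
        -(((L * B) + l * ((L * D) - γc * (L * B))) * ((L * B') + l * ((L * D') - γc * (L * B'))))) := by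
  have hlL : l * L = -x / γ := by rw [hl]; field_simp
  have e1 : L ^ 2 * ((1 + l ^ 2 * (vv - γc ^ 2) + x * ((1 - 2 * l * γc) * (B + B') + 2 * l * (D + D') + l ^ 2 * (R + R')) + x ^ 2 * Q) -
      (1 + x * ((1 - l * γc) * B + l * D)) * (1 + x * ((1 - l * γc) * B' + l * D'))) =
      (l * L) ^ 2 * (vv - γc ^ 2) + x * ((l * L) * (((L * D) + (L * D')) - γc * ((L * B) + (L * B')))) + x * ((l * L) ^ 2 * (R + R')) +
        x ^ 2 * (L ^ 2 * Q) - x ^ 2 * (((L * B) + l * ((L * D) - γc * (L * B))) * ((L * B') + l * ((L * D') - γc * (L * B')))) := by ring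
  rw [e1, hlL]
  have e2 : (-x / γ) ^ 2 * (vv - γc ^ 2) = x ^ 2 * ((vv - γc ^ 2) / γ ^ 2) := by ring
  have e3 : x * ((-x / γ) * (((L * D) + (L * D')) - γc * ((L * B) + (L * B')))) = x ^ 2 * (-((((L * D) + (L * D')) - γc * ((L * B) + (L * B'))) / γ)) := by ring
  have e4 : x * ((-x / γ) ^ 2 * (R + R')) = x ^ 2 * (x * (R + R') / γ ^ 2) := by ring
  rw [e2, e3, e4]
  ring

/-- the numerical part -/
lemma pair_num {x l γ γc vv L δ B B' D D' R R' P P' Q cb v A A' : ℝ} (hγ0 : 0 < γ) (hγ1 : γ ≤ 1) (hL : 0 < L) (hδ0 : 0 < δ) (hδ1 : δ ≤ 1 / 10)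
    (hl : l = -x / (γ * L)) (hlδ : |l| ≤ δ) (hx : |x| ≤ 1) (hcb : |cb| ≤ 1) (hv0 : 0 ≤ v) (hv1 : v ≤ 1)
    (hB : |L * B - cb| ≤ δ) (hB' : |L * B' - cb| ≤ δ) (hD : |L * D - v| ≤ δ) (hD' : |L * D' - v| ≤ δ)
    (hP : L * P ≤ 2) (hP' : L * P' ≤ 2) (hR : |R| ≤ 4 * P) (hR' : |R'| ≤ 4 * P') (hLδ : 16 ≤ δ * L)
    (hγc : |γc - γ * cb| ≤ δ) (hγc1 : |γc| ≤ 1) (hvv : |vv - γ * v| ≤ δ)
    (hA : A = (1 - l * γc) * B + l * D) (hA' : A' = (1 - l * γc) * B' + l * D') :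
    L ^ 2 * ((1 + l ^ 2 * (vv - γc ^ 2) + x * ((1 - 2 * l * γc) * (B + B') + 2 * l * (D + D') + l ^ 2 * (R + R')) + x ^ 2 * Q) -
      (1 + x * A) * (1 + x * A')) ≤ x ^ 2 * (L ^ 2 * Q - v / γ + 27 * δ / γ ^ 2) := by
  rw [hA, hA', pair_id hγ0 hL hl]
  apply mul_le_mul_of_nonneg_left _ (sq_nonneg x)
  have t1 := pn_t1 hγ0 hγ1 hcb hγc hvv
  have t2 := pn_t2 hγ0 hcb hγc hδ0.le hδ1 hB hB' hD hD'
  have t3 := pn_t3 hγ0 hL hx hP hP' hR hR' hLδ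
  have t4 := pn_t4 hlδ hcb hγc1 hδ0.le hδ1 hv0 hv1 hB hB' hD hD'
  have hγ2 : 0 < γ ^ 2 := by positivity
  have h1 : δ / γ ≤ δ / γ ^ 2 := by
    apply div_le_div_of_nonneg_left hδ0.le hγ2
    rw [sq]
    exact mul_le_of_le_one_left hγ0.le hγ1
  have h2 : δ ≤ δ / γ ^ 2 := by
    rw [le_div_iff₀ hγ2]
    exact mul_le_of_le_one_right hδ0.le (pow_le_one₀ hγ0.le hγ1)
  have e4 : 3 * δ / γ ^ 2 = 3 * (δ / γ ^ 2) := by ring
  have e5 : 27 * δ / γ ^ 2 = 27 * (δ / γ ^ 2) := by ring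
  rw [e4] at t1
  rw [e5]
  linarith

end Pool.Agent.N735.CL
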