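import Mathlib

set_option autoImplicit false

/-! Mean values over `{1, ..., X}` and over the tuples of elements of `{1, ..., X}`. -/

namespace Pool.Agent.N735.CL

open Finset

/-- the mean value over `1, ..., X` -/
noncomputable def E1 (X : ℕ) (f : ℕ → ℝ) : ℝ := (∑ h ∈ Icc 1 X, f h) / X

/-- the tuples -/
def Om (X K : ℕ) : Finset (Fin K → ℕ) := Fintype.piFinset fun _ => Icc 1 X

/-- the mean value over the tuples -/
noncomputable def EK (X K : ℕ) (Φ : (Fin K → ℕ) → ℝ) : ℝ := (∑ h ∈ Om X K, Φ h) / (X : ℝ) ^ K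

open Classical in
/-- the proportion of the tuples with the property `B` -/
noncomputable def PK (X K : ℕ) (B : (Fin K → ℕ) → Prop) : ℝ := EK X K (fun v => if B v then 1 else 0)

lemma card_Om (X K : ℕ) : (Om X K).card = X ^ K := by simp [Om]

lemma mem_Om {X K : ℕ} {h : Fin K → ℕ} : h ∈ Om X K ↔ ∀ i, h i ∈ Icc 1 X := by
  unfold Om; rw [Fintype.mem_piFinset]

lemma EK_prod (X K : ℕ) (f : ℕ → ℝ) : EK X K (fun h => ∏ i, f (h i)) = (E1 X f) ^ K := by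
  unfold EK E1 Om
  rw [div_pow]
  congr 1
  have h := Finset.prod_univ_sum (fun _ : Fin K => Icc 1 X) (fun _ j => f j)
  rw [← h, prod_const, card_univ, Fintype.card_fin]

lemma EK_mono {X K : ℕ} {Φ Ψ : (Fin K → ℕ) → ℝ} (h : ∀ v ∈ Om X K, Φ v ≤ Ψ v) : EK X K Φ ≤ EK X K Ψ := by
  unfold EK
  exact div_le_div_of_nonneg_right (sum_le_sum h) (by positivity)

lemma EK_congr {X K : ℕ} {Φ Ψ : (Fin K → ℕ) → ℝ} (h : ∀ v ∈ Om X K, Φ v = Ψ v) : EK X K Φ = EK X K Ψ := by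
  unfold EK
  rw [sum_congr rfl h]

lemma EK_sum {X K : ℕ} {ι : Type*} (s : Finset ι) (Φ : ι → (Fin K → ℕ) → ℝ) :
    EK X K (fun v => ∑ j ∈ s, Φ j v) = ∑ j ∈ s, EK X K (Φ j) := by
  unfold EK
  rw [sum_comm, sum_div]

lemma EK_const_mul {X K : ℕ} (c : ℝ) (Φ : (Fin K → ℕ) → ℝ) :
    EK X K (fun v => c * Φ v) = c * EK X K Φ := by
  unfold EK
  rw [← mul_sum, mul_div_assoc]

lemma EK_add {X K : ℕ} (Φ Ψ : (Fin K → ℕ) → ℝ) :
    EK X K (fun v => Φ v + Ψ v) = EK X K Φ + EK X K Ψ := by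
  unfold EK
  rw [sum_add_distrib, add_div]

lemma EK_sub {X K : ℕ} (Φ Ψ : (Fin K → ℕ) → ℝ) :
    EK X K (fun v => Φ v - Ψ v) = EK X K Φ - EK X K Ψ := by
  unfold EK
  rw [sum_sub_distrib, sub_div]

lemma EK_const {X K : ℕ} (hX : 1 ≤ X) (c : ℝ) : EK X K (fun _ => c) = c := by
  unfold EK
  rw [sum_const, card_Om, nsmul_eq_mul]
  have : (X : ℝ) ≠ 0 := by positivity
  push_cast
  field_simp

lemma EK_nonneg {X K : ℕ} {Φ : (Fin K → ℕ) → ℝ} (h : ∀ v ∈ Om X K, 0 ≤ Φ v) : 0 ≤ EK X K Φ := by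
  unfold EK
  exact div_nonneg (sum_nonneg h) (by positivity)

lemma E1_congr {X : ℕ} {f g : ℕ → ℝ} (h : ∀ v ∈ Icc 1 X, f v = g v) : E1 X f = E1 X g := by
  unfold E1
  rw [sum_congr rfl h]

lemma E1_add {X : ℕ} (f g : ℕ → ℝ) : E1 X (fun v => f v + g v) = E1 X f + E1 X g := by
  unfold E1
  rw [sum_add_distrib, add_div]

lemma E1_const_mul {X : ℕ} (c : ℝ) (f : ℕ → ℝ) : E1 X (fun v => c * f v) = c * E1 X f := by
  unfold E1
  rw [← mul_sum, mul_div_assoc]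

lemma E1_const {X : ℕ} (hX : 1 ≤ X) (c : ℝ) : E1 X (fun _ => c) = c := by
  unfold E1
  rw [sum_const, Nat.card_Icc, nsmul_eq_mul]
  have : (X : ℝ) ≠ 0 := by positivity
  push_cast
  field_simp

lemma E1_nonneg {X : ℕ} {f : ℕ → ℝ} (h : ∀ v ∈ Icc 1 X, 0 ≤ f v) : 0 ≤ E1 X f := by
  unfold E1
  exact div_nonneg (sum_nonneg h) (by positivity)

lemma E1_mono {X : ℕ} {f g : ℕ → ℝ} (h : ∀ v ∈ Icc 1 X, f v ≤ g v) : E1 X f ≤ E1 X g := by
  unfold E1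
  exact div_le_div_of_nonneg_right (sum_le_sum h) (by positivity)

open Classical in
lemma PK_eq {X K : ℕ} (B : (Fin K → ℕ) → Prop) : PK X K B = (((Om X K).filter B).card : ℝ) / (X : ℝ) ^ K := by
  unfold PK EK
  rw [← Finset.sum_filter, sum_const, nsmul_eq_mul, mul_one]

lemma PK_nonneg {X K : ℕ} (B : (Fin K → ℕ) → Prop) : 0 ≤ PK X K B :=
  EK_nonneg (fun v _ => by split_ifs <;> norm_num)

lemma PK_mono {X K : ℕ} {B C : (Fin K → ℕ) → Prop} (h : ∀ v ∈ Om X K, B v → C v) : PK X K B ≤ PK X K C := by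
  apply EK_mono
  intro v hv
  by_cases hB : B v
  · rw [if_pos hB, if_pos (h v hv hB)]
  · rw [if_neg hB]; split_ifs <;> norm_num

lemma PK_or {X K : ℕ} (B C : (Fin K → ℕ) → Prop) : PK X K (fun v => B v ∨ C v) ≤ PK X K B + PK X K C := by
  unfold PK
  rw [← EK_add]
  apply EK_mono
  intro v hv
  by_cases hB : B v <;> by_cases hC : C v <;> simp [hB, hC]

/-- Markov -/
lemma PK_markov {X K : ℕ} {Φ : (Fin K → ℕ) → ℝ} (h : ∀ v ∈ Om X K, 0 ≤ Φ v) {c : ℝ} (hc : 0 < c) :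
    PK X K (fun v => c ≤ Φ v) ≤ EK X K Φ / c := by
  unfold PK
  rw [le_div_iff₀ hc, mul_comm, ← EK_const_mul]
  apply EK_mono
  intro v hv
  by_cases hB : c ≤ Φ v
  · rw [if_pos hB]; linarith
  · rw [if_neg hB]; linarith [h v hv]

/-- Chebyshev -/
lemma PK_cheb {X K : ℕ} (hX : 1 ≤ X) {Φ : (Fin K → ℕ) → ℝ} {A δ : ℝ} (hA : 0 < A)
    (h1 : (1 - δ) * A ≤ EK X K Φ) (h2 : EK X K (fun v => Φ v ^ 2) ≤ (1 + δ) * A ^ 2) :
    PK X K (fun v => Φ v ≤ A / 2) ≤ 12 * δ := by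
  have h3 : EK X K (fun v => (Φ v - A) ^ 2) ≤ 3 * δ * A ^ 2 := by
    have e : EK X K (fun v => (Φ v - A) ^ 2) = EK X K (fun v => Φ v ^ 2) + ((-2 * A) * EK X K Φ + A ^ 2) := by
      rw [← EK_const_mul, ← EK_const (K := K) hX (A ^ 2), ← EK_add, ← EK_add]
      apply EK_congr
      intro v _
      ring
    rw [e]
    nlinarith [mul_le_mul_of_nonneg_left h1 hA.le]
  have h4 : PK X K (fun v => Φ v ≤ A / 2) ≤ PK X K (fun v => A ^ 2 / 4 ≤ (Φ v - A) ^ 2) := by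
    apply PK_mono
    intro v _ hv
    nlinarith
  refine h4.trans ((PK_markov (fun v _ => sq_nonneg _) (by positivity)).trans ?_)
  rw [div_le_iff₀ (by positivity)]
  linarith

end Pool.Agent.N735.CL
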