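import Mathlib
import Pool.Agent.N735.CL.Prod

set_option autoImplicit false

/-! The mean values of the weights of one coordinate. -/

namespace Pool.Agent.N735.CL

open Finset

/-- the indicator function of `m + h` prime -/
def pr (m h : ℕ) : ℝ := if (m + h).Prime then 1 else 0

/-- the indicator function of `h` coprime to `W` -/
def cf (W h : ℕ) : ℝ := if h.Coprime W then 1 else 0

/-- `t` if `m + h` is prime, otherwise `1` -/
def tf (t : ℝ) (m h : ℕ) : ℝ := if (m + h).Prime then t else 1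

lemma tf_eq (t : ℝ) (m h : ℕ) : tf t m h = 1 + (t - 1) * pr m h := by
  unfold tf pr; split_ifs <;> ring

lemma tf_mul (t b : ℝ) (m h : ℕ) : tf t m h * tf b m h = tf (t * b) m h := by
  unfold tf; split_ifs <;> ring

/-- the second factor of the weight -/
noncomputable def wt (W : ℕ) (l γ : ℝ) (h : ℕ) : ℝ := 1 + l * (cf W h - γ)

lemma pr_sq (m h : ℕ) : pr m h * pr m h = pr m h := by
  unfold pr; split_ifs <;> ring

lemma cf_sq (W h : ℕ) : cf W h * cf W h = cf W h := by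
  unfold cf; split_ifs <;> ring

lemma pr_cf {W m h : ℕ} (_hW : 0 < W) (hm : W ∣ m) (hm0 : 0 < m) (hh : 0 < h) : pr m h * cf W h = pr m h := by
  unfold pr cf
  split_ifs with h1 h2
  · ring
  · exfalso
    apply h2
    rw [Nat.coprime_comm]
    by_contra hc
    obtain ⟨p, hp, hpW, hph⟩ := Nat.Prime.not_coprime_iff_dvd.1 hc
    have hpm : p ∣ m + h := dvd_add (hpW.trans hm) hph
    have h3 := (Nat.prime_dvd_prime_iff_eq hp h1).1 hpm
    have h4 := Nat.le_of_dvd hm0 (hpW.trans hm)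
    omega
  · ring
  · ring

/-- `r = 1 + l (1 - γ)` -/
noncomputable def rr (l γ : ℝ) : ℝ := 1 + l * (1 - γ)

section

variable {X W m m' : ℕ} (hX : 1 ≤ X) (hW : 0 < W) (hm : W ∣ m) (hm0 : 0 < m) (hm' : W ∣ m') (hm0' : 0 < m')

include hX in
lemma E1_tf (t : ℝ) (m : ℕ) : E1 X (fun h => tf t m h) = 1 + (t - 1) * E1 X (pr m) := by
  rw [E1_congr (g := fun h => 1 + (t - 1) * pr m h) (fun h _ => tf_eq t m h), E1_add, E1_const hX, E1_const_mul]

include hX hW hm hm0 in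
lemma E1_g (t l : ℝ) : E1 X (fun h => tf t m h * wt W l (E1 X (cf W)) h) =
    1 + (t - 1) * rr l (E1 X (cf W)) * E1 X (pr m) := by
  set γ := E1 X (cf W) with hγ
  have h1 : ∀ h ∈ Icc 1 X, tf t m h * wt W l γ h =
      (1 - l * γ) + (l * cf W h + ((t - 1) * rr l γ) * pr m h) := by
    intro h hh
    have hh0 : 0 < h := (mem_Icc.1 hh).1
    have e1 := pr_cf hW hm hm0 hh0
    rw [tf_eq]
    unfold wt rr
    linear_combination ((t - 1) * l) * e1
  rw [E1_congr h1, E1_add, E1_add, E1_const hX, E1_const_mul, E1_const_mul, ← hγ]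
  ring

include hX hW hm hm0 in
lemma E1_g2 (t l : ℝ) : E1 X (fun h => tf t m h * wt W l (E1 X (cf W)) h ^ 2) =
    1 + l ^ 2 * (E1 X (cf W)) * (1 - E1 X (cf W)) + (t - 1) * rr l (E1 X (cf W)) ^ 2 * E1 X (pr m) := by
  set γ := E1 X (cf W) with hγ
  have h1 : ∀ h ∈ Icc 1 X, tf t m h * wt W l γ h ^ 2 =
      (1 - l * γ) ^ 2 + ((2 * l * (1 - l * γ) + l ^ 2) * cf W h + ((t - 1) * rr l γ ^ 2) * pr m h) := by
    intro h hh
    have hh0 : 0 < h := (mem_Icc.1 hh).1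
    have e1 := pr_cf hW hm hm0 hh0
    have e2 := cf_sq W h
    rw [tf_eq]
    unfold wt rr
    linear_combination ((t - 1) * (2 * l + l ^ 2 - 2 * l ^ 2 * γ)) * e1 + (l ^ 2) * e2 + ((t - 1) * pr m h * l ^ 2) * e2
  rw [E1_congr h1, E1_add, E1_add, E1_const hX, E1_const_mul, E1_const_mul, ← hγ]
  ring

include hX hW hm hm0 hm' hm0' in
lemma E1_gg (t l : ℝ) : E1 X (fun h => (tf t m h * wt W l (E1 X (cf W)) h) * (tf t m' h * wt W l (E1 X (cf W)) h)) =
    1 + l ^ 2 * (E1 X (cf W)) * (1 - E1 X (cf W)) + (t - 1) * rr l (E1 X (cf W)) ^ 2 * (E1 X (pr m) + E1 X (pr m')) +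
      (t - 1) ^ 2 * rr l (E1 X (cf W)) ^ 2 * E1 X (fun h => pr m h * pr m' h) := by
  set γ := E1 X (cf W) with hγ
  have h1 : ∀ h ∈ Icc 1 X, (tf t m h * wt W l γ h) * (tf t m' h * wt W l γ h) =
      (1 - l * γ) ^ 2 + ((2 * l * (1 - l * γ) + l ^ 2) * cf W h + (((t - 1) * rr l γ ^ 2) * pr m h +
        (((t - 1) * rr l γ ^ 2) * pr m' h + ((t - 1) ^ 2 * rr l γ ^ 2) * (pr m h * pr m' h)))) := by
    intro h hh
    have hh0 : 0 < h := (mem_Icc.1 hh).1
    have e1 := pr_cf hW hm hm0 hh0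
    have e1' := pr_cf hW hm' hm0' hh0
    have e2 := cf_sq W h
    rw [tf_eq, tf_eq]
    unfold wt rr
    linear_combination ((t - 1) * (2 * l + l ^ 2 - 2 * l ^ 2 * γ)) * e1 + ((t - 1) * (2 * l + l ^ 2 - 2 * l ^ 2 * γ)) * e1' +
      (l ^ 2) * e2 + ((t - 1) * pr m h * l ^ 2) * e2 + ((t - 1) * pr m' h * l ^ 2) * e2 +
      ((t - 1) ^ 2 * pr m h * pr m' h * l ^ 2) * e2 + ((t - 1) ^ 2 * (2 * l + l ^ 2 - 2 * l ^ 2 * γ) * pr m' h) * e1
  rw [E1_congr h1, E1_add, E1_add, E1_add, E1_add, E1_const hX, E1_const_mul, E1_const_mul, E1_const_mul, E1_const_mul, ← hγ]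
  ring

end

/-- the number of the `i` with `m + h i` prime -/
def Nm {K : ℕ} (h : Fin K → ℕ) (m : ℕ) : ℕ := (univ.filter (fun i : Fin K => (m + h i).Prime)).card

lemma prod_tf {K : ℕ} (h : Fin K → ℕ) (t : ℝ) (m : ℕ) : ∏ i, tf t m (h i) = t ^ Nm h m := by
  unfold tf Nm
  rw [prod_ite, prod_const, prod_const_one, mul_one]

end Pool.Agent.N735.CL
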