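import Mathlib
import Pool.Agent.Helper256.KM.Mertens

set_option autoImplicit false

/-! Exponential moments of `∑_{p ∣ d, p > w} 1 / (p - 1)`. -/

namespace Pool.Agent.N735.CL

open Finset

/-- `∑_{p ∣ n, p > w} 1 / (p - 1)` -/
noncomputable def sw (w n : ℕ) : ℝ := ∑ p ∈ n.primeFactors.filter (fun p => w < p), 1 / ((p : ℝ) - 1)

lemma sw_nonneg (w n : ℕ) : 0 ≤ sw w n := by
  unfold sw
  apply sum_nonneg
  intro p hp
  have h : 1 < p := (Nat.prime_of_mem_primeFactors (mem_filter.1 hp).1).one_lt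
  have h' : (1 : ℝ) < p := by exact_mod_cast h
  exact div_nonneg (by norm_num) (by linarith)

lemma mom_prod (w J k : ℕ) : ∑ d ∈ Icc 1 J, Real.exp (k * sw w d) ≤
    J * ∏ p ∈ (Ioc w J).filter Nat.Prime, (1 + (Real.exp (k / ((p : ℝ) - 1)) - 1) / p) := by
  classical
  set P := (Ioc w J).filter Nat.Prime with hP
  set g : ℕ → ℝ := fun p => Real.exp (k / ((p : ℝ) - 1)) - 1 with hg
  have hPp : ∀ p ∈ P, p.Prime := fun p hp => (mem_filter.1 hp).2
  have hg0 : ∀ p ∈ P, 0 ≤ g p := by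
    intro p hp
    have h : (1 : ℝ) < p := by exact_mod_cast (hPp p hp).one_lt
    have h2 : (0 : ℝ) ≤ k / ((p : ℝ) - 1) := div_nonneg (Nat.cast_nonneg _) (by linarith)
    have := Real.one_le_exp h2
    simp only [hg]; linarith
  have h1 : ∀ d ∈ Icc 1 J, Real.exp (k * sw w d) = ∑ T ∈ (P.filter (fun p => p ∣ d)).powerset, ∏ p ∈ T, g p := by
    intro d hd
    rw [mem_Icc] at hd
    rw [← prod_one_add]
    unfold sw
    rw [mul_sum, Real.exp_sum]
    have hset : d.primeFactors.filter (fun p => w < p) = P.filter (fun p => p ∣ d) := by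
      ext p
      simp only [mem_filter, hP, mem_Ioc, Nat.mem_primeFactors]
      constructor
      · rintro ⟨⟨a, b, _⟩, e⟩
        exact ⟨⟨⟨e, (Nat.le_of_dvd (by omega) b).trans hd.2⟩, a⟩, b⟩
      · rintro ⟨⟨⟨a, b⟩, c⟩, e⟩
        exact ⟨⟨c, e, by omega⟩, a⟩
    rw [hset]
    apply prod_congr rfl
    intro p _
    simp only [hg]
    rw [mul_one_div]; ring
  rw [sum_congr rfl h1]
  have h2 : ∑ d ∈ Icc 1 J, ∑ T ∈ (P.filter (fun p => p ∣ d)).powerset, ∏ p ∈ T, g p =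
      ∑ T ∈ P.powerset, ∑ d ∈ (Icc 1 J).filter (fun d => ∀ p ∈ T, p ∣ d), ∏ p ∈ T, g p := by
    apply sum_comm'
    intro d T
    simp only [mem_powerset, mem_filter]
    constructor
    · rintro ⟨a, b⟩
      exact ⟨⟨a, fun p hp => (mem_filter.1 (b hp)).2⟩, fun p hp => (mem_filter.1 (b hp)).1⟩
    · rintro ⟨⟨a, b⟩, c⟩
      exact ⟨a, fun p hp => mem_filter.2 ⟨c hp, b p hp⟩⟩
  rw [h2, prod_one_add, mul_sum]
  apply sum_le_sum
  intro T hT
  rw [mem_powerset] at hT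
  rw [sum_const, nsmul_eq_mul, prod_div_distrib]
  have hTpos : (0 : ℝ) < ∏ p ∈ T, (p : ℝ) := prod_pos (fun p hp => by
    have := (hPp p (hT hp)).pos
    exact_mod_cast this)
  have hprodg : 0 ≤ ∏ p ∈ T, g p := prod_nonneg (fun p hp => hg0 p (hT hp))
  have hcard : (((Icc 1 J).filter (fun d => ∀ p ∈ T, p ∣ d)).card : ℝ) ≤ J / ∏ p ∈ T, (p : ℝ) := by
    have h3 : (Icc 1 J).filter (fun d => ∀ p ∈ T, p ∣ d) ⊆ (Ioc 0 J).filter (fun d => (∏ p ∈ T, p) ∣ d) := by
      intro d hd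
      rw [mem_filter, mem_Icc] at hd
      rw [mem_filter, mem_Ioc]
      exact ⟨⟨by omega, hd.1.2⟩, prod_primes_dvd d (fun p hp => (hPp p (hT hp)).prime) hd.2⟩
    have h4 := card_le_card h3
    rw [Nat.Ioc_filter_dvd_card_eq_div] at h4
    have h5 : (((Icc 1 J).filter (fun d => ∀ p ∈ T, p ∣ d)).card : ℝ) ≤ ((J / ∏ p ∈ T, p : ℕ) : ℝ) := by
      exact_mod_cast h4
    refine h5.trans (Nat.cast_div_le.trans ?_)
    push_cast
    exact le_rfl
  calc _ ≤ (J / ∏ p ∈ T, (p : ℝ)) * ∏ p ∈ T, g p := mul_le_mul_of_nonneg_right hcard hprodg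
    _ = _ := by ring

lemma factor_le (w J k : ℕ) (p : ℕ) (hp : p ∈ (Ioc w J).filter Nat.Prime) :
    1 + (Real.exp (k / ((p : ℝ) - 1)) - 1) / p ≤
      Real.exp (2 * k * (1 / ((p : ℝ) - 1) - 1 / p) + (if p ≤ k then 2 * k * (1 / (p : ℝ)) else 0)) := by
  rw [mem_filter, mem_Ioc] at hp
  obtain ⟨⟨hwp, hpJ⟩, hpp⟩ := hp
  have hp2 : (2 : ℝ) ≤ p := by exact_mod_cast hpp.two_le
  have hp1 : (0 : ℝ) < (p : ℝ) - 1 := by linarith
  have hp0 : (0 : ℝ) < p := by linarith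
  have hk0 : (0 : ℝ) ≤ k := Nat.cast_nonneg _
  have hx0 : (0 : ℝ) ≤ k / ((p : ℝ) - 1) := div_nonneg hk0 hp1.le
  have hdiff : 1 / ((p : ℝ) - 1) - 1 / p = 1 / ((p : ℝ) * ((p : ℝ) - 1)) := by
    field_simp; ring
  have hdiff0 : 0 ≤ 1 / ((p : ℝ) - 1) - 1 / p := by rw [hdiff]; positivity
  split_ifs with hpk
  · have h1 : Real.exp (k / ((p : ℝ) - 1)) ≤ Real.exp (2 * k * (1 / ((p : ℝ) - 1) - 1 / p) + 2 * k * (1 / (p : ℝ))) := by
      apply Real.exp_le_exp.2
      have : (k : ℝ) / ((p : ℝ) - 1) ≤ 2 * (k / ((p : ℝ) - 1)) := by linarith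
      calc (k : ℝ) / ((p : ℝ) - 1) ≤ 2 * (k / ((p : ℝ) - 1)) := this
        _ = _ := by ring
    refine le_trans ?_ h1
    have h2 := Real.one_le_exp hx0
    have h3 : (Real.exp (k / ((p : ℝ) - 1)) - 1) / p ≤ Real.exp (k / ((p : ℝ) - 1)) - 1 := by
      apply div_le_self (by linarith) (by linarith)
    linarith
  · have hkp : (k : ℝ) ≤ (p : ℝ) - 1 := by
      have : k + 1 ≤ p := by omega
      have h : (k : ℝ) + 1 ≤ p := by exact_mod_cast this
      linarith
    have hx1 : (k : ℝ) / ((p : ℝ) - 1) ≤ 1 := by rw [div_le_one hp1]; exact hkp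
    have h1 := Real.abs_exp_sub_one_le (x := k / ((p : ℝ) - 1)) (by rw [abs_of_nonneg hx0]; exact hx1)
    rw [abs_of_nonneg hx0] at h1
    have h2 := (le_abs_self _).trans h1
    have h3 : (Real.exp (k / ((p : ℝ) - 1)) - 1) / p ≤ 2 * k * (1 / ((p : ℝ) - 1) - 1 / p) := by
      rw [hdiff, div_le_iff₀ hp0]
      refine h2.trans (le_of_eq ?_)
      field_simp
    have h4 := Real.add_one_le_exp (2 * k * (1 / ((p : ℝ) - 1) - 1 / p) + 0)
    linarith

lemma telesc (w J : ℕ) (hw : 1 ≤ w) :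
    ∑ p ∈ (Ioc w J).filter Nat.Prime, (1 / ((p : ℝ) - 1) - 1 / p) ≤ 1 / w := by
  have h0 : ∀ n ∈ Ioc w J, (0 : ℝ) ≤ 1 / ((n : ℝ) - 1) - 1 / n := by
    intro n hn
    rw [mem_Ioc] at hn
    have : (2 : ℝ) ≤ n := by
      have : 2 ≤ n := by omega
      exact_mod_cast this
    have hdiff : 1 / ((n : ℝ) - 1) - 1 / n = 1 / ((n : ℝ) * ((n : ℝ) - 1)) := by
      have h1 : (n : ℝ) - 1 ≠ 0 := by linarith
      have h2 : (n : ℝ) ≠ 0 := by linarith
      field_simp; ring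
    rw [hdiff]
    apply div_nonneg (by norm_num)
    apply mul_nonneg <;> linarith
  refine (sum_le_sum_of_subset_of_nonneg (filter_subset _ _) (fun n hn _ => h0 n hn)).trans ?_
  rcases le_or_gt w J with h | h
  · have key : ∀ M : ℕ, w ≤ M → ∑ n ∈ Ioc w M, (1 / ((n : ℝ) - 1) - 1 / n) = 1 / w - 1 / M := by
      intro M hM
      induction M, hM using Nat.le_induction with
      | base => simp
      | succ M hM ih =>
        rw [Finset.sum_Ioc_succ_top hM, ih]
        push_cast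
        ring
    rw [key J h]
    have : (0 : ℝ) ≤ 1 / J := by positivity
    linarith
  · rw [Ioc_eq_empty (by omega)]
    simp

/-- the bound for the `k`-th moment -/
noncomputable def Mk (C : ℝ) (w k : ℕ) : ℝ :=
  Real.exp (2 * k / w) * (if k ≤ w then 1 else Real.exp (2 * k * (Real.log (Real.log k) + C)))

theorem mom_bound : ∃ C : ℝ, 0 ≤ C ∧ ∀ w J k : ℕ, 2 ≤ w →
    ∑ d ∈ Icc 1 J, Real.exp (k * sw w d) ≤ J * Mk C w k := by
  obtain ⟨C, hC⟩ := Pool.Agent.Helper256.KM.mertens_inv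
  have hC0 : 0 ≤ C := (abs_nonneg _).trans (hC 3 le_rfl)
  refine ⟨C, hC0, fun w J k hw => ?_⟩
  refine (mom_prod w J k).trans ?_
  apply mul_le_mul_of_nonneg_left _ (Nat.cast_nonneg _)
  set P := (Ioc w J).filter Nat.Prime with hP
  have h1 : ∏ p ∈ P, (1 + (Real.exp (k / ((p : ℝ) - 1)) - 1) / p) ≤
      ∏ p ∈ P, Real.exp (2 * k * (1 / ((p : ℝ) - 1) - 1 / p) + (if p ≤ k then 2 * k * (1 / (p : ℝ)) else 0)) := by
    apply prod_le_prod
    · intro p hp
      have h : (1 : ℝ) < p := by exact_mod_cast (mem_filter.1 hp).2.one_lt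
      have h2 : (0 : ℝ) ≤ k / ((p : ℝ) - 1) := div_nonneg (Nat.cast_nonneg _) (by linarith)
      have h3 := Real.one_le_exp h2
      have h4 : 0 ≤ (Real.exp (k / ((p : ℝ) - 1)) - 1) / p := div_nonneg (by linarith) (by linarith)
      linarith
    · intro p hp
      exact factor_le w J k p hp
  refine h1.trans ?_
  rw [← Real.exp_sum, sum_add_distrib, Real.exp_add]
  unfold Mk
  apply mul_le_mul _ _ (Real.exp_pos _).le (Real.exp_pos _).le
  · apply Real.exp_le_exp.2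
    rw [← mul_sum]
    have h2 := telesc w J (by omega)
    calc 2 * (k : ℝ) * ∑ p ∈ P, (1 / ((p : ℝ) - 1) - 1 / p) ≤ 2 * k * (1 / w) :=
          mul_le_mul_of_nonneg_left h2 (by positivity)
      _ = _ := by ring
  · split_ifs with hkw
    · rw [show (1 : ℝ) = Real.exp 0 by simp]
      apply Real.exp_le_exp.2
      apply le_of_eq
      apply sum_eq_zero
      intro p hp
      rw [hP, mem_filter, mem_Ioc] at hp
      rw [if_neg (by omega)]
    · apply Real.exp_le_exp.2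
      rw [← sum_filter, ← mul_sum]
      apply mul_le_mul_of_nonneg_left _ (by positivity)
      have h3 := (le_abs_self _).trans (hC k (by omega))
      have h4 : ∑ p ∈ P.filter (fun p => p ≤ k), (1 : ℝ) / p ≤ ∑ p ∈ (Icc 1 k).filter Nat.Prime, (1 : ℝ) / p := by
        apply sum_le_sum_of_subset_of_nonneg
        · intro p hp
          rw [mem_filter, hP, mem_filter, mem_Ioc] at hp
          rw [mem_filter, mem_Icc]
          exact ⟨⟨by omega, hp.2⟩, hp.1.2⟩
        · intro p _ _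
          positivity
      linarith

end Pool.Agent.N735.CL
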