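import Mathlib
import Pool.Agent.N735.CL.Mom

set_option autoImplicit false

/-! Averages of `exp (B exp (s d))`. -/

namespace Pool.Agent.N735.CL

open Finset Filter Topology

lemma term_le (C B : ℝ) (hB : 0 ≤ B) (w k : ℕ) (hw : 2 ≤ w) (hk : w < k)
    (h : B * Real.exp (2 + 2 * C) * Real.log k ^ 2 ≤ k / 2) :
    B ^ k / (k.factorial : ℝ) * Mk C w k ≤ (1 / 2) ^ k := by
  unfold Mk
  rw [if_neg (by omega)]
  have hk3 : (3 : ℝ) ≤ k := by exact_mod_cast (by omega : 3 ≤ k)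
  have hk0 : (0 : ℝ) < k := by linarith
  have hlk : 0 < Real.log k := Real.log_pos (by linarith)
  have h1 : (1 : ℝ) / (k.factorial : ℝ) ≤ (Real.exp 1 / k) ^ k := by
    have h2 := Real.pow_div_factorial_le_exp (k : ℝ) hk0.le k
    have h3 : (0 : ℝ) < (k : ℝ) ^ k := by positivity
    rw [div_pow, ← Real.exp_nat_mul, mul_one, le_div_iff₀ h3]
    calc (1 : ℝ) / (k.factorial : ℝ) * (k : ℝ) ^ k = (k : ℝ) ^ k / (k.factorial : ℝ) := by ring
      _ ≤ _ := h2
  have h2 : Real.exp (2 * k / w) ≤ (Real.exp 1) ^ k := by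
    rw [← Real.exp_nat_mul, mul_one]
    apply Real.exp_le_exp.2
    have hw2 : (2 : ℝ) ≤ w := by exact_mod_cast hw
    rw [div_le_iff₀ (by linarith)]
    nlinarith
  have h3 : Real.exp (2 * k * (Real.log (Real.log k) + C)) = (Real.log k ^ 2 * Real.exp (2 * C)) ^ k := by
    have : Real.log k ^ 2 * Real.exp (2 * C) = Real.exp (2 * (Real.log (Real.log k) + C)) := by
      rw [mul_add, Real.exp_add, two_mul (Real.log (Real.log k)), Real.exp_add, Real.exp_log hlk]
      ring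
    rw [this, ← Real.exp_nat_mul]
    congr 1; ring
  rw [h3]
  calc B ^ k / (k.factorial : ℝ) * (Real.exp (2 * k / w) * (Real.log k ^ 2 * Real.exp (2 * C)) ^ k)
      = B ^ k * (1 / (k.factorial : ℝ)) * (Real.exp (2 * k / w) * (Real.log k ^ 2 * Real.exp (2 * C)) ^ k) := by ring
    _ ≤ B ^ k * (Real.exp 1 / k) ^ k * ((Real.exp 1) ^ k * (Real.log k ^ 2 * Real.exp (2 * C)) ^ k) := by
        gcongr
    _ = (B * Real.exp (2 + 2 * C) * Real.log k ^ 2 / k) ^ k := by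
        rw [← mul_pow, ← mul_pow, ← mul_pow]
        congr 1
        have : Real.exp (2 + 2 * C) = Real.exp 1 * Real.exp 1 * Real.exp (2 * C) := by
          rw [← Real.exp_add, ← Real.exp_add]; congr 1; ring
        rw [this]; ring
    _ ≤ (1 / 2) ^ k := by
        apply pow_le_pow_left₀ (by positivity)
        rw [div_le_iff₀ hk0]; linarith

lemma sum_geo (k0 n : ℕ) : ∑ k ∈ (range n).filter (fun k => k0 < k), ((1 : ℝ) / 2) ^ k ≤ (1 / 2) ^ k0 := by
  have h : ∑ k ∈ (range n).filter (fun k => k0 < k), ((1 : ℝ) / 2) ^ k ≤ ∑ k ∈ Ico (k0 + 1) (k0 + 1 + n), ((1 : ℝ) / 2) ^ k := by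
    apply sum_le_sum_of_subset_of_nonneg
    · intro k hk
      rw [mem_filter, mem_range] at hk
      rw [mem_Ico]; omega
    · intro k _ _; positivity
  refine h.trans ?_
  rw [geom_sum_Ico (by norm_num) (by omega)]
  have h1 : (0 : ℝ) ≤ (1 / 2) ^ (k0 + 1 + n) := by positivity
  have h2 : ((1 : ℝ) / 2) ^ (k0 + 1) = (1 / 2) ^ k0 / 2 := by rw [pow_succ]; ring
  rw [h2]
  have : ((1 : ℝ) / 2 - 1) = -(1 / 2) := by norm_num
  rw [this, div_neg, neg_le, ← sub_nonneg]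
  have : ((1 / 2) ^ (k0 + 1 + n) - (1 / 2) ^ k0 / 2) / (1 / 2) - -(1 / 2) ^ k0 = 2 * ((1 : ℝ) / 2) ^ (k0 + 1 + n) := by ring
  rw [this]; positivity

theorem exp_avg (C : ℝ) (hmom : ∀ w J k : ℕ, 2 ≤ w → ∑ d ∈ Icc 1 J, Real.exp (k * sw w d) ≤ J * Mk C w k)
    (B : ℝ) (hB : 0 ≤ B) (w k0 : ℕ) (hw : 2 ≤ w) (hk0 : w ≤ k0)
    (h : ∀ k : ℕ, k0 < k → B * Real.exp (2 + 2 * C) * Real.log k ^ 2 ≤ k / 2) (J : ℕ) :
    ∑ d ∈ Icc 1 J, Real.exp (B * Real.exp (sw w d)) ≤
      J * (∑ k ∈ range (k0 + 1), B ^ k / (k.factorial : ℝ) * Mk C w k + (1 / 2) ^ k0) := by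
  have hlim : Tendsto (fun n => ∑ d ∈ Icc 1 J, ∑ k ∈ range n, (B * Real.exp (sw w d)) ^ k / (k.factorial : ℝ)) atTop
      (𝓝 (∑ d ∈ Icc 1 J, Real.exp (B * Real.exp (sw w d)))) := by
    apply tendsto_finsetSum
    intro d _
    have h1 := NormedSpace.expSeries_div_hasSum_exp (B * Real.exp (sw w d))
    rw [← Real.exp_eq_exp_ℝ] at h1
    exact h1.tendsto_sum_nat
  apply le_of_tendsto' hlim
  intro n
  rw [sum_comm]
  have hJ : (0 : ℝ) ≤ J := Nat.cast_nonneg _
  have hM0 : ∀ k : ℕ, 0 ≤ Mk C w k := by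
    intro k; unfold Mk
    split_ifs <;> positivity
  have h1 : ∀ k ∈ range n, ∑ d ∈ Icc 1 J, (B * Real.exp (sw w d)) ^ k / (k.factorial : ℝ) ≤
      J * (B ^ k / (k.factorial : ℝ) * Mk C w k) := by
    intro k _
    have e : ∑ d ∈ Icc 1 J, (B * Real.exp (sw w d)) ^ k / (k.factorial : ℝ) =
        B ^ k / (k.factorial : ℝ) * ∑ d ∈ Icc 1 J, Real.exp (k * sw w d) := by
      rw [mul_sum]
      apply sum_congr rfl
      intro d _
      rw [mul_pow, Real.exp_nat_mul]; ring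
    rw [e]
    calc _ ≤ B ^ k / (k.factorial : ℝ) * (J * Mk C w k) :=
          mul_le_mul_of_nonneg_left (hmom w J k hw) (by positivity)
      _ = _ := by ring
  refine (sum_le_sum h1).trans ?_
  rw [← mul_sum]
  apply mul_le_mul_of_nonneg_left _ hJ
  rw [← sum_filter_add_sum_filter_not (range n) (fun k => k0 < k), add_comm]
  apply add_le_add
  · apply sum_le_sum_of_subset_of_nonneg
    · intro k hk
      rw [mem_filter] at hk
      rw [mem_range]; omega
    · intro k _ _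
      exact mul_nonneg (by positivity) (hM0 k)
  · refine le_trans (sum_le_sum ?_) (sum_geo k0 n)
    intro k hk
    rw [mem_filter] at hk
    exact term_le C B hB w k hw (lt_of_le_of_lt hk0 hk.2) (h k hk.2)

/-- `∏_{p ≤ w} (1 - 1 / p)` -/
noncomputable def Vw (w : ℕ) : ℝ := ∏ p ∈ (Icc 1 w).filter Nat.Prime, (1 - 1 / (p : ℝ))

lemma Vw_pos (w : ℕ) : 0 < Vw w := by
  unfold Vw
  apply prod_pos
  intro p hp
  have h : (1 : ℝ) < p := by exact_mod_cast (mem_filter.1 hp).2.one_lt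
  have : 1 / (p : ℝ) < 1 := by rw [div_lt_one (by linarith)]; exact h
  linarith

lemma Vw_le_one (w : ℕ) : Vw w ≤ 1 := by
  unfold Vw
  apply prod_le_one
  · intro p hp
    have h : (1 : ℝ) < p := by exact_mod_cast (mem_filter.1 hp).2.one_lt
    have : 1 / (p : ℝ) < 1 := by rw [div_lt_one (by linarith)]; exact h
    linarith
  · intro p hp
    have : (0 : ℝ) ≤ 1 / (p : ℝ) := by positivity
    linarith

lemma Vw_inv_le (C : ℝ) (hC : ∀ N : ℕ, 3 ≤ N →
    |∑ p ∈ (Finset.Icc 1 N).filter Nat.Prime, (1 : ℝ) / p - Real.log (Real.log N)| ≤ C) (w : ℕ) (hw : 3 ≤ w) :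
    (Vw w)⁻¹ ≤ Real.exp (2 * C) * Real.log w ^ 2 := by
  have hlw : 0 < Real.log w := Real.log_pos (by exact_mod_cast (by omega : 1 < w))
  have h1 : (Vw w)⁻¹ ≤ ∏ p ∈ (Icc 1 w).filter Nat.Prime, Real.exp (2 * (1 / (p : ℝ))) := by
    unfold Vw
    rw [← prod_inv_distrib]
    apply Finset.prod_le_prod
    · intro p hp
      have h : (1 : ℝ) < p := by exact_mod_cast (mem_filter.1 hp).2.one_lt
      have : 1 / (p : ℝ) < 1 := by rw [div_lt_one (by linarith)]; exact h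
      apply inv_nonneg.2; linarith
    · intro p hp
      have h : (2 : ℝ) ≤ p := by exact_mod_cast (mem_filter.1 hp).2.two_le
      have h0 : (0 : ℝ) < p := by linarith
      have h2 : 1 / (p : ℝ) ≤ 1 / 2 := one_div_le_one_div_of_le (by norm_num) h
      have h3 : 0 < 1 / (p : ℝ) := by positivity
      have h4 := Real.add_one_le_exp (2 * (1 / (p : ℝ)))
      refine le_trans ?_ h4
      rw [inv_le_comm₀ (by linarith) (by linarith), ← one_div, div_le_iff₀ (by linarith)]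
      nlinarith
  refine h1.trans ?_
  rw [← Real.exp_sum, ← mul_sum]
  have h2 := (le_abs_self _).trans (hC w hw)
  calc Real.exp (2 * ∑ p ∈ (Icc 1 w).filter Nat.Prime, 1 / (p : ℝ)) ≤ Real.exp (2 * C + 2 * Real.log (Real.log w)) := by
        apply Real.exp_le_exp.2; linarith
    _ = _ := by
        rw [Real.exp_add, two_mul (Real.log (Real.log w)), Real.exp_add, Real.exp_log hlw]; ring

lemma log4 (c : ℝ) (hc : 0 ≤ c) : ∀ᶠ k : ℕ in atTop, c * Real.log k ^ 4 ≤ k := by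
  have h1 := (Real.isLittleO_pow_log_id_atTop (n := 4)).bound (show (0 : ℝ) < 1 / (c + 1) by positivity)
  have h2 := (tendsto_natCast_atTop_atTop (R := ℝ)).eventually h1
  filter_upwards [h2, eventually_ge_atTop 1] with k hk hk1
  have hk0 : (0 : ℝ) ≤ k := Nat.cast_nonneg _
  have hl : 0 ≤ Real.log (k : ℝ) := Real.log_nonneg (by exact_mod_cast hk1)
  rw [Real.norm_of_nonneg (by positivity), id, Real.norm_of_nonneg hk0] at hk
  have : c * Real.log k ^ 4 ≤ c * (1 / (c + 1) * k) := mul_le_mul_of_nonneg_left hk hc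
  refine this.trans ?_
  have h3 : c * (1 / (c + 1) * k) = (c / (c + 1)) * k := by ring
  rw [h3]
  have h4 : c / (c + 1) ≤ 1 := by rw [div_le_one (by linarith)]; linarith
  nlinarith

theorem main_avg (c τ : ℝ) (hc : 0 ≤ c) (hτ : 0 < τ) : ∃ w0 : ℕ, ∀ w : ℕ, w0 ≤ w → ∀ J : ℕ,
    ∑ d ∈ Icc 1 J, Real.exp (c / Vw w * (Real.exp (sw w d) - 1)) ≤ J * (1 + τ) := by
  obtain ⟨C, hC0, hmom⟩ := mom_bound
  obtain ⟨C', hC'⟩ := Pool.Agent.Helper256.KM.mertens_inv
  set c1 := c * Real.exp (2 * C') with hc1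
  have hc10 : 0 ≤ c1 := by positivity
  set c2 := 2 * (c1 * Real.exp (2 + 2 * C)) with hc2
  have hc20 : 0 ≤ c2 := by positivity
  obtain ⟨n1, h1⟩ := eventually_atTop.1 (log4 c2 hc20)
  have hexp : Tendsto (fun x : ℝ => Real.exp x) (𝓝 0) (𝓝 1) := by
    have := Real.continuous_exp.tendsto 0
    rwa [Real.exp_zero] at this
  have hev : ∀ᶠ x : ℝ in 𝓝 0, Real.exp x < 1 + τ / 2 := hexp.eventually_lt_const (by linarith)
  obtain ⟨θ, hθ0, hθ⟩ : ∃ θ : ℝ, 0 < θ ∧ ∀ x : ℝ, 0 ≤ x → x ≤ θ → Real.exp x ≤ 1 + τ / 2 := by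
    obtain ⟨θ, h0, hb⟩ := Metric.eventually_nhds_iff.1 hev
    refine ⟨θ / 2, by positivity, fun x hx0 hx => (hb ?_).le⟩
    rw [Real.dist_eq, sub_zero, abs_of_nonneg hx0]; linarith
  obtain ⟨n2, h2⟩ := eventually_atTop.1 (log4 (4 * c1 / θ) (by positivity))
  have hhalf : Tendsto (fun n : ℕ => ((1 : ℝ) / 2) ^ n) atTop (𝓝 0) :=
    tendsto_pow_atTop_nhds_zero_of_lt_one (by norm_num) (by norm_num)
  obtain ⟨n3, h3⟩ := eventually_atTop.1 (hhalf.eventually_lt_const (show (0 : ℝ) < τ / 2 by positivity))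
  refine ⟨max (max n1 n2) (max n3 3), fun w hw J => ?_⟩
  have b1 : n1 ≤ w := le_trans (le_trans (le_max_left _ _) (le_max_left _ _)) hw
  have b2 : n2 ≤ w := le_trans (le_trans (le_max_right _ _) (le_max_left _ _)) hw
  have b3 : n3 ≤ w := le_trans (le_trans (le_max_left _ _) (le_max_right _ _)) hw
  have b4 : 3 ≤ w := le_trans (le_trans (le_max_right _ _) (le_max_right _ _)) hw
  have hw3 : (3 : ℝ) ≤ w := by exact_mod_cast b4
  have hw0 : (0 : ℝ) < w := by linarith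
  have hlw : 1 ≤ Real.log w := by
    rw [Real.le_log_iff_exp_le hw0]
    linarith [Real.exp_one_lt_d9]
  have hV := Vw_inv_le C' hC' w b4
  set B := c / Vw w with hB
  have hB0 : 0 ≤ B := div_nonneg hc (Vw_pos w).le
  have hBle : B ≤ c1 * Real.log w ^ 2 := by
    rw [hB, div_eq_mul_inv, hc1]
    calc c * (Vw w)⁻¹ ≤ c * (Real.exp (2 * C') * Real.log w ^ 2) := mul_le_mul_of_nonneg_left hV hc
      _ = _ := by ring
  have hcond : ∀ k : ℕ, w < k → B * Real.exp (2 + 2 * C) * Real.log k ^ 2 ≤ k / 2 := by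
    intro k hk
    have hkr : (w : ℝ) ≤ k := by exact_mod_cast hk.le
    have hlk : Real.log w ≤ Real.log k := Real.log_le_log hw0 hkr
    have h5 := h1 k (by omega)
    have h6 : Real.log w ^ 2 ≤ Real.log k ^ 2 := pow_le_pow_left₀ (by linarith) hlk 2
    have h7 : B ≤ c1 * Real.log k ^ 2 := hBle.trans (mul_le_mul_of_nonneg_left h6 hc10)
    have h8 : B * Real.exp (2 + 2 * C) * Real.log k ^ 2 ≤ c1 * Real.log k ^ 2 * Real.exp (2 + 2 * C) * Real.log k ^ 2 := by
      gcongr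
    have h9 : c1 * Real.log k ^ 2 * Real.exp (2 + 2 * C) * Real.log k ^ 2 = c2 * Real.log k ^ 4 / 2 := by
      rw [hc2]; ring
    rw [h9] at h8
    linarith
  have h4 := exp_avg C hmom B hB0 w w (by omega) le_rfl hcond J
  have hJ : (0 : ℝ) ≤ J := Nat.cast_nonneg _
  have e1 : ∑ d ∈ Icc 1 J, Real.exp (B * (Real.exp (sw w d) - 1)) =
      Real.exp (-B) * ∑ d ∈ Icc 1 J, Real.exp (B * Real.exp (sw w d)) := by
    rw [mul_sum]
    apply sum_congr rfl
    intro d _
    rw [← Real.exp_add]; congr 1; ring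
  rw [e1]
  have h5 : ∑ k ∈ range (w + 1), B ^ k / (k.factorial : ℝ) * Mk C w k ≤ Real.exp (B * Real.exp (2 / w)) := by
    refine le_trans (le_of_eq (sum_congr rfl ?_)) (Real.sum_le_exp_of_nonneg (by positivity) (w + 1))
    intro k hk
    rw [mem_range] at hk
    unfold Mk
    rw [if_pos (by omega), mul_one, mul_pow, ← Real.exp_nat_mul]
    have : 2 * (k : ℝ) / w = k * (2 / w) := by ring
    rw [this]; ring
  have hx0 : (0 : ℝ) ≤ 2 / w := by positivity
  have hx1 : (2 : ℝ) / w ≤ 1 := by rw [div_le_one hw0]; linarith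
  have h6 : Real.exp (2 / w) - 1 ≤ 2 * (2 / w) := by
    have := Real.abs_exp_sub_one_le (x := 2 / (w : ℝ)) (by rw [abs_of_nonneg hx0]; exact hx1)
    rw [abs_of_nonneg hx0] at this
    exact (le_abs_self _).trans this
  have h7 : Real.exp (-B) * Real.exp (B * Real.exp (2 / w)) ≤ 1 + τ / 2 := by
    rw [← Real.exp_add]
    have h8 : -B + B * Real.exp (2 / w) ≤ 4 * B / w := by
      have : -B + B * Real.exp (2 / w) = B * (Real.exp (2 / w) - 1) := by ring
      rw [this]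
      calc B * (Real.exp (2 / w) - 1) ≤ B * (2 * (2 / w)) := mul_le_mul_of_nonneg_left h6 hB0
        _ = _ := by ring
    have h9 : 4 * B / w ≤ θ := by
      rw [div_le_iff₀ hw0]
      have h10 := h2 w b2
      have h11 : Real.log w ^ 2 ≤ Real.log w ^ 4 := pow_le_pow_right₀ hlw (by norm_num)
      have h12 : 4 * c1 / θ * Real.log w ^ 4 = 4 * c1 * Real.log w ^ 4 / θ := by ring
      rw [h12, div_le_iff₀ hθ0] at h10
      calc 4 * B ≤ 4 * (c1 * Real.log w ^ 2) := by linarith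
        _ ≤ 4 * (c1 * Real.log w ^ 4) := by
            have := mul_le_mul_of_nonneg_left h11 hc10
            linarith
        _ = 4 * c1 * Real.log w ^ 4 := by ring
        _ ≤ w * θ := h10
        _ = θ * w := by ring
    exact (Real.exp_le_exp.2 h8).trans (hθ _ (by positivity) h9)
  have h8 : Real.exp (-B) * (1 / 2) ^ w ≤ τ / 2 := by
    have : Real.exp (-B) ≤ 1 := Real.exp_le_one_iff.2 (by linarith)
    have h9 := h3 w b3
    have h10 : (0 : ℝ) ≤ (1 / 2) ^ w := by positivity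
    nlinarith
  calc Real.exp (-B) * ∑ d ∈ Icc 1 J, Real.exp (B * Real.exp (sw w d))
      ≤ Real.exp (-B) * (J * (∑ k ∈ range (w + 1), B ^ k / (k.factorial : ℝ) * Mk C w k + (1 / 2) ^ w)) :=
        mul_le_mul_of_nonneg_left h4 (Real.exp_pos _).le
    _ ≤ Real.exp (-B) * (J * (Real.exp (B * Real.exp (2 / w)) + (1 / 2) ^ w)) := by gcongr
    _ = J * (Real.exp (-B) * Real.exp (B * Real.exp (2 / w)) + Real.exp (-B) * (1 / 2) ^ w) := by ring
    _ ≤ J * ((1 + τ / 2) + τ / 2) := by gcongr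
    _ = _ := by ring

theorem exc_avg (w : ℕ) (hw : 2 ≤ w) (B : ℝ) (hB : 0 ≤ B) : ∃ C₃ : ℝ, 0 ≤ C₃ ∧ ∀ J : ℕ,
    ∑ d ∈ Icc 1 J, Real.exp (B * Real.exp (sw w d)) ≤ J * C₃ := by
  obtain ⟨C, hC0, hmom⟩ := mom_bound
  obtain ⟨n1, h1⟩ := eventually_atTop.1 (log4 (2 * (B * Real.exp (2 + 2 * C))) (by positivity))
  set k0 := max (max n1 w) 3 with hk0
  have hM0 : ∀ k : ℕ, 0 ≤ Mk C w k := by
    intro k; unfold Mk
    split_ifs <;> positivity
  refine ⟨∑ k ∈ range (k0 + 1), B ^ k / (k.factorial : ℝ) * Mk C w k + (1 / 2) ^ k0, ?_, fun J =>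
    exp_avg C hmom B hB w k0 hw (le_trans (le_max_right _ _) (le_max_left _ _)) ?_ J⟩
  · apply add_nonneg _ (by positivity)
    apply sum_nonneg
    intro k _
    exact mul_nonneg (by positivity) (hM0 k)
  · intro k hk
    have hk1 : n1 ≤ k := le_trans (le_trans (le_max_left _ _) (le_max_left _ _)) hk.le
    have hk3 : 3 ≤ k := le_trans (le_max_right _ _) hk.le
    have hk3r : (3 : ℝ) ≤ k := by exact_mod_cast hk3
    have hlk : 1 ≤ Real.log k := by
      rw [Real.le_log_iff_exp_le (by linarith)]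
      linarith [Real.exp_one_lt_d9]
    have h2 := h1 k hk1
    have h3 : Real.log k ^ 2 ≤ Real.log k ^ 4 := pow_le_pow_right₀ hlk (by norm_num)
    have h4 : B * Real.exp (2 + 2 * C) * Real.log k ^ 2 ≤ B * Real.exp (2 + 2 * C) * Real.log k ^ 4 :=
      mul_le_mul_of_nonneg_left h3 (by positivity)
    linarith

end Pool.Agent.N735.CL
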