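import Mathlib
import Pool.Agent.H560R3.GB.Tup3
import Pool.Agent.H262R2.UK.Pair
import Pool.Agent.N735.CL.Ser

set_option autoImplicit false

/-! The number of the prime pairs with a given difference. -/

namespace Pool.Agent.N735.CL

open Finset Filter Topology
open Pool.Agent.H373R2.T7
open Pool.Agent.H560R3.GB
open Pool.Agent.H646 (rat)

lemma rat_eq (d : ℕ) (hd : 0 < d) : rat d = ∏ p ∈ d.primeFactors, (1 - 1 / (p : ℝ))⁻¹ := by
  unfold Pool.Agent.H646.rat
  have h1 := Nat.totient_eq_mul_prod_factors d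
  have h2 : (d.totient : ℝ) = d * ∏ p ∈ d.primeFactors, (1 - (p : ℝ)⁻¹) := by
    have := congrArg (fun x : ℚ => (x : ℝ)) h1
    push_cast at this
    exact this
  have hpos : 0 < ∏ p ∈ d.primeFactors, (1 - (p : ℝ)⁻¹) := by
    apply prod_pos
    intro p hp
    have h : (1 : ℝ) < p := by exact_mod_cast (Nat.prime_of_mem_primeFactors hp).one_lt
    have : (p : ℝ)⁻¹ < 1 := inv_lt_one_of_one_lt₀ h
    linarith
  have hd0 : (d : ℝ) ≠ 0 := by positivity
  rw [h2, prod_inv_distrib]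
  simp only [one_div]
  field_simp

lemma nuP_le (a : Fin 1 → ℤ) (p : ℕ) : nuP a p ≤ p := by
  unfold nuP
  refine (card_filter_le _ _).trans ?_
  rw [card_range]

lemma nuP_ge_one (a : Fin 1 → ℤ) (p : ℕ) (hp : p.Prime) : 1 ≤ nuP a p := by
  unfold nuP
  apply card_pos.2
  exact ⟨0, mem_filter.2 ⟨mem_range.2 hp.pos, Or.inl (dvd_zero _)⟩⟩

lemma nuP_ge_two (d p : ℕ) (hp : p.Prime) (hd : ¬ p ∣ d) : 2 ≤ nuP (fun _ : Fin 1 => (d : ℤ)) p := by
  unfold nuP
  set r := p - d % p with hr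
  have h1 : 0 < d % p := by
    rcases Nat.eq_zero_or_pos (d % p) with h | h
    · exact absurd (Nat.dvd_of_mod_eq_zero h) hd
    · exact h
  have h2 : d % p < p := Nat.mod_lt _ hp.pos
  have hr0 : r ≠ 0 := by omega
  have hrp : r < p := by omega
  have h3 : ({0, r} : Finset ℕ) ⊆ (range p).filter (fun r => p ∣ r ∨ ∃ i : Fin 1, (p : ℤ) ∣ (r : ℤ) + (fun _ : Fin 1 => (d : ℤ)) i) := by
    intro x hx
    rw [mem_insert, mem_singleton] at hx
    rcases hx with rfl | rfl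
    · exact mem_filter.2 ⟨mem_range.2 hp.pos, Or.inl (dvd_zero _)⟩
    · refine mem_filter.2 ⟨mem_range.2 hrp, Or.inr ⟨0, ?_⟩⟩
      have h4 : p ∣ r + d := by
        have h5 := Nat.div_add_mod d p
        refine ⟨1 + d / p, ?_⟩
        rw [mul_add, mul_one]
        omega
      have h7 : (p : ℤ) ∣ ((r + d : ℕ) : ℤ) := by exact_mod_cast h4
      push_cast at h7
      exact h7
  have h6 := card_le_card h3
  rw [card_pair (Ne.symm hr0)] at h6
  exact h6

lemma singZ_le (d z : ℕ) (hd : 0 < d) : singZ (fun _ : Fin 1 => (d : ℤ)) z ≤ rat d := by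
  classical
  rw [rat_eq d hd]
  unfold singZ
  have hfac : ∀ p ∈ (Icc 1 z).filter Nat.Prime, 0 ≤ (1 - (nuP (fun _ : Fin 1 => (d : ℤ)) p : ℝ) / p) / (1 - 1 / (p : ℝ)) ^ (1 + 1) ∧
      (1 - (nuP (fun _ : Fin 1 => (d : ℤ)) p : ℝ) / p) / (1 - 1 / (p : ℝ)) ^ (1 + 1) ≤ (if p ∣ d then (1 - 1 / (p : ℝ))⁻¹ else 1) := by
    intro p hp
    have hpp := (mem_filter.1 hp).2
    have hp2 : (2 : ℝ) ≤ p := by exact_mod_cast hpp.two_le
    have hp0 : (0 : ℝ) < p := by linarith
    have h1p : 0 < 1 - 1 / (p : ℝ) := by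
      have : 1 / (p : ℝ) < 1 := by rw [div_lt_one hp0]; linarith
      linarith
    have hn : (nuP (fun _ : Fin 1 => (d : ℤ)) p : ℝ) ≤ p := by exact_mod_cast nuP_le _ p
    constructor
    · apply div_nonneg _ (by positivity)
      have : (nuP (fun _ : Fin 1 => (d : ℤ)) p : ℝ) / p ≤ 1 := by rw [div_le_one hp0]; exact hn
      linarith
    · split_ifs with hpd
      · have h1 : (1 : ℝ) ≤ nuP (fun _ : Fin 1 => (d : ℤ)) p := by exact_mod_cast nuP_ge_one _ p hpp
        rw [div_le_iff₀ (by positivity)]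
        have h2 : (1 - 1 / (p : ℝ))⁻¹ * (1 - 1 / (p : ℝ)) ^ (1 + 1) = 1 - 1 / (p : ℝ) := by
          rw [pow_succ, pow_one, ← mul_assoc, inv_mul_cancel₀ h1p.ne', one_mul]
        rw [h2]
        have : 1 / (p : ℝ) ≤ (nuP (fun _ : Fin 1 => (d : ℤ)) p : ℝ) / p := by
          apply div_le_div_of_nonneg_right h1 hp0.le
        linarith
      · have h1 : (2 : ℝ) ≤ nuP (fun _ : Fin 1 => (d : ℤ)) p := by exact_mod_cast nuP_ge_two d p hpp hpd
        rw [div_le_one (by positivity)]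
        have h2 : 2 / (p : ℝ) ≤ (nuP (fun _ : Fin 1 => (d : ℤ)) p : ℝ) / p := by
          apply div_le_div_of_nonneg_right h1 hp0.le
        have h3 : 2 / (p : ℝ) = 2 * (1 / (p : ℝ)) := by ring
        nlinarith [sq_nonneg (1 / (p : ℝ))]
  refine (prod_le_prod (fun p hp => (hfac p hp).1) (fun p hp => (hfac p hp).2)).trans ?_
  rw [← prod_filter]
  have hone : ∀ p ∈ d.primeFactors, 1 ≤ (1 - 1 / (p : ℝ))⁻¹ := by
    intro p hp
    have h : (1 : ℝ) < p := by exact_mod_cast (Nat.prime_of_mem_primeFactors hp).one_lt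
    have h1 : 1 / (p : ℝ) < 1 := by rw [div_lt_one (by linarith)]; exact h
    have h2 : 0 < 1 / (p : ℝ) := by positivity
    rw [one_le_inv₀ (by linarith)]
    linarith
  apply Pool.Agent.H646.Sv3M.prod_mono_set
  · intro p hp
    rw [mem_filter, mem_filter] at hp
    rw [Nat.mem_primeFactors]
    exact ⟨hp.1.2, hp.2, by omega⟩
  · exact hone

/-- the product of the primes up to `w` -/
def Ww (w : ℕ) : ℕ := ∏ p ∈ (Icc 1 w).filter Nat.Prime, p

lemma Ww_pos (w : ℕ) : 0 < Ww w := prod_pos (fun p hp => (mem_filter.1 hp).2.pos)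

lemma dvd_Ww {w p : ℕ} (hp : p.Prime) (h : p ∣ Ww w) : p ≤ w := by
  unfold Ww at h
  obtain ⟨q, hq, hpq⟩ := (Prime.dvd_finsetProd_iff hp.prime _).1 h
  rw [mem_filter, mem_Icc] at hq
  have := (Nat.prime_dvd_prime_iff_eq hp hq.2).1 hpq
  omega

lemma dvd_Ww_of {w p : ℕ} (hp : p.Prime) (h : p ≤ w) : p ∣ Ww w :=
  dvd_prod_of_mem _ (mem_filter.2 ⟨mem_Icc.2 ⟨hp.pos, h⟩, hp⟩)

lemma rat_W (w d : ℕ) (hd : 0 < d) : rat (Ww w * d) ≤ (Vw w)⁻¹ * Real.exp (sw w d) := by
  classical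
  rw [rat_eq _ (Nat.mul_pos (Ww_pos w) hd)]
  have hone : ∀ p : ℕ, p.Prime → 1 ≤ (1 - 1 / (p : ℝ))⁻¹ ∧ (1 - 1 / (p : ℝ))⁻¹ ≤ Real.exp (1 / ((p : ℝ) - 1)) := by
    intro p hp
    have h : (1 : ℝ) < p := by exact_mod_cast hp.one_lt
    have h1 : 1 / (p : ℝ) < 1 := by rw [div_lt_one (by linarith)]; exact h
    have h2 : 0 < 1 / (p : ℝ) := by positivity
    constructor
    · rw [one_le_inv₀ (by linarith)]
      linarith
    · have h3 := Real.add_one_le_exp (1 / ((p : ℝ) - 1))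
      refine le_trans (le_of_eq ?_) h3
      have h4 : (p : ℝ) ≠ 0 := by linarith
      have h5 : (p : ℝ) - 1 ≠ 0 := by linarith
      have h6 : 1 - 1 / (p : ℝ) = ((p : ℝ) - 1) / p := by field_simp
      rw [h6, inv_div]
      field_simp
      ring
  set S := (Icc 1 w).filter Nat.Prime with hS
  set T := d.primeFactors.filter (fun p => w < p) with hT
  have hsub : (Ww w * d).primeFactors ⊆ S ∪ T := by
    intro p hp
    rw [Nat.mem_primeFactors] at hp
    obtain ⟨hpp, hpd, _⟩ := hp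
    rw [mem_union]
    rcases le_or_gt p w with h | h
    · left
      rw [hS, mem_filter, mem_Icc]
      exact ⟨⟨hpp.pos, h⟩, hpp⟩
    · right
      rw [hT, mem_filter, Nat.mem_primeFactors]
      refine ⟨⟨hpp, ?_, by omega⟩, h⟩
      rcases (Nat.Prime.dvd_mul hpp).1 hpd with h1 | h1
      · have := dvd_Ww hpp h1
        omega
      · exact h1
  have hdis : Disjoint S T := by
    rw [disjoint_left]
    intro p hp hp2
    rw [hS, mem_filter, mem_Icc] at hp
    rw [hT, mem_filter] at hp2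
    omega
  calc ∏ p ∈ (Ww w * d).primeFactors, (1 - 1 / (p : ℝ))⁻¹ ≤ ∏ p ∈ S ∪ T, (1 - 1 / (p : ℝ))⁻¹ := by
        apply Pool.Agent.H646.Sv3M.prod_mono_set hsub
        intro p hp
        rw [mem_union, hS, hT, mem_filter, mem_filter, Nat.mem_primeFactors] at hp
        rcases hp with hp | hp
        · exact (hone p hp.2).1
        · exact (hone p hp.1.1).1
    _ = (∏ p ∈ S, (1 - 1 / (p : ℝ))⁻¹) * ∏ p ∈ T, (1 - 1 / (p : ℝ))⁻¹ := prod_union hdis
    _ = (Vw w)⁻¹ * ∏ p ∈ T, (1 - 1 / (p : ℝ))⁻¹ := by unfold Vw; rw [prod_inv_distrib]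
    _ ≤ (Vw w)⁻¹ * Real.exp (sw w d) := by
        apply mul_le_mul_of_nonneg_left _ (inv_nonneg.2 (Vw_pos w).le)
        unfold sw
        rw [Real.exp_sum]
        apply Finset.prod_le_prod
        · intro p hp
          rw [hT, mem_filter, Nat.mem_primeFactors] at hp
          exact zero_le_one.trans (hone p hp.1.1).1
        · intro p hp
          rw [hT, mem_filter, Nat.mem_primeFactors] at hp
          exact (hone p hp.1.1).2

lemma ev_small (δ δ' : ℝ) (hδ : 0 < δ) (hδ' : 0 < δ') (U : ℕ) : ∀ᶠ N : ℕ in atTop,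
    Real.log N ^ U * (N : ℝ) ^ (1 - δ') ≤ δ * N := by
  have h := (isLittleO_log_rpow_rpow_atTop (U : ℝ) hδ').bound hδ
  filter_upwards [(tendsto_natCast_atTop_atTop (R := ℝ)).eventually h, eventually_ge_atTop 1] with N hN hN1
  have hN1r : (1 : ℝ) ≤ N := by exact_mod_cast hN1
  have h0 : 0 ≤ Real.log (N : ℝ) := Real.log_nonneg hN1r
  rw [Real.norm_of_nonneg (by positivity), Real.norm_of_nonneg (by positivity), Real.rpow_natCast] at hN
  calc Real.log N ^ U * (N : ℝ) ^ (1 - δ') ≤ (δ * (N : ℝ) ^ δ') * (N : ℝ) ^ (1 - δ') := by gcongr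
    _ = δ * ((N : ℝ) ^ δ' * (N : ℝ) ^ (1 - δ')) := by ring
    _ = δ * N := by
        rw [← Real.rpow_add (by linarith)]
        simp

theorem pairs_good (U : ℕ) (δ : ℝ) (hδ : 0 < δ) : ∃ X0 : ℕ, ∀ X : ℕ, X0 ≤ X → ∃ Ex : Finset ℕ,
    (Ex.card : ℝ) ≤ X / Real.log X ^ U ∧ ∀ d ∈ Icc 1 X, d ∉ Ex →
      (primeTuples (fun _ : Fin 1 => d) X : ℝ) ≤ ((1 + δ) * rat d + δ) * (X / Real.log X ^ 2) := by
  classical
  obtain ⟨B0, hB0⟩ := ftuples 1 1 1 0 (U + 1) le_rfl
  obtain ⟨n1, h1⟩ := hB0 (B0 + 1)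
  obtain ⟨δ', hδ'0, hδ'1, hδ'⟩ : ∃ δ' : ℝ, 0 < δ' ∧ δ' < 1 ∧ 1 ≤ (1 + δ / 2) * (1 - δ') ^ 2 := by
    have h1 : ∀ᶠ x : ℝ in nhds 0, 1 < (1 + δ / 2) * (1 - x) ^ 2 := by
      apply ContinuousAt.eventually_lt
      · fun_prop
      · fun_prop
      · simp; exact hδ
    have h3 : ∀ᶠ x : ℝ in nhds 0, x < 1 := by
      apply ContinuousAt.eventually_lt continuousAt_id continuousAt_const
      simp
    have h4 : ∀ᶠ x : ℝ in nhdsWithin 0 (Set.Ioi 0), x ∈ Set.Ioi (0 : ℝ) := self_mem_nhdsWithin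
    obtain ⟨x, hx⟩ := (((h1.and h3).filter_mono nhdsWithin_le_nhds).and h4).exists
    exact ⟨x, hx.2, hx.1.2, hx.1.1.le⟩
  obtain ⟨n2, h2⟩ := eventually_atTop.1 (ev_small (δ / 4) δ' (by positivity) hδ'0 2)
  obtain ⟨n3, h3⟩ := ev_L' (2 ^ (B0 + 1) + 4 * (1 + δ / 2) / δ + 2)
  refine ⟨max (max n1 n2) (max n3 3), fun X hX => ?_⟩
  have b1 := h1 X (le_trans (le_trans (le_max_left _ _) (le_max_left _ _)) hX)
  have b2 := h2 X (le_trans (le_trans (le_max_right _ _) (le_max_left _ _)) hX)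
  have b3 := h3 X (le_trans (le_trans (le_max_left _ _) (le_max_right _ _)) hX)
  have hX3 : 3 ≤ X := le_trans (le_trans (le_max_right _ _) (le_max_right _ _)) hX
  have hX3r : (3 : ℝ) ≤ X := by exact_mod_cast hX3
  have hX0 : (0 : ℝ) < X := by linarith
  set L := Real.log (X : ℝ) with hL
  have q1 : (0 : ℝ) < 2 ^ (B0 + 1) := by positivity
  have q2 : 0 < 4 * (1 + δ / 2) / δ := by positivity
  have hL2 : 2 ≤ L := by linarith
  have hL1 : 1 ≤ L := by linarith
  have hL0 : 0 < L := by linarith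
  obtain ⟨z, hz1, hz2⟩ : ∃ z : ℕ, L ^ B0 ≤ z ∧ (z : ℝ) ≤ L ^ (B0 + 1) := by
    refine ⟨⌈L ^ B0⌉₊, Nat.le_ceil _, ?_⟩
    have := (Nat.ceil_lt_add_one (show 0 ≤ L ^ B0 by positivity)).le
    have h4 : 1 ≤ L ^ B0 := one_le_pow₀ hL1
    have h5 : L ^ (B0 + 1) = L ^ B0 * L := pow_succ _ _
    nlinarith
  have hmain := b1 (fun _ => X) (fun _ m => m) (fun _ => by omega)
    (by
      intro i m hm
      have := (mem_Icc.1 hm).2
      show m ≤ 1 * X
      omega)
    (by
      intro i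
      have he : Pool.Agent.H373R2.T7.energy 1 X (fun m => (m : ℤ)) ≤ X := by
        unfold Pool.Agent.H373R2.T7.energy
        have : (((Fintype.piFinset fun _ : Fin 1 => Icc 1 X) ×ˢ (Fintype.piFinset fun _ : Fin 1 => Icc 1 X)).filter
            (fun q => ∑ i, ((q.1 i : ℕ) : ℤ) = ∑ i, ((q.2 i : ℕ) : ℤ))).card ≤ (Icc 1 X).card := by
          apply card_le_card_of_injOn (fun q => q.1 0)
          · intro q hq
            rw [mem_coe, mem_filter, mem_product, Fintype.mem_piFinset] at hq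
            exact hq.1.1 0
          · intro q hq q' hq' hqq
            rw [mem_coe, mem_filter] at hq hq'
            have a1 := hq.2
            have a2 := hq'.2
            simp only [Fin.sum_univ_one, Fin.isValue, Nat.cast_inj] at a1 a2 hqq
            ext i
            · rw [Subsingleton.elim i 0]; exact hqq
            · rw [Subsingleton.elim i 0, ← a1, ← a2]; exact hqq
        refine this.trans (le_of_eq ?_)
        simp
      have he' : (Pool.Agent.H373R2.T7.energy 1 X (fun m => (m : ℤ)) : ℝ) ≤ X := by exact_mod_cast he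
      rw [pow_zero, one_mul, mul_one]
      show (Pool.Agent.H373R2.T7.energy 1 X (fun m => (m : ℤ)) : ℝ) * X ≤ (X : ℝ) ^ 2
      nlinarith) z hz1 hz2
  set Ex := (Icc 1 X).filter (fun d : ℕ => (X : ℝ) / L ^ (U + 1) <
    |tupleCount (fun _ : Fin 1 => (d : ℤ)) X - singZ (fun _ : Fin 1 => (d : ℤ)) z * X|) with hEx
  refine ⟨Ex, ?_, fun d hd hdE => ?_⟩
  · have hc : Ex.card ≤ ((Fintype.piFinset (fun _ : Fin 1 => Icc 1 X)).filter (fun m : Fin 1 → ℕ => (X : ℝ) / L ^ (U + 1) <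
        |tupleCount (fun i => ((m i : ℕ) : ℤ)) X - singZ (fun i => ((m i : ℕ) : ℤ)) z * X|)).card := by
      apply card_le_card_of_injOn (fun d => fun _ : Fin 1 => d)
      · intro d hd
        rw [mem_coe, hEx, mem_filter] at hd
        rw [mem_coe, mem_filter, Fintype.mem_piFinset]
        exact ⟨fun _ => hd.1, hd.2⟩
      · intro d _ d' _ h
        exact congrFun h 0
    have hc' : (Ex.card : ℝ) ≤ (X : ℝ) / L ^ (U + 1) := by
      refine le_trans (by exact_mod_cast hc) (hmain.trans (le_of_eq ?_))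
      simp
    refine hc'.trans ?_
    apply div_le_div_of_nonneg_left hX0.le (by positivity)
    exact pow_le_pow_right₀ hL1 (by omega)
  · have hnot : |tupleCount (fun _ : Fin 1 => (d : ℤ)) X - singZ (fun _ : Fin 1 => (d : ℤ)) z * X| ≤ (X : ℝ) / L ^ (U + 1) := by
      by_contra h
      push Not at h
      exact hdE (mem_filter.2 ⟨hd, h⟩)
    have hd0 : 0 < d := (mem_Icc.1 hd).1
    have hs := singZ_le d z hd0
    have hlow := tuple_lower (fun _ : Fin 1 => d) X ((X : ℝ) ^ (1 - δ')) ((1 - δ') * L)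
      (Real.one_le_rpow (by linarith) (by linarith)) (mul_nonneg (by linarith) hL0.le)
      (by rw [Real.log_rpow hX0])
    have hup := (abs_le.1 hnot).2
    set P : ℝ := (primeTuples (fun _ : Fin 1 => d) X : ℝ) with hP
    set R := rat d with hR
    have hR1 : 0 ≤ R := by
      rw [hR]; unfold Pool.Agent.H646.rat; positivity
    have ht : tupleCount (fun _ : Fin 1 => (d : ℤ)) X ≤ R * X + X / L ^ (U + 1) := by
      have := mul_le_mul_of_nonneg_right hs hX0.le
      linarith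
    set c := (1 - δ') ^ 2 with hc
    have hc0 : 0 < c := by
      rw [hc]; have : 0 < 1 - δ' := by linarith
      positivity
    have hl2 : ((1 - δ') * L) ^ (1 + 1) = c * L ^ 2 := by rw [hc]; ring
    rw [hl2] at hlow
    have hLU : (X : ℝ) / L ^ (U + 1) ≤ (δ / (4 * (1 + δ / 2))) * X := by
      have h6 : L ≤ L ^ (U + 1) := by
        calc L = L ^ 1 := (pow_one _).symm
          _ ≤ L ^ (U + 1) := pow_le_pow_right₀ hL1 (by omega)
      have h7 : (X : ℝ) / L ^ (U + 1) ≤ X / L := div_le_div_of_nonneg_left hX0.le hL0 h6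
      refine h7.trans ?_
      rw [div_le_iff₀ hL0]
      have h8 : 4 * (1 + δ / 2) / δ ≤ L := by linarith
      have h9 : 1 ≤ δ / (4 * (1 + δ / 2)) * L := by
        rw [div_le_iff₀ hδ] at h8
        rw [div_mul_eq_mul_div, le_div_iff₀ (by positivity)]
        linarith
      calc (X : ℝ) = 1 * X := (one_mul _).symm
        _ ≤ (δ / (4 * (1 + δ / 2)) * L) * X := mul_le_mul_of_nonneg_right h9 hX0.le
        _ = _ := by ring
    -- P * (c L^2) ≤ R X + small X + c L^2 T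
    have hP1 : c * L ^ 2 * P ≤ R * X + (δ / (4 * (1 + δ / 2))) * X + c * L ^ 2 * (X : ℝ) ^ (1 - δ') := by
      have := hlow
      linarith
    have hP2 : P ≤ (R * X + (δ / (4 * (1 + δ / 2))) * X) / (c * L ^ 2) + (X : ℝ) ^ (1 - δ') := by
      rw [← sub_le_iff_le_add, le_div_iff₀ (by positivity)]
      linarith
    have hcinv : 1 / c ≤ 1 + δ / 2 := by
      rw [div_le_iff₀ hc0]; exact hδ'
    have hT : (X : ℝ) ^ (1 - δ') ≤ (δ / 4) * (X / L ^ 2) := by
      rw [← mul_div_assoc, le_div_iff₀ (by positivity)]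
      linarith
    have e1 : (R * X + (δ / (4 * (1 + δ / 2))) * X) / (c * L ^ 2) = (1 / c) * ((R + δ / (4 * (1 + δ / 2))) * (X / L ^ 2)) := by
      field_simp
    have e2 : (1 / c) * ((R + δ / (4 * (1 + δ / 2))) * (X / L ^ 2)) ≤ (1 + δ / 2) * ((R + δ / (4 * (1 + δ / 2))) * (X / L ^ 2)) := by
      apply mul_le_mul_of_nonneg_right hcinv (by positivity)
    have e3 : (1 + δ / 2) * ((R + δ / (4 * (1 + δ / 2))) * (X / L ^ 2)) = ((1 + δ / 2) * R + δ / 4) * (X / L ^ 2) := by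
      field_simp
    have hXL : 0 ≤ X / L ^ 2 := by positivity
    rw [e1] at hP2
    rw [e3] at e2
    have e4 : ((1 + δ / 2) * R + δ / 4) * (X / L ^ 2) + (δ / 4) * (X / L ^ 2) ≤ ((1 + δ) * R + δ) * (X / L ^ 2) := by
      rw [← add_mul]
      apply mul_le_mul_of_nonneg_right _ hXL
      nlinarith
    linarith

end Pool.Agent.N735.CL
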