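import Mathlib
import Pool.Agent.Helper377.PntUnif
import Pool.Agent.N735.CL.Pair
import Pool.Agent.N735.CL.Coord

set_option autoImplicit false

/-! The densities of the primes, of the coprime numbers and of the prime pairs. -/

namespace Pool.Agent.N735.CL

open Finset Filter Topology
open Pool.Agent.H560R3.GB (primeTuples)
open Pool.Agent.H646 (rat)

lemma sum_pr (X m : ℕ) : ∑ h ∈ Icc 1 X, pr m h = (Nat.primeCounting (m + X) : ℝ) - Nat.primeCounting m := by
  induction X with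
  | zero => simp
  | succ X ih =>
    rw [Finset.sum_Icc_succ_top (by omega), ih]
    have h : Nat.primeCounting (m + (X + 1)) = Nat.primeCounting (m + X) + (if (m + (X + 1)).Prime then 1 else 0) := by
      unfold Nat.primeCounting Nat.primeCounting'
      rw [show m + (X + 1) + 1 = (m + X + 1) + 1 by ring, Nat.count_succ]
      rfl
    rw [h]
    unfold pr
    push_cast
    ring

lemma E1_pr (X m : ℕ) : E1 X (pr m) = ((Nat.primeCounting (m + X) : ℝ) - Nat.primeCounting m) / X := by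
  unfold E1
  rw [sum_pr]

lemma pr_nonneg (m h : ℕ) : 0 ≤ pr m h := by unfold pr; split_ifs <;> norm_num

lemma pr_le_one (m h : ℕ) : pr m h ≤ 1 := by unfold pr; split_ifs <;> norm_num

lemma E1_pr_nonneg (X m : ℕ) : 0 ≤ E1 X (pr m) := E1_nonneg (fun h _ => pr_nonneg m h)

lemma pi_add_le (a b : ℕ) : Nat.primeCounting (a + b) ≤ Nat.primeCounting a + b := by
  have h := sum_pr b a
  have h2 : ∑ h ∈ Icc 1 b, pr a h ≤ ∑ h ∈ Icc 1 b, (1 : ℝ) := sum_le_sum (fun h _ => pr_le_one a h)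
  rw [h] at h2
  simp only [sum_const, Nat.card_Icc, nsmul_eq_mul, mul_one] at h2
  have h3 : (Nat.primeCounting (a + b) : ℝ) ≤ ((Nat.primeCounting a + b : ℕ) : ℝ) := by
    push_cast at h2 ⊢
    have : ((b + 1 - 1 : ℕ) : ℝ) = b := by norm_num
    linarith
  exact_mod_cast h3

lemma E1_pr_diff (X m : ℕ) (hX : 1 ≤ X) : |E1 X (pr m) - E1 X (pr 0)| ≤ m / X := by
  have hX0 : (0 : ℝ) < X := by exact_mod_cast hX
  rw [E1_pr, E1_pr, ← sub_div, abs_div, abs_of_pos hX0]
  apply div_le_div_of_nonneg_right _ hX0.le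
  have h1 : Nat.primeCounting (X + m) ≤ Nat.primeCounting X + m := pi_add_le X m
  have h2 : Nat.primeCounting X ≤ Nat.primeCounting (X + m) := Nat.monotone_primeCounting (by omega)
  have h3 : Nat.primeCounting (0 + m) ≤ Nat.primeCounting 0 + m := pi_add_le 0 m
  have h4 : Nat.primeCounting 0 = 0 := by simp
  rw [zero_add, h4, zero_add] at h3
  have h1' : (Nat.primeCounting (X + m) : ℝ) ≤ Nat.primeCounting X + m := by exact_mod_cast h1
  have h2' : (Nat.primeCounting X : ℝ) ≤ Nat.primeCounting (X + m) := by exact_mod_cast h2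
  have h3' : (Nat.primeCounting m : ℝ) ≤ m := by exact_mod_cast h3
  have h5 : (0 : ℝ) ≤ Nat.primeCounting m := Nat.cast_nonneg _
  rw [h4, zero_add, add_comm m X, abs_le]
  push_cast
  constructor <;> linarith

theorem eta_window (δ : ℝ) (hδ : 0 < δ) : ∀ᶠ X : ℕ in atTop, ∀ m : ℕ, m ≤ X → |E1 X (pr m) * Real.log X - 1| ≤ δ := by
  obtain ⟨Y0, hY2, hY⟩ := Pool.Agent.Helper377.PntUnif.pnt_unif (min δ 1 / 16) (by positivity)
  have hlog : Tendsto (fun X : ℕ => Real.log (X : ℝ)) atTop atTop :=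
    Real.tendsto_log_atTop.comp (tendsto_natCast_atTop_atTop (R := ℝ))
  filter_upwards [(tendsto_natCast_atTop_atTop (R := ℝ)).eventually_ge_atTop Y0, eventually_ge_atTop 1,
    hlog.eventually_ge_atTop (4 * Real.log 2 / (min δ 1) + 1)] with X hXY hX1 hXl m hm
  have hX1r : (1 : ℝ) ≤ X := by exact_mod_cast hX1
  have hX0 : (0 : ℝ) < X := by linarith
  set δ1 := min δ 1 with hδ1
  have hδ10 : 0 < δ1 := lt_min hδ one_pos
  have hδ11 : δ1 ≤ 1 := min_le_right _ _
  have hl2 : 0 < Real.log 2 := Real.log_pos (by norm_num)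
  have hmr : (m : ℝ) ≤ X := by exact_mod_cast hm
  have hm0 : (0 : ℝ) ≤ m := Nat.cast_nonneg _
  have h1 := hY (2 * X) (by linarith) ((m + X : ℕ) : ℝ) (by positivity) (by push_cast; linarith)
  have h2 := hY (2 * X) (by linarith) (m : ℝ) (by positivity) (by linarith)
  rw [Nat.floor_natCast] at h1 h2
  rw [E1_pr]
  set A : ℝ := (Nat.primeCounting (m + X) : ℝ) - Nat.primeCounting m with hA
  set L := Real.log (X : ℝ) with hL
  set L2 := Real.log (2 * (X : ℝ)) with hL2
  have hLL : L2 = Real.log 2 + L := by rw [hL2, Real.log_mul (by norm_num) hX0.ne']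
  have hL1 : 1 ≤ L := by
    have : 0 ≤ 4 * Real.log 2 / δ1 := by positivity
    linarith
  have hLb : Real.log 2 ≤ δ1 / 4 * L := by
    have : 4 * Real.log 2 / δ1 ≤ L := by linarith
    rw [div_le_iff₀ hδ10] at this
    linarith
  have h3 : |A * L2 - X| ≤ δ1 / 4 * X := by
    rw [abs_le] at h1 h2 ⊢
    push_cast at h1 h2
    constructor
    · rw [hA]; linarith [h1.1, h2.2]
    · rw [hA]; linarith [h1.2, h2.1]
  have hA0 : 0 ≤ A := by
    rw [hA, sub_nonneg]
    exact_mod_cast Nat.monotone_primeCounting (show m ≤ m + X by omega)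
  obtain ⟨g1, g2⟩ := abs_le.1 h3
  have hAL : A * L ≤ 2 * X := by
    have : A * L ≤ A * L2 := by
      apply mul_le_mul_of_nonneg_left _ hA0
      rw [hLL]; linarith
    nlinarith
  have hdiff : A * L2 - A * L = A * Real.log 2 := by rw [hLL]; ring
  have hd1 : A * Real.log 2 ≤ δ1 / 2 * X := by
    calc A * Real.log 2 ≤ A * (δ1 / 4 * L) := mul_le_mul_of_nonneg_left hLb hA0
      _ = δ1 / 4 * (A * L) := by ring
      _ ≤ δ1 / 4 * (2 * X) := mul_le_mul_of_nonneg_left hAL (by positivity)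
      _ = _ := by ring
  have hd0 : 0 ≤ A * Real.log 2 := by positivity
  have h5 : |A * L - X| ≤ δ1 * X := by
    rw [abs_le]; constructor <;> nlinarith
  have h6 : A / X * L - 1 = (A * L - X) / X := by
    field_simp
  rw [h6, abs_div, abs_of_pos hX0, div_le_iff₀ hX0]
  exact h5.trans (mul_le_mul_of_nonneg_right (min_le_left _ _) hX0.le)

lemma primeFactors_Ww (w : ℕ) : (Ww w).primeFactors = (Icc 1 w).filter Nat.Prime := by
  ext p
  rw [Nat.mem_primeFactors, mem_filter, mem_Icc]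
  constructor
  · rintro ⟨hp, hd, _⟩
    exact ⟨⟨hp.pos, dvd_Ww hp hd⟩, hp⟩
  · rintro ⟨⟨_, h⟩, hp⟩
    exact ⟨hp, dvd_Ww_of hp h, (Ww_pos w).ne'⟩

lemma Vw_eq (w : ℕ) : Vw w = (Ww w).totient / Ww w := by
  have h := rat_eq (Ww w) (Ww_pos w)
  rw [primeFactors_Ww, prod_inv_distrib] at h
  unfold Vw
  unfold Pool.Agent.H646.rat at h
  rw [← inv_inj, ← h, inv_div]

lemma gam_le (w X : ℕ) (hX : 1 ≤ X) : E1 X (cf (Ww w)) ≤ Vw w + Ww w / X := by
  have hX0 : (0 : ℝ) < X := by exact_mod_cast hX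
  set W := Ww w with hW
  have hW0 : 0 < W := Ww_pos w
  have hWr : (0 : ℝ) < W := by exact_mod_cast hW0
  have h1 : ∑ h ∈ Icc 1 X, cf W h = (((Icc 1 X).filter (fun h => h.Coprime W)).card : ℝ) := by
    unfold cf
    rw [← sum_filter, sum_const, nsmul_eq_mul, mul_one]
  have h2 : (Icc 1 X).filter (fun h => h.Coprime W) ⊆ (Ico 1 (1 + X)).filter (fun x => W.Coprime x) := by
    intro h hh
    rw [mem_filter, mem_Icc] at hh
    rw [mem_filter, mem_Ico]
    exact ⟨⟨hh.1.1, by omega⟩, hh.2.symm⟩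
  have h3 := (card_le_card h2).trans (Nat.Ico_filter_coprime_le 1 X hW0.ne')
  have h4 : (((Icc 1 X).filter (fun h => h.Coprime W)).card : ℝ) ≤ W.totient * (X / W + 1) := by
    have h5 : (((Icc 1 X).filter (fun h => h.Coprime W)).card : ℝ) ≤ ((W.totient * (X / W + 1) : ℕ) : ℝ) := by exact_mod_cast h3
    refine h5.trans ?_
    push_cast
    apply mul_le_mul_of_nonneg_left _ (Nat.cast_nonneg _)
    have := @Nat.cast_div_le ℝ _ _ _ X W
    linarith
  unfold E1
  rw [h1, Vw_eq, ← hW, div_le_iff₀ hX0]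
  refine h4.trans ?_
  have h6 : (W.totient : ℝ) ≤ W := by exact_mod_cast Nat.totient_le W
  have h7 : ((W.totient : ℝ) / W + W / X) * X = W.totient * (X / W) + W := by
    field_simp
  rw [h7]
  linarith

lemma gam_ge (W X : ℕ) (hW : 0 < W) (hX : 2 * W ≤ X) : 1 / (2 * (W : ℝ)) ≤ E1 X (cf W) := by
  have hX0' : 0 < X := by omega
  have hX0 : (0 : ℝ) < X := by exact_mod_cast hX0'
  have hWr : (0 : ℝ) < W := by exact_mod_cast hW
  have h1 : ∑ h ∈ Icc 1 X, cf W h = (((Icc 1 X).filter (fun h => h.Coprime W)).card : ℝ) := by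
    unfold cf
    rw [← sum_filter, sum_const, nsmul_eq_mul, mul_one]
  have h2 : X / W ≤ ((Icc 1 X).filter (fun h => h.Coprime W)).card := by
    have : (range (X / W)).card ≤ ((Icc 1 X).filter (fun h => h.Coprime W)).card := by
      apply card_le_card_of_injOn (fun k => 1 + W * k)
      · intro k hk
        rw [mem_coe, mem_range] at hk
        rw [mem_coe, mem_filter, mem_Icc]
        show (1 ≤ 1 + W * k ∧ 1 + W * k ≤ X) ∧ (1 + W * k).Coprime W
        refine ⟨⟨by omega, ?_⟩, ?_⟩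
        · have h3 : W * (k + 1) ≤ W * (X / W) := Nat.mul_le_mul_left _ hk
          have h4 := Nat.mul_div_le X W
          have h5 : W * (k + 1) = W * k + W := by ring
          omega
        · rw [Nat.coprime_add_mul_left_left]
          exact Nat.coprime_one_left W
      · intro k _ k' _ h
        have h' : W * k = W * k' := by
          simp only at h
          omega
        exact Nat.eq_of_mul_eq_mul_left hW h'
    rwa [card_range] at this
  have h3 : ((X / W : ℕ) : ℝ) ≤ (((Icc 1 X).filter (fun h => h.Coprime W)).card : ℝ) := by exact_mod_cast h2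
  have h4 : (X : ℝ) / W - 1 ≤ ((X / W : ℕ) : ℝ) := by
    have h5 := Nat.lt_div_mul_add hW (a := X)
    have h6 : (X : ℝ) < ((X / W : ℕ) : ℝ) * W + W := by exact_mod_cast h5
    rw [sub_le_iff_le_add, div_le_iff₀ hWr]
    nlinarith
  unfold E1
  rw [h1, le_div_iff₀ hX0]
  have h7 : (2 : ℝ) * W ≤ X := by exact_mod_cast hX
  have h8 : 1 / (2 * (W : ℝ)) * X = X / W - X / (2 * W) := by field_simp; ring
  have h9 : 1 ≤ X / (2 * (W : ℝ)) := by rw [le_div_iff₀ (by positivity)]; linarith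
  linarith

lemma pc_le (X m d : ℕ) : ∑ h ∈ Icc 1 X, pr m h * pr (m + d) h ≤ primeTuples (fun _ : Fin 1 => d) X + m := by
  classical
  have h1 : ∑ h ∈ Icc 1 X, pr m h * pr (m + d) h = (((Icc 1 X).filter (fun h => (m + h).Prime ∧ (m + d + h).Prime)).card : ℝ) := by
    rw [card_filter]
    push_cast
    apply sum_congr rfl
    intro h _
    unfold pr
    by_cases h1 : (m + h).Prime <;> by_cases h2 : (m + d + h).Prime <;> simp [h1, h2]
  rw [h1]
  have h2 : (Icc 1 X).filter (fun h => (m + h).Prime ∧ (m + d + h).Prime) ⊆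
      ((Icc 1 X).filter (fun h => m + h ≤ X ∧ (m + h).Prime ∧ (m + d + h).Prime)) ∪ Ioc (X - m) X := by
    intro h hh
    rw [mem_filter, mem_Icc] at hh
    rw [mem_union, mem_filter, mem_Icc, mem_Ioc]
    by_cases h3 : m + h ≤ X
    · left; exact ⟨hh.1, h3, hh.2⟩
    · right; omega
  have h3 : ((Icc 1 X).filter (fun h => m + h ≤ X ∧ (m + h).Prime ∧ (m + d + h).Prime)).card ≤
      primeTuples (fun _ : Fin 1 => d) X := by
    unfold Pool.Agent.H560R3.GB.primeTuples
    apply card_le_card_of_injOn (fun h => m + h)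
    · intro h hh
      rw [mem_coe, mem_filter, mem_Icc] at hh
      rw [mem_coe, mem_filter, mem_Icc]
      show (1 ≤ m + h ∧ m + h ≤ X) ∧ (m + h).Prime ∧ ∀ _ : Fin 1, (m + h + d).Prime
      refine ⟨⟨by omega, hh.2.1⟩, hh.2.2.1, fun _ => ?_⟩
      have := hh.2.2.2
      rwa [show m + d + h = m + h + d by ring] at this
    · intro h _ h' _ e
      simp only at e
      omega
  have h4 := (card_le_card h2).trans ((card_union_le _ _).trans (Nat.add_le_add_right h3 _))
  have h5 : (Ioc (X - m) X).card ≤ m := by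
    rw [Nat.card_Ioc]; omega
  have h6 := h4.trans (Nat.add_le_add_left h5 _)
  exact_mod_cast h6

theorem pc_all : ∃ C > (0 : ℝ), ∀ᶠ X : ℕ in atTop, ∀ m d : ℕ, 0 < d →
    E1 X (fun h => pr m h * pr (m + d) h) * Real.log X ^ 2 ≤ C * rat d := by
  classical
  obtain ⟨C, hC, x₀, h⟩ := Pool.Agent.H262R2.UK.pair_bound
  refine ⟨C, hC, ?_⟩
  filter_upwards [eventually_ge_atTop (max x₀ 3)] with X hX m d hd
  have h1 := h X (le_trans (le_max_left _ _) hX) m (m + d) (by omega)
  have hX3 : (3 : ℝ) ≤ X := by exact_mod_cast (le_trans (le_max_right _ _) hX)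
  have hX0 : (0 : ℝ) < X := by linarith
  have hL : 0 < Real.log (X : ℝ) := Real.log_pos (by linarith)
  have h2 : ∑ h ∈ Icc 1 X, pr m h * pr (m + d) h = (((Icc 1 X).filter (fun n => (n + m).Prime ∧ (n + (m + d)).Prime)).card : ℝ) := by
    rw [card_filter]
    push_cast
    apply sum_congr rfl
    intro h _
    unfold pr
    rw [add_comm m h, add_comm (m + d) h]
    by_cases h1 : (h + m).Prime <;> by_cases h2 : (h + (m + d)).Prime <;> simp [h1, h2]
  unfold E1
  rw [h2, div_mul_eq_mul_div, div_le_iff₀ hX0]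
  rw [show m + d - m = d by omega] at h1
  calc _ ≤ (C * X / Real.log X ^ 2 * rat d) * Real.log X ^ 2 := mul_le_mul_of_nonneg_right h1 (by positivity)
    _ = _ := by field_simp

theorem pc_good (U : ℕ) (δ : ℝ) (hδ : 0 < δ) : ∀ᶠ X : ℕ in atTop, ∃ Ex : Finset ℕ,
    (Ex.card : ℝ) ≤ X / Real.log X ^ U ∧ ∀ d ∈ Icc 1 X, d ∉ Ex → ∀ m : ℕ, (m : ℝ) ≤ X / Real.log X ^ 4 →
      E1 X (fun h => pr m h * pr (m + d) h) * Real.log X ^ 2 ≤ (1 + δ) * rat d + 2 * δ := by
  obtain ⟨X0, h⟩ := pairs_good U δ hδ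
  have hlog : Tendsto (fun X : ℕ => Real.log (X : ℝ)) atTop atTop :=
    Real.tendsto_log_atTop.comp (tendsto_natCast_atTop_atTop (R := ℝ))
  filter_upwards [eventually_ge_atTop (max X0 3), hlog.eventually_ge_atTop (1 / δ + 1)] with X hX hXl
  obtain ⟨Ex, h1, h2⟩ := h X (le_trans (le_max_left _ _) hX)
  refine ⟨Ex, h1, fun d hd hdE m hm => ?_⟩
  have hX3 : (3 : ℝ) ≤ X := by exact_mod_cast (le_trans (le_max_right _ _) hX)
  have hX0 : (0 : ℝ) < X := by linarith
  set L := Real.log (X : ℝ) with hL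
  have hδ' : 0 < 1 / δ := by positivity
  have hL1 : 1 ≤ L := by linarith
  have hL0 : 0 < L := by linarith
  have h3 := pc_le X m d
  have h4 := h2 d hd hdE
  unfold E1
  rw [div_mul_eq_mul_div, div_le_iff₀ hX0]
  have h5 : (∑ h ∈ Icc 1 X, pr m h * pr (m + d) h) * L ^ 2 ≤ (((1 + δ) * rat d + δ) * (X / L ^ 2) + X / L ^ 4) * L ^ 2 := by
    apply mul_le_mul_of_nonneg_right _ (by positivity)
    linarith
  refine h5.trans ?_
  have h6 : (((1 + δ) * rat d + δ) * (X / L ^ 2) + X / L ^ 4) * L ^ 2 = ((1 + δ) * rat d + δ) * X + X / L ^ 2 := by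
    field_simp
  rw [h6]
  have h7 : X / L ^ 2 ≤ δ * X := by
    rw [div_le_iff₀ (by positivity)]
    have h8 : 1 ≤ δ * L := by
      have : 1 / δ ≤ L := by linarith
      rw [div_le_iff₀ hδ] at this
      linarith
    have h9 : 1 ≤ δ * L ^ 2 := by nlinarith
    nlinarith
  linarith

end Pool.Agent.N735.CL
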