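import Mathlib

set_option autoImplicit false

/-! Elementary inequalities. -/

namespace Pool.Agent.N735.CL

lemma pair_ineq (s η₀ η η' q γ L δ r l : ℝ) (hγ0 : 0 < γ) (hγ1 : γ ≤ 1) (hδ0 : 0 ≤ δ) (hδ1 : δ ≤ 1 / 10)
    (hl : l = -s * η₀ / γ) (hr : r = 1 + l * (1 - γ)) (hq : 0 ≤ q)
    (h0 : |η₀ * L - 1| ≤ δ) (h1 : |η * L - 1| ≤ δ) (h2 : |η' * L - 1| ≤ δ) (h3 : |r - 1| ≤ δ) :
    L ^ 2 * ((1 + l ^ 2 * γ * (1 - γ) + s * r ^ 2 * (η + η') + s ^ 2 * r ^ 2 * q) - (1 + s * r * η) * (1 + s * r * η')) ≤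
      s ^ 2 * ((1 + 3 * δ) * (L ^ 2 * q) - 1 / γ + 13 * δ / γ) := by
  set y0 := η₀ * L with hy0
  set y := η * L with hy
  set y' := η' * L with hy'
  set Q := L ^ 2 * q with hQ
  have hQ0 : 0 ≤ Q := by positivity
  have hid : L ^ 2 * ((1 + l ^ 2 * γ * (1 - γ) + s * r ^ 2 * (η + η') + s ^ 2 * r ^ 2 * q) - (1 + s * r * η) * (1 + s * r * η')) =
      s ^ 2 * ((1 - γ) / γ * (y0 ^ 2 - y0 * (y + y') * r) + r ^ 2 * (Q - y * y')) := by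
    have e1 : L ^ 2 * ((1 + l ^ 2 * γ * (1 - γ) + s * r ^ 2 * (η + η') + s ^ 2 * r ^ 2 * q) - (1 + s * r * η) * (1 + s * r * η')) =
      L ^ 2 * (l ^ 2 * γ * (1 - γ) + s * r * (η + η') * (r - 1) + s ^ 2 * r ^ 2 * (q - η * η')) := by ring
    have e2 : r - 1 = l * (1 - γ) := by rw [hr]; ring
    rw [e1, e2, hl, hy0, hy, hy', hQ]
    field_simp
    ring
  rw [hid]
  apply mul_le_mul_of_nonneg_left _ (sq_nonneg s)
  obtain ⟨a1, a2⟩ := abs_le.1 h0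
  obtain ⟨b1, b2⟩ := abs_le.1 h1
  obtain ⟨c1, c2⟩ := abs_le.1 h2
  obtain ⟨d1, d2⟩ := abs_le.1 h3
  have hg : 0 ≤ (1 - γ) / γ := div_nonneg (by linarith) hγ0.le
  have hy0l : 1 - δ ≤ y0 := by linarith
  have hyl : 1 - δ ≤ y := by linarith
  have hyl' : 1 - δ ≤ y' := by linarith
  have hrl : 1 - δ ≤ r := by linarith
  have h9 : 0 ≤ 1 - δ := by linarith
  have i1 : y0 ^ 2 ≤ (1 + δ) ^ 2 := pow_le_pow_left₀ (by linarith) (by linarith) 2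
  have i2 : (1 - δ) * (2 * (1 - δ)) * (1 - δ) ≤ y0 * (y + y') * r := by
    apply mul_le_mul (mul_le_mul hy0l (by linarith) (by linarith) (by linarith)) hrl h9
    apply mul_nonneg <;> linarith
  have i3 : y0 ^ 2 - y0 * (y + y') * r ≤ -1 + 9 * δ := by
    have : (1 + δ) ^ 2 - (1 - δ) * (2 * (1 - δ)) * (1 - δ) ≤ -1 + 9 * δ := by
      nlinarith [mul_nonneg hδ0 hδ0, mul_nonneg (mul_nonneg hδ0 hδ0) hδ0]
    linarith
  have i4 : (1 - γ) / γ * (y0 ^ 2 - y0 * (y + y') * r) ≤ (1 - γ) / γ * (-1 + 9 * δ) :=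
    mul_le_mul_of_nonneg_left i3 hg
  have i5 : (1 - γ) / γ * (-1 + 9 * δ) = 1 - 1 / γ + 9 * δ / γ - 9 * δ := by
    field_simp; ring
  have i6 : r ^ 2 * Q ≤ (1 + 3 * δ) * Q := by
    apply mul_le_mul_of_nonneg_right _ hQ0
    have : r ^ 2 ≤ (1 + δ) ^ 2 := pow_le_pow_left₀ (by linarith) (by linarith) 2
    nlinarith
  have i7 : 1 - 4 * δ ≤ r ^ 2 * (y * y') := by
    have j1 : (1 - δ) ^ 2 ≤ r ^ 2 := pow_le_pow_left₀ h9 hrl 2
    have j2 : (1 - δ) ^ 2 ≤ y * y' := by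
      rw [sq]; exact mul_le_mul hyl hyl' h9 (by linarith)
    have j3 : (1 - δ) ^ 2 * (1 - δ) ^ 2 ≤ r ^ 2 * (y * y') := mul_le_mul j1 j2 (by positivity) (by positivity)
    have j4 : 1 - 4 * δ ≤ (1 - δ) ^ 2 * (1 - δ) ^ 2 := by
      have := one_add_mul_le_pow (show (-2 : ℝ) ≤ -δ by linarith) 4
      push_cast at this
      have e : (1 - δ) ^ 2 * (1 - δ) ^ 2 = (1 + -δ) ^ 4 := by ring
      rw [e]
      linarith
    linarith
  have i8 : δ ≤ δ / γ := by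
    rw [le_div_iff₀ hγ0]; exact mul_le_of_le_one_right hδ0 hγ1
  have i9 : 13 * δ / γ = 9 * δ / γ + 4 * (δ / γ) := by ring
  rw [i9]
  have i10 : r ^ 2 * (Q - y * y') = r ^ 2 * Q - r ^ 2 * (y * y') := by ring
  rw [i10]
  linarith

lemma pow_ratio (a a' Δ : ℝ) (K : ℕ) (haa : 0 < a * a') (hnn : 0 ≤ a * a' + Δ) :
    (a * a' + Δ) ^ K ≤ (a ^ K * a' ^ K) * Real.exp (K * (Δ / (a * a'))) := by
  have h1 : a * a' + Δ = (a * a') * (1 + Δ / (a * a')) := by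
    rw [mul_add, mul_one, mul_div_cancel₀ _ haa.ne']
  have h2 : 0 ≤ 1 + Δ / (a * a') := by
    have : 0 ≤ (a * a' + Δ) / (a * a') := div_nonneg hnn haa.le
    rwa [add_div, div_self haa.ne'] at this
  rw [h1, mul_pow, mul_pow, Real.exp_nat_mul]
  apply mul_le_mul_of_nonneg_left _ (by rw [← mul_pow]; positivity)
  apply pow_le_pow_left₀ h2
  linarith [Real.add_one_le_exp (Δ / (a * a'))]

lemma exp_le_one_add {x : ℝ} (hx : |x| ≤ 1 / 5) : Real.exp (x - 2 * x ^ 2) ≤ 1 + x := by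
  obtain ⟨h1, h2⟩ := abs_le.1 hx
  have h3 : |x - 2 * x ^ 2| ≤ 1 := by
    rw [abs_le]; constructor <;> nlinarith
  have h4 := (le_abs_self _).trans (Real.abs_exp_sub_one_sub_id_le h3)
  have h5 : (1 - 2 * x) ^ 2 ≤ 2 := by nlinarith
  have h6 : (x - 2 * x ^ 2) ^ 2 = x ^ 2 * (1 - 2 * x) ^ 2 := by ring
  have h7 := mul_le_mul_of_nonneg_left h5 (sq_nonneg x)
  linarith

end Pool.Agent.N735.CL
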