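import Mathlib
import Pool.Agent.N735.CL.Asy
import Pool.Agent.N735.CL.Ineq

set_option autoImplicit false

/-! The parameters and their asymptotic behaviour. -/

namespace Pool.Agent.N735.CL

open Finset Filter Topology

noncomputable def eta (X : ℕ) : ℝ := E1 X (pr 0)
noncomputable def gam (w X : ℕ) : ℝ := E1 X (cf (Ww w))
noncomputable def ll (w : ℕ) (t : ℝ) (X : ℕ) : ℝ := -(t - 1) * eta X / gam w X
noncomputable def rX (w : ℕ) (t : ℝ) (X : ℕ) : ℝ := rr (ll w t X) (gam w X)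
noncomputable def Dd (X : ℕ) : ℕ := ⌈Real.log X ^ 4⌉₊
noncomputable def JJ (w X : ℕ) : ℕ := X / (Ww w * Dd X)
noncomputable def ej (w X j : ℕ) : ℝ := E1 X (pr (Ww w * j))

lemma tends_log : Tendsto (fun X : ℕ => Real.log (X : ℝ)) atTop atTop :=
  Real.tendsto_log_atTop.comp (tendsto_natCast_atTop_atTop (R := ℝ))

lemma ev_exp_small' (c δ : ℝ) (hc : 0 < c) (hδ : 0 < δ) : ∀ᶠ X : ℕ in atTop, Real.exp (-c * Real.log X) ≤ δ := by
  have h1 : Tendsto (fun X : ℕ => -c * Real.log (X : ℝ)) atTop atBot := by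
    have := tends_log.const_mul_atTop hc
    have h2 := tendsto_neg_atTop_atBot.comp this
    refine h2.congr (fun X => ?_)
    simp only [Function.comp]; ring
  have h2 := Real.tendsto_exp_atBot.comp h1
  filter_upwards [h2.eventually_lt_const hδ] with X hX
  exact hX.le

lemma eta_nonneg (X : ℕ) : 0 ≤ eta X := E1_pr_nonneg X 0
lemma ej_nonneg (w X j : ℕ) : 0 ≤ ej w X j := E1_pr_nonneg X _

lemma mul_JJ_le (w X : ℕ) : Ww w * JJ w X ≤ X := by
  unfold JJ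
  rcases Nat.eq_zero_or_pos (Dd X) with h | h
  · rw [h]; simp
  · have h1 := Nat.mul_div_le X (Ww w * Dd X)
    calc Ww w * (X / (Ww w * Dd X)) ≤ Ww w * Dd X * (X / (Ww w * Dd X)) :=
          Nat.mul_le_mul_right _ (Nat.le_mul_of_pos_right _ h)
      _ ≤ X := h1

lemma ev_eta (δ : ℝ) (hδ : 0 < δ) : ∀ᶠ X : ℕ in atTop, |eta X * Real.log X - 1| ≤ δ := by
  filter_upwards [eta_window δ hδ] with X hX
  exact hX 0 (Nat.zero_le _)

lemma ev_ej (w : ℕ) (δ : ℝ) (hδ : 0 < δ) : ∀ᶠ X : ℕ in atTop, ∀ j ∈ Icc 1 (JJ w X), |ej w X j * Real.log X - 1| ≤ δ := by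
  filter_upwards [eta_window δ hδ] with X hX j hj
  apply hX
  rw [mem_Icc] at hj
  exact (Nat.mul_le_mul_left _ hj.2).trans (mul_JJ_le w X)

lemma ev_m (w : ℕ) : ∀ᶠ X : ℕ in atTop, ∀ j ∈ Icc 1 (JJ w X), ((Ww w * j : ℕ) : ℝ) ≤ X / Real.log X ^ 4 := by
  filter_upwards [tends_log.eventually_ge_atTop 1] with X hL j hj
  rw [mem_Icc] at hj
  have hL4 : 1 ≤ Real.log (X : ℝ) ^ 4 := one_le_pow₀ hL
  rw [le_div_iff₀ (by positivity)]
  have h1 : Real.log (X : ℝ) ^ 4 ≤ Dd X := Nat.le_ceil _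
  have h2 : Ww w * j * Dd X ≤ X := by
    calc Ww w * j * Dd X ≤ Ww w * JJ w X * Dd X := by gcongr; exact hj.2
      _ = Ww w * Dd X * JJ w X := by ring
      _ ≤ X := Nat.mul_div_le X (Ww w * Dd X)
  calc ((Ww w * j : ℕ) : ℝ) * Real.log X ^ 4 ≤ ((Ww w * j : ℕ) : ℝ) * Dd X := by gcongr
    _ = ((Ww w * j * Dd X : ℕ) : ℝ) := by push_cast; ring
    _ ≤ X := by exact_mod_cast h2

lemma ev_diff (w : ℕ) : ∀ᶠ X : ℕ in atTop, ∀ j ∈ Icc 1 (JJ w X), |ej w X j - eta X| ≤ 1 / Real.log X ^ 4 := by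
  filter_upwards [ev_m w, eventually_ge_atTop 1, tends_log.eventually_ge_atTop 1] with X hX hX1 hL j hj
  have h1 := E1_pr_diff X (Ww w * j) hX1
  have hX0 : (0 : ℝ) < X := by exact_mod_cast hX1
  refine h1.trans ?_
  rw [div_le_iff₀ hX0]
  have h2 := hX j hj
  calc ((Ww w * j : ℕ) : ℝ) ≤ X / Real.log X ^ 4 := h2
    _ = _ := by ring

lemma ev_gam (w : ℕ) (δ : ℝ) (hδ : 0 < δ) : ∀ᶠ X : ℕ in atTop, 1 / (2 * (Ww w : ℝ)) ≤ gam w X ∧ gam w X ≤ Vw w + δ ∧ gam w X ≤ 1 := by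
  obtain ⟨n, hn⟩ := exists_nat_ge ((Ww w : ℝ) / δ)
  filter_upwards [eventually_ge_atTop (2 * Ww w + n + 1)] with X hX
  have hX1 : 1 ≤ X := by omega
  have hX0 : (0 : ℝ) < X := by exact_mod_cast hX1
  refine ⟨gam_ge (Ww w) X (Ww_pos w) (by omega), (gam_le w X hX1).trans ?_, ?_⟩
  · have hnX : (n : ℝ) ≤ X := by exact_mod_cast (by omega : n ≤ X)
    have : (Ww w : ℝ) / X ≤ δ := by
      rw [div_le_iff₀ hX0]
      rw [div_le_iff₀ hδ] at hn
      nlinarith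
    linarith
  · unfold gam
    rw [← E1_const hX1 1]
    apply E1_mono
    intro h _
    unfold cf; split_ifs <;> norm_num

lemma ev_l (w : ℕ) (t : ℝ) (δ : ℝ) (hδ : 0 < δ) : ∀ᶠ X : ℕ in atTop, |ll w t X| ≤ δ ∧ |ll w t X| * Real.log X ≤ 4 * |t - 1| * Ww w := by
  filter_upwards [ev_eta 1 one_pos, ev_gam w 1 one_pos, tends_log.eventually_ge_atTop (4 * |t - 1| * Ww w / δ + 1)] with X h1 h2 h3
  have hW : (0 : ℝ) < Ww w := by exact_mod_cast Ww_pos w
  have hL1 : 1 ≤ Real.log (X : ℝ) := by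
    have : 0 ≤ 4 * |t - 1| * Ww w / δ := by positivity
    linarith
  have hL0 : 0 < Real.log (X : ℝ) := by linarith
  have hγ : 0 < gam w X := lt_of_lt_of_le (by positivity) h2.1
  have h4 : eta X * Real.log X ≤ 2 := by linarith [(abs_le.1 h1).2]
  have h5 : (gam w X)⁻¹ ≤ 2 * Ww w := by
    rw [inv_le_comm₀ hγ (by positivity), ← one_div]; exact h2.1
  have h6 : |ll w t X| * Real.log X ≤ 4 * |t - 1| * Ww w := by
    unfold ll
    rw [abs_div, abs_mul, abs_neg, abs_of_nonneg (eta_nonneg X), abs_of_pos hγ, div_eq_mul_inv]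
    calc |t - 1| * eta X * (gam w X)⁻¹ * Real.log X = |t - 1| * ((eta X * Real.log X) * (gam w X)⁻¹) := by ring
      _ ≤ |t - 1| * (2 * (2 * Ww w)) := by
          apply mul_le_mul_of_nonneg_left _ (abs_nonneg _)
          apply mul_le_mul h4 h5 (inv_nonneg.2 hγ.le) (by norm_num)
      _ = _ := by ring
  refine ⟨?_, h6⟩
  have h7 : 4 * |t - 1| * Ww w / δ ≤ Real.log X := by linarith
  rw [div_le_iff₀ hδ] at h7
  have h8 : |ll w t X| * Real.log X ≤ δ * Real.log X := by linarith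
  exact le_of_mul_le_mul_right h8 hL0

lemma ev_r (w : ℕ) (t : ℝ) (δ : ℝ) (hδ : 0 < δ) : ∀ᶠ X : ℕ in atTop, |rX w t X - 1| ≤ δ := by
  filter_upwards [ev_l w t δ hδ, ev_gam w 1 one_pos] with X h1 h2
  have hγ : 0 < gam w X := lt_of_lt_of_le (by have := Ww_pos w; positivity) h2.1
  unfold rX rr
  have : 1 + ll w t X * (1 - gam w X) - 1 = ll w t X * (1 - gam w X) := by ring
  rw [this, abs_mul]
  have h3 : |1 - gam w X| ≤ 1 := by rw [abs_le]; constructor <;> linarith [h2.2.2]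
  calc |ll w t X| * |1 - gam w X| ≤ δ * 1 := mul_le_mul h1.1 h3 (abs_nonneg _) hδ.le
    _ = δ := mul_one _

lemma ev_J0 (w : ℕ) : ∀ᶠ X : ℕ in atTop, X / (4 * Ww w * Real.log X ^ 4) ≤ JJ w X := by
  have hW : (0 : ℝ) < Ww w := by exact_mod_cast Ww_pos w
  filter_upwards [ev_small (1 / (4 * Ww w)) 1 (by positivity) one_pos 4, tends_log.eventually_ge_atTop 2,
    eventually_ge_atTop 1] with X h1 h2 h3
  have hX0 : (0 : ℝ) < X := by exact_mod_cast h3
  set L := Real.log (X : ℝ) with hL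
  have hL0 : 0 < L := by linarith
  have hL4 : 1 ≤ L ^ 4 := one_le_pow₀ (by linarith)
  have h1' : L ^ 4 ≤ 1 / (4 * Ww w) * X := by simpa using h1
  have h4 : 1 ≤ X / (4 * Ww w * L ^ 4) := by
    rw [le_div_iff₀ (by positivity)]
    have : L ^ 4 * (4 * Ww w) ≤ X := by
      have := mul_le_mul_of_nonneg_right h1' (show (0 : ℝ) ≤ 4 * Ww w by positivity)
      calc L ^ 4 * (4 * Ww w) ≤ 1 / (4 * Ww w) * X * (4 * Ww w) := this
        _ = X := by field_simp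
    linarith
  have hD : (Dd X : ℝ) ≤ 2 * L ^ 4 := by
    have := (Nat.ceil_lt_add_one (show 0 ≤ L ^ 4 by positivity)).le
    unfold Dd
    linarith
  have hDp : 0 < Dd X := Nat.ceil_pos.2 (by positivity)
  have hDr : (0 : ℝ) < Dd X := by exact_mod_cast hDp
  have hWD : 0 < Ww w * Dd X := Nat.mul_pos (Ww_pos w) hDp
  have h5 := Nat.lt_div_mul_add hWD (a := X)
  have h6 : (X : ℝ) < (JJ w X : ℝ) * (Ww w * Dd X) + Ww w * Dd X := by
    unfold JJ
    exact_mod_cast h5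
  have h7 : (X : ℝ) / (Ww w * Dd X) - 1 ≤ JJ w X := by
    rw [sub_le_iff_le_add, div_le_iff₀ (by positivity)]
    nlinarith
  have h8 : X / (2 * Ww w * L ^ 4) ≤ (X : ℝ) / (Ww w * Dd X) := by
    apply div_le_div_of_nonneg_left hX0.le (by positivity)
    calc (Ww w : ℝ) * Dd X ≤ Ww w * (2 * L ^ 4) := mul_le_mul_of_nonneg_left hD hW.le
      _ = _ := by ring
  have h9 : X / (2 * Ww w * L ^ 4) = X / (4 * Ww w * L ^ 4) + X / (4 * Ww w * L ^ 4) := by
    field_simp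
    ring
  linarith

lemma ev_J (w : ℕ) (δ : ℝ) (hδ : 0 < δ) : ∀ᶠ X : ℕ in atTop, Real.exp ((1 - δ) * Real.log X) ≤ JJ w X := by
  have hW : (0 : ℝ) < Ww w := by exact_mod_cast Ww_pos w
  filter_upwards [ev_small (1 / (4 * Ww w)) δ (by positivity) hδ 4, ev_J0 w, tends_log.eventually_ge_atTop 2,
    eventually_ge_atTop 1] with X h1 h2 h3 h4
  have hX0 : (0 : ℝ) < X := by exact_mod_cast h4
  set L := Real.log (X : ℝ) with hL
  have hL0 : 0 < L := by linarith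
  refine le_trans ?_ h2
  rw [le_div_iff₀ (by positivity)]
  have e : Real.exp ((1 - δ) * L) = (X : ℝ) ^ (1 - δ) := by
    rw [Real.rpow_def_of_pos hX0]; congr 1; ring
  rw [e]
  calc (X : ℝ) ^ (1 - δ) * (4 * (Ww w : ℝ) * L ^ 4) = (L ^ 4 * (X : ℝ) ^ (1 - δ)) * (4 * (Ww w : ℝ)) := by ring
    _ ≤ (1 / (4 * (Ww w : ℝ)) * X) * (4 * (Ww w : ℝ)) := by gcongr
    _ = X := by field_simp

lemma ev_Ex (w : ℕ) (δ : ℝ) (hδ : 0 < δ) : ∀ᶠ X : ℕ in atTop, X / Real.log X ^ 6 ≤ δ * JJ w X := by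
  have hW : (0 : ℝ) < Ww w := by exact_mod_cast Ww_pos w
  filter_upwards [ev_J0 w, tends_log.eventually_ge_atTop (4 * Ww w / δ + 1)] with X h2 h3
  have hX0 : (0 : ℝ) ≤ X := Nat.cast_nonneg _
  set L := Real.log (X : ℝ) with hL
  have h4 : 0 ≤ 4 * Ww w / δ := by positivity
  have hL1 : 1 ≤ L := by linarith
  have hL0 : 0 < L := by linarith
  refine le_trans ?_ (mul_le_mul_of_nonneg_left h2 hδ.le)
  rw [← mul_div_assoc, div_le_div_iff₀ (by positivity) (by positivity)]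
  have h5 : 4 * Ww w ≤ δ * L ^ 2 := by
    have : 4 * Ww w / δ ≤ L := by linarith
    rw [div_le_iff₀ hδ] at this
    have h6 : L ≤ L ^ 2 := by nlinarith
    nlinarith
  calc (X : ℝ) * (4 * Ww w * L ^ 4) = X * L ^ 4 * (4 * Ww w) := by ring
    _ ≤ X * L ^ 4 * (δ * L ^ 2) := by gcongr
    _ = _ := by ring

section

variable (w : ℕ) (t κ : ℝ) (K : ℕ → ℕ) (hK : Tendsto (fun X => (K X : ℝ) / Real.log X ^ 2) atTop (𝓝 κ))

include hK in
lemma ev_K (δ : ℝ) (hδ : 0 < δ) : ∀ᶠ X : ℕ in atTop, |(K X : ℝ) - κ * Real.log X ^ 2| ≤ δ * Real.log X ^ 2 := by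
  filter_upwards [hK.eventually (Metric.ball_mem_nhds κ hδ), tends_log.eventually_ge_atTop 1] with X h1 h2
  have h3 : |(K X : ℝ) / Real.log X ^ 2 - κ| ≤ δ := by
    have : dist ((K X : ℝ) / Real.log X ^ 2) κ < δ := h1
    rw [Real.dist_eq] at this
    exact this.le
  have hL : 0 < Real.log (X : ℝ) ^ 2 := by positivity
  have h4 : (K X : ℝ) - κ * Real.log X ^ 2 = ((K X : ℝ) / Real.log X ^ 2 - κ) * Real.log X ^ 2 := by
    field_simp
  rw [h4, abs_mul, abs_of_pos hL]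
  exact mul_le_mul_of_nonneg_right h3 hL.le

/-- the main quantity: `K r η ≈ κ L` if `η L ≈ 1` -/
lemma main_real (κ δ y k r L : ℝ) (hκ : 0 ≤ κ) (hδ0 : 0 ≤ δ) (hδ1 : δ ≤ 1 / 10) (hL : 0 < L)
    (h1 : |y * L - 1| ≤ δ) (h2 : |k - κ * L ^ 2| ≤ δ * L ^ 2) (h3 : |r - 1| ≤ δ) :
    |k * r * y - κ * L| ≤ (2 + 3 * κ) * δ * L := by
  obtain ⟨a1, a2⟩ := abs_le.1 h1
  obtain ⟨c1, c2⟩ := abs_le.1 h3
  have e : k * r * y - κ * L = ((k - κ * L ^ 2) / L) * (r * (y * L)) / 1 + κ * L * (r * (y * L) - 1) - 0 := by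
    field_simp
    ring
  rw [e, div_one, sub_zero]
  have h4 : |r * (y * L) - 1| ≤ 3 * δ := by
    rw [abs_le]; constructor <;> nlinarith
  have h5 : |r * (y * L)| ≤ 2 := by
    rw [abs_le]
    obtain ⟨b1, b2⟩ := abs_le.1 h4
    constructor <;> linarith
  have h6 : |(k - κ * L ^ 2) / L| ≤ δ * L := by
    rw [abs_div, abs_of_pos hL, div_le_iff₀ hL]
    calc |k - κ * L ^ 2| ≤ δ * L ^ 2 := h2
      _ = _ := by ring
  calc |(k - κ * L ^ 2) / L * (r * (y * L)) + κ * L * (r * (y * L) - 1)|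
      ≤ |(k - κ * L ^ 2) / L * (r * (y * L))| + |κ * L * (r * (y * L) - 1)| := abs_add_le _ _
    _ = |(k - κ * L ^ 2) / L| * |r * (y * L)| + κ * L * |r * (y * L) - 1| := by
        rw [abs_mul ((k - κ * L ^ 2) / L), abs_mul (κ * L), abs_of_nonneg (show 0 ≤ κ * L by positivity)]
    _ ≤ (δ * L) * 2 + κ * L * (3 * δ) := by
        apply add_le_add
        · exact mul_le_mul h6 h5 (abs_nonneg _) (by positivity)
        · exact mul_le_mul_of_nonneg_left h4 (by positivity)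
    _ = _ := by ring

include hK in
lemma ev_main (hκ : 0 ≤ κ) (δ : ℝ) (hδ : 0 < δ) : ∀ᶠ X : ℕ in atTop,
    |K X * rX w t X * eta X - κ * Real.log X| ≤ δ * Real.log X ∧
      ∀ j ∈ Icc 1 (JJ w X), |K X * rX w t X * ej w X j - κ * Real.log X| ≤ δ * Real.log X := by
  set δ1 := min (1 / 10) (δ / (2 + 3 * κ)) with hδ1
  have hδ10 : 0 < δ1 := lt_min (by norm_num) (by positivity)
  have hle : (2 + 3 * κ) * δ1 ≤ δ := by
    have : δ1 ≤ δ / (2 + 3 * κ) := min_le_right _ _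
    rw [le_div_iff₀ (by positivity)] at this
    linarith
  filter_upwards [ev_eta δ1 hδ10, ev_ej w δ1 hδ10, ev_K κ K hK δ1 hδ10, ev_r w t δ1 hδ10,
    tends_log.eventually_ge_atTop 1] with X h1 h2 h3 h4 h5
  have hL : 0 < Real.log (X : ℝ) := by linarith
  refine ⟨?_, fun j hj => ?_⟩
  · refine (main_real κ δ1 (eta X) (K X) (rX w t X) (Real.log X) hκ hδ10.le (min_le_left _ _) hL h1 h3 h4).trans ?_
    exact mul_le_mul_of_nonneg_right hle hL.le
  · refine (main_real κ δ1 (ej w X j) (K X) (rX w t X) (Real.log X) hκ hδ10.le (min_le_left _ _) hL (h2 j hj) h3 h4).trans ?_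
    exact mul_le_mul_of_nonneg_right hle hL.le

end

end Pool.Agent.N735.CL
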