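import Mathlib
import Pool.Agent.H442R2.EHI.PntErr
import Pool.Agent.N735.CL.Par

set_option autoImplicit false
set_option maxHeartbeats 2000000

/-! The density of the primes of a translate, with an error term. -/

namespace Pool.Agent.N735.CL

open Finset Filter Topology
open Pool.Agent.H442R2.EHI (lis pnt_err)
open Pool.Agent.H442R2.EHI.PntErrAux (sumlog)

lemma lis_succ (y : ℕ) (hy : 1 ≤ y) : lis (y + 1) = lis y + 1 / Real.log ((y : ℝ) + 1) := by
  unfold Pool.Agent.H442R2.EHI.lis
  rw [Finset.sum_Icc_succ_top (by omega)]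
  push_cast
  rfl

lemma lis_le : ∃ C : ℝ, 0 < C ∧ ∀ y : ℕ, 2 ≤ y → lis y ≤ y / Real.log y + C * (y / Real.log y ^ 2) := by
  obtain ⟨C, hC, h⟩ := sumlog 2
  refine ⟨C, hC, fun y hy => ?_⟩
  have key : ∀ y : ℕ, 2 ≤ y → lis y ≤ y / Real.log y + ∑ n ∈ Ico 2 y, 1 / Real.log n ^ 2 := by
    intro y hy
    induction y, hy using Nat.le_induction with
    | base =>
      unfold Pool.Agent.H442R2.EHI.lis
      have hl : 0 < Real.log 2 := Real.log_pos (by norm_num)
      simp only [Icc_self, sum_singleton, Nat.cast_ofNat, Ico_self, sum_empty, add_zero]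
      exact div_le_div_of_nonneg_right (by norm_num) hl.le
    | succ y hy ih =>
      rw [lis_succ y (by omega), Finset.sum_Ico_succ_top hy]
      have hy2 : (2 : ℝ) ≤ y := by exact_mod_cast hy
      have hy0 : (0 : ℝ) < y := by linarith
      have hl : 0 < Real.log (y : ℝ) := Real.log_pos (by linarith)
      have hl1 : Real.log (y : ℝ) ≤ Real.log ((y : ℝ) + 1) := Real.log_le_log hy0 (by linarith)
      have hl0 : 0 < Real.log ((y : ℝ) + 1) := by linarith
      have hd : Real.log ((y : ℝ) + 1) - Real.log y ≤ 1 / y := by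
        rw [← Real.log_div (by linarith) hy0.ne']
        have h1 := Real.log_le_sub_one_of_pos (show 0 < ((y : ℝ) + 1) / y by positivity)
        refine h1.trans (le_of_eq ?_)
        field_simp
        ring
      have h2 : (y : ℝ) / Real.log y - y / Real.log ((y : ℝ) + 1) ≤ 1 / Real.log y ^ 2 := by
        have e : (y : ℝ) / Real.log y - y / Real.log ((y : ℝ) + 1) = y * (Real.log ((y : ℝ) + 1) - Real.log y) / (Real.log y * Real.log ((y : ℝ) + 1)) := by
          field_simp
        rw [e]
        have h3 : (y : ℝ) * (Real.log ((y : ℝ) + 1) - Real.log y) ≤ 1 := by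
          calc (y : ℝ) * (Real.log ((y : ℝ) + 1) - Real.log y) ≤ y * (1 / y) := mul_le_mul_of_nonneg_left hd hy0.le
            _ = 1 := by field_simp
        apply div_le_div₀ (by norm_num) h3 (by positivity)
        rw [sq]
        exact mul_le_mul_of_nonneg_left hl1 hl.le
      push_cast
      have e2 : ((y : ℝ) + 1) / Real.log ((y : ℝ) + 1) = y / Real.log ((y : ℝ) + 1) + 1 / Real.log ((y : ℝ) + 1) := by ring
      rw [e2]
      linarith
  exact (key y hy).trans (by linarith [h y hy])

lemma pi_eq (y : ℕ) : (Nat.primeCounting y : ℝ) = (((Icc 1 y).filter (fun p : ℕ => p.Prime)).card : ℝ) := by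
  have h := sum_pr y 0
  rw [zero_add, show Nat.primeCounting 0 = 0 by simp, Nat.cast_zero, sub_zero] at h
  rw [← h, card_filter]
  push_cast
  apply sum_congr rfl
  intro x _
  unfold pr
  rw [zero_add]

lemma pi_lis : ∃ C : ℝ, 0 < C ∧ ∀ᶠ X : ℕ in atTop, ∀ y : ℕ, y ≤ 2 * X → |(Nat.primeCounting y : ℝ) - lis y| ≤ C * (X / Real.log X ^ 2) := by
  obtain ⟨C0, h0⟩ := pnt_err 2
  set C := max C0 1 with hC
  have hC1 : 1 ≤ C := le_max_right _ _
  have hl2 : 0 < Real.log 2 := Real.log_pos (by norm_num)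
  refine ⟨8 * C / Real.log 2 ^ 2 + 8 * C, by positivity, ?_⟩
  filter_upwards [ev_small 1 (1 / 2) one_pos (by norm_num) 2, eventually_ge_atTop 4, tends_log.eventually_ge_atTop 1] with X h1 h2 h3 y hy
  have hX0 : (4 : ℝ) ≤ X := by exact_mod_cast h2
  set L := Real.log (X : ℝ) with hL
  have hL0 : 0 < L := by linarith
  have hXL : 0 ≤ X / L ^ 2 := by positivity
  rcases lt_or_ge y 2 with hy2 | hy2
  · have e1 : lis y = 0 := by
      unfold Pool.Agent.H442R2.EHI.lis
      rw [Icc_eq_empty (by omega), sum_empty]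
    have e2 : Nat.primeCounting y = 0 := by
      interval_cases y <;> simp
    rw [e1, e2]
    simp only [Nat.cast_zero, sub_zero, abs_zero]
    positivity
  · have h4 := h0 y hy2
    rw [← pi_eq] at h4
    have hy0 : (0 : ℝ) < y := by exact_mod_cast (by omega : 0 < y)
    have hyr : (y : ℝ) ≤ 2 * X := by exact_mod_cast hy
    have hly : 0 < Real.log (y : ℝ) := Real.log_pos (by exact_mod_cast (by omega : 1 < y))
    have h5 : |(Nat.primeCounting y : ℝ) - lis y| ≤ C * (y / Real.log y ^ 2) := by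
      refine h4.trans ?_
      have : C0 * y / Real.log y ^ 2 = C0 * (y / Real.log y ^ 2) := by ring
      rw [this]
      exact mul_le_mul_of_nonneg_right (le_max_left _ _) (by positivity)
    refine h5.trans ?_
    rcases le_or_gt ((X : ℝ) ^ (1 / 2 : ℝ)) y with hs | hs
    · have hlog : L / 2 ≤ Real.log y := by
        have := Real.log_le_log (Real.rpow_pos_of_pos (by linarith) _) hs
        rw [Real.log_rpow (by linarith)] at this
        linarith
      have h6 : (y : ℝ) / Real.log y ^ 2 ≤ 8 * (X / L ^ 2) := by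
        have h7 : (L / 2) ^ 2 ≤ Real.log y ^ 2 := pow_le_pow_left₀ (by positivity) hlog 2
        calc (y : ℝ) / Real.log y ^ 2 ≤ (2 * X) / (L / 2) ^ 2 := div_le_div₀ (by positivity) hyr (by positivity) h7
          _ = _ := by field_simp; norm_num
      have h8 : 0 ≤ 8 * C / Real.log 2 ^ 2 * (X / L ^ 2) := by positivity
      nlinarith [mul_le_mul_of_nonneg_left h6 (show 0 ≤ C by linarith)]
    · have hlog : Real.log 2 ≤ Real.log y := Real.log_le_log (by norm_num) (by exact_mod_cast hy2)
      have h1' : L ^ 2 * (X : ℝ) ^ (1 / 2 : ℝ) ≤ X := by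
        have e : (1 : ℝ) - 1 / 2 = 1 / 2 := by norm_num
        rw [e] at h1
        linarith
      have h9 : (X : ℝ) ^ (1 / 2 : ℝ) ≤ X / L ^ 2 := by
        rw [le_div_iff₀ (by positivity)]; linarith
      have h6 : (y : ℝ) / Real.log y ^ 2 ≤ (X / L ^ 2) / Real.log 2 ^ 2 := by
        apply div_le_div₀ hXL (hs.le.trans h9) (by positivity)
        exact pow_le_pow_left₀ hl2.le hlog 2
      have h10 : C * ((X / L ^ 2) / Real.log 2 ^ 2) ≤ 8 * C / Real.log 2 ^ 2 * (X / L ^ 2) := by
        have : C * ((X / L ^ 2) / Real.log 2 ^ 2) = C / Real.log 2 ^ 2 * (X / L ^ 2) := by ring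
        rw [this]
        apply mul_le_mul_of_nonneg_right _ hXL
        apply div_le_div_of_nonneg_right _ (by positivity)
        linarith
      have h11 : 0 ≤ 8 * C * (X / L ^ 2) := by positivity
      nlinarith [mul_le_mul_of_nonneg_left h6 (show 0 ≤ C by linarith)]

lemma lis_diff (X m : ℕ) : lis (m + X) - lis m ≤ lis (X + 1) := by
  rcases Nat.eq_zero_or_pos m with hm | hm
  · subst hm
    rcases Nat.eq_zero_or_pos X with hX | hX
    · subst hX
      unfold Pool.Agent.H442R2.EHI.lis
      simp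
    · rw [zero_add, lis_succ X hX]
      have h1 : lis 0 = 0 := by unfold Pool.Agent.H442R2.EHI.lis; simp
      have h2 : 0 ≤ 1 / Real.log ((X : ℝ) + 1) := by
        apply div_nonneg (by norm_num)
        apply Real.log_nonneg
        have : (0 : ℝ) ≤ X := Nat.cast_nonneg _
        linarith
      rw [h1]; linarith
  · induction m, hm using Nat.le_induction with
    | base =>
      have h1 : lis 1 = 0 := by unfold Pool.Agent.H442R2.EHI.lis; simp
      rw [h1, add_comm 1 X, sub_zero]
    | succ m hm ih =>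
      have e1 : m + 1 + X = (m + X) + 1 := by ring
      rw [e1, lis_succ (m + X) (by omega), lis_succ m (by omega)]
      have hmr : (1 : ℝ) ≤ m := by exact_mod_cast hm
      have hXr : (0 : ℝ) ≤ X := Nat.cast_nonneg _
      have h2 : 1 / Real.log (((m + X : ℕ) : ℝ) + 1) ≤ 1 / Real.log ((m : ℝ) + 1) := by
        apply one_div_le_one_div_of_le (Real.log_pos (by linarith))
        apply Real.log_le_log (by linarith)
        push_cast
        linarith
      linarith

theorem eta_precise : ∃ c : ℝ, 0 < c ∧ ∀ᶠ X : ℕ in atTop, ∀ m : ℕ, m ≤ X →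
    |E1 X (pr m) - 1 / Real.log X| ≤ c / Real.log X ^ 2 := by
  obtain ⟨C1, hC1, h1⟩ := pi_lis
  obtain ⟨C2, hC2, h2⟩ := lis_le
  refine ⟨2 * C1 + 4 * C2 + 4, by positivity, ?_⟩
  filter_upwards [h1, eventually_ge_atTop 4, tends_log.eventually_ge_atTop 2, ev_small 1 1 one_pos one_pos 2] with X e1 e2 e3 e4 m hm
  have hX4 : (4 : ℝ) ≤ X := by exact_mod_cast e2
  have hX0 : (0 : ℝ) < X := by linarith
  set L := Real.log (X : ℝ) with hL
  have hL0 : 0 < L := by linarith
  have hL2X : L ^ 2 ≤ X := by simpa using e4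
  have hone : (1 : ℝ) ≤ X / L ^ 2 := by rw [le_div_iff₀ (by positivity)]; linarith
  rw [E1_pr]
  have a1 := e1 (m + X) (by omega)
  have a2 := e1 m (by omega)
  set A : ℝ := (Nat.primeCounting (m + X) : ℝ) - Nat.primeCounting m with hA
  set B : ℝ := lis (m + X) - lis m with hB
  have hAB : |A - B| ≤ 2 * C1 * (X / L ^ 2) := by
    have : A - B = ((Nat.primeCounting (m + X) : ℝ) - lis (m + X)) - ((Nat.primeCounting m : ℝ) - lis m) := by rw [hA, hB]; ring
    rw [this]
    refine (abs_sub _ _).trans ?_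
    linarith
  have hBeq : B = ∑ n ∈ (Icc (m + 1) (m + X)).filter (fun n => 2 ≤ n), 1 / Real.log (n : ℝ) := by
    rw [hB]
    unfold Pool.Agent.H442R2.EHI.lis
    rw [sub_eq_iff_eq_add]
    have hset : Icc 2 (m + X) = ((Icc (m + 1) (m + X)).filter (fun n => 2 ≤ n)) ∪ Icc 2 m := by
      ext n
      rw [mem_union, mem_filter, mem_Icc, mem_Icc, mem_Icc]
      omega
    rw [hset, sum_union]
    rw [disjoint_left]
    intro n hn hn2
    rw [mem_filter, mem_Icc] at hn
    rw [mem_Icc] at hn2
    omega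
  -- lower bound
  have hlow : X / L - 2 * (X / L ^ 2) ≤ B := by
    rw [hBeq]
    have g1 : ∀ n ∈ (Icc (m + 1) (m + X)).filter (fun n => 2 ≤ n), 1 / (L + 1) ≤ 1 / Real.log (n : ℝ) := by
      intro n hn
      rw [mem_filter, mem_Icc] at hn
      have hn2 : (2 : ℝ) ≤ n := by exact_mod_cast hn.2
      have hn3 : (n : ℝ) ≤ 2 * X := by exact_mod_cast (by omega : n ≤ 2 * X)
      apply one_div_le_one_div_of_le (Real.log_pos (by linarith))
      calc Real.log (n : ℝ) ≤ Real.log (2 * X) := Real.log_le_log (by linarith) hn3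
        _ = Real.log 2 + L := by rw [Real.log_mul (by norm_num) hX0.ne']
        _ ≤ L + 1 := by linarith [Real.log_two_lt_d9]
    have g2 := sum_le_sum g1
    rw [sum_const, nsmul_eq_mul] at g2
    have g3 : (X : ℝ) - 1 ≤ (((Icc (m + 1) (m + X)).filter (fun n => 2 ≤ n)).card : ℝ) := by
      have : Icc (m + 2) (m + X) ⊆ (Icc (m + 1) (m + X)).filter (fun n => 2 ≤ n) := by
        intro n hn
        rw [mem_Icc] at hn
        rw [mem_filter, mem_Icc]
        omega
      have g4 := card_le_card this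
      rw [Nat.card_Icc] at g4
      have g5 : X ≤ ((Icc (m + 1) (m + X)).filter (fun n => 2 ≤ n)).card + 1 := by omega
      have g6 : (X : ℝ) ≤ (((Icc (m + 1) (m + X)).filter (fun n => 2 ≤ n)).card : ℝ) + 1 := by exact_mod_cast g5
      linarith
    refine le_trans ?_ g2
    have g7 : ((X : ℝ) - 1) * (1 / (L + 1)) ≤ (((Icc (m + 1) (m + X)).filter (fun n => 2 ≤ n)).card : ℝ) * (1 / (L + 1)) :=
      mul_le_mul_of_nonneg_right g3 (by positivity)
    refine le_trans ?_ g7
    rw [mul_one_div, le_div_iff₀ (by linarith)]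
    have g8 : (X / L - 2 * (X / L ^ 2)) * (L + 1) = X - X / L - 2 * (X / L ^ 2) := by field_simp; ring
    rw [g8]
    have g9 : 0 ≤ X / L := by positivity
    linarith
  have hupp : B ≤ X / L + (4 * C2 + 2) * (X / L ^ 2) := by
    have g0 : B ≤ lis (X + 1) := lis_diff X m
    have g1 := h2 X (by omega)
    have g2 := lis_succ X (by omega)
    have g3 : 1 / Real.log ((X : ℝ) + 1) ≤ 1 := by
      rw [div_le_one (Real.log_pos (by linarith))]
      have := Real.log_le_log hX0 (show (X : ℝ) ≤ X + 1 by linarith)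
      linarith
    have g4 : 0 ≤ C2 * (X / L ^ 2) := by positivity
    linarith
  have h5 : |B - X / L| ≤ (4 * C2 + 2) * (X / L ^ 2) := by
    have g4 : 0 ≤ C2 * (X / L ^ 2) := by positivity
    rw [abs_le]; constructor <;> linarith
  have h6 : |A - X / L| ≤ (2 * C1 + 4 * C2 + 2) * (X / L ^ 2) := by
    have : A - X / L = (A - B) + (B - X / L) := by ring
    rw [this]
    refine (abs_add_le _ _).trans ?_
    linarith
  have h7 : A / X - 1 / L = (A - X / L) / X := by field_simp
  rw [h7, abs_div, abs_of_pos hX0, div_le_iff₀ hX0]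
  refine h6.trans ?_
  have h8 : (2 * C1 + 4 * C2 + 4) / L ^ 2 * X = (2 * C1 + 4 * C2 + 4) * (X / L ^ 2) := by ring
  rw [h8]
  apply mul_le_mul_of_nonneg_right _ (by positivity)
  linarith

end Pool.Agent.N735.CL
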