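import Mathlib
import Pool.Agent.N735.CL.Par

set_option autoImplicit false
set_option maxHeartbeats 2000000

/-! The powers of the mean values. -/

namespace Pool.Agent.N735.CL

open Finset Filter Topology

noncomputable def a0 (w : ℕ) (t : ℝ) (X : ℕ) : ℝ := 1 + (t - 1) * rX w t X * eta X
noncomputable def aj (w : ℕ) (t : ℝ) (X j : ℕ) : ℝ := 1 + (t - 1) * rX w t X * ej w X j

lemma ev_x (w : ℕ) (t c δ : ℝ) (hδ : 0 < δ) : ∀ᶠ X : ℕ in atTop, |c * rX w t X * eta X| ≤ δ ∧
    ∀ j ∈ Icc 1 (JJ w X), |c * rX w t X * ej w X j| ≤ δ := by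
  filter_upwards [ev_eta 1 one_pos, ev_ej w 1 one_pos, ev_r w t 1 one_pos,
    tends_log.eventually_ge_atTop (4 * |c| / δ + 1)] with X h1 h2 h3 h4
  have h5 : 0 ≤ 4 * |c| / δ := by positivity
  have hL0 : 0 < Real.log (X : ℝ) := by linarith
  have h6 : 4 * |c| ≤ δ * Real.log X := by
    have : 4 * |c| / δ ≤ Real.log X := by linarith
    rw [div_le_iff₀ hδ] at this
    linarith
  have hr : |rX w t X| ≤ 2 := by
    obtain ⟨a, b⟩ := abs_le.1 h3
    rw [abs_le]; constructor <;> linarith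
  have key : ∀ y : ℝ, 0 ≤ y → |y * Real.log X - 1| ≤ 1 → |c * rX w t X * y| ≤ δ := by
    intro y hy0 hy
    have hy2 : y * Real.log X ≤ 2 := by linarith [(abs_le.1 hy).2]
    rw [abs_mul, abs_mul, abs_of_nonneg hy0]
    have h7 : |c| * |rX w t X| * y * Real.log X ≤ δ * Real.log X := by
      calc |c| * |rX w t X| * y * Real.log X = |c| * (|rX w t X| * (y * Real.log X)) := by ring
        _ ≤ |c| * (2 * 2) := by
            apply mul_le_mul_of_nonneg_left _ (abs_nonneg _)
            exact mul_le_mul hr hy2 (by positivity) (by norm_num)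
        _ = 4 * |c| := by ring
        _ ≤ _ := h6
    exact le_of_mul_le_mul_right h7 hL0
  exact ⟨key _ (eta_nonneg X) h1, fun j hj => key _ (ej_nonneg w X j) (h2 j hj)⟩

section

variable (w : ℕ) (t κ : ℝ) (K : ℕ → ℕ) (hK : Tendsto (fun X => (K X : ℝ) / Real.log X ^ 2) atTop (𝓝 κ)) (hκ : 0 ≤ κ)

include hK hκ in
lemma ev_lower (c δ : ℝ) (hδ : 0 < δ) : ∀ᶠ X : ℕ in atTop,
    Real.exp ((c * κ - δ) * Real.log X) ≤ (1 + c * rX w t X * eta X) ^ K X := by
  set δ1 := min 1 (δ / (2 * (|c| + 1))) with hδ1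
  have hδ10 : 0 < δ1 := lt_min one_pos (by positivity)
  set δ2 := min (1 / 5) (δ / (4 * ((|c| + 1) * (κ + 1)))) with hδ2
  have hδ20 : 0 < δ2 := lt_min (by norm_num) (by positivity)
  filter_upwards [ev_main w t κ K hK hκ δ1 hδ10, ev_x w t c δ2 hδ20, tends_log.eventually_ge_atTop 1] with X h1 h2 h3
  have hL0 : 0 < Real.log (X : ℝ) := by linarith
  set x := c * rX w t X * eta X with hx
  have hx5 : |x| ≤ 1 / 5 := h2.1.trans (min_le_left _ _)
  have h4 := exp_le_one_add hx5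
  have h5 : Real.exp ((K X : ℝ) * (x - 2 * x ^ 2)) ≤ (1 + x) ^ K X := by
    rw [Real.exp_nat_mul]
    exact pow_le_pow_left₀ (Real.exp_pos _).le h4 _
  refine le_trans (Real.exp_le_exp.2 ?_) h5
  have h6 : (K X : ℝ) * x = c * (K X * rX w t X * eta X) := by rw [hx]; ring
  set M := (K X : ℝ) * rX w t X * eta X with hM
  have h7 : |(K X : ℝ) * x - c * κ * Real.log X| ≤ |c| * (δ1 * Real.log X) := by
    rw [h6]
    have : c * M - c * κ * Real.log X = c * (M - κ * Real.log X) := by ring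
    rw [this, abs_mul]
    exact mul_le_mul_of_nonneg_left h1.1 (abs_nonneg _)
  have h8 : |c| * (δ1 * Real.log X) ≤ δ / 2 * Real.log X := by
    have h9 : δ1 ≤ δ / (2 * (|c| + 1)) := min_le_right _ _
    have h10 : |c| * δ1 ≤ δ / 2 := by
      rw [le_div_iff₀ (by positivity)] at h9
      nlinarith [abs_nonneg c]
    nlinarith
  have h11 : |M| ≤ (κ + 1) * Real.log X := by
    have h12 : δ1 ≤ 1 := min_le_left _ _
    obtain ⟨a, b⟩ := abs_le.1 h1.1
    have h13 : δ1 * Real.log X ≤ 1 * Real.log X := mul_le_mul_of_nonneg_right h12 hL0.le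
    rw [abs_le]; constructor
    · have : 0 ≤ κ * Real.log X := by positivity
      nlinarith
    · linarith
  have h14 : (K X : ℝ) * (2 * x ^ 2) ≤ δ / 2 * Real.log X := by
    have e : (K X : ℝ) * (2 * x ^ 2) = 2 * ((c * M) * x) := by rw [← h6]; ring
    rw [e]
    have h15 : (c * M) * x ≤ |c| * ((κ + 1) * Real.log X) * δ2 := by
      refine (le_abs_self _).trans ?_
      rw [abs_mul, abs_mul]
      apply mul_le_mul (mul_le_mul_of_nonneg_left h11 (abs_nonneg _)) h2.1 (abs_nonneg _) (by positivity)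
    have h16 : δ2 ≤ δ / (4 * ((|c| + 1) * (κ + 1))) := min_le_right _ _
    rw [le_div_iff₀ (by positivity)] at h16
    have h17 : |c| * (κ + 1) * δ2 ≤ δ / 4 := by
      have : 0 ≤ (κ + 1) * δ2 := by positivity
      nlinarith
    have h18 : |c| * ((κ + 1) * Real.log X) * δ2 = (|c| * (κ + 1) * δ2) * Real.log X := by ring
    have h19 : (|c| * (κ + 1) * δ2) * Real.log X ≤ δ / 4 * Real.log X := mul_le_mul_of_nonneg_right h17 hL0.le
    linarith
  have h20 := (abs_le.1 (h7.trans h8)).1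
  have e2 : (K X : ℝ) * (x - 2 * x ^ 2) = (K X : ℝ) * x - (K X : ℝ) * (2 * x ^ 2) := by ring
  rw [e2]
  have e3 : (c * κ - δ) * Real.log X = c * κ * Real.log X - δ * Real.log X := by ring
  rw [e3]
  linarith

include hK hκ in
lemma ev_upper (c δ : ℝ) (hδ : 0 < δ) : ∀ᶠ X : ℕ in atTop, ∀ j ∈ Icc 1 (JJ w X),
    (1 + c * rX w t X * ej w X j) ^ K X ≤ Real.exp ((c * κ + δ) * Real.log X) := by
  set δ1 := δ / (|c| + 1) with hδ1
  have hδ10 : 0 < δ1 := by positivity
  filter_upwards [ev_main w t κ K hK hκ δ1 hδ10, ev_x w t c 1 one_pos, tends_log.eventually_ge_atTop 1] with X h1 h2 h3 j hj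
  have hL0 : 0 < Real.log (X : ℝ) := by linarith
  set x := c * rX w t X * ej w X j with hx
  have hx5 : |x| ≤ 1 := h2.2 j hj
  have h5 : (1 + x) ^ K X ≤ Real.exp ((K X : ℝ) * x) := by
    rw [Real.exp_nat_mul]
    apply pow_le_pow_left₀ (by linarith [(abs_le.1 hx5).1])
    linarith [Real.add_one_le_exp x]
  refine h5.trans (Real.exp_le_exp.2 ?_)
  have h6 : (K X : ℝ) * x = c * (K X * rX w t X * ej w X j) := by rw [hx]; ring
  have h7 : |(K X : ℝ) * x - c * κ * Real.log X| ≤ |c| * (δ1 * Real.log X) := by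
    rw [h6]
    have : c * ((K X : ℝ) * rX w t X * ej w X j) - c * κ * Real.log X = c * ((K X : ℝ) * rX w t X * ej w X j - κ * Real.log X) := by ring
    rw [this, abs_mul]
    exact mul_le_mul_of_nonneg_left (h1.2 j hj) (abs_nonneg _)
  have h8 : |c| * (δ1 * Real.log X) ≤ δ * Real.log X := by
    have h10 : |c| * δ1 ≤ δ := by
      rw [hδ1, mul_div_assoc', div_le_iff₀ (by positivity)]
      nlinarith [abs_nonneg c]
    nlinarith
  have h20 := (abs_le.1 (h7.trans h8)).2
  have e3 : (c * κ + δ) * Real.log X = c * κ * Real.log X + δ * Real.log X := by ring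
  rw [e3]
  linarith

include hK hκ in
lemma ev_aj (δ : ℝ) (hδ : 0 < δ) : ∀ᶠ X : ℕ in atTop, 0 < a0 w t X ∧ ∀ j ∈ Icc 1 (JJ w X),
    1 / 2 ≤ aj w t X j ∧ (1 - δ) * a0 w t X ^ K X ≤ aj w t X j ^ K X ∧ aj w t X j ^ K X ≤ (1 + δ) * a0 w t X ^ K X := by
  set δ1 := min δ 1 with hδ1
  have hδ10 : 0 < δ1 := lt_min hδ one_pos
  have hδ1δ : δ1 ≤ δ := min_le_left _ _
  have hδ11 : δ1 ≤ 1 := min_le_right _ _
  filter_upwards [ev_x w t (t - 1) (1 / 2) (by norm_num), ev_diff w, ev_r w t 1 one_pos, ev_K κ K hK 1 one_pos,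
    tends_log.eventually_ge_atTop (8 * |t - 1| * (κ + 1) / δ1 + 1)] with X h1 h2 h3 h4 h5
  have hq : 0 ≤ 8 * |t - 1| * (κ + 1) / δ1 := by positivity
  have hL1 : 1 ≤ Real.log (X : ℝ) := by linarith
  have hL0 : 0 < Real.log (X : ℝ) := by linarith
  set L := Real.log (X : ℝ) with hL
  have hr : |rX w t X| ≤ 2 := by
    obtain ⟨a, b⟩ := abs_le.1 h3
    rw [abs_le]; constructor <;> linarith
  have ha0 : 1 / 2 ≤ a0 w t X := by
    unfold a0; linarith [(abs_le.1 h1.1).1]
  refine ⟨by linarith, fun j hj => ?_⟩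
  have haj : 1 / 2 ≤ aj w t X j := by
    unfold aj; linarith [(abs_le.1 (h1.2 j hj)).1]
  set y := 4 * |t - 1| / L ^ 4 with hy
  have hy0 : 0 ≤ y := by positivity
  have hdiff : |aj w t X j - a0 w t X| ≤ y * a0 w t X := by
    have e : aj w t X j - a0 w t X = (t - 1) * (rX w t X * (ej w X j - eta X)) := by unfold aj a0; ring
    rw [e, abs_mul, abs_mul]
    have h6 := h2 j hj
    calc |t - 1| * (|rX w t X| * |ej w X j - eta X|) ≤ |t - 1| * (2 * (1 / L ^ 4)) := by
          apply mul_le_mul_of_nonneg_left _ (abs_nonneg _)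
          exact mul_le_mul hr h6 (abs_nonneg _) (by norm_num)
      _ = y * (1 / 2) := by rw [hy]; ring
      _ ≤ y * a0 w t X := mul_le_mul_of_nonneg_left ha0 hy0
  obtain ⟨d1, d2⟩ := abs_le.1 hdiff
  have hKy : K X * y ≤ δ1 / 2 := by
    have h6 : (K X : ℝ) ≤ (κ + 1) * L ^ 2 := by
      have := (abs_le.1 h4).2
      nlinarith
    have h7 : 8 * |t - 1| * (κ + 1) ≤ δ1 * L := by
      have : 8 * |t - 1| * (κ + 1) / δ1 ≤ L := by linarith
      rw [div_le_iff₀ hδ10] at this
      linarith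
    have h8 : (K X : ℝ) * y ≤ (κ + 1) * L ^ 2 * y := mul_le_mul_of_nonneg_right h6 hy0
    have h9 : (κ + 1) * L ^ 2 * y = (4 * |t - 1| * (κ + 1)) / L ^ 2 := by
      rw [hy]; field_simp
    rw [h9] at h8
    refine h8.trans ?_
    rw [div_le_iff₀ (by positivity)]
    have h10 : L ≤ L ^ 2 := by nlinarith
    nlinarith
  have hKy0 : 0 ≤ K X * y := by positivity
  have ha0K : 0 ≤ a0 w t X ^ K X := pow_nonneg (by linarith) _
  refine ⟨haj, ?_, ?_⟩
  · rcases Nat.eq_zero_or_pos (K X) with hz | hz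
    · rw [hz]; simp; linarith
    have hy1 : y ≤ 1 := by
      have : (1 : ℝ) ≤ K X := by exact_mod_cast hz
      nlinarith
    have h6 : (1 - y) ^ K X * a0 w t X ^ K X ≤ aj w t X j ^ K X := by
      rw [← mul_pow]
      apply pow_le_pow_left₀
      · exact mul_nonneg (by linarith) (by linarith)
      · linarith
    have h7 : 1 - K X * y ≤ (1 - y) ^ K X := by
      have := one_add_mul_le_pow (show (-2 : ℝ) ≤ -y by linarith) (K X)
      have e : (1 + -y) = 1 - y := by ring
      rw [e] at this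
      linarith
    refine le_trans ?_ h6
    apply mul_le_mul_of_nonneg_right _ ha0K
    linarith
  · have h6 : aj w t X j ^ K X ≤ (1 + y) ^ K X * a0 w t X ^ K X := by
      rw [← mul_pow]
      apply pow_le_pow_left₀ (by linarith)
      linarith
    refine h6.trans ?_
    apply mul_le_mul_of_nonneg_right _ ha0K
    have h7 : (1 + y) ^ K X ≤ Real.exp (K X * y) := by
      rw [Real.exp_nat_mul]
      apply pow_le_pow_left₀ (by linarith)
      linarith [Real.add_one_le_exp y]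
    have h8 := Real.abs_exp_sub_one_le (x := K X * y) (by rw [abs_of_nonneg hKy0]; linarith)
    rw [abs_of_nonneg hKy0] at h8
    have h9 := (le_abs_self _).trans h8
    linarith

include hK hκ in
lemma ev_diag (δ : ℝ) (hδ : 0 < δ) : ∀ᶠ X : ℕ in atTop, ∀ j ∈ Icc 1 (JJ w X),
    (1 + ll w t X ^ 2 * gam w X * (1 - gam w X) + (t - 1) * rX w t X ^ 2 * ej w X j) ^ K X ≤
      Real.exp (((t - 1) * κ + δ) * Real.log X) := by
  set δ1 := min 1 (δ / (4 * ((|t - 1| + 1) * (κ + 1)))) with hδ1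
  have hδ10 : 0 < δ1 := lt_min one_pos (by positivity)
  have hδ11 : δ1 ≤ 1 := min_le_left _ _
  set c1 := 4 * |t - 1| * (Ww w : ℝ) with hc1
  have hc10 : 0 ≤ c1 := by positivity
  filter_upwards [ev_main w t κ K hK hκ δ1 hδ10, ev_x w t (2 * (t - 1)) (1 / 2) (by norm_num), ev_r w t δ1 hδ10,
    ev_l w t (1 / 2) (by norm_num), ev_gam w 1 one_pos, ev_K κ K hK 1 one_pos,
    tends_log.eventually_ge_atTop (4 * ((κ + 1) * c1 ^ 2) / δ + 1)] with X h1 h2 h3 h4 h5 h6 h7 j hj
  have hq : 0 ≤ 4 * ((κ + 1) * c1 ^ 2) / δ := by positivity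
  have hL1 : 1 ≤ Real.log (X : ℝ) := by linarith
  have hL0 : 0 < Real.log (X : ℝ) := by linarith
  set L := Real.log (X : ℝ) with hL
  have hγ : 0 < gam w X := lt_of_lt_of_le (by have := Ww_pos w; positivity) h5.1
  have hr : |rX w t X| ≤ 2 := by
    obtain ⟨a, b⟩ := abs_le.1 h3
    rw [abs_le]; constructor <;> linarith
  set A := ll w t X ^ 2 * gam w X * (1 - gam w X) with hA
  set B := (t - 1) * rX w t X ^ 2 * ej w X j with hB
  have hA0 : 0 ≤ A := by
    rw [hA]
    have : 0 ≤ 1 - gam w X := by linarith [h5.2.2]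
    positivity
  have hAle : A ≤ ll w t X ^ 2 := by
    rw [hA, mul_assoc]
    apply mul_le_of_le_one_right (sq_nonneg _)
    have : 0 ≤ 1 - gam w X := by linarith [h5.2.2]
    nlinarith
  have hB1 : |B| ≤ 1 := by
    have e : B = (1 / 2) * (2 * (t - 1) * rX w t X * ej w X j) * rX w t X := by rw [hB]; ring
    rw [e, abs_mul, abs_mul]
    have h8 := h2.2 j hj
    have : |(1 / 2 : ℝ)| = 1 / 2 := abs_of_pos (by norm_num)
    rw [this]
    nlinarith [abs_nonneg (rX w t X), abs_nonneg (2 * (t - 1) * rX w t X * ej w X j)]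
  have h8 : (1 + A + B) ^ K X ≤ Real.exp (K X * (A + B)) := by
    rw [Real.exp_nat_mul]
    apply pow_le_pow_left₀ (by linarith [(abs_le.1 hB1).1])
    linarith [Real.add_one_le_exp (A + B)]
  refine h8.trans (Real.exp_le_exp.2 ?_)
  have hKle : (K X : ℝ) ≤ (κ + 1) * L ^ 2 := by
    have := (abs_le.1 h6).2
    nlinarith
  have hKA : K X * A ≤ δ / 4 * L := by
    have h9 : ll w t X ^ 2 * L ^ 2 ≤ c1 ^ 2 := by
      have h10 := h4.2
      have : (|ll w t X| * L) ^ 2 ≤ c1 ^ 2 := pow_le_pow_left₀ (by positivity) h10 2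
      rwa [mul_pow, sq_abs] at this
    have h10 : K X * A ≤ (κ + 1) * c1 ^ 2 := by
      calc K X * A ≤ ((κ + 1) * L ^ 2) * ll w t X ^ 2 := mul_le_mul hKle hAle hA0 (by positivity)
        _ = (κ + 1) * (ll w t X ^ 2 * L ^ 2) := by ring
        _ ≤ _ := mul_le_mul_of_nonneg_left h9 (by positivity)
    have h11 : 4 * ((κ + 1) * c1 ^ 2) / δ ≤ L := by linarith
    rw [div_le_iff₀ hδ] at h11
    linarith
  have hKB : K X * B ≤ ((t - 1) * κ + δ / 2) * L := by
    set M := K X * rX w t X * ej w X j with hM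
    have e : K X * B = (t - 1) * κ * L + (t - 1) * ((rX w t X - 1) * M + (M - κ * L)) := by rw [hB, hM]; ring
    have h12 := h1.2 j hj
    have h13 : |M| ≤ (κ + 1) * L := by
      obtain ⟨a, b⟩ := abs_le.1 h12
      have h13 : δ1 * L ≤ 1 * L := mul_le_mul_of_nonneg_right hδ11 hL0.le
      rw [abs_le]; constructor
      · have : 0 ≤ κ * L := by positivity
        nlinarith
      · linarith
    have h14 : |(t - 1) * ((rX w t X - 1) * M + (M - κ * L))| ≤ |t - 1| * (δ1 * ((κ + 1) * L) + δ1 * L) := by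
      rw [abs_mul]
      apply mul_le_mul_of_nonneg_left _ (abs_nonneg _)
      refine (abs_add_le _ _).trans (add_le_add ?_ h12)
      rw [abs_mul]
      exact mul_le_mul h3 h13 (abs_nonneg _) hδ10.le
    have h15 : |t - 1| * (δ1 * ((κ + 1) * L) + δ1 * L) ≤ δ / 2 * L := by
      have h16 : δ1 ≤ δ / (4 * ((|t - 1| + 1) * (κ + 1))) := min_le_right _ _
      rw [le_div_iff₀ (by positivity)] at h16
      have h17 : |t - 1| * (δ1 * ((κ + 1) + 1)) ≤ δ / 2 := by
        have : |t - 1| * (δ1 * ((κ + 1) + 1)) ≤ (|t - 1| + 1) * (δ1 * (2 * (κ + 1))) := by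
          apply mul_le_mul (by linarith) _ (by positivity) (by positivity)
          apply mul_le_mul_of_nonneg_left _ hδ10.le
          linarith
        linarith
      calc |t - 1| * (δ1 * ((κ + 1) * L) + δ1 * L) = |t - 1| * (δ1 * ((κ + 1) + 1)) * L := by ring
        _ ≤ δ / 2 * L := mul_le_mul_of_nonneg_right h17 hL0.le
    have h16 := (le_abs_self _).trans (h14.trans h15)
    rw [e]
    linarith
  have e4 : (K X : ℝ) * (A + B) = K X * A + K X * B := by ring
  rw [e4]
  have hδL : 0 ≤ δ * L := by positivity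
  linarith

end

end Pool.Agent.N735.CL
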