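import Mathlib
import Pool.Agent.N735.CL.Pow

set_option autoImplicit false
set_option maxHeartbeats 2000000

/-! The correlations of the weights of two translates. -/

namespace Pool.Agent.N735.CL

open Finset Filter Topology
open Pool.Agent.H646 (rat)

/-- the weight of one coordinate -/
noncomputable def gw (w : ℕ) (t : ℝ) (X j h : ℕ) : ℝ := tf t (Ww w * j) h * wt (Ww w) (ll w t X) (gam w X) h

/-- the mean value of the product of two weights -/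
noncomputable def gg (w : ℕ) (t : ℝ) (X i j : ℕ) : ℝ := E1 X (fun h => gw w t X i h * gw w t X j h)

lemma gg_eq {X : ℕ} (hX : 1 ≤ X) (w : ℕ) (t : ℝ) {i j : ℕ} (hi : 0 < i) (hj : 0 < j) : gg w t X i j =
    1 + ll w t X ^ 2 * gam w X * (1 - gam w X) + (t - 1) * rX w t X ^ 2 * (ej w X i + ej w X j) +
      (t - 1) ^ 2 * rX w t X ^ 2 * E1 X (fun h => pr (Ww w * i) h * pr (Ww w * j) h) :=
  E1_gg hX (Ww_pos w) (dvd_mul_right _ _) (Nat.mul_pos (Ww_pos w) hi) (dvd_mul_right _ _) (Nat.mul_pos (Ww_pos w) hj) t (ll w t X)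

lemma aj_eq {X : ℕ} (hX : 1 ≤ X) (w : ℕ) (t : ℝ) {j : ℕ} (hj : 0 < j) : E1 X (gw w t X j) = aj w t X j :=
  E1_g hX (Ww_pos w) (dvd_mul_right _ _) (Nat.mul_pos (Ww_pos w) hj) t (ll w t X)

lemma real_good (δ E V Q R γ W : ℝ) (hδ0 : 0 < δ) (hδ1 : δ ≤ 1 / 10) (hE : 1 ≤ E) (hV0 : 0 < V)
    (hR : R ≤ V⁻¹ * E) (hQ : Q ≤ (1 + δ) * R + 2 * δ) (hγ0 : 0 < γ) (hγV : γ ≤ V + δ) (hW : 0 < W) (hγW : 1 / (2 * W) ≤ γ) :
    (1 + 3 * δ) * Q - 1 / γ + 13 * δ / γ ≤ 2 * (E - 1) / V + δ * (5 / V + 1 / V ^ 2 + 4 + 26 * W) := by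
  have h1 : (1 + 3 * δ) * Q ≤ (1 + 5 * δ) * (E / V) + 4 * δ := by
    have h2 : Q ≤ (1 + δ) * (E / V) + 2 * δ := by
      have : V⁻¹ * E = E / V := by rw [div_eq_mul_inv]; ring
      rw [this] at hR
      have := mul_le_mul_of_nonneg_left hR (show 0 ≤ 1 + δ by linarith)
      linarith
    have h3 : 0 ≤ E / V := div_nonneg (by linarith) hV0.le
    calc (1 + 3 * δ) * Q ≤ (1 + 3 * δ) * ((1 + δ) * (E / V) + 2 * δ) := mul_le_mul_of_nonneg_left h2 (by linarith)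
      _ = ((1 + 3 * δ) * (1 + δ)) * (E / V) + (1 + 3 * δ) * (2 * δ) := by ring
      _ ≤ _ := by
          apply add_le_add
          · apply mul_le_mul_of_nonneg_right _ h3
            nlinarith
          · nlinarith
  have h2 : 1 / V - 1 / γ ≤ δ / V ^ 2 := by
    have h3 : 1 / (V + δ) ≤ 1 / γ := one_div_le_one_div_of_le hγ0 hγV
    have h4 : 1 / V - 1 / (V + δ) = δ / (V * (V + δ)) := by field_simp; ring
    have h5 : δ / (V * (V + δ)) ≤ δ / V ^ 2 := by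
      apply div_le_div_of_nonneg_left hδ0.le (by positivity)
      nlinarith
    linarith
  have h3 : 13 * δ / γ ≤ 26 * W * δ := by
    rw [div_le_iff₀ hγ0]
    rw [div_le_iff₀ (by positivity)] at hγW
    nlinarith
  have h4 : (1 + 5 * δ) * (E / V) = (1 + 5 * δ) * ((E - 1) / V) + 5 * δ / V + 1 / V := by
    field_simp; ring
  have h5 : (1 + 5 * δ) * ((E - 1) / V) ≤ 2 * (E - 1) / V := by
    have : 0 ≤ (E - 1) / V := div_nonneg (by linarith) hV0.le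
    have h6 : 2 * (E - 1) / V = 2 * ((E - 1) / V) := by ring
    rw [h6]
    apply mul_le_mul_of_nonneg_right _ this
    linarith
  have h6 : δ * (5 / V + 1 / V ^ 2 + 4 + 26 * W) = 5 * δ / V + δ / V ^ 2 + 4 * δ + 26 * W * δ := by ring
  rw [h6]
  linarith

lemma real_all (δ E V Q R C γ W : ℝ) (hδ0 : 0 < δ) (hδ1 : δ ≤ 1 / 10) (hE : 1 ≤ E) (hV0 : 0 < V) (hC : 0 ≤ C)
    (hR : R ≤ V⁻¹ * E) (hQ : Q ≤ C * R) (hγ0 : 0 < γ) (hW : 0 < W) (hγW : 1 / (2 * W) ≤ γ) :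
    (1 + 3 * δ) * Q - 1 / γ + 13 * δ / γ ≤ (2 * C / V + 26 * W) * E := by
  have h3 : 13 * δ / γ ≤ 26 * W := by
    rw [div_le_iff₀ hγ0]
    rw [div_le_iff₀ (by positivity)] at hγW
    nlinarith
  have h1 : Q ≤ C * (E / V) := by
    have : V⁻¹ * E = E / V := by rw [div_eq_mul_inv]; ring
    rw [this] at hR
    exact hQ.trans (mul_le_mul_of_nonneg_left hR hC)
  have h2 : 0 ≤ C * (E / V) := by
    have : 0 ≤ E / V := div_nonneg (by linarith) hV0.le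
    positivity
  have h4 : (1 + 3 * δ) * Q ≤ 2 * (C * (E / V)) := by
    calc (1 + 3 * δ) * Q ≤ (1 + 3 * δ) * (C * (E / V)) := mul_le_mul_of_nonneg_left h1 (by linarith)
      _ ≤ _ := mul_le_mul_of_nonneg_right (by linarith) h2
  have h5 : 0 ≤ 1 / γ := by positivity
  have h6 : (2 * C / V + 26 * W) * E = 2 * (C * (E / V)) + 26 * W * E := by ring
  rw [h6]
  nlinarith

lemma gw_nonneg {w : ℕ} {t : ℝ} {X : ℕ} (ht : 0 ≤ t) (hl : |ll w t X| ≤ 1 / 2) (hγ0 : 0 ≤ gam w X) (hγ1 : gam w X ≤ 1)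
    (j h : ℕ) : 0 ≤ gw w t X j h := by
  unfold gw wt
  apply mul_nonneg
  · unfold tf; split_ifs <;> linarith
  · have h1 : |cf (Ww w) h - gam w X| ≤ 1 := by
      unfold cf
      split_ifs
      · rw [abs_le]; constructor <;> linarith
      · rw [abs_le]; constructor <;> linarith
    have h2 : |ll w t X * (cf (Ww w) h - gam w X)| ≤ 1 / 2 := by
      rw [abs_mul]
      calc |ll w t X| * |cf (Ww w) h - gam w X| ≤ 1 / 2 * 1 := mul_le_mul hl h1 (abs_nonneg _) (by norm_num)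
        _ = _ := by norm_num
    linarith [(abs_le.1 h2).1]

/-- from a bound for `L² Δ` to the `K`-th powers -/
lemma pow_of {g a a' L T κ : ℝ} {K : ℕ} (hg : 0 ≤ g) (ha : 3 / 4 ≤ a) (ha' : 3 / 4 ≤ a') (hL : 0 < L) (hT : 0 ≤ T) (hκ : 0 ≤ κ)
    (hK : (K : ℝ) ≤ (κ + 1) * L ^ 2) (h : L ^ 2 * (g - a * a') ≤ T) :
    g ^ K ≤ (a ^ K * a' ^ K) * Real.exp (2 * (κ + 1) * T) := by
  have haa : 1 / 2 ≤ a * a' := by nlinarith
  have haa0 : 0 < a * a' := by linarith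
  have h1 := pow_ratio a a' (g - a * a') K haa0 (by linarith)
  have e : a * a' + (g - a * a') = g := by ring
  rw [e] at h1
  refine h1.trans ?_
  apply mul_le_mul_of_nonneg_left _ (by positivity)
  apply Real.exp_le_exp.2
  have hL2 : 0 < L ^ 2 := by positivity
  have h2 : (g - a * a') / (a * a') ≤ 2 * T / L ^ 2 := by
    rw [div_le_div_iff₀ haa0 hL2]
    nlinarith
  have hK0 : (0 : ℝ) ≤ K := Nat.cast_nonneg _
  calc (K : ℝ) * ((g - a * a') / (a * a')) ≤ K * (2 * T / L ^ 2) := mul_le_mul_of_nonneg_left h2 hK0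
    _ ≤ ((κ + 1) * L ^ 2) * (2 * T / L ^ 2) := mul_le_mul_of_nonneg_right hK (by positivity)
    _ = 2 * (κ + 1) * T := by field_simp

section

variable (w : ℕ) (t κ : ℝ) (K : ℕ → ℕ) (hK : Tendsto (fun X => (K X : ℝ) / Real.log X ^ 2) atTop (𝓝 κ)) (hκ : 0 ≤ κ)

include hK hκ in
lemma ev_pair (ht : 0 ≤ t) : ∃ C₁ : ℝ, 0 ≤ C₁ ∧ ∀ δ₂ : ℝ, 0 < δ₂ → ∀ᶠ X : ℕ in atTop, ∃ Ex : Finset ℕ, (Ex.card : ℝ) ≤ X / Real.log X ^ 6 ∧
    ∀ i ∈ Icc 1 (JJ w X), ∀ j ∈ Icc 1 (JJ w X), i < j →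
      (gg w t X i j) ^ K X ≤ (aj w t X i ^ K X * aj w t X j ^ K X) * Real.exp (C₁ * Real.exp (sw w (j - i))) ∧
      (Ww w * (j - i) ∉ Ex → (gg w t X i j) ^ K X ≤ (aj w t X i ^ K X * aj w t X j ^ K X) *
        Real.exp (4 * (κ + 1) * (t - 1) ^ 2 / Vw w * (Real.exp (sw w (j - i)) - 1) + δ₂)) := by
  obtain ⟨C, hC, hall⟩ := pc_all
  have hV := Vw_pos w
  have hW : (0 : ℝ) < Ww w := by exact_mod_cast Ww_pos w
  set C₁ := 2 * (κ + 1) * ((t - 1) ^ 2 * (2 * C / Vw w + 26 * Ww w)) with hC₁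
  refine ⟨C₁, by positivity, fun δ₂ hδ₂ => ?_⟩
  set M₀ := 5 / Vw w + 1 / Vw w ^ 2 + 4 + 26 * Ww w with hM₀
  have hM₀0 : 0 < M₀ := by positivity
  set δ := min (1 / 10) (δ₂ / (2 * (κ + 1) * ((t - 1) ^ 2 + 1) * M₀)) with hδ
  have hδ0 : 0 < δ := lt_min (by norm_num) (by positivity)
  have hδ1 : δ ≤ 1 / 10 := min_le_left _ _
  filter_upwards [hall, pc_good 6 δ hδ0, ev_eta δ hδ0, ev_ej w δ hδ0, ev_r w t δ hδ0, ev_gam w δ hδ0, ev_K κ K hK 1 one_pos,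
    ev_x w t (t - 1) (1 / 4) (by norm_num), ev_m w, ev_l w t (1 / 2) (by norm_num), eventually_ge_atTop 1,
    tends_log.eventually_ge_atTop 1] with X e1 e2 e3 e4 e5 e6 e7 e8 e9 e10 e11 e12
  obtain ⟨Ex, hEx, hgood⟩ := e2
  refine ⟨Ex, hEx, fun i hi j hj hij => ?_⟩
  have hi0 : 0 < i := (mem_Icc.1 hi).1
  have hj0 : 0 < j := (mem_Icc.1 hj).1
  have hL0 : 0 < Real.log (X : ℝ) := by linarith
  set L := Real.log (X : ℝ) with hL
  have hγ0 : 0 < gam w X := lt_of_lt_of_le (by positivity) e6.1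
  have hKle : (K X : ℝ) ≤ (κ + 1) * L ^ 2 := by
    have := (abs_le.1 e7).2
    nlinarith
  have hsum : Ww w * j = Ww w * i + Ww w * (j - i) := by
    rw [← mul_add]; congr 1; omega
  set q := E1 X (fun h => pr (Ww w * i) h * pr (Ww w * j) h) with hq
  have hq0 : 0 ≤ q := E1_nonneg (fun h _ => mul_nonneg (pr_nonneg _ _) (pr_nonneg _ _))
  have hineq := pair_ineq (t - 1) (eta X) (ej w X i) (ej w X j) q (gam w X) L δ (rX w t X) (ll w t X) hγ0 e6.2.2 hδ0.le hδ1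
    rfl rfl hq0 e3 (e4 i hi) (e4 j hj) e5
  have hgg : gg w t X i j = 1 + ll w t X ^ 2 * gam w X * (1 - gam w X) + (t - 1) * rX w t X ^ 2 * (ej w X i + ej w X j) +
      (t - 1) ^ 2 * rX w t X ^ 2 * q := gg_eq e11 w t hi0 hj0
  rw [← hgg] at hineq
  have hai : 3 / 4 ≤ aj w t X i := by
    unfold aj; linarith [(abs_le.1 (e8.2 i hi)).1]
  have haj : 3 / 4 ≤ aj w t X j := by
    unfold aj; linarith [(abs_le.1 (e8.2 j hj)).1]
  have hggn : 0 ≤ gg w t X i j :=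
    E1_nonneg (fun h _ => mul_nonneg (gw_nonneg ht e10.1 hγ0.le e6.2.2 _ _) (gw_nonneg ht e10.1 hγ0.le e6.2.2 _ _))
  have hd0 : 0 < j - i := by omega
  have hWd0 : 0 < Ww w * (j - i) := Nat.mul_pos (Ww_pos w) hd0
  have hrat := rat_W w (j - i) hd0
  have hE : 1 ≤ Real.exp (sw w (j - i)) := Real.one_le_exp (sw_nonneg _ _)
  set E := Real.exp (sw w (j - i)) with hEd
  have hs2 : 0 ≤ (t - 1) ^ 2 := sq_nonneg _
  constructor
  · have h1 := e1 (Ww w * i) (Ww w * (j - i)) hWd0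
    rw [← hsum] at h1
    have h2 : L ^ 2 * q ≤ C * rat (Ww w * (j - i)) := by rw [mul_comm]; exact h1
    have h3 := real_all δ E (Vw w) (L ^ 2 * q) (rat (Ww w * (j - i))) C (gam w X) (Ww w) hδ0 hδ1 hE hV hC.le hrat h2 hγ0 hW e6.1
    have h4 := hineq.trans (mul_le_mul_of_nonneg_left h3 hs2)
    have h5 := pow_of hggn hai haj hL0 (by positivity) hκ hKle h4
    refine h5.trans (le_of_eq ?_)
    congr 2
    rw [hC₁]; ring
  · intro hnE
    have hdm : Ww w * (j - i) ∈ Icc 1 X := by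
      rw [mem_Icc]
      refine ⟨hWd0, ?_⟩
      have h6 : j - i ≤ JJ w X := by
        have := (mem_Icc.1 hj).2
        omega
      exact (Nat.mul_le_mul_left _ h6).trans (mul_JJ_le w X)
    have h1 := hgood (Ww w * (j - i)) hdm hnE (Ww w * i) (e9 i hi)
    rw [← hsum] at h1
    have h2 : L ^ 2 * q ≤ (1 + δ) * rat (Ww w * (j - i)) + 2 * δ := by rw [mul_comm]; exact h1
    have h3 := real_good δ E (Vw w) (L ^ 2 * q) (rat (Ww w * (j - i))) (gam w X) (Ww w) hδ0 hδ1 hE hV hrat h2 hγ0 e6.2.1 hW e6.1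
    have h4 := hineq.trans (mul_le_mul_of_nonneg_left h3 hs2)
    have hT0 : 0 ≤ (t - 1) ^ 2 * (2 * (E - 1) / Vw w + δ * M₀) := by
      have : 0 ≤ 2 * (E - 1) / Vw w := div_nonneg (by linarith) hV.le
      positivity
    have h5 := pow_of hggn hai haj hL0 hT0 hκ hKle h4
    refine h5.trans ?_
    have hapos : 0 ≤ aj w t X i ^ K X * aj w t X j ^ K X := by positivity
    apply mul_le_mul_of_nonneg_left _ hapos
    apply Real.exp_le_exp.2
    have h6 : 2 * (κ + 1) * ((t - 1) ^ 2 * (2 * (E - 1) / Vw w + δ * M₀)) =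
        4 * (κ + 1) * (t - 1) ^ 2 / Vw w * (E - 1) + 2 * (κ + 1) * (t - 1) ^ 2 * M₀ * δ := by ring
    rw [h6]
    have h7 : 2 * (κ + 1) * (t - 1) ^ 2 * M₀ * δ ≤ δ₂ := by
      have h8 : δ ≤ δ₂ / (2 * (κ + 1) * ((t - 1) ^ 2 + 1) * M₀) := min_le_right _ _
      rw [le_div_iff₀ (by positivity)] at h8
      have h9 : 2 * (κ + 1) * (t - 1) ^ 2 * M₀ * δ ≤ δ * (2 * (κ + 1) * ((t - 1) ^ 2 + 1) * M₀) := by
        have : 0 ≤ 2 * (κ + 1) * M₀ * δ := by positivity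
        nlinarith
      linarith
    linarith

end

end Pool.Agent.N735.CL
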