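import Mathlib
import Pool.Agent.N735.CL.PairPow

set_option autoImplicit false
set_option maxHeartbeats 2000000

/-! The sum of the correlations over all pairs of different translates. -/

namespace Pool.Agent.N735.CL

open Finset Filter Topology

lemma sum_shift_le (J i : ℕ) (f : ℕ → ℝ) (hf : ∀ d ∈ Icc 1 J, 0 ≤ f d) :
    ∑ j ∈ Icc 1 J, (if i < j then f (j - i) else 0) ≤ ∑ d ∈ Icc 1 J, f d := by
  rw [← sum_filter]
  have h1 : ∑ j ∈ (Icc 1 J).filter (fun j => i < j), f (j - i) = ∑ d ∈ ((Icc 1 J).filter (fun j => i < j)).image (fun j => j - i), f d := by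
    rw [sum_image]
    intro a ha b hb hab
    rw [mem_coe, mem_filter] at ha hb
    simp only at hab
    omega
  rw [h1]
  apply sum_le_sum_of_subset_of_nonneg
  · intro d hd
    rw [mem_image] at hd
    obtain ⟨j, hj, rfl⟩ := hd
    rw [mem_filter, mem_Icc] at hj
    rw [mem_Icc]; omega
  · intro d hd _
    exact hf d hd

lemma sum_shift_le' (J i : ℕ) (hi : i ≤ J) (f : ℕ → ℝ) (hf : ∀ d ∈ Icc 1 J, 0 ≤ f d) :
    ∑ j ∈ Icc 1 J, (if j < i then f (i - j) else 0) ≤ ∑ d ∈ Icc 1 J, f d := by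
  rw [← sum_filter]
  have h1 : ∑ j ∈ (Icc 1 J).filter (fun j => j < i), f (i - j) = ∑ d ∈ ((Icc 1 J).filter (fun j => j < i)).image (fun j => i - j), f d := by
    rw [sum_image]
    intro a ha b hb hab
    rw [mem_coe, mem_filter] at ha hb
    simp only at hab
    omega
  rw [h1]
  apply sum_le_sum_of_subset_of_nonneg
  · intro d hd
    rw [mem_image] at hd
    obtain ⟨j, hj, rfl⟩ := hd
    rw [mem_filter, mem_Icc] at hj
    rw [mem_Icc]; omega
  · intro d hd _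
    exact hf d hd

lemma exc_sum (w J : ℕ) (C₁ C₃ δ₃ : ℝ) (hC₃ : ∑ d ∈ Icc 1 J, Real.exp (2 * C₁ * Real.exp (sw w d)) ≤ J * C₃)
    (Ex : Finset ℕ) (hEx : (Ex.card : ℝ) ≤ δ₃ * J) (τ : ℝ) (hτ : 0 ≤ τ) (hδ₃ : δ₃ * C₃ ≤ τ ^ 2) :
    ∑ d ∈ (Icc 1 J).filter (fun d => Ww w * d ∈ Ex), Real.exp (C₁ * Real.exp (sw w d)) ≤ τ * J := by
  set S := (Icc 1 J).filter (fun d => Ww w * d ∈ Ex) with hS
  have hJ : (0 : ℝ) ≤ J := Nat.cast_nonneg _
  have h1 := sq_sum_le_card_mul_sum_sq (s := S) (f := fun d => Real.exp (C₁ * Real.exp (sw w d)))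
  have h2 : ∑ d ∈ S, Real.exp (C₁ * Real.exp (sw w d)) ^ 2 ≤ J * C₃ := by
    refine le_trans ?_ hC₃
    refine le_trans (le_of_eq (sum_congr rfl fun d _ => ?_)) (sum_le_sum_of_subset_of_nonneg (filter_subset _ _) (fun d _ _ => (Real.exp_pos _).le))
    rw [← Real.exp_nat_mul]; congr 1; push_cast; ring
  have h3 : (S.card : ℝ) ≤ δ₃ * J := by
    refine le_trans ?_ hEx
    have : S.card ≤ Ex.card := by
      apply card_le_card_of_injOn (fun d => Ww w * d)
      · intro d hd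
        rw [mem_coe, hS, mem_filter] at hd
        exact hd.2
      · intro a _ b _ hab
        exact Nat.eq_of_mul_eq_mul_left (Ww_pos w) hab
    exact_mod_cast this
  have h4 : (∑ d ∈ S, Real.exp (C₁ * Real.exp (sw w d))) ^ 2 ≤ (τ * J) ^ 2 := by
    refine h1.trans ?_
    have h5 : 0 ≤ ∑ d ∈ S, Real.exp (C₁ * Real.exp (sw w d)) ^ 2 := sum_nonneg (fun d _ => sq_nonneg _)
    calc (S.card : ℝ) * ∑ d ∈ S, Real.exp (C₁ * Real.exp (sw w d)) ^ 2 ≤ (δ₃ * J) * (J * C₃) :=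
          mul_le_mul h3 h2 h5 ((Nat.cast_nonneg _).trans h3)
      _ = (δ₃ * C₃) * J ^ 2 := by ring
      _ ≤ τ ^ 2 * J ^ 2 := mul_le_mul_of_nonneg_right hδ₃ (by positivity)
      _ = _ := by ring
  exact le_of_sq_le_sq h4 (by positivity)

section

variable (t κ : ℝ) (K : ℕ → ℕ) (hK : Tendsto (fun X => (K X : ℝ) / Real.log X ^ 2) atTop (𝓝 κ)) (hκ : 0 ≤ κ)

lemma gg_comm (w : ℕ) (t : ℝ) (X i j : ℕ) : gg w t X i j = gg w t X j i := by
  unfold gg
  congr 1
  ext h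
  ring

include hK hκ in
theorem ev_sum (ht : 0 ≤ t) (τ : ℝ) (hτ : 0 < τ) : ∃ w : ℕ, ∀ᶠ X : ℕ in atTop,
    ∑ i ∈ Icc 1 (JJ w X), ∑ j ∈ (Icc 1 (JJ w X)).filter (fun j => j ≠ i), (gg w t X i j) ^ K X ≤
      (1 + τ) * (JJ w X * a0 w t X ^ K X) ^ 2 := by
  obtain ⟨τ1, hτ10, hτ1⟩ : ∃ τ1 : ℝ, 0 < τ1 ∧ (1 + τ1) ^ 2 * (1 + 2 * (Real.exp τ1 * (1 + τ1) - 1 + τ1)) ≤ 1 + τ := by
    have h1 : ∀ᶠ x : ℝ in nhds 0, (1 + x) ^ 2 * (1 + 2 * (Real.exp x * (1 + x) - 1 + x)) < 1 + τ := by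
      apply ContinuousAt.eventually_lt
      · fun_prop
      · fun_prop
      · simp; exact hτ
    have h4 : ∀ᶠ x : ℝ in nhdsWithin 0 (Set.Ioi 0), x ∈ Set.Ioi (0 : ℝ) := self_mem_nhdsWithin
    obtain ⟨x, hx⟩ := ((h1.filter_mono nhdsWithin_le_nhds).and h4).exists
    exact ⟨x, hx.2, hx.1.le⟩
  obtain ⟨w0, hw0⟩ := main_avg (4 * (κ + 1) * (t - 1) ^ 2) τ1 (by positivity) hτ10
  set w := max w0 2 with hw
  have hmain := hw0 w (le_max_left _ _)
  obtain ⟨C₁, hC₁0, hpair⟩ := ev_pair w t κ K hK hκ ht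
  obtain ⟨C₃, hC₃0, hC₃⟩ := exc_avg w (le_max_right _ _) (2 * C₁) (by positivity)
  refine ⟨w, ?_⟩
  filter_upwards [hpair τ1 hτ10, ev_Ex w (τ1 ^ 2 / (C₃ + 1)) (by positivity), ev_aj w t κ K hK hκ τ1 hτ10] with X h1 h2 h3
  obtain ⟨Ex, hEx, hp⟩ := h1
  obtain ⟨ha0, haj⟩ := h3
  set J := JJ w X with hJ
  have hJ0 : (0 : ℝ) ≤ J := Nat.cast_nonneg _
  set A := a0 w t X ^ K X with hA
  have hA0 : 0 < A := pow_pos ha0 _
  set c := 4 * (κ + 1) * (t - 1) ^ 2 / Vw w with hc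
  have hc0 : 0 ≤ c := by
    have := Vw_pos w
    positivity
  -- the majorant
  set f : ℕ → ℝ := fun d => Real.exp (c * (Real.exp (sw w d) - 1) + τ1) - 1 +
    (if Ww w * d ∈ Ex then Real.exp (C₁ * Real.exp (sw w d)) else 0) with hf
  have hf0 : ∀ d : ℕ, 0 ≤ f d := by
    intro d
    have e1 : 1 ≤ Real.exp (sw w d) := Real.one_le_exp (sw_nonneg _ _)
    have e2 : 1 ≤ Real.exp (c * (Real.exp (sw w d) - 1) + τ1) := by
      apply Real.one_le_exp
      have : 0 ≤ c * (Real.exp (sw w d) - 1) := mul_nonneg hc0 (by linarith)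
      linarith
    have e3 : (0 : ℝ) ≤ (if Ww w * d ∈ Ex then Real.exp (C₁ * Real.exp (sw w d)) else 0) := by
      split_ifs
      · positivity
      · exact le_rfl
    simp only [hf]
    linarith
  have hfsum : ∑ d ∈ Icc 1 J, f d ≤ (Real.exp τ1 * (1 + τ1) - 1 + τ1) * J := by
    simp only [hf]
    rw [sum_add_distrib, sum_sub_distrib, ← sum_filter]
    have g1 : ∑ d ∈ Icc 1 J, Real.exp (c * (Real.exp (sw w d) - 1) + τ1) ≤ Real.exp τ1 * (J * (1 + τ1)) := by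
      have : ∑ d ∈ Icc 1 J, Real.exp (c * (Real.exp (sw w d) - 1) + τ1) = Real.exp τ1 * ∑ d ∈ Icc 1 J, Real.exp (c * (Real.exp (sw w d) - 1)) := by
        rw [mul_sum]
        apply sum_congr rfl
        intro d _
        rw [Real.exp_add]; ring
      rw [this]
      exact mul_le_mul_of_nonneg_left (hmain J) (Real.exp_pos _).le
    have g2 : ∑ d ∈ Icc 1 J, (1 : ℝ) = J := by simp
    have g3 : ∑ d ∈ (Icc 1 J).filter (fun d => Ww w * d ∈ Ex), Real.exp (C₁ * Real.exp (sw w d)) ≤ τ1 * J := by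
      apply exc_sum w J C₁ C₃ (τ1 ^ 2 / (C₃ + 1)) (hC₃ J) Ex (hEx.trans h2) τ1 hτ10.le
      rw [div_mul_eq_mul_div, div_le_iff₀ (by positivity)]
      have : 0 ≤ τ1 ^ 2 := sq_nonneg _
      nlinarith
    rw [g2]
    have g4 : (Real.exp τ1 * (1 + τ1) - 1 + τ1) * J = Real.exp τ1 * (J * (1 + τ1)) - J + τ1 * J := by ring
    rw [g4]
    linarith
  have hgood : ∀ i ∈ Icc 1 J, ∀ j ∈ Icc 1 J, i < j → gg w t X i j ^ K X ≤ ((1 + τ1) ^ 2 * A ^ 2) * (1 + f (j - i)) := by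
    intro i hi j hj hij
    obtain ⟨p1, p2⟩ := hp i hi j hj hij
    obtain ⟨i1, i2, i3⟩ := haj i hi
    obtain ⟨j1, j2, j3⟩ := haj j hj
    have q1 : 0 ≤ aj w t X i ^ K X := pow_nonneg (by linarith) _
    have q2 : 0 ≤ aj w t X j ^ K X := pow_nonneg (by linarith) _
    have q3 : aj w t X i ^ K X * aj w t X j ^ K X ≤ (1 + τ1) ^ 2 * A ^ 2 := by
      calc aj w t X i ^ K X * aj w t X j ^ K X ≤ ((1 + τ1) * A) * ((1 + τ1) * A) :=
            mul_le_mul i3 j3 q2 (by positivity)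
        _ = _ := by ring
    have q4 : 1 ≤ Real.exp (c * (Real.exp (sw w (j - i)) - 1) + τ1) := by
      apply Real.one_le_exp
      have e1 : 1 ≤ Real.exp (sw w (j - i)) := Real.one_le_exp (sw_nonneg _ _)
      have : 0 ≤ c * (Real.exp (sw w (j - i)) - 1) := mul_nonneg hc0 (by linarith)
      linarith
    by_cases hE : Ww w * (j - i) ∈ Ex
    · have q5 : Real.exp (C₁ * Real.exp (sw w (j - i))) ≤ 1 + f (j - i) := by
        simp only [hf]
        rw [if_pos hE]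
        linarith
      refine p1.trans (mul_le_mul q3 q5 (Real.exp_pos _).le (by positivity))
    · have q5 : Real.exp (c * (Real.exp (sw w (j - i)) - 1) + τ1) ≤ 1 + f (j - i) := by
        simp only [hf]
        rw [if_neg hE]
        linarith
      refine (p2 hE).trans (mul_le_mul q3 q5 (Real.exp_pos _).le (by positivity))
  have hrow : ∀ i ∈ Icc 1 J, ∑ j ∈ (Icc 1 J).filter (fun j => j ≠ i), gg w t X i j ^ K X ≤
      ((1 + τ1) ^ 2 * A ^ 2) * (J + 2 * ((Real.exp τ1 * (1 + τ1) - 1 + τ1) * J)) := by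
    intro i hi
    have r1 : ∀ j ∈ (Icc 1 J).filter (fun j => j ≠ i), gg w t X i j ^ K X ≤ ((1 + τ1) ^ 2 * A ^ 2) *
        (1 + ((if i < j then f (j - i) else 0) + (if j < i then f (i - j) else 0))) := by
      intro j hj
      rw [mem_filter] at hj
      rcases lt_or_gt_of_ne hj.2 with h | h
      · rw [if_neg (by omega), if_pos h, zero_add, gg_comm]
        exact hgood j hj.1 i hi h
      · rw [if_pos h, if_neg (by omega), add_zero]
        exact hgood i hi j hj.1 h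
    refine (sum_le_sum r1).trans ?_
    rw [← mul_sum]
    apply mul_le_mul_of_nonneg_left _ (by positivity)
    have r2 : ∑ j ∈ (Icc 1 J).filter (fun j => j ≠ i), (1 + ((if i < j then f (j - i) else 0) + (if j < i then f (i - j) else 0))) ≤
        ∑ j ∈ Icc 1 J, (1 + ((if i < j then f (j - i) else 0) + (if j < i then f (i - j) else 0))) := by
      apply sum_le_sum_of_subset_of_nonneg (filter_subset _ _)
      intro j _ _
      have s1 : 0 ≤ (if i < j then f (j - i) else 0) := by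
        split_ifs
        · exact hf0 _
        · exact le_rfl
      have s2 : 0 ≤ (if j < i then f (i - j) else 0) := by
        split_ifs
        · exact hf0 _
        · exact le_rfl
      linarith
    refine r2.trans ?_
    rw [sum_add_distrib, sum_add_distrib]
    have g2 : ∑ d ∈ Icc 1 J, (1 : ℝ) = J := by simp
    have s1 := (sum_shift_le J i f (fun d _ => hf0 d)).trans hfsum
    have s2 := (sum_shift_le' J i (mem_Icc.1 hi).2 f (fun d _ => hf0 d)).trans hfsum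
    rw [g2]
    linarith
  refine (sum_le_sum hrow).trans ?_
  rw [sum_const, nsmul_eq_mul, Nat.card_Icc, Nat.add_sub_cancel]
  calc (J : ℝ) * (((1 + τ1) ^ 2 * A ^ 2) * (J + 2 * ((Real.exp τ1 * (1 + τ1) - 1 + τ1) * J)))
      = ((1 + τ1) ^ 2 * (1 + 2 * (Real.exp τ1 * (1 + τ1) - 1 + τ1))) * (J * A) ^ 2 := by ring
    _ ≤ (1 + τ) * (J * A) ^ 2 := mul_le_mul_of_nonneg_right hτ1 (sq_nonneg _)

end

end Pool.Agent.N735.CL
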