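import Mathlib
import Pool.Agent.N735.CL.Sum

set_option autoImplicit false
set_option maxHeartbeats 2000000

/-! The truncated weighted count of the translates. -/

namespace Pool.Agent.N735.CL

open Finset Filter Topology

/-- the second factor of the weight of a tuple -/
noncomputable def Fh (w : ℕ) (t : ℝ) (X : ℕ) {K : ℕ} (h : Fin K → ℕ) : ℝ := ∏ i, wt (Ww w) (ll w t X) (gam w X) (h i)

/-- the weight of a tuple -/
noncomputable def Gj (w : ℕ) (t : ℝ) (X j : ℕ) {K : ℕ} (h : Fin K → ℕ) : ℝ := ∏ i, gw w t X j (h i)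

lemma Gj_eq (w : ℕ) (t : ℝ) (X j : ℕ) {K : ℕ} (h : Fin K → ℕ) : Gj w t X j h = t ^ Nm h (Ww w * j) * Fh w t X h := by
  unfold Gj Fh gw
  rw [prod_mul_distrib, prod_tf]

lemma EK_Gj {X : ℕ} (hX : 1 ≤ X) (w : ℕ) (t : ℝ) (K : ℕ) {j : ℕ} (hj : 0 < j) :
    EK X K (fun h => Gj w t X j h) = aj w t X j ^ K := by
  unfold Gj
  rw [EK_prod, aj_eq hX w t hj]

lemma EK_Gj_exp {X : ℕ} (hX : 1 ≤ X) (w : ℕ) (t s : ℝ) (K : ℕ) {j : ℕ} (hj : 0 < j) :
    EK X K (fun h => Gj w t X j h * Real.exp (s * Nm h (Ww w * j))) = (1 + (t * Real.exp s - 1) * rX w t X * ej w X j) ^ K := by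
  have h1 : ∀ h ∈ Om X K, Gj w t X j h * Real.exp (s * Nm h (Ww w * j)) =
      ∏ i, (fun v => tf (t * Real.exp s) (Ww w * j) v * wt (Ww w) (ll w t X) (gam w X) v) (h i) := by
    intro h _
    have e1 : Real.exp (s * Nm h (Ww w * j)) = ∏ i, tf (Real.exp s) (Ww w * j) (h i) := by
      rw [prod_tf, ← Real.exp_nat_mul]; congr 1; ring
    rw [e1]
    unfold Gj
    rw [← prod_mul_distrib]
    apply prod_congr rfl
    intro i _
    unfold gw
    simp only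
    rw [← tf_mul]; ring
  refine (EK_congr h1).trans ((EK_prod X K (fun v => tf (t * Real.exp s) (Ww w * j) v * wt (Ww w) (ll w t X) (gam w X) v)).trans ?_)
  congr 1
  exact E1_g hX (Ww_pos w) (dvd_mul_right _ _) (Nat.mul_pos (Ww_pos w) hj) (t * Real.exp s) (ll w t X)

lemma EK_tF {X : ℕ} (hX : 1 ≤ X) (w : ℕ) (t : ℝ) (K : ℕ) {j : ℕ} (hj : 0 < j) :
    EK X K (fun h => t ^ Nm h (Ww w * j) * Fh w t X h ^ 2) =
      (1 + ll w t X ^ 2 * gam w X * (1 - gam w X) + (t - 1) * rX w t X ^ 2 * ej w X j) ^ K := by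
  have h1 : ∀ h ∈ Om X K, t ^ Nm h (Ww w * j) * Fh w t X h ^ 2 =
      ∏ i, (fun v => tf t (Ww w * j) v * wt (Ww w) (ll w t X) (gam w X) v ^ 2) (h i) := by
    intro h _
    rw [← prod_tf]
    unfold Fh
    rw [← prod_pow, ← prod_mul_distrib]
  refine (EK_congr h1).trans ((EK_prod X K (fun v => tf t (Ww w * j) v * wt (Ww w) (ll w t X) (gam w X) v ^ 2)).trans ?_)
  congr 1
  exact E1_g2 hX (Ww_pos w) (dvd_mul_right _ _) (Nat.mul_pos (Ww_pos w) hj) t (ll w t X)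

lemma EK_GG (X w : ℕ) (t : ℝ) (K i j : ℕ) :
    EK X K (fun h => Gj w t X i h * Gj w t X j h) = gg w t X i j ^ K := by
  have h1 : ∀ h ∈ Om X K, Gj w t X i h * Gj w t X j h = ∏ v, (fun v => gw w t X i v * gw w t X j v) (h v) := by
    intro h _
    unfold Gj
    rw [← prod_mul_distrib]
  exact (EK_congr h1).trans (EK_prod X K (fun v => gw w t X i v * gw w t X j v))

lemma EK_Fh {X : ℕ} (hX : 1 ≤ X) (w : ℕ) (t : ℝ) (K : ℕ) : EK X K (fun h => Fh w t X h) = 1 := by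
  unfold Fh
  rw [EK_prod]
  have : E1 X (wt (Ww w) (ll w t X) (gam w X)) = 1 := by
    have h1 : ∀ h ∈ Icc 1 X, wt (Ww w) (ll w t X) (gam w X) h = (1 - ll w t X * gam w X) + ll w t X * cf (Ww w) h := by
      intro h _; unfold wt; ring
    rw [E1_congr h1, E1_add, E1_const hX, E1_const_mul]
    unfold gam
    ring
  rw [this, one_pow]

lemma Fh_pos {w : ℕ} {t : ℝ} {X : ℕ} (hl : |ll w t X| ≤ 1 / 2) (hγ0 : 0 ≤ gam w X) (hγ1 : gam w X ≤ 1) {K : ℕ}
    (h : Fin K → ℕ) : 0 < Fh w t X h := by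
  unfold Fh
  apply prod_pos
  intro i _
  unfold wt
  have h1 : |cf (Ww w) (h i) - gam w X| ≤ 1 := by
    unfold cf
    split_ifs
    · rw [abs_le]; constructor <;> linarith
    · rw [abs_le]; constructor <;> linarith
  have h2 : |ll w t X * (cf (Ww w) (h i) - gam w X)| ≤ 1 / 2 := by
    rw [abs_mul]
    calc |ll w t X| * |cf (Ww w) (h i) - gam w X| ≤ 1 / 2 * 1 := mul_le_mul hl h1 (abs_nonneg _) (by norm_num)
      _ = _ := by norm_num
  linarith [(abs_le.1 h2).1]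

/-- the truncated weighted count -/
noncomputable def Zs (w : ℕ) (t : ℝ) (X : ℕ) {K : ℕ} (A1 A2 : ℝ) (h : Fin K → ℕ) : ℝ :=
  ∑ j ∈ Icc 1 (JJ w X), if A1 ≤ (Nm h (Ww w * j) : ℝ) ∧ (Nm h (Ww w * j) : ℝ) ≤ A2 then Gj w t X j h else 0

lemma Gj_nonneg {w : ℕ} {t : ℝ} {X : ℕ} (ht : 0 ≤ t) (hl : |ll w t X| ≤ 1 / 2) (hγ0 : 0 ≤ gam w X) (hγ1 : gam w X ≤ 1) {K : ℕ}
    (j : ℕ) (h : Fin K → ℕ) : 0 ≤ Gj w t X j h :=
  prod_nonneg (fun i _ => gw_nonneg ht hl hγ0 hγ1 j (h i))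

lemma EK_Zs_ge {w : ℕ} {t : ℝ} {X : ℕ} (hX : 1 ≤ X) (ht : 0 ≤ t) (hl : |ll w t X| ≤ 1 / 2) (hγ0 : 0 ≤ gam w X) (hγ1 : gam w X ≤ 1)
    (K : ℕ) (A1 A2 s : ℝ) (hs : 0 ≤ s) :
    ∑ j ∈ Icc 1 (JJ w X), (aj w t X j ^ K - Real.exp (-s * A2) * (1 + (t * Real.exp s - 1) * rX w t X * ej w X j) ^ K -
      Real.exp (s * A1) * (1 + (t * Real.exp (-s) - 1) * rX w t X * ej w X j) ^ K) ≤
      EK X K (fun h => Zs w t X A1 A2 h) := by
  unfold Zs
  rw [EK_sum]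
  apply sum_le_sum
  intro j hj
  have hj0 : 0 < j := (mem_Icc.1 hj).1
  rw [← EK_Gj hX w t K hj0, ← EK_Gj_exp hX w t s K hj0, ← EK_Gj_exp hX w t (-s) K hj0, ← EK_const_mul, ← EK_const_mul,
    ← EK_sub, ← EK_sub]
  apply EK_mono
  intro h _
  have hG := Gj_nonneg ht hl hγ0 hγ1 j h
  set n : ℝ := (Nm h (Ww w * j) : ℝ) with hn
  set G := Gj w t X j h with hGd
  have e1 : Real.exp (-s * A2) * (G * Real.exp (s * n)) = G * Real.exp (s * (n - A2)) := by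
    rw [show s * (n - A2) = -s * A2 + s * n by ring, Real.exp_add]; ring
  have e2 : Real.exp (s * A1) * (G * Real.exp (-s * n)) = G * Real.exp (s * (A1 - n)) := by
    rw [show s * (A1 - n) = s * A1 + -s * n by ring, Real.exp_add]; ring
  rw [e1, e2]
  have p1 : 0 ≤ G * Real.exp (s * (n - A2)) := by positivity
  have p2 : 0 ≤ G * Real.exp (s * (A1 - n)) := by positivity
  split_ifs with hc
  · linarith
  · rcases not_and_or.1 hc with hc | hc
    · push Not at hc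
      have : 1 ≤ Real.exp (s * (A1 - n)) := Real.one_le_exp (mul_nonneg hs (by linarith))
      nlinarith
    · push Not at hc
      have : 1 ≤ Real.exp (s * (n - A2)) := Real.one_le_exp (mul_nonneg hs (by linarith))
      nlinarith

lemma EK_Zs_sq_le {w : ℕ} {t : ℝ} {X : ℕ} (hX : 1 ≤ X) (ht : 0 ≤ t) (hl : |ll w t X| ≤ 1 / 2) (hγ0 : 0 ≤ gam w X) (hγ1 : gam w X ≤ 1)
    (K : ℕ) (A1 A2 V : ℝ) (hV : ∀ n : ℕ, A1 ≤ n → (n : ℝ) ≤ A2 → t ^ n ≤ V) (hV0 : 0 ≤ V) :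
    EK X K (fun h => Zs w t X A1 A2 h ^ 2) ≤
      ∑ i ∈ Icc 1 (JJ w X), ∑ j ∈ (Icc 1 (JJ w X)).filter (fun j => j ≠ i), (gg w t X i j) ^ K +
      ∑ j ∈ Icc 1 (JJ w X), V * (1 + ll w t X ^ 2 * gam w X * (1 - gam w X) + (t - 1) * rX w t X ^ 2 * ej w X j) ^ K := by
  set T : ℕ → (Fin K → ℕ) → ℝ := fun j h => if A1 ≤ (Nm h (Ww w * j) : ℝ) ∧ (Nm h (Ww w * j) : ℝ) ≤ A2 then Gj w t X j h else 0 with hT
  have hG : ∀ j (h : Fin K → ℕ), 0 ≤ Gj w t X j h := fun j h => Gj_nonneg ht hl hγ0 hγ1 j h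
  have hT0 : ∀ j h, 0 ≤ T j h := by
    intro j h; simp only [hT]; split_ifs
    · exact hG j h
    · exact le_rfl
  have hTG : ∀ j h, T j h ≤ Gj w t X j h := by
    intro j h; simp only [hT]; split_ifs
    · exact le_rfl
    · exact hG j h
  have h1 : ∀ h ∈ Om X K, Zs w t X A1 A2 h ^ 2 ≤ ∑ i ∈ Icc 1 (JJ w X), ∑ j ∈ (Icc 1 (JJ w X)).filter (fun j => j ≠ i), Gj w t X i h * Gj w t X j h +
      ∑ j ∈ Icc 1 (JJ w X), V * (t ^ Nm h (Ww w * j) * Fh w t X h ^ 2) := by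
    intro h _
    have e1 : Zs w t X A1 A2 h ^ 2 = ∑ i ∈ Icc 1 (JJ w X), ∑ j ∈ Icc 1 (JJ w X), T i h * T j h := by
      unfold Zs
      rw [sq, sum_mul_sum]
    rw [e1, ← sum_add_distrib]
    apply sum_le_sum
    intro i hi
    rw [← sum_filter_add_sum_filter_not (Icc 1 (JJ w X)) (fun j => j ≠ i)]
    apply add_le_add
    · apply sum_le_sum
      intro j _
      exact mul_le_mul (hTG i h) (hTG j h) (hT0 j h) (hG i h)
    · have e2 : (Icc 1 (JJ w X)).filter (fun j => ¬ j ≠ i) = {i} := by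
        ext j
        rw [mem_filter, mem_singleton, not_not]
        constructor
        · exact fun h => h.2
        · rintro rfl; exact ⟨hi, rfl⟩
      rw [e2, sum_singleton]
      simp only [hT]
      split_ifs with hc
      · have h3 := hV _ hc.1 hc.2
        rw [Gj_eq]
        have h4 : 0 ≤ t ^ Nm h (Ww w * i) := pow_nonneg ht _
        have h5 : 0 ≤ Fh w t X h ^ 2 := sq_nonneg _
        calc t ^ Nm h (Ww w * i) * Fh w t X h * (t ^ Nm h (Ww w * i) * Fh w t X h)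
            = t ^ Nm h (Ww w * i) * (t ^ Nm h (Ww w * i) * Fh w t X h ^ 2) := by ring
          _ ≤ V * (t ^ Nm h (Ww w * i) * Fh w t X h ^ 2) := mul_le_mul_of_nonneg_right h3 (by positivity)
      · have h4 : 0 ≤ t ^ Nm h (Ww w * i) := pow_nonneg ht _
        rw [mul_zero]
        positivity
  refine (EK_mono h1).trans (le_of_eq ?_)
  rw [EK_add, EK_sum, EK_sum]
  congr 1
  · apply sum_congr rfl
    intro i _
    rw [EK_sum]
    apply sum_congr rfl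
    intro j _
    exact EK_GG X w t K i j
  · apply sum_congr rfl
    intro j hj
    rw [EK_const_mul, EK_tF hX w t K (mem_Icc.1 hj).1]

end Pool.Agent.N735.CL
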