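import Mathlib
import Pool.Agent.N735.CL.Zst

set_option autoImplicit false
set_option maxHeartbeats 4000000

/-! The lower bound for the number of the translates with a given number of primes. -/

namespace Pool.Agent.N735.CL

open Finset Filter Topology

open Classical in
/-- the number of the translates in the window -/
noncomputable def cntW (t κ ε : ℝ) (X : ℕ) {K : ℕ} (h : Fin K → ℕ) : ℕ :=
  ((Icc 1 X).filter (fun m => (κ * t - ε) * Real.log X ≤ (Nm h m : ℝ) ∧ (Nm h m : ℝ) ≤ (κ * t + ε) * Real.log X ∧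
    (t = 0 → Nm h m = 0))).card

lemma pow_le_V (t κ ε L : ℝ) (ht : 0 ≤ t) (n : ℕ) (h1 : (κ * t - ε) * L ≤ n) (h2 : (n : ℝ) ≤ (κ * t + ε) * L) :
    t ^ n ≤ Real.exp ((κ * (t * Real.log t) + ε * |Real.log t|) * L) := by
  rcases eq_or_lt_of_le ht with h0 | h0
  · rw [← h0]
    simp only [Real.log_zero, mul_zero, abs_zero, add_zero, zero_mul, Real.exp_zero]
    exact pow_le_one₀ le_rfl zero_le_one
  · have e : t ^ n = Real.exp (n * Real.log t) := by
      rw [Real.exp_nat_mul, Real.exp_log h0]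
    rw [e]
    apply Real.exp_le_exp.2
    have h3 : |(n : ℝ) - κ * t * L| ≤ ε * L := by
      rw [abs_le]; constructor <;> linarith
    have h4 : ((n : ℝ) - κ * t * L) * Real.log t ≤ ε * L * |Real.log t| := by
      refine (le_abs_self _).trans ?_
      rw [abs_mul]
      exact mul_le_mul_of_nonneg_right h3 (abs_nonneg _)
    nlinarith

lemma Zs_le {w : ℕ} {t : ℝ} {X : ℕ} (ht : 0 ≤ t) (hl : |ll w t X| ≤ 1 / 2) (hγ0 : 0 ≤ gam w X)
    (hγ1 : gam w X ≤ 1) (κ ε : ℝ) {K : ℕ} (h : Fin K → ℕ) :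
    Zs w t X ((κ * t - ε) * Real.log X) ((κ * t + ε) * Real.log X) h ≤
      Fh w t X h * Real.exp ((κ * (t * Real.log t) + ε * |Real.log t|) * Real.log X) * cntW t κ ε X h := by
  classical
  set A1 := (κ * t - ε) * Real.log X with hA1
  set A2 := (κ * t + ε) * Real.log X with hA2
  set V := Real.exp ((κ * (t * Real.log t) + ε * |Real.log t|) * Real.log X) with hV
  have hF := Fh_pos hl hγ0 hγ1 h
  have h1 : Zs w t X A1 A2 h ≤ ∑ j ∈ (Icc 1 (JJ w X)).filter (fun j => A1 ≤ (Nm h (Ww w * j) : ℝ) ∧ (Nm h (Ww w * j) : ℝ) ≤ A2 ∧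
      (t = 0 → Nm h (Ww w * j) = 0)), Fh w t X h * V := by
    unfold Zs
    rw [sum_filter]
    apply sum_le_sum
    intro j _
    by_cases hc : A1 ≤ (Nm h (Ww w * j) : ℝ) ∧ (Nm h (Ww w * j) : ℝ) ≤ A2
    · rw [if_pos hc]
      by_cases hz : (t = 0 → Nm h (Ww w * j) = 0)
      · rw [if_pos ⟨hc.1, hc.2, hz⟩, Gj_eq]
        have := pow_le_V t κ ε (Real.log X) ht _ hc.1 hc.2
        rw [mul_comm]
        exact mul_le_mul_of_nonneg_left this hF.le
      · rw [if_neg (by tauto)]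
        rw [Classical.not_imp] at hz
        rw [Gj_eq, hz.1, zero_pow hz.2, zero_mul]
    · rw [if_neg hc]
      split_ifs
      · exact (mul_pos hF (Real.exp_pos _)).le
      · exact le_rfl
  refine h1.trans ?_
  rw [sum_const, nsmul_eq_mul, mul_comm]
  apply mul_le_mul_of_nonneg_left _ (mul_pos hF (Real.exp_pos _)).le
  apply Nat.cast_le.2
  unfold cntW
  apply card_le_card_of_injOn (fun j => Ww w * j)
  · intro j hj
    rw [mem_coe, mem_filter, mem_Icc] at hj
    rw [mem_coe, mem_filter, mem_Icc]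
    refine ⟨⟨Nat.mul_pos (Ww_pos w) hj.1.1, (Nat.mul_le_mul_left _ hj.1.2).trans (mul_JJ_le w X)⟩, hj.2⟩
  · intro a _ b _ hab
    exact Nat.eq_of_mul_eq_mul_left (Ww_pos w) hab

lemma ev_exp_small (c δ : ℝ) (hc : 0 < c) (hδ : 0 < δ) : ∀ᶠ X : ℕ in atTop, Real.exp (-c * Real.log X) ≤ δ := by
  have h1 : Tendsto (fun X : ℕ => -c * Real.log (X : ℝ)) atTop atBot := by
    have := tends_log.const_mul_atTop hc
    have h2 := tendsto_neg_atTop_atBot.comp this
    refine h2.congr (fun X => ?_)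
    simp only [Function.comp]; ring
  have h2 := Real.tendsto_exp_atBot.comp h1
  filter_upwards [h2.eventually_lt_const hδ] with X hX
  exact hX.le

section

variable (t κ : ℝ) (K : ℕ → ℕ) (hK : Tendsto (fun X => (K X : ℝ) / Real.log X ^ 2) atTop (𝓝 κ)) (hκ : 0 ≤ κ)

include hK hκ in
theorem lower_count (ht : 0 ≤ t) (ε : ℝ) (hε : 0 < ε)
    (hP : κ * (1 - t) + κ * (t * Real.log t) + ε * |Real.log t| < 1) (δ θ : ℝ) (hδ : 0 < δ) (hθ : 0 < θ) :
    ∀ᶠ X : ℕ in atTop, PK X (K X) (fun h => (cntW t κ ε X h : ℝ) <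
      Real.exp ((1 - (κ * (1 - t) + κ * (t * Real.log t) + ε * |Real.log t|) - δ) * Real.log X)) ≤ θ := by
  set P := κ * (1 - t) + κ * (t * Real.log t) + ε * |Real.log t| with hPd
  set τ := θ / 48 with hτ
  have hτ0 : 0 < τ := by positivity
  obtain ⟨w, hw⟩ := ev_sum t κ K hK hκ ht τ hτ0
  set s := min 1 (ε / (2 * (κ * t + 1))) with hs
  have hκt : 0 ≤ κ * t := mul_nonneg hκ ht
  have hs0 : 0 < s := lt_min one_pos (by positivity)
  have hs1 : s ≤ 1 := min_le_left _ _
  have hsε : κ * t * s ^ 2 ≤ s * ε / 2 := by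
    have h1 : s ≤ ε / (2 * (κ * t + 1)) := min_le_right _ _
    rw [le_div_iff₀ (by positivity)] at h1
    nlinarith
  have hexp1 : κ * t * (Real.exp s - 1 - s) ≤ s * ε / 2 := by
    have h1 := (le_abs_self _).trans (Real.abs_exp_sub_one_sub_id_le (x := s) (by rw [abs_of_pos hs0]; exact hs1))
    exact (mul_le_mul_of_nonneg_left h1 hκt).trans hsε
  have hexp2 : κ * t * (Real.exp (-s) - 1 + s) ≤ s * ε / 2 := by
    have h1 := (le_abs_self _).trans (Real.abs_exp_sub_one_sub_id_le (x := -s) (by rw [abs_neg, abs_of_pos hs0]; exact hs1))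
    have h2 : Real.exp (-s) - 1 + s ≤ s ^ 2 := by
      have : (-s) ^ 2 = s ^ 2 := by ring
      rw [this] at h1; linarith
    exact (mul_le_mul_of_nonneg_left h2 hκt).trans hsε
  set δ1 := min (s * ε / 8) (min ((1 - P) / 8) (δ / 8)) with hδ1
  have hδ10 : 0 < δ1 := lt_min (by positivity) (lt_min (by linarith) (by positivity))
  have hδ1a : δ1 ≤ s * ε / 8 := min_le_left _ _
  have hδ1b : δ1 ≤ (1 - P) / 8 := (min_le_right _ _).trans (min_le_left _ _)
  have hδ1c : δ1 ≤ δ / 8 := (min_le_right _ _).trans (min_le_right _ _)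
  filter_upwards [hw, ev_aj w t κ K hK hκ (τ / 3) (by positivity), ev_lower w t κ K hK hκ (t - 1) δ1 hδ10,
    ev_upper w t κ K hK hκ (t * Real.exp s - 1) δ1 hδ10, ev_upper w t κ K hK hκ (t * Real.exp (-s) - 1) δ1 hδ10,
    ev_diag w t κ K hK hκ δ1 hδ10, ev_J w δ1 hδ10, ev_l w t (1 / 2) (by norm_num), ev_gam w 1 one_pos,
    ev_exp_small (s * ε / 4) (τ / 3) (by positivity) (by positivity), ev_exp_small ((1 - P) / 2) τ (by linarith) hτ0,
    ev_exp_small (δ / 4) (θ / 2) (by positivity) (by positivity), tends_log.eventually_ge_atTop (2 / δ + 1),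
    eventually_ge_atTop 1] with X e1 e2 e3 e4 e5 e6 e7 e8 e9 e10 e11 e12 e13 hX
  have hq : 0 < 2 / δ := by positivity
  have hL0 : 0 < Real.log (X : ℝ) := by linarith
  set L := Real.log (X : ℝ) with hL
  have hγ0 : 0 ≤ gam w X := le_trans (by positivity) e9.1
  have hγ1 := e9.2.2
  obtain ⟨ha0, haj⟩ := e2
  set J := JJ w X with hJ
  have hJ0 : (0 : ℝ) < J := lt_of_lt_of_le (Real.exp_pos _) e7
  set Q := a0 w t X ^ K X with hQ
  have hQ0 : 0 < Q := pow_pos ha0 _
  have hQl : Real.exp (((t - 1) * κ - δ1) * L) ≤ Q := e3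
  set A := (J : ℝ) * Q with hA
  have hA0 : 0 < A := mul_pos hJ0 hQ0
  set A1 := (κ * t - ε) * L with hA1
  set A2 := (κ * t + ε) * L with hA2
  set V := Real.exp ((κ * (t * Real.log t) + ε * |Real.log t|) * L) with hV
  -- first moment
  have htail1 : ∀ j ∈ Icc 1 J, Real.exp (-s * A2) * (1 + (t * Real.exp s - 1) * rX w t X * ej w X j) ^ K X ≤ τ / 3 * Q := by
    intro j hj
    calc Real.exp (-s * A2) * (1 + (t * Real.exp s - 1) * rX w t X * ej w X j) ^ K X
        ≤ Real.exp (-s * A2) * Real.exp (((t * Real.exp s - 1) * κ + δ1) * L) :=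
          mul_le_mul_of_nonneg_left (e4 j hj) (Real.exp_pos _).le
      _ = Real.exp (-s * A2 + ((t * Real.exp s - 1) * κ + δ1) * L) := by rw [Real.exp_add]
      _ ≤ Real.exp (-(s * ε / 4) * L + ((t - 1) * κ - δ1) * L) := by
          apply Real.exp_le_exp.2
          have : -s * A2 + ((t * Real.exp s - 1) * κ + δ1) * L - (-(s * ε / 4) * L + ((t - 1) * κ - δ1) * L) =
              (κ * t * (Real.exp s - 1 - s) - s * ε + 2 * δ1 + s * ε / 4) * L := by rw [hA2]; ring
          have h2 : κ * t * (Real.exp s - 1 - s) - s * ε + 2 * δ1 + s * ε / 4 ≤ 0 := by linarith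
          nlinarith
      _ = Real.exp (-(s * ε / 4) * L) * Real.exp (((t - 1) * κ - δ1) * L) := by rw [Real.exp_add]
      _ ≤ τ / 3 * Q := mul_le_mul e10 hQl (Real.exp_pos _).le (by positivity)
  have htail2 : ∀ j ∈ Icc 1 J, Real.exp (s * A1) * (1 + (t * Real.exp (-s) - 1) * rX w t X * ej w X j) ^ K X ≤ τ / 3 * Q := by
    intro j hj
    calc Real.exp (s * A1) * (1 + (t * Real.exp (-s) - 1) * rX w t X * ej w X j) ^ K X
        ≤ Real.exp (s * A1) * Real.exp (((t * Real.exp (-s) - 1) * κ + δ1) * L) :=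
          mul_le_mul_of_nonneg_left (e5 j hj) (Real.exp_pos _).le
      _ = Real.exp (s * A1 + ((t * Real.exp (-s) - 1) * κ + δ1) * L) := by rw [Real.exp_add]
      _ ≤ Real.exp (-(s * ε / 4) * L + ((t - 1) * κ - δ1) * L) := by
          apply Real.exp_le_exp.2
          have : s * A1 + ((t * Real.exp (-s) - 1) * κ + δ1) * L - (-(s * ε / 4) * L + ((t - 1) * κ - δ1) * L) =
              (κ * t * (Real.exp (-s) - 1 + s) - s * ε + 2 * δ1 + s * ε / 4) * L := by rw [hA1]; ring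
          have h2 : κ * t * (Real.exp (-s) - 1 + s) - s * ε + 2 * δ1 + s * ε / 4 ≤ 0 := by linarith
          nlinarith
      _ = Real.exp (-(s * ε / 4) * L) * Real.exp (((t - 1) * κ - δ1) * L) := by rw [Real.exp_add]
      _ ≤ τ / 3 * Q := mul_le_mul e10 hQl (Real.exp_pos _).le (by positivity)
  have hfirst : (1 - 2 * τ) * A ≤ EK X (K X) (fun h => Zs w t X A1 A2 h) := by
    refine le_trans ?_ (EK_Zs_ge hX ht e8.1 hγ0 hγ1 (K X) A1 A2 s hs0.le)
    have h1 : ∑ j ∈ Icc 1 J, (1 - τ) * Q ≤ ∑ j ∈ Icc 1 J, (aj w t X j ^ K X - Real.exp (-s * A2) * (1 + (t * Real.exp s - 1) * rX w t X * ej w X j) ^ K X -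
        Real.exp (s * A1) * (1 + (t * Real.exp (-s) - 1) * rX w t X * ej w X j) ^ K X) := by
      apply sum_le_sum
      intro j hj
      have g1 := htail1 j hj
      have g2 := htail2 j hj
      have g3 := (haj j hj).2.1
      linarith
    refine le_trans ?_ h1
    rw [sum_const, nsmul_eq_mul, Nat.card_Icc, Nat.add_sub_cancel]
    have : (1 - 2 * τ) * A ≤ (1 - τ) * A := mul_le_mul_of_nonneg_right (by linarith) hA0.le
    refine this.trans (le_of_eq ?_)
    rw [hA]; ring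
  -- second moment
  have hsecond : EK X (K X) (fun h => Zs w t X A1 A2 h ^ 2) ≤ (1 + 2 * τ) * A ^ 2 := by
    refine (EK_Zs_sq_le hX ht e8.1 hγ0 hγ1 (K X) A1 A2 V (fun n h1 h2 => pow_le_V t κ ε L ht n h1 h2) (Real.exp_pos _).le).trans ?_
    have h1 : ∑ j ∈ Icc 1 J, V * (1 + ll w t X ^ 2 * gam w X * (1 - gam w X) + (t - 1) * rX w t X ^ 2 * ej w X j) ^ K X ≤
        J * (V * Real.exp (((t - 1) * κ + δ1) * L)) := by
      refine (sum_le_sum (fun j hj => mul_le_mul_of_nonneg_left (e6 j hj) (Real.exp_pos _).le)).trans (le_of_eq ?_)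
      rw [sum_const, nsmul_eq_mul, Nat.card_Icc, Nat.add_sub_cancel]
    have h2 : V * Real.exp (((t - 1) * κ + δ1) * L) ≤ τ * (J * Q ^ 2) := by
      have g1 : Real.exp ((1 - δ1) * L) * (Real.exp (((t - 1) * κ - δ1) * L) * Real.exp (((t - 1) * κ - δ1) * L)) ≤ J * Q ^ 2 := by
        rw [sq]
        exact mul_le_mul e7 (mul_le_mul hQl hQl (Real.exp_pos _).le hQ0.le) (by positivity) hJ0.le
      have g2 : V * Real.exp (((t - 1) * κ + δ1) * L) ≤ Real.exp (-((1 - P) / 2) * L) *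
          (Real.exp ((1 - δ1) * L) * (Real.exp (((t - 1) * κ - δ1) * L) * Real.exp (((t - 1) * κ - δ1) * L))) := by
        rw [hV, ← Real.exp_add, ← Real.exp_add, ← Real.exp_add, ← Real.exp_add]
        apply Real.exp_le_exp.2
        have : (κ * (t * Real.log t) + ε * |Real.log t|) * L + ((t - 1) * κ + δ1) * L -
            (-((1 - P) / 2) * L + ((1 - δ1) * L + (((t - 1) * κ - δ1) * L + ((t - 1) * κ - δ1) * L))) =
            (-(1 - P) / 2 + 4 * δ1) * L := by rw [hPd]; ring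
        have h3 : -(1 - P) / 2 + 4 * δ1 ≤ 0 := by linarith
        nlinarith
      exact g2.trans (mul_le_mul e11 g1 (by positivity) hτ0.le)
    have h3 : (J : ℝ) * (V * Real.exp (((t - 1) * κ + δ1) * L)) ≤ τ * A ^ 2 := by
      calc (J : ℝ) * (V * Real.exp (((t - 1) * κ + δ1) * L)) ≤ J * (τ * (J * Q ^ 2)) := mul_le_mul_of_nonneg_left h2 hJ0.le
        _ = τ * A ^ 2 := by rw [hA]; ring
    have h4 : (1 + 2 * τ) * A ^ 2 = (1 + τ) * A ^ 2 + τ * A ^ 2 := by ring
    rw [h4]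
    exact add_le_add e1 (h1.trans h3)
  have hcheb := PK_cheb hX hA0 hfirst hsecond
  -- the factor `F`
  have hF : PK X (K X) (fun h => Real.exp (δ / 4 * L) ≤ Fh w t X h) ≤ θ / 2 := by
    refine (PK_markov (fun h _ => (Fh_pos e8.1 hγ0 hγ1 h).le) (Real.exp_pos _)).trans ?_
    rw [EK_Fh hX, one_div, ← Real.exp_neg]
    have : -(δ / 4 * L) = -(δ / 4) * L := by ring
    rw [this]
    exact e12
  have hfin : PK X (K X) (fun h => (cntW t κ ε X h : ℝ) < Real.exp ((1 - P - δ) * L)) ≤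
      PK X (K X) (fun h => Zs w t X A1 A2 h ≤ A / 2 ∨ Real.exp (δ / 4 * L) ≤ Fh w t X h) := by
    apply PK_mono
    intro h _ hh
    by_contra hcon
    rw [not_or] at hcon
    obtain ⟨c1, c2⟩ := hcon
    push Not at c1 c2
    have hFp := Fh_pos e8.1 hγ0 hγ1 h
    have h1 := Zs_le ht e8.1 hγ0 hγ1 κ ε h
    have h2 : A / 2 < Real.exp (δ / 4 * L) * V * cntW t κ ε X h := by
      refine lt_of_lt_of_le c1 (h1.trans ?_)
      have : (0 : ℝ) ≤ V * cntW t κ ε X h := by positivity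
      calc Fh w t X h * V * cntW t κ ε X h = Fh w t X h * (V * cntW t κ ε X h) := by ring
        _ ≤ Real.exp (δ / 4 * L) * (V * cntW t κ ε X h) := mul_le_mul_of_nonneg_right c2.le this
        _ = _ := by ring
    have h3 : Real.exp (δ / 4 * L) * V * cntW t κ ε X h ≤ Real.exp (δ / 4 * L) * V * Real.exp ((1 - P - δ) * L) :=
      mul_le_mul_of_nonneg_left hh.le (by positivity)
    have h4 : Real.exp ((1 - δ1) * L) * Real.exp (((t - 1) * κ - δ1) * L) ≤ A := mul_le_mul e7 hQl (Real.exp_pos _).le hJ0.le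
    have h5 : Real.exp (δ / 4 * L) * V * Real.exp ((1 - P - δ) * L) ≤ Real.exp (-1) * (Real.exp ((1 - δ1) * L) * Real.exp (((t - 1) * κ - δ1) * L)) := by
      rw [hV, ← Real.exp_add, ← Real.exp_add, ← Real.exp_add, ← Real.exp_add]
      apply Real.exp_le_exp.2
      have e : δ / 4 * L + (κ * (t * Real.log t) + ε * |Real.log t|) * L + (1 - P - δ) * L -
          (-1 + ((1 - δ1) * L + ((t - 1) * κ - δ1) * L)) = (2 * δ1 - 3 * δ / 4) * L + 1 := by rw [hPd]; ring
      have h6 : (2 * δ1 - 3 * δ / 4) * L ≤ -(δ / 2) * L := mul_le_mul_of_nonneg_right (by linarith) hL0.le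
      have h7 : 1 ≤ δ / 2 * L := by
        have : 2 / δ ≤ L := by linarith
        rw [div_le_iff₀ hδ] at this
        linarith
      linarith
    have h6 : Real.exp (-1) ≤ 1 / 2 := by
      rw [Real.exp_neg, ← one_div]
      apply one_div_le_one_div_of_le (by norm_num)
      linarith [Real.exp_one_gt_d9]
    have h7 : Real.exp (-1) * (Real.exp ((1 - δ1) * L) * Real.exp (((t - 1) * κ - δ1) * L)) ≤ 1 / 2 * A :=
      mul_le_mul h6 h4 (by positivity) (by norm_num)
    linarith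
  refine hfin.trans ((PK_or _ _).trans ?_)
  have : 12 * (2 * τ) = θ / 2 := by rw [hτ]; ring
  rw [this] at hcheb
  linarith

end

end Pool.Agent.N735.CL
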