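import Mathlib
import Pool.Agent.N735.CL.Par

set_option autoImplicit false
set_option maxHeartbeats 2000000

/-! The upper bound for the number of the translates with many or with few primes. -/

namespace Pool.Agent.N735.CL

open Finset Filter Topology

open Classical in
/-- the number of the translates with at least `r log X` primes -/
noncomputable def cntGe (r : ℝ) (X : ℕ) {K : ℕ} (h : Fin K → ℕ) : ℕ :=
  ((Icc 1 X).filter (fun m => r * Real.log X ≤ (Nm h m : ℝ))).card

open Classical in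
/-- the number of the translates with at most `r log X` primes -/
noncomputable def cntLe (r : ℝ) (X : ℕ) {K : ℕ} (h : Fin K → ℕ) : ℕ :=
  ((Icc 1 X).filter (fun m => (Nm h m : ℝ) ≤ r * Real.log X)).card

/-- the rate function -/
noncomputable def rate (κ r : ℝ) : ℝ := κ - r + r * Real.log (r / κ)

lemma EK_pow {X : ℕ} (hX : 1 ≤ X) (K m : ℕ) (b : ℝ) : EK X K (fun h => b ^ Nm h m) = (1 + (b - 1) * E1 X (pr m)) ^ K := by
  have h1 : ∀ h ∈ Om X K, b ^ Nm h m = ∏ i, (fun v => tf b m v) (h i) := by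
    intro h _; rw [← prod_tf]
  exact (EK_congr h1).trans ((EK_prod X K (fun v => tf b m v)).trans (by rw [E1_tf hX]))

section

variable (κ : ℝ) (K : ℕ → ℕ) (hK : Tendsto (fun X => (K X : ℝ) / Real.log X ^ 2) atTop (𝓝 κ)) (hκ : 0 < κ)

include hK in
/-- `K η_m ≤ (κ + δ) L` and `≥ (κ - δ) L` -/
lemma ev_Keta (hκ : 0 ≤ κ) (δ : ℝ) (hδ : 0 < δ) : ∀ᶠ X : ℕ in atTop, ∀ m : ℕ, m ≤ X → |K X * E1 X (pr m) - κ * Real.log X| ≤ δ * Real.log X := by
  set δ1 := min (1 / 10) (δ / (2 + 3 * κ)) with hδ1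
  have hδ10 : 0 < δ1 := lt_min (by norm_num) (by positivity)
  have hle : (2 + 3 * κ) * δ1 ≤ δ := by
    have : δ1 ≤ δ / (2 + 3 * κ) := min_le_right _ _
    rw [le_div_iff₀ (by positivity)] at this
    linarith
  filter_upwards [eta_window δ1 hδ10, ev_K κ K hK δ1 hδ10, tends_log.eventually_ge_atTop 1] with X h1 h2 h3 m hm
  have hL : 0 < Real.log (X : ℝ) := by linarith
  have := main_real κ δ1 (E1 X (pr m)) (K X) 1 (Real.log X) hκ hδ10.le (min_le_left _ _) hL (h1 m hm) h2 (by simp; exact hδ10.le)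
  rw [mul_one] at this
  exact this.trans (mul_le_mul_of_nonneg_right hle hL.le)

include hK hκ in
lemma ev_pow_upper (b δ : ℝ) (hb : 0 ≤ b) (hδ : 0 < δ) : ∀ᶠ X : ℕ in atTop, ∀ m : ℕ, m ≤ X →
    (1 + (b - 1) * E1 X (pr m)) ^ K X ≤ Real.exp (((b - 1) * κ + δ) * Real.log X) := by
  filter_upwards [ev_Keta κ K hK hκ.le (δ / (|b - 1| + 1)) (by positivity), tends_log.eventually_ge_atTop 1,
    eventually_ge_atTop 1] with X h1 h2 h3 m hm
  have hL : 0 < Real.log (X : ℝ) := by linarith
  have hη0 := E1_pr_nonneg X m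
  have hη1 : E1 X (pr m) ≤ 1 := by
    rw [← E1_const h3 1]
    exact E1_mono (fun h _ => pr_le_one m h)
  set η := E1 X (pr m) with hη
  have h4 : 0 ≤ 1 + (b - 1) * η := by nlinarith
  have h5 : (1 + (b - 1) * η) ^ K X ≤ Real.exp (K X * ((b - 1) * η)) := by
    rw [Real.exp_nat_mul]
    apply pow_le_pow_left₀ h4
    linarith [Real.add_one_le_exp ((b - 1) * η)]
  refine h5.trans (Real.exp_le_exp.2 ?_)
  have h6 := h1 m hm
  have h7 : K X * ((b - 1) * η) - (b - 1) * κ * Real.log X = (b - 1) * (K X * η - κ * Real.log X) := by ring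
  have h8 : |K X * ((b - 1) * η) - (b - 1) * κ * Real.log X| ≤ |b - 1| * (δ / (|b - 1| + 1) * Real.log X) := by
    rw [h7, abs_mul]
    exact mul_le_mul_of_nonneg_left h6 (abs_nonneg _)
  have h9 : |b - 1| * (δ / (|b - 1| + 1) * Real.log X) ≤ δ * Real.log X := by
    have : |b - 1| * (δ / (|b - 1| + 1)) ≤ δ := by
      rw [mul_div_assoc', div_le_iff₀ (by positivity)]
      nlinarith [abs_nonneg (b - 1)]
    nlinarith
  have h10 := (abs_le.1 (h8.trans h9)).2
  have e3 : ((b - 1) * κ + δ) * Real.log X = (b - 1) * κ * Real.log X + δ * Real.log X := by ring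
  rw [e3]
  linarith

lemma exp_log_nat {X : ℕ} (hX : 1 ≤ X) : Real.exp (Real.log (X : ℝ)) = X := Real.exp_log (by exact_mod_cast hX)

include hK hκ in
theorem upper_ge (r : ℝ) (hr : κ ≤ r) (δ θ : ℝ) (hδ : 0 < δ) (hθ : 0 < θ) : ∀ᶠ X : ℕ in atTop,
    PK X (K X) (fun h => Real.exp ((1 - rate κ r + δ) * Real.log X) ≤ (cntGe r X h : ℝ)) ≤ θ := by
  classical
  have hr0 : 0 < r := lt_of_lt_of_le hκ hr
  set b := r / κ with hb
  have hb0 : 0 < b := by positivity
  have hb1 : 1 ≤ b := by rw [hb, one_le_div hκ]; exact hr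
  have hbκ : (b - 1) * κ = r - κ := by rw [hb]; field_simp
  filter_upwards [ev_pow_upper κ K hK hκ b (δ / 2) hb0.le (by positivity), eventually_ge_atTop 1,
    ev_exp_small' (δ / 2) θ (by positivity) hθ, tends_log.eventually_ge_atTop 1] with X h1 h2 h3 h4
  have hL : 0 < Real.log (X : ℝ) := by linarith
  set L := Real.log (X : ℝ) with hLd
  refine (PK_markov (fun h _ => Nat.cast_nonneg _) (Real.exp_pos _)).trans ?_
  have h5 : EK X (K X) (fun h => (cntGe r X h : ℝ)) ≤ Real.exp ((1 - rate κ r + δ / 2) * L) := by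
    have h6 : EK X (K X) (fun h => (cntGe r X h : ℝ)) ≤ EK X (K X) (fun h => ∑ m ∈ Icc 1 X, Real.exp (-(r * L) * Real.log b) * b ^ Nm h m) := by
      apply EK_mono
      intro h _
      unfold cntGe
      rw [card_filter]
      push_cast
      apply sum_le_sum
      intro m _
      have hbn : b ^ Nm h m = Real.exp (Nm h m * Real.log b) := by rw [Real.exp_nat_mul, Real.exp_log hb0]
      rw [hbn, ← Real.exp_add]
      split_ifs with hc
      · apply Real.one_le_exp
        have : 0 ≤ ((Nm h m : ℝ) - r * L) * Real.log b := mul_nonneg (by linarith) (Real.log_nonneg hb1)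
        linarith
      · positivity
    refine h6.trans ?_
    rw [EK_sum]
    have h7 : ∀ m ∈ Icc 1 X, EK X (K X) (fun h => Real.exp (-(r * L) * Real.log b) * b ^ Nm h m) ≤
        Real.exp (-(r * L) * Real.log b) * Real.exp (((b - 1) * κ + δ / 2) * L) := by
      intro m hm
      rw [EK_const_mul, EK_pow h2]
      exact mul_le_mul_of_nonneg_left (h1 m (mem_Icc.1 hm).2) (Real.exp_pos _).le
    refine (sum_le_sum h7).trans ?_
    rw [sum_const, nsmul_eq_mul, Nat.card_Icc, Nat.add_sub_cancel]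
    have h8 : (X : ℝ) = Real.exp L := (exp_log_nat h2).symm
    rw [h8, ← Real.exp_add, ← Real.exp_add]
    apply Real.exp_le_exp.2
    apply le_of_eq
    unfold rate
    rw [hbκ, ← hb]; ring
  rw [div_le_iff₀ (Real.exp_pos _)]
  refine h5.trans ?_
  calc Real.exp ((1 - rate κ r + δ / 2) * L) = Real.exp (-(δ / 2) * L) * Real.exp ((1 - rate κ r + δ) * L) := by
        rw [← Real.exp_add]; congr 1; ring
    _ ≤ θ * Real.exp ((1 - rate κ r + δ) * L) := mul_le_mul_of_nonneg_right h3 (Real.exp_pos _).le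

include hK hκ in
theorem upper_le (r : ℝ) (hr0 : 0 ≤ r) (hr : r ≤ κ) (δ θ : ℝ) (hδ : 0 < δ) (hθ : 0 < θ) : ∀ᶠ X : ℕ in atTop,
    PK X (K X) (fun h => Real.exp ((1 - rate κ r + δ) * Real.log X) ≤ (cntLe r X h : ℝ)) ≤ θ := by
  classical
  set b := r / κ with hb
  have hb0 : 0 ≤ b := by positivity
  have hb1 : b ≤ 1 := by rw [hb, div_le_one hκ]; exact hr
  have hbκ : (b - 1) * κ = r - κ := by rw [hb]; field_simp
  filter_upwards [ev_pow_upper κ K hK hκ b (δ / 2) hb0 (by positivity), eventually_ge_atTop 1,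
    ev_exp_small' (δ / 2) θ (by positivity) hθ, tends_log.eventually_ge_atTop 1] with X h1 h2 h3 h4
  have hL : 0 < Real.log (X : ℝ) := by linarith
  set L := Real.log (X : ℝ) with hLd
  refine (PK_markov (fun h _ => Nat.cast_nonneg _) (Real.exp_pos _)).trans ?_
  have h5 : EK X (K X) (fun h => (cntLe r X h : ℝ)) ≤ Real.exp ((1 - rate κ r + δ / 2) * L) := by
    have h6 : EK X (K X) (fun h => (cntLe r X h : ℝ)) ≤ EK X (K X) (fun h => ∑ m ∈ Icc 1 X, Real.exp (-(r * L) * Real.log b) * b ^ Nm h m) := by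
      apply EK_mono
      intro h _
      unfold cntLe
      rw [card_filter]
      push_cast
      apply sum_le_sum
      intro m _
      rcases eq_or_lt_of_le hb0 with hz | hz
      · have hrz : r = 0 := by
          rw [hb, eq_comm, div_eq_zero_iff] at hz
          rcases hz with hz | hz
          · exact hz
          · linarith
        rw [← hz, hrz]
        simp only [zero_mul, neg_zero, Real.exp_zero, one_mul]
        split_ifs with hc
        · have : Nm h m = 0 := by
            have : (Nm h m : ℝ) ≤ 0 := hc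
            exact_mod_cast le_antisymm this (Nat.cast_nonneg _)
          rw [this, pow_zero]
        · exact pow_nonneg le_rfl _
      · have hbn : b ^ Nm h m = Real.exp (Nm h m * Real.log b) := by rw [Real.exp_nat_mul, Real.exp_log hz]
        rw [hbn, ← Real.exp_add]
        split_ifs with hc
        · apply Real.one_le_exp
          have : 0 ≤ ((Nm h m : ℝ) - r * L) * Real.log b := mul_nonneg_of_nonpos_of_nonpos (by linarith) (Real.log_nonpos hb0 hb1)
          linarith
        · positivity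
    refine h6.trans ?_
    rw [EK_sum]
    have h7 : ∀ m ∈ Icc 1 X, EK X (K X) (fun h => Real.exp (-(r * L) * Real.log b) * b ^ Nm h m) ≤
        Real.exp (-(r * L) * Real.log b) * Real.exp (((b - 1) * κ + δ / 2) * L) := by
      intro m hm
      rw [EK_const_mul, EK_pow h2]
      exact mul_le_mul_of_nonneg_left (h1 m (mem_Icc.1 hm).2) (Real.exp_pos _).le
    refine (sum_le_sum h7).trans ?_
    rw [sum_const, nsmul_eq_mul, Nat.card_Icc, Nat.add_sub_cancel]
    have h8 : (X : ℝ) = Real.exp L := (exp_log_nat h2).symm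
    rw [h8, ← Real.exp_add, ← Real.exp_add]
    apply Real.exp_le_exp.2
    apply le_of_eq
    unfold rate
    rw [hbκ, ← hb]; ring
  rw [div_le_iff₀ (Real.exp_pos _)]
  refine h5.trans ?_
  calc Real.exp ((1 - rate κ r + δ / 2) * L) = Real.exp (-(δ / 2) * L) * Real.exp ((1 - rate κ r + δ) * L) := by
        rw [← Real.exp_add]; congr 1; ring
    _ ≤ θ * Real.exp ((1 - rate κ r + δ) * L) := mul_le_mul_of_nonneg_right h3 (Real.exp_pos _).le

end

end Pool.Agent.N735.CL
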