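import Mathlib
import Pool.Agent.N735.CL.Lower
import Pool.Agent.N735.CL.Upper

set_option autoImplicit false
set_option maxHeartbeats 2000000

/-! The number of the translates with many or few primes: lower bounds for a fixed density. -/

namespace Pool.Agent.N735.CL

open Finset Filter Topology

section

variable (κ : ℝ) (K : ℕ → ℕ) (hK : Tendsto (fun X => (K X : ℝ) / Real.log X ^ 2) atTop (𝓝 κ)) (hκ : 0 < κ)

lemma cont_aux (κ r : ℝ) (hκ : 0 < κ) (hr : 0 < r) (s : ℝ) (c : ℝ) (hc : rate κ r < c) : ∃ ε : ℝ, 0 < ε ∧ ε < r ∧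
    κ * (1 - (r + s * ε) / κ) + κ * ((r + s * ε) / κ * Real.log ((r + s * ε) / κ)) + ε * |Real.log ((r + s * ε) / κ)| < c := by
  have h1 : ∀ᶠ x : ℝ in nhds 0, κ * (1 - (r + s * x) / κ) + κ * ((r + s * x) / κ * Real.log ((r + s * x) / κ)) + x * |Real.log ((r + s * x) / κ)| < c := by
    have hne : (r + s * 0) / κ ≠ 0 := by
      have : 0 < (r + s * 0) / κ := by rw [mul_zero, add_zero]; positivity
      exact this.ne'
    have hlog : ContinuousAt (fun x : ℝ => Real.log ((r + s * x) / κ)) 0 := by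
      refine ContinuousAt.log (f := fun x : ℝ => (r + s * x) / κ) ?_ hne
      fun_prop
    apply ContinuousAt.eventually_lt
    · apply ContinuousAt.add
      · apply ContinuousAt.add
        · fun_prop
        · apply ContinuousAt.mul continuousAt_const
          apply ContinuousAt.mul _ hlog
          fun_prop
      · exact continuousAt_id.mul hlog.abs
    · exact continuousAt_const
    · rw [mul_zero, add_zero, zero_mul, add_zero]
      have : κ * (1 - r / κ) + κ * (r / κ * Real.log (r / κ)) = rate κ r := by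
        unfold rate; field_simp
      rw [this]; exact hc
  have h2 : ∀ᶠ x : ℝ in nhds 0, x < r := by
    apply ContinuousAt.eventually_lt continuousAt_id continuousAt_const
    simpa using hr
  have h4 : ∀ᶠ x : ℝ in nhdsWithin 0 (Set.Ioi 0), x ∈ Set.Ioi (0 : ℝ) := self_mem_nhdsWithin
  obtain ⟨x, hx⟩ := (((h1.and h2).filter_mono nhdsWithin_le_nhds).and h4).exists
  exact ⟨x, hx.2, hx.1.2, hx.1.1⟩

include hK hκ in
theorem lower_ge (r : ℝ) (hr : κ ≤ r) (hI : rate κ r < 1) (δ θ : ℝ) (hδ : 0 < δ) (hθ : 0 < θ) : ∀ᶠ X : ℕ in atTop,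
    PK X (K X) (fun h => (cntGe r X h : ℝ) < Real.exp ((1 - rate κ r - δ) * Real.log X)) ≤ θ := by
  classical
  have hr0 : 0 < r := lt_of_lt_of_le hκ hr
  obtain ⟨ε, hε0, hεr, hε⟩ := cont_aux κ r hκ hr0 1 (min 1 (rate κ r + δ / 2)) (lt_min hI (by linarith))
  rw [one_mul] at hε
  set t := (r + ε) / κ with ht
  have ht0 : 0 ≤ t := by positivity
  have hκt : κ * t = r + ε := by rw [ht]; field_simp
  have hP1 := hε.trans_le (min_le_left _ _)
  have hP2 := (hε.trans_le (min_le_right _ _)).le
  filter_upwards [lower_count t κ K hK hκ.le ht0 ε hε0 hP1 (δ / 2) θ (by positivity) hθ, tends_log.eventually_ge_atTop 0] with X hX hL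
  refine le_trans (PK_mono ?_) hX
  intro h _ hh
  have h1 : (cntW t κ ε X h : ℝ) ≤ cntGe r X h := by
    apply Nat.cast_le.2
    unfold cntW cntGe
    apply card_le_card
    intro m hm
    rw [mem_filter] at hm ⊢
    refine ⟨hm.1, ?_⟩
    have := hm.2.1
    rw [hκt] at this
    simpa using this
  refine lt_of_le_of_lt h1 (hh.trans_le (Real.exp_le_exp.2 ?_))
  apply mul_le_mul_of_nonneg_right _ hL
  linarith

include hK hκ in
theorem lower_le (r : ℝ) (hr0 : 0 ≤ r) (_hr : r ≤ κ) (hI : rate κ r < 1) (δ θ : ℝ) (hδ : 0 < δ) (hθ : 0 < θ) : ∀ᶠ X : ℕ in atTop,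
    PK X (K X) (fun h => (cntLe r X h : ℝ) < Real.exp ((1 - rate κ r - δ) * Real.log X)) ≤ θ := by
  classical
  rcases eq_or_lt_of_le hr0 with hz | hz
  · -- `r = 0`
    have hrate : rate κ r = κ := by unfold rate; rw [← hz]; simp
    rw [hrate] at hI ⊢
    have hP : κ * (1 - 0) + κ * ((0 : ℝ) * Real.log 0) + 1 * |Real.log 0| = κ := by simp
    filter_upwards [lower_count 0 κ K hK hκ.le le_rfl 1 one_pos (by rw [hP]; exact hI) δ θ hδ hθ] with X hX
    rw [hP] at hX
    refine le_trans (PK_mono ?_) hX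
    intro h _ hh
    have h1 : (cntW 0 κ 1 X h : ℝ) ≤ cntLe r X h := by
      apply Nat.cast_le.2
      unfold cntW cntLe
      apply card_le_card
      intro m hm
      rw [mem_filter] at hm ⊢
      refine ⟨hm.1, ?_⟩
      rw [hm.2.2.2 rfl, ← hz]
      simp
    exact lt_of_le_of_lt h1 hh
  · obtain ⟨ε, hε0, hεr, hε⟩ := cont_aux κ r hκ hz (-1) (min 1 (rate κ r + δ / 2)) (lt_min hI (by linarith))
    have e1 : r + -1 * ε = r - ε := by ring
    rw [e1] at hε
    set t := (r - ε) / κ with ht
    have ht0 : 0 ≤ t := div_nonneg (by linarith) hκ.le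
    have hκt : κ * t = r - ε := by rw [ht]; field_simp
    have hP1 := hε.trans_le (min_le_left _ _)
    have hP2 := (hε.trans_le (min_le_right _ _)).le
    filter_upwards [lower_count t κ K hK hκ.le ht0 ε hε0 hP1 (δ / 2) θ (by positivity) hθ, tends_log.eventually_ge_atTop 0] with X hX hL
    refine le_trans (PK_mono ?_) hX
    intro h _ hh
    have h1 : (cntW t κ ε X h : ℝ) ≤ cntLe r X h := by
      apply Nat.cast_le.2
      unfold cntW cntLe
      apply card_le_card
      intro m hm
      rw [mem_filter] at hm ⊢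
      refine ⟨hm.1, ?_⟩
      have := hm.2.2.1
      rw [hκt] at this
      simpa using this
    refine lt_of_le_of_lt h1 (hh.trans_le (Real.exp_le_exp.2 ?_))
    apply mul_le_mul_of_nonneg_right _ hL
    linarith

end

end Pool.Agent.N735.CL
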