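import Mathlib
import Pool.Agent.N735.CL.Par

set_option autoImplicit false
set_option maxHeartbeats 2000000

/-! The number of the prime pairs with a given difference in the intervals `(m, m + X]`, `m ≤ X`. -/

namespace Pool.Agent.N735.CL

open Finset Filter Topology
open Pool.Agent.H373R2.T7
open Pool.Agent.H560R3.GB
open Pool.Agent.H646 (rat)

lemma singZ_nonneg (a : Fin 1 → ℤ) (z : ℕ) : 0 ≤ singZ a z := by
  unfold singZ
  apply prod_nonneg
  intro p hp
  have hpp := (mem_filter.1 hp).2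
  have hp2 : (2 : ℝ) ≤ p := by exact_mod_cast hpp.two_le
  have hp0 : (0 : ℝ) < p := by linarith
  have h1p : 0 < 1 - 1 / (p : ℝ) := by
    have : 1 / (p : ℝ) < 1 := by rw [div_lt_one hp0]; linarith
    linarith
  have hn : (nuP a p : ℝ) ≤ p := by exact_mod_cast nuP_le _ p
  apply div_nonneg _ (by positivity)
  have : (nuP a p : ℝ) / p ≤ 1 := by rw [div_le_one hp0]; exact hn
  linarith

/-- the grid -/
def gr (G X k : ℕ) : ℕ := k * (X / G + 1)

lemma gr_bounds (G X k : ℕ) (hG : 1 ≤ G) (hX : G ≤ X) (hk : k ∈ Icc 1 (2 * G + 1)) : X ≤ G * gr G X k ∧ gr G X k ≤ 6 * X := by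
  rw [mem_Icc] at hk
  unfold gr
  have h1 : X < G * (X / G + 1) := Nat.lt_mul_div_succ X hG
  constructor
  · calc X ≤ G * (X / G + 1) := h1.le
      _ = G * (1 * (X / G + 1)) := by ring
      _ ≤ G * (k * (X / G + 1)) := by gcongr; exact hk.1
  · have h2 : G * (X / G) ≤ X := Nat.mul_div_le X G
    calc k * (X / G + 1) ≤ (2 * G + 1) * (X / G + 1) := by gcongr; exact hk.2
      _ ≤ (3 * G) * (X / G + 1) := by gcongr; omega
      _ = 3 * (G * (X / G)) + 3 * G := by ring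
      _ ≤ 6 * X := by omega

theorem grid_counts (G U : ℕ) (hG : 1 ≤ G) : ∀ᶠ X : ℕ in atTop, ∃ Ex : Finset ℕ,
    (Ex.card : ℝ) ≤ X / Real.log X ^ U ∧ ∀ d ∈ Icc 1 X, d ∉ Ex → ∃ S : ℝ, 0 ≤ S ∧ S ≤ rat d ∧ ∀ k ∈ Icc 1 (2 * G + 1),
      |tupleCount (fun _ : Fin 1 => (d : ℤ)) (gr G X k) - S * (gr G X k : ℕ)| ≤ X / Real.log X := by
  classical
  obtain ⟨B0, hB0⟩ := ftuples 1 1 G 1 (U + 2) le_rfl
  obtain ⟨n1, h1⟩ := hB0 (B0 + 1)
  have hG0 : (1 : ℝ) ≤ G := by exact_mod_cast hG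
  have hlG : 0 ≤ Real.log (G : ℝ) := Real.log_nonneg hG0
  filter_upwards [eventually_ge_atTop (G * (n1 + 1) + 4), tends_log.eventually_ge_atTop
    (2 * Real.log G + 2 ^ (2 * B0 + 3) + (2 * G + 1) * 2 ^ (U + 2) + 40)] with X hXn hXl
  have hX4 : 4 ≤ X := by omega
  have hXG : G ≤ X := by nlinarith
  have hX0 : (0 : ℝ) < X := by exact_mod_cast (by omega : 0 < X)
  set L := Real.log (X : ℝ) with hL
  have q1 : (0 : ℝ) < 2 ^ (2 * B0 + 3) := by positivity
  have q2 : (0 : ℝ) < (2 * G + 1) * 2 ^ (U + 2) := by positivity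
  have hL40 : 40 ≤ L := by linarith
  have hL0 : 0 < L := by linarith
  obtain ⟨z, hz1, hz2⟩ : ∃ z : ℕ, (2 * L) ^ B0 ≤ z ∧ (z : ℝ) ≤ (L / 2) ^ (B0 + 1) := by
    refine ⟨⌈(2 * L) ^ B0⌉₊, Nat.le_ceil _, ?_⟩
    have h2 := (Nat.ceil_lt_add_one (show 0 ≤ (2 * L) ^ B0 by positivity)).le
    have h3 : 1 ≤ (2 * L) ^ B0 := one_le_pow₀ (by linarith)
    have h4 : (L / 2) ^ (B0 + 1) = (2 * L) ^ B0 * (L / (2 * 4 ^ B0)) := by
      have e1 : (L / 2) ^ (B0 + 1) = (L / 2) ^ B0 * (L / 2) := pow_succ _ _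
      have e2 : (L / 2) ^ B0 = (2 * L) ^ B0 / 4 ^ B0 := by
        rw [← div_pow]; congr 1; ring
      rw [e1, e2]
      field_simp
    have h5 : 2 ≤ L / (2 * 4 ^ B0) := by
      rw [le_div_iff₀ (by positivity)]
      have h6 : (2 : ℝ) ^ (2 * B0 + 3) = 8 * 4 ^ B0 := by
        rw [pow_add, pow_mul]; norm_num; ring
      have h7 : (0 : ℝ) < 4 ^ B0 := by positivity
      linarith
    rw [h4]
    nlinarith
  -- the grid points
  have hgrid : ∀ k ∈ Icc 1 (2 * G + 1), n1 ≤ gr G X k ∧ L / 2 ≤ Real.log (gr G X k : ℝ) ∧ Real.log (gr G X k : ℝ) ≤ 2 * L ∧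
      X ≤ G * gr G X k ∧ gr G X k ≤ 6 * X := by
    intro k hk
    obtain ⟨g1, g2⟩ := gr_bounds G X k hG hXG hk
    have hg0 : 0 < gr G X k := by
      rcases Nat.eq_zero_or_pos (gr G X k) with h | h
      · rw [h] at g1; omega
      · exact h
    have hgr0 : (0 : ℝ) < gr G X k := by exact_mod_cast hg0
    refine ⟨?_, ?_, ?_, g1, g2⟩
    · by_contra h
      push Not at h
      have : G * gr G X k ≤ G * n1 := Nat.mul_le_mul_left _ h.le
      nlinarith
    · have g1r : (X : ℝ) ≤ G * gr G X k := by exact_mod_cast g1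
      have := Real.log_le_log hX0 g1r
      rw [Real.log_mul (by linarith) hgr0.ne'] at this
      linarith
    · have g2r : (gr G X k : ℝ) ≤ 6 * X := by exact_mod_cast g2
      have := Real.log_le_log hgr0 g2r
      rw [Real.log_mul (by norm_num) hX0.ne'] at this
      have h6 : Real.log 6 ≤ 6 := by
        have := Real.log_le_sub_one_of_pos (show (0 : ℝ) < 6 by norm_num)
        linarith
      linarith
  set Exk : ℕ → Finset ℕ := fun k => (Icc 1 X).filter (fun d : ℕ => (gr G X k : ℝ) / Real.log (gr G X k : ℝ) ^ (U + 2) <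
    |tupleCount (fun _ : Fin 1 => (d : ℤ)) (gr G X k) - singZ (fun _ : Fin 1 => (d : ℤ)) z * (gr G X k : ℕ)|) with hExk
  have hEk : ∀ k ∈ Icc 1 (2 * G + 1), ((Exk k).card : ℝ) ≤ X / (L / 2) ^ (U + 2) := by
    intro k hk
    obtain ⟨g1, g2, g3, g4, g5⟩ := hgrid k hk
    set N := gr G X k with hN
    have hlN0 : 0 < Real.log (N : ℝ) := by linarith
    have hmain := h1 N g1 (fun _ => X) (fun _ m => m) (fun _ => by omega)
      (by
        intro i m hm
        exact (mem_Icc.1 hm).2.trans g4)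
      (by
        intro i
        have he : Pool.Agent.H373R2.T7.energy 1 X (fun m => (m : ℤ)) ≤ X := by
          unfold Pool.Agent.H373R2.T7.energy
          have : (((Fintype.piFinset fun _ : Fin 1 => Icc 1 X) ×ˢ (Fintype.piFinset fun _ : Fin 1 => Icc 1 X)).filter
              (fun q => ∑ i, ((q.1 i : ℕ) : ℤ) = ∑ i, ((q.2 i : ℕ) : ℤ))).card ≤ (Icc 1 X).card := by
            apply card_le_card_of_injOn (fun q => q.1 0)
            · intro q hq
              rw [mem_coe, mem_filter, mem_product, Fintype.mem_piFinset] at hq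
              exact hq.1.1 0
            · intro q hq q' hq' hqq
              rw [mem_coe, mem_filter] at hq hq'
              have a1 := hq.2
              have a2 := hq'.2
              simp only [Fin.sum_univ_one, Fin.isValue, Nat.cast_inj] at a1 a2 hqq
              ext i
              · rw [Subsingleton.elim i 0]; exact hqq
              · rw [Subsingleton.elim i 0, ← a1, ← a2]; exact hqq
          refine this.trans (le_of_eq ?_)
          simp
        have he' : (Pool.Agent.H373R2.T7.energy 1 X (fun m => (m : ℤ)) : ℝ) ≤ X := by exact_mod_cast he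
        rw [pow_one, mul_one]
        show (Pool.Agent.H373R2.T7.energy 1 X (fun m => (m : ℤ)) : ℝ) * N ≤ Real.log N * (X : ℝ) ^ 2
        have g5r : (N : ℝ) ≤ 6 * X := by exact_mod_cast g5
        calc (Pool.Agent.H373R2.T7.energy 1 X (fun m => (m : ℤ)) : ℝ) * N ≤ X * (6 * X) := mul_le_mul he' g5r (Nat.cast_nonneg _) hX0.le
          _ = 6 * (X : ℝ) ^ 2 := by ring
          _ ≤ Real.log N * (X : ℝ) ^ 2 := mul_le_mul_of_nonneg_right (by linarith) (sq_nonneg _)) z
      ((pow_le_pow_left₀ hlN0.le g3 B0).trans hz1) (hz2.trans (pow_le_pow_left₀ (by positivity) g2 _))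
    have hc : (Exk k).card ≤ ((Fintype.piFinset (fun _ : Fin 1 => Icc 1 X)).filter (fun m : Fin 1 → ℕ => (N : ℝ) / Real.log N ^ (U + 2) <
        |tupleCount (fun i => ((m i : ℕ) : ℤ)) N - singZ (fun i => ((m i : ℕ) : ℤ)) z * N|)).card := by
      apply card_le_card_of_injOn (fun d => fun _ : Fin 1 => d)
      · intro d hd
        rw [mem_coe] at hd
        simp only [hExk] at hd
        rw [mem_filter] at hd
        rw [mem_coe, mem_filter, Fintype.mem_piFinset]
        exact ⟨fun _ => hd.1, hd.2⟩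
      · intro d _ d' _ h
        exact congrFun h 0
    have hc' : ((Exk k).card : ℝ) ≤ (X : ℝ) / Real.log N ^ (U + 2) := by
      refine le_trans (by exact_mod_cast hc) (hmain.trans (le_of_eq ?_))
      simp
    refine hc'.trans ?_
    apply div_le_div_of_nonneg_left hX0.le (by positivity)
    exact pow_le_pow_left₀ (by positivity) g2 _
  refine ⟨(Icc 1 (2 * G + 1)).biUnion Exk, ?_, fun d hd hdE => ?_⟩
  · have h2 : (((Icc 1 (2 * G + 1)).biUnion Exk).card : ℝ) ≤ (2 * G + 1) * (X / (L / 2) ^ (U + 2)) := by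
      have h3 : ((Icc 1 (2 * G + 1)).biUnion Exk).card ≤ ∑ k ∈ Icc 1 (2 * G + 1), (Exk k).card := card_biUnion_le
      have h4 : (((Icc 1 (2 * G + 1)).biUnion Exk).card : ℝ) ≤ ∑ k ∈ Icc 1 (2 * G + 1), ((Exk k).card : ℝ) := by exact_mod_cast h3
      refine h4.trans ((sum_le_sum hEk).trans (le_of_eq ?_))
      rw [sum_const, nsmul_eq_mul, Nat.card_Icc, Nat.add_sub_cancel]
      push_cast
      ring
    refine h2.trans ?_
    have e : (2 * (G : ℝ) + 1) * (X / (L / 2) ^ (U + 2)) = ((2 * G + 1) * 2 ^ (U + 2) / L ^ 2) * (X / L ^ U) := by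
      rw [div_pow]
      field_simp
      ring
    rw [e]
    apply mul_le_of_le_one_left (by positivity)
    rw [div_le_one (by positivity)]
    have : L ≤ L ^ 2 := by nlinarith
    linarith
  · refine ⟨singZ (fun _ : Fin 1 => (d : ℤ)) z, singZ_nonneg _ _, singZ_le d z (mem_Icc.1 hd).1, fun k hk => ?_⟩
    obtain ⟨g1, g2, g3, g4, g5⟩ := hgrid k hk
    have hnot : |tupleCount (fun _ : Fin 1 => (d : ℤ)) (gr G X k) - singZ (fun _ : Fin 1 => (d : ℤ)) z * (gr G X k : ℕ)| ≤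
        (gr G X k : ℝ) / Real.log (gr G X k : ℝ) ^ (U + 2) := by
      by_contra h
      push Not at h
      apply hdE
      rw [mem_biUnion]
      exact ⟨k, hk, mem_filter.2 ⟨hd, h⟩⟩
    refine hnot.trans ?_
    have g5r : (gr G X k : ℝ) ≤ 6 * X := by exact_mod_cast g5
    have hL2 : 1 ≤ L / 2 := by linarith
    have h3 : (L / 2) ^ 2 ≤ Real.log (gr G X k : ℝ) ^ (U + 2) := by
      calc (L / 2) ^ 2 ≤ (L / 2) ^ (U + 2) := pow_le_pow_right₀ hL2 (by omega)
        _ ≤ _ := pow_le_pow_left₀ (by positivity) g2 _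
    calc (gr G X k : ℝ) / Real.log (gr G X k : ℝ) ^ (U + 2) ≤ (6 * X) / (L / 2) ^ 2 := div_le_div₀ (by positivity) g5r (by positivity) h3
      _ = 24 * X / L ^ 2 := by field_simp; ring
      _ ≤ X / L := by
          rw [div_le_div_iff₀ (by positivity) hL0]
          have h5 : 24 * L ≤ L ^ 2 := by nlinarith
          have h6 := mul_le_mul_of_nonneg_left h5 hX0.le
          linarith

/-- the number of the primes `p ≤ y` with `p + d` prime -/
noncomputable def pd (d y : ℕ) : ℝ := ∑ h ∈ Icc 1 y, pr 0 h * pr d h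

lemma pd_eq (d y : ℕ) : pd d y = (primeTuples (fun _ : Fin 1 => d) y : ℝ) := by
  classical
  unfold pd Pool.Agent.H560R3.GB.primeTuples
  rw [card_filter]
  push_cast
  apply sum_congr rfl
  intro h _
  unfold pr
  rw [zero_add, add_comm d h]
  by_cases h1 : h.Prime <;> by_cases h2 : (h + d).Prime <;> simp [h1, h2]

lemma pd_mono (d : ℕ) {y y' : ℕ} (h : y ≤ y') : pd d y ≤ pd d y' := by
  unfold pd
  apply sum_le_sum_of_subset_of_nonneg
  · exact Icc_subset_Icc_right h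
  · intro i _ _
    exact mul_nonneg (pr_nonneg _ _) (pr_nonneg _ _)

lemma pd_window (X m d : ℕ) : ∑ h ∈ Icc 1 X, pr m h * pr (m + d) h = pd d (m + X) - pd d m := by
  unfold pd
  induction X with
  | zero => simp
  | succ X ih =>
    rw [Finset.sum_Icc_succ_top (by omega), ih, show m + (X + 1) = (m + X) + 1 by ring, Finset.sum_Icc_succ_top (by omega)]
    have e : pr 0 (m + X + 1) * pr d (m + X + 1) = pr m (X + 1) * pr (m + d) (X + 1) := by
      unfold pr
      rw [show 0 + (m + X + 1) = m + (X + 1) by ring, show d + (m + X + 1) = m + d + (X + 1) by ring]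
    rw [e]; ring

theorem pc_grid (U : ℕ) (δ : ℝ) (hδ : 0 < δ) (hδ1 : δ ≤ 1) : ∀ᶠ X : ℕ in atTop, ∃ Ex : Finset ℕ,
    (Ex.card : ℝ) ≤ X / Real.log X ^ U ∧ ∀ d ∈ Icc 1 X, d ∉ Ex → ∀ m : ℕ, m ≤ X →
      E1 X (fun h => pr m h * pr (m + d) h) * Real.log X ^ 2 ≤ (1 + δ) * rat d + 2 * δ := by
  obtain ⟨G, hG1, hGδ⟩ : ∃ G : ℕ, 1 ≤ G ∧ 4 / δ ≤ G := by
    obtain ⟨n, hn⟩ := exists_nat_ge (4 / δ)
    exact ⟨n + 1, by omega, by push_cast; linarith⟩
  have hG0 : (1 : ℝ) ≤ G := by exact_mod_cast hG1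
  obtain ⟨δ', hδ'0, hδ'1, hδ'⟩ : ∃ δ' : ℝ, 0 < δ' ∧ δ' < 1 ∧ 1 / (1 - δ') ^ 2 - 1 / (1 + δ') ^ 2 ≤ δ / 12 ∧ 1 / (1 - δ') ^ 2 ≤ 1 + δ / 24 := by
    have h1 : ∀ᶠ x : ℝ in nhds 0, 1 / (1 - x) ^ 2 - 1 / (1 + x) ^ 2 < δ / 12 := by
      apply ContinuousAt.eventually_lt
      · apply ContinuousAt.sub
        · apply ContinuousAt.div continuousAt_const (by fun_prop) (by norm_num)
        · apply ContinuousAt.div continuousAt_const (by fun_prop) (by norm_num)
      · exact continuousAt_const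
      · norm_num; exact hδ
    have h2 : ∀ᶠ x : ℝ in nhds 0, 1 / (1 - x) ^ 2 < 1 + δ / 24 := by
      apply ContinuousAt.eventually_lt
      · apply ContinuousAt.div continuousAt_const (by fun_prop) (by norm_num)
      · exact continuousAt_const
      · norm_num; exact hδ
    have h3 : ∀ᶠ x : ℝ in nhds 0, x < 1 := by
      apply ContinuousAt.eventually_lt continuousAt_id continuousAt_const
      simp
    have h4 : ∀ᶠ x : ℝ in nhdsWithin 0 (Set.Ioi 0), x ∈ Set.Ioi (0 : ℝ) := self_mem_nhdsWithin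
    obtain ⟨x, hx⟩ := (((h1.and (h2.and h3)).filter_mono nhdsWithin_le_nhds).and h4).exists
    exact ⟨x, hx.2, hx.1.2.2, hx.1.1.le, hx.1.2.1.le⟩
  filter_upwards [grid_counts G U hG1, eventually_ge_atTop (G + 4), tends_log.eventually_ge_atTop (Real.log (6 * (G + 1)) / δ' + 3 / δ + 1),
    ev_small δ δ' hδ hδ'0 2, (tendsto_natCast_atTop_atTop (R := ℝ)).eventually_ge_atTop (24 * (G + 1) / δ)] with X e1 e2 e3 e4 e5
  obtain ⟨Ex, hEx, hgood⟩ := e1
  refine ⟨Ex, hEx, fun d hd hdE m hm => ?_⟩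
  obtain ⟨S, hS0, hSr, hS⟩ := hgood d hd hdE
  have hX4 : 4 ≤ X := by omega
  have hX0 : (0 : ℝ) < X := by exact_mod_cast (by omega : 0 < X)
  have hX1 : (1 : ℝ) ≤ X := by exact_mod_cast (by omega : 1 ≤ X)
  set L := Real.log (X : ℝ) with hL
  have hlG : 0 ≤ Real.log (6 * ((G : ℝ) + 1)) := Real.log_nonneg (by linarith)
  have q1 : 0 ≤ Real.log (6 * ((G : ℝ) + 1)) / δ' := by positivity
  have q2 : 0 < 3 / δ := by positivity
  have hL1 : 1 ≤ L := by linarith
  have hL0 : 0 < L := by linarith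
  have hLG : Real.log (6 * ((G : ℝ) + 1)) ≤ δ' * L := by
    have : Real.log (6 * ((G : ℝ) + 1)) / δ' ≤ L := by linarith
    rw [div_le_iff₀ hδ'0] at this
    linarith
  have hL3 : 3 ≤ δ * L := by
    have : 3 / δ ≤ L := by linarith
    rw [div_le_iff₀ hδ] at this
    linarith
  set c₁ := (1 - δ') ^ 2 with hc₁
  set c₂ := (1 + δ') ^ 2 with hc₂
  have hc₁0 : 0 < c₁ := by
    have : 0 < 1 - δ' := by linarith
    positivity
  have hc₂0 : 0 < c₂ := by positivity
  have hc₂1 : 1 / c₂ ≤ 1 := by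
    rw [div_le_one hc₂0, hc₂]
    nlinarith
  have hc₁2 : 1 / c₁ ≤ 2 := by linarith
  -- bounds at the grid points
  have hup : ∀ k ∈ Icc 1 (2 * G + 1), pd d (gr G X k) ≤ (S * (gr G X k : ℝ) + X / L) / (c₁ * L ^ 2) + (X : ℝ) ^ (1 - δ') := by
    intro k hk
    have h1 := (abs_le.1 (hS k hk)).2
    have h2 := tuple_lower (fun _ : Fin 1 => d) (gr G X k) ((X : ℝ) ^ (1 - δ')) ((1 - δ') * L)
      (Real.one_le_rpow hX1 (by linarith)) (mul_nonneg (by linarith) hL0.le)
      (by rw [Real.log_rpow hX0])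
    have hl2 : ((1 - δ') * L) ^ (1 + 1) = c₁ * L ^ 2 := by rw [hc₁]; ring
    rw [hl2, ← pd_eq] at h2
    rw [← sub_le_iff_le_add, le_div_iff₀ (by positivity)]
    linarith
  have hlo : ∀ k ∈ Icc 1 (2 * G + 1), (S * (gr G X k : ℝ) - X / L) / (c₂ * L ^ 2) ≤ pd d (gr G X k) := by
    intro k hk
    obtain ⟨g1, g2⟩ := gr_bounds G X k hG1 (by omega) hk
    have hg0 : 0 < gr G X k := by
      rcases Nat.eq_zero_or_pos (gr G X k) with h | h
      · rw [h] at g1; omega
      · exact h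
    have hgr0 : (1 : ℝ) ≤ gr G X k := by exact_mod_cast hg0
    have h1 := (abs_le.1 (hS k hk)).1
    have h2 := tuple_upper (fun _ : Fin 1 => d) (gr G X k) G (fun _ => (mem_Icc.1 hd).2.trans g1)
    rw [← pd_eq] at h2
    have hlog : Real.log (((G : ℝ) + 1) * (gr G X k : ℝ)) ≤ (1 + δ') * L := by
      have g2r : (gr G X k : ℝ) ≤ 6 * X := by exact_mod_cast g2
      calc Real.log (((G : ℝ) + 1) * (gr G X k : ℝ)) ≤ Real.log ((6 * ((G : ℝ) + 1)) * X) := by
            apply Real.log_le_log (by positivity)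
            nlinarith
        _ = Real.log (6 * ((G : ℝ) + 1)) + L := by rw [Real.log_mul (by positivity) hX0.ne']
        _ ≤ _ := by linarith
    have hlog0 : 0 ≤ Real.log (((G : ℝ) + 1) * (gr G X k : ℝ)) := Real.log_nonneg (by nlinarith)
    have hpd0 : 0 ≤ pd d (gr G X k) := sum_nonneg (fun i _ => mul_nonneg (pr_nonneg _ _) (pr_nonneg _ _))
    have h3 : Real.log (((G : ℝ) + 1) * (gr G X k : ℝ)) ^ (1 + 1) * pd d (gr G X k) ≤ (c₂ * L ^ 2) * pd d (gr G X k) := by
      apply mul_le_mul_of_nonneg_right _ hpd0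
      have := pow_le_pow_left₀ hlog0 hlog (1 + 1)
      refine this.trans (le_of_eq ?_)
      rw [hc₂]; ring
    rw [div_le_iff₀ (by positivity)]
    linarith
  -- the position of `m`
  obtain ⟨g, hg⟩ : ∃ g, g = X / G + 1 := ⟨_, rfl⟩
  have hg0 : 0 < g := by rw [hg]; exact Nat.succ_pos _
  obtain ⟨k, hk⟩ : ∃ k, k = m / g := ⟨_, rfl⟩
  have hXg : X < G * g := by rw [hg]; exact Nat.lt_mul_div_succ X (by omega)
  have hk1 : k * g ≤ m := by rw [hk]; exact Nat.div_mul_le_self m g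
  have hgr : ∀ j, gr G X j = j * g := fun j => by unfold gr; rw [hg]
  have hk2 : m < (k + 1) * g := by
    have := Nat.lt_div_mul_add hg0 (a := m)
    calc m < m / g * g + g := this
      _ = (k + 1) * g := by rw [hk]; ring
  have hkG : k < G := by
    by_contra h
    push Not at h
    have : G * g ≤ k * g := Nat.mul_le_mul_right _ h
    omega
  have hk3 : m + X ≤ (k + 1 + G) * g := by
    have : (k + 1 + G) * g = (k + 1) * g + G * g := by ring
    omega
  have hwin : ∑ h ∈ Icc 1 X, pr m h * pr (m + d) h ≤ pd d (gr G X (k + 1 + G)) - pd d (gr G X k) := by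
    rw [pd_window]
    have a1 := pd_mono d hk3
    have a2 := pd_mono d hk1
    rw [hgr, hgr]
    linarith
  have hP2 := hup (k + 1 + G) (mem_Icc.2 ⟨by omega, by omega⟩)
  have hP1 : (S * (gr G X k : ℝ) - X / L) / (c₂ * L ^ 2) ≤ pd d (gr G X k) := by
    rcases Nat.eq_zero_or_pos k with h0 | h0
    · have e2 : gr G X k = 0 := by rw [hgr, h0, zero_mul]
      rw [e2]
      have e3 : pd d 0 = 0 := by unfold pd; simp
      rw [e3]
      simp only [Nat.cast_zero, mul_zero, zero_sub]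
      apply div_nonpos_of_nonpos_of_nonneg
      · have : 0 ≤ X / L := by positivity
        linarith
      · positivity
    · exact hlo k (mem_Icc.2 ⟨h0, by omega⟩)
  set y1 : ℝ := (gr G X k : ℝ) with hy1
  set y2 : ℝ := (gr G X (k + 1 + G) : ℝ) with hy2
  have hy1X : y1 ≤ X := by
    rw [hy1]
    have : gr G X k ≤ X := by rw [hgr]; exact hk1.trans hm
    exact_mod_cast this
  have hy10 : 0 ≤ y1 := Nat.cast_nonneg _
  have hdiff : y2 - y1 ≤ X * (1 + 7 * δ / 24) := by
    have e1 : y2 - y1 = (G + 1) * (g : ℝ) := by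
      rw [hy1, hy2, hgr, hgr]; push_cast; ring
    rw [e1]
    have e2 : (g : ℝ) ≤ X / G + 1 := by
      rw [hg]; push_cast
      have := @Nat.cast_div_le ℝ _ _ _ X G
      linarith
    have e6 : 24 * ((G : ℝ) + 1) / δ ≤ X := e5
    rw [div_le_iff₀ hδ] at e6
    have e7 : 1 / (G : ℝ) ≤ δ / 4 := by
      rw [div_le_iff₀ (by linarith)]
      rw [div_le_iff₀ hδ] at hGδ
      linarith
    calc ((G : ℝ) + 1) * (g : ℝ) ≤ (G + 1) * (X / G + 1) := mul_le_mul_of_nonneg_left e2 (by positivity)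
      _ = X + X * (1 / G) + (G + 1) := by field_simp
      _ ≤ X + X * (δ / 4) + X * δ / 24 := by
          have := mul_le_mul_of_nonneg_left e7 hX0.le
          linarith
      _ = _ := by ring
  have hmainS : S * (y2 / c₁ - y1 / c₂) ≤ (1 + δ) * rat d * X := by
    have b1 : y2 / c₁ - y1 / c₂ = (y2 - y1) * (1 / c₁) + y1 * (1 / c₁ - 1 / c₂) := by ring
    have b2 : (y2 - y1) * (1 / c₁) ≤ X * (1 + 7 * δ / 24) * (1 + δ / 24) := by
      apply mul_le_mul hdiff hδ'.2 (by positivity) (by positivity)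
    have b3 : y1 * (1 / c₁ - 1 / c₂) ≤ X * (δ / 12) := by
      have b4 : 0 ≤ 1 / c₁ - 1 / c₂ := by
        have : 1 / c₂ ≤ 1 / c₁ := by
          apply one_div_le_one_div_of_le hc₁0
          rw [hc₁, hc₂]; nlinarith
        linarith
      calc y1 * (1 / c₁ - 1 / c₂) ≤ X * (1 / c₁ - 1 / c₂) := mul_le_mul_of_nonneg_right hy1X b4
        _ ≤ X * (δ / 12) := mul_le_mul_of_nonneg_left hδ'.1 hX0.le
    have b5 : y2 / c₁ - y1 / c₂ ≤ X * (1 + δ) := by
      rw [b1]
      have : X * (1 + 7 * δ / 24) * (1 + δ / 24) + X * (δ / 12) ≤ X * (1 + δ) := by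
        have : (1 + 7 * δ / 24) * (1 + δ / 24) + δ / 12 ≤ 1 + δ := by nlinarith
        nlinarith
      linarith
    have hr0 : 0 ≤ rat d := hS0.trans hSr
    calc S * (y2 / c₁ - y1 / c₂) ≤ S * (X * (1 + δ)) := mul_le_mul_of_nonneg_left b5 hS0
      _ ≤ rat d * (X * (1 + δ)) := mul_le_mul_of_nonneg_right hSr (by positivity)
      _ = _ := by ring
  unfold E1
  rw [div_mul_eq_mul_div, div_le_iff₀ hX0]
  have hL2 : 0 < L ^ 2 := by positivity
  have hf1 : (pd d (gr G X (k + 1 + G)) - pd d (gr G X k)) * L ^ 2 ≤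
      S * (y2 / c₁ - y1 / c₂) + (X / L) * (1 / c₁ + 1 / c₂) + L ^ 2 * (X : ℝ) ^ (1 - δ') := by
    have : pd d (gr G X (k + 1 + G)) - pd d (gr G X k) ≤ (S * y2 + X / L) / (c₁ * L ^ 2) + (X : ℝ) ^ (1 - δ') - (S * y1 - X / L) / (c₂ * L ^ 2) := by
      linarith
    have h3 := mul_le_mul_of_nonneg_right this hL2.le
    refine h3.trans (le_of_eq ?_)
    field_simp
    ring
  have hf2 : (X / L) * (1 / c₁ + 1 / c₂) ≤ δ * X := by
    have h4 : (X / L) * (1 / c₁ + 1 / c₂) ≤ (X / L) * 3 := mul_le_mul_of_nonneg_left (by linarith) (by positivity)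
    have h5 : (X / L) * 3 ≤ δ * X := by
      rw [div_mul_eq_mul_div, div_le_iff₀ hL0]
      nlinarith
    linarith
  have hf3 := mul_le_mul_of_nonneg_right hwin hL2.le
  linarith

end Pool.Agent.N735.CL
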