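import Mathlib
import Pool.Agent.N735.CL.Grid
import Pool.Agent.N735.CL.PairPow

set_option autoImplicit false
set_option maxHeartbeats 2000000

/-! The correlations of the weights of two translates by multiples of `W` up to `X`. -/

namespace Pool.Agent.N735.CL

open Finset Filter Topology
open Pool.Agent.H646 (rat)

lemma mul_div_le' (w X j : ℕ) (hj : j ∈ Icc 1 (X / Ww w)) : Ww w * j ≤ X :=
  (Nat.mul_le_mul_left _ (mem_Icc.1 hj).2).trans (Nat.mul_div_le X (Ww w))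

lemma ev_xU (w : ℕ) (t c δ : ℝ) (hδ : 0 < δ) : ∀ᶠ X : ℕ in atTop, ∀ m : ℕ, m ≤ X → |c * rX w t X * E1 X (pr m)| ≤ δ := by
  filter_upwards [eta_window 1 one_pos, ev_r w t 1 one_pos, tends_log.eventually_ge_atTop (4 * |c| / δ + 1)] with X h1 h3 h4 m hm
  have h5 : 0 ≤ 4 * |c| / δ := by positivity
  have hL0 : 0 < Real.log (X : ℝ) := by linarith
  have h6 : 4 * |c| ≤ δ * Real.log X := by
    have : 4 * |c| / δ ≤ Real.log X := by linarith
    rw [div_le_iff₀ hδ] at this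
    linarith
  have hr : |rX w t X| ≤ 2 := by
    obtain ⟨a, b⟩ := abs_le.1 h3
    rw [abs_le]; constructor <;> linarith
  have hy0 := E1_pr_nonneg X m
  have hy2 : E1 X (pr m) * Real.log X ≤ 2 := by linarith [(abs_le.1 (h1 m hm)).2]
  rw [abs_mul, abs_mul, abs_of_nonneg hy0]
  have h7 : |c| * |rX w t X| * E1 X (pr m) * Real.log X ≤ δ * Real.log X := by
    calc |c| * |rX w t X| * E1 X (pr m) * Real.log X = |c| * (|rX w t X| * (E1 X (pr m) * Real.log X)) := by ring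
      _ ≤ |c| * (2 * 2) := by
          apply mul_le_mul_of_nonneg_left _ (abs_nonneg _)
          exact mul_le_mul hr hy2 (by positivity) (by norm_num)
      _ = 4 * |c| := by ring
      _ ≤ _ := h6
  exact le_of_mul_le_mul_right h7 hL0

lemma ev_pairU (w : ℕ) (t κ : ℝ) (hκ : 0 ≤ κ) (ht : 0 ≤ t) : ∃ C₁ : ℝ, 0 ≤ C₁ ∧ ∀ δ₂ : ℝ, 0 < δ₂ → ∀ᶠ X : ℕ in atTop,
    ∃ Ex : Finset ℕ, (Ex.card : ℝ) ≤ X / Real.log X ^ 6 ∧ ∀ K : ℕ, (K : ℝ) ≤ (κ + 1) * Real.log X ^ 2 →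
    ∀ i ∈ Icc 1 (X / Ww w), ∀ j ∈ Icc 1 (X / Ww w), i < j →
      (gg w t X i j) ^ K ≤ (aj w t X i ^ K * aj w t X j ^ K) * Real.exp (C₁ * Real.exp (sw w (j - i))) ∧
      (Ww w * (j - i) ∉ Ex → (gg w t X i j) ^ K ≤ (aj w t X i ^ K * aj w t X j ^ K) *
        Real.exp (4 * (κ + 1) * (t - 1) ^ 2 / Vw w * (Real.exp (sw w (j - i)) - 1) + δ₂)) := by
  obtain ⟨C, hC, hall⟩ := pc_all
  have hV := Vw_pos w
  have hW : (0 : ℝ) < Ww w := by exact_mod_cast Ww_pos w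
  set C₁ := 2 * (κ + 1) * ((t - 1) ^ 2 * (2 * C / Vw w + 26 * Ww w)) with hC₁
  refine ⟨C₁, by positivity, fun δ₂ hδ₂ => ?_⟩
  set M₀ := 5 / Vw w + 1 / Vw w ^ 2 + 4 + 26 * Ww w with hM₀
  have hM₀0 : 0 < M₀ := by positivity
  set δ := min (1 / 10) (δ₂ / (2 * (κ + 1) * ((t - 1) ^ 2 + 1) * M₀)) with hδ
  have hδ0 : 0 < δ := lt_min (by norm_num) (by positivity)
  have hδ1 : δ ≤ 1 / 10 := min_le_left _ _
  filter_upwards [hall, pc_grid 6 δ hδ0 (by linarith), ev_eta δ hδ0, eta_window δ hδ0, ev_r w t δ hδ0, ev_gam w δ hδ0,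
    ev_xU w t (t - 1) (1 / 4) (by norm_num), ev_l w t (1 / 2) (by norm_num), eventually_ge_atTop 1,
    tends_log.eventually_ge_atTop 1] with X e1 e2 e3 e4 e5 e6 e8 e10 e11 e12
  obtain ⟨Ex, hEx, hgood⟩ := e2
  refine ⟨Ex, hEx, fun K hKle i hi j hj hij => ?_⟩
  have hi0 : 0 < i := (mem_Icc.1 hi).1
  have hj0 : 0 < j := (mem_Icc.1 hj).1
  have hiX := mul_div_le' w X i hi
  have hjX := mul_div_le' w X j hj
  have hL0 : 0 < Real.log (X : ℝ) := by linarith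
  set L := Real.log (X : ℝ) with hL
  have hγ0 : 0 < gam w X := lt_of_lt_of_le (by positivity) e6.1
  have hsum : Ww w * j = Ww w * i + Ww w * (j - i) := by
    rw [← mul_add]; congr 1; omega
  set q := E1 X (fun h => pr (Ww w * i) h * pr (Ww w * j) h) with hq
  have hq0 : 0 ≤ q := E1_nonneg (fun h _ => mul_nonneg (pr_nonneg _ _) (pr_nonneg _ _))
  have hineq := pair_ineq (t - 1) (eta X) (ej w X i) (ej w X j) q (gam w X) L δ (rX w t X) (ll w t X) hγ0 e6.2.2 hδ0.le hδ1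
    rfl rfl hq0 e3 (e4 _ hiX) (e4 _ hjX) e5
  have hgg : gg w t X i j = 1 + ll w t X ^ 2 * gam w X * (1 - gam w X) + (t - 1) * rX w t X ^ 2 * (ej w X i + ej w X j) +
      (t - 1) ^ 2 * rX w t X ^ 2 * q := gg_eq e11 w t hi0 hj0
  rw [← hgg] at hineq
  have hai : 3 / 4 ≤ aj w t X i := by
    unfold aj ej; linarith [(abs_le.1 (e8 _ hiX)).1]
  have haj : 3 / 4 ≤ aj w t X j := by
    unfold aj ej; linarith [(abs_le.1 (e8 _ hjX)).1]
  have hggn : 0 ≤ gg w t X i j :=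
    E1_nonneg (fun h _ => mul_nonneg (gw_nonneg ht e10.1 hγ0.le e6.2.2 _ _) (gw_nonneg ht e10.1 hγ0.le e6.2.2 _ _))
  have hd0 : 0 < j - i := by omega
  have hWd0 : 0 < Ww w * (j - i) := Nat.mul_pos (Ww_pos w) hd0
  have hrat := rat_W w (j - i) hd0
  have hE : 1 ≤ Real.exp (sw w (j - i)) := Real.one_le_exp (sw_nonneg _ _)
  set E := Real.exp (sw w (j - i)) with hEd
  have hs2 : 0 ≤ (t - 1) ^ 2 := sq_nonneg _
  constructor
  · have h1 := e1 (Ww w * i) (Ww w * (j - i)) hWd0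
    rw [← hsum] at h1
    have h2 : L ^ 2 * q ≤ C * rat (Ww w * (j - i)) := by rw [mul_comm]; exact h1
    have h3 := real_all δ E (Vw w) (L ^ 2 * q) (rat (Ww w * (j - i))) C (gam w X) (Ww w) hδ0 hδ1 hE hV hC.le hrat h2 hγ0 hW e6.1
    have h4 := hineq.trans (mul_le_mul_of_nonneg_left h3 hs2)
    have h5 := pow_of hggn hai haj hL0 (by positivity) hκ hKle h4
    refine h5.trans (le_of_eq ?_)
    congr 2
    rw [hC₁]; ring
  · intro hnE
    have hdm : Ww w * (j - i) ∈ Icc 1 X := by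
      rw [mem_Icc]
      refine ⟨hWd0, ?_⟩
      omega
    have h1 := hgood (Ww w * (j - i)) hdm hnE (Ww w * i) hiX
    rw [← hsum] at h1
    have h2 : L ^ 2 * q ≤ (1 + δ) * rat (Ww w * (j - i)) + 2 * δ := by rw [mul_comm]; exact h1
    have h3 := real_good δ E (Vw w) (L ^ 2 * q) (rat (Ww w * (j - i))) (gam w X) (Ww w) hδ0 hδ1 hE hV hrat h2 hγ0 e6.2.1 hW e6.1
    have h4 := hineq.trans (mul_le_mul_of_nonneg_left h3 hs2)
    have hT0 : 0 ≤ (t - 1) ^ 2 * (2 * (E - 1) / Vw w + δ * M₀) := by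
      have : 0 ≤ 2 * (E - 1) / Vw w := div_nonneg (by linarith) hV.le
      positivity
    have h5 := pow_of hggn hai haj hL0 hT0 hκ hKle h4
    refine h5.trans ?_
    have hapos : 0 ≤ aj w t X i ^ K * aj w t X j ^ K := by positivity
    apply mul_le_mul_of_nonneg_left _ hapos
    apply Real.exp_le_exp.2
    have h6 : 2 * (κ + 1) * ((t - 1) ^ 2 * (2 * (E - 1) / Vw w + δ * M₀)) =
        4 * (κ + 1) * (t - 1) ^ 2 / Vw w * (E - 1) + 2 * (κ + 1) * (t - 1) ^ 2 * M₀ * δ := by ring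
    rw [h6]
    have h7 : 2 * (κ + 1) * (t - 1) ^ 2 * M₀ * δ ≤ δ₂ := by
      have h8 : δ ≤ δ₂ / (2 * (κ + 1) * ((t - 1) ^ 2 + 1) * M₀) := min_le_right _ _
      rw [le_div_iff₀ (by positivity)] at h8
      have h9 : 2 * (κ + 1) * (t - 1) ^ 2 * M₀ * δ ≤ δ * (2 * (κ + 1) * ((t - 1) ^ 2 + 1) * M₀) := by
        have : 0 ≤ 2 * (κ + 1) * M₀ * δ := by positivity
        nlinarith
      linarith
    linarith

end Pool.Agent.N735.CL
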