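import Mathlib
import Pool.Agent.N735.CL.Eta
import Pool.Agent.N735.CL.PairU
import Pool.Agent.N735.CL.Ldp

set_option autoImplicit false
set_option maxHeartbeats 4000000

/-! The sharp threshold for the patterns all of whose translates contain a prime. -/

namespace Pool.Agent.N735.CL

open Finset Filter Topology

/-- above the threshold every translate of almost every pattern contains a prime -/
theorem sharp_upper (θ : ℝ) (hθ : 0 < θ) : ∃ C₀ : ℝ, 0 < C₀ ∧ ∀ᶠ X : ℕ in atTop, ∀ K : ℕ,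
    Real.log X ^ 2 + C₀ * Real.log X ≤ K → PK X K (fun h => ∃ m ∈ Icc 1 X, Nm h m = 0) ≤ θ := by
  obtain ⟨c, hc, hη⟩ := eta_precise
  set C₀ := 2 * c + 2 * |Real.log θ| + 1 with hC₀
  have hC₀0 : 0 < C₀ := by positivity
  refine ⟨C₀, hC₀0, ?_⟩
  filter_upwards [hη, eventually_ge_atTop 1, tends_log.eventually_ge_atTop (2 * c + 1)] with X h1 hX h3 K hK
  have hL0 : 0 < Real.log (X : ℝ) := by linarith
  set L := Real.log (X : ℝ) with hL
  have hstep : PK X K (fun h => ∃ m ∈ Icc 1 X, Nm h m = 0) ≤ EK X K (fun h => ∑ m ∈ Icc 1 X, (0 : ℝ) ^ Nm h m) := by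
    unfold PK
    apply EK_mono
    intro h _
    have hnn : ∀ m ∈ Icc 1 X, (0 : ℝ) ≤ 0 ^ Nm h m := fun m _ => pow_nonneg le_rfl _
    split_ifs with hc
    · obtain ⟨m, hm, hm0⟩ := hc
      have := single_le_sum hnn hm
      rw [hm0, pow_zero] at this
      exact this
    · exact sum_nonneg hnn
  refine hstep.trans ?_
  rw [EK_sum]
  have h4 : ∀ m ∈ Icc 1 X, EK X K (fun h => (0 : ℝ) ^ Nm h m) ≤ Real.exp (-L + (c - C₀ / 2)) := by
    intro m hm
    rw [EK_pow hX]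
    have h5 := (abs_le.1 (h1 m (mem_Icc.1 hm).2)).1
    have hη1 : E1 X (pr m) ≤ 1 := by
      rw [← E1_const hX 1]
      exact E1_mono (fun h _ => pr_le_one m h)
    set η := E1 X (pr m) with hη
    have h6 : (1 + (0 - 1) * η) ^ K ≤ Real.exp (K * (-η)) := by
      rw [Real.exp_nat_mul]
      apply pow_le_pow_left₀ (by linarith)
      linarith [Real.add_one_le_exp (-η)]
    refine h6.trans (Real.exp_le_exp.2 ?_)
    have h7 : 1 / L - c / L ^ 2 ≤ η := by linarith
    have h8 : 0 ≤ 1 / L - c / L ^ 2 := by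
      rw [sub_nonneg, div_le_div_iff₀ (by positivity) hL0]
      nlinarith
    have hK0 : (0 : ℝ) ≤ K := Nat.cast_nonneg _
    have h9 : (L ^ 2 + C₀ * L) * (1 / L - c / L ^ 2) ≤ K * η := mul_le_mul hK h7 h8 hK0
    have h10 : (L ^ 2 + C₀ * L) * (1 / L - c / L ^ 2) = L - c + C₀ * (1 - c / L) := by field_simp
    have h11 : c / L ≤ 1 / 2 := by
      rw [div_le_iff₀ hL0]; linarith
    have h12 : C₀ * (1 / 2) ≤ C₀ * (1 - c / L) := mul_le_mul_of_nonneg_left (by linarith) hC₀0.le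
    linarith
  refine (sum_le_sum h4).trans ?_
  rw [sum_const, nsmul_eq_mul, Nat.card_Icc, Nat.add_sub_cancel]
  have h8 : (X : ℝ) = Real.exp L := (exp_log_nat hX).symm
  rw [h8, ← Real.exp_add]
  have h9 : Real.exp (Real.log θ) = θ := Real.exp_log hθ
  rw [← h9]
  apply Real.exp_le_exp.2
  have h10 := neg_abs_le (Real.log θ)
  rw [hC₀]
  linarith

/-- the powers of the mean values of different translates are comparable -/
lemma ev_ratio : ∃ c₃ : ℝ, 1 ≤ c₃ ∧ ∀ w : ℕ, ∀ᶠ X : ℕ in atTop, ∀ K : ℕ, (K : ℝ) ≤ (1 + 1) * Real.log X ^ 2 →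
    ∀ i ∈ Icc 1 (X / Ww w), ∀ j ∈ Icc 1 (X / Ww w), aj w 0 X i ^ K ≤ c₃ * aj w 0 X j ^ K := by
  obtain ⟨c, hc, hη⟩ := eta_precise
  refine ⟨Real.exp (16 * c), Real.one_le_exp (by positivity), fun w => ?_⟩
  filter_upwards [hη, ev_xU w 0 (0 - 1) (1 / 2) (by norm_num), ev_r w 0 1 one_pos, tends_log.eventually_ge_atTop 1] with X h1 h2 h3 h4 K hK i hi j hj
  have hL0 : 0 < Real.log (X : ℝ) := by linarith
  set L := Real.log (X : ℝ) with hL
  have hiX := mul_div_le' w X i hi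
  have hjX := mul_div_le' w X j hj
  have hr : |rX w 0 X| ≤ 2 := by
    obtain ⟨a, b⟩ := abs_le.1 h3
    rw [abs_le]; constructor <;> linarith
  have hai : 1 / 2 ≤ aj w 0 X i := by
    unfold aj ej; linarith [(abs_le.1 (h2 _ hiX)).1]
  have haj : 1 / 2 ≤ aj w 0 X j := by
    unfold aj ej; linarith [(abs_le.1 (h2 _ hjX)).1]
  have hd : |ej w X j - ej w X i| ≤ 2 * (c / L ^ 2) := by
    unfold ej
    have e : E1 X (pr (Ww w * j)) - E1 X (pr (Ww w * i)) = (E1 X (pr (Ww w * j)) - 1 / L) - (E1 X (pr (Ww w * i)) - 1 / L) := by ring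
    rw [e]
    refine (abs_sub _ _).trans ?_
    linarith [h1 _ hiX, h1 _ hjX]
  set y := 8 * c / L ^ 2 with hy
  have hy0 : 0 ≤ y := by positivity
  have hle : aj w 0 X i ≤ aj w 0 X j * (1 + y) := by
    have e : aj w 0 X i - aj w 0 X j = rX w 0 X * (ej w X j - ej w X i) := by unfold aj; ring
    have h5 : aj w 0 X i - aj w 0 X j ≤ 2 * (2 * (c / L ^ 2)) := by
      rw [e]
      refine (le_abs_self _).trans ?_
      rw [abs_mul]
      exact mul_le_mul hr hd (abs_nonneg _) (by norm_num)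
    have h6 : 2 * (2 * (c / L ^ 2)) = 1 / 2 * y := by rw [hy]; ring
    rw [h6] at h5
    have h7 : 1 / 2 * y ≤ aj w 0 X j * y := mul_le_mul_of_nonneg_right haj hy0
    linarith
  calc aj w 0 X i ^ K ≤ (aj w 0 X j * (1 + y)) ^ K := pow_le_pow_left₀ (by linarith) hle K
    _ = (1 + y) ^ K * aj w 0 X j ^ K := by rw [mul_pow]; ring
    _ ≤ Real.exp (16 * c) * aj w 0 X j ^ K := by
        apply mul_le_mul_of_nonneg_right _ (pow_nonneg (by linarith) _)
        have h5 : (1 + y) ^ K ≤ Real.exp (K * y) := by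
          rw [Real.exp_nat_mul]
          apply pow_le_pow_left₀ (by linarith)
          linarith [Real.add_one_le_exp y]
        refine h5.trans (Real.exp_le_exp.2 ?_)
        calc (K : ℝ) * y ≤ ((1 + 1) * L ^ 2) * y := mul_le_mul_of_nonneg_right hK hy0
          _ = 16 * c := by rw [hy]; field_simp; ring

/-- the diagonal terms -/
lemma ev_diagS (w : ℕ) : ∃ C₄ : ℝ, ∀ᶠ X : ℕ in atTop, ∀ K : ℕ, (K : ℝ) ≤ (1 + 1) * Real.log X ^ 2 →
    ∀ j ∈ Icc 1 (X / Ww w), (1 + ll w 0 X ^ 2 * gam w X * (1 - gam w X) + (0 - 1) * rX w 0 X ^ 2 * ej w X j) ^ K ≤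
      (aj w 0 X j ^ K) ^ 2 * Real.exp (K / Real.log X + C₄) := by
  obtain ⟨c, hc, hη⟩ := eta_precise
  set W := (Ww w : ℝ) with hWd
  refine ⟨32 * W ^ 2 + 2 * c + 128, ?_⟩
  filter_upwards [hη, ev_xU w 0 (0 - 1) (1 / 5) (by norm_num), ev_xU w 0 (2 * (0 - 1)) (1 / 2) (by norm_num), ev_r w 0 1 one_pos, eta_window 1 one_pos,
    ev_l w 0 (1 / 2) (by norm_num), ev_gam w 1 one_pos, tends_log.eventually_ge_atTop 1] with X h1 h2 h2' h3 h3' h5 h6 h4 K hK j hj
  have hL0 : 0 < Real.log (X : ℝ) := by linarith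
  set L := Real.log (X : ℝ) with hL
  have hjX := mul_div_le' w X j hj
  set η := ej w X j with hηd
  have hη0 : 0 ≤ η := ej_nonneg w X j
  set r := rX w 0 X with hr
  obtain ⟨r1, r2⟩ := abs_le.1 h3
  have hr0 : 0 ≤ r := by linarith
  have hr2 : r ≤ 2 := by linarith
  have hηL : η * L ≤ 2 := by
    have := (abs_le.1 (h3' _ hjX)).2
    have e : E1 X (pr (Ww w * j)) = η := rfl
    rw [e] at this
    linarith
  have hγ1 := h6.2.2
  have hγ0 : 0 ≤ gam w X := le_trans (by have := Ww_pos w; positivity) h6.1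
  set ℓ := ll w 0 X ^ 2 * gam w X * (1 - gam w X) with hℓ
  have hℓ0 : 0 ≤ ℓ := by
    have : 0 ≤ 1 - gam w X := by linarith
    positivity
  have hℓle : ℓ ≤ ll w 0 X ^ 2 := by
    rw [hℓ, mul_assoc]
    apply mul_le_of_le_one_right (sq_nonneg _)
    have : 0 ≤ 1 - gam w X := by linarith
    nlinarith
  have hx : |(0 - 1) * r * η| ≤ 1 / 5 := h2 _ hjX
  have hx' : (0 - 1) * r * η = -(r * η) := by ring
  rw [hx'] at hx
  have ha : aj w 0 X j = 1 + -(r * η) := by unfold aj; rw [← hr, ← hηd]; ring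
  have h7 := exp_le_one_add hx
  rw [← ha] at h7
  have h8 : Real.exp (K * (2 * (-(r * η) - 2 * (-(r * η)) ^ 2))) ≤ (aj w 0 X j ^ K) ^ 2 := by
    have : Real.exp (K * (2 * (-(r * η) - 2 * (-(r * η)) ^ 2))) = (Real.exp (-(r * η) - 2 * (-(r * η)) ^ 2) ^ K) ^ 2 := by
      rw [← Real.exp_nat_mul, ← Real.exp_nat_mul]; congr 1; push_cast; ring
    rw [this]
    exact pow_le_pow_left₀ (by positivity) (pow_le_pow_left₀ (Real.exp_pos _).le h7 K) 2
  have hbase : 0 ≤ 1 + ℓ + (0 - 1) * r ^ 2 * η := by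
    have h9 : r * (r * η) ≤ 2 * (1 / 5) := mul_le_mul hr2 (by linarith [(abs_le.1 hx).1]) (by positivity) (by norm_num)
    nlinarith
  have h9 : (1 + ℓ + (0 - 1) * r ^ 2 * η) ^ K ≤ Real.exp (K * (ℓ - r ^ 2 * η)) := by
    rw [Real.exp_nat_mul]
    apply pow_le_pow_left₀ hbase
    linarith [Real.add_one_le_exp (ℓ - r ^ 2 * η)]
  refine h9.trans ?_
  have h10 : Real.exp (K * (ℓ - r ^ 2 * η)) ≤ Real.exp (K * (2 * (-(r * η) - 2 * (-(r * η)) ^ 2))) * Real.exp (K / L + (32 * W ^ 2 + 2 * c + 128)) := by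
    rw [← Real.exp_add]
    apply Real.exp_le_exp.2
    have hK0 : (0 : ℝ) ≤ K := Nat.cast_nonneg _
    have hKℓ : K * ℓ ≤ 32 * W ^ 2 := by
      have h11 : ll w 0 X ^ 2 * L ^ 2 ≤ (4 * W) ^ 2 := by
        have h12 := h5.2
        have e : 4 * |(0 : ℝ) - 1| * (Ww w : ℝ) = 4 * W := by rw [zero_sub, abs_neg, abs_one, mul_one]
        rw [e] at h12
        have : (|ll w 0 X| * L) ^ 2 ≤ (4 * W) ^ 2 := pow_le_pow_left₀ (by positivity) h12 2
        rwa [mul_pow, sq_abs] at this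
      calc K * ℓ ≤ ((1 + 1) * L ^ 2) * ll w 0 X ^ 2 := mul_le_mul hK hℓle hℓ0 (by positivity)
        _ = 2 * (ll w 0 X ^ 2 * L ^ 2) := by ring
        _ ≤ 2 * (4 * W) ^ 2 := by linarith
        _ = _ := by ring
    have hKη : K * η ≤ K / L + 2 * c := by
      have h11 : η ≤ 1 / L + c / L ^ 2 := by
        have := (abs_le.1 (h1 _ hjX)).2
        have e : E1 X (pr (Ww w * j)) = η := rfl
        rw [e] at this
        linarith
      calc (K : ℝ) * η ≤ K * (1 / L + c / L ^ 2) := mul_le_mul_of_nonneg_left h11 hK0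
        _ = K / L + K * (c / L ^ 2) := by ring
        _ ≤ K / L + ((1 + 1) * L ^ 2) * (c / L ^ 2) := by
            have := mul_le_mul_of_nonneg_right hK (show 0 ≤ c / L ^ 2 by positivity)
            linarith
        _ = K / L + 2 * c := by field_simp; ring
    have hKrη : K * (4 * (r * η) ^ 2) ≤ 128 := by
      have h11 : (r * η) * L ≤ 4 := by
        calc (r * η) * L = r * (η * L) := by ring
          _ ≤ 2 * 2 := mul_le_mul hr2 hηL (by positivity) (by norm_num)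
          _ = 4 := by norm_num
      have h12 : ((r * η) * L) ^ 2 ≤ 4 ^ 2 := pow_le_pow_left₀ (by positivity) h11 2
      calc K * (4 * (r * η) ^ 2) ≤ ((1 + 1) * L ^ 2) * (4 * (r * η) ^ 2) := mul_le_mul_of_nonneg_right hK (by positivity)
        _ = 8 * ((r * η) * L) ^ 2 := by ring
        _ ≤ 128 := by linarith
    have hkey : K * (2 * (r * η) - r ^ 2 * η) ≤ K * η := by
      apply mul_le_mul_of_nonneg_left _ hK0
      nlinarith [mul_nonneg hη0 (sq_nonneg (r - 1))]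
    have e1 : K * (ℓ - r ^ 2 * η) = K * ℓ + K * (2 * (r * η) - r ^ 2 * η) - K * (2 * (r * η)) := by ring
    have e2 : K * (2 * (-(r * η) - 2 * (-(r * η)) ^ 2)) = -(K * (2 * (r * η))) - K * (4 * (r * η) ^ 2) := by ring
    rw [e1, e2]
    linarith
  refine h10.trans ?_
  exact mul_le_mul_of_nonneg_right h8 (Real.exp_pos _).le

end Pool.Agent.N735.CL
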