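import Mathlib
import Pool.Agent.N735.CL.Sharp

set_option autoImplicit false
set_option maxHeartbeats 4000000

/-! Below the threshold almost every pattern has a translate without primes. -/

namespace Pool.Agent.N735.CL

open Finset Filter Topology

/-- below the threshold almost every pattern has a translate without primes -/
theorem sharp_lower (θ : ℝ) (hθ : 0 < θ) : ∃ C₀ : ℝ, 0 < C₀ ∧ ∀ᶠ X : ℕ in atTop, ∀ K : ℕ,
    (K : ℝ) ≤ Real.log X ^ 2 - C₀ * Real.log X → PK X K (fun h => ∀ m ∈ Icc 1 X, Nm h m ≠ 0) ≤ θ := by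
  obtain ⟨c₃, hc₃1, hratio⟩ := ev_ratio
  have hc₃0 : 0 < c₃ := by linarith
  set τ := θ / 24 with hτ
  have hτ0 : 0 < τ := by positivity
  obtain ⟨τ1, hτ10, hτ1⟩ : ∃ τ1 : ℝ, 0 < τ1 ∧ 2 * c₃ * (Real.exp τ1 * (1 + τ1) - 1 + τ1) ≤ τ := by
    have h1 : ∀ᶠ x : ℝ in nhds 0, 2 * c₃ * (Real.exp x * (1 + x) - 1 + x) < τ := by
      apply ContinuousAt.eventually_lt
      · fun_prop
      · fun_prop
      · simp; exact hτ0
    have h4 : ∀ᶠ x : ℝ in nhdsWithin 0 (Set.Ioi 0), x ∈ Set.Ioi (0 : ℝ) := self_mem_nhdsWithin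
    obtain ⟨x, hx⟩ := ((h1.filter_mono nhdsWithin_le_nhds).and h4).exists
    exact ⟨x, hx.2, hx.1.le⟩
  obtain ⟨w0, hw0⟩ := main_avg (4 * (1 + 1) * (0 - 1) ^ 2) τ1 (by norm_num) hτ10
  set w := max w0 2 with hw
  have hmain := hw0 w (le_max_left _ _)
  obtain ⟨C₁, hC₁0, hpair⟩ := ev_pairU w 0 1 zero_le_one le_rfl
  obtain ⟨C₃, hC₃0, hC₃⟩ := exc_avg w (le_max_right _ _) (2 * C₁) (by positivity)
  obtain ⟨C₄, hdiag⟩ := ev_diagS w
  have hWpos : 0 < Ww w := Ww_pos w
  have hWr : (0 : ℝ) < Ww w := by exact_mod_cast hWpos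
  set C₀ := |Real.log (τ / (2 * Ww w * c₃))| + |C₄| + 1 with hC₀
  have hC₀0 : 0 < C₀ := by positivity
  refine ⟨C₀, hC₀0, ?_⟩
  filter_upwards [hpair τ1 hτ10, hratio w, hdiag, ev_xU w 0 (0 - 1) (1 / 2) (by norm_num), ev_l w 0 (1 / 2) (by norm_num),
    ev_gam w 1 one_pos, eventually_ge_atTop (2 * Ww w + 4),
    tends_log.eventually_ge_atTop (2 * Ww w * (C₃ + 1) / τ1 ^ 2 + 1)] with X h1 h2 h3 h4 h5 h6 h7 h8 K hK
  obtain ⟨Ex, hEx, hp⟩ := h1
  have hX1 : 1 ≤ X := by omega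
  have hX0 : (0 : ℝ) < X := by exact_mod_cast (by omega : 0 < X)
  have hq : 0 < 2 * Ww w * (C₃ + 1) / τ1 ^ 2 := by positivity
  have hL1 : 1 ≤ Real.log (X : ℝ) := by linarith
  have hL0 : 0 < Real.log (X : ℝ) := by linarith
  set L := Real.log (X : ℝ) with hL
  have hKL : (K : ℝ) ≤ (1 + 1) * L ^ 2 := by
    have : 0 ≤ C₀ * L := by positivity
    nlinarith [sq_nonneg L]
  have hγ0 : 0 ≤ gam w X := le_trans (by positivity) h6.1
  have hγ1 := h6.2.2
  set J := X / Ww w with hJ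
  have hJX : (X : ℝ) / (2 * Ww w) ≤ J := by
    have h9 := Nat.lt_div_mul_add hWpos (a := X)
    have h10 : (X : ℝ) < (J : ℝ) * Ww w + Ww w := by rw [hJ]; exact_mod_cast h9
    have h11 : (2 : ℝ) * Ww w ≤ X := by exact_mod_cast (by omega : 2 * Ww w ≤ X)
    rw [div_le_iff₀ (by positivity)]
    linarith
  have hJ0 : (0 : ℝ) < J := lt_of_lt_of_le (by positivity) hJX
  -- the quantities `A_j`
  set Aj : ℕ → ℝ := fun j => aj w 0 X j ^ K with hAj
  have haj : ∀ j ∈ Icc 1 J, 1 / 2 ≤ aj w 0 X j := by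
    intro j hj
    unfold aj ej; linarith [(abs_le.1 (h4 _ (mul_div_le' w X j hj))).1]
  have hAj0 : ∀ j ∈ Icc 1 J, 0 < Aj j := fun j hj => pow_pos (by linarith [haj j hj]) _
  set A := ∑ j ∈ Icc 1 J, Aj j with hA
  have hJne : (Icc 1 J).Nonempty := by
    have : 0 < J := by exact_mod_cast hJ0
    exact ⟨1, mem_Icc.2 ⟨le_rfl, this⟩⟩
  have hA0 : 0 < A := sum_pos hAj0 hJne
  have hAjle : ∀ j ∈ Icc 1 J, Aj j ≤ c₃ * (A / J) := by
    intro j hj
    have h9 : ∑ i ∈ Icc 1 J, Aj j ≤ ∑ i ∈ Icc 1 J, c₃ * Aj i := sum_le_sum (fun i hi => h2 K hKL j hj i hi)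
    rw [← mul_sum, sum_const, nsmul_eq_mul, Nat.card_Icc, Nat.add_sub_cancel] at h9
    rw [← mul_div_assoc, le_div_iff₀ hJ0]
    linarith
  -- the majorant
  set c := 4 * (1 + 1) * ((0 : ℝ) - 1) ^ 2 / Vw w with hc
  have hc0 : 0 ≤ c := by
    have := Vw_pos w
    positivity
  set f : ℕ → ℝ := fun d => Real.exp (c * (Real.exp (sw w d) - 1) + τ1) - 1 +
    (if Ww w * d ∈ Ex then Real.exp (C₁ * Real.exp (sw w d)) else 0) with hf
  have hf0 : ∀ d : ℕ, 0 ≤ f d := by
    intro d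
    have e1 : 1 ≤ Real.exp (sw w d) := Real.one_le_exp (sw_nonneg _ _)
    have e2 : 1 ≤ Real.exp (c * (Real.exp (sw w d) - 1) + τ1) := by
      apply Real.one_le_exp
      have : 0 ≤ c * (Real.exp (sw w d) - 1) := mul_nonneg hc0 (by linarith)
      linarith
    have e3 : (0 : ℝ) ≤ (if Ww w * d ∈ Ex then Real.exp (C₁ * Real.exp (sw w d)) else 0) := by
      split_ifs
      · positivity
      · exact le_rfl
    simp only [hf]
    linarith
  have hExJ : (Ex.card : ℝ) ≤ τ1 ^ 2 / (C₃ + 1) * J := by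
    refine hEx.trans ?_
    have h9 : X / L ^ 6 ≤ X / L := by
      apply div_le_div_of_nonneg_left hX0.le hL0
      calc L = L ^ 1 := (pow_one L).symm
        _ ≤ L ^ 6 := pow_le_pow_right₀ hL1 (by norm_num)
    have h10 : X / L ≤ τ1 ^ 2 / (C₃ + 1) * (X / (2 * Ww w)) := by
      rw [div_mul_div_comm, div_le_div_iff₀ hL0 (by positivity)]
      have h11 : 2 * Ww w * (C₃ + 1) / τ1 ^ 2 ≤ L := by linarith
      rw [div_le_iff₀ (by positivity)] at h11
      calc X * ((C₃ + 1) * (2 * Ww w)) = X * (2 * Ww w * (C₃ + 1)) := by ring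
        _ ≤ X * (L * τ1 ^ 2) := mul_le_mul_of_nonneg_left h11 hX0.le
        _ = _ := by ring
    have h12 : τ1 ^ 2 / (C₃ + 1) * (X / (2 * Ww w)) ≤ τ1 ^ 2 / (C₃ + 1) * J := mul_le_mul_of_nonneg_left hJX (by positivity)
    linarith
  have hfsum : ∑ d ∈ Icc 1 J, f d ≤ (Real.exp τ1 * (1 + τ1) - 1 + τ1) * J := by
    simp only [hf]
    rw [sum_add_distrib, sum_sub_distrib, ← sum_filter]
    have g1 : ∑ d ∈ Icc 1 J, Real.exp (c * (Real.exp (sw w d) - 1) + τ1) ≤ Real.exp τ1 * (J * (1 + τ1)) := by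
      have : ∑ d ∈ Icc 1 J, Real.exp (c * (Real.exp (sw w d) - 1) + τ1) = Real.exp τ1 * ∑ d ∈ Icc 1 J, Real.exp (c * (Real.exp (sw w d) - 1)) := by
        rw [mul_sum]
        apply sum_congr rfl
        intro d _
        rw [Real.exp_add]; ring
      rw [this]
      exact mul_le_mul_of_nonneg_left (hmain J) (Real.exp_pos _).le
    have g2 : ∑ d ∈ Icc 1 J, (1 : ℝ) = J := by simp
    have g3 : ∑ d ∈ (Icc 1 J).filter (fun d => Ww w * d ∈ Ex), Real.exp (C₁ * Real.exp (sw w d)) ≤ τ1 * J := by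
      apply exc_sum w J C₁ C₃ (τ1 ^ 2 / (C₃ + 1)) (hC₃ J) Ex hExJ τ1 hτ10.le
      rw [div_mul_eq_mul_div, div_le_iff₀ (by positivity)]
      have : 0 ≤ τ1 ^ 2 := sq_nonneg _
      nlinarith
    rw [g2]
    have g4 : (Real.exp τ1 * (1 + τ1) - 1 + τ1) * J = Real.exp τ1 * (J * (1 + τ1)) - J + τ1 * J := by ring
    rw [g4]
    linarith
  have hfs0 : 0 ≤ ∑ d ∈ Icc 1 J, f d := sum_nonneg (fun d _ => hf0 d)
  -- the off-diagonal terms
  have hgood : ∀ i ∈ Icc 1 J, ∀ j ∈ Icc 1 J, i < j → gg w 0 X i j ^ K ≤ (Aj i * Aj j) * (1 + f (j - i)) := by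
    intro i hi j hj hij
    obtain ⟨p1, p2⟩ := hp K hKL i hi j hj hij
    have q3 : 0 ≤ Aj i * Aj j := (mul_pos (hAj0 i hi) (hAj0 j hj)).le
    have q4 : 1 ≤ Real.exp (c * (Real.exp (sw w (j - i)) - 1) + τ1) := by
      apply Real.one_le_exp
      have e1 : 1 ≤ Real.exp (sw w (j - i)) := Real.one_le_exp (sw_nonneg _ _)
      have : 0 ≤ c * (Real.exp (sw w (j - i)) - 1) := mul_nonneg hc0 (by linarith)
      linarith
    by_cases hE : Ww w * (j - i) ∈ Ex
    · have q5 : Real.exp (C₁ * Real.exp (sw w (j - i))) ≤ 1 + f (j - i) := by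
        simp only [hf]
        rw [if_pos hE]
        linarith
      exact p1.trans (mul_le_mul_of_nonneg_left q5 q3)
    · have q5 : Real.exp (c * (Real.exp (sw w (j - i)) - 1) + τ1) ≤ 1 + f (j - i) := by
        simp only [hf]
        rw [if_neg hE]
        linarith
      exact (p2 hE).trans (mul_le_mul_of_nonneg_left q5 q3)
  have hoff : ∑ i ∈ Icc 1 J, ∑ j ∈ (Icc 1 J).filter (fun j => j ≠ i), gg w 0 X i j ^ K ≤ (1 + τ) * A ^ 2 := by
    have hrow : ∀ i ∈ Icc 1 J, ∑ j ∈ (Icc 1 J).filter (fun j => j ≠ i), gg w 0 X i j ^ K ≤ Aj i * ((1 + τ) * A) := by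
      intro i hi
      have r1 : ∀ j ∈ (Icc 1 J).filter (fun j => j ≠ i), gg w 0 X i j ^ K ≤ Aj i * (Aj j +
          (c₃ * (A / J)) * ((if i < j then f (j - i) else 0) + (if j < i then f (i - j) else 0))) := by
        intro j hj
        rw [mem_filter] at hj
        have hAi := hAj0 i hi
        have hAjj := hAj0 j hj.1
        have hle := hAjle j hj.1
        rcases lt_or_gt_of_ne hj.2 with h | h
        · rw [if_neg (by omega), if_pos h, zero_add, gg_comm]
          have h9 := hgood j hj.1 i hi h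
          have h10 := hf0 (i - j)
          have h11 : Aj j * f (i - j) ≤ (c₃ * (A / J)) * f (i - j) := mul_le_mul_of_nonneg_right hle h10
          calc gg w 0 X j i ^ K ≤ (Aj j * Aj i) * (1 + f (i - j)) := h9
            _ = Aj i * (Aj j + Aj j * f (i - j)) := by ring
            _ ≤ _ := mul_le_mul_of_nonneg_left (by linarith) hAi.le
        · rw [if_pos h, if_neg (by omega), add_zero]
          have h9 := hgood i hi j hj.1 h
          have h10 := hf0 (j - i)
          have h11 : Aj j * f (j - i) ≤ (c₃ * (A / J)) * f (j - i) := mul_le_mul_of_nonneg_right hle h10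
          calc gg w 0 X i j ^ K ≤ (Aj i * Aj j) * (1 + f (j - i)) := h9
            _ = Aj i * (Aj j + Aj j * f (j - i)) := by ring
            _ ≤ _ := mul_le_mul_of_nonneg_left (by linarith) hAi.le
      refine (sum_le_sum r1).trans ?_
      rw [← mul_sum]
      apply mul_le_mul_of_nonneg_left _ (hAj0 i hi).le
      have hcA : 0 ≤ c₃ * (A / J) := by positivity
      have r2 : ∑ j ∈ (Icc 1 J).filter (fun j => j ≠ i), (Aj j + (c₃ * (A / J)) * ((if i < j then f (j - i) else 0) + (if j < i then f (i - j) else 0))) ≤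
          ∑ j ∈ Icc 1 J, (Aj j + (c₃ * (A / J)) * ((if i < j then f (j - i) else 0) + (if j < i then f (i - j) else 0))) := by
        apply sum_le_sum_of_subset_of_nonneg (filter_subset _ _)
        intro j hj _
        have s1 : 0 ≤ (if i < j then f (j - i) else 0) := by
          split_ifs
          · exact hf0 _
          · exact le_rfl
        have s2 : 0 ≤ (if j < i then f (i - j) else 0) := by
          split_ifs
          · exact hf0 _
          · exact le_rfl
        have s3 := (hAj0 j hj).le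
        have : 0 ≤ (c₃ * (A / J)) * ((if i < j then f (j - i) else 0) + (if j < i then f (i - j) else 0)) := mul_nonneg hcA (by linarith)
        linarith
      refine r2.trans ?_
      rw [sum_add_distrib, ← mul_sum, sum_add_distrib]
      have s1 := (sum_shift_le J i f (fun d _ => hf0 d)).trans hfsum
      have s2 := (sum_shift_le' J i (mem_Icc.1 hi).2 f (fun d _ => hf0 d)).trans hfsum
      have s3 : (c₃ * (A / J)) * (∑ j ∈ Icc 1 J, (if i < j then f (j - i) else 0) + ∑ j ∈ Icc 1 J, (if j < i then f (i - j) else 0)) ≤ τ * A := by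
        calc (c₃ * (A / J)) * (∑ j ∈ Icc 1 J, (if i < j then f (j - i) else 0) + ∑ j ∈ Icc 1 J, (if j < i then f (i - j) else 0))
            ≤ (c₃ * (A / J)) * (2 * ((Real.exp τ1 * (1 + τ1) - 1 + τ1) * J)) := mul_le_mul_of_nonneg_left (by linarith) hcA
          _ = (2 * c₃ * (Real.exp τ1 * (1 + τ1) - 1 + τ1)) * A := by field_simp
          _ ≤ τ * A := mul_le_mul_of_nonneg_right hτ1 hA0.le
      calc _ ≤ A + τ * A := add_le_add le_rfl s3
        _ = _ := by ring
    refine (sum_le_sum hrow).trans (le_of_eq ?_)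
    rw [← sum_mul]; ring
  -- the diagonal terms
  have hdg : ∑ j ∈ Icc 1 J, (1 + ll w 0 X ^ 2 * gam w X * (1 - gam w X) + (0 - 1) * rX w 0 X ^ 2 * ej w X j) ^ K ≤ τ * A ^ 2 := by
    have g1 : ∀ j ∈ Icc 1 J, (1 + ll w 0 X ^ 2 * gam w X * (1 - gam w X) + (0 - 1) * rX w 0 X ^ 2 * ej w X j) ^ K ≤
        Aj j * ((c₃ * (A / J)) * Real.exp (K / L + C₄)) := by
      intro j hj
      refine (h3 K hKL j hj).trans ?_
      have h9 := hAj0 j hj
      have h10 := hAjle j hj
      calc (aj w 0 X j ^ K) ^ 2 * Real.exp (K / L + C₄) = Aj j * (Aj j * Real.exp (K / L + C₄)) := by simp only [hAj]; ring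
        _ ≤ _ := mul_le_mul_of_nonneg_left (mul_le_mul_of_nonneg_right h10 (Real.exp_pos _).le) h9.le
    refine (sum_le_sum g1).trans ?_
    rw [← sum_mul]
    have g2 : (c₃ / J) * Real.exp (K / L + C₄) ≤ τ := by
      have h9 : (K : ℝ) / L ≤ L - C₀ := by
        rw [div_le_iff₀ hL0]
        calc (K : ℝ) ≤ L ^ 2 - C₀ * L := hK
          _ = _ := by ring
      have h10 : Real.exp (K / L + C₄) ≤ Real.exp (L + (C₄ - C₀)) := Real.exp_le_exp.2 (by linarith)
      have h11 : c₃ / J ≤ c₃ * (2 * Ww w) / X := by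
        rw [div_le_div_iff₀ hJ0 hX0]
        rw [div_le_iff₀ (by positivity)] at hJX
        nlinarith
      have h12 : Real.exp (L + (C₄ - C₀)) = X * Real.exp (C₄ - C₀) := by
        rw [Real.exp_add, hL, exp_log_nat hX1]
      have h13 : Real.exp (C₄ - C₀) ≤ τ / (2 * Ww w * c₃) := by
        have h14 : Real.exp (Real.log (τ / (2 * Ww w * c₃))) = τ / (2 * Ww w * c₃) := Real.exp_log (by positivity)
        rw [← h14]
        apply Real.exp_le_exp.2
        have h15 := neg_abs_le (Real.log (τ / (2 * Ww w * c₃)))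
        have h16 := le_abs_self C₄
        rw [hC₀]
        linarith
      calc (c₃ / J) * Real.exp (K / L + C₄) ≤ (c₃ * (2 * Ww w) / X) * (X * (τ / (2 * Ww w * c₃))) := by
            apply mul_le_mul h11 _ (Real.exp_pos _).le (by positivity)
            rw [h12] at h10
            exact h10.trans (mul_le_mul_of_nonneg_left h13 hX0.le)
        _ = τ := by field_simp
    calc A * ((c₃ * (A / J)) * Real.exp (K / L + C₄)) = ((c₃ / J) * Real.exp (K / L + C₄)) * A ^ 2 := by ring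
      _ ≤ τ * A ^ 2 := mul_le_mul_of_nonneg_right g2 (sq_nonneg _)
  -- the moments of the weighted count
  set Z : (Fin K → ℕ) → ℝ := fun h => ∑ j ∈ Icc 1 J, Gj w 0 X j h with hZ
  have hfirst : (1 - 2 * τ) * A ≤ EK X K Z := by
    simp only [hZ]
    rw [EK_sum]
    have : ∑ j ∈ Icc 1 J, EK X K (fun h => Gj w 0 X j h) = A := by
      rw [hA]
      apply sum_congr rfl
      intro j hj
      exact EK_Gj hX1 w 0 K (mem_Icc.1 hj).1
    rw [this]
    nlinarith
  have hsecond : EK X K (fun h => Z h ^ 2) ≤ (1 + 2 * τ) * A ^ 2 := by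
    have e1 : ∀ h ∈ Om X K, Z h ^ 2 = ∑ i ∈ Icc 1 J, ∑ j ∈ (Icc 1 J).filter (fun j => j ≠ i), Gj w 0 X i h * Gj w 0 X j h +
        ∑ j ∈ Icc 1 J, (0 : ℝ) ^ Nm h (Ww w * j) * Fh w 0 X h ^ 2 := by
      intro h _
      simp only [hZ]
      rw [sq, sum_mul_sum, ← sum_add_distrib]
      apply sum_congr rfl
      intro i hi
      rw [← sum_filter_add_sum_filter_not (Icc 1 J) (fun j => j ≠ i)]
      congr 1
      have e2 : (Icc 1 J).filter (fun j => ¬ j ≠ i) = {i} := by
        ext j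
        rw [mem_filter, mem_singleton, not_not]
        constructor
        · exact fun h => h.2
        · rintro rfl; exact ⟨hi, rfl⟩
      rw [e2, sum_singleton, Gj_eq]
      rcases Nat.eq_zero_or_pos (Nm h (Ww w * i)) with h0 | h0
      · rw [h0, pow_zero]; ring
      · rw [zero_pow (by omega)]; ring
    rw [EK_congr e1, EK_add, EK_sum, EK_sum]
    have e3 : ∑ i ∈ Icc 1 J, EK X K (fun h => ∑ j ∈ (Icc 1 J).filter (fun j => j ≠ i), Gj w 0 X i h * Gj w 0 X j h) =
        ∑ i ∈ Icc 1 J, ∑ j ∈ (Icc 1 J).filter (fun j => j ≠ i), gg w 0 X i j ^ K := by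
      apply sum_congr rfl
      intro i _
      rw [EK_sum]
      apply sum_congr rfl
      intro j _
      exact EK_GG X w 0 K i j
    have e4 : ∑ j ∈ Icc 1 J, EK X K (fun h => (0 : ℝ) ^ Nm h (Ww w * j) * Fh w 0 X h ^ 2) =
        ∑ j ∈ Icc 1 J, (1 + ll w 0 X ^ 2 * gam w X * (1 - gam w X) + (0 - 1) * rX w 0 X ^ 2 * ej w X j) ^ K := by
      apply sum_congr rfl
      intro j hj
      exact EK_tF hX1 w 0 K (mem_Icc.1 hj).1
    rw [e3, e4]
    linarith
  have hcheb := PK_cheb hX1 hA0 hfirst hsecond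
  refine le_trans (PK_mono ?_) (hcheb.trans (by rw [hτ]; linarith))
  intro h _ hh
  have : Z h = 0 := by
    simp only [hZ]
    apply sum_eq_zero
    intro j hj
    rw [Gj_eq, zero_pow, zero_mul]
    apply hh
    rw [mem_Icc]
    exact ⟨Nat.mul_pos hWpos (mem_Icc.1 hj).1, mul_div_le' w X j hj⟩
  rw [this]
  positivity

end Pool.Agent.N735.CL
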