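import Mathlib
import Pool.Agent.N735.CL.SharpL

set_option autoImplicit false
set_option maxHeartbeats 4000000

/-! The second moment for a general set of translates. -/

namespace Pool.Agent.N735.CL

open Finset Filter Topology

/-- the majorant of the correlations -/
noncomputable def ff (w : ℕ) (C₁ τ1 : ℝ) (Ex : Finset ℕ) (d : ℕ) : ℝ :=
  Real.exp (4 * (1 + 1) * ((0 : ℝ) - 1) ^ 2 / Vw w * (Real.exp (sw w d) - 1) + τ1) - 1 +
    (if Ww w * d ∈ Ex then Real.exp (C₁ * Real.exp (sw w d)) else 0)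

lemma ff_nonneg (w : ℕ) (C₁ τ1 : ℝ) (hτ : 0 < τ1) (Ex : Finset ℕ) (d : ℕ) : 0 ≤ ff w C₁ τ1 Ex d := by
  unfold ff
  have e1 : 1 ≤ Real.exp (sw w d) := Real.one_le_exp (sw_nonneg _ _)
  have hc0 : 0 ≤ 4 * (1 + 1) * ((0 : ℝ) - 1) ^ 2 / Vw w := by
    have := Vw_pos w
    positivity
  have e2 : 1 ≤ Real.exp (4 * (1 + 1) * ((0 : ℝ) - 1) ^ 2 / Vw w * (Real.exp (sw w d) - 1) + τ1) := by
    apply Real.one_le_exp
    have : 0 ≤ 4 * (1 + 1) * ((0 : ℝ) - 1) ^ 2 / Vw w * (Real.exp (sw w d) - 1) := mul_nonneg hc0 (by linarith)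
    linarith
  have e3 : (0 : ℝ) ≤ (if Ww w * d ∈ Ex then Real.exp (C₁ * Real.exp (sw w d)) else 0) := by
    split_ifs
    · positivity
    · exact le_rfl
  linarith

/-- the second moment for a general set of translates -/
theorem gen_core : ∃ c₃ : ℝ, 1 ≤ c₃ ∧ ∀ w : ℕ, 2 ≤ w → ∃ C₁ : ℝ, 0 ≤ C₁ ∧ ∃ C₄ : ℝ, ∀ τ1 : ℝ, 0 < τ1 → ∀ᶠ X : ℕ in atTop,
    ∃ Ex : Finset ℕ, (Ex.card : ℝ) ≤ X / Real.log X ^ 6 ∧ ∀ K : ℕ, (K : ℝ) ≤ (1 + 1) * Real.log X ^ 2 →
      ∀ T ⊆ Icc 1 (X / Ww w), T.Nonempty → ∀ τ : ℝ, 0 < τ →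
        2 * c₃ ^ 2 * ∑ i ∈ T, ∑ j ∈ T.filter (fun j => i < j), ff w C₁ τ1 Ex (j - i) ≤ τ * (T.card : ℝ) ^ 2 →
        c₃ * Real.exp (K / Real.log X + C₄) ≤ τ * T.card →
        PK X K (fun h => ∀ j ∈ T, Nm h (Ww w * j) ≠ 0) ≤ 24 * τ := by
  obtain ⟨c₃, hc₃1, hratio⟩ := ev_ratio
  have hc₃0 : 0 < c₃ := by linarith
  refine ⟨c₃, hc₃1, fun w hw => ?_⟩
  obtain ⟨C₁, hC₁0, hpair⟩ := ev_pairU w 0 1 zero_le_one le_rfl
  obtain ⟨C₄, hdiag⟩ := ev_diagS w
  have hWpos : 0 < Ww w := Ww_pos w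
  refine ⟨C₁, hC₁0, C₄, fun τ1 hτ10 => ?_⟩
  filter_upwards [hpair τ1 hτ10, hratio w, hdiag, ev_xU w 0 (0 - 1) (1 / 2) (by norm_num), eventually_ge_atTop 1] with X h1 h2 h3 h4 hX1
  obtain ⟨Ex, hEx, hp⟩ := h1
  refine ⟨Ex, hEx, fun K hKL T hT hTne τ hτ0 hsum hdiagT => ?_⟩
  have hT0 : (0 : ℝ) < T.card := by exact_mod_cast hTne.card_pos
  set f : ℕ → ℝ := ff w C₁ τ1 Ex with hf
  have hf0 : ∀ d : ℕ, 0 ≤ f d := ff_nonneg w C₁ τ1 hτ10 Ex
  -- the quantities `A_j`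
  set Aj : ℕ → ℝ := fun j => aj w 0 X j ^ K with hAj
  have haj : ∀ j ∈ T, 1 / 2 ≤ aj w 0 X j := by
    intro j hj
    unfold aj ej; linarith [(abs_le.1 (h4 _ (mul_div_le' w X j (hT hj)))).1]
  have hAj0 : ∀ j ∈ T, 0 < Aj j := fun j hj => pow_pos (by linarith [haj j hj]) _
  set A := ∑ j ∈ T, Aj j with hA
  have hA0 : 0 < A := sum_pos hAj0 hTne
  have hAjle : ∀ j ∈ T, Aj j ≤ c₃ * (A / T.card) := by
    intro j hj
    have h9 : ∑ i ∈ T, Aj j ≤ ∑ i ∈ T, c₃ * Aj i := sum_le_sum (fun i hi => h2 K hKL j (hT hj) i (hT hi))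
    rw [← mul_sum, sum_const, nsmul_eq_mul] at h9
    rw [← mul_div_assoc, le_div_iff₀ hT0]
    linarith
  -- the off-diagonal terms
  have hgood : ∀ i ∈ T, ∀ j ∈ T, i < j → gg w 0 X i j ^ K ≤ (Aj i * Aj j) * (1 + f (j - i)) := by
    intro i hi j hj hij
    obtain ⟨p1, p2⟩ := hp K hKL i (hT hi) j (hT hj) hij
    have q3 : 0 ≤ Aj i * Aj j := (mul_pos (hAj0 i hi) (hAj0 j hj)).le
    set c := 4 * (1 + 1) * ((0 : ℝ) - 1) ^ 2 / Vw w with hc
    have hc0 : 0 ≤ c := by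
      have := Vw_pos w
      positivity
    have q4 : 1 ≤ Real.exp (c * (Real.exp (sw w (j - i)) - 1) + τ1) := by
      apply Real.one_le_exp
      have e1 : 1 ≤ Real.exp (sw w (j - i)) := Real.one_le_exp (sw_nonneg _ _)
      have : 0 ≤ c * (Real.exp (sw w (j - i)) - 1) := mul_nonneg hc0 (by linarith)
      linarith
    by_cases hE : Ww w * (j - i) ∈ Ex
    · have q5 : Real.exp (C₁ * Real.exp (sw w (j - i))) ≤ 1 + f (j - i) := by
        simp only [hf, ff]
        rw [if_pos hE, ← hc]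
        linarith
      exact p1.trans (mul_le_mul_of_nonneg_left q5 q3)
    · have q5 : Real.exp (c * (Real.exp (sw w (j - i)) - 1) + τ1) ≤ 1 + f (j - i) := by
        simp only [hf, ff]
        rw [if_neg hE, ← hc]
        linarith
      exact (p2 hE).trans (mul_le_mul_of_nonneg_left q5 q3)
  set S := ∑ i ∈ T, ∑ j ∈ T.filter (fun j => i < j), f (j - i) with hS
  have hgood2 : ∀ i ∈ T, ∀ j ∈ T, i ≠ j → gg w 0 X i j ^ K ≤ Aj i * Aj j +
      (c₃ * (A / T.card)) ^ 2 * ((if i < j then f (j - i) else 0) + (if j < i then f (i - j) else 0)) := by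
    intro i hi j hj hij
    have hcA : 0 ≤ c₃ * (A / T.card) := by positivity
    have hprod : Aj i * Aj j ≤ (c₃ * (A / T.card)) ^ 2 := by
      rw [sq]
      exact mul_le_mul (hAjle i hi) (hAjle j hj) (hAj0 j hj).le hcA
    rcases lt_or_gt_of_ne hij with h | h
    · rw [if_pos h, if_neg (by omega), add_zero]
      have h9 := hgood i hi j hj h
      have h10 := mul_le_mul_of_nonneg_right hprod (hf0 (j - i))
      linarith
    · rw [if_neg (by omega), if_pos h, zero_add, gg_comm]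
      have h9 := hgood j hj i hi h
      have h10 := mul_le_mul_of_nonneg_right hprod (hf0 (i - j))
      linarith
  have hoff : ∑ i ∈ T, ∑ j ∈ T.filter (fun j => j ≠ i), gg w 0 X i j ^ K ≤ (1 + τ) * A ^ 2 := by
    have r1 : ∀ i ∈ T, ∑ j ∈ T.filter (fun j => j ≠ i), gg w 0 X i j ^ K ≤
        ∑ j ∈ T, (Aj i * Aj j + (c₃ * (A / T.card)) ^ 2 * ((if i < j then f (j - i) else 0) + (if j < i then f (i - j) else 0))) := by
      intro i hi
      refine (sum_le_sum (fun j hj => hgood2 i hi j (mem_filter.1 hj).1 (Ne.symm (mem_filter.1 hj).2))).trans ?_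
      apply sum_le_sum_of_subset_of_nonneg (filter_subset _ _)
      intro j hj _
      have s1 : 0 ≤ (if i < j then f (j - i) else 0) := by
        split_ifs
        · exact hf0 _
        · exact le_rfl
      have s2 : 0 ≤ (if j < i then f (i - j) else 0) := by
        split_ifs
        · exact hf0 _
        · exact le_rfl
      have s3 := (mul_pos (hAj0 i hi) (hAj0 j hj)).le
      have : 0 ≤ (c₃ * (A / T.card)) ^ 2 * ((if i < j then f (j - i) else 0) + (if j < i then f (i - j) else 0)) := mul_nonneg (sq_nonneg _) (by linarith)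
      linarith
    refine (sum_le_sum r1).trans ?_
    have r2 : ∑ i ∈ T, ∑ j ∈ T, (Aj i * Aj j + (c₃ * (A / T.card)) ^ 2 * ((if i < j then f (j - i) else 0) + (if j < i then f (i - j) else 0))) =
        A ^ 2 + (c₃ * (A / T.card)) ^ 2 * (∑ i ∈ T, ∑ j ∈ T, (if i < j then f (j - i) else 0) + ∑ i ∈ T, ∑ j ∈ T, (if j < i then f (i - j) else 0)) := by
      simp_rw [sum_add_distrib, ← mul_sum, sum_add_distrib]
      rw [← sum_mul]
      ring
    have r3 : ∑ i ∈ T, ∑ j ∈ T, (if i < j then f (j - i) else 0) = S := by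
      rw [hS]
      apply sum_congr rfl
      intro i _
      rw [sum_filter]
    have r4 : ∑ i ∈ T, ∑ j ∈ T, (if j < i then f (i - j) else 0) = S := by
      rw [sum_comm, ← r3]
    rw [r2, r3, r4]
    have r5 : (c₃ * (A / T.card)) ^ 2 * (S + S) ≤ τ * A ^ 2 := by
      calc (c₃ * (A / T.card)) ^ 2 * (S + S) = (A / T.card) ^ 2 * (2 * c₃ ^ 2 * S) := by ring
        _ ≤ (A / T.card) ^ 2 * (τ * (T.card : ℝ) ^ 2) := mul_le_mul_of_nonneg_left hsum (sq_nonneg _)
        _ = τ * A ^ 2 := by field_simp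
    linarith
  -- the diagonal terms
  have hdg : ∑ j ∈ T, (1 + ll w 0 X ^ 2 * gam w X * (1 - gam w X) + (0 - 1) * rX w 0 X ^ 2 * ej w X j) ^ K ≤ τ * A ^ 2 := by
    have g1 : ∀ j ∈ T, (1 + ll w 0 X ^ 2 * gam w X * (1 - gam w X) + (0 - 1) * rX w 0 X ^ 2 * ej w X j) ^ K ≤
        Aj j * ((c₃ * (A / T.card)) * Real.exp (K / Real.log X + C₄)) := by
      intro j hj
      refine (h3 K hKL j (hT hj)).trans ?_
      have h9 := hAj0 j hj
      have h10 := hAjle j hj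
      calc (aj w 0 X j ^ K) ^ 2 * Real.exp (K / Real.log X + C₄) = Aj j * (Aj j * Real.exp (K / Real.log X + C₄)) := by simp only [hAj]; ring
        _ ≤ _ := mul_le_mul_of_nonneg_left (mul_le_mul_of_nonneg_right h10 (Real.exp_pos _).le) h9.le
    refine (sum_le_sum g1).trans ?_
    rw [← sum_mul]
    have g2 : (c₃ * Real.exp (K / Real.log X + C₄)) / T.card ≤ τ := by
      rw [div_le_iff₀ hT0]; exact hdiagT
    calc A * ((c₃ * (A / T.card)) * Real.exp (K / Real.log X + C₄)) = ((c₃ * Real.exp (K / Real.log X + C₄)) / T.card) * A ^ 2 := by ring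
      _ ≤ τ * A ^ 2 := mul_le_mul_of_nonneg_right g2 (sq_nonneg _)
  -- the moments of the weighted count
  set Z : (Fin K → ℕ) → ℝ := fun h => ∑ j ∈ T, Gj w 0 X j h with hZ
  have hpos : ∀ j ∈ T, 0 < j := fun j hj => (mem_Icc.1 (hT hj)).1
  have hfirst : (1 - 2 * τ) * A ≤ EK X K Z := by
    simp only [hZ]
    rw [EK_sum]
    have : ∑ j ∈ T, EK X K (fun h => Gj w 0 X j h) = A := by
      rw [hA]
      apply sum_congr rfl
      intro j hj
      exact EK_Gj hX1 w 0 K (hpos j hj)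
    rw [this]
    nlinarith
  have hsecond : EK X K (fun h => Z h ^ 2) ≤ (1 + 2 * τ) * A ^ 2 := by
    have e1 : ∀ h ∈ Om X K, Z h ^ 2 = ∑ i ∈ T, ∑ j ∈ T.filter (fun j => j ≠ i), Gj w 0 X i h * Gj w 0 X j h +
        ∑ j ∈ T, (0 : ℝ) ^ Nm h (Ww w * j) * Fh w 0 X h ^ 2 := by
      intro h _
      simp only [hZ]
      rw [sq, sum_mul_sum, ← sum_add_distrib]
      apply sum_congr rfl
      intro i hi
      rw [← sum_filter_add_sum_filter_not T (fun j => j ≠ i)]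
      congr 1
      have e2 : T.filter (fun j => ¬ j ≠ i) = {i} := by
        ext j
        rw [mem_filter, mem_singleton, not_not]
        constructor
        · exact fun h => h.2
        · rintro rfl; exact ⟨hi, rfl⟩
      rw [e2, sum_singleton, Gj_eq]
      rcases Nat.eq_zero_or_pos (Nm h (Ww w * i)) with h0 | h0
      · rw [h0, pow_zero]; ring
      · rw [zero_pow (by omega)]; ring
    rw [EK_congr e1, EK_add, EK_sum, EK_sum]
    have e3 : ∑ i ∈ T, EK X K (fun h => ∑ j ∈ T.filter (fun j => j ≠ i), Gj w 0 X i h * Gj w 0 X j h) =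
        ∑ i ∈ T, ∑ j ∈ T.filter (fun j => j ≠ i), gg w 0 X i j ^ K := by
      apply sum_congr rfl
      intro i _
      rw [EK_sum]
      apply sum_congr rfl
      intro j _
      exact EK_GG X w 0 K i j
    have e4 : ∑ j ∈ T, EK X K (fun h => (0 : ℝ) ^ Nm h (Ww w * j) * Fh w 0 X h ^ 2) =
        ∑ j ∈ T, (1 + ll w 0 X ^ 2 * gam w X * (1 - gam w X) + (0 - 1) * rX w 0 X ^ 2 * ej w X j) ^ K := by
      apply sum_congr rfl
      intro j hj
      exact EK_tF hX1 w 0 K (hpos j hj)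
    rw [e3, e4]
    linarith
  have hcheb := PK_cheb hX1 hA0 hfirst hsecond
  refine le_trans (PK_mono ?_) (hcheb.trans (by linarith))
  intro h _ hh
  have : Z h = 0 := by
    simp only [hZ]
    apply sum_eq_zero
    intro j hj
    rw [Gj_eq, zero_pow (hh j hj), zero_mul]
  rw [this]
  positivity

end Pool.Agent.N735.CL
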