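import Mathlib
import Pool.Agent.H316R2.LS
import Pool.Agent.N735.CL.Sq1
import Pool.Agent.N735.CL.SharpL

set_option autoImplicit false
set_option maxHeartbeats 1000000

/-! The pairs of squares. -/

namespace Pool.Agent.N735.CL

open Finset Filter Topology

lemma sw_mul_le (w a b : ℕ) (ha : 0 < a) (hb : 0 < b) : sw w (a * b) ≤ sw w a + sw w b := by
  unfold sw
  rw [Nat.primeFactors_mul ha.ne' hb.ne', filter_union]
  have hnn : ∀ p ∈ (a.primeFactors.filter (fun p => w < p)) ∪ (b.primeFactors.filter (fun p => w < p)), (0 : ℝ) ≤ 1 / ((p : ℝ) - 1) := by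
    intro p hp
    have hpp : p.Prime := by
      rw [mem_union, mem_filter, mem_filter] at hp
      rcases hp with h | h
      · exact Nat.prime_of_mem_primeFactors h.1
      · exact Nat.prime_of_mem_primeFactors h.1
    have : (1 : ℝ) < p := by exact_mod_cast hpp.one_lt
    exact div_nonneg (by norm_num) (by linarith)
  rw [← sum_union_inter (s₁ := a.primeFactors.filter (fun p => w < p)) (s₂ := b.primeFactors.filter (fun p => w < p))]
  have : 0 ≤ ∑ p ∈ (a.primeFactors.filter (fun p => w < p)) ∩ (b.primeFactors.filter (fun p => w < p)), 1 / ((p : ℝ) - 1) :=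
    sum_nonneg (fun p hp => hnn p (mem_union_left _ (mem_inter.1 hp).1))
  linarith

lemma sw_W_mul (w d : ℕ) (hd : 0 < d) : sw w (Ww w * d) = sw w d := by
  unfold sw
  congr 1
  ext p
  rw [mem_filter, mem_filter, Nat.primeFactors_mul (Ww_pos w).ne' hd.ne', mem_union, primeFactors_Ww, mem_filter, mem_Icc]
  constructor
  · rintro ⟨h | h, h2⟩
    · omega
    · exact ⟨h, h2⟩
  · rintro ⟨h, h2⟩
    exact ⟨Or.inr h, h2⟩

/-- the convexity inequality -/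
lemma conv_ineq (w a b : ℕ) (ha : 0 < a) (hb : 0 < b) (c s : ℝ) (hc : 0 ≤ c) :
    Real.exp (c * (Real.exp (sw w (a * b)) - s)) ≤
      (Real.exp (c * (Real.exp (2 * sw w a) - s)) + Real.exp (c * (Real.exp (2 * sw w b) - s))) / 2 := by
  have h1 := sw_mul_le w a b ha hb
  have h2 : Real.exp (sw w (a * b)) ≤ (Real.exp (2 * sw w a) + Real.exp (2 * sw w b)) / 2 := by
    refine (Real.exp_le_exp.2 h1).trans ?_
    rw [Real.exp_add]
    have e1 : Real.exp (2 * sw w a) = Real.exp (sw w a) ^ 2 := by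
      rw [← Real.exp_nat_mul]; push_cast; ring_nf
    have e2 : Real.exp (2 * sw w b) = Real.exp (sw w b) ^ 2 := by
      rw [← Real.exp_nat_mul]; push_cast; ring_nf
    rw [e1, e2]
    nlinarith [sq_nonneg (Real.exp (sw w a) - Real.exp (sw w b))]
  have h3 : c * (Real.exp (sw w (a * b)) - s) ≤ (c * (Real.exp (2 * sw w a) - s)) / 2 + (c * (Real.exp (2 * sw w b) - s)) / 2 := by
    have := mul_le_mul_of_nonneg_left h2 hc
    linarith
  refine (Real.exp_le_exp.2 h3).trans ?_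
  rw [Real.exp_add]
  set u := c * (Real.exp (2 * sw w a) - s) with hu
  set v := c * (Real.exp (2 * sw w b) - s) with hv
  have e1 : Real.exp u = Real.exp (u / 2) ^ 2 := by
    rw [← Real.exp_nat_mul]; congr 1; push_cast; ring
  have e2 : Real.exp v = Real.exp (v / 2) ^ 2 := by
    rw [← Real.exp_nat_mul]; congr 1; push_cast; ring
  rw [e1, e2]
  nlinarith [sq_nonneg (Real.exp (u / 2) - Real.exp (v / 2))]

lemma row_sub (F : ℕ → ℝ) (j : ℕ) : ∑ i ∈ Icc 1 (j - 1), F (j - i) = ∑ d ∈ Icc 1 (j - 1), F d := by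
  apply sum_nbij' (fun i => j - i) (fun d => j - d)
  · intro i hi; rw [mem_Icc] at hi ⊢; omega
  · intro i hi; rw [mem_Icc] at hi ⊢; omega
  · intro i hi; rw [mem_Icc] at hi; omega
  · intro i hi; rw [mem_Icc] at hi; omega
  · intro i _; rfl

lemma row_add (F : ℕ → ℝ) (j : ℕ) (hj : 1 ≤ j) : ∑ i ∈ Icc 1 (j - 1), F (j + i) = ∑ s ∈ Icc 1 (2 * j - 1), F s - ∑ s ∈ Icc 1 j, F s := by
  have h1 : ∑ i ∈ Icc 1 (j - 1), F (j + i) = ∑ s ∈ Icc (j + 1) (2 * j - 1), F s := by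
    apply sum_nbij' (fun i => j + i) (fun s => s - j)
    · intro i hi; rw [mem_Icc] at hi ⊢; omega
    · intro i hi; rw [mem_Icc] at hi ⊢; omega
    · intro i hi; rw [mem_Icc] at hi; simp
    · intro i hi; rw [mem_Icc] at hi; omega
    · intro i _; rfl
  have h2 : Icc 1 (2 * j - 1) = Icc 1 j ∪ Icc (j + 1) (2 * j - 1) := by
    ext s; rw [mem_union, mem_Icc, mem_Icc, mem_Icc]; omega
  rw [h1, h2, sum_union]
  · ring
  · rw [disjoint_left]
    intro s hs hs2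
    rw [mem_Icc] at hs hs2
    omega

/-- the rows -/
lemma row_le (F : ℕ → ℝ) (τ : ℝ) (hτ : 0 ≤ τ) (hF1 : ∀ d, 1 ≤ F d) (hF : ∀ J : ℕ, ∑ d ∈ Icc 1 J, F d ≤ J * (1 + τ)) (j : ℕ) (hj : 1 ≤ j) :
    ∑ i ∈ Icc 1 (j - 1), (F (j - i) + F (j + i)) / 2 ≤ ((j : ℝ) - 1) + 2 * τ * j := by
  rw [← sum_div, sum_add_distrib, row_sub, row_add F j hj]
  have h1 := hF (j - 1)
  have h2 := hF (2 * j - 1)
  have h3 : (j : ℝ) ≤ ∑ s ∈ Icc 1 j, F s := by
    have : ∑ s ∈ Icc 1 j, (1 : ℝ) ≤ ∑ s ∈ Icc 1 j, F s := sum_le_sum (fun s _ => hF1 s)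
    simpa using this
  have e1 : ((j - 1 : ℕ) : ℝ) = j - 1 := by rw [Nat.cast_sub hj]; norm_num
  have e2 : ((2 * j - 1 : ℕ) : ℝ) = 2 * j - 1 := by rw [Nat.cast_sub (by omega)]; push_cast; ring
  rw [e1] at h1
  rw [e2] at h2
  have hj0 : (0 : ℝ) ≤ j := Nat.cast_nonneg _
  nlinarith

lemma row_le' (F : ℕ → ℝ) (C : ℝ) (hF0 : ∀ d, 0 ≤ F d) (hF : ∀ J : ℕ, ∑ d ∈ Icc 1 J, F d ≤ J * C) (j : ℕ) (hj : 1 ≤ j) :
    ∑ i ∈ Icc 1 (j - 1), (F (j - i) + F (j + i)) / 2 ≤ 2 * C * j := by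
  rw [← sum_div, sum_add_distrib, row_sub, row_add F j hj]
  have h1 := hF (j - 1)
  have h2 := hF (2 * j - 1)
  have h3 : 0 ≤ ∑ s ∈ Icc 1 j, F s := sum_nonneg (fun s _ => hF0 s)
  have hC : 0 ≤ C := by
    have := (sum_nonneg (s := Icc 1 1) (fun s _ => hF0 s)).trans (hF 1)
    simpa using this
  have e1 : ((j - 1 : ℕ) : ℝ) = j - 1 := by rw [Nat.cast_sub hj]; norm_num
  have e2 : ((2 * j - 1 : ℕ) : ℝ) = 2 * j - 1 := by rw [Nat.cast_sub (by omega)]; push_cast; ring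
  rw [e1] at h1
  rw [e2] at h2
  have hj0 : (0 : ℝ) ≤ j := Nat.cast_nonneg _
  nlinarith

lemma sum_rows (I : ℕ) (g : ℕ → ℕ → ℝ) (C : ℝ) (hC : 0 ≤ C) (h : ∀ j ∈ Icc 1 I, ∑ i ∈ Icc 1 (j - 1), g i j ≤ C * j) :
    ∑ j ∈ Icc 1 I, ∑ i ∈ Icc 1 (j - 1), g i j ≤ C * (I : ℝ) ^ 2 := by
  refine (sum_le_sum h).trans ?_
  have : ∀ j ∈ Icc 1 I, C * (j : ℝ) ≤ C * I := fun j hj => mul_le_mul_of_nonneg_left (by exact_mod_cast (mem_Icc.1 hj).2) hC
  refine (sum_le_sum this).trans (le_of_eq ?_)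
  rw [sum_const, nsmul_eq_mul, Nat.card_Icc, Nat.add_sub_cancel]
  ring

lemma sq_diff (i j : ℕ) (hij : i < j) : j ^ 2 - i ^ 2 = (j - i) * (j + i) := by
  rw [Nat.sq_sub_sq, mul_comm]

/-- the number of the pairs with a difference in a sparse set -/
lemma pairs_count (X : ℕ) (hX : 1 ≤ X) (w I : ℕ) (hI : (Ww w * I) ^ 2 ≤ X) (Ex : Finset ℕ) :
    ((((Icc 1 I) ×ˢ (Icc 1 I)).filter (fun x : ℕ × ℕ => x.1 < x.2 ∧ Ww w * (Ww w * (x.2 ^ 2 - x.1 ^ 2)) ∈ Ex)).card : ℝ) ^ 2 ≤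
      Ex.card * (X * (1 + Real.log X) ^ 4) := by
  classical
  set P := ((Icc 1 I) ×ˢ (Icc 1 I)).filter (fun x : ℕ × ℕ => x.1 < x.2 ∧ Ww w * (Ww w * (x.2 ^ 2 - x.1 ^ 2)) ∈ Ex) with hP
  have hW := Ww_pos w
  -- the differences
  set D := (Icc 1 X).filter (fun d => Ww w * (Ww w * d) ∈ Ex) with hD
  have hDE : D.card ≤ Ex.card := by
    apply card_le_card_of_injOn (fun d => Ww w * (Ww w * d))
    · intro d hd
      rw [mem_coe, hD, mem_filter] at hd
      exact hd.2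
    · intro a _ b _ hab
      exact Nat.eq_of_mul_eq_mul_left hW (Nat.eq_of_mul_eq_mul_left hW hab)
  have hfib : ∀ x ∈ P, x.2 ^ 2 - x.1 ^ 2 ∈ D := by
    intro x hx
    rw [hP, mem_filter, mem_product, mem_Icc, mem_Icc] at hx
    obtain ⟨⟨h1, h2⟩, h3, h4⟩ := hx
    rw [hD, mem_filter, mem_Icc]
    have h5 : x.1 ^ 2 < x.2 ^ 2 := Nat.pow_lt_pow_left h3 (by norm_num)
    have h6 : x.2 ^ 2 ≤ X := by
      refine le_trans ?_ hI
      apply Nat.pow_le_pow_left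
      nlinarith
    exact ⟨⟨by omega, by omega⟩, h4⟩
  have hcard : P.card = ∑ d ∈ D, (P.filter (fun x => x.2 ^ 2 - x.1 ^ 2 = d)).card :=
    card_eq_sum_card_fiberwise hfib
  have hle : ∀ d ∈ D, (P.filter (fun x => x.2 ^ 2 - x.1 ^ 2 = d)).card ≤ d.divisors.card := by
    intro d hd
    have hd0 : 0 < d := (mem_Icc.1 (mem_filter.1 hd).1).1
    apply card_le_card_of_injOn (fun x => x.2 - x.1)
    · intro x hx
      rw [mem_coe, mem_filter, hP, mem_filter] at hx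
      rw [mem_coe, Nat.mem_divisors]
      obtain ⟨⟨_, h1, _⟩, h2⟩ := hx
      rw [sq_diff _ _ h1] at h2
      exact ⟨⟨x.2 + x.1, h2.symm⟩, hd0.ne'⟩
    · intro x hx y hy hxy
      rw [mem_coe, mem_filter, hP, mem_filter] at hx hy
      obtain ⟨⟨_, h1, _⟩, h2⟩ := hx
      obtain ⟨⟨_, h3, _⟩, h4⟩ := hy
      rw [sq_diff _ _ h1] at h2
      rw [sq_diff _ _ h3] at h4
      simp only at hxy
      rw [← h4, hxy] at h2
      have h5 : x.2 + x.1 = y.2 + y.1 := Nat.eq_of_mul_eq_mul_left (by omega) h2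
      ext <;> omega
  have h1 : (P.card : ℝ) ≤ ∑ d ∈ D, (d.divisors.card : ℝ) := by
    rw [hcard]
    push_cast
    exact sum_le_sum (fun d hd => by exact_mod_cast hle d hd)
  have h2 := sq_sum_le_card_mul_sum_sq (s := D) (f := fun d => (d.divisors.card : ℝ))
  have h3 : ∑ d ∈ D, (d.divisors.card : ℝ) ^ 2 ≤ X * (1 + Real.log X) ^ 4 := by
    refine le_trans ?_ (mul_le_mul_of_nonneg_left (Pool.Agent.H316R2.tau_sq_sum_le X) (Nat.cast_nonneg X))
    rw [mul_sum]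
    refine (sum_le_sum (g := fun d : ℕ => (X : ℝ) * ((d.divisors.card : ℝ) ^ 2 / d)) ?_).trans (sum_le_sum_of_subset_of_nonneg (filter_subset _ _) ?_)
    · intro d hd
      have hd1 := mem_Icc.1 (mem_filter.1 hd).1
      have hd0 : (0 : ℝ) < d := by exact_mod_cast hd1.1
      have hdX : (d : ℝ) ≤ X := by exact_mod_cast hd1.2
      have : (X : ℝ) * ((d.divisors.card : ℝ) ^ 2 / d) = (d.divisors.card : ℝ) ^ 2 * (X / d) := by ring
      rw [this]
      apply le_mul_of_one_le_right (by positivity)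
      rw [le_div_iff₀ hd0]; linarith
    · intro d _ _; positivity
  calc (P.card : ℝ) ^ 2 ≤ (∑ d ∈ D, (d.divisors.card : ℝ)) ^ 2 := pow_le_pow_left₀ (Nat.cast_nonneg _) h1 2
    _ ≤ (D.card : ℝ) * ∑ d ∈ D, (d.divisors.card : ℝ) ^ 2 := h2
    _ ≤ Ex.card * (X * (1 + Real.log X) ^ 4) := by
        apply mul_le_mul (by exact_mod_cast hDE) h3 _ (Nat.cast_nonneg _)
        exact sum_nonneg (fun d _ => sq_nonneg _)

end Pool.Agent.N735.CL
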