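import Mathlib
import Pool.Agent.N735.CL.Ldp

set_option autoImplicit false
set_option maxHeartbeats 2000000

/-! The large deviation bounds, uniformly in the level. -/

namespace Pool.Agent.N735.CL

open Finset Filter Topology

/-- a finite union of exceptional sets -/
lemma PK_exists {X K : ℕ} {ι : Type*} (s : Finset ι) (B : ι → (Fin K → ℕ) → Prop) :
    PK X K (fun v => ∃ j ∈ s, B j v) ≤ ∑ j ∈ s, PK X K (B j) := by
  classical
  unfold PK
  rw [← EK_sum]
  apply EK_mono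
  intro v _
  split_ifs with h
  · obtain ⟨j, hj, hB⟩ := h
    refine le_trans ?_ (single_le_sum (f := fun j => if B j v then (1 : ℝ) else 0) (fun i _ => by split_ifs <;> norm_num) hj)
    rw [if_pos hB]
  · exact sum_nonneg (fun i _ => by split_ifs <;> norm_num)

lemma net (a b η : ℝ) (hab : a ≤ b) (hη : 0 < η) : ∃ S : Finset ℝ, (∀ s ∈ S, a ≤ s ∧ s ≤ b) ∧
    ∀ r, a ≤ r → r ≤ b → (∃ s ∈ S, s ≤ r ∧ r ≤ s + η) ∧ (∃ t ∈ S, r ≤ t ∧ t ≤ r + η) := by
  classical
  refine ⟨(range (⌈(b - a) / η⌉₊ + 1)).image (fun j : ℕ => min b (a + j * η)), ?_, ?_⟩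
  · intro s hs
    obtain ⟨j, _, rfl⟩ := mem_image.1 hs
    refine ⟨le_min hab ?_, min_le_left _ _⟩
    have : 0 ≤ (j : ℝ) * η := by positivity
    linarith
  · intro r h1 h2
    have h0 : 0 ≤ (r - a) / η := div_nonneg (by linarith) hη.le
    have hle : (r - a) / η ≤ (b - a) / η := div_le_div_of_nonneg_right (by linarith) hη.le
    have e : (r - a) / η * η = r - a := div_mul_cancel₀ _ hη.ne'
    constructor
    · refine ⟨min b (a + (⌊(r - a) / η⌋₊ : ℝ) * η), mem_image.2 ⟨⌊(r - a) / η⌋₊, ?_, rfl⟩, ?_, ?_⟩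
      · rw [mem_range]
        have h3 : (⌊(r - a) / η⌋₊ : ℝ) ≤ ⌈(b - a) / η⌉₊ := (Nat.floor_le h0).trans (hle.trans (Nat.le_ceil _))
        have : ⌊(r - a) / η⌋₊ ≤ ⌈(b - a) / η⌉₊ := by exact_mod_cast h3
        omega
      · refine (min_le_right _ _).trans ?_
        have := mul_le_mul_of_nonneg_right (Nat.floor_le h0) hη.le
        linarith
      · have h4 := (Nat.lt_floor_add_one ((r - a) / η)).le
        have h5 := mul_le_mul_of_nonneg_right h4 hη.le
        rw [← sub_le_iff_le_add]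
        exact le_min (by linarith) (by linarith)
    · refine ⟨min b (a + (⌈(r - a) / η⌉₊ : ℝ) * η), mem_image.2 ⟨⌈(r - a) / η⌉₊, ?_, rfl⟩, ?_, ?_⟩
      · rw [mem_range]
        have : ⌈(r - a) / η⌉₊ ≤ ⌈(b - a) / η⌉₊ := Nat.ceil_mono hle
        omega
      · have h4 := Nat.le_ceil ((r - a) / η)
        have h5 := mul_le_mul_of_nonneg_right h4 hη.le
        exact le_min h2 (by linarith)
      · refine (min_le_right _ _).trans ?_
        have h4 := (Nat.ceil_lt_add_one h0).le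
        have h5 := mul_le_mul_of_nonneg_right h4 hη.le
        linarith

lemma rate_cont (κ : ℝ) (hκ : 0 < κ) : Continuous (fun r : ℝ => rate κ r) := by
  have h : (fun r : ℝ => rate κ r) = fun r => κ - r + κ * ((r / κ) * Real.log (r / κ)) := by
    funext r
    unfold rate
    field_simp
  rw [h]
  have h2 := Real.continuous_mul_log.comp (continuous_id.div_const κ)
  fun_prop

/-- uniform continuity on a compact interval -/
lemma rate_unif (κ R : ℝ) (hκ : 0 < κ) (δ : ℝ) (hδ : 0 < δ) : ∃ η : ℝ, 0 < η ∧ ∀ r s : ℝ, 0 ≤ r → r ≤ R → 0 ≤ s → s ≤ R →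
    |r - s| ≤ η → |rate κ r - rate κ s| ≤ δ := by
  have h1 : UniformContinuousOn (fun r : ℝ => rate κ r) (Set.Icc 0 R) :=
    isCompact_Icc.uniformContinuousOn_of_continuous (rate_cont κ hκ).continuousOn
  rw [Metric.uniformContinuousOn_iff] at h1
  obtain ⟨ε, hε, h2⟩ := h1 δ hδ
  refine ⟨ε / 2, by positivity, fun r s hr hr' hs hs' hrs => ?_⟩
  have := h2 r ⟨hr, hr'⟩ s ⟨hs, hs'⟩ (by rw [Real.dist_eq]; linarith)
  rw [Real.dist_eq] at this
  exact this.le

lemma rate_big (κ : ℝ) (hκ : 0 < κ) (r : ℝ) (hr : κ * Real.exp (1 + 3 / κ) ≤ r) : 3 ≤ rate κ r := by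
  have he : 1 ≤ Real.exp (1 + 3 / κ) := Real.one_le_exp (by positivity)
  have hκr : κ ≤ r := by nlinarith
  have hr0 : 0 < r := by linarith
  have h1 : 1 + 3 / κ ≤ Real.log (r / κ) := by
    rw [Real.le_log_iff_exp_le (by positivity), le_div_iff₀ hκ]
    linarith
  have h2 : r * (1 + 3 / κ) ≤ r * Real.log (r / κ) := mul_le_mul_of_nonneg_left h1 hr0.le
  have h3 : 3 ≤ r * (3 / κ) := by
    rw [← mul_div_assoc, le_div_iff₀ hκ]; nlinarith
  unfold rate
  nlinarith

/-- the bounds for one level -/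
def okG (κ δ r : ℝ) (X : ℕ) {K : ℕ} (h : Fin K → ℕ) : Prop :=
  (cntGe r X h : ℝ) ≤ Real.exp ((1 - rate κ r + δ) * Real.log X) ∧
    (rate κ r ≤ 1 - δ → Real.exp ((1 - rate κ r - δ) * Real.log X) ≤ cntGe r X h)

def okL (κ δ r : ℝ) (X : ℕ) {K : ℕ} (h : Fin K → ℕ) : Prop :=
  (cntLe r X h : ℝ) ≤ Real.exp ((1 - rate κ r + δ) * Real.log X) ∧
    (rate κ r ≤ 1 - δ → Real.exp ((1 - rate κ r - δ) * Real.log X) ≤ cntLe r X h)

lemma cntGe_anti {r s : ℝ} (hrs : r ≤ s) {X : ℕ} (_hX : 1 ≤ X) {K : ℕ} (h : Fin K → ℕ) : cntGe s X h ≤ cntGe r X h := by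
  classical
  unfold cntGe
  apply card_le_card
  intro m hm
  rw [mem_filter] at hm ⊢
  have hL : 0 ≤ Real.log (X : ℝ) := Real.log_natCast_nonneg X
  exact ⟨hm.1, (mul_le_mul_of_nonneg_right hrs hL).trans hm.2⟩

lemma cntLe_mono {r s : ℝ} (hrs : r ≤ s) {X : ℕ} (_hX : 1 ≤ X) {K : ℕ} (h : Fin K → ℕ) : cntLe r X h ≤ cntLe s X h := by
  classical
  unfold cntLe
  apply card_le_card
  intro m hm
  rw [mem_filter] at hm ⊢
  have hL : 0 ≤ Real.log (X : ℝ) := Real.log_natCast_nonneg X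
  exact ⟨hm.1, hm.2.trans (mul_le_mul_of_nonneg_right hrs hL)⟩

section

variable (κ : ℝ) (K : ℕ → ℕ) (hK : Tendsto (fun X => (K X : ℝ) / Real.log X ^ 2) atTop (𝓝 κ)) (hκ : 0 < κ)

include hK hκ in
theorem ldp_G (δ θ : ℝ) (hδ : 0 < δ) (hδ1 : δ ≤ 1) (hθ : 0 < θ) : ∀ᶠ X : ℕ in atTop,
    PK X (K X) (fun h => ¬ ∀ r : ℝ, κ ≤ r → okG κ δ r X h) ≤ θ := by
  classical
  set R := κ * Real.exp (1 + 3 / κ) with hR
  have he : 1 ≤ Real.exp (1 + 3 / κ) := Real.one_le_exp (by positivity)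
  have hκR : κ ≤ R := by rw [hR]; nlinarith
  obtain ⟨η, hη, hun⟩ := rate_unif κ R hκ (δ / 2) (by positivity)
  obtain ⟨S, hS1, hS2⟩ := net κ R η hκR hη
  set θ' := θ / (2 * (S.card + 1)) with hθ'
  have hθ'0 : 0 < θ' := by positivity
  have hev1 : ∀ᶠ X : ℕ in atTop, ∀ s ∈ S, PK X (K X) (fun h => Real.exp ((1 - rate κ s + δ / 2) * Real.log X) ≤ (cntGe s X h : ℝ)) ≤ θ' :=
    (eventually_all_finset S).2 (fun s hs => upper_ge κ K hK hκ s (hS1 s hs).1 (δ / 2) θ' (by positivity) hθ'0)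
  have hev2 : ∀ᶠ X : ℕ in atTop, ∀ s ∈ S, rate κ s < 1 → PK X (K X) (fun h => (cntGe s X h : ℝ) < Real.exp ((1 - rate κ s - δ / 2) * Real.log X)) ≤ θ' := by
    refine (eventually_all_finset S).2 (fun s hs => ?_)
    by_cases hlt : rate κ s < 1
    · filter_upwards [lower_ge κ K hK hκ s (hS1 s hs).1 hlt (δ / 2) θ' (by positivity) hθ'0] with X hX _
      exact hX
    · exact Eventually.of_forall (fun X h => absurd h hlt)
  filter_upwards [hev1, hev2, eventually_ge_atTop 1, tends_log.eventually_ge_atTop 1] with X h1 h2 h3 h4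
  have hL : 0 < Real.log (X : ℝ) := by linarith
  set L := Real.log (X : ℝ) with hLd
  set B1 : ℝ → (Fin (K X) → ℕ) → Prop := fun s h => Real.exp ((1 - rate κ s + δ / 2) * L) ≤ (cntGe s X h : ℝ) with hB1
  set B2 : ℝ → (Fin (K X) → ℕ) → Prop := fun s h => rate κ s < 1 ∧ (cntGe s X h : ℝ) < Real.exp ((1 - rate κ s - δ / 2) * L) with hB2
  have h5 : PK X (K X) (fun h => ¬ ∀ r : ℝ, κ ≤ r → okG κ δ r X h) ≤ PK X (K X) (fun h => (∃ s ∈ S, B1 s h) ∨ (∃ s ∈ S, B2 s h)) := by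
    apply PK_mono
    intro h _ hh
    by_contra hc
    push Not at hc
    apply hh
    intro r hr
    have c1 : ∀ s ∈ S, (cntGe s X h : ℝ) < Real.exp ((1 - rate κ s + δ / 2) * L) := fun s hs => not_le.1 (hc.1 s hs)
    have c2 : ∀ s ∈ S, rate κ s < 1 → Real.exp ((1 - rate κ s - δ / 2) * L) ≤ (cntGe s X h : ℝ) := by
      intro s hs hlt
      by_contra hcc
      exact hc.2 s hs ⟨hlt, not_le.1 hcc⟩
    rcases le_or_gt r R with hrR | hrR
    · obtain ⟨⟨s, hs, hs1, hs2⟩, ⟨t, ht, ht1, ht2⟩⟩ := hS2 r hr hrR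
      have hr0 : 0 ≤ r := by linarith
      constructor
      · have hd := hun r s hr0 hrR (hκ.le.trans (hS1 s hs).1) (hS1 s hs).2 (by rw [abs_le]; constructor <;> linarith)
        have h6 : (cntGe r X h : ℝ) ≤ cntGe s X h := by exact_mod_cast cntGe_anti hs1 h3 h
        refine h6.trans ((c1 s hs).le.trans (Real.exp_le_exp.2 (mul_le_mul_of_nonneg_right ?_ hL.le)))
        linarith [(abs_le.1 hd).2]
      · intro hr1
        have hd := hun r t hr0 hrR (hκ.le.trans (hS1 t ht).1) (hS1 t ht).2 (by rw [abs_le]; constructor <;> linarith)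
        have hd' := abs_le.1 hd
        have h6 : (cntGe t X h : ℝ) ≤ cntGe r X h := by exact_mod_cast cntGe_anti ht1 h3 h
        refine le_trans (Real.exp_le_exp.2 (mul_le_mul_of_nonneg_right ?_ hL.le)) ((c2 t ht (by linarith)).trans h6)
        linarith
    · have hb := rate_big κ hκ r (by rw [← hR]; exact hrR.le)
      have hz : cntGe r X h = 0 := by
        obtain ⟨⟨s, hs, hs1, hs2⟩, ⟨t, ht, ht1, ht2⟩⟩ := hS2 R hκR le_rfl
        have htR : t = R := le_antisymm (hS1 t ht).2 ht1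
        have h6 := c1 t ht
        rw [htR] at h6
        have hb' := rate_big κ hκ R (by rw [← hR])
        have h7 : (cntGe R X h : ℝ) < 1 := by
          refine h6.trans_le (Real.exp_le_one_iff.2 ?_)
          apply mul_nonpos_of_nonpos_of_nonneg _ hL.le
          linarith
        have h8 : cntGe R X h = 0 := by
          have : cntGe R X h < 1 := by exact_mod_cast h7
          omega
        have := cntGe_anti hrR.le h3 h
        omega
      refine ⟨?_, fun hr1 => ?_⟩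
      · rw [hz, Nat.cast_zero]; exact (Real.exp_pos _).le
      · exfalso; linarith
  refine h5.trans ((PK_or _ _).trans ?_)
  have h6 : PK X (K X) (fun h => ∃ s ∈ S, B1 s h) ≤ S.card * θ' := by
    refine (PK_exists S B1).trans ((sum_le_sum (fun s hs => h1 s hs)).trans ?_)
    rw [sum_const, nsmul_eq_mul]
  have h7 : PK X (K X) (fun h => ∃ s ∈ S, B2 s h) ≤ S.card * θ' := by
    have : ∀ s ∈ S, PK X (K X) (B2 s) ≤ θ' := by
      intro s hs
      by_cases hlt : rate κ s < 1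
      · exact (PK_mono (fun h _ hh => hh.2)).trans (h2 s hs hlt)
      · refine le_trans (le_of_eq ?_) hθ'0.le
        have e : PK X (K X) (B2 s) = EK X (K X) (fun _ => 0) := by
          unfold PK
          apply EK_congr
          intro v _
          rw [if_neg (fun hh => hlt hh.1)]
        rw [e, EK_const h3]
    refine (PK_exists S B2).trans ((sum_le_sum this).trans ?_)
    rw [sum_const, nsmul_eq_mul]
  have h8 : (S.card : ℝ) * θ' ≤ θ / 2 := by
    rw [hθ', mul_div_assoc', div_le_div_iff₀ (by positivity) (by norm_num)]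
    nlinarith
  linarith

include hK hκ in
theorem ldp_L (δ θ : ℝ) (hδ : 0 < δ) (hθ : 0 < θ) : ∀ᶠ X : ℕ in atTop,
    PK X (K X) (fun h => ¬ ∀ r : ℝ, 0 ≤ r → r ≤ κ → okL κ δ r X h) ≤ θ := by
  classical
  obtain ⟨η, hη, hun⟩ := rate_unif κ κ hκ (δ / 2) (by positivity)
  obtain ⟨S, hS1, hS2⟩ := net 0 κ η hκ.le hη
  set θ' := θ / (2 * (S.card + 1)) with hθ'
  have hθ'0 : 0 < θ' := by positivity
  have hev1 : ∀ᶠ X : ℕ in atTop, ∀ s ∈ S, PK X (K X) (fun h => Real.exp ((1 - rate κ s + δ / 2) * Real.log X) ≤ (cntLe s X h : ℝ)) ≤ θ' :=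
    (eventually_all_finset S).2 (fun s hs => upper_le κ K hK hκ s (hS1 s hs).1 (hS1 s hs).2 (δ / 2) θ' (by positivity) hθ'0)
  have hev2 : ∀ᶠ X : ℕ in atTop, ∀ s ∈ S, rate κ s < 1 → PK X (K X) (fun h => (cntLe s X h : ℝ) < Real.exp ((1 - rate κ s - δ / 2) * Real.log X)) ≤ θ' := by
    refine (eventually_all_finset S).2 (fun s hs => ?_)
    by_cases hlt : rate κ s < 1
    · filter_upwards [lower_le κ K hK hκ s (hS1 s hs).1 (hS1 s hs).2 hlt (δ / 2) θ' (by positivity) hθ'0] with X hX _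
      exact hX
    · exact Eventually.of_forall (fun X h => absurd h hlt)
  filter_upwards [hev1, hev2, eventually_ge_atTop 1, tends_log.eventually_ge_atTop 1] with X h1 h2 h3 h4
  have hL : 0 < Real.log (X : ℝ) := by linarith
  set L := Real.log (X : ℝ) with hLd
  set B1 : ℝ → (Fin (K X) → ℕ) → Prop := fun s h => Real.exp ((1 - rate κ s + δ / 2) * L) ≤ (cntLe s X h : ℝ) with hB1
  set B2 : ℝ → (Fin (K X) → ℕ) → Prop := fun s h => rate κ s < 1 ∧ (cntLe s X h : ℝ) < Real.exp ((1 - rate κ s - δ / 2) * L) with hB2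
  have h5 : PK X (K X) (fun h => ¬ ∀ r : ℝ, 0 ≤ r → r ≤ κ → okL κ δ r X h) ≤ PK X (K X) (fun h => (∃ s ∈ S, B1 s h) ∨ (∃ s ∈ S, B2 s h)) := by
    apply PK_mono
    intro h _ hh
    by_contra hc
    push Not at hc
    apply hh
    intro r hr0 hr
    have c1 : ∀ s ∈ S, (cntLe s X h : ℝ) < Real.exp ((1 - rate κ s + δ / 2) * L) := fun s hs => not_le.1 (hc.1 s hs)
    have c2 : ∀ s ∈ S, rate κ s < 1 → Real.exp ((1 - rate κ s - δ / 2) * L) ≤ (cntLe s X h : ℝ) := by
      intro s hs hlt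
      by_contra hcc
      exact hc.2 s hs ⟨hlt, not_le.1 hcc⟩
    obtain ⟨⟨s, hs, hs1, hs2⟩, ⟨t, ht, ht1, ht2⟩⟩ := hS2 r hr0 hr
    constructor
    · have hd := hun r t hr0 hr (hS1 t ht).1 (hS1 t ht).2 (by rw [abs_le]; constructor <;> linarith)
      have h6 : (cntLe r X h : ℝ) ≤ cntLe t X h := by exact_mod_cast cntLe_mono ht1 h3 h
      refine h6.trans ((c1 t ht).le.trans (Real.exp_le_exp.2 (mul_le_mul_of_nonneg_right ?_ hL.le)))
      linarith [(abs_le.1 hd).2]
    · intro hr1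
      have hd := hun r s hr0 hr (hS1 s hs).1 (hS1 s hs).2 (by rw [abs_le]; constructor <;> linarith)
      have hd' := abs_le.1 hd
      have h6 : (cntLe s X h : ℝ) ≤ cntLe r X h := by exact_mod_cast cntLe_mono hs1 h3 h
      refine le_trans (Real.exp_le_exp.2 (mul_le_mul_of_nonneg_right ?_ hL.le)) ((c2 s hs (by linarith)).trans h6)
      linarith
  refine h5.trans ((PK_or _ _).trans ?_)
  have h6 : PK X (K X) (fun h => ∃ s ∈ S, B1 s h) ≤ S.card * θ' := by
    refine (PK_exists S B1).trans ((sum_le_sum (fun s hs => h1 s hs)).trans ?_)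
    rw [sum_const, nsmul_eq_mul]
  have h7 : PK X (K X) (fun h => ∃ s ∈ S, B2 s h) ≤ S.card * θ' := by
    have : ∀ s ∈ S, PK X (K X) (B2 s) ≤ θ' := by
      intro s hs
      by_cases hlt : rate κ s < 1
      · exact (PK_mono (fun h _ hh => hh.2)).trans (h2 s hs hlt)
      · refine le_trans (le_of_eq ?_) hθ'0.le
        have e : PK X (K X) (B2 s) = EK X (K X) (fun _ => 0) := by
          unfold PK
          apply EK_congr
          intro v _
          rw [if_neg (fun hh => hlt hh.1)]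
        rw [e, EK_const h3]
    refine (PK_exists S B2).trans ((sum_le_sum this).trans ?_)
    rw [sum_const, nsmul_eq_mul]
  have h8 : (S.card : ℝ) * θ' ≤ θ / 2 := by
    rw [hθ', mul_div_assoc', div_le_div_iff₀ (by positivity) (by norm_num)]
    nlinarith
  linarith

end

end Pool.Agent.N735.CL
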