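import Mathlib
import Pool.Agent.N735.CL.Sharp
import Pool.Agent.N735.CL.LdpU

set_option autoImplicit false
set_option maxHeartbeats 2000000

/-! Long patterns: the uniform law of large numbers. -/

namespace Pool.Agent.N735.CL

open Finset Filter Topology

/-- Chernoff's bound with the function `b ^ N` -/
lemma chern {X K m : ℕ} (hX : 1 ≤ X) {b : ℝ} (hb : 0 < b) (u E : ℝ) (B : (Fin K → ℕ) → Prop)
    (hB : ∀ h, B h → u ≤ Nm h m * Real.log b) (hE : (b - 1) * (K * E1 X (pr m)) ≤ E) :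
    PK X K B ≤ Real.exp (E - u) := by
  classical
  have h0 : PK X K B ≤ PK X K (fun h => Real.exp u ≤ b ^ Nm h m) := by
    apply PK_mono
    intro h _ hh
    have hbn : b ^ Nm h m = Real.exp (Nm h m * Real.log b) := by rw [Real.exp_nat_mul, Real.exp_log hb]
    rw [hbn]
    exact Real.exp_le_exp.2 (hB h hh)
  refine h0.trans ((PK_markov (fun h _ => pow_nonneg hb.le _) (Real.exp_pos _)).trans ?_)
  rw [EK_pow hX, div_le_iff₀ (Real.exp_pos _), ← Real.exp_add, sub_add_cancel]
  have hη0 := E1_pr_nonneg X m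
  have hη1 : E1 X (pr m) ≤ 1 := by
    rw [← E1_const hX 1]
    exact E1_mono (fun h _ => pr_le_one m h)
  set η := E1 X (pr m) with hη
  have h4 : 0 ≤ 1 + (b - 1) * η := by nlinarith
  calc (1 + (b - 1) * η) ^ K ≤ (Real.exp ((b - 1) * η)) ^ K := by
        apply pow_le_pow_left₀ h4
        linarith [Real.add_one_le_exp ((b - 1) * η)]
    _ = Real.exp (K * ((b - 1) * η)) := (Real.exp_nat_mul _ _).symm
    _ ≤ Real.exp E := Real.exp_le_exp.2 (by linarith)

lemma I_up (ε : ℝ) (hε : 0 < ε) : 0 < (1 + ε) * Real.log (1 + ε) - ε := by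
  have h1 := Real.log_lt_sub_one_of_pos (x := (1 + ε)⁻¹) (by positivity) (by
    intro h
    rw [inv_eq_one] at h
    linarith)
  rw [Real.log_inv] at h1
  have h2 : (1 + ε) * ((1 + ε)⁻¹ - 1) = - ε := by field_simp; ring
  nlinarith

lemma I_dn (ε : ℝ) (hε : 0 < ε) (hε1 : ε < 1) : 0 < ε + (1 - ε) * Real.log (1 - ε) := by
  have h0 : 0 < 1 - ε := by linarith
  have h1 := Real.log_lt_sub_one_of_pos (x := (1 - ε)⁻¹) (by positivity) (by
    intro h
    rw [inv_eq_one] at h
    linarith)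
  rw [Real.log_inv] at h1
  have h2 : (1 - ε) * ((1 - ε)⁻¹ - 1) = ε := by field_simp; ring
  nlinarith

/-- patterns which are much longer than `log ^ 2 X` -/
theorem lln (ε θ : ℝ) (hε : 0 < ε) (hθ : 0 < θ) : ∃ A : ℝ, 0 < A ∧ ∀ᶠ X : ℕ in atTop, ∀ K : ℕ,
    A * Real.log X ^ 2 ≤ K →
      PK X K (fun h => ∃ m ∈ Icc 1 X, ε * (K / Real.log X) < |(Nm h m : ℝ) - K / Real.log X|) ≤ θ := by
  obtain ⟨c, hc, hη⟩ := eta_precise
  set e := min ε (1 / 2) with he
  have he0 : 0 < e := lt_min hε (by norm_num)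
  have he1 : e < 1 := lt_of_le_of_lt (min_le_right _ _) (by norm_num)
  have heε : e ≤ ε := min_le_left _ _
  have hU := I_up e he0
  have hD := I_dn e he0 he1
  set IU := (1 + e) * Real.log (1 + e) - e with hIU
  set ID := e + (1 - e) * Real.log (1 - e) with hID
  set I := min IU ID with hI
  have hI0 : 0 < I := lt_min hU hD
  refine ⟨4 / I, by positivity, ?_⟩
  filter_upwards [hη, eventually_ge_atTop 1, tends_log.eventually_ge_atTop (2 * e * c / I + 1),
    tends_log.eventually_ge_atTop (|Real.log (θ / 2)| + 1)] with X h1 hX h3 h4 K hK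
  have hq : 0 ≤ 2 * e * c / I := by positivity
  have hL1 : 1 ≤ Real.log (X : ℝ) := by linarith
  have hL0 : 0 < Real.log (X : ℝ) := by linarith
  set L := Real.log (X : ℝ) with hL
  set M : ℝ := K / L with hM
  have hM0 : 0 ≤ M := by positivity
  have hML : 4 / I * L ≤ M := by
    rw [hM, le_div_iff₀ hL0]; nlinarith
  have hceL : e * (c / L) ≤ I / 2 := by
    rw [mul_div_assoc', div_le_iff₀ hL0]
    have h5 : 2 * e * c / I ≤ L := by linarith
    rw [div_le_iff₀ hI0] at h5
    linarith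
  have hKη : ∀ m ∈ Icc 1 X, |K * E1 X (pr m) - M| ≤ M * (c / L) := by
    intro m hm
    have h5 := h1 m (mem_Icc.1 hm).2
    have h6 : K * E1 X (pr m) - M = K * (E1 X (pr m) - 1 / L) := by rw [hM]; ring
    rw [h6, abs_mul, abs_of_nonneg (Nat.cast_nonneg K)]
    calc (K : ℝ) * |E1 X (pr m) - 1 / L| ≤ K * (c / L ^ 2) := mul_le_mul_of_nonneg_left h5 (Nat.cast_nonneg K)
      _ = M * (c / L) := by rw [hM]; field_simp
  -- the bound for one translate
  have hup : ∀ m ∈ Icc 1 X, PK X K (fun h => (1 + e) * M ≤ (Nm h m : ℝ)) ≤ Real.exp (-(2 * L)) := by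
    intro m hm
    have hb : 0 < 1 + e := by linarith
    have hlog : 0 ≤ Real.log (1 + e) := Real.log_nonneg (by linarith)
    refine (chern (m := m) hX hb ((1 + e) * M * Real.log (1 + e)) (e * (M + M * (c / L))) _ ?_ ?_).trans ?_
    · intro h hh
      exact mul_le_mul_of_nonneg_right hh hlog
    · have h5 := (abs_le.1 (hKη m hm)).2
      have e1 : 1 + e - 1 = e := by ring
      rw [e1]
      exact mul_le_mul_of_nonneg_left (by linarith) he0.le
    · apply Real.exp_le_exp.2
      have h6 : e * (M + M * (c / L)) - (1 + e) * M * Real.log (1 + e) = - (M * (IU - e * (c / L))) := by rw [hIU]; ring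
      rw [h6]
      have h7 : I / 2 ≤ IU - e * (c / L) := by
        have : I ≤ IU := min_le_left _ _
        linarith
      have h8 : 4 / I * L * (I / 2) ≤ M * (IU - e * (c / L)) := mul_le_mul hML h7 (by positivity) hM0
      have h9 : 4 / I * L * (I / 2) = 2 * L := by field_simp; ring
      linarith
  have hdn : ∀ m ∈ Icc 1 X, PK X K (fun h => (Nm h m : ℝ) ≤ (1 - e) * M) ≤ Real.exp (-(2 * L)) := by
    intro m hm
    have hb : 0 < 1 - e := by linarith
    have hlog : Real.log (1 - e) ≤ 0 := Real.log_nonpos hb.le (by linarith)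
    refine (chern (m := m) hX hb ((1 - e) * M * Real.log (1 - e)) (-e * (M - M * (c / L))) _ ?_ ?_).trans ?_
    · intro h hh
      exact mul_le_mul_of_nonpos_right hh hlog
    · have h5 := (abs_le.1 (hKη m hm)).1
      have e1 : 1 - e - 1 = -e := by ring
      rw [e1, neg_mul, neg_mul]
      apply neg_le_neg
      exact mul_le_mul_of_nonneg_left (by linarith) he0.le
    · apply Real.exp_le_exp.2
      have h6 : -e * (M - M * (c / L)) - (1 - e) * M * Real.log (1 - e) = - (M * (ID - e * (c / L))) := by rw [hID]; ring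
      rw [h6]
      have h7 : I / 2 ≤ ID - e * (c / L) := by
        have : I ≤ ID := min_le_right _ _
        linarith
      have h8 : 4 / I * L * (I / 2) ≤ M * (ID - e * (c / L)) := mul_le_mul hML h7 (by positivity) hM0
      have h9 : 4 / I * L * (I / 2) = 2 * L := by field_simp; ring
      linarith
  have h5 : PK X K (fun h => ∃ m ∈ Icc 1 X, ε * M < |(Nm h m : ℝ) - M|) ≤
      PK X K (fun h => (∃ m ∈ Icc 1 X, (1 + e) * M ≤ (Nm h m : ℝ)) ∨ (∃ m ∈ Icc 1 X, (Nm h m : ℝ) ≤ (1 - e) * M)) := by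
    apply PK_mono
    intro h _ hh
    obtain ⟨m, hm, hh⟩ := hh
    have h6 : e * M < |(Nm h m : ℝ) - M| := lt_of_le_of_lt (mul_le_mul_of_nonneg_right heε hM0) hh
    rcases lt_abs.1 h6 with h7 | h7
    · left; exact ⟨m, hm, by linarith⟩
    · right; exact ⟨m, hm, by linarith⟩
  refine h5.trans ((PK_or _ _).trans ?_)
  have hex : (X : ℝ) * Real.exp (-(2 * L)) ≤ θ / 2 := by
    have h6 : (X : ℝ) = Real.exp L := (exp_log_nat hX).symm
    rw [h6, ← Real.exp_add]
    have h7 : Real.log (θ / 2) ≥ -L := by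
      have := neg_abs_le (Real.log (θ / 2))
      linarith
    calc Real.exp (L + -(2 * L)) = Real.exp (-L) := by congr 1; ring
      _ ≤ Real.exp (Real.log (θ / 2)) := Real.exp_le_exp.2 h7
      _ = θ / 2 := Real.exp_log (by positivity)
  have h6 : PK X K (fun h => ∃ m ∈ Icc 1 X, (1 + e) * M ≤ (Nm h m : ℝ)) ≤ θ / 2 := by
    refine (PK_exists (Icc 1 X) (fun m h => (1 + e) * M ≤ (Nm h m : ℝ))).trans ((sum_le_sum hup).trans ?_)
    rw [sum_const, nsmul_eq_mul, Nat.card_Icc, Nat.add_sub_cancel]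
    exact hex
  have h7 : PK X K (fun h => ∃ m ∈ Icc 1 X, (Nm h m : ℝ) ≤ (1 - e) * M) ≤ θ / 2 := by
    refine (PK_exists (Icc 1 X) (fun m h => (Nm h m : ℝ) ≤ (1 - e) * M)).trans ((sum_le_sum hdn).trans ?_)
    rw [sum_const, nsmul_eq_mul, Nat.card_Icc, Nat.add_sub_cancel]
    exact hex
  linarith

end Pool.Agent.N735.CL
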