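import Mathlib
import Pool.Agent.N735.CL.Lln

set_option autoImplicit false
set_option maxHeartbeats 2000000

/-! Short patterns: the joint distribution of the number of primes in two translates. -/

namespace Pool.Agent.N735.CL

open Finset Filter Topology

lemma EK_succ (X K : ℕ) (Φ : (Fin (K + 1) → ℕ) → ℝ) :
    EK X (K + 1) Φ = E1 X (fun a => EK X K (fun t => Φ (Fin.cons a t))) := by
  unfold EK E1
  have h : ∑ h ∈ Om X (K + 1), Φ h = ∑ a ∈ Icc 1 X, ∑ t ∈ Om X K, Φ (Fin.cons a t) := by
    rw [← Finset.sum_product']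
    apply Finset.sum_nbij' (fun h => (h 0, Fin.tail h)) (fun x => Fin.cons x.1 x.2)
    · intro h hh
      rw [mem_Om] at hh
      rw [mem_product, mem_Om]
      exact ⟨hh 0, fun i => hh i.succ⟩
    · intro x hx
      rw [mem_product, mem_Om] at hx
      rw [mem_Om]
      intro i
      refine Fin.cases ?_ (fun j => ?_) i
      · simpa using hx.1
      · simpa using hx.2 j
    · intro h _
      simp
    · intro x _
      simp
    · intro h _
      simp
  rw [h, ← sum_div, div_div, ← pow_succ]

lemma Nm_cons {K : ℕ} (a : ℕ) (t : Fin K → ℕ) (m : ℕ) :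
    Nm (Fin.cons a t : Fin (K + 1) → ℕ) m = (if (m + a).Prime then 1 else 0) + Nm t m := by
  unfold Nm
  rw [card_filter, card_filter, Fin.sum_univ_succ]
  simp

/-- one more coordinate -/
lemma EK_FG {X : ℕ} (hX : 1 ≤ X) (K m m' : ℕ) (F G : ℕ → ℝ) :
    EK X (K + 1) (fun h => F (Nm h m) * G (Nm h m')) =
      (1 - E1 X (pr m) - E1 X (pr m') + E1 X (fun a => pr m a * pr m' a)) * EK X K (fun h => F (Nm h m) * G (Nm h m')) +
      (E1 X (pr m) - E1 X (fun a => pr m a * pr m' a)) * EK X K (fun h => F (Nm h m + 1) * G (Nm h m')) +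
      (E1 X (pr m') - E1 X (fun a => pr m a * pr m' a)) * EK X K (fun h => F (Nm h m) * G (Nm h m' + 1)) +
      E1 X (fun a => pr m a * pr m' a) * EK X K (fun h => F (Nm h m + 1) * G (Nm h m' + 1)) := by
  rw [EK_succ]
  set A := EK X K (fun h => F (Nm h m) * G (Nm h m')) with hA
  set B := EK X K (fun h => F (Nm h m + 1) * G (Nm h m')) with hB
  set C := EK X K (fun h => F (Nm h m) * G (Nm h m' + 1)) with hC
  set D := EK X K (fun h => F (Nm h m + 1) * G (Nm h m' + 1)) with hD
  have h1 : ∀ a ∈ Icc 1 X, EK X K (fun t => F (Nm (Fin.cons a t : Fin (K + 1) → ℕ) m) * G (Nm (Fin.cons a t : Fin (K + 1) → ℕ) m')) =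
      A + ((B - A) * pr m a + ((C - A) * pr m' a + (A - B - C + D) * (pr m a * pr m' a))) := by
    intro a _
    simp only [Nm_cons]
    unfold pr
    split_ifs with p1 p2 p2
    · have : EK X K (fun t => F (1 + Nm t m) * G (1 + Nm t m')) = D := by
        rw [hD]; apply EK_congr; intro v _; rw [add_comm 1, add_comm 1]
      rw [this]; ring
    · have : EK X K (fun t => F (1 + Nm t m) * G (0 + Nm t m')) = B := by
        rw [hB]; apply EK_congr; intro v _; rw [add_comm 1, zero_add]
      rw [this]; ring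
    · have : EK X K (fun t => F (0 + Nm t m) * G (1 + Nm t m')) = C := by
        rw [hC]; apply EK_congr; intro v _; rw [add_comm 1, zero_add]
      rw [this]; ring
    · have : EK X K (fun t => F (0 + Nm t m) * G (0 + Nm t m')) = A := by
        rw [hA]; apply EK_congr; intro v _; rw [zero_add, zero_add]
      rw [this]; ring
  rw [E1_congr h1, E1_add, E1_add, E1_add, E1_const hX, E1_const_mul, E1_const_mul, E1_const_mul]
  have e1 : E1 X (fun v => pr m v) = E1 X (pr m) := rfl
  have e2 : E1 X (fun v => pr m' v) = E1 X (pr m') := rfl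
  rw [e1, e2]
  ring

lemma EK_F {X : ℕ} (hX : 1 ≤ X) (K m : ℕ) (F : ℕ → ℝ) :
    EK X (K + 1) (fun h => F (Nm h m)) =
      (1 - E1 X (pr m)) * EK X K (fun h => F (Nm h m)) + E1 X (pr m) * EK X K (fun h => F (Nm h m + 1)) := by
  rw [EK_succ]
  set A := EK X K (fun h => F (Nm h m)) with hA
  set B := EK X K (fun h => F (Nm h m + 1)) with hB
  have h1 : ∀ a ∈ Icc 1 X, EK X K (fun t => F (Nm (Fin.cons a t : Fin (K + 1) → ℕ) m)) = A + (B - A) * pr m a := by
    intro a _
    simp only [Nm_cons]
    unfold pr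
    split_ifs with p1
    · have : EK X K (fun t => F (1 + Nm t m)) = B := by
        rw [hB]; apply EK_congr; intro v _; rw [add_comm 1]
      rw [this]; ring
    · have : EK X K (fun t => F (0 + Nm t m)) = A := by
        rw [hA]; apply EK_congr; intro v _; rw [zero_add]
      rw [this]; ring
  rw [E1_congr h1, E1_add, E1_const hX, E1_const_mul]
  have e1 : E1 X (fun v => pr m v) = E1 X (pr m) := rfl
  rw [e1]
  ring

lemma EK_abs_le {X K : ℕ} (hX : 1 ≤ X) (Φ : (Fin K → ℕ) → ℝ) (h : ∀ v, |Φ v| ≤ 1) : |EK X K Φ| ≤ 1 := by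
  rw [abs_le]
  constructor
  · rw [← EK_const (K := K) hX (-1)]
    exact EK_mono (fun v _ => (abs_le.1 (h v)).1)
  · rw [← EK_const (K := K) hX 1]
    exact EK_mono (fun v _ => (abs_le.1 (h v)).2)

/-- the two counts are nearly independent -/
theorem indep {X : ℕ} (hX : 1 ≤ X) (m m' K : ℕ) : ∀ F G : ℕ → ℝ, (∀ n, |F n| ≤ 1) → (∀ n, |G n| ≤ 1) →
    |EK X K (fun h => F (Nm h m) * G (Nm h m')) - EK X K (fun h => F (Nm h m)) * EK X K (fun h => G (Nm h m'))| ≤
      4 * K * |E1 X (fun a => pr m a * pr m' a) - E1 X (pr m) * E1 X (pr m')| := by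
  set p := E1 X (pr m) with hp
  set p' := E1 X (pr m') with hp'
  set q := E1 X (fun a => pr m a * pr m' a) with hq
  set Δ := q - p * p' with hΔ
  -- positivity
  have hprm : ∀ m a, pr m a = 0 ∨ pr m a = 1 := by
    intro m a; unfold pr; split_ifs <;> simp
  have hq0 : 0 ≤ q := E1_nonneg (fun a _ => mul_nonneg (pr_nonneg m a) (pr_nonneg m' a))
  have hqp : 0 ≤ p - q := by
    have : q ≤ p := E1_mono (fun a _ => by
      have h1 := pr_nonneg m a
      have h2 := pr_le_one m' a
      nlinarith)
    linarith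
  have hqp' : 0 ≤ p' - q := by
    have : q ≤ p' := E1_mono (fun a _ => by
      have h1 := pr_nonneg m' a
      have h2 := pr_le_one m a
      nlinarith)
    linarith
  have hrest : 0 ≤ 1 - p - p' + q := by
    have h1 : p + p' ≤ 1 + q := by
      rw [hp, hp', hq, ← E1_const hX 1]
      have e1 : E1 X (pr m) + E1 X (pr m') = E1 X (fun a => pr m a + pr m' a) := (E1_add _ _).symm
      rw [e1, ← E1_add]
      apply E1_mono
      intro a _
      rcases hprm m a with h | h <;> rcases hprm m' a with h' | h' <;> rw [h, h'] <;> norm_num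
    linarith
  induction K with
  | zero =>
    intro F G _ _
    have hz : ∀ h : Fin 0 → ℕ, ∀ m, Nm h m = 0 := by intro h m; unfold Nm; simp
    simp only [hz]
    rw [EK_const hX, EK_const hX, EK_const hX]
    simp
  | succ K ih =>
    intro F G hF hG
    have hF' : ∀ n, |(fun n => F (n + 1)) n| ≤ 1 := fun n => hF (n + 1)
    have hG' : ∀ n, |(fun n => G (n + 1)) n| ≤ 1 := fun n => hG (n + 1)
    have i00 := ih F G hF hG
    have i10 := ih (fun n => F (n + 1)) G hF' hG
    have i01 := ih F (fun n => G (n + 1)) hF hG'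
    have i11 := ih (fun n => F (n + 1)) (fun n => G (n + 1)) hF' hG'
    rw [EK_FG hX, EK_F hX K m F, EK_F hX K m' G, ← hp, ← hp', ← hq]
    set E00 := EK X K (fun h => F (Nm h m) * G (Nm h m')) with hE00
    set E10 := EK X K (fun h => F (Nm h m + 1) * G (Nm h m')) with hE10
    set E01 := EK X K (fun h => F (Nm h m) * G (Nm h m' + 1)) with hE01
    set E11 := EK X K (fun h => F (Nm h m + 1) * G (Nm h m' + 1)) with hE11
    set f0 := EK X K (fun h => F (Nm h m)) with hf0
    set f1 := EK X K (fun h => F (Nm h m + 1)) with hf1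
    set g0 := EK X K (fun h => G (Nm h m')) with hg0
    set g1 := EK X K (fun h => G (Nm h m' + 1)) with hg1
    have bf0 : |f0| ≤ 1 := EK_abs_le hX _ (fun v => hF _)
    have bf1 : |f1| ≤ 1 := EK_abs_le hX _ (fun v => hF _)
    have bg0 : |g0| ≤ 1 := EK_abs_le hX _ (fun v => hG _)
    have bg1 : |g1| ≤ 1 := EK_abs_le hX _ (fun v => hG _)
    have key : (1 - p - p' + q) * E00 + (p - q) * E10 + (p' - q) * E01 + q * E11 -
        ((1 - p) * f0 + p * f1) * ((1 - p') * g0 + p' * g1) =
        ((1 - p - p' + q) * (E00 - f0 * g0) + (p - q) * (E10 - f1 * g0) + (p' - q) * (E01 - f0 * g1) + q * (E11 - f1 * g1)) +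
        Δ * (f0 * g0 - f1 * g0 - f0 * g1 + f1 * g1) := by rw [hΔ]; ring
    rw [key]
    have b1 : |(1 - p - p' + q) * (E00 - f0 * g0) + (p - q) * (E10 - f1 * g0) + (p' - q) * (E01 - f0 * g1) + q * (E11 - f1 * g1)| ≤ 4 * K * |Δ| := by
      have c1 := abs_le.1 i00
      have c2 := abs_le.1 i10
      have c3 := abs_le.1 i01
      have c4 := abs_le.1 i11
      have hsum : (1 - p - p' + q) + (p - q) + (p' - q) + q = 1 := by ring
      rw [abs_le]
      constructor
      · have d1 := mul_le_mul_of_nonneg_left c1.1 hrest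
        have d2 := mul_le_mul_of_nonneg_left c2.1 hqp
        have d3 := mul_le_mul_of_nonneg_left c3.1 hqp'
        have d4 := mul_le_mul_of_nonneg_left c4.1 hq0
        nlinarith
      · have d1 := mul_le_mul_of_nonneg_left c1.2 hrest
        have d2 := mul_le_mul_of_nonneg_left c2.2 hqp
        have d3 := mul_le_mul_of_nonneg_left c3.2 hqp'
        have d4 := mul_le_mul_of_nonneg_left c4.2 hq0
        nlinarith
    have b2 : |Δ * (f0 * g0 - f1 * g0 - f0 * g1 + f1 * g1)| ≤ 4 * |Δ| := by
      rw [abs_mul, mul_comm]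
      apply mul_le_mul_of_nonneg_right _ (abs_nonneg _)
      have e1 : |f0 * g0| ≤ 1 := by rw [abs_mul]; exact mul_le_one₀ bf0 (abs_nonneg _) bg0
      have e2 : |f1 * g0| ≤ 1 := by rw [abs_mul]; exact mul_le_one₀ bf1 (abs_nonneg _) bg0
      have e3 : |f0 * g1| ≤ 1 := by rw [abs_mul]; exact mul_le_one₀ bf0 (abs_nonneg _) bg1
      have e4 : |f1 * g1| ≤ 1 := by rw [abs_mul]; exact mul_le_one₀ bf1 (abs_nonneg _) bg1
      rw [abs_le] at e1 e2 e3 e4 ⊢
      constructor <;> linarith [e1.1, e1.2, e2.1, e2.2, e3.1, e3.2, e4.1, e4.2]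
    refine (abs_add_le _ _).trans ((add_le_add b1 b2).trans (le_of_eq ?_))
    push_cast; ring

/-- the binomial law for one translate -/
lemma binom {X : ℕ} (hX : 1 ≤ X) (m : ℕ) : ∀ K k : ℕ, PK X K (fun h => Nm h m = k) =
    (K.choose k : ℝ) * E1 X (pr m) ^ k * (1 - E1 X (pr m)) ^ (K - k) := by
  classical
  set p := E1 X (pr m) with hp
  have hPK : ∀ K k : ℕ, PK X K (fun h => Nm h m = k) = EK X K (fun h => (fun n : ℕ => if n = k then (1 : ℝ) else 0) (Nm h m)) := by
    intro K k
    unfold PK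
    apply EK_congr
    intro v _
    simp only
    congr
  have hz : ∀ K, EK X K (fun _ => (0 : ℝ)) = 0 := fun K => EK_const hX 0
  intro K
  induction K with
  | zero =>
    intro k
    rw [hPK]
    have hz : ∀ h : Fin 0 → ℕ, Nm h m = 0 := by intro h; unfold Nm; simp
    simp only [hz]
    rw [EK_const hX]
    rcases Nat.eq_zero_or_pos k with h | h
    · rw [h]; simp
    · rw [if_neg (by omega), Nat.choose_eq_zero_of_lt h]; simp
  | succ K ih =>
    intro k
    rw [hPK, EK_F hX K m (fun n : ℕ => if n = k then (1 : ℝ) else 0), ← hp]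
    rcases Nat.eq_zero_or_pos k with h | h
    · subst h
      have e1 : EK X K (fun h => (fun n : ℕ => if n = 0 then (1 : ℝ) else 0) (Nm h m + 1)) = 0 := by
        refine (EK_congr (Ψ := fun _ => 0) ?_).trans (hz K)
        intro v _
        simp
      rw [e1, ← hPK, ih 0]
      simp only [Nat.choose_zero_right, Nat.cast_one, pow_zero, Nat.sub_zero]
      ring
    · obtain ⟨j, rfl⟩ : ∃ j, k = j + 1 := ⟨k - 1, by omega⟩
      have e1 : EK X K (fun h => (fun n : ℕ => if n = j + 1 then (1 : ℝ) else 0) (Nm h m + 1)) = PK X K (fun h => Nm h m = j) := by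
        rw [hPK]
        apply EK_congr
        intro v _
        simp
      rw [e1, ← hPK, ih (j + 1), ih j, Nat.choose_succ_succ]
      have e2 : K + 1 - (j + 1) = K - j := by omega
      rw [e2]
      rcases lt_or_ge K (j + 1) with hK | hK
      · rw [Nat.choose_eq_zero_of_lt hK]
        push_cast
        ring
      · have e3 : K - j = (K - (j + 1)) + 1 := by omega
        rw [e3]
        push_cast
        ring

end Pool.Agent.N735.CL
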