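import Mathlib
import Pool.Agent.N735.CL.SharpL

set_option autoImplicit false
set_option maxHeartbeats 2000000

/-! The longest waiting time for a prime. -/

namespace Pool.Agent.N735.CL

open Finset Filter Topology

lemma EK_init {X : ℕ} (hX : 1 ≤ X) (K : ℕ) (Φ : (Fin K → ℕ) → ℝ) :
    EK X (K + 1) (fun h => Φ (fun i => h (Fin.castSucc i))) = EK X K Φ := by
  unfold EK
  have h : ∑ h ∈ Om X (K + 1), Φ (fun i => h (Fin.castSucc i)) = ∑ t ∈ Om X K, ∑ _a ∈ Icc 1 X, Φ t := by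
    rw [← Finset.sum_product']
    apply Finset.sum_nbij' (fun h => (fun i => h (Fin.castSucc i), h (Fin.last K))) (fun x => Fin.snoc x.1 x.2)
    · intro h hh
      rw [mem_Om] at hh
      rw [mem_product, mem_Om]
      exact ⟨fun i => hh i.castSucc, hh (Fin.last K)⟩
    · intro x hx
      rw [mem_product, mem_Om] at hx
      rw [mem_Om]
      intro i
      refine Fin.lastCases ?_ (fun j => ?_) i
      · simpa using hx.2
      · simpa using hx.1 j
    · intro h _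
      funext i
      refine Fin.lastCases ?_ (fun j => ?_) i
      · simp
      · simp
    · intro x _
      simp
    · intro h _
      simp
  have hX0 : (X : ℝ) ≠ 0 := by positivity
  have h2 : ∑ t ∈ Om X K, ∑ _a ∈ Icc 1 X, Φ t = X * ∑ t ∈ Om X K, Φ t := by
    rw [mul_sum]
    apply sum_congr rfl
    intro t _
    rw [sum_const, nsmul_eq_mul, Nat.card_Icc, Nat.add_sub_cancel]
  rw [h, h2, pow_succ, mul_comm ((X : ℝ) ^ K), mul_div_mul_left _ _ hX0]

lemma EK_pre {X : ℕ} (hX : 1 ≤ X) (K' : ℕ) (Φ : (Fin K' → ℕ) → ℝ) : ∀ n : ℕ,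
    EK X (K' + n) (fun h => Φ (fun i => h (Fin.castAdd n i))) = EK X K' Φ := by
  intro n
  induction n with
  | zero => rfl
  | succ n ih =>
    rw [← ih]
    exact EK_init hX (K' + n) (fun h => Φ (fun i => h (Fin.castAdd n i)))

lemma PK_pre {X : ℕ} (hX : 1 ≤ X) (K' n : ℕ) (B : (Fin K' → ℕ) → Prop) :
    PK X (K' + n) (fun h => B (fun i => h (Fin.castAdd n i))) = PK X K' B := by
  classical
  unfold PK
  exact EK_pre hX K' (fun v => if B v then 1 else 0) n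

/-- the first `i` (counted from `1`) with `m + h i` prime -/
noncomputable def wait {K : ℕ} (h : Fin K → ℕ) (m : ℕ) : ℕ∞ :=
  ⨅ i : Fin K, if (m + h i).Prime then (((i : ℕ) + 1 : ℕ) : ℕ∞) else ⊤

/-- the longest waiting time -/
noncomputable def maxWait {K : ℕ} (X : ℕ) (h : Fin K → ℕ) : ℕ∞ := ⨆ m ∈ Icc 1 X, wait h m

lemma wait_le {K' n : ℕ} (h : Fin (K' + n) → ℕ) (m : ℕ) (hm : Nm (fun i => h (Fin.castAdd n i)) m ≠ 0) :
    wait h m ≤ (K' : ℕ∞) := by
  unfold Nm at hm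
  obtain ⟨i, hi⟩ := card_pos.1 (Nat.pos_of_ne_zero hm)
  rw [mem_filter] at hi
  unfold wait
  refine (iInf_le _ (Fin.castAdd n i)).trans ?_
  rw [if_pos hi.2]
  have : ((Fin.castAdd n i : Fin (K' + n)) : ℕ) + 1 ≤ K' := by
    have := i.2
    rw [Fin.val_castAdd]
    omega
  exact_mod_cast this

lemma le_wait {K' n : ℕ} (h : Fin (K' + n) → ℕ) (m : ℕ) (hm : Nm (fun i => h (Fin.castAdd n i)) m = 0) :
    ((K' + 1 : ℕ) : ℕ∞) ≤ wait h m := by
  unfold Nm at hm
  rw [card_eq_zero, filter_eq_empty_iff] at hm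
  unfold wait
  apply le_iInf
  intro i
  split_ifs with hp
  · have : K' ≤ (i : ℕ) := by
      by_contra hc
      push Not at hc
      exact hm (mem_univ (⟨i, hc⟩ : Fin K')) hp
    have h2 : K' + 1 ≤ (i : ℕ) + 1 := by omega
    exact_mod_cast h2
  · exact le_top

/-- the longest waiting time is `log ^ 2 X + O(log X)` for almost all patterns -/
theorem wait_law (θ : ℝ) (hθ : 0 < θ) : ∃ C : ℝ, 0 < C ∧ ∀ᶠ X : ℕ in atTop, ∀ K : ℕ,
    Real.log X ^ 2 + C * Real.log X ≤ K →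
      PK X K (fun h => ¬ ∃ g : ℕ, maxWait X h = g ∧ |(g : ℝ) - Real.log X ^ 2| ≤ C * Real.log X) ≤ θ := by
  obtain ⟨C₀, hC₀, h0⟩ := sharp_upper (θ / 2) (by positivity)
  obtain ⟨C₁, hC₁, h1⟩ := sharp_lower (θ / 2) (by positivity)
  refine ⟨C₀ + C₁ + 1, by positivity, ?_⟩
  filter_upwards [h0, h1, eventually_ge_atTop 1, tends_log.eventually_ge_atTop (C₁ + 1)] with X h0 h1 hX hL K hK
  have hL1 : 1 ≤ Real.log (X : ℝ) := by linarith
  set L := Real.log (X : ℝ) with hLd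
  have hL0 : 0 < L := by linarith
  set K1 := ⌈L ^ 2 + C₀ * L⌉₊ with hK1
  set K2 := ⌊L ^ 2 - C₁ * L⌋₊ with hK2
  have e1 : L ^ 2 + C₀ * L ≤ K1 := Nat.le_ceil _
  have e2 : (K1 : ℝ) < L ^ 2 + C₀ * L + 1 := Nat.ceil_lt_add_one (by positivity)
  have e3 : (K2 : ℝ) ≤ L ^ 2 - C₁ * L := Nat.floor_le (by nlinarith)
  have e4 : L ^ 2 - C₁ * L < K2 + 1 := Nat.lt_floor_add_one _
  have hC0L : 0 < C₀ * L := by positivity
  have hC1L : 0 < C₁ * L := by positivity
  have hCL : (C₀ + C₁ + 1) * L = C₀ * L + C₁ * L + L := by ring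
  have hK1K : K1 ≤ K := by
    apply Nat.ceil_le.2
    linarith
  have hK2K : K2 ≤ K := by
    have : (K2 : ℝ) ≤ K := by linarith
    exact_mod_cast this
  obtain ⟨n1, rfl⟩ := Nat.exists_eq_add_of_le hK1K
  obtain ⟨n2, hn2⟩ := Nat.exists_eq_add_of_le hK2K
  have f1 := h0 K1 e1
  have f2 := h1 K2 e3
  rw [← PK_pre hX K1 n1] at f1
  rw [← PK_pre hX K2 n2] at f2
  have f2' : PK X (K1 + n1) (fun h => ∀ m ∈ Icc 1 X, Nm (fun i : Fin K2 => h (Fin.castLE hK2K i)) m ≠ 0) ≤ θ / 2 := by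
    refine le_trans (le_of_eq ?_) f2
    have : ∀ (N : ℕ) (hN : N = K2 + n2) (hle : K2 ≤ N), PK X N (fun h => ∀ m ∈ Icc 1 X, Nm (fun i : Fin K2 => h (Fin.castLE hle i)) m ≠ 0) =
        PK X (K2 + n2) (fun h => ∀ m ∈ Icc 1 X, Nm (fun i : Fin K2 => h (Fin.castAdd n2 i)) m ≠ 0) := by
      intro N hN hle
      subst hN
      rfl
    exact this _ hn2 hK2K
  refine le_trans (PK_mono (C := fun h => (∃ m ∈ Icc 1 X, Nm (fun i : Fin K1 => h (Fin.castAdd n1 i)) m = 0) ∨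
    (∀ m ∈ Icc 1 X, Nm (fun i : Fin K2 => h (Fin.castLE hK2K i)) m ≠ 0)) ?_) ((PK_or _ _).trans (by linarith))
  intro h _ hh
  by_contra hc
  push Not at hc
  apply hh
  obtain ⟨c1, m, hm, c2⟩ := hc
  have g1 : maxWait X h ≤ (K1 : ℕ∞) := by
    unfold maxWait
    apply iSup₂_le
    intro m hm
    exact wait_le h m (c1 m hm)
  have g2 : ((K2 + 1 : ℕ) : ℕ∞) ≤ maxWait X h := by
    unfold maxWait
    refine le_trans ?_ (le_iSup₂ (f := fun m (_ : m ∈ Icc 1 X) => wait h m) m hm)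
    -- the same computation with the other decomposition
    unfold Nm at c2
    rw [card_eq_zero, filter_eq_empty_iff] at c2
    unfold wait
    apply le_iInf
    intro i
    split_ifs with hp
    · have : K2 ≤ (i : ℕ) := by
        by_contra hcc
        push Not at hcc
        exact c2 (mem_univ (⟨i, hcc⟩ : Fin K2)) hp
      have h2 : K2 + 1 ≤ (i : ℕ) + 1 := by omega
      exact_mod_cast h2
    · exact le_top
  obtain ⟨g, hg, hgK⟩ := ENat.le_natCast_iff.1 g1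
  rw [hg] at g2
  have g3 : K2 + 1 ≤ g := by exact_mod_cast g2
  refine ⟨g, hg, ?_⟩
  have g4 : (g : ℝ) ≤ K1 := by exact_mod_cast hgK
  have g5 : (K2 : ℝ) + 1 ≤ g := by exact_mod_cast g3
  rw [abs_le]
  constructor <;> nlinarith

end Pool.Agent.N735.CL
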