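import Mathlib
import Pool.Agent.N735.CL.Wait
import Pool.Agent.N735.CL.Lln
import Pool.Agent.H295R3.Hoheisel
import Pool.Agent.H902R3.Task469C

set_option autoImplicit false
set_option maxHeartbeats 2000000

/-! Patterns contained in short intervals. -/

namespace Pool.Agent.N735.CL

open Finset Filter Topology

lemma PK_castLE {X : ℕ} (hX : 1 ≤ X) {K' K : ℕ} (hle : K' ≤ K) (B : (Fin K' → ℕ) → Prop) :
    PK X K (fun h => B (fun i => h (Fin.castLE hle i))) = PK X K' B := by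
  obtain ⟨n, rfl⟩ := Nat.exists_eq_add_of_le hle
  exact PK_pre hX K' n B

lemma wait_of {X K K1 K2 : ℕ} (h : Fin K → ℕ) (hK1 : K1 ≤ K) (hK2 : K2 ≤ K)
    (c1 : ∀ m ∈ Icc 1 X, Nm (fun i : Fin K1 => h (Fin.castLE hK1 i)) m ≠ 0)
    (c2 : ∃ m ∈ Icc 1 X, Nm (fun i : Fin K2 => h (Fin.castLE hK2 i)) m = 0) :
    ∃ g : ℕ, maxWait X h = g ∧ K2 + 1 ≤ g ∧ g ≤ K1 := by
  have g1 : maxWait X h ≤ (K1 : ℕ∞) := by
    unfold maxWait
    apply iSup₂_le
    intro m hm
    have := c1 m hm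
    unfold Nm at this
    obtain ⟨i, hi⟩ := card_pos.1 (Nat.pos_of_ne_zero this)
    rw [mem_filter] at hi
    unfold wait
    refine (iInf_le _ (Fin.castLE hK1 i)).trans ?_
    rw [if_pos hi.2]
    have : ((Fin.castLE hK1 i : Fin K) : ℕ) + 1 ≤ K1 := by
      have := i.2
      rw [Fin.val_castLE]
      omega
    exact_mod_cast this
  obtain ⟨m, hm, c2⟩ := c2
  have g2 : ((K2 + 1 : ℕ) : ℕ∞) ≤ maxWait X h := by
    unfold maxWait
    refine le_trans ?_ (le_iSup₂ (f := fun m (_ : m ∈ Icc 1 X) => wait h m) m hm)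
    unfold Nm at c2
    rw [card_eq_zero, filter_eq_empty_iff] at c2
    unfold wait
    apply le_iInf
    intro i
    split_ifs with hp
    · have : K2 ≤ (i : ℕ) := by
        by_contra hcc
        push Not at hcc
        exact c2 (mem_univ (⟨i, hcc⟩ : Fin K2)) hp
      have h2 : K2 + 1 ≤ (i : ℕ) + 1 := by omega
      exact_mod_cast h2
    · exact le_top
  obtain ⟨g, hg, hgK⟩ := ENat.le_natCast_iff.1 g1
  rw [hg] at g2
  exact ⟨g, hg, by exact_mod_cast g2, by exact_mod_cast hgK⟩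

lemma E1_pr_card (H m : ℕ) : E1 H (pr m) = (((Ioc m (m + H)).filter Nat.Prime).card : ℝ) / H := by
  unfold E1
  congr 1
  rw [card_filter]
  push_cast
  apply Finset.sum_nbij' (fun h => m + h) (fun q => q - m)
  · intro h hh
    rw [mem_Icc] at hh
    rw [mem_Ioc]
    omega
  · intro q hq
    rw [mem_Ioc] at hq
    rw [mem_Icc]
    omega
  · intro h _
    omega
  · intro q hq
    rw [mem_Ioc] at hq
    omega
  · intro h _
    rfl

/-- the proportion of the primes in `(m, m + H]` -/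
theorem eta_short : ∃ δ η c : ℝ, 0 < δ ∧ δ < 1 ∧ 0 < η ∧ 0 < c ∧ ∀ᶠ X : ℕ in atTop, ∀ H : ℕ, (X : ℝ) ^ (1 - δ) ≤ H → H ≤ X →
    ∀ m : ℕ, m ≤ X → η / Real.log X ≤ E1 H (pr m) ∧ E1 H (pr m) ≤ c / Real.log X := by
  obtain ⟨δ, η, hδ, hδ1, hη, X₀, hX₀, hh⟩ := Pool.Agent.H295R3.D.hoheisel
  obtain ⟨Y₀, hY₀, hbt⟩ := Pool.Agent.H902R3.C469.bt2 1 one_pos
  obtain ⟨H₀, hH₀⟩ := eventually_atTop.1 (eta_window (1 / 2) (by norm_num))
  refine ⟨δ, min η (1 / 2), 3 / (1 - δ), hδ, hδ1, lt_min hη (by norm_num), by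
    have : 0 < 1 - δ := by linarith
    positivity, ?_⟩
  have hpow : Tendsto (fun X : ℕ => (X : ℝ) ^ (1 - δ)) atTop atTop :=
    (tendsto_rpow_atTop (by linarith)).comp tendsto_natCast_atTop_atTop
  filter_upwards [hpow.eventually_ge_atTop ((max (max X₀ Y₀) (max H₀ 3) : ℕ) : ℝ), eventually_ge_atTop 3] with X hX hX3 H hH hHX m hm
  have hHbig : max (max X₀ Y₀) (max H₀ 3) ≤ H := by
    have := hX.trans hH
    exact_mod_cast this
  have a1 : X₀ ≤ H := le_trans (le_trans (le_max_left _ _) (le_max_left _ _)) hHbig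
  have a2 : Y₀ ≤ H := le_trans (le_trans (le_max_right _ _) (le_max_left _ _)) hHbig
  have a3 : H₀ ≤ H := le_trans (le_trans (le_max_left _ _) (le_max_right _ _)) hHbig
  have a4 : 3 ≤ H := le_trans (le_trans (le_max_right _ _) (le_max_right _ _)) hHbig
  have hX3r : (3 : ℝ) ≤ X := by exact_mod_cast hX3
  have hH3r : (3 : ℝ) ≤ H := by exact_mod_cast a4
  have hX0 : (0 : ℝ) < X := by linarith
  have hH0 : (0 : ℝ) < H := by linarith
  have hL : 0 < Real.log (X : ℝ) := Real.log_pos (by linarith)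
  have hLH : 0 < Real.log (H : ℝ) := Real.log_pos (by linarith)
  have hd : 0 < 1 - δ := by linarith
  have hlogH : (1 - δ) * Real.log X ≤ Real.log H := by
    rw [← Real.log_rpow hX0]
    exact Real.log_le_log (by positivity) hH
  have hlogH' : Real.log H ≤ Real.log X := Real.log_le_log hH0 (by exact_mod_cast hHX)
  constructor
  · rcases le_or_gt m H with hmH | hmH
    · have h1 := hH₀ H a3 m hmH
      have h2 := (abs_le.1 h1).1
      have h3 : 1 / 2 / Real.log H ≤ E1 H (pr m) := by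
        rw [div_le_iff₀ hLH]; linarith
      refine le_trans ?_ h3
      calc min η (1 / 2) / Real.log X ≤ (1 / 2) / Real.log X := div_le_div_of_nonneg_right (min_le_right _ _) hL.le
        _ ≤ (1 / 2) / Real.log H := div_le_div_of_nonneg_left (by norm_num) hLH hlogH'
    · have hm0 : (0 : ℝ) < m := lt_trans hH0 (by exact_mod_cast hmH)
      have hmX : (m : ℝ) ≤ X := by exact_mod_cast hm
      have h1 := hh m H (by omega) ((Real.rpow_le_rpow hm0.le hmX hd.le).trans hH) hmH.le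
      rw [E1_pr_card, le_div_iff₀ hH0]
      refine le_trans ?_ h1
      have hlm : 0 < Real.log (m : ℝ) := Real.log_pos (by
        have : (H : ℝ) < m := by exact_mod_cast hmH
        linarith)
      have hlmX : Real.log (m : ℝ) ≤ Real.log X := Real.log_le_log hm0 hmX
      calc min η (1 / 2) / Real.log X * H ≤ η / Real.log X * H := by
            apply mul_le_mul_of_nonneg_right _ hH0.le
            exact div_le_div_of_nonneg_right (min_le_left _ _) hL.le
        _ ≤ η / Real.log m * H := by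
            apply mul_le_mul_of_nonneg_right _ hH0.le
            exact div_le_div_of_nonneg_left hη.le hlm hlmX
        _ = η * H / Real.log m := by ring
  · rw [E1_pr_card, div_le_iff₀ hH0]
    refine (hbt m H a2).trans ?_
    have : (2 + 1) * (H : ℝ) / Real.log H ≤ 3 * H / ((1 - δ) * Real.log X) := by
      have e : (2 : ℝ) + 1 = 3 := by norm_num
      rw [e]
      exact div_le_div_of_nonneg_left (by positivity) (by positivity) hlogH
    refine this.trans (le_of_eq ?_)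
    field_simp

theorem short_law : ∃ δ c A : ℝ, 0 < δ ∧ δ < 1 ∧ 0 < c ∧ 0 < A ∧ ∀ θ : ℝ, 0 < θ → ∀ᶠ X : ℕ in atTop, ∀ H : ℕ,
    (X : ℝ) ^ (1 - δ) ≤ H → H ≤ X → ∀ K : ℕ, A * Real.log X ^ 2 ≤ K →
      PK H K (fun h => ¬ ((∀ m ∈ Icc 1 X, c * (K / Real.log X) ≤ (Nm h m : ℝ) ∧ (Nm h m : ℝ) ≤ A * (K / Real.log X)) ∧
        ∃ g : ℕ, maxWait X h = g ∧ c * Real.log X ^ 2 ≤ g ∧ (g : ℝ) ≤ A * Real.log X ^ 2)) ≤ θ := by
  obtain ⟨δ, η, c₂, hδ, hδ1, hη, hc₂, hp⟩ := eta_short
  have hd : 0 < 1 - δ := by linarith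
  set c := min (η / 4) ((1 - δ) ^ 2 / 2) with hc
  have hc0 : 0 < c := lt_min (by positivity) (by positivity)
  have hc1 : c ≤ η / 4 := min_le_left _ _
  have hc2 : c ≤ (1 - δ) ^ 2 / 2 := min_le_right _ _
  set A' := 8 / η + 2 with hA'
  set A := A' + 1 + 2 * (c₂ + 1) with hA
  have hA'0 : 0 < A' := by positivity
  have hA0 : 0 < A := by positivity
  have hA8 : 8 / η + 2 ≤ A := by rw [hA, hA']; linarith
  refine ⟨δ, c, A, hδ, hδ1, hc0, hA0, fun θ hθ => ?_⟩
  obtain ⟨C₁, hC₁, h1⟩ := sharp_lower (θ / 4) (by positivity)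
  obtain ⟨H₁, hH₁⟩ := eventually_atTop.1 h1
  have hpow : Tendsto (fun X : ℕ => (X : ℝ) ^ (1 - δ)) atTop atTop :=
    (tendsto_rpow_atTop (by linarith)).comp tendsto_natCast_atTop_atTop
  filter_upwards [hp, hpow.eventually_ge_atTop ((max H₁ 3 : ℕ) : ℝ), eventually_ge_atTop 3,
    tends_log.eventually_ge_atTop (|Real.log (θ / 4)| + 1), tends_log.eventually_ge_atTop (2 * C₁ / (1 - δ) + 1)] with X hp hX1 hX3 hL1 hL2 H hH hHX K hK
  have hHbig : max H₁ 3 ≤ H := by
    have := hX1.trans hH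
    exact_mod_cast this
  have a1 : H₁ ≤ H := le_trans (le_max_left _ _) hHbig
  have a2 : 3 ≤ H := le_trans (le_max_right _ _) hHbig
  have hH1 : 1 ≤ H := by omega
  have hXr : (0 : ℝ) < X := by exact_mod_cast (by omega : 0 < X)
  have hHr : (0 : ℝ) < H := by exact_mod_cast (by omega : 0 < H)
  have hq : 0 ≤ 2 * C₁ / (1 - δ) := by positivity
  have hL1' : 1 ≤ Real.log (X : ℝ) := by linarith
  set L := Real.log (X : ℝ) with hLd
  have hL0 : 0 < L := by linarith
  have hlogH : (1 - δ) * L ≤ Real.log H := by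
    rw [hLd, ← Real.log_rpow hXr]
    exact Real.log_le_log (by positivity) hH
  have hpm := hp H hH hHX
  -- small exponentials
  have hex : ∀ E : ℝ, E ≤ -(2 * L) → (X : ℝ) * Real.exp E ≤ θ / 4 := by
    intro E hE
    have h6 : (X : ℝ) = Real.exp L := (Real.exp_log hXr).symm
    rw [h6, ← Real.exp_add]
    have h7 : Real.log (θ / 4) ≥ -L := by
      have := neg_abs_le (Real.log (θ / 4))
      linarith
    calc Real.exp (L + E) ≤ Real.exp (Real.log (θ / 4)) := Real.exp_le_exp.2 (by linarith)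
      _ = θ / 4 := Real.exp_log (by positivity)
  have hsumX : ∀ (K : ℕ) (B : ℕ → (Fin K → ℕ) → Prop) (E : ℝ), E ≤ -(2 * L) → (∀ m ∈ Icc 1 X, PK H K (B m) ≤ Real.exp E) →
      PK H K (fun h => ∃ m ∈ Icc 1 X, B m h) ≤ θ / 4 := by
    intro K B E hE hB
    refine (PK_exists (Icc 1 X) B).trans ((sum_le_sum hB).trans ?_)
    rw [sum_const, nsmul_eq_mul, Nat.card_Icc, Nat.add_sub_cancel]
    exact hex E hE
  set M : ℝ := K / L with hM
  have hM0 : 0 ≤ M := by positivity
  have hML : A * L ≤ M := by rw [hM, le_div_iff₀ hL0]; nlinarith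
  -- few primes
  have e1 : PK H K (fun h => ∃ m ∈ Icc 1 X, (Nm h m : ℝ) < c * M) ≤ θ / 4 := by
    apply hsumX K (fun m h => (Nm h m : ℝ) < c * M) (-(η / 4 * M))
    · have h5 : η / 4 * (A * L) ≤ η / 4 * M := mul_le_mul_of_nonneg_left hML (by positivity)
      have h6 : 2 ≤ η / 4 * A := by
        have : η / 4 * (8 / η + 2) ≤ η / 4 * A := mul_le_mul_of_nonneg_left hA8 (by positivity)
        have e : η / 4 * (8 / η + 2) = 2 + η / 2 := by field_simp; ring
        linarith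
      nlinarith
    · intro m hm
      have hηm := (hpm m (mem_Icc.1 hm).2).1
      have hlog2 : Real.log (1 / 2 : ℝ) = -Real.log 2 := by rw [one_div, Real.log_inv]
      have hl2 : Real.log 2 ≤ 1 := by linarith [Real.log_two_lt_d9]
      have hl20 : 0 ≤ Real.log 2 := Real.log_nonneg (by norm_num)
      refine (chern (m := m) hH1 (b := 1 / 2) (by norm_num) (-(c * M)) (-(1 / 2) * (η * M)) _ ?_ ?_).trans ?_
      · intro h hh
        rw [hlog2]
        have h5 : (Nm h m : ℝ) * Real.log 2 ≤ (Nm h m : ℝ) * 1 := mul_le_mul_of_nonneg_left hl2 (Nat.cast_nonneg _)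
        nlinarith
      · have e : ((1 : ℝ) / 2 - 1) = -(1 / 2) := by norm_num
        rw [e]
        have h5 : η * M ≤ K * E1 H (pr m) := by
          have : (K : ℝ) * (η / L) ≤ K * E1 H (pr m) := mul_le_mul_of_nonneg_left hηm (Nat.cast_nonneg _)
          have e2 : η * M = K * (η / L) := by rw [hM]; ring
          linarith
        linarith
      · apply Real.exp_le_exp.2
        have : c * M ≤ η / 4 * M := mul_le_mul_of_nonneg_right hc1 hM0
        linarith
  -- many primes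
  have e2 : PK H K (fun h => ∃ m ∈ Icc 1 X, A * M < (Nm h m : ℝ)) ≤ θ / 4 := by
    apply hsumX K (fun m h => A * M < (Nm h m : ℝ)) (-M)
    · have h5 : 2 ≤ A := by
        have : 0 < 8 / η := by positivity
        linarith
      nlinarith
    · intro m hm
      have hηm := (hpm m (mem_Icc.1 hm).2).2
      have hl2 : 1 / 2 ≤ Real.log 2 := by linarith [Real.log_two_gt_d9]
      refine (chern (m := m) hH1 (b := 2) (by norm_num) (A * M / 2) (c₂ * M) _ ?_ ?_).trans ?_
      · intro h hh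
        have h5 : (Nm h m : ℝ) * (1 / 2) ≤ (Nm h m : ℝ) * Real.log 2 := mul_le_mul_of_nonneg_left hl2 (Nat.cast_nonneg _)
        linarith
      · have e : ((2 : ℝ) - 1) = 1 := by norm_num
        rw [e, one_mul]
        have : (K : ℝ) * E1 H (pr m) ≤ K * (c₂ / L) := mul_le_mul_of_nonneg_left hηm (Nat.cast_nonneg _)
        have e2 : c₂ * M = K * (c₂ / L) := by rw [hM]; ring
        linarith
      · apply Real.exp_le_exp.2
        have : 2 * (c₂ + 1) ≤ A := by rw [hA]; linarith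
        nlinarith
  -- the waiting time, upper bound
  set K1 := ⌈A' * L ^ 2⌉₊ with hK1
  have f1 : A' * L ^ 2 ≤ K1 := Nat.le_ceil _
  have f2 : (K1 : ℝ) < A' * L ^ 2 + 1 := Nat.ceil_lt_add_one (by positivity)
  have hL2' : 1 ≤ L ^ 2 := one_le_pow₀ hL1'
  have f3 : (K1 : ℝ) ≤ A * L ^ 2 := by
    have : 0 ≤ 2 * (c₂ + 1) * L ^ 2 := by positivity
    have e : A * L ^ 2 = A' * L ^ 2 + L ^ 2 + 2 * (c₂ + 1) * L ^ 2 := by rw [hA]; ring
    linarith
  have hK1K : K1 ≤ K := by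
    have : (K1 : ℝ) ≤ K := f3.trans hK
    exact_mod_cast this
  have e3 : PK H K (fun h => ∃ m ∈ Icc 1 X, Nm (fun i : Fin K1 => h (Fin.castLE hK1K i)) m = 0) ≤ θ / 4 := by
    rw [PK_castLE hH1 hK1K (fun h => ∃ m ∈ Icc 1 X, Nm h m = 0)]
    apply hsumX K1 (fun m h => Nm h m = 0) (-(1 / 2) * (η * (K1 / L)))
    · have h5 : A' * L ≤ K1 / L := by rw [le_div_iff₀ hL0]; nlinarith
      have h6 : η * (A' * L) ≤ η * (K1 / L) := mul_le_mul_of_nonneg_left h5 hη.le
      have h7 : η * A' = 8 + 2 * η := by rw [hA']; field_simp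
      nlinarith
    · intro m hm
      have hηm := (hpm m (mem_Icc.1 hm).2).1
      refine (chern (m := m) hH1 (b := 1 / 2) (by norm_num) 0 (-(1 / 2) * (η * (K1 / L))) _ ?_ ?_).trans ?_
      · intro h hh
        rw [hh]; simp
      · have e : ((1 : ℝ) / 2 - 1) = -(1 / 2) := by norm_num
        rw [e]
        have h5 : η * (K1 / L) ≤ K1 * E1 H (pr m) := by
          have : (K1 : ℝ) * (η / L) ≤ K1 * E1 H (pr m) := mul_le_mul_of_nonneg_left hηm (Nat.cast_nonneg _)
          have e2 : η * ((K1 : ℝ) / L) = K1 * (η / L) := by ring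
          linarith
        linarith
      · rw [sub_zero]
  -- the waiting time, lower bound
  set K2 := ⌊c * L ^ 2⌋₊ with hK2
  have f4 : (K2 : ℝ) ≤ c * L ^ 2 := Nat.floor_le (by positivity)
  have f5 : c * L ^ 2 < K2 + 1 := Nat.lt_floor_add_one _
  have hcA : c ≤ A := by
    have h5 : (1 - δ) ^ 2 ≤ 1 := pow_le_one₀ hd.le (by linarith)
    have : 0 < 8 / η := by positivity
    linarith
  have hK2K : K2 ≤ K := by
    have : (K2 : ℝ) ≤ K := f4.trans ((mul_le_mul_of_nonneg_right hcA (by positivity)).trans hK)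
    exact_mod_cast this
  have e4 : PK H K (fun h => ∀ m ∈ Icc 1 H, Nm (fun i : Fin K2 => h (Fin.castLE hK2K i)) m ≠ 0) ≤ θ / 4 := by
    rw [PK_castLE hH1 hK2K (fun h => ∀ m ∈ Icc 1 H, Nm h m ≠ 0)]
    apply hH₁ H a1 K2
    have h5 : 2 * C₁ ≤ (1 - δ) * L := by
      have : 2 * C₁ / (1 - δ) ≤ L := by linarith
      rw [div_le_iff₀ hd] at this
      linarith
    have h6 : 2 * C₁ ≤ Real.log H := h5.trans hlogH
    have h7 : 0 < Real.log (H : ℝ) := by
      have : 0 < (1 - δ) * L := by positivity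
      linarith
    have h8 : ((1 - δ) * L) ^ 2 ≤ Real.log H ^ 2 := pow_le_pow_left₀ (by positivity) hlogH 2
    have h9 : c * L ^ 2 ≤ (1 - δ) ^ 2 / 2 * L ^ 2 := mul_le_mul_of_nonneg_right hc2 (by positivity)
    nlinarith
  refine le_trans (PK_mono (C := fun h => ((∃ m ∈ Icc 1 X, (Nm h m : ℝ) < c * M) ∨ (∃ m ∈ Icc 1 X, A * M < (Nm h m : ℝ))) ∨
    ((∃ m ∈ Icc 1 X, Nm (fun i : Fin K1 => h (Fin.castLE hK1K i)) m = 0) ∨
      (∀ m ∈ Icc 1 H, Nm (fun i : Fin K2 => h (Fin.castLE hK2K i)) m ≠ 0))) ?_)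
    ((PK_or _ _).trans ((add_le_add (PK_or _ _) (PK_or _ _)).trans (by linarith)))
  intro h _ hh
  by_contra hc'
  push Not at hc'
  apply hh
  obtain ⟨⟨c1, c2⟩, c3, m, hm, c4⟩ := hc'
  refine ⟨fun m hm => ⟨c1 m hm, c2 m hm⟩, ?_⟩
  have hmX : m ∈ Icc 1 X := by
    rw [mem_Icc] at hm ⊢
    exact ⟨hm.1, hm.2.trans hHX⟩
  obtain ⟨g, hg, hg1, hg2⟩ := wait_of h hK1K hK2K c3 ⟨m, hmX, c4⟩
  refine ⟨g, hg, ?_, ?_⟩
  · have : (K2 : ℝ) + 1 ≤ g := by exact_mod_cast hg1
    linarith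
  · have : (g : ℝ) ≤ K1 := by exact_mod_cast hg2
    linarith

end Pool.Agent.N735.CL
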