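import Mathlib
import Pool.Agent.N735.CL.Short
import Pool.Agent.N735.CL.Poi

set_option autoImplicit false
set_option maxHeartbeats 2000000

/-! The longest waiting time for slightly shorter patterns. -/

namespace Pool.Agent.N735.CL

open Finset Filter Topology
open Pool.Agent.H442R2.EHI (lis pnt_err)

lemma pi_lisU (U : ℕ) : ∃ C : ℝ, 0 < C ∧ ∀ᶠ X : ℕ in atTop, ∀ y : ℕ, y ≤ 2 * X → |(Nat.primeCounting y : ℝ) - lis y| ≤ C * (X / Real.log X ^ U) := by
  obtain ⟨C0, h0⟩ := pnt_err U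
  set C := max C0 1 with hC
  have hC1 : 1 ≤ C := le_max_right _ _
  have hl2 : 0 < Real.log 2 := Real.log_pos (by norm_num)
  refine ⟨C / Real.log 2 ^ U + 2 * 2 ^ U * C, by positivity, ?_⟩
  filter_upwards [ev_small 1 (1 / 2) one_pos (by norm_num) U, eventually_ge_atTop 4, tends_log.eventually_ge_atTop 1] with X h1 h2 h3 y hy
  have hX0 : (4 : ℝ) ≤ X := by exact_mod_cast h2
  set L := Real.log (X : ℝ) with hL
  have hL0 : 0 < L := by linarith
  have hXL : 0 ≤ X / L ^ U := by positivity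
  rcases lt_or_ge y 2 with hy2 | hy2
  · have e1 : lis y = 0 := by
      unfold Pool.Agent.H442R2.EHI.lis
      rw [Icc_eq_empty (by omega), sum_empty]
    have e2 : Nat.primeCounting y = 0 := by
      interval_cases y <;> simp
    rw [e1, e2]
    simp only [Nat.cast_zero, sub_zero, abs_zero]
    positivity
  · have h4 := h0 y hy2
    rw [← pi_eq] at h4
    have hy0 : (0 : ℝ) < y := by exact_mod_cast (by omega : 0 < y)
    have hyr : (y : ℝ) ≤ 2 * X := by exact_mod_cast hy
    have hly : 0 < Real.log (y : ℝ) := Real.log_pos (by exact_mod_cast (by omega : 1 < y))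
    have h5 : |(Nat.primeCounting y : ℝ) - lis y| ≤ C * (y / Real.log y ^ U) := by
      refine h4.trans ?_
      have : C0 * y / Real.log y ^ U = C0 * (y / Real.log y ^ U) := by ring
      rw [this]
      exact mul_le_mul_of_nonneg_right (le_max_left _ _) (by positivity)
    refine h5.trans ?_
    rcases le_or_gt ((X : ℝ) ^ (1 / 2 : ℝ)) y with hs | hs
    · have hlog : L / 2 ≤ Real.log y := by
        have := Real.log_le_log (Real.rpow_pos_of_pos (by linarith) _) hs
        rw [Real.log_rpow (by linarith)] at this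
        linarith
      have h6 : (y : ℝ) / Real.log y ^ U ≤ 2 * 2 ^ U * (X / L ^ U) := by
        have h7 : (L / 2) ^ U ≤ Real.log y ^ U := pow_le_pow_left₀ (by positivity) hlog U
        calc (y : ℝ) / Real.log y ^ U ≤ (2 * X) / (L / 2) ^ U := div_le_div₀ (by positivity) hyr (by positivity) h7
          _ = _ := by rw [div_pow]; field_simp
      have h8 : 0 ≤ C / Real.log 2 ^ U * (X / L ^ U) := by positivity
      nlinarith [mul_le_mul_of_nonneg_left h6 (show 0 ≤ C by linarith)]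
    · have hlog : Real.log 2 ≤ Real.log y := Real.log_le_log (by norm_num) (by exact_mod_cast hy2)
      have h1' : L ^ U * (X : ℝ) ^ (1 / 2 : ℝ) ≤ X := by
        have e : (1 : ℝ) - 1 / 2 = 1 / 2 := by norm_num
        rw [e] at h1
        linarith
      have h9 : (X : ℝ) ^ (1 / 2 : ℝ) ≤ X / L ^ U := by
        rw [le_div_iff₀ (by positivity)]; linarith
      have h6 : (y : ℝ) / Real.log y ^ U ≤ (X / L ^ U) / Real.log 2 ^ U := by
        apply div_le_div₀ hXL (hs.le.trans h9) (by positivity)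
        exact pow_le_pow_left₀ hl2.le hlog U
      have h10 : C * ((X / L ^ U) / Real.log 2 ^ U) = C / Real.log 2 ^ U * (X / L ^ U) := by ring
      have h11 : 0 ≤ 2 * 2 ^ U * C * (X / L ^ U) := by positivity
      nlinarith [mul_le_mul_of_nonneg_left h6 (show 0 ≤ C by linarith)]

/-- the density of the primes in `(m, m + H]` from below, `H ≥ X / log ^ B X` -/
theorem eta_lowH (B : ℕ) : ∃ c : ℝ, 0 < c ∧ ∀ᶠ X : ℕ in atTop, ∀ H : ℕ, (X : ℝ) / Real.log X ^ B ≤ H → H ≤ X →
    ∀ m : ℕ, m ≤ X → 1 / Real.log X - c / Real.log X ^ 2 ≤ E1 H (pr m) := by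
  obtain ⟨C1, hC1, h1⟩ := pi_lisU (B + 2)
  refine ⟨2 * C1 + 2, by positivity, ?_⟩
  filter_upwards [h1, eventually_ge_atTop 4, tends_log.eventually_ge_atTop 2, ev_small 1 (1 / 2) one_pos (by norm_num) (B + 2)] with X e1 e2 e3 e4 H hH hHX m hm
  have hX4 : (4 : ℝ) ≤ X := by exact_mod_cast e2
  have hX0 : (0 : ℝ) < X := by linarith
  set L := Real.log (X : ℝ) with hL
  have hL0 : 0 < L := by linarith
  have hX1 : (1 : ℝ) ≤ (X : ℝ) ^ (1 - 1 / 2 : ℝ) := Real.one_le_rpow (by linarith) (by norm_num)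
  have hLX : L ^ (B + 2) ≤ X := by
    have : L ^ (B + 2) * 1 ≤ L ^ (B + 2) * (X : ℝ) ^ (1 - 1 / 2 : ℝ) := mul_le_mul_of_nonneg_left hX1 (by positivity)
    linarith
  have hXB : X / L ^ (B + 2) ≤ H / L ^ 2 := by
    rw [pow_add, ← div_div]
    exact div_le_div_of_nonneg_right hH (by positivity)
  have hone : (1 : ℝ) ≤ H / L ^ 2 := by
    refine le_trans ?_ hXB
    rw [le_div_iff₀ (by positivity)]; linarith
  have hHr : (0 : ℝ) < H := by
    by_contra hc
    have : (H : ℝ) = 0 := le_antisymm (not_lt.1 hc) (Nat.cast_nonneg _)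
    rw [this, zero_div] at hone
    linarith
  rw [E1_pr, le_div_iff₀ hHr]
  have a1 := (abs_le.1 (e1 (m + H) (by omega))).1
  have a2 := (abs_le.1 (e1 m (by omega))).2
  have hCX : C1 * (X / L ^ (B + 2)) ≤ C1 * (H / L ^ 2) := mul_le_mul_of_nonneg_left hXB hC1.le
  have hBeq : lis (m + H) - lis m = ∑ n ∈ (Icc (m + 1) (m + H)).filter (fun n => 2 ≤ n), 1 / Real.log (n : ℝ) := by
    unfold Pool.Agent.H442R2.EHI.lis
    rw [sub_eq_iff_eq_add]
    have hset : Icc 2 (m + H) = ((Icc (m + 1) (m + H)).filter (fun n => 2 ≤ n)) ∪ Icc 2 m := by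
      ext n
      rw [mem_union, mem_filter, mem_Icc, mem_Icc, mem_Icc]
      omega
    rw [hset, sum_union]
    rw [disjoint_left]
    intro n hn hn2
    rw [mem_filter, mem_Icc] at hn
    rw [mem_Icc] at hn2
    omega
  have hlow : H / L - 2 * (H / L ^ 2) ≤ lis (m + H) - lis m := by
    rw [hBeq]
    have g1 : ∀ n ∈ (Icc (m + 1) (m + H)).filter (fun n => 2 ≤ n), 1 / (L + 1) ≤ 1 / Real.log (n : ℝ) := by
      intro n hn
      rw [mem_filter, mem_Icc] at hn
      have hn2 : (2 : ℝ) ≤ n := by exact_mod_cast hn.2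
      have hn3 : (n : ℝ) ≤ 2 * X := by exact_mod_cast (by omega : n ≤ 2 * X)
      apply one_div_le_one_div_of_le (Real.log_pos (by linarith))
      calc Real.log (n : ℝ) ≤ Real.log (2 * X) := Real.log_le_log (by linarith) hn3
        _ = Real.log 2 + L := by rw [Real.log_mul (by norm_num) hX0.ne']
        _ ≤ L + 1 := by linarith [Real.log_two_lt_d9]
    have g2 := sum_le_sum g1
    rw [sum_const, nsmul_eq_mul] at g2
    have g3 : (H : ℝ) - 1 ≤ (((Icc (m + 1) (m + H)).filter (fun n => 2 ≤ n)).card : ℝ) := by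
      have : Icc (m + 2) (m + H) ⊆ (Icc (m + 1) (m + H)).filter (fun n => 2 ≤ n) := by
        intro n hn
        rw [mem_Icc] at hn
        rw [mem_filter, mem_Icc]
        omega
      have h4 := card_le_card this
      rw [Nat.card_Icc] at h4
      have h5 : H ≤ m + H + 1 - (m + 2) + 1 := by omega
      have h6 : (H : ℝ) ≤ ((m + H + 1 - (m + 2) : ℕ) : ℝ) + 1 := by exact_mod_cast h5
      have h7 : ((m + H + 1 - (m + 2) : ℕ) : ℝ) ≤ (((Icc (m + 1) (m + H)).filter (fun n => 2 ≤ n)).card : ℝ) := by exact_mod_cast h4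
      linarith
    refine le_trans ?_ g2
    have g4 : ((H : ℝ) - 1) * (1 / (L + 1)) ≤ (((Icc (m + 1) (m + H)).filter (fun n => 2 ≤ n)).card : ℝ) * (1 / (L + 1)) :=
      mul_le_mul_of_nonneg_right g3 (by positivity)
    refine le_trans ?_ g4
    have g5 : 1 / L - 1 / L ^ 2 ≤ 1 / (L + 1) := by
      rw [div_sub_div _ _ hL0.ne' (by positivity), div_le_div_iff₀ (by positivity) (by positivity)]
      nlinarith [pow_pos hL0 2, pow_pos hL0 3]
    have g6 : (H : ℝ) * (1 / L - 1 / L ^ 2) ≤ H * (1 / (L + 1)) := mul_le_mul_of_nonneg_left g5 hHr.le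
    have g7 : 1 / (L + 1) ≤ 1 := by rw [div_le_one (by positivity)]; linarith
    have e5 : (H : ℝ) * (1 / L - 1 / L ^ 2) = H / L - H / L ^ 2 := by ring
    rw [e5] at g6
    have e6 : ((H : ℝ) - 1) * (1 / (L + 1)) = H * (1 / (L + 1)) - 1 / (L + 1) := by ring
    rw [e6]
    linarith
  have e7 : (1 / L - (2 * C1 + 2) / L ^ 2) * H = H / L - 2 * (H / L ^ 2) - 2 * (C1 * (H / L ^ 2)) := by ring
  rw [e7]
  linarith

/-- the longest waiting time for the patterns with entries up to `H ≥ X / log ^ B X` -/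
theorem wait_lawH (B : ℕ) (θ : ℝ) (hθ : 0 < θ) : ∃ C : ℝ, 0 < C ∧ ∀ᶠ X : ℕ in atTop, ∀ H : ℕ,
    (X : ℝ) / Real.log X ^ B ≤ H → H ≤ X → ∀ K : ℕ, Real.log X ^ 2 + C * Real.log X ≤ K →
      PK H K (fun h => ¬ ∃ g : ℕ, maxWait X h = g ∧ Real.log H ^ 2 - C * Real.log X ≤ g ∧
        (g : ℝ) ≤ Real.log X ^ 2 + C * Real.log X) ≤ θ := by
  obtain ⟨c, hc, h0⟩ := eta_lowH B
  obtain ⟨C₁, hC₁, h1⟩ := sharp_lower (θ / 2) (by positivity)
  obtain ⟨H₁, hH₁⟩ := eventually_atTop.1 h1
  set C₀ := 2 * c + 2 * |Real.log (θ / 2)| + 1 with hC₀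
  have hC₀0 : 0 < C₀ := by positivity
  have hpow : Tendsto (fun X : ℕ => (X : ℝ) / Real.log X ^ B) atTop atTop := by
    have h2 : Tendsto (fun x : ℝ => x / Real.log x ^ B) atTop atTop := by
      have h3 := (Real.isLittleO_pow_log_id_atTop (n := B))
      have h4 : Tendsto (fun x : ℝ => Real.log x ^ B / x) atTop (𝓝 0) := h3.tendsto_div_nhds_zero
      have h5 : ∀ᶠ x : ℝ in atTop, 0 < Real.log x ^ B / x := by
        filter_upwards [eventually_gt_atTop 1] with x hx
        have := Real.log_pos hx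
        positivity
      have h6 : Tendsto (fun x : ℝ => Real.log x ^ B / x) atTop (𝓝[>] 0) := tendsto_nhdsWithin_iff.2 ⟨h4, h5⟩
      refine (h6.inv_tendsto_nhdsGT_zero).congr (fun x => ?_)
      simp [inv_div]
    exact h2.comp tendsto_natCast_atTop_atTop
  refine ⟨C₀ + C₁ + 1, by positivity, ?_⟩
  filter_upwards [h0, hpow.eventually_ge_atTop ((max H₁ 3 : ℕ) : ℝ), eventually_ge_atTop 3, tends_log.eventually_ge_atTop (2 * c + 1)] with X h0 hX1 hX3 hL1 H hH hHX K hK
  have hHbig : max H₁ 3 ≤ H := by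
    have := hX1.trans hH
    exact_mod_cast this
  have a1 : H₁ ≤ H := le_trans (le_max_left _ _) hHbig
  have a2 : 3 ≤ H := le_trans (le_max_right _ _) hHbig
  have hH1 : 1 ≤ H := by omega
  have hXr : (0 : ℝ) < X := by exact_mod_cast (by omega : 0 < X)
  have hHr : (0 : ℝ) < H := by exact_mod_cast (by omega : 0 < H)
  set L := Real.log (X : ℝ) with hLd
  have hL1' : 1 ≤ L := by linarith
  have hL0 : 0 < L := by linarith
  have hlogH0 : 0 ≤ Real.log (H : ℝ) := Real.log_natCast_nonneg H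
  have hlogH : Real.log (H : ℝ) ≤ L := Real.log_le_log hHr (by exact_mod_cast hHX)
  have hpm := h0 H hH hHX
  set K1 := ⌈L ^ 2 + C₀ * L⌉₊ with hK1
  have f1 : L ^ 2 + C₀ * L ≤ K1 := Nat.le_ceil _
  have f2 : (K1 : ℝ) < L ^ 2 + C₀ * L + 1 := Nat.ceil_lt_add_one (by positivity)
  have hC0L : 0 < C₀ * L := by positivity
  have hC1L : 0 < C₁ * L := by positivity
  have hCL : (C₀ + C₁ + 1) * L = C₀ * L + C₁ * L + L := by ring
  have hK1K : K1 ≤ K := by
    apply Nat.ceil_le.2
    linarith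
  have e3 : PK H K (fun h => ∃ m ∈ Icc 1 X, Nm (fun i : Fin K1 => h (Fin.castLE hK1K i)) m = 0) ≤ θ / 2 := by
    rw [PK_castLE hH1 hK1K (fun h => ∃ m ∈ Icc 1 X, Nm h m = 0)]
    have h2 : ∀ m ∈ Icc 1 X, PK H K1 (fun h => Nm h m = 0) ≤ Real.exp (-(L + |Real.log (θ / 2)|)) := by
      intro m hm
      have hη := hpm m (mem_Icc.1 hm).2
      rw [binom hH1]
      simp only [Nat.choose_zero_right, Nat.cast_one, pow_zero, mul_one, one_mul, Nat.sub_zero]
      have hη1 : E1 H (pr m) ≤ 1 := by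
        rw [← E1_const hH1 1]
        exact E1_mono (fun h _ => pr_le_one m h)
      set η := E1 H (pr m) with hη'
      calc (1 - η) ^ K1 ≤ (Real.exp (-η)) ^ K1 := by
            apply pow_le_pow_left₀ (by linarith)
            linarith [Real.add_one_le_exp (-η)]
        _ = Real.exp (K1 * (-η)) := (Real.exp_nat_mul _ _).symm
        _ ≤ Real.exp (-(L + |Real.log (θ / 2)|)) := by
            apply Real.exp_le_exp.2
            have h3 : 0 ≤ 1 / L - c / L ^ 2 := by
              have e : 1 / L - c / L ^ 2 = (L - c) / L ^ 2 := by field_simp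
              rw [e]
              apply div_nonneg _ (by positivity)
              linarith
            have h4 : (L ^ 2 + C₀ * L) * (1 / L - c / L ^ 2) ≤ K1 * η :=
              mul_le_mul f1 hη h3 (Nat.cast_nonneg _)
            have h5 : (L ^ 2 + C₀ * L) * (1 / L - c / L ^ 2) = L + C₀ - c - c * C₀ / L := by field_simp; ring
            have h6 : c * C₀ / L ≤ C₀ / 2 := by
              rw [div_le_iff₀ hL0]
              nlinarith
            have h7 : C₀ / 2 = c + |Real.log (θ / 2)| + 1 / 2 := by rw [hC₀]; ring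
            linarith
    refine (PK_exists (Icc 1 X) (fun m h => Nm h m = 0)).trans ((sum_le_sum h2).trans ?_)
    rw [sum_const, nsmul_eq_mul, Nat.card_Icc, Nat.add_sub_cancel]
    have h6 : (X : ℝ) = Real.exp L := (Real.exp_log hXr).symm
    rw [h6, ← Real.exp_add]
    calc Real.exp (L + -(L + |Real.log (θ / 2)|)) ≤ Real.exp (Real.log (θ / 2)) := by
          apply Real.exp_le_exp.2
          linarith [neg_abs_le (Real.log (θ / 2))]
      _ = θ / 2 := Real.exp_log (by positivity)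
  rcases lt_or_ge (Real.log (H : ℝ) ^ 2 - C₁ * Real.log H) 0 with hneg | hneg
  · -- the lower bound is trivial
    refine le_trans (PK_mono ?_) (e3.trans (by linarith))
    intro h _ hh
    by_contra hc'
    push Not at hc'
    apply hh
    have g1 : maxWait X h ≤ (K1 : ℕ∞) := by
      unfold maxWait
      apply iSup₂_le
      intro m hm
      have := hc' m hm
      unfold Nm at this
      obtain ⟨i, hi⟩ := card_pos.1 (Nat.pos_of_ne_zero this)
      rw [mem_filter] at hi
      unfold wait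
      refine (iInf_le _ (Fin.castLE hK1K i)).trans ?_
      rw [if_pos hi.2]
      have : ((Fin.castLE hK1K i : Fin K) : ℕ) + 1 ≤ K1 := by
        have := i.2
        rw [Fin.val_castLE]
        omega
      exact_mod_cast this
    obtain ⟨g, hg, hgK⟩ := ENat.le_natCast_iff.1 g1
    refine ⟨g, hg, ?_, ?_⟩
    · have h8 : C₁ * Real.log H ≤ C₁ * L := mul_le_mul_of_nonneg_left hlogH hC₁.le
      have : (0 : ℝ) ≤ g := Nat.cast_nonneg _
      linarith
    · have : (g : ℝ) ≤ K1 := by exact_mod_cast hgK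
      linarith
  · set K2 := ⌊Real.log (H : ℝ) ^ 2 - C₁ * Real.log H⌋₊ with hK2
    have f4 : (K2 : ℝ) ≤ Real.log (H : ℝ) ^ 2 - C₁ * Real.log H := Nat.floor_le hneg
    have f5 : Real.log (H : ℝ) ^ 2 - C₁ * Real.log H < K2 + 1 := Nat.lt_floor_add_one _
    have f6 : Real.log (H : ℝ) ^ 2 ≤ L ^ 2 := pow_le_pow_left₀ hlogH0 hlogH 2
    have f7 : 0 ≤ C₁ * Real.log H := by positivity
    have hK2K : K2 ≤ K := by
      have : (K2 : ℝ) ≤ K := by linarith
      exact_mod_cast this
    have e4 : PK H K (fun h => ∀ m ∈ Icc 1 H, Nm (fun i : Fin K2 => h (Fin.castLE hK2K i)) m ≠ 0) ≤ θ / 2 := by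
      rw [PK_castLE hH1 hK2K (fun h => ∀ m ∈ Icc 1 H, Nm h m ≠ 0)]
      exact hH₁ H a1 K2 f4
    refine le_trans (PK_mono (C := fun h => (∃ m ∈ Icc 1 X, Nm (fun i : Fin K1 => h (Fin.castLE hK1K i)) m = 0) ∨
        (∀ m ∈ Icc 1 H, Nm (fun i : Fin K2 => h (Fin.castLE hK2K i)) m ≠ 0)) ?_)
      ((PK_or _ _).trans (by linarith))
    intro h _ hh
    by_contra hc'
    push Not at hc'
    apply hh
    obtain ⟨c3, m, hm, c4⟩ := hc'
    have hmX : m ∈ Icc 1 X := by
      rw [mem_Icc] at hm ⊢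
      exact ⟨hm.1, hm.2.trans hHX⟩
    obtain ⟨g, hg, hg1, hg2⟩ := wait_of h hK1K hK2K c3 ⟨m, hmX, c4⟩
    refine ⟨g, hg, ?_, ?_⟩
    · have h7 : (K2 : ℝ) + 1 ≤ g := by exact_mod_cast hg1
      have h8 : C₁ * Real.log H ≤ C₁ * L := mul_le_mul_of_nonneg_left hlogH hC₁.le
      linarith
    · have : (g : ℝ) ≤ K1 := by exact_mod_cast hg2
      linarith

end Pool.Agent.N735.CL
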