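import Mathlib
import Pool.Agent.N735.CL.WaitH

set_option autoImplicit false
set_option maxHeartbeats 2000000

/-! The fluctuations of the longest waiting time have order of magnitude at least `log X`. -/

namespace Pool.Agent.N735.CL

open Finset Filter Topology
open Pool.Agent.H646 (rat)

/-- the second moment inequality -/
lemma second_moment {X K : ℕ} (N : (Fin K → ℕ) → ℝ) (B : (Fin K → ℕ) → Prop)
    (hB : ∀ h, ¬ B h → N h = 0) {μ V : ℝ} (hV : 0 < V)
    (h1 : μ ≤ EK X K N) (h2 : EK X K (fun h => N h ^ 2) ≤ V * EK X K N) :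
    μ / V ≤ PK X K B := by
  classical
  set a := V with ha
  have h3 : EK X K (fun h => (2 / a) * N h - (1 / a ^ 2) * N h ^ 2) ≤ PK X K B := by
    unfold PK
    apply EK_mono
    intro h _
    by_cases hb : B h
    · rw [if_pos hb]
      have : 0 ≤ (1 - N h / a) ^ 2 := sq_nonneg _
      have e : (1 - N h / a) ^ 2 = 1 - ((2 / a) * N h - (1 / a ^ 2) * N h ^ 2) := by field_simp; ring
      linarith
    · rw [if_neg hb, hB h hb]; simp
  rw [EK_sub, EK_const_mul, EK_const_mul] at h3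
  have h4 : (1 / a ^ 2) * EK X K (fun v => N v ^ 2) ≤ (1 / a ^ 2) * (V * EK X K N) :=
    mul_le_mul_of_nonneg_left h2 (by positivity)
  have e1 : (1 / a ^ 2) * (V * EK X K N) = (1 / a) * EK X K N := by rw [ha]; field_simp
  rw [e1] at h4
  have h5 : (1 / a) * μ ≤ (1 / a) * EK X K N := mul_le_mul_of_nonneg_left h1 (by positivity)
  have e2 : (2 / a) * EK X K N = (1 / a) * EK X K N + (1 / a) * EK X K N := by ring
  have e3 : μ / a = (1 / a) * μ := by ring
  rw [e3]
  linarith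

lemma E1_tt {X : ℕ} (hX : 1 ≤ X) (m m' : ℕ) : E1 X (fun h => tf 0 m h * tf 0 m' h) =
    1 - E1 X (pr m) - E1 X (pr m') + E1 X (fun h => pr m h * pr m' h) := by
  have h1 : ∀ h ∈ Icc 1 X, tf 0 m h * tf 0 m' h = 1 + ((-1) * pr m h + ((-1) * pr m' h + pr m h * pr m' h)) := by
    intro h _
    rw [tf_eq, tf_eq]; ring
  rw [E1_congr h1, E1_add, E1_add, E1_add, E1_const hX, E1_const_mul, E1_const_mul]
  have e1 : E1 X (fun v => pr m v) = E1 X (pr m) := rfl
  have e2 : E1 X (fun v => pr m' v) = E1 X (pr m') := rfl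
  rw [e1, e2]
  ring

theorem fluct (C : ℝ) : ∃ c : ℝ, 0 < c ∧ ∀ᶠ X : ℕ in atTop, ∀ K : ℕ,
    (K : ℝ) ≤ Real.log X ^ 2 + C * Real.log X → c ≤ PK X K (fun h => ∃ m ∈ Icc 1 X, Nm h m = 0) := by
  obtain ⟨c, hc, hη⟩ := eta_precise
  obtain ⟨C₁, hC₁, hpc⟩ := pc_all
  set D := |C| + 1 with hD
  have hD0 : 0 < D := by positivity
  have hCD : C ≤ D := by rw [hD]; linarith [le_abs_self C]
  have hCD' : -D ≤ C := by rw [hD]; linarith [neg_abs_le C]
  set C₂ := (1 + D) * C₁ * 2 with hC₂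
  obtain ⟨C₃, hC₃0, hC₃⟩ := exc_avg 2 le_rfl C₂ (by positivity)
  set E1' := D + c * (1 + D) + 8 * (1 + D) with hE1
  set E2 := 2 * D + 2 + 2 * c * (1 + D) with hE2
  set μ := Real.exp (-E1') / 3 with hμ
  have hμ0 : 0 < μ := by positivity
  set C₄ := 2 * C₃ * Real.exp E2 with hC₄
  have hC₄0 : 0 ≤ C₄ := by positivity
  refine ⟨μ / (1 + C₄ / μ), by positivity, ?_⟩
  filter_upwards [hη, hpc, eventually_ge_atTop 9, tends_log.eventually_ge_atTop (2 * D + 2 * c + 10)] with X h1 h2 hX h3 K hK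
  have hX1 : 1 ≤ X := by omega
  have hXr : (9 : ℝ) ≤ X := by exact_mod_cast hX
  have hX0 : (0 : ℝ) < X := by linarith
  set L := Real.log (X : ℝ) with hL
  have hL1 : 10 ≤ L := by linarith
  have hL0 : 0 < L := by linarith
  -- reduction to the largest `K`
  set K0 := ⌊L ^ 2 + C * L⌋₊ with hK0
  have hKK0 : K ≤ K0 := Nat.le_floor hK
  have hpos : 0 ≤ L ^ 2 + C * L := by nlinarith
  have f1 : (K0 : ℝ) ≤ L ^ 2 + C * L := Nat.floor_le hpos
  have f2 : L ^ 2 + C * L < K0 + 1 := Nat.lt_floor_add_one _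
  have hred : PK X K0 (fun h => ∃ m ∈ Icc 1 X, Nm h m = 0) ≤ PK X K (fun h => ∃ m ∈ Icc 1 X, Nm h m = 0) := by
    rw [← PK_castLE hX1 hKK0 (fun h => ∃ m ∈ Icc 1 X, Nm h m = 0)]
    apply PK_mono
    intro h _ hh
    obtain ⟨m, hm, h0⟩ := hh
    refine ⟨m, hm, ?_⟩
    unfold Nm at h0 ⊢
    rw [card_eq_zero, filter_eq_empty_iff] at h0 ⊢
    intro i _
    exact h0 (mem_univ (Fin.castLE hKK0 i))
  refine le_trans ?_ hred
  have hCL1 : C * L ≤ D * L := mul_le_mul_of_nonneg_right hCD hL0.le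
  have hCL2 : -D * L ≤ C * L := mul_le_mul_of_nonneg_right hCD' hL0.le
  have hDL : D * L ≤ D * L ^ 2 := by
    apply mul_le_mul_of_nonneg_left _ hD0.le
    nlinarith
  have hKD : (K0 : ℝ) ≤ (1 + D) * L ^ 2 := by linarith
  have hKL : (K0 : ℝ) / L ≤ L + D := by
    rw [div_le_iff₀ hL0]
    have : (L + D) * L = L ^ 2 + D * L := by ring
    linarith
  have hKL' : L - D - 1 ≤ (K0 : ℝ) / L := by
    rw [le_div_iff₀ hL0]
    have : (L - D - 1) * L = L ^ 2 + -D * L - L := by ring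
    linarith
  have hKL2 : (K0 : ℝ) / L ^ 2 ≤ 1 + D := by
    rw [div_le_iff₀ (by positivity)]; exact hKD
  have hK0nn : (0 : ℝ) ≤ K0 := Nat.cast_nonneg _
  set J := X / 2 with hJ
  have hJX : (X : ℝ) / 3 ≤ J := by
    have h9 : X ≤ 3 * J := by omega
    have h10 : (X : ℝ) ≤ 3 * J := by exact_mod_cast h9
    linarith
  have hJX' : (J : ℝ) ≤ X := by exact_mod_cast (Nat.div_le_self X 2)
  have hmem : ∀ j ∈ Icc 1 J, 2 * j ≤ X := by
    intro j hj
    have := (mem_Icc.1 hj).2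
    omega
  set p : ℕ → ℝ := fun j => E1 X (pr (2 * j)) with hp
  have hp0 : ∀ j, 0 ≤ p j := fun j => E1_pr_nonneg X _
  have hpj : ∀ j ∈ Icc 1 J, |p j - 1 / L| ≤ c / L ^ 2 := fun j hj => h1 _ (hmem j hj)
  have hpj2 : ∀ j ∈ Icc 1 J, p j ≤ 2 / L := by
    intro j hj
    have := (abs_le.1 (hpj j hj)).2
    have h9 : c / L ^ 2 ≤ 1 / L := by
      rw [div_le_div_iff₀ (by positivity) hL0]
      nlinarith
    have e : (2 : ℝ) / L = 1 / L + 1 / L := by ring
    linarith
  set N : (Fin K0 → ℕ) → ℝ := fun h => ∑ j ∈ Icc 1 J, (0 : ℝ) ^ Nm h (2 * j) with hN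
  set B : (Fin K0 → ℕ) → Prop := fun h => ∃ m ∈ Icc 1 X, Nm h m = 0 with hB
  have hNB : ∀ h, ¬ B h → N h = 0 := by
    intro h hb
    simp only [hN]
    apply sum_eq_zero
    intro j hj
    apply zero_pow
    intro h0
    apply hb
    refine ⟨2 * j, mem_Icc.2 ⟨?_, hmem j hj⟩, h0⟩
    have := (mem_Icc.1 hj).1
    omega
  -- the mean value
  have hEN : EK X K0 N = ∑ j ∈ Icc 1 J, (1 - p j) ^ K0 := by
    simp only [hN]
    rw [EK_sum]
    apply sum_congr rfl
    intro j _
    rw [EK_pow hX1]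
    congr 1
    ring
  have hlow : μ ≤ EK X K0 N := by
    rw [hEN]
    have h4 : ∀ j ∈ Icc 1 J, Real.exp (-E1') / X ≤ (1 - p j) ^ K0 := by
      intro j hj
      have h5 := hpj2 j hj
      have h6 := (abs_le.1 (hpj j hj)).2
      have h7 : p j ≤ 1 / 5 := by
        refine h5.trans ?_
        rw [div_le_iff₀ hL0]; linarith
      have h8 := exp_le_one_add (x := -(p j)) (by rw [abs_neg, abs_of_nonneg (hp0 j)]; exact h7)
      have h9 : Real.exp (K0 * (-(p j) - 2 * (-(p j)) ^ 2)) ≤ (1 - p j) ^ K0 := by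
        rw [Real.exp_nat_mul]
        exact pow_le_pow_left₀ (Real.exp_pos _).le (by linarith) _
      refine le_trans ?_ h9
      have h10 : Real.exp (-E1') / X = Real.exp (-E1' - L) := by
        rw [Real.exp_sub, hL, exp_log_nat hX1]
      rw [h10]
      apply Real.exp_le_exp.2
      have g1 : K0 * p j ≤ L + D + c * (1 + D) := by
        calc (K0 : ℝ) * p j ≤ K0 * (1 / L + c / L ^ 2) := mul_le_mul_of_nonneg_left (by linarith) hK0nn
          _ = K0 / L + c * (K0 / L ^ 2) := by ring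
          _ ≤ (L + D) + c * (1 + D) := add_le_add hKL (mul_le_mul_of_nonneg_left hKL2 hc.le)
      have g2 : K0 * (2 * (p j) ^ 2) ≤ 8 * (1 + D) := by
        have g3 : (p j) ^ 2 ≤ (2 / L) ^ 2 := pow_le_pow_left₀ (hp0 j) h5 2
        calc (K0 : ℝ) * (2 * (p j) ^ 2) ≤ K0 * (2 * (2 / L) ^ 2) := by gcongr
          _ = 8 * (K0 / L ^ 2) := by ring
          _ ≤ 8 * (1 + D) := by linarith
      have g4 : (K0 : ℝ) * (-(p j) - 2 * (-(p j)) ^ 2) = -(K0 * p j) - K0 * (2 * (p j) ^ 2) := by ring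
      rw [g4, hE1]
      linarith
    have h5 := sum_le_sum h4
    rw [sum_const, nsmul_eq_mul, Nat.card_Icc, Nat.add_sub_cancel] at h5
    refine le_trans ?_ h5
    have h6 : (X : ℝ) / 3 * (Real.exp (-E1') / X) ≤ J * (Real.exp (-E1') / X) :=
      mul_le_mul_of_nonneg_right hJX (by positivity)
    have h7 : (X : ℝ) / 3 * (Real.exp (-E1') / X) = μ := by rw [hμ]; field_simp
    linarith
  -- the second moment
  set f : ℕ → ℝ := fun d => Real.exp (C₂ * Real.exp (sw 2 d)) with hf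
  have hf0 : ∀ d : ℕ, 0 ≤ f d := fun d => (Real.exp_pos _).le
  have hW2 : Ww 2 = 2 := by decide
  have hV2 : Vw 2 = 1 / 2 := by
    rw [Vw_eq, hW2]
    norm_num
  set F := Real.exp E2 / X ^ 2 with hF
  have hF0 : 0 ≤ F := by positivity
  have hpair : ∀ i ∈ Icc 1 J, ∀ j ∈ Icc 1 J, i < j →
      EK X K0 (fun h => (0 : ℝ) ^ Nm h (2 * i) * (0 : ℝ) ^ Nm h (2 * j)) ≤ F * f (j - i) := by
    intro i hi j hj hij
    have e1 : EK X K0 (fun h => (0 : ℝ) ^ Nm h (2 * i) * (0 : ℝ) ^ Nm h (2 * j)) =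
        (1 - p i - p j + E1 X (fun h => pr (2 * i) h * pr (2 * j) h)) ^ K0 := by
      rw [← E1_tt hX1, ← EK_prod X K0 (fun v => tf 0 (2 * i) v * tf 0 (2 * j) v)]
      apply EK_congr
      intro h _
      rw [← prod_tf, ← prod_tf, ← prod_mul_distrib]
    rw [e1]
    set q := E1 X (fun h => pr (2 * i) h * pr (2 * j) h) with hq
    have hd : 0 < 2 * (j - i) := by omega
    have h4 := h2 (2 * i) (2 * (j - i)) hd
    have e2 : 2 * i + 2 * (j - i) = 2 * j := by omega
    rw [e2, ← hq] at h4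
    have h5 : rat (2 * (j - i)) ≤ 2 * Real.exp (sw 2 (j - i)) := by
      have := rat_W 2 (j - i) (by omega)
      rw [hW2, hV2] at this
      refine this.trans (le_of_eq ?_)
      norm_num
    have h6 : q ≤ C₁ * (2 * Real.exp (sw 2 (j - i))) / L ^ 2 := by
      rw [le_div_iff₀ (by positivity)]
      exact h4.trans (mul_le_mul_of_nonneg_left h5 hC₁.le)
    have hq0 : 0 ≤ q := E1_nonneg (fun a _ => mul_nonneg (pr_nonneg _ a) (pr_nonneg _ a))
    have hbase : 0 ≤ 1 - p i - p j + q := by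
      have a1 := hpj2 i hi
      have a2 := hpj2 j hj
      have a3 : (2 : ℝ) / L ≤ 1 / 5 := by rw [div_le_iff₀ hL0]; linarith
      linarith
    calc (1 - p i - p j + q) ^ K0 ≤ (Real.exp (-(p i) - p j + q)) ^ K0 := by
          apply pow_le_pow_left₀ hbase
          linarith [Real.add_one_le_exp (-(p i) - p j + q)]
      _ = Real.exp (K0 * (-(p i) - p j + q)) := (Real.exp_nat_mul _ _).symm
      _ ≤ Real.exp ((E2 - 2 * L) + C₂ * Real.exp (sw 2 (j - i))) := by
          apply Real.exp_le_exp.2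
          have b1 := (abs_le.1 (hpj i hi)).1
          have b2 := (abs_le.1 (hpj j hj)).1
          have b3 : L - D - 1 - c * (1 + D) ≤ K0 * p i := by
            have : (K0 : ℝ) * (1 / L - c / L ^ 2) ≤ K0 * p i := mul_le_mul_of_nonneg_left (by linarith) hK0nn
            have e : (K0 : ℝ) * (1 / L - c / L ^ 2) = K0 / L - c * (K0 / L ^ 2) := by ring
            have := mul_le_mul_of_nonneg_left hKL2 hc.le
            linarith
          have b4 : L - D - 1 - c * (1 + D) ≤ K0 * p j := by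
            have : (K0 : ℝ) * (1 / L - c / L ^ 2) ≤ K0 * p j := mul_le_mul_of_nonneg_left (by linarith) hK0nn
            have e : (K0 : ℝ) * (1 / L - c / L ^ 2) = K0 / L - c * (K0 / L ^ 2) := by ring
            have := mul_le_mul_of_nonneg_left hKL2 hc.le
            linarith
          have b5 : K0 * q ≤ C₂ * Real.exp (sw 2 (j - i)) := by
            calc (K0 : ℝ) * q ≤ K0 * (C₁ * (2 * Real.exp (sw 2 (j - i))) / L ^ 2) := mul_le_mul_of_nonneg_left h6 hK0nn
              _ = (K0 / L ^ 2) * (C₁ * (2 * Real.exp (sw 2 (j - i)))) := by ring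
              _ ≤ (1 + D) * (C₁ * (2 * Real.exp (sw 2 (j - i)))) := mul_le_mul_of_nonneg_right hKL2 (by positivity)
              _ = _ := by rw [hC₂]; ring
          have e : (K0 : ℝ) * (-(p i) - p j + q) = -(K0 * p i) - K0 * p j + K0 * q := by ring
          rw [e, hE2]
          linarith
      _ = F * f (j - i) := by
          rw [Real.exp_add, Real.exp_sub, hF]
          congr 2
          rw [two_mul, Real.exp_add, hL, exp_log_nat hX1, sq]
  have hsecond : EK X K0 (fun h => N h ^ 2) ≤ (1 + C₄ / μ) * EK X K0 N := by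
    have e1 : ∀ h ∈ Om X K0, N h ^ 2 = ∑ i ∈ Icc 1 J, ∑ j ∈ Icc 1 J, (0 : ℝ) ^ Nm h (2 * i) * (0 : ℝ) ^ Nm h (2 * j) := by
      intro h _
      simp only [hN]
      rw [sq, sum_mul_sum]
    rw [EK_congr e1, EK_sum]
    have h4 : ∀ i ∈ Icc 1 J, EK X K0 (fun h => ∑ j ∈ Icc 1 J, (0 : ℝ) ^ Nm h (2 * i) * (0 : ℝ) ^ Nm h (2 * j)) ≤
        EK X K0 (fun h => (0 : ℝ) ^ Nm h (2 * i)) + F * (2 * (J * C₃)) := by
      intro i hi
      rw [EK_sum]
      have h5 : ∀ j ∈ Icc 1 J, EK X K0 (fun h => (0 : ℝ) ^ Nm h (2 * i) * (0 : ℝ) ^ Nm h (2 * j)) ≤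
          (if j = i then EK X K0 (fun h => (0 : ℝ) ^ Nm h (2 * i)) else 0) +
            F * ((if i < j then f (j - i) else 0) + (if j < i then f (i - j) else 0)) := by
        intro j hj
        rcases lt_trichotomy i j with h | h | h
        · rw [if_neg (by omega), if_pos h, if_neg (by omega), zero_add, add_zero]
          exact hpair i hi j hj h
        · subst h
          rw [if_pos rfl, if_neg (by omega)]
          simp only [add_zero, mul_zero]
          apply EK_mono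
          intro v _
          rcases Nat.eq_zero_or_pos (Nm v (2 * i)) with h0 | h0
          · rw [h0]; simp
          · rw [zero_pow (by omega)]; simp
        · rw [if_neg (by omega), if_neg (by omega), if_pos h, zero_add, zero_add]
          have := hpair j hj i hi h
          refine le_trans (le_of_eq ?_) this
          apply EK_congr
          intro v _
          ring
      refine (sum_le_sum h5).trans ?_
      rw [sum_add_distrib, ← mul_sum, sum_add_distrib, sum_ite_eq' (Icc 1 J) i, if_pos hi]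
      have s1 := (sum_shift_le J i f (fun d _ => hf0 d)).trans (hC₃ J)
      have s2 := (sum_shift_le' J i (mem_Icc.1 hi).2 f (fun d _ => hf0 d)).trans (hC₃ J)
      have := mul_le_mul_of_nonneg_left (add_le_add s1 s2) hF0
      linarith
    refine (sum_le_sum h4).trans ?_
    rw [sum_add_distrib, sum_const, nsmul_eq_mul, Nat.card_Icc, Nat.add_sub_cancel]
    have h6 : ∑ i ∈ Icc 1 J, EK X K0 (fun h => (0 : ℝ) ^ Nm h (2 * i)) = EK X K0 N := by
      simp only [hN]
      rw [EK_sum]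
    rw [h6]
    have h7 : (J : ℝ) * (F * (2 * (J * C₃))) ≤ C₄ := by
      have h8 : (J : ℝ) * J ≤ X * X := mul_le_mul hJX' hJX' (Nat.cast_nonneg _) hX0.le
      calc (J : ℝ) * (F * (2 * (J * C₃))) = (J * J) * (F * (2 * C₃)) := by ring
        _ ≤ (X * X) * (F * (2 * C₃)) := mul_le_mul_of_nonneg_right h8 (by positivity)
        _ = C₄ := by rw [hF, hC₄]; field_simp
    have h8 : C₄ ≤ C₄ / μ * EK X K0 N := by
      have : C₄ = C₄ / μ * μ := by field_simp
      calc C₄ = C₄ / μ * μ := this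
        _ ≤ _ := mul_le_mul_of_nonneg_left hlow (by positivity)
    linarith
  exact second_moment N B hNB (by positivity) hlow hsecond

theorem wait_fluct (C : ℝ) : ∃ c : ℝ, 0 < c ∧ ∀ᶠ X : ℕ in atTop, ∀ K : ℕ,
    Real.log X ^ 2 + C * Real.log X ≤ K →
      c ≤ PK X K (fun h => ∃ n : ℕ, Real.log X ^ 2 + C * Real.log X ≤ n ∧ (n : ℕ∞) ≤ maxWait X h) := by
  obtain ⟨c, hc, h⟩ := fluct C
  refine ⟨c, hc, ?_⟩
  filter_upwards [h, eventually_ge_atTop 3, tends_log.eventually_ge_atTop (|C| + 1)] with X h hX hL K hK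
  have hX1 : 1 ≤ X := by omega
  have hL0 : 0 < Real.log (X : ℝ) := by
    have := abs_nonneg C
    linarith
  set L := Real.log (X : ℝ) with hLd
  have hpos : 0 ≤ L ^ 2 + C * L := by
    have := neg_abs_le C
    nlinarith
  set K0 := ⌊L ^ 2 + C * L⌋₊ with hK0
  have f1 : (K0 : ℝ) ≤ L ^ 2 + C * L := Nat.floor_le hpos
  have f2 : L ^ 2 + C * L < K0 + 1 := Nat.lt_floor_add_one _
  have hle : K0 ≤ K := by
    have : (K0 : ℝ) ≤ K := f1.trans hK
    exact_mod_cast this
  refine (h K0 f1).trans ?_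
  rw [← PK_castLE hX1 hle (fun h => ∃ m ∈ Icc 1 X, Nm h m = 0)]
  apply PK_mono
  intro h _ hh
  obtain ⟨m, hm, h0⟩ := hh
  refine ⟨K0 + 1, by push_cast; linarith, ?_⟩
  unfold maxWait
  refine le_trans ?_ (le_iSup₂ (f := fun m (_ : m ∈ Icc 1 X) => wait h m) m hm)
  unfold Nm at h0
  rw [card_eq_zero, filter_eq_empty_iff] at h0
  unfold wait
  apply le_iInf
  intro i
  split_ifs with hp
  · have : K0 ≤ (i : ℕ) := by
      by_contra hcc
      push Not at hcc
      exact h0 (mem_univ (⟨i, hcc⟩ : Fin K0)) hp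
    have h2 : K0 + 1 ≤ (i : ℕ) + 1 := by omega
    exact_mod_cast h2
  · exact le_top

end Pool.Agent.N735.CL
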