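import Mathlib
import Pool.Agent.N735.CL.Fluct

set_option autoImplicit false
set_option maxHeartbeats 2000000

/-! The uniform law for long patterns. -/

namespace Pool.Agent.N735.CL

open Finset Filter Topology
open Pool.Agent.H442R2.EHI (lis pnt_err)

/-- the density of the primes in `(m, m + H]`, `H ≥ X / log ^ B X` -/
theorem eta_H (B : ℕ) (δ : ℝ) (hδ : 0 < δ) : ∀ᶠ X : ℕ in atTop, ∀ H : ℕ, (X : ℝ) / Real.log X ^ B ≤ H → H ≤ X →
    ∀ m : ℕ, m ≤ X → |E1 H (pr m) * Real.log X - 1| ≤ δ := by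
  obtain ⟨c, hc, hlow⟩ := eta_lowH B
  obtain ⟨C1, hC1, h1⟩ := pi_lisU (B + 2)
  obtain ⟨C2, hC2, h2⟩ := lis_le
  set δ1 := min (δ / 8) (1 / 4) with hδ1
  have hδ10 : 0 < δ1 := lt_min (by positivity) (by norm_num)
  have hδ1a : δ1 ≤ δ / 8 := min_le_left _ _
  have hδ1b : δ1 ≤ 1 / 4 := min_le_right _ _
  filter_upwards [hlow, h1, eventually_ge_atTop 9, tends_log.eventually_ge_atTop ((c + 2 * C1 + 2 * C2 + 2) / δ1 + 2),
    ev_small 1 δ1 one_pos hδ10 B, ev_small 1 (1 / 2) one_pos (by norm_num) (B + 2)] with X e1 e2 e3 e4 e5 e6 H hH hHX m hm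
  have hX9 : (9 : ℝ) ≤ X := by exact_mod_cast e3
  have hX0 : (0 : ℝ) < X := by linarith
  set L := Real.log (X : ℝ) with hL
  have hq : 0 ≤ (c + 2 * C1 + 2 * C2 + 2) / δ1 := by positivity
  have hL1 : 2 ≤ L := by linarith
  have hL0 : 0 < L := by linarith
  have hsmall : c + 2 * C1 + 2 * C2 + 2 ≤ δ1 * L := by
    have : (c + 2 * C1 + 2 * C2 + 2) / δ1 ≤ L := by linarith
    rw [div_le_iff₀ hδ10] at this
    linarith
  -- `H ≥ X ^ (1 - δ1)`
  have hHpow : (X : ℝ) ^ (1 - δ1) ≤ H := by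
    refine le_trans ?_ hH
    rw [le_div_iff₀ (by positivity)]
    linarith
  have hH0 : (0 : ℝ) < H := lt_of_lt_of_le (by positivity) hHpow
  have hlogH : (1 - δ1) * L ≤ Real.log H := by
    rw [hL, ← Real.log_rpow hX0]
    exact Real.log_le_log (by positivity) hHpow
  have hlogH0 : 0 < Real.log (H : ℝ) := by
    have : 0 < (1 - δ1) * L := by
      have : 0 < 1 - δ1 := by linarith
      positivity
    linarith
  have hX1 : (1 : ℝ) ≤ (X : ℝ) ^ (1 - 1 / 2 : ℝ) := Real.one_le_rpow (by linarith) (by norm_num)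
  have hLX : L ^ (B + 2) ≤ X := by
    have : L ^ (B + 2) * 1 ≤ L ^ (B + 2) * (X : ℝ) ^ (1 - 1 / 2 : ℝ) := mul_le_mul_of_nonneg_left hX1 (by positivity)
    linarith
  have hXB : X / L ^ (B + 2) ≤ H / L ^ 2 := by
    rw [pow_add, ← div_div]
    exact div_le_div_of_nonneg_right hH (by positivity)
  have hone : (1 : ℝ) ≤ H / L ^ 2 := by
    refine le_trans ?_ hXB
    rw [le_div_iff₀ (by positivity)]; linarith
  have hHbig : (2 : ℝ) ≤ H := by
    rw [le_div_iff₀ (by positivity)] at hone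
    nlinarith
  have hH2 : 2 ≤ H := by exact_mod_cast hHbig
  rw [abs_le]
  constructor
  · -- lower bound
    have h3 := e1 H hH hHX m hm
    have h4 : (1 / L - c / L ^ 2) * L ≤ E1 H (pr m) * L := mul_le_mul_of_nonneg_right h3 hL0.le
    have h5 : (1 / L - c / L ^ 2) * L = 1 - c / L := by field_simp
    have h6 : c / L ≤ δ1 := by rw [div_le_iff₀ hL0]; linarith
    linarith
  · -- upper bound
    have a1 := (abs_le.1 (e2 (m + H) (by omega))).2
    have a2 := (abs_le.1 (e2 m (by omega))).1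
    have hCX : C1 * (X / L ^ (B + 2)) ≤ C1 * (H / L ^ 2) := mul_le_mul_of_nonneg_left hXB hC1.le
    have g0 : lis (m + H) - lis m ≤ lis (H + 1) := lis_diff H m
    have g1 := h2 H hH2
    have g2 := lis_succ H (by omega)
    have g3 : 1 / Real.log ((H : ℝ) + 1) ≤ 1 := by
      have h3 : 1 ≤ Real.log ((H : ℝ) + 1) := by
        rw [Real.le_log_iff_exp_le (by linarith)]
        linarith [Real.exp_one_lt_d9]
      rw [div_le_one (by linarith)]; exact h3
    rw [E1_pr]
    set P : ℝ := (Nat.primeCounting (m + H) : ℝ) - Nat.primeCounting m with hP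
    have h3 : P ≤ H / Real.log H + C2 * (H / Real.log H ^ 2) + 1 + 2 * (C1 * (H / L ^ 2)) := by linarith
    have h4 : P / H * L - 1 ≤ δ ↔ P * L ≤ (1 + δ) * H := by
      rw [div_mul_eq_mul_div, sub_le_iff_le_add, div_le_iff₀ hH0, add_comm δ 1]
    rw [h4]
    have hlam : L / Real.log H ≤ 1 + 2 * δ1 := by
      rw [div_le_iff₀ hlogH0]
      have h5 : (1 + 2 * δ1) * ((1 - δ1) * L) ≤ (1 + 2 * δ1) * Real.log H := mul_le_mul_of_nonneg_left hlogH (by positivity)
      have h6 : L ≤ (1 + 2 * δ1) * ((1 - δ1) * L) := by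
        have : 1 ≤ (1 + 2 * δ1) * (1 - δ1) := by nlinarith
        nlinarith
      linarith
    have hlam0 : 0 ≤ L / Real.log H := by positivity
    have t1 : H / Real.log H * L ≤ (1 + 2 * δ1) * H := by
      calc H / Real.log H * L = (L / Real.log H) * H := by ring
        _ ≤ (1 + 2 * δ1) * H := mul_le_mul_of_nonneg_right hlam hH0.le
    have t2 : C2 * (H / Real.log H ^ 2) * L ≤ 2 * δ1 * H := by
      have h5 : (L / Real.log H) ^ 2 ≤ 4 := by
        have : L / Real.log H ≤ 2 := by linarith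
        nlinarith
      calc C2 * (H / Real.log H ^ 2) * L = (C2 / L) * (L / Real.log H) ^ 2 * H := by field_simp
        _ ≤ (C2 / L) * 4 * H := by gcongr
        _ ≤ 2 * δ1 * H := by
            apply mul_le_mul_of_nonneg_right _ hH0.le
            have : C2 / L ≤ δ1 / 2 := by
              rw [div_le_iff₀ hL0]; linarith
            linarith
    have t3 : 1 * L ≤ δ1 * H := by
      have : L ^ 2 ≤ H := by
        rw [le_div_iff₀ (by positivity)] at hone; linarith
      have h5 : 1 ≤ δ1 * L := by linarith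
      nlinarith
    have t4 : 2 * (C1 * (H / L ^ 2)) * L ≤ δ1 * H := by
      calc 2 * (C1 * (H / L ^ 2)) * L = (2 * C1 / L) * H := by field_simp
        _ ≤ δ1 * H := by
            apply mul_le_mul_of_nonneg_right _ hH0.le
            rw [div_le_iff₀ hL0]; linarith
    calc P * L ≤ (H / Real.log H + C2 * (H / Real.log H ^ 2) + 1 + 2 * (C1 * (H / L ^ 2))) * L := mul_le_mul_of_nonneg_right h3 hL0.le
      _ = H / Real.log H * L + C2 * (H / Real.log H ^ 2) * L + 1 * L + 2 * (C1 * (H / L ^ 2)) * L := by ring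
      _ ≤ (1 + 2 * δ1) * H + 2 * δ1 * H + δ1 * H + δ1 * H := by linarith
      _ = (1 + 6 * δ1) * H := by ring
      _ ≤ (1 + δ) * H := by
          apply mul_le_mul_of_nonneg_right _ hH0.le
          linarith

/-- the number of the `i < k` such that `m + h i` is a prime -/
def cntPre {K : ℕ} (h : Fin K → ℕ) (k m : ℕ) : ℕ := (univ.filter fun i : Fin K => (i : ℕ) < k ∧ (m + h i).Prime).card

lemma cntPre_eq {K k : ℕ} (hk : k ≤ K) (h : Fin K → ℕ) (m : ℕ) :
    cntPre h k m = Nm (fun i : Fin k => h (Fin.castLE hk i)) m := by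
  unfold cntPre Nm
  symm
  apply Finset.card_bij (fun (i : Fin k) _ => Fin.castLE hk i)
  · intro i hi
    rw [mem_filter] at hi ⊢
    exact ⟨mem_univ _, i.2, hi.2⟩
  · intro i _ j _ hij
    exact Fin.castLE_injective hk hij
  · intro i hi
    rw [mem_filter] at hi
    refine ⟨⟨(i : ℕ), hi.2.1⟩, mem_filter.2 ⟨mem_univ _, hi.2.2⟩, ?_⟩
    ext
    rfl

/-- Chernoff bounds for one translate and one length -/
lemma one_len (ε : ℝ) (hε : 0 < ε) : ∃ I δ : ℝ, 0 < I ∧ 0 < δ ∧ ∀ H k m : ℕ, ∀ L : ℝ, 1 ≤ H → 0 < L →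
    |E1 H (pr m) * L - 1| ≤ δ → PK H k (fun h => ε * (k / L) < |(Nm h m : ℝ) - k / L|) ≤ 2 * Real.exp (-(I * (k / L))) := by
  set e := min ε (1 / 2) with he
  have he0 : 0 < e := lt_min hε (by norm_num)
  have he1 : e < 1 := lt_of_le_of_lt (min_le_right _ _) (by norm_num)
  have heε : e ≤ ε := min_le_left _ _
  have hU := I_up e he0
  have hD := I_dn e he0 he1
  set IU := (1 + e) * Real.log (1 + e) - e with hIU
  set ID := e + (1 - e) * Real.log (1 - e) with hID
  set I0 := min IU ID with hI0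
  have hI00 : 0 < I0 := lt_min hU hD
  refine ⟨I0 / 2, I0 / 2, by positivity, by positivity, ?_⟩
  intro H k m L hH hL hη
  set M : ℝ := k / L with hM
  have hM0 : 0 ≤ M := by positivity
  have hKη : |k * E1 H (pr m) - M| ≤ M * (I0 / 2) := by
    have h6 : k * E1 H (pr m) - M = M * (E1 H (pr m) * L - 1) := by rw [hM]; field_simp
    rw [h6, abs_mul, abs_of_nonneg hM0]
    exact mul_le_mul_of_nonneg_left hη hM0
  have hup : PK H k (fun h => (1 + e) * M ≤ (Nm h m : ℝ)) ≤ Real.exp (-(I0 / 2 * M)) := by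
    have hb : 0 < 1 + e := by linarith
    have hlog : 0 ≤ Real.log (1 + e) := Real.log_nonneg (by linarith)
    refine (chern (m := m) hH hb ((1 + e) * M * Real.log (1 + e)) (e * (M + M * (I0 / 2))) _ ?_ ?_).trans ?_
    · intro h hh
      exact mul_le_mul_of_nonneg_right hh hlog
    · have h5 := (abs_le.1 hKη).2
      have e1 : 1 + e - 1 = e := by ring
      rw [e1]
      exact mul_le_mul_of_nonneg_left (by linarith) he0.le
    · apply Real.exp_le_exp.2
      have h6 : e * (M + M * (I0 / 2)) - (1 + e) * M * Real.log (1 + e) = - (M * (IU - e * (I0 / 2))) := by rw [hIU]; ring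
      rw [h6]
      have h7 : I0 / 2 ≤ IU - e * (I0 / 2) := by
        have : I0 ≤ IU := min_le_left _ _
        nlinarith
      have h8 := mul_le_mul_of_nonneg_left h7 hM0
      linarith
  have hdn : PK H k (fun h => (Nm h m : ℝ) ≤ (1 - e) * M) ≤ Real.exp (-(I0 / 2 * M)) := by
    have hb : 0 < 1 - e := by linarith
    have hlog : Real.log (1 - e) ≤ 0 := Real.log_nonpos hb.le (by linarith)
    refine (chern (m := m) hH hb ((1 - e) * M * Real.log (1 - e)) (-e * (M - M * (I0 / 2))) _ ?_ ?_).trans ?_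
    · intro h hh
      exact mul_le_mul_of_nonpos_right hh hlog
    · have h5 := (abs_le.1 hKη).1
      have e1 : 1 - e - 1 = -e := by ring
      rw [e1, neg_mul, neg_mul]
      apply neg_le_neg
      exact mul_le_mul_of_nonneg_left (by linarith) he0.le
    · apply Real.exp_le_exp.2
      have h6 : -e * (M - M * (I0 / 2)) - (1 - e) * M * Real.log (1 - e) = - (M * (ID - e * (I0 / 2))) := by rw [hID]; ring
      rw [h6]
      have h7 : I0 / 2 ≤ ID - e * (I0 / 2) := by
        have : I0 ≤ ID := min_le_right _ _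
        nlinarith
      have h8 := mul_le_mul_of_nonneg_left h7 hM0
      linarith
  refine le_trans (PK_mono (C := fun h => ((1 + e) * M ≤ (Nm h m : ℝ)) ∨ ((Nm h m : ℝ) ≤ (1 - e) * M)) ?_) ((PK_or _ _).trans (by linarith))
  intro h _ hh
  have h6 : e * M < |(Nm h m : ℝ) - M| := lt_of_le_of_lt (mul_le_mul_of_nonneg_right heε hM0) hh
  rcases lt_abs.1 h6 with h7 | h7
  · left; linarith
  · right; linarith

/-- the uniform law for all long prefixes -/
theorem unif_law (B : ℕ) (ε θ : ℝ) (hε : 0 < ε) (hθ : 0 < θ) : ∃ A : ℝ, 0 < A ∧ ∀ᶠ X : ℕ in atTop, ∀ H : ℕ,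
    (X : ℝ) / Real.log X ^ B ≤ H → H ≤ X → ∀ K : ℕ,
      PK H K (fun h => ¬ ∀ k : ℕ, k ≤ K → A * Real.log X ^ 2 ≤ k → ∀ m ∈ Icc 1 X,
        |(cntPre h k m : ℝ) - k / Real.log X| ≤ ε * (k / Real.log X)) ≤ θ := by
  classical
  obtain ⟨I, δ, hI, hδ, hone⟩ := one_len ε hε
  refine ⟨4 / I, by positivity, ?_⟩
  filter_upwards [eta_H B δ hδ, eventually_ge_atTop 9, tends_log.eventually_ge_atTop 1,
    ev_small (θ / (4 * (1 + 2 / I))) (1 / 2) (by positivity) (by norm_num) 1] with X h1 hX hL1 h4 H hH hHX K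
  have hXr : (9 : ℝ) ≤ X := by exact_mod_cast hX
  have hX0 : (0 : ℝ) < X := by linarith
  set L := Real.log (X : ℝ) with hL
  have hL0 : 0 < L := by linarith
  have hH0 : (0 : ℝ) < H := lt_of_lt_of_le (by positivity) hH
  have hH1 : 1 ≤ H := by exact_mod_cast hH0
  set S := (range (K + 1)).filter (fun k : ℕ => 4 / I * L ^ 2 ≤ (k : ℝ)) with hS
  have hsub : PK H K (fun h => ¬ ∀ k : ℕ, k ≤ K → 4 / I * L ^ 2 ≤ k → ∀ m ∈ Icc 1 X,
        |(cntPre h k m : ℝ) - k / L| ≤ ε * (k / L)) ≤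
      PK H K (fun h => ∃ q ∈ S ×ˢ Icc 1 X, ε * (q.1 / L) < |(cntPre h q.1 q.2 : ℝ) - q.1 / L|) := by
    apply PK_mono
    intro h _ hh
    push Not at hh
    obtain ⟨k, hk, hkA, m, hm, hc⟩ := hh
    exact ⟨(k, m), mem_product.2 ⟨mem_filter.2 ⟨mem_range.2 (by omega), hkA⟩, hm⟩, hc⟩
  refine hsub.trans ((PK_exists (S ×ˢ Icc 1 X) (fun q h => ε * (q.1 / L) < |(cntPre h q.1 q.2 : ℝ) - q.1 / L|)).trans ?_)
  rw [sum_product]
  set ρ := Real.exp (-(I / 2 / L)) with hρ
  have hρ0 : 0 < ρ := Real.exp_pos _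
  have hρ1 : ρ < 1 := by
    rw [hρ, Real.exp_lt_one_iff]
    have : 0 < I / 2 / L := by positivity
    linarith
  have hterm : ∀ k ∈ S, ∑ m ∈ Icc 1 X, PK H K (fun h => ε * (k / L) < |(cntPre h k m : ℝ) - k / L|) ≤ 2 / X * ρ ^ k := by
    intro k hk
    rw [hS, mem_filter, mem_range] at hk
    have hkK : k ≤ K := by omega
    have h5 : ∀ m ∈ Icc 1 X, PK H K (fun h => ε * (k / L) < |(cntPre h k m : ℝ) - k / L|) ≤ 2 * Real.exp (-(I * (k / L))) := by
      intro m hm
      have h6 := hone H k m L hH1 hL0 (h1 H hH hHX m (mem_Icc.1 hm).2)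
      refine le_trans (le_of_eq ?_) h6
      rw [← PK_castLE hH1 hkK (fun h => ε * (k / L) < |(Nm h m : ℝ) - k / L|)]
      congr 1
      funext h
      rw [cntPre_eq hkK]
    refine (sum_le_sum h5).trans ?_
    rw [sum_const, nsmul_eq_mul, Nat.card_Icc, Nat.add_sub_cancel]
    have h6 : Real.exp (-(I * (k / L))) ≤ ρ ^ k * Real.exp (-(2 * L)) := by
      rw [hρ, ← Real.exp_nat_mul, ← Real.exp_add]
      apply Real.exp_le_exp.2
      have h7 : 4 / I * L ≤ k / L := by
        rw [le_div_iff₀ hL0]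
        calc 4 / I * L * L = 4 / I * L ^ 2 := by ring
          _ ≤ k := hk.2
      have h8 : I / 2 * (4 / I * L) ≤ I / 2 * (k / L) := mul_le_mul_of_nonneg_left h7 (by positivity)
      have h9 : I / 2 * (4 / I * L) = 2 * L := by field_simp; ring
      have h10 : (k : ℝ) * -(I / 2 / L) = -(I / 2 * (k / L)) := by ring
      rw [h10]
      linarith
    have h7 : Real.exp (-(2 * L)) = 1 / X ^ 2 := by
      rw [Real.exp_neg, two_mul, Real.exp_add, hL, exp_log_nat (by omega)]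
      rw [one_div, sq]
    rw [h7] at h6
    calc (X : ℝ) * (2 * Real.exp (-(I * (k / L)))) ≤ X * (2 * (ρ ^ k * (1 / X ^ 2))) := by gcongr
      _ = 2 / X * ρ ^ k := by field_simp
  refine (sum_le_sum hterm).trans ?_
  rw [← mul_sum]
  have hgeo : ∑ k ∈ S, ρ ^ k ≤ 1 / (1 - ρ) := by
    rw [le_div_iff₀ (by linarith)]
    have h5 : ∑ k ∈ S, ρ ^ k ≤ ∑ k ∈ range (K + 1), ρ ^ k := sum_le_sum_of_subset_of_nonneg (filter_subset _ _) (fun k _ _ => by positivity)
    have h6 := geom_sum_mul_neg ρ (K + 1)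
    have h7 : (0 : ℝ) ≤ ρ ^ (K + 1) := by positivity
    have h8 : (∑ k ∈ S, ρ ^ k) * (1 - ρ) ≤ (∑ k ∈ range (K + 1), ρ ^ k) * (1 - ρ) := mul_le_mul_of_nonneg_right h5 (by linarith)
    linarith
  have hrho : 1 / (1 - ρ) ≤ 1 + 2 / I * L := by
    have h5 : ρ * (1 + I / 2 / L) ≤ 1 := by
      have := Real.add_one_le_exp (I / 2 / L)
      calc ρ * (1 + I / 2 / L) ≤ ρ * Real.exp (I / 2 / L) := mul_le_mul_of_nonneg_left (by linarith) hρ0.le
        _ = 1 := by rw [hρ, ← Real.exp_add]; simp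
    rw [div_le_iff₀ (by linarith)]
    have h6 : (1 + 2 / I * L) * (1 - ρ) = 1 + 2 / I * L * (1 - ρ * (1 + I / 2 / L)) := by field_simp; ring
    rw [h6]
    have : 0 ≤ 2 / I * L * (1 - ρ * (1 + I / 2 / L)) := mul_nonneg (by positivity) (by linarith)
    linarith
  have hfin : 2 / X * (1 + 2 / I * L) ≤ θ := by
    have h5 : 1 + 2 / I * L ≤ (1 + 2 / I) * L := by nlinarith [show 0 < 2 / I by positivity]
    have h6 : L * (X : ℝ) ^ (1 - 1 / 2 : ℝ) ≤ θ / (4 * (1 + 2 / I)) * X := by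
      rw [pow_one] at h4; exact h4
    have h7 : (1 : ℝ) ≤ (X : ℝ) ^ (1 - 1 / 2 : ℝ) := Real.one_le_rpow (by linarith) (by norm_num)
    have h8 : L ≤ θ / (4 * (1 + 2 / I)) * X := by
      refine le_trans ?_ h6
      nlinarith
    have h9 : (1 + 2 / I) * L ≤ θ / 4 * X := by
      calc (1 + 2 / I) * L ≤ (1 + 2 / I) * (θ / (4 * (1 + 2 / I)) * X) := mul_le_mul_of_nonneg_left h8 (by positivity)
        _ = θ / 4 * X := by field_simp
    rw [div_mul_eq_mul_div, div_le_iff₀ hX0]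
    nlinarith
  calc 2 / X * ∑ k ∈ S, ρ ^ k ≤ 2 / X * (1 + 2 / I * L) := mul_le_mul_of_nonneg_left (hgeo.trans hrho) (by positivity)
    _ ≤ θ := hfin

lemma rate_le (κ r : ℝ) (hκ : 0 < κ) (hr : 0 < r) : rate κ r ≤ (r - κ) ^ 2 / κ := by
  have h1 := Real.log_le_sub_one_of_pos (show 0 < r / κ by positivity)
  have h2 : r * Real.log (r / κ) ≤ r * (r / κ - 1) := mul_le_mul_of_nonneg_left h1 hr.le
  have h3 : κ - r + r * (r / κ - 1) = (r - κ) ^ 2 / κ := by field_simp; ring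
  unfold rate
  linarith

/-- at the scale `log ^ 2 X` the uniform law fails -/
theorem sharp_scale (A : ℝ) (hA : 0 < A) : ∃ ε : ℝ, 0 < ε ∧ ∀ θ : ℝ, 0 < θ → ∀ᶠ X : ℕ in atTop, ∀ K : ℕ,
    A * Real.log X ^ 2 ≤ K →
      PK X K (fun h => ¬ ((∃ m ∈ Icc 1 X, (1 + ε) * ((⌊A * Real.log X ^ 2⌋₊ : ℝ) / Real.log X) ≤ cntPre h ⌊A * Real.log X ^ 2⌋₊ m) ∧
        ∃ m ∈ Icc 1 X, (cntPre h ⌊A * Real.log X ^ 2⌋₊ m : ℝ) ≤ (1 - ε) * ((⌊A * Real.log X ^ 2⌋₊ : ℝ) / Real.log X))) ≤ θ := by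
  classical
  set e := 1 / (2 * (1 + A)) with he
  have he0 : 0 < e := by positivity
  have he1 : e ≤ 1 / 2 := by
    rw [he]
    apply one_div_le_one_div_of_le (by norm_num)
    linarith
  have heA : A * e ^ 2 < 1 := by
    have h1 : A * e ≤ 1 / 2 := by
      rw [he, mul_one_div, div_le_div_iff₀ (by positivity) (by norm_num)]
      nlinarith
    nlinarith
  have hr1 : rate A (A * (1 + e)) < 1 := by
    refine (rate_le A _ hA (by positivity)).trans_lt ?_
    have : (A * (1 + e) - A) ^ 2 / A = A * e ^ 2 := by field_simp; ring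
    rw [this]; exact heA
  have hr2 : rate A (A * (1 - e)) < 1 := by
    have : 0 < 1 - e := by linarith
    refine (rate_le A _ hA (by positivity)).trans_lt ?_
    have : (A * (1 - e) - A) ^ 2 / A = A * e ^ 2 := by field_simp; ring
    rw [this]; exact heA
  refine ⟨e / 2, by positivity, fun θ hθ => ?_⟩
  have hK : Tendsto (fun X : ℕ => ((⌊A * Real.log X ^ 2⌋₊ : ℕ) : ℝ) / Real.log X ^ 2) atTop (𝓝 A) := by
    have h1 : Tendsto (fun X : ℕ => Real.log (X : ℝ) ^ 2) atTop atTop := (tendsto_pow_atTop (by norm_num)).comp tends_log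
    have h2 := (tendsto_nat_floor_mul_div_atTop (R := ℝ) hA.le).comp h1
    exact h2
  filter_upwards [lower_ge A (fun X => ⌊A * Real.log X ^ 2⌋₊) hK hA (A * (1 + e)) (by nlinarith) hr1 ((1 - rate A (A * (1 + e))) / 2) (θ / 2) (by linarith) (by positivity),
    lower_le A (fun X => ⌊A * Real.log X ^ 2⌋₊) hK hA (A * (1 - e)) (by nlinarith) (by nlinarith) hr2 ((1 - rate A (A * (1 - e))) / 2) (θ / 2) (by linarith) (by positivity),
    eventually_ge_atTop 3, tends_log.eventually_ge_atTop 1, tends_log.eventually_ge_atTop (2 / (A * e) + 1)] with X h1 h2 hX hL1 hL2 K hK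
  have hX1 : 1 ≤ X := by omega
  have hL0 : 0 < Real.log (X : ℝ) := by linarith
  set L := Real.log (X : ℝ) with hL
  set k := ⌊A * L ^ 2⌋₊ with hk
  have f1 : (k : ℝ) ≤ A * L ^ 2 := Nat.floor_le (by positivity)
  have f2 : A * L ^ 2 < k + 1 := Nat.lt_floor_add_one _
  have hkK : k ≤ K := by
    have : (k : ℝ) ≤ K := f1.trans hK
    exact_mod_cast this
  have hge : PK X K (fun h => ¬ ∃ m ∈ Icc 1 X, (1 + e / 2) * ((k : ℝ) / L) ≤ cntPre h k m) ≤ θ / 2 := by
    have e1 : PK X K (fun h => ¬ ∃ m ∈ Icc 1 X, (1 + e / 2) * ((k : ℝ) / L) ≤ cntPre h k m) =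
        PK X K (fun h => ¬ ∃ m ∈ Icc 1 X, (1 + e / 2) * ((k : ℝ) / L) ≤ Nm (fun i : Fin k => h (Fin.castLE hkK i)) m) := by
      congr 1
      funext h
      simp only [cntPre_eq hkK]
    refine le_trans ?_ h1
    rw [e1]
    · rw [PK_castLE hX1 hkK (fun h => ¬ ∃ m ∈ Icc 1 X, (1 + e / 2) * ((k : ℝ) / L) ≤ Nm h m)]
      apply PK_mono
      intro h _ hh
      have : cntGe (A * (1 + e)) X h = 0 := by
        unfold cntGe
        rw [card_eq_zero, filter_eq_empty_iff]
        intro m hm hc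
        apply hh
        refine ⟨m, hm, le_trans ?_ hc⟩
        rw [mul_div_assoc', div_le_iff₀ hL0]
        calc (1 + e / 2) * (k : ℝ) ≤ (1 + e) * (A * L ^ 2) := mul_le_mul (by linarith) f1 (Nat.cast_nonneg _) (by positivity)
          _ = _ := by ring
      rw [this, Nat.cast_zero]
      exact Real.exp_pos _
  have hle : PK X K (fun h => ¬ ∃ m ∈ Icc 1 X, (cntPre h k m : ℝ) ≤ (1 - e / 2) * ((k : ℝ) / L)) ≤ θ / 2 := by
    have e1 : PK X K (fun h => ¬ ∃ m ∈ Icc 1 X, (cntPre h k m : ℝ) ≤ (1 - e / 2) * ((k : ℝ) / L)) =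
        PK X K (fun h => ¬ ∃ m ∈ Icc 1 X, (Nm (fun i : Fin k => h (Fin.castLE hkK i)) m : ℝ) ≤ (1 - e / 2) * ((k : ℝ) / L)) := by
      congr 1
      funext h
      simp only [cntPre_eq hkK]
    refine le_trans ?_ h2
    rw [e1]
    · rw [PK_castLE hX1 hkK (fun h => ¬ ∃ m ∈ Icc 1 X, (Nm h m : ℝ) ≤ (1 - e / 2) * ((k : ℝ) / L))]
      apply PK_mono
      intro h _ hh
      have : cntLe (A * (1 - e)) X h = 0 := by
        unfold cntLe
        rw [card_eq_zero, filter_eq_empty_iff]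
        intro m hm hc
        apply hh
        refine ⟨m, hm, hc.trans ?_⟩
        rw [mul_div_assoc', le_div_iff₀ hL0]
        have h5 : 2 / (A * e) ≤ L := by linarith
        rw [div_le_iff₀ (by positivity)] at h5
        have h6 : 1 ≤ A * e / 2 * L ^ 2 := by nlinarith
        have h7 : (1 - e / 2) * (A * L ^ 2 - 1) ≤ (1 - e / 2) * k := mul_le_mul_of_nonneg_left (by linarith) (by linarith)
        nlinarith
      rw [this, Nat.cast_zero]
      exact Real.exp_pos _
  refine le_trans (PK_mono (C := fun h => (¬ ∃ m ∈ Icc 1 X, (1 + e / 2) * ((k : ℝ) / L) ≤ cntPre h k m) ∨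
    (¬ ∃ m ∈ Icc 1 X, (cntPre h k m : ℝ) ≤ (1 - e / 2) * ((k : ℝ) / L))) ?_) ((PK_or _ _).trans (by linarith))
  intro h _ hh
  exact not_and_or.1 hh

end Pool.Agent.N735.CL
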