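import Mathlib
import Pool.Agent.N735.CL.Unif
import Pool.Agent.N735.CL.Sq2

set_option autoImplicit false
set_option maxHeartbeats 2000000

/-! The fluctuations of the number of the primes of long patterns have order of magnitude `√K`. -/

namespace Pool.Agent.N735.CL

open Finset Filter Topology
open Pool.Agent.H646 (rat)

lemma EK_prod' (X K : ℕ) (f : Fin K → ℕ → ℝ) : EK X K (fun h => ∏ i, f i (h i)) = ∏ i, E1 X (f i) := by
  unfold EK E1 Om
  have h := Finset.prod_univ_sum (fun _ : Fin K => Icc 1 X) (fun i j => f i j)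
  rw [← h, prod_div_distrib, prod_const, card_univ, Fintype.card_fin]

/-- the normalized weight -/
noncomputable def ph (X : ℕ) (x : ℝ) (k m i v : ℕ) : ℝ := if i < k then tf (1 + x) m v / (1 + x * E1 X (pr m)) else 1

noncomputable def Gh (X : ℕ) (x : ℝ) (k m : ℕ) {K : ℕ} (h : Fin K → ℕ) : ℝ := ∏ i : Fin K, ph X x k m i (h i)

lemma E1_div {X : ℕ} (f : ℕ → ℝ) (c : ℝ) : E1 X (fun v => f v / c) = E1 X f / c := by
  unfold E1
  rw [← sum_div]; ring

section

variable {X : ℕ} (hX : 1 ≤ X) {x : ℝ} (hx : |x| ≤ 1 / 2)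

lemma p_le_one {X : ℕ} (hX : 1 ≤ X) (m : ℕ) : E1 X (pr m) ≤ 1 := by
  rw [← E1_const hX 1]
  exact E1_mono (fun v _ => pr_le_one m v)

include hX hx in
lemma a_ge (m : ℕ) : 1 / 2 ≤ 1 + x * E1 X (pr m) := by
  have h0 := E1_pr_nonneg X m
  have h1 := p_le_one hX m
  have h2 := (abs_le.1 hx).1
  nlinarith

include hX hx in
lemma E1_ph (k m i : ℕ) : E1 X (ph X x k m i) = 1 := by
  have ha := a_ge hX hx m
  by_cases hi : i < k
  · have e : ph X x k m i = fun v => tf (1 + x) m v / (1 + x * E1 X (pr m)) := by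
      funext v; unfold ph; rw [if_pos hi]
    rw [e, E1_div, E1_tf hX]
    rw [add_sub_cancel_left]
    exact div_self (by linarith)
  · have e : ph X x k m i = fun _ => 1 := by
      funext v; unfold ph; rw [if_neg hi]
    rw [e, E1_const hX]

include hX hx in
lemma EK_Gh (k m K : ℕ) : EK X K (fun h => Gh X x k m h) = 1 := by
  unfold Gh
  rw [EK_prod' X K (fun i => ph X x k m i)]
  exact prod_eq_one (fun i _ => E1_ph hX hx k m i)

include hx in
lemma tf_nonneg' (m v : ℕ) : 0 ≤ tf (1 + x) m v := by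
  have := (abs_le.1 hx).1
  unfold tf; split_ifs <;> linarith

include hX hx in
lemma ph_nonneg (k m i v : ℕ) : 0 ≤ ph X x k m i v := by
  unfold ph
  split_ifs
  · exact div_nonneg (tf_nonneg' hx m v) (by linarith [a_ge hX hx m])
  · norm_num

include hX hx in
lemma Gh_nonneg (k m : ℕ) {K : ℕ} (h : Fin K → ℕ) : 0 ≤ Gh X x k m h :=
  prod_nonneg (fun i _ => ph_nonneg hX hx k m i (h i))

include hX hx in
lemma E1_phph (k m k' m' i : ℕ) : E1 X (fun v => ph X x k m i v * ph X x k' m' i v) ≤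
    Real.exp (8 * x ^ 2 * E1 X (fun v => pr m v * pr m' v)) := by
  have ha := a_ge hX hx m
  have ha' := a_ge hX hx m'
  have hq0 : 0 ≤ E1 X (fun v => pr m v * pr m' v) := E1_nonneg (fun v _ => mul_nonneg (pr_nonneg _ _) (pr_nonneg _ _))
  have hone : 1 ≤ Real.exp (8 * x ^ 2 * E1 X (fun v => pr m v * pr m' v)) := Real.one_le_exp (by positivity)
  by_cases hi : i < k <;> by_cases hi' : i < k'
  · have e : ∀ v ∈ Icc 1 X, ph X x k m i v * ph X x k' m' i v = (1 + (x * pr m v + (x * pr m' v + x ^ 2 * (pr m v * pr m' v)))) /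
        ((1 + x * E1 X (pr m)) * (1 + x * E1 X (pr m'))) := by
      intro v _
      unfold ph
      rw [if_pos hi, if_pos hi', tf_eq, tf_eq, div_mul_div_comm]
      congr 1
      ring
    rw [E1_congr e, E1_div, E1_add, E1_add, E1_add, E1_const hX, E1_const_mul, E1_const_mul, E1_const_mul]
    set p := E1 X (pr m) with hp
    set p' := E1 X (pr m') with hp'
    set q := E1 X (fun v => pr m v * pr m' v) with hq
    have hpp : 0 ≤ p * p' := mul_nonneg (E1_pr_nonneg X m) (E1_pr_nonneg X m')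
    have h4 : (1 : ℝ) / 4 ≤ (1 + x * p) * (1 + x * p') := by nlinarith
    rw [div_le_iff₀ (by linarith)]
    have h5 := Real.add_one_le_exp (8 * x ^ 2 * q)
    have h6 : (1 + x * p) * (1 + x * p') + x ^ 2 * q * 2 ≤ (1 + x * p) * (1 + x * p') * (1 + 8 * x ^ 2 * q) := by
      have : 0 ≤ x ^ 2 * q := by positivity
      nlinarith
    have h7 : (1 + x * p) * (1 + x * p') * (1 + 8 * x ^ 2 * q) ≤ Real.exp (8 * x ^ 2 * q) * ((1 + x * p) * (1 + x * p')) := by
      rw [mul_comm]
      exact mul_le_mul_of_nonneg_right (by linarith) (by linarith)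
    refine le_trans ?_ h7
    refine le_trans ?_ h6
    have h8 : 0 ≤ x ^ 2 * q := by positivity
    have h9 : 0 ≤ x ^ 2 * (p * p') := by positivity
    nlinarith
  · refine le_trans (le_of_eq ?_) hone
    have e : (fun v => ph X x k m i v * ph X x k' m' i v) = ph X x k m i := by
      funext v
      have : ph X x k' m' i v = 1 := by unfold ph; rw [if_neg hi']
      rw [this, mul_one]
    rw [e, E1_ph hX hx]
  · refine le_trans (le_of_eq ?_) hone
    have e : (fun v => ph X x k m i v * ph X x k' m' i v) = ph X x k' m' i := by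
      funext v
      have : ph X x k m i v = 1 := by unfold ph; rw [if_neg hi]
      rw [this, one_mul]
    rw [e, E1_ph hX hx]
  · refine le_trans (le_of_eq ?_) hone
    have e : (fun v => ph X x k m i v * ph X x k' m' i v) = ph X x k' m' i := by
      funext v
      have : ph X x k m i v = 1 := by unfold ph; rw [if_neg hi]
      rw [this, one_mul]
    rw [e, E1_ph hX hx]

include hX hx in
lemma EK_GhGh (k m k' m' K : ℕ) : EK X K (fun h => Gh X x k m h * Gh X x k' m' h) ≤
    Real.exp (8 * (K * x ^ 2) * E1 X (fun v => pr m v * pr m' v)) := by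
  have e : ∀ h ∈ Om X K, Gh X x k m h * Gh X x k' m' h = ∏ i : Fin K, (fun v => ph X x k m i v * ph X x k' m' i v) (h i) := by
    intro h _
    unfold Gh
    rw [← prod_mul_distrib]
  rw [EK_congr e, EK_prod' X K (fun i v => ph X x k m i v * ph X x k' m' i v)]
  have h1 : ∏ i : Fin K, E1 X (fun v => ph X x k m i v * ph X x k' m' i v) ≤
      ∏ _i : Fin K, Real.exp (8 * x ^ 2 * E1 X (fun v => pr m v * pr m' v)) := by
    apply Finset.prod_le_prod
    · intro i _
      exact E1_nonneg (fun v _ => mul_nonneg (ph_nonneg hX hx _ _ _ _) (ph_nonneg hX hx _ _ _ _))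
    · intro i _
      exact E1_phph hX hx k m k' m' i
  refine h1.trans (le_of_eq ?_)
  rw [prod_const, card_univ, Fintype.card_fin, ← Real.exp_nat_mul]
  congr 1; ring

end

lemma prod_prefix {K k : ℕ} (hk : k ≤ K) (c : ℝ) : ∏ i : Fin K, (if (i : ℕ) < k then c else 1) = c ^ k := by
  rw [Fin.prod_univ_eq_prod_range (fun i => if i < k then c else 1) K, ← prod_filter]
  have : (range K).filter (fun i => i < k) = range k := by
    ext i; rw [mem_filter, mem_range, mem_range]; omega
  rw [this, prod_const, card_range]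

/-- the tilted tail -/
lemma tail_term {X K k m : ℕ} (hX : 1 ≤ X) {x : ℝ} (hx : |x| ≤ 1 / 2) (hk : k ≤ K) (hp : E1 X (pr m) ≤ 1 / 20) :
    EK X K (fun h => Gh X x k m h * Real.exp (Real.log ((1 + x) / (1 + x / 2)) *
      ((k * E1 X (pr m)) * (1 + x / 4) - cntPre h k m))) ≤ Real.exp (-(k * E1 X (pr m) * x ^ 2 / 20)) := by
  set p := E1 X (pr m) with hpd
  have hp0 : 0 ≤ p := E1_pr_nonneg X m
  obtain ⟨hx1, hx2⟩ := abs_le.1 hx
  set s := Real.log ((1 + x) / (1 + x / 2)) with hs
  have ha := a_ge hX hx m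
  rw [← hpd] at ha
  have h12 : 0 < 1 + x / 2 := by linarith
  have h11 : 0 < 1 + x := by linarith
  have hes : Real.exp s = (1 + x) / (1 + x / 2) := Real.exp_log (by positivity)
  have hes' : Real.exp (-s) = (1 + x / 2) / (1 + x) := by rw [Real.exp_neg, hes, inv_div]
  set A := (k * p) * (1 + x / 4) with hA
  -- the product formula
  have e : ∀ h ∈ Om X K, Gh X x k m h * Real.exp (s * (A - cntPre h k m)) =
      Real.exp (s * A) * ∏ i : Fin K, (fun v => if (i : ℕ) < k then tf (1 + x / 2) m v / (1 + x * p) else 1) (h i) := by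
    intro h _
    have e1 : Real.exp (s * (A - cntPre h k m)) = Real.exp (s * A) * (Real.exp (-s)) ^ cntPre h k m := by
      rw [← Real.exp_nat_mul, ← Real.exp_add]; congr 1; ring
    have e2 : (Real.exp (-s)) ^ cntPre h k m = ∏ i : Fin K, (if (i : ℕ) < k ∧ (m + h i).Prime then Real.exp (-s) else 1) := by
      unfold cntPre
      rw [prod_ite, prod_const, prod_const_one, mul_one]
    rw [e1, e2]
    unfold Gh
    rw [← mul_assoc, mul_comm (∏ i : Fin K, ph X x k m i (h i)), mul_assoc, ← prod_mul_distrib]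
    congr 1
    apply prod_congr rfl
    intro i _
    unfold ph tf
    by_cases hi : (i : ℕ) < k <;> by_cases hpr : (m + h i).Prime
    · simp only [hi, hpr, if_true, and_self]
      rw [hes', ← hpd]
      field_simp
    · simp only [hi, hpr, if_true, if_false, and_false]
      rw [← hpd, mul_one]
    · simp [hi]
    · simp [hi]
  rw [EK_congr e, EK_const_mul, EK_prod' X K (fun i v => if (i : ℕ) < k then tf (1 + x / 2) m v / (1 + x * p) else 1)]
  have e3 : ∀ i : Fin K, E1 X (fun v => if (i : ℕ) < k then tf (1 + x / 2) m v / (1 + x * p) else 1) =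
      if (i : ℕ) < k then (1 + x / 2 * p) / (1 + x * p) else 1 := by
    intro i
    by_cases hi : (i : ℕ) < k
    · simp only [hi, if_true]
      rw [E1_div, E1_tf hX, add_sub_cancel_left]
    · simp only [hi, if_false]
      rw [E1_const hX]
  rw [prod_congr rfl (fun i _ => e3 i), prod_prefix hk]
  -- the numerical estimate
  have hu : s ≤ (x / 2) / (1 + x / 2) := by
    have h1 : (1 + x) / (1 + x / 2) = 1 + (x / 2) / (1 + x / 2) := by
      have e5 : 1 + x = (1 + x / 2) + x / 2 := by ring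
      rw [e5, add_div, div_self h12.ne']
    have h2 := Real.log_le_sub_one_of_pos (show 0 < (1 + x) / (1 + x / 2) by positivity)
    rw [hs]
    linarith
  have hsA : s * (1 + x / 4) ≤ x / 2 - x ^ 2 / 10 := by
    have h1 : s * (1 + x / 4) ≤ (x / 2) / (1 + x / 2) * (1 + x / 4) := mul_le_mul_of_nonneg_right hu (by linarith)
    refine h1.trans ?_
    rw [div_mul_eq_mul_div, div_le_iff₀ h12]
    nlinarith [sq_nonneg x, mul_nonneg (sq_nonneg x) (show 0 ≤ 1 / 2 - x by linarith)]
  have hbase : (1 + x / 2 * p) / (1 + x * p) ≤ Real.exp (-(x / 2 * p) + x ^ 2 * p ^ 2) := by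
    have h1 : (1 + x / 2 * p) / (1 + x * p) = 1 - (x / 2 * p) / (1 + x * p) := by
      have : 1 + x * p ≠ 0 := by linarith
      field_simp
      ring
    have h2 : 1 - (x / 2 * p) / (1 + x * p) ≤ 1 + (-(x / 2 * p) + x ^ 2 * p ^ 2) := by
      have h3 : -((x / 2 * p) / (1 + x * p)) ≤ -(x / 2 * p) + x ^ 2 * p ^ 2 := by
        rw [neg_le, neg_add, neg_neg, le_div_iff₀ (by linarith)]
        have h4 : 0 ≤ x ^ 2 * p ^ 2 := by positivity
        have h5 : (x / 2 * p + -(x ^ 2 * p ^ 2)) * (1 + x * p) = x / 2 * p - x ^ 2 * p ^ 2 * (1 / 2 + x * p) := by ring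
        rw [h5]
        have h6 : 0 ≤ 1 / 2 + x * p := by nlinarith
        have := mul_nonneg h4 h6
        linarith
      linarith
    rw [h1]
    refine h2.trans ?_
    linarith [Real.add_one_le_exp (-(x / 2 * p) + x ^ 2 * p ^ 2)]
  have hbase0 : 0 ≤ (1 + x / 2 * p) / (1 + x * p) := by
    apply div_nonneg _ (by linarith)
    nlinarith
  have h1 : ((1 + x / 2 * p) / (1 + x * p)) ^ k ≤ Real.exp (k * (-(x / 2 * p) + x ^ 2 * p ^ 2)) := by
    rw [Real.exp_nat_mul]
    exact pow_le_pow_left₀ hbase0 hbase k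
  calc Real.exp (s * A) * ((1 + x / 2 * p) / (1 + x * p)) ^ k ≤ Real.exp (s * A) * Real.exp (k * (-(x / 2 * p) + x ^ 2 * p ^ 2)) :=
        mul_le_mul_of_nonneg_left h1 (Real.exp_pos _).le
    _ = Real.exp (s * A + k * (-(x / 2 * p) + x ^ 2 * p ^ 2)) := by rw [Real.exp_add]
    _ ≤ _ := by
        apply Real.exp_le_exp.2
        have hk0 : (0 : ℝ) ≤ k := Nat.cast_nonneg _
        have h2 : s * A = (k * p) * (s * (1 + x / 4)) := by rw [hA]; ring
        have h3 : (k * p) * (s * (1 + x / 4)) ≤ (k * p) * (x / 2 - x ^ 2 / 10) := mul_le_mul_of_nonneg_left hsA (by positivity)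
        have h4 : (k : ℝ) * (x ^ 2 * p ^ 2) ≤ k * (x ^ 2 * (p * (1 / 20))) := by
          have : p ^ 2 ≤ p * (1 / 20) := by rw [sq]; exact mul_le_mul_of_nonneg_left hp hp0
          gcongr
        rw [h2]
        nlinarith

/-- the oscillation for a general family of translates and prefixes -/
theorem gen_osc : ∃ C : ℝ, 0 < C ∧ ∀ ε : ℝ, 0 < ε → ε ≤ 1 → ∀ θ : ℝ, 0 < θ → ∀ᶠ X : ℕ in atTop, ∀ K : ℕ, 4 * Real.log X ^ 2 ≤ K →
    ∀ σ : ℝ, (σ = 1 ∨ σ = -1) → ∀ (R : Finset ℕ) (m ℓ : ℕ → ℕ), R.Nonempty → (∀ i ∈ R, m i ≤ X ∧ K ≤ 2 * ℓ i ∧ ℓ i ≤ K) →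
    (∀ i ∈ R, ∀ j ∈ R, i < j → m i < m j) → ∀ τ : ℝ, 0 < τ →
    2 * ∑ i ∈ R, ∑ j ∈ R.filter (fun j => i < j), (Real.exp (ε * (C * rat (m j - m i))) - 1) ≤ τ * (R.card : ℝ) ^ 2 →
    Real.exp (16 * ε * Real.log X) ≤ τ * R.card →
    PK X K (fun h => ∀ i ∈ R, σ * ((cntPre h (ℓ i) (m i) : ℝ) - ℓ i * E1 X (pr (m i))) < Real.sqrt ε / 16 * Real.sqrt K) ≤ 24 * τ + θ := by
  classical
  obtain ⟨C₁, hC₁, hpc⟩ := pc_all
  refine ⟨8 * C₁, by positivity, fun ε hε hε1 θ hθ => ?_⟩
  filter_upwards [hpc, eta_window (1 / 2) (by norm_num), eventually_ge_atTop 1, tends_log.eventually_ge_atTop 30,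
    ev_exp_small' (ε / 160) (θ / 2) (by positivity) (by positivity)] with X h1 h2 hX h3 h4 K hK σ hσ R m ℓ hR hm hmono τ hτ hsum hdiag
  set L := Real.log (X : ℝ) with hL
  have hL0 : 0 < L := by linarith
  have hKr : (0 : ℝ) < K := lt_of_lt_of_le (by positivity) hK
  set x := σ * (L * Real.sqrt (ε / K)) with hx
  have hσ2 : σ ^ 2 = 1 := by rcases hσ with h | h <;> rw [h] <;> norm_num
  have hx2 : x ^ 2 = L ^ 2 * (ε / K) := by
    rw [hx, mul_pow, mul_pow, hσ2, one_mul, Real.sq_sqrt (by positivity)]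
  have hKx : K * x ^ 2 = ε * L ^ 2 := by rw [hx2]; field_simp
  have hxle : |x| ≤ 1 / 2 := by
    apply abs_le_of_sq_le_sq _ (by norm_num)
    rw [hx2, ← mul_div_assoc, div_le_iff₀ hKr]
    nlinarith [mul_le_mul_of_nonneg_left hε1 (sq_nonneg L)]
  have hRc : (0 : ℝ) < R.card := by exact_mod_cast hR.card_pos
  -- the densities
  have hp : ∀ i ∈ R, 1 / (2 * L) ≤ E1 X (pr (m i)) ∧ E1 X (pr (m i)) ≤ 3 / (2 * L) := by
    intro i hi
    have h5 := abs_le.1 (h2 _ (hm i hi).1)
    constructor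
    · rw [div_le_iff₀ (by positivity)]; linarith
    · rw [le_div_iff₀ (by positivity)]; linarith
  have hp20 : ∀ i ∈ R, E1 X (pr (m i)) ≤ 1 / 20 := by
    intro i hi
    refine (hp i hi).2.trans ?_
    rw [div_le_div_iff₀ (by positivity) (by norm_num)]
    linarith
  set Z : (Fin K → ℕ) → ℝ := fun h => ∑ i ∈ R, Gh X x (ℓ i) (m i) h with hZ
  have hEZ : EK X K Z = R.card := by
    simp only [hZ]
    rw [EK_sum, sum_congr rfl (fun i _ => EK_Gh hX hxle (ℓ i) (m i) K), sum_const, nsmul_eq_mul, mul_one]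
  have hG0 : ∀ i (h : Fin K → ℕ), 0 ≤ Gh X x (ℓ i) (m i) h := fun i h => Gh_nonneg hX hxle _ _ h
  -- the second moment
  have hpairs : ∀ i ∈ R, ∀ j ∈ R, i < j → EK X K (fun h => Gh X x (ℓ i) (m i) h * Gh X x (ℓ j) (m j) h) ≤
      Real.exp (ε * (8 * C₁ * rat (m j - m i))) := by
    intro i hi j hj hij
    refine (EK_GhGh hX hxle _ _ _ _ K).trans (Real.exp_le_exp.2 ?_)
    have h5 := hmono i hi j hj hij
    have h6 := h1 (m i) (m j - m i) (by omega)
    have e : m i + (m j - m i) = m j := by omega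
    rw [e] at h6
    rw [hKx]
    calc 8 * (ε * L ^ 2) * E1 X (fun v => pr (m i) v * pr (m j) v) = 8 * ε * (E1 X (fun v => pr (m i) v * pr (m j) v) * L ^ 2) := by ring
      _ ≤ 8 * ε * (C₁ * rat (m j - m i)) := mul_le_mul_of_nonneg_left h6 (by positivity)
      _ = _ := by ring
  have hdiag1 : ∀ i ∈ R, EK X K (fun h => Gh X x (ℓ i) (m i) h * Gh X x (ℓ i) (m i) h) ≤ Real.exp (16 * ε * L) := by
    intro i hi
    refine (EK_GhGh hX hxle _ _ _ _ K).trans (Real.exp_le_exp.2 ?_)
    have e : E1 X (fun v => pr (m i) v * pr (m i) v) = E1 X (pr (m i)) := by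
      apply E1_congr
      intro v _
      exact pr_sq _ _
    rw [e, hKx]
    have h5 := (hp i hi).2
    calc 8 * (ε * L ^ 2) * E1 X (pr (m i)) ≤ 8 * (ε * L ^ 2) * (3 / (2 * L)) := mul_le_mul_of_nonneg_left h5 (by positivity)
      _ = 12 * ε * L := by field_simp; ring
      _ ≤ _ := by nlinarith [mul_pos hε hL0]
  have hEZ2 : EK X K (fun h => Z h ^ 2) ≤ (1 + 2 * τ) * (R.card : ℝ) ^ 2 := by
    set g : ℕ → ℕ → ℝ := fun i j => Real.exp (ε * (8 * C₁ * rat (m j - m i))) - 1 with hg
    have e1 : ∀ h ∈ Om X K, Z h ^ 2 = ∑ i ∈ R, ∑ j ∈ R, Gh X x (ℓ i) (m i) h * Gh X x (ℓ j) (m j) h := by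
      intro h _
      simp only [hZ]
      rw [sq, sum_mul_sum]
    rw [EK_congr e1, EK_sum]
    have h5 : ∀ i ∈ R, EK X K (fun h => ∑ j ∈ R, Gh X x (ℓ i) (m i) h * Gh X x (ℓ j) (m j) h) ≤
        ∑ j ∈ R, (1 + ((if i < j then g i j else 0) + (if j < i then g j i else 0)) + (if i = j then Real.exp (16 * ε * L) else 0)) := by
      intro i hi
      rw [EK_sum]
      apply sum_le_sum
      intro j hj
      rcases lt_trichotomy i j with h | h | h
      · rw [if_pos h, if_neg (by omega), if_neg (by omega), add_zero, add_zero]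
        refine (hpairs i hi j hj h).trans (le_of_eq ?_)
        simp only [hg]; ring
      · subst h
        simp only [lt_irrefl, if_false, if_true, add_zero]
        linarith [hdiag1 i hi]
      · rw [if_neg (by omega), if_pos h, if_neg (by omega), add_zero, zero_add]
        have h6 := hpairs j hj i hi h
        have h7 : EK X K (fun h => Gh X x (ℓ i) (m i) h * Gh X x (ℓ j) (m j) h) = EK X K (fun h => Gh X x (ℓ j) (m j) h * Gh X x (ℓ i) (m i) h) :=
          EK_congr (fun h _ => mul_comm _ _)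
        rw [h7]
        refine h6.trans (le_of_eq ?_)
        simp only [hg]; ring
    refine (sum_le_sum h5).trans ?_
    have e2 : ∑ i ∈ R, ∑ j ∈ R, (1 + ((if i < j then g i j else 0) + (if j < i then g j i else 0)) + (if i = j then Real.exp (16 * ε * L) else 0)) =
        (R.card : ℝ) ^ 2 + (∑ i ∈ R, ∑ j ∈ R, (if i < j then g i j else 0) + ∑ i ∈ R, ∑ j ∈ R, (if j < i then g j i else 0)) + R.card * Real.exp (16 * ε * L) := by
      simp_rw [sum_add_distrib]
      congr 1
      · congr 1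
        simp only [sum_const, nsmul_eq_mul, mul_one]
        ring
      · have : ∀ i ∈ R, ∑ j ∈ R, (if i = j then Real.exp (16 * ε * L) else 0) = Real.exp (16 * ε * L) := by
          intro i hi
          rw [sum_ite_eq R i, if_pos hi]
        rw [sum_congr rfl this, sum_const, nsmul_eq_mul]
    have e3 : ∑ i ∈ R, ∑ j ∈ R, (if j < i then g j i else 0) = ∑ i ∈ R, ∑ j ∈ R, (if i < j then g i j else 0) := by
      rw [sum_comm]
    have e4 : ∑ i ∈ R, ∑ j ∈ R, (if i < j then g i j else 0) = ∑ i ∈ R, ∑ j ∈ R.filter (fun j => i < j), g i j := by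
      apply sum_congr rfl
      intro i _
      rw [sum_filter]
    rw [e2, e3, e4]
    have h6 : (R.card : ℝ) * Real.exp (16 * ε * L) ≤ τ * (R.card : ℝ) ^ 2 := by
      calc (R.card : ℝ) * Real.exp (16 * ε * L) ≤ R.card * (τ * R.card) := mul_le_mul_of_nonneg_left hdiag hRc.le
        _ = _ := by ring
    linarith
  have hcheb := PK_cheb hX hRc (δ := 2 * τ) (by rw [hEZ]; nlinarith) hEZ2
  -- the truncated part
  set s := Real.log ((1 + x) / (1 + x / 2)) with hs
  set Y : (Fin K → ℕ) → ℝ := fun h => ∑ i ∈ R, Gh X x (ℓ i) (m i) h * Real.exp (s * ((ℓ i * E1 X (pr (m i))) * (1 + x / 4) - cntPre h (ℓ i) (m i))) with hY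
  have hY0 : ∀ h ∈ Om X K, 0 ≤ Y h := fun h _ => sum_nonneg (fun i _ => mul_nonneg (hG0 i h) (Real.exp_pos _).le)
  have hEY : EK X K Y ≤ R.card * Real.exp (-(ε / 160) * L) := by
    simp only [hY]
    rw [EK_sum]
    have h5 : ∀ i ∈ R, EK X K (fun h => Gh X x (ℓ i) (m i) h * Real.exp (s * ((ℓ i * E1 X (pr (m i))) * (1 + x / 4) - cntPre h (ℓ i) (m i)))) ≤
        Real.exp (-(ε / 160) * L) := by
      intro i hi
      refine (tail_term hX hxle (hm i hi).2.2 (hp20 i hi)).trans (Real.exp_le_exp.2 ?_)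
      have h6 : (K : ℝ) ≤ 2 * ℓ i := by exact_mod_cast (hm i hi).2.1
      have h7 : (K : ℝ) / 2 * (1 / (2 * L)) ≤ ℓ i * E1 X (pr (m i)) :=
        mul_le_mul (by linarith) (hp i hi).1 (by positivity) (Nat.cast_nonneg _)
      have h8 : (K : ℝ) / 2 * (1 / (2 * L)) * x ^ 2 = ε * L / 4 := by
        have : (K : ℝ) / 2 * (1 / (2 * L)) * x ^ 2 = (K * x ^ 2) / (4 * L) := by field_simp; ring
        rw [this, hKx]; field_simp
      have h9 := mul_le_mul_of_nonneg_right h7 (sq_nonneg x)
      rw [h8] at h9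
      nlinarith [mul_pos hε hL0]
    refine (sum_le_sum h5).trans (le_of_eq ?_)
    rw [sum_const, nsmul_eq_mul]
  have hYm : PK X K (fun h => (R.card : ℝ) / 2 ≤ Y h) ≤ θ := by
    refine (PK_markov hY0 (by positivity)).trans ?_
    rw [div_le_iff₀ (by positivity)]
    have := mul_le_mul_of_nonneg_left h4 hRc.le
    linarith
  -- conclusion
  have hc0 : Real.sqrt ε / 16 * Real.sqrt K = (K / 2 * (1 / (2 * L))) * (|x| / 4) := by
    have h5 : |x| = L * Real.sqrt (ε / K) := by
      rw [hx, abs_mul]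
      have : |σ| = 1 := by rcases hσ with h | h <;> rw [h] <;> norm_num
      rw [this, one_mul, abs_of_nonneg (by positivity)]
    rw [h5, Real.sqrt_div' _ hKr.le]
    have h6 : Real.sqrt K * Real.sqrt K = K := Real.mul_self_sqrt hKr.le
    have h7 : 0 < Real.sqrt (K : ℝ) := Real.sqrt_pos.2 hKr
    field_simp
    rw [sq, h6]
    ring
  have hfin : PK X K (fun h => ∀ i ∈ R, σ * ((cntPre h (ℓ i) (m i) : ℝ) - ℓ i * E1 X (pr (m i))) < Real.sqrt ε / 16 * Real.sqrt K) ≤
      PK X K (fun h => Z h ≤ (R.card : ℝ) / 2 ∨ (R.card : ℝ) / 2 ≤ Y h) := by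
    apply PK_mono
    intro h _ hh
    by_contra hcon
    rw [not_or] at hcon
    obtain ⟨c1, c2⟩ := hcon
    push Not at c1 c2
    have hZY : Z h ≤ Y h := by
      simp only [hZ, hY]
      apply sum_le_sum
      intro i hi
      apply le_mul_of_one_le_right (hG0 i h)
      apply Real.one_le_exp
      have h5 := hh i hi
      have h6 : (K : ℝ) ≤ 2 * ℓ i := by exact_mod_cast (hm i hi).2.1
      have h7 : (K : ℝ) / 2 * (1 / (2 * L)) ≤ ℓ i * E1 X (pr (m i)) :=
        mul_le_mul (by linarith) (hp i hi).1 (by positivity) (Nat.cast_nonneg _)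
      have h8 : (K / 2 * (1 / (2 * L))) * (|x| / 4) ≤ (ℓ i * E1 X (pr (m i))) * (|x| / 4) :=
        mul_le_mul_of_nonneg_right h7 (by positivity)
      rw [hc0] at h5
      obtain ⟨y1, y2⟩ := abs_le.1 hxle
      have h12 : 0 < 1 + x / 2 := by linarith
      rcases hσ with h9 | h9
      · have hx0 : 0 ≤ x := by rw [hx, h9]; positivity
        rw [h9, one_mul] at h5
        rw [abs_of_nonneg hx0] at h5 h8
        apply mul_nonneg
        · rw [hs]
          apply Real.log_nonneg
          rw [le_div_iff₀ h12]; linarith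
        · linarith
      · have hx0 : x ≤ 0 := by
          rw [hx, h9]
          have : 0 ≤ L * Real.sqrt (ε / K) := by positivity
          linarith
        rw [h9] at h5
        rw [abs_of_nonpos hx0] at h5 h8
        apply mul_nonneg_of_nonpos_of_nonpos
        · rw [hs]
          apply Real.log_nonpos
          · apply div_nonneg <;> linarith
          · rw [div_le_one h12]; linarith
        · linarith
    linarith
  refine hfin.trans ((PK_or _ _).trans ?_)
  linarith

end Pool.Agent.N735.CL
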