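import Mathlib
import Pool.Agent.N735.CL.Osc

set_option autoImplicit false
set_option maxHeartbeats 2000000

/-! The square-root law for the translates by `n ^ 2` and `n ^ 2 - n`. -/

namespace Pool.Agent.N735.CL

open Finset Filter Topology
open Pool.Agent.H646 (rat)

lemma sum_inj_le {S : Finset ℕ} (f : ℕ → ℕ) (J : ℕ) (G : ℕ → ℝ) (hG : ∀ d, 0 ≤ G d) (hmap : ∀ j ∈ S, f j ∈ Icc 1 J)
    (hinj : Set.InjOn f S) : ∑ j ∈ S, G (f j) ≤ ∑ d ∈ Icc 1 J, G d := by
  rw [← sum_image hinj]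
  exact sum_le_sum_of_subset_of_nonneg (image_subset_iff.2 hmap) (fun d _ _ => hG d)

lemma rat_le_two (d : ℕ) (hd : 0 < d) : rat d ≤ 2 * Real.exp (sw 2 d) := by
  have hW2 : Ww 2 = 2 := by decide
  have hV2 : Vw 2 = 1 / 2 := by
    rw [Vw_eq, hW2]
    norm_num
  have h1 := rat_W 2 d hd
  rw [hW2, hV2] at h1
  have h2 : rat d ≤ rat (2 * d) := by
    rw [rat_eq d hd, rat_eq (2 * d) (by omega)]
    apply Pool.Agent.H646.Sv3M.prod_mono_set
    · exact Nat.primeFactors_mono (Dvd.intro_left 2 rfl) (by omega)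
    · intro p hp
      have h : (1 : ℝ) < p := by exact_mod_cast (Nat.prime_of_mem_primeFactors hp).one_lt
      have h1 : 1 / (p : ℝ) < 1 := by rw [div_lt_one (by linarith)]; exact h
      have h2 : 0 < 1 / (p : ℝ) := by positivity
      rw [one_le_inv₀ (by linarith)]
      linarith
  refine h2.trans (h1.trans (le_of_eq ?_))
  norm_num

/-- the translates -/
def me (e n : ℕ) : ℕ := n * (n - e)

lemma me_sub (e i j : ℕ) (he : e ≤ 1) (hi : 1 ≤ i) (hij : i < j) : me e j - me e i = (j - i) * (j + i - e) := by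
  unfold me
  obtain ⟨a, rfl⟩ : ∃ a, i = a + 1 := ⟨i - 1, by omega⟩
  obtain ⟨d, rfl⟩ : ∃ d, j = a + 1 + d := ⟨j - (a + 1), by omega⟩
  interval_cases e
  · simp only [Nat.sub_zero, Nat.add_sub_cancel_left]
    apply Nat.sub_eq_of_eq_add
    ring
  · have e1 : a + 1 + d - 1 = a + d := by omega
    have e2 : a + 1 - 1 = a := by omega
    have e3 : a + 1 + d - (a + 1) = d := by omega
    have e4 : a + 1 + d + (a + 1) - 1 = 2 * a + 1 + d := by omega
    rw [e1, e2, e3, e4]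
    apply Nat.sub_eq_of_eq_add
    ring

lemma exp_conv (ε y : ℝ) (hε0 : 0 ≤ ε) (hε1 : ε ≤ 1) : Real.exp (ε * y) - 1 ≤ ε * (Real.exp y) := by
  have h := convexOn_exp.2 (Set.mem_univ (0 : ℝ)) (Set.mem_univ y) (show 0 ≤ 1 - ε by linarith) hε0 (by ring)
  simp only [smul_eq_mul, mul_zero, zero_add, Real.exp_zero, mul_one] at h
  linarith

lemma row_pairs (C : ℝ) (hC : 0 < C) : ∃ C' : ℝ, 0 < C' ∧ ∀ N e i : ℕ, e ≤ 1 → 1 ≤ i → i ≤ N →
    ∑ j ∈ (Ioc (N / 2) N).filter (fun j => i < j), Real.exp (C * rat (me e j - me e i)) ≤ C' * N := by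
  obtain ⟨C₃, hC₃0, hC₃⟩ := exc_avg2 2 le_rfl (2 * C) (by positivity)
  refine ⟨2 * C₃ + 1, by positivity, fun N e i he hi hiN => ?_⟩
  set G : ℕ → ℝ := fun d => Real.exp (2 * C * Real.exp (2 * sw 2 d)) with hG
  have hG0 : ∀ d, 0 ≤ G d := fun d => (Real.exp_pos _).le
  set S := (Ioc (N / 2) N).filter (fun j => i < j) with hS
  have hmem : ∀ j ∈ S, i < j ∧ j ≤ N := by
    intro j hj
    rw [hS, mem_filter, mem_Ioc] at hj
    exact ⟨hj.2, hj.1.2⟩
  have h1 : ∀ j ∈ S, Real.exp (C * rat (me e j - me e i)) ≤ (G (j - i) + G (j + i - e)) / 2 := by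
    intro j hj
    obtain ⟨hij, hjN⟩ := hmem j hj
    rw [me_sub e i j he hi hij]
    have h2 := conv_ineq 2 (j - i) (j + i - e) (by omega) (by omega) (2 * C) 0 (by positivity)
    simp only [sub_zero] at h2
    refine le_trans (Real.exp_le_exp.2 ?_) h2
    have h3 := rat_le_two ((j - i) * (j + i - e)) (Nat.mul_pos (by omega) (by omega))
    calc C * rat ((j - i) * (j + i - e)) ≤ C * (2 * Real.exp (sw 2 ((j - i) * (j + i - e)))) := mul_le_mul_of_nonneg_left h3 hC.le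
      _ = _ := by ring
  refine (sum_le_sum h1).trans ?_
  rw [← sum_div, sum_add_distrib]
  have h2 : ∑ j ∈ S, G (j - i) ≤ N * C₃ := by
    refine (sum_inj_le (fun j => j - i) N G hG0 ?_ ?_).trans (hC₃ N)
    · intro j hj
      have := hmem j hj
      rw [mem_Icc]; omega
    · intro j hj j' hj' h
      have := hmem j hj
      have := hmem j' hj'
      simp only at h
      omega
  have h3 : ∑ j ∈ S, G (j + i - e) ≤ (2 * N : ℕ) * C₃ := by
    refine (sum_inj_le (fun j => j + i - e) (2 * N) G hG0 ?_ ?_).trans (hC₃ (2 * N))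
    · intro j hj
      have := hmem j hj
      rw [mem_Icc]; omega
    · intro j hj j' hj' h
      have := hmem j hj
      have := hmem j' hj'
      simp only at h
      omega
  push_cast at h3
  have hN : (0 : ℝ) ≤ N := Nat.cast_nonneg _
  nlinarith [mul_nonneg hN hC₃0]

theorem sq_osc (θ : ℝ) (hθ : 0 < θ) : ∃ c : ℝ, 0 < c ∧ ∀ᶠ N : ℕ in atTop, ∀ e : ℕ, e ≤ 1 → ∀ σ : ℝ, (σ = 1 ∨ σ = -1) →
    PK (N ^ 2) N (fun h => ∀ n ∈ Ioc (N / 2) N,
      σ * ((cntPre h n (me e n) : ℝ) - n * E1 (N ^ 2) (pr (me e n))) < c * Real.sqrt N) ≤ θ := by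
  obtain ⟨C, hC, hgen⟩ := gen_osc
  obtain ⟨C', hC', hrow⟩ := row_pairs C hC
  set τ := θ / 48 with hτ
  have hτ0 : 0 < τ := by positivity
  set ε := min (1 / 64) (τ / (4 * C')) with hε
  have hε0 : 0 < ε := lt_min (by norm_num) (by positivity)
  have hε64 : ε ≤ 1 / 64 := min_le_left _ _
  have hετ : ε ≤ τ / (4 * C') := min_le_right _ _
  rw [le_div_iff₀ (by positivity)] at hετ
  refine ⟨Real.sqrt ε / 16, by positivity, ?_⟩
  have hX : Tendsto (fun N : ℕ => N ^ 2) atTop atTop := tendsto_pow_atTop (by norm_num)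
  filter_upwards [hX.eventually (hgen ε hε0 (by linarith) (θ / 2) (by positivity)), eventually_ge_atTop 2,
    ev_small (1 / 16) 1 (by norm_num) one_pos 2, ev_small (τ / 2) (1 / 2) (by positivity) (by norm_num) 0] with N h1 h2 h3 h4 e he σ hσ
  have hN0 : (0 : ℝ) < N := by exact_mod_cast (by omega : 0 < N)
  have hlogX : Real.log ((N ^ 2 : ℕ) : ℝ) = 2 * Real.log N := by push_cast; rw [Real.log_pow]; norm_num
  rw [hlogX] at h1
  set l := Real.log (N : ℝ) with hl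
  set R := Ioc (N / 2) N with hR
  have hRne : R.Nonempty := ⟨N, by rw [hR, mem_Ioc]; omega⟩
  have hRc : (N : ℝ) ≤ 2 * R.card := by
    rw [hR, Nat.card_Ioc]
    exact_mod_cast (by omega : N ≤ 2 * (N - N / 2))
  have h5 := h1 N (by simp at h3; nlinarith) σ hσ R (fun n => me e n) (fun n => n) hRne ?_ ?_ τ hτ0 ?_ ?_
  · refine h5.trans (le_of_eq ?_)
    rw [hτ]; ring
  · intro i hi
    rw [hR, mem_Ioc] at hi
    refine ⟨?_, by omega, hi.2⟩
    show me e i ≤ N ^ 2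
    unfold me
    rw [sq]
    exact Nat.mul_le_mul hi.2 ((Nat.sub_le _ _).trans hi.2)
  · intro i hi j hj hij
    rw [hR, mem_Ioc] at hi hj
    have h6 := me_sub e i j he (by omega) hij
    have h7 : 0 < (j - i) * (j + i - e) := Nat.mul_pos (by omega) (by omega)
    show me e i < me e j
    omega
  · have h6 : ∀ i ∈ R, ∑ j ∈ R.filter (fun j => i < j), (Real.exp (ε * (C * rat (me e j - me e i))) - 1) ≤ ε * (C' * N) := by
      intro i hi
      rw [hR, mem_Ioc] at hi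
      have h7 : ∀ j ∈ R.filter (fun j => i < j), Real.exp (ε * (C * rat (me e j - me e i))) - 1 ≤ ε * Real.exp (C * rat (me e j - me e i)) :=
        fun j _ => exp_conv ε _ hε0.le (by linarith)
      refine (sum_le_sum h7).trans ?_
      rw [← mul_sum]
      exact mul_le_mul_of_nonneg_left (hrow N e i he (by omega) hi.2) hε0.le
    have h7 := sum_le_sum h6
    rw [sum_const, nsmul_eq_mul] at h7
    have hRc0 : (0 : ℝ) ≤ R.card := Nat.cast_nonneg _
    calc 2 * ∑ i ∈ R, ∑ j ∈ R.filter (fun j => i < j), (Real.exp (ε * (C * rat (me e j - me e i))) - 1) ≤ 2 * (R.card * (ε * (C' * N))) := by linarith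
      _ = (2 * ε * C' * R.card) * N := by ring
      _ ≤ (2 * ε * C' * R.card) * (2 * R.card) := mul_le_mul_of_nonneg_left hRc (by positivity)
      _ = (ε * (4 * C')) * (R.card : ℝ) ^ 2 := by ring
      _ ≤ τ * (R.card : ℝ) ^ 2 := mul_le_mul_of_nonneg_right hετ (sq_nonneg _)
  · have hl0 : 0 ≤ l := Real.log_natCast_nonneg _
    have h6 : Real.exp (16 * ε * (2 * l)) ≤ Real.exp (l / 2) := by
      apply Real.exp_le_exp.2
      nlinarith
    have h7 : Real.exp (l / 2) = (N : ℝ) ^ (1 - 1 / 2 : ℝ) := by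
      rw [Real.rpow_def_of_pos hN0]; congr 1; ring
    rw [pow_zero, one_mul] at h4
    rw [h7] at h6
    refine h6.trans (h4.trans ?_)
    nlinarith

/-- the square-root law for one translate and one length -/
lemma sqrt_one {X k m : ℕ} (hX : 1 ≤ X) {L : ℝ} (hL : 0 < L) (hp : E1 X (pr m) ≤ 2 / L) (hk : L ^ 2 ≤ k) :
    PK X k (fun h => 5 * Real.sqrt k < |(Nm h m : ℝ) - k * E1 X (pr m)|) ≤ 2 * Real.exp (-(3 * L)) := by
  set p := E1 X (pr m) with hpd
  have hp0 : 0 ≤ p := E1_pr_nonneg X m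
  have hk0 : (0 : ℝ) < k := lt_of_lt_of_le (by positivity) hk
  set r := Real.sqrt (k : ℝ) with hr
  have hr0 : 0 < r := Real.sqrt_pos.2 hk0
  have hrr : r * r = k := Real.mul_self_sqrt hk0.le
  have hLr : L ≤ r := Real.le_sqrt_of_sq_le hk
  set s := L / r with hs
  have hs0 : 0 < s := by positivity
  have hs1 : s ≤ 1 := by rw [hs, div_le_one hr0]; exact hLr
  have hsr : s * r = L := by rw [hs]; field_simp
  have hskp : s ^ 2 * (k * p) ≤ 2 * L := by
    have e : s ^ 2 * (k * p) = L ^ 2 * p := by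
      rw [← hrr, ← hsr]; ring
    rw [e]
    calc L ^ 2 * p ≤ L ^ 2 * (2 / L) := mul_le_mul_of_nonneg_left hp (sq_nonneg _)
      _ = 2 * L := by field_simp
  have hkp : 0 ≤ k * p := by positivity
  have hup : PK X k (fun h => k * p + 5 * r ≤ (Nm h m : ℝ)) ≤ Real.exp (-(3 * L)) := by
    refine (chern (m := m) hX (Real.exp_pos s) (s * (k * p + 5 * r)) ((s + s ^ 2) * (k * p)) _ ?_ ?_).trans ?_
    · intro h hh
      rw [Real.log_exp, mul_comm]
      exact mul_le_mul_of_nonneg_right hh hs0.le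
    · have h1 := (le_abs_self _).trans (Real.abs_exp_sub_one_sub_id_le (x := s) (by rw [abs_of_pos hs0]; exact hs1))
      exact mul_le_mul_of_nonneg_right (by linarith) hkp
    · apply Real.exp_le_exp.2
      have e : (s + s ^ 2) * (k * p) - s * (k * p + 5 * r) = s ^ 2 * (k * p) - 5 * (s * r) := by ring
      rw [e, hsr]; linarith
  have hdn : PK X k (fun h => (Nm h m : ℝ) ≤ k * p - 5 * r) ≤ Real.exp (-(3 * L)) := by
    refine (chern (m := m) hX (Real.exp_pos (-s)) (-s * (k * p - 5 * r)) ((-s + s ^ 2) * (k * p)) _ ?_ ?_).trans ?_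
    · intro h hh
      rw [Real.log_exp]
      nlinarith
    · have h1 := (le_abs_self _).trans (Real.abs_exp_sub_one_sub_id_le (x := -s) (by rw [abs_neg, abs_of_pos hs0]; exact hs1))
      have e : (-s) ^ 2 = s ^ 2 := by ring
      rw [e] at h1
      exact mul_le_mul_of_nonneg_right (by linarith) hkp
    · apply Real.exp_le_exp.2
      have e : (-s + s ^ 2) * (k * p) - -s * (k * p - 5 * r) = s ^ 2 * (k * p) - 5 * (s * r) := by ring
      rw [e, hsr]; linarith
  refine le_trans (PK_mono (C := fun h => (k * p + 5 * r ≤ (Nm h m : ℝ)) ∨ ((Nm h m : ℝ) ≤ k * p - 5 * r)) ?_) ((PK_or _ _).trans (by linarith))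
  intro h _ hh
  rcases lt_abs.1 hh with h7 | h7
  · left; linarith
  · right; linarith

/-- the square-root law for all long prefixes and all translates -/
theorem sqrt_law (θ : ℝ) (hθ : 0 < θ) : ∀ᶠ N : ℕ in atTop,
    PK (N ^ 2) N (fun h => ¬ ∀ n ∈ Icc 1 N, (2 * Real.log N) ^ 2 ≤ n → ∀ m ∈ range (N ^ 2 + 1),
      |(cntPre h n m : ℝ) - n * E1 (N ^ 2) (pr m)| ≤ 5 * Real.sqrt n) ≤ θ := by
  classical
  have hX : Tendsto (fun N : ℕ => N ^ 2) atTop atTop := tendsto_pow_atTop (by norm_num)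
  filter_upwards [hX.eventually (eta_window 1 one_pos), eventually_ge_atTop 2, (tendsto_natCast_atTop_atTop (R := ℝ)).eventually_ge_atTop (4 / θ)] with N h1 h2 h3
  have hN2 : (2 : ℝ) ≤ N := by exact_mod_cast h2
  have hN0 : (0 : ℝ) < N := by linarith
  have hX1 : 1 ≤ N ^ 2 := Nat.one_le_pow _ _ (by omega)
  have hlogX : Real.log ((N ^ 2 : ℕ) : ℝ) = 2 * Real.log N := by push_cast; rw [Real.log_pow]; norm_num
  rw [hlogX] at h1
  have hl0 : 0 < Real.log (N : ℝ) := Real.log_pos (by linarith)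
  set L := 2 * Real.log (N : ℝ) with hL
  have hL0 : 0 < L := by positivity
  set S := (Icc 1 N).filter (fun n : ℕ => L ^ 2 ≤ (n : ℝ)) with hS
  have hsub : PK (N ^ 2) N (fun h => ¬ ∀ n ∈ Icc 1 N, L ^ 2 ≤ n → ∀ m ∈ range (N ^ 2 + 1),
      |(cntPre h n m : ℝ) - n * E1 (N ^ 2) (pr m)| ≤ 5 * Real.sqrt n) ≤
      PK (N ^ 2) N (fun h => ∃ q ∈ S ×ˢ range (N ^ 2 + 1), 5 * Real.sqrt q.1 < |(cntPre h q.1 q.2 : ℝ) - q.1 * E1 (N ^ 2) (pr q.2)|) := by
    apply PK_mono
    intro h _ hh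
    push Not at hh
    obtain ⟨k, hk, hkA, m, hm, hc⟩ := hh
    exact ⟨(k, m), mem_product.2 ⟨mem_filter.2 ⟨hk, hkA⟩, hm⟩, hc⟩
  refine hsub.trans ((PK_exists (S ×ˢ range (N ^ 2 + 1)) (fun q h => 5 * Real.sqrt q.1 < |(cntPre h q.1 q.2 : ℝ) - q.1 * E1 (N ^ 2) (pr q.2)|)).trans ?_)
  have hterm : ∀ q ∈ S ×ˢ range (N ^ 2 + 1), PK (N ^ 2) N (fun h => 5 * Real.sqrt q.1 < |(cntPre h q.1 q.2 : ℝ) - q.1 * E1 (N ^ 2) (pr q.2)|) ≤
      2 * Real.exp (-(3 * L)) := by
    intro q hq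
    rw [mem_product, hS, mem_filter, mem_Icc, mem_range] at hq
    obtain ⟨⟨⟨_, hqN⟩, hqL⟩, hq2⟩ := hq
    have hp : E1 (N ^ 2) (pr q.2) ≤ 2 / L := by
      have := (abs_le.1 (h1 q.2 (by omega))).2
      rw [le_div_iff₀ hL0]; linarith
    have h6 := sqrt_one hX1 hL0 hp hqL
    refine le_trans (le_of_eq ?_) h6
    rw [← PK_castLE hX1 hqN (fun h => 5 * Real.sqrt q.1 < |(Nm h q.2 : ℝ) - q.1 * E1 (N ^ 2) (pr q.2)|)]
    congr 1
    funext h
    rw [cntPre_eq hqN]
  refine (sum_le_sum hterm).trans ?_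
  rw [sum_const, nsmul_eq_mul, card_product, card_range]
  have hSc : (S.card : ℝ) ≤ N := by
    have : S.card ≤ (Icc 1 N).card := card_filter_le _ _
    rw [Nat.card_Icc, Nat.add_sub_cancel] at this
    exact_mod_cast this
  have hexp : Real.exp (-(3 * L)) = 1 / (N : ℝ) ^ 6 := by
    have e : -(3 * L) = -((6 : ℕ) * Real.log N) := by rw [hL]; push_cast; ring
    rw [e, Real.exp_neg, Real.exp_nat_mul, Real.exp_log hN0, one_div]
  rw [hexp]
  push_cast
  have h4 : (4 : ℝ) / θ ≤ N := h3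
  rw [div_le_iff₀ hθ] at h4
  calc (S.card : ℝ) * ((N : ℝ) ^ 2 + 1) * (2 * (1 / (N : ℝ) ^ 6)) ≤ N * ((N : ℝ) ^ 2 + 1) * (2 * (1 / (N : ℝ) ^ 6)) := by gcongr
    _ ≤ N * ((N : ℝ) ^ 2 + (N : ℝ) ^ 2) * (2 * (1 / (N : ℝ) ^ 6)) := by
        gcongr
        nlinarith
    _ = 4 / (N : ℝ) ^ 3 := by field_simp; ring
    _ ≤ θ := by
        rw [div_le_iff₀ (by positivity)]
        have : (1 : ℝ) ≤ (N : ℝ) ^ 2 := by nlinarith
        calc (4 : ℝ) ≤ (N : ℝ) * θ := h4
          _ ≤ ((N : ℝ) * θ) * (N : ℝ) ^ 2 := le_mul_of_one_le_right (by positivity) this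
          _ = _ := by ring

end Pool.Agent.N735.CL
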