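import Mathlib
import Pool.Agent.N735.CL.Gen
import Pool.Agent.N735.CL.Osc2

set_option autoImplicit false
set_option maxHeartbeats 2000000

/-! The translates with exactly `s` primes: the weights. -/

namespace Pool.Agent.N735.CL

open Finset Filter Topology
open Pool.Agent.H646 (rat)

/-- the second moment, in a general form -/
lemma sm_abs {X K : ℕ} (hX1 : 1 ≤ X) (T : Finset ℕ) (hT : T.Nonempty) (H : ℕ → (Fin K → ℕ) → ℝ) (M : ℕ → ℝ)
    (c D τ : ℝ) (hc : 0 ≤ c) (hτ : 0 < τ) (hM : ∀ j ∈ T, EK X K (H j) = M j) (hM0 : ∀ j ∈ T, 0 < M j)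
    (hMc : ∀ i ∈ T, ∀ j ∈ T, M i ≤ c * M j) (f : ℕ → ℕ → ℝ) (hf0 : ∀ i ∈ T, ∀ j ∈ T, 0 ≤ f i j)
    (hpair : ∀ i ∈ T, ∀ j ∈ T, i < j → EK X K (fun h => H i h * H j h) ≤ M i * M j * (1 + f i j))
    (hD0 : 0 ≤ D) (hdiag : ∀ j ∈ T, EK X K (fun h => H j h * H j h) ≤ M j ^ 2 * D)
    (hsum : 2 * c ^ 2 * ∑ i ∈ T, ∑ j ∈ T.filter (fun j => i < j), f i j ≤ τ * (T.card : ℝ) ^ 2)
    (hDT : c * D ≤ τ * T.card) : PK X K (fun h => ∀ j ∈ T, H j h = 0) ≤ 24 * τ := by
  classical
  have hT0 : (0 : ℝ) < T.card := by exact_mod_cast hT.card_pos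
  set A := ∑ j ∈ T, M j with hA
  have hA0 : 0 < A := sum_pos hM0 hT
  have hMle : ∀ j ∈ T, M j ≤ c * (A / T.card) := by
    intro j hj
    have h9 : ∑ i ∈ T, M j ≤ ∑ i ∈ T, c * M i := sum_le_sum (fun i hi => hMc j hj i hi)
    rw [← mul_sum, sum_const, nsmul_eq_mul] at h9
    rw [← mul_div_assoc, le_div_iff₀ hT0]
    linarith
  have hcA : 0 ≤ c * (A / T.card) := by positivity
  set g : ℕ → ℕ → ℝ := fun i j => (c * (A / T.card)) ^ 2 * f i j with hg
  have hlt : ∀ i ∈ T, ∀ j ∈ T, i < j → EK X K (fun h => H i h * H j h) ≤ M i * M j + g i j := by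
    intro i hi j hj hij
    refine (hpair i hi j hj hij).trans ?_
    have h1 : M i * M j ≤ (c * (A / T.card)) ^ 2 := by
      rw [sq]
      exact mul_le_mul (hMle i hi) (hMle j hj) (hM0 j hj).le hcA
    have h2 := mul_le_mul_of_nonneg_right h1 (hf0 i hi j hj)
    simp only [hg]
    linarith
  set Z : (Fin K → ℕ) → ℝ := fun h => ∑ j ∈ T, H j h with hZ
  have hEZ : EK X K Z = A := by
    simp only [hZ]
    rw [EK_sum]
    exact sum_congr rfl hM
  have hfirst : (1 - 2 * τ) * A ≤ EK X K Z := by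
    rw [hEZ]; nlinarith
  have hsecond : EK X K (fun h => Z h ^ 2) ≤ (1 + 2 * τ) * A ^ 2 := by
    have e1 : ∀ h ∈ Om X K, Z h ^ 2 = ∑ i ∈ T, ∑ j ∈ T, H i h * H j h := by
      intro h _
      simp only [hZ]
      rw [sq, sum_mul_sum]
    rw [EK_congr e1, EK_sum]
    have h5 : ∀ i ∈ T, EK X K (fun h => ∑ j ∈ T, H i h * H j h) ≤
        ∑ j ∈ T, (M i * M j + ((if i < j then g i j else 0) + (if j < i then g j i else 0)) + (if i = j then M i ^ 2 * D else 0)) := by
      intro i hi
      rw [EK_sum]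
      apply sum_le_sum
      intro j hj
      rcases lt_trichotomy i j with h | h | h
      · rw [if_pos h, if_neg (by omega), if_neg (by omega), add_zero, add_zero]
        exact hlt i hi j hj h
      · subst h
        simp only [lt_irrefl, if_false, if_true, add_zero]
        have h1 := hdiag i hi
        have h2 := hM0 i hi
        have h3 : 0 ≤ M i * M i := by positivity
        linarith
      · rw [if_neg (by omega), if_pos h, if_neg (by omega), add_zero, zero_add]
        have h6 := hlt j hj i hi h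
        have h7 : EK X K (fun h => H i h * H j h) = EK X K (fun h => H j h * H i h) :=
          EK_congr (fun h _ => mul_comm _ _)
        rw [h7]
        linarith
    refine (sum_le_sum h5).trans ?_
    have e2 : ∑ i ∈ T, ∑ j ∈ T, (M i * M j + ((if i < j then g i j else 0) + (if j < i then g j i else 0)) + (if i = j then M i ^ 2 * D else 0)) =
        A ^ 2 + (∑ i ∈ T, ∑ j ∈ T, (if i < j then g i j else 0) + ∑ i ∈ T, ∑ j ∈ T, (if j < i then g j i else 0)) + ∑ i ∈ T, M i ^ 2 * D := by
      simp_rw [sum_add_distrib]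
      congr 1
      · congr 1
        rw [hA, sq, sum_mul_sum]
      · apply sum_congr rfl
        intro i hi
        rw [sum_ite_eq T i, if_pos hi]
    have e3 : ∑ i ∈ T, ∑ j ∈ T, (if j < i then g j i else 0) = ∑ i ∈ T, ∑ j ∈ T, (if i < j then g i j else 0) := by
      rw [sum_comm]
    have e4 : ∑ i ∈ T, ∑ j ∈ T, (if i < j then g i j else 0) = (c * (A / T.card)) ^ 2 * ∑ i ∈ T, ∑ j ∈ T.filter (fun j => i < j), f i j := by
      rw [mul_sum]
      apply sum_congr rfl
      intro i _
      rw [mul_sum, sum_filter]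
    rw [e2, e3, e4]
    have h6 : ∑ i ∈ T, M i ^ 2 * D ≤ τ * A ^ 2 := by
      have h7 : ∀ i ∈ T, M i ^ 2 * D ≤ M i * ((c * (A / T.card)) * D) := by
        intro i hi
        have h8 := mul_le_mul_of_nonneg_left (hMle i hi) (hM0 i hi).le
        have h9 := mul_le_mul_of_nonneg_right h8 hD0
        calc M i ^ 2 * D = M i * M i * D := by ring
          _ ≤ M i * (c * (A / T.card)) * D := h9
          _ = _ := by ring
      refine (sum_le_sum h7).trans ?_
      rw [← sum_mul]
      calc A * ((c * (A / T.card)) * D) = (A ^ 2 / T.card) * (c * D) := by ring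
        _ ≤ (A ^ 2 / T.card) * (τ * T.card) := mul_le_mul_of_nonneg_left hDT (by positivity)
        _ = τ * A ^ 2 := by field_simp
    have h7 : (c * (A / T.card)) ^ 2 * (∑ i ∈ T, ∑ j ∈ T.filter (fun j => i < j), f i j) * 2 ≤ τ * A ^ 2 := by
      calc (c * (A / T.card)) ^ 2 * (∑ i ∈ T, ∑ j ∈ T.filter (fun j => i < j), f i j) * 2 =
          (A / T.card) ^ 2 * (2 * c ^ 2 * ∑ i ∈ T, ∑ j ∈ T.filter (fun j => i < j), f i j) := by ring
        _ ≤ (A / T.card) ^ 2 * (τ * (T.card : ℝ) ^ 2) := mul_le_mul_of_nonneg_left hsum (sq_nonneg _)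
        _ = τ * A ^ 2 := by field_simp
    linarith
  have hcheb := PK_cheb hX1 hA0 hfirst hsecond
  refine le_trans (PK_mono ?_) (hcheb.trans (by linarith))
  intro h _ hh
  have : Z h = 0 := by
    simp only [hZ]
    exact sum_eq_zero (fun j hj => hh j hj)
  rw [this]
  positivity

/-- the factor of one coordinate -/
def xf {K : ℕ} (A : Finset (Fin K)) (m : ℕ) (v : Fin K) (a : ℕ) : ℝ := if v ∈ A then pr m a else 1 - pr m a

lemma prod_xf {K : ℕ} (A : Finset (Fin K)) (m : ℕ) (h : Fin K → ℕ) :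
    ∏ v, xf A m v (h v) = if A = univ.filter (fun v : Fin K => (m + h v).Prime) then 1 else 0 := by
  classical
  split_ifs with hA
  · apply prod_eq_one
    intro v _
    unfold xf pr
    by_cases hv : v ∈ A
    · rw [if_pos hv]
      rw [hA, mem_filter] at hv
      rw [if_pos hv.2]
    · rw [if_neg hv]
      have : ¬ (m + h v).Prime := by
        intro hp
        apply hv
        rw [hA, mem_filter]
        exact ⟨mem_univ _, hp⟩
      rw [if_neg this]; norm_num
  · have : ∃ v, ¬ (v ∈ A ↔ (m + h v).Prime) := by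
      by_contra hc
      push Not at hc
      apply hA
      ext v
      rw [mem_filter]
      simp [hc v]
    obtain ⟨v, hv⟩ := this
    apply prod_eq_zero (mem_univ v)
    unfold xf pr
    by_cases h1 : v ∈ A <;> by_cases h2 : (m + h v).Prime
    · exact absurd (by tauto) hv
    · rw [if_pos h1, if_neg h2]
    · rw [if_neg h1, if_pos h2]; norm_num
    · exact absurd (by tauto) hv

lemma sum_xf {K : ℕ} (s m : ℕ) (h : Fin K → ℕ) :
    ∑ A ∈ powersetCard s (univ : Finset (Fin K)), ∏ v, xf A m v (h v) = if Nm h m = s then 1 else 0 := by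
  classical
  simp_rw [prod_xf]
  rw [sum_ite_eq']
  have : univ.filter (fun v : Fin K => (m + h v).Prime) ∈ powersetCard s univ ↔ Nm h m = s := by
    rw [mem_powersetCard]
    unfold Nm
    simp
  split_ifs with h1 h2 h2
  · rfl
  · exact absurd (this.1 h1) h2
  · exact absurd (this.2 h2) h1
  · rfl

lemma prod_mem_ite {K : ℕ} (A : Finset (Fin K)) (x y : ℝ) : ∏ v, (if v ∈ A then x else y) = x ^ A.card * y ^ (K - A.card) := by
  classical
  rw [prod_ite, prod_const, prod_const]
  have h1 : (univ.filter (fun v : Fin K => v ∈ A)) = A := by ext v; simp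
  have h2 : (univ.filter (fun v : Fin K => v ∉ A)) = Aᶜ := by ext v; simp
  rw [h1, h2, card_compl, Fintype.card_fin]

/-- the number of the `s`-sets which contain a given set -/
lemma card_supersets {K s : ℕ} (D : Finset (Fin K)) : ((powersetCard s (univ : Finset (Fin K))).filter (fun B => D ⊆ B)).card ≤ (K - D.card).choose (s - D.card) := by
  classical
  have h : ((powersetCard s (univ : Finset (Fin K))).filter (fun B => D ⊆ B)).card ≤ (powersetCard (s - D.card) Dᶜ).card := by
    apply card_le_card_of_injOn (fun B => B \ D)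
    · intro B hB
      rw [mem_coe, mem_filter, mem_powersetCard] at hB
      rw [mem_coe, mem_powersetCard]
      constructor
      · intro v hv
        have hv' : v ∈ B \ D := hv
        rw [Finset.mem_sdiff] at hv'
        rw [mem_compl]
        exact hv'.2
      · rw [card_sdiff_of_subset hB.2, hB.1.2]
    · intro B hB B' hB' he
      rw [mem_coe, mem_filter, mem_powersetCard] at hB hB'
      simp only at he
      rw [← sdiff_union_of_subset hB.2, he, sdiff_union_of_subset hB'.2]
  rwa [card_powersetCard, card_compl, Fintype.card_fin] at h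

lemma choose_ratio (K s d : ℕ) (hs : s ≤ K) (hd : d ≤ s) (hK : 0 < K) : ((K - d).choose (s - d) : ℝ) ≤ K.choose s * ((s : ℝ) / K) ^ d := by
  induction d with
  | zero => simp
  | succ d ih =>
    have ih' := ih (by omega)
    have hKr : (0 : ℝ) < K := by exact_mod_cast hK
    -- (K - d - 1).choose (s - d - 1) * (K - d) = (K - d).choose (s - d) * (s - d)
    have h1 : ((K - (d + 1)).choose (s - (d + 1)) : ℝ) * (K - d : ℕ) = ((K - d).choose (s - d) : ℝ) * (s - d : ℕ) := by
      have h2 := Nat.add_one_mul_choose_eq (K - (d + 1)) (s - (d + 1))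
      have e1 : K - (d + 1) + 1 = K - d := by omega
      have e2 : s - (d + 1) + 1 = s - d := by omega
      rw [e1, e2] at h2
      have h3 : (K - (d + 1)).choose (s - (d + 1)) * (K - d) = (K - d).choose (s - d) * (s - d) := by
        rw [← h2]; ring
      exact_mod_cast h3
    have hKd : (0 : ℝ) < ((K - d : ℕ) : ℝ) := by exact_mod_cast (by omega : 0 < K - d)
    have h4 : ((K - (d + 1)).choose (s - (d + 1)) : ℝ) = ((K - d).choose (s - d) : ℝ) * (((s - d : ℕ) : ℝ) / ((K - d : ℕ) : ℝ)) := by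
      rw [mul_div_assoc', eq_div_iff hKd.ne']
      exact h1
    rw [h4, pow_succ, ← mul_assoc]
    apply mul_le_mul ih' _ (by positivity) (by positivity)
    rw [div_le_div_iff₀ hKd hKr]
    have h5 : (s - d) * K ≤ s * (K - d) := by
      obtain ⟨a, rfl⟩ : ∃ a, s = d + a := ⟨s - d, by omega⟩
      obtain ⟨b, rfl⟩ : ∃ b, K = d + a + b := ⟨K - (d + a), by omega⟩
      have e3 : d + a - d = a := by omega
      have e4 : d + a + b - d = a + b := by omega
      rw [e3, e4]
      nlinarith
    exact_mod_cast h5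

/-- the correlations of the positions -/
lemma sum_inter {K s : ℕ} (hs : s ≤ K) (hK : 0 < K) (ρ : ℝ) (hρ : 0 ≤ ρ) (A : Finset (Fin K)) (hA : A.card = s) :
    ∑ B ∈ powersetCard s (univ : Finset (Fin K)), ρ ^ (A ∩ B).card ≤ K.choose s * (1 + ρ * ((s : ℝ) / K)) ^ s := by
  classical
  have h1 : ∀ B ∈ powersetCard s (univ : Finset (Fin K)), ρ ^ (A ∩ B).card ≤ ∑ D ∈ A.powerset, (if D ⊆ B then ρ ^ D.card else 0) := by
    intro B _
    have h2 : ρ ^ (A ∩ B).card ≤ (ρ + 1) ^ (A ∩ B).card := pow_le_pow_left₀ hρ (by linarith) _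
    refine h2.trans (le_of_eq ?_)
    have h3 := Finset.sum_pow_mul_eq_add_pow ρ 1 (A ∩ B)
    rw [← h3, ← sum_filter]
    have h4 : A.powerset.filter (fun D => D ⊆ B) = (A ∩ B).powerset := by
      ext D
      rw [mem_filter, mem_powerset, mem_powerset, subset_inter_iff]
    rw [h4]
    apply sum_congr rfl
    intro D _
    rw [one_pow, mul_one]
  refine (sum_le_sum h1).trans ?_
  rw [sum_comm]
  have h5 : ∀ D ∈ A.powerset, ∑ B ∈ powersetCard s (univ : Finset (Fin K)), (if D ⊆ B then ρ ^ D.card else 0) ≤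
      K.choose s * (ρ * ((s : ℝ) / K)) ^ D.card := by
    intro D hD
    rw [mem_powerset] at hD
    have hDs : D.card ≤ s := hA ▸ card_le_card hD
    rw [← sum_filter, sum_const, nsmul_eq_mul]
    have h6 : ((((powersetCard s (univ : Finset (Fin K))).filter (fun B => D ⊆ B)).card : ℕ) : ℝ) ≤ (K - D.card).choose (s - D.card) := by
      exact_mod_cast card_supersets D
    have h7 := h6.trans (choose_ratio K s D.card hs hDs hK)
    calc _ ≤ (K.choose s * ((s : ℝ) / K) ^ D.card) * ρ ^ D.card := mul_le_mul_of_nonneg_right h7 (by positivity)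
      _ = _ := by rw [mul_pow]; ring
  refine (sum_le_sum h5).trans (le_of_eq ?_)
  rw [← mul_sum]
  congr 1
  have h8 := Finset.sum_pow_mul_eq_add_pow (ρ * ((s : ℝ) / K)) 1 A
  rw [hA] at h8
  rw [add_comm 1, ← h8]
  apply sum_congr rfl
  intro D _
  rw [one_pow, mul_one]

end Pool.Agent.N735.CL
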