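import Mathlib
import Pool.Agent.N735.CL.Kf1
import Pool.Agent.N735.CL.SharpL
import Pool.Agent.N735.CL.Zst
import Pool.Agent.N735.CL.Lln

set_option autoImplicit false
set_option maxHeartbeats 2000000

/-! Small tilts, uniformly. -/

namespace Pool.Agent.N735.CL

open Finset Filter Topology
open Pool.Agent.H646 (rat)

lemma ev_lV (w : ℕ) (δ : ℝ) (hδ : 0 < δ) : ∀ᶠ X : ℕ in atTop, ∀ t : ℝ, |t - 1| ≤ 1 / 2 →
    |ll w t X| ≤ δ ∧ |ll w t X| * Real.log X ≤ 4 * |t - 1| * Ww w ∧ |rX w t X - 1| ≤ |ll w t X| := by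
  filter_upwards [ev_eta 1 one_pos, ev_gam w 1 one_pos, tends_log.eventually_ge_atTop (2 * Ww w / δ + 1)] with X h1 h2 h3 t ht
  have hW : (0 : ℝ) < Ww w := by exact_mod_cast Ww_pos w
  have hq : 0 ≤ 2 * Ww w / δ := by positivity
  have hL1 : 1 ≤ Real.log (X : ℝ) := by linarith
  have hL0 : 0 < Real.log (X : ℝ) := by linarith
  have hγ : 0 < gam w X := lt_of_lt_of_le (by positivity) h2.1
  have h4 : eta X * Real.log X ≤ 2 := by linarith [(abs_le.1 h1).2]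
  have h5 : (gam w X)⁻¹ ≤ 2 * Ww w := by
    rw [inv_le_comm₀ hγ (by positivity), ← one_div]; exact h2.1
  have h6 : |ll w t X| * Real.log X ≤ 4 * |t - 1| * Ww w := by
    unfold ll
    rw [abs_div, abs_mul, abs_neg, abs_of_nonneg (eta_nonneg X), abs_of_pos hγ, div_eq_mul_inv]
    calc |t - 1| * eta X * (gam w X)⁻¹ * Real.log X = |t - 1| * ((eta X * Real.log X) * (gam w X)⁻¹) := by ring
      _ ≤ |t - 1| * (2 * (2 * Ww w)) := by
          apply mul_le_mul_of_nonneg_left _ (abs_nonneg _)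
          apply mul_le_mul h4 h5 (inv_nonneg.2 hγ.le) (by norm_num)
      _ = _ := by ring
  refine ⟨?_, h6, ?_⟩
  · have h7 : 2 * Ww w / δ ≤ Real.log X := by linarith
    rw [div_le_iff₀ hδ] at h7
    have h8 : |ll w t X| * Real.log X ≤ δ * Real.log X := by
      have : 4 * |t - 1| * Ww w ≤ 2 * Ww w := by nlinarith
      linarith
    exact le_of_mul_le_mul_right h8 hL0
  · unfold rX rr
    have : 1 + ll w t X * (1 - gam w X) - 1 = ll w t X * (1 - gam w X) := by ring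
    rw [this, abs_mul]
    have h3 : |1 - gam w X| ≤ 1 := by rw [abs_le]; constructor <;> linarith [h2.2.2]
    calc |ll w t X| * |1 - gam w X| ≤ |ll w t X| * 1 := mul_le_mul_of_nonneg_left h3 (abs_nonneg _)
      _ = |ll w t X| := mul_one _

lemma pow_ofV {g a a' L T κ u : ℝ} {K : ℕ} (hg : 0 ≤ g) (ha : 3 / 4 ≤ a) (ha' : 3 / 4 ≤ a') (hL : 0 < L) (hT : 0 ≤ T) (hu : 0 ≤ u)
    (hK : (K : ℝ) * u ≤ κ * L ^ 2) (h : L ^ 2 * (g - a * a') ≤ u * T) :
    g ^ K ≤ (a ^ K * a' ^ K) * Real.exp (2 * κ * T) := by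
  have haa : 1 / 2 ≤ a * a' := by nlinarith
  have haa0 : 0 < a * a' := by linarith
  have h1 := pow_ratio a a' (g - a * a') K haa0 (by linarith)
  have e : a * a' + (g - a * a') = g := by ring
  rw [e] at h1
  refine h1.trans ?_
  apply mul_le_mul_of_nonneg_left _ (by positivity)
  apply Real.exp_le_exp.2
  have hL2 : 0 < L ^ 2 := by positivity
  have huT : 0 ≤ u * T := by positivity
  have h2 : (g - a * a') / (a * a') ≤ 2 * (u * T) / L ^ 2 := by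
    rw [div_le_div_iff₀ haa0 hL2]
    nlinarith
  have hK0 : (0 : ℝ) ≤ K := Nat.cast_nonneg _
  calc (K : ℝ) * ((g - a * a') / (a * a')) ≤ K * (2 * (u * T) / L ^ 2) := mul_le_mul_of_nonneg_left h2 hK0
    _ = (K * u) * (2 * T / L ^ 2) := by ring
    _ ≤ (κ * L ^ 2) * (2 * T / L ^ 2) := mul_le_mul_of_nonneg_right hK (by positivity)
    _ = 2 * κ * T := by field_simp

lemma ev_pairV (w : ℕ) : ∃ C₁ : ℝ, 0 ≤ C₁ ∧ ∀ δ₂ : ℝ, 0 < δ₂ → ∀ᶠ X : ℕ in atTop,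
    ∃ Ex : Finset ℕ, (Ex.card : ℝ) ≤ X / Real.log X ^ 6 ∧ ∀ t : ℝ, |t - 1| ≤ 1 / 2 → ∀ K : ℕ, (K : ℝ) * (t - 1) ^ 2 ≤ 2 * Real.log X ^ 2 →
    ∀ i ∈ Icc 1 (X / Ww w), ∀ j ∈ Icc 1 (X / Ww w), i < j →
      (gg w t X i j) ^ K ≤ (aj w t X i ^ K * aj w t X j ^ K) * Real.exp (C₁ * Real.exp (sw w (j - i))) ∧
      (Ww w * (j - i) ∉ Ex → (gg w t X i j) ^ K ≤ (aj w t X i ^ K * aj w t X j ^ K) *
        Real.exp (4 * (1 + 1) * ((0 : ℝ) - 1) ^ 2 / Vw w * (Real.exp (sw w (j - i)) - 1) + δ₂)) := by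
  obtain ⟨C, hC, hall⟩ := pc_all
  have hV := Vw_pos w
  have hW : (0 : ℝ) < Ww w := by exact_mod_cast Ww_pos w
  set C₁ := 2 * 2 * (2 * C / Vw w + 26 * Ww w) with hC₁
  refine ⟨C₁, by positivity, fun δ₂ hδ₂ => ?_⟩
  set M₀ := 5 / Vw w + 1 / Vw w ^ 2 + 4 + 26 * Ww w with hM₀
  have hM₀0 : 0 < M₀ := by positivity
  set δ := min (1 / 10) (δ₂ / (4 * M₀)) with hδ
  have hδ0 : 0 < δ := lt_min (by norm_num) (by positivity)
  have hδ1 : δ ≤ 1 / 10 := min_le_left _ _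
  filter_upwards [hall, pc_grid 6 δ hδ0 (by linarith), ev_eta δ hδ0, eta_window δ hδ0, ev_gam w δ hδ0,
    ev_lV w δ hδ0, eventually_ge_atTop 1, tends_log.eventually_ge_atTop 8] with X e1 e2 e3 e4 e6 e10 e11 e12
  obtain ⟨Ex, hEx, hgood⟩ := e2
  refine ⟨Ex, hEx, fun t ht K hKle i hi j hj hij => ?_⟩
  obtain ⟨g1, g2, g3⟩ := e10 t ht
  obtain ⟨t1, t2⟩ := abs_le.1 ht
  have hi0 : 0 < i := (mem_Icc.1 hi).1
  have hj0 : 0 < j := (mem_Icc.1 hj).1
  have hiX := mul_div_le' w X i hi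
  have hjX := mul_div_le' w X j hj
  have hL0 : 0 < Real.log (X : ℝ) := by linarith
  set L := Real.log (X : ℝ) with hL
  have hγ0 : 0 < gam w X := lt_of_lt_of_le (by positivity) e6.1
  have hr : |rX w t X - 1| ≤ δ := g3.trans g1
  obtain ⟨r1, r2⟩ := abs_le.1 hr
  have hsum : Ww w * j = Ww w * i + Ww w * (j - i) := by
    rw [← mul_add]; congr 1; omega
  set q := E1 X (fun h => pr (Ww w * i) h * pr (Ww w * j) h) with hq
  have hq0 : 0 ≤ q := E1_nonneg (fun h _ => mul_nonneg (pr_nonneg _ _) (pr_nonneg _ _))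
  have hineq := pair_ineq (t - 1) (eta X) (ej w X i) (ej w X j) q (gam w X) L δ (rX w t X) (ll w t X) hγ0 e6.2.2 hδ0.le hδ1
    rfl rfl hq0 e3 (e4 _ hiX) (e4 _ hjX) hr
  have hgg : gg w t X i j = 1 + ll w t X ^ 2 * gam w X * (1 - gam w X) + (t - 1) * rX w t X ^ 2 * (ej w X i + ej w X j) +
      (t - 1) ^ 2 * rX w t X ^ 2 * q := gg_eq e11 w t hi0 hj0
  rw [← hgg] at hineq
  have haj' : ∀ k, Ww w * k ≤ X → 3 / 4 ≤ aj w t X k := by
    intro k hk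
    have f1 := (abs_le.1 (e4 _ hk)).2
    have f0 : 0 ≤ ej w X k := ej_nonneg w X k
    have e : E1 X (pr (Ww w * k)) = ej w X k := rfl
    rw [e] at f1
    have f2 : ej w X k ≤ 1 / 4 := by nlinarith
    unfold aj
    have f3 : 0 ≤ rX w t X * ej w X k := mul_nonneg (by linarith) f0
    have f4 : rX w t X * ej w X k ≤ 11 / 40 := by nlinarith
    nlinarith
  have hai := haj' i hiX
  have haj := haj' j hjX
  have hggn : 0 ≤ gg w t X i j :=
    E1_nonneg (fun h _ => mul_nonneg (gw_nonneg (by linarith) (by linarith) hγ0.le e6.2.2 _ _) (gw_nonneg (by linarith) (by linarith) hγ0.le e6.2.2 _ _))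
  have hd0 : 0 < j - i := by omega
  have hWd0 : 0 < Ww w * (j - i) := Nat.mul_pos (Ww_pos w) hd0
  have hrat := rat_W w (j - i) hd0
  have hE : 1 ≤ Real.exp (sw w (j - i)) := Real.one_le_exp (sw_nonneg _ _)
  set E := Real.exp (sw w (j - i)) with hEd
  have hs2 : 0 ≤ (t - 1) ^ 2 := sq_nonneg _
  constructor
  · have h1 := e1 (Ww w * i) (Ww w * (j - i)) hWd0
    rw [← hsum] at h1
    have h2 : L ^ 2 * q ≤ C * rat (Ww w * (j - i)) := by rw [mul_comm]; exact h1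
    have h3 := real_all δ E (Vw w) (L ^ 2 * q) (rat (Ww w * (j - i))) C (gam w X) (Ww w) hδ0 hδ1 hE hV hC.le hrat h2 hγ0 hW e6.1
    have h4 := hineq.trans (mul_le_mul_of_nonneg_left h3 hs2)
    have h5 := pow_ofV hggn hai haj hL0 (by positivity) hs2 hKle h4
    refine h5.trans (le_of_eq ?_)
    congr 2
    rw [hC₁]; ring
  · intro hnE
    have hdm : Ww w * (j - i) ∈ Icc 1 X := by
      rw [mem_Icc]
      refine ⟨hWd0, ?_⟩
      omega
    have h1 := hgood (Ww w * (j - i)) hdm hnE (Ww w * i) hiX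
    rw [← hsum] at h1
    have h2 : L ^ 2 * q ≤ (1 + δ) * rat (Ww w * (j - i)) + 2 * δ := by rw [mul_comm]; exact h1
    have h3 := real_good δ E (Vw w) (L ^ 2 * q) (rat (Ww w * (j - i))) (gam w X) (Ww w) hδ0 hδ1 hE hV hrat h2 hγ0 e6.2.1 hW e6.1
    have h4 := hineq.trans (mul_le_mul_of_nonneg_left h3 hs2)
    have hT0 : 0 ≤ 2 * (E - 1) / Vw w + δ * M₀ := by
      have : 0 ≤ 2 * (E - 1) / Vw w := div_nonneg (by linarith) hV.le
      positivity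
    have h5 := pow_ofV hggn hai haj hL0 hT0 hs2 hKle h4
    refine h5.trans ?_
    have hapos : 0 ≤ aj w t X i ^ K * aj w t X j ^ K := by positivity
    apply mul_le_mul_of_nonneg_left _ hapos
    apply Real.exp_le_exp.2
    have h6 : 2 * 2 * (2 * (E - 1) / Vw w + δ * M₀) =
        4 * (1 + 1) * ((0 : ℝ) - 1) ^ 2 / Vw w * (E - 1) + 4 * M₀ * δ := by ring
    rw [h6]
    have h7 : 4 * M₀ * δ ≤ δ₂ := by
      have h8 : δ ≤ δ₂ / (4 * M₀) := min_le_right _ _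
      rw [le_div_iff₀ (by positivity)] at h8
      linarith
    linarith

/-- the sum of the majorant over the differences -/
lemma ff_sum_Icc (w : ℕ) (C₁ τ1 C₃ : ℝ) (hC₃0 : 0 ≤ C₃) (hτ10 : 0 < τ1)
    (hmain : ∀ J : ℕ, ∑ d ∈ Icc 1 J, Real.exp (4 * (1 + 1) * ((0 : ℝ) - 1) ^ 2 / Vw w * (Real.exp (sw w d) - 1)) ≤ J * (1 + τ1))
    (hC₃ : ∀ J : ℕ, ∑ d ∈ Icc 1 J, Real.exp (2 * C₁ * Real.exp (sw w d)) ≤ J * C₃) (J : ℕ) (Ex : Finset ℕ)
    (hExJ : (Ex.card : ℝ) ≤ τ1 ^ 2 / (C₃ + 1) * J) :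
    ∑ d ∈ Icc 1 J, ff w C₁ τ1 Ex d ≤ (Real.exp τ1 * (1 + τ1) - 1 + τ1) * J := by
  unfold ff
  set c := 4 * (1 + 1) * ((0 : ℝ) - 1) ^ 2 / Vw w with hc
  rw [sum_add_distrib, sum_sub_distrib, ← sum_filter]
  have g1 : ∑ d ∈ Icc 1 J, Real.exp (c * (Real.exp (sw w d) - 1) + τ1) ≤ Real.exp τ1 * (J * (1 + τ1)) := by
    have : ∑ d ∈ Icc 1 J, Real.exp (c * (Real.exp (sw w d) - 1) + τ1) = Real.exp τ1 * ∑ d ∈ Icc 1 J, Real.exp (c * (Real.exp (sw w d) - 1)) := by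
      rw [mul_sum]
      apply sum_congr rfl
      intro d _
      rw [Real.exp_add]; ring
    rw [this]
    exact mul_le_mul_of_nonneg_left (hmain J) (Real.exp_pos _).le
  have g2 : ∑ d ∈ Icc 1 J, (1 : ℝ) = J := by simp
  have g3 : ∑ d ∈ (Icc 1 J).filter (fun d => Ww w * d ∈ Ex), Real.exp (C₁ * Real.exp (sw w d)) ≤ τ1 * J := by
    apply exc_sum w J C₁ C₃ (τ1 ^ 2 / (C₃ + 1)) (hC₃ J) Ex hExJ τ1 hτ10.le
    rw [div_mul_eq_mul_div, div_le_iff₀ (by positivity)]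
    have : 0 ≤ τ1 ^ 2 := sq_nonneg _
    nlinarith
  rw [g2]
  have g4 : (Real.exp τ1 * (1 + τ1) - 1 + τ1) * J = Real.exp τ1 * (J * (1 + τ1)) - J + τ1 * J := by ring
  rw [g4]
  linarith

/-- the sum over the pairs -/
lemma pair_sum_Icc (f : ℕ → ℝ) (J : ℕ) (A : ℝ) (hf : ∀ d, 0 ≤ f d) (hA : ∑ d ∈ Icc 1 J, f d ≤ A) :
    ∑ i ∈ Icc 1 J, ∑ j ∈ (Icc 1 J).filter (fun j => i < j), f (j - i) ≤ J * A := by
  have h1 : ∀ i ∈ Icc 1 J, ∑ j ∈ (Icc 1 J).filter (fun j => i < j), f (j - i) ≤ A := by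
    intro i hi
    refine le_trans ?_ hA
    have h2 : ∑ j ∈ (Icc 1 J).filter (fun j => i < j), f (j - i) = ∑ d ∈ ((Icc 1 J).filter (fun j => i < j)).image (fun j => j - i), f d := by
      rw [sum_image]
      intro a ha b hb hab
      rw [Finset.mem_coe, mem_filter] at ha hb
      simp only at hab
      omega
    rw [h2]
    apply sum_le_sum_of_subset_of_nonneg _ (fun d _ _ => hf d)
    intro d hd
    rw [mem_image] at hd
    obtain ⟨j, hj, rfl⟩ := hd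
    rw [mem_filter, mem_Icc] at hj
    rw [mem_Icc]; omega
  refine (sum_le_sum h1).trans ?_
  rw [sum_const, nsmul_eq_mul, Nat.card_Icc, Nat.add_sub_cancel]

end Pool.Agent.N735.CL
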