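import Mathlib
import Pool.Agent.N735.CL.Md1

set_option autoImplicit false
set_option maxHeartbeats 2000000

/-! The tilted measures: tails and the diagonal. -/

namespace Pool.Agent.N735.CL

open Finset Filter Topology

lemma exp_quad {z : ℝ} (hz : |z| ≤ 1) : Real.exp z - 1 ≤ z + z ^ 2 := by
  have h := (le_abs_self _).trans (Real.abs_exp_sub_one_sub_id_le hz)
  linarith

/-- `log (1 + x) ≤ x - x²/2 + |x|³` -/
lemma log_cub {x : ℝ} (hx : |x| ≤ 1 / 4) : Real.log (1 + x) ≤ x - x ^ 2 / 2 + |x| ^ 3 := by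
  obtain ⟨h1, h2⟩ := abs_le.1 hx
  have h3 := Real.abs_log_sub_add_sum_range_le (show |-x| < 1 by rw [abs_neg]; linarith) 2
  rw [Finset.sum_range_succ, Finset.sum_range_one, abs_neg] at h3
  have e1 : (1 : ℝ) - -x = 1 + x := by ring
  rw [e1] at h3
  have h4 := (le_abs_self _).trans h3
  have h5 : |x| ^ (2 + 1) / (1 - |x|) ≤ 4 / 3 * |x| ^ 3 := by
    rw [div_le_iff₀ (by linarith)]
    have : 0 ≤ |x| ^ 3 := by positivity
    have e : |x| ^ (2 + 1) = |x| ^ 3 := rfl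
    rw [e]
    nlinarith
  have h6 : Real.log (1 + x) ≤ x - x ^ 2 / 2 + x ^ 3 / 3 + 2 * |x| ^ 4 := by
    have h7 := Real.abs_log_sub_add_sum_range_le (show |-x| < 1 by rw [abs_neg]; linarith) 3
    rw [Finset.sum_range_succ, Finset.sum_range_succ, Finset.sum_range_one, abs_neg, e1] at h7
    have h8 := (le_abs_self _).trans h7
    have h9 : |x| ^ (3 + 1) / (1 - |x|) ≤ 2 * |x| ^ 4 := by
      rw [div_le_iff₀ (by linarith)]
      have : 0 ≤ |x| ^ 4 := by positivity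
      have e : |x| ^ (3 + 1) = |x| ^ 4 := rfl
      rw [e]
      nlinarith
    push_cast at h8
    ring_nf at h8 h9 ⊢
    linarith
  have h7 : x ^ 3 ≤ |x| ^ 3 := by rw [← abs_pow]; exact le_abs_self _
  have h8 : |x| ^ 4 ≤ 1 / 4 * |x| ^ 3 := by
    calc |x| ^ 4 = |x| * |x| ^ 3 := by ring
      _ ≤ 1 / 4 * |x| ^ 3 := mul_le_mul_of_nonneg_right hx (by positivity)
  have h9 : 0 ≤ |x| ^ 3 := by positivity
  linarith

lemma ratio_pow {r p t u : ℝ} (K : ℕ) (ha : 0 < 1 + (t - 1) * r * p) (hn : 0 ≤ 1 + (t * u - 1) * r * p) :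
    (1 + (t * u - 1) * r * p) ^ K ≤ (1 + (t - 1) * r * p) ^ K * Real.exp (K * ((t * r * p / (1 + (t - 1) * r * p)) * (u - 1))) := by
  set a := 1 + (t - 1) * r * p with had
  have h1 : 1 + (t * u - 1) * r * p = a * (1 + (t * r * p / a) * (u - 1)) := by
    have h3 : a * (1 + (t * r * p / a) * (u - 1)) = a + (a * (t * r * p / a)) * (u - 1) := by ring
    rw [h3, mul_div_cancel₀ _ ha.ne', had]; ring
  have h2 : 0 ≤ 1 + (t * r * p / a) * (u - 1) := by
    rw [h1] at hn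
    exact nonneg_of_mul_nonneg_right hn ha
  rw [h1, mul_pow, Real.exp_nat_mul]
  apply mul_le_mul_of_nonneg_left _ (by positivity)
  apply pow_le_pow_left₀ h2
  linarith [Real.add_one_le_exp ((t * r * p / a) * (u - 1))]

/-- the mean under the tilted measure -/
lemma tilt_mean {p r t L W δ : ℝ} (hp0 : 0 ≤ p) (hL : 0 < L) (hW : 0 ≤ W) (hpL : p * L ≤ 2) (ht : |t - 1| ≤ 1 / 4)
    (hr : |r - 1| ≤ 4 * |t - 1| * W / L) (hr2 : |r - 1| ≤ 1 / 4) (hδ : 16 * (W + 1) ≤ δ * L) (hL8 : 8 ≤ L) :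
    0 < 1 + (t - 1) * r * p ∧ |t * r * p / (1 + (t - 1) * r * p) - (1 + (t - 1)) * p| ≤ p * |t - 1| * δ := by
  obtain ⟨t1, t2⟩ := abs_le.1 ht
  obtain ⟨r1, r2⟩ := abs_le.1 hr2
  have hp4 : p ≤ 1 / 4 := by nlinarith
  have hrp0 : 0 ≤ r * p := by
    have : 0 ≤ r := by linarith
    positivity
  have hrp : r * p ≤ 5 / 16 := by nlinarith
  have ha : 3 / 4 ≤ 1 + (t - 1) * r * p := by
    rw [mul_assoc]; nlinarith
  set a := 1 + (t - 1) * r * p with had
  have ha0 : 0 < a := by linarith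
  refine ⟨ha0, ?_⟩
  have e : t * r * p / a - (1 + (t - 1)) * p = p * (t * ((r - 1) - (t - 1) * r * p)) / a := by
    rw [eq_div_iff ha0.ne', sub_mul, div_mul_cancel₀ _ ha0.ne', had]; ring
  rw [e, abs_div, abs_of_pos ha0, div_le_iff₀ ha0, abs_mul, abs_of_nonneg hp0]
  have h1 : |t * ((r - 1) - (t - 1) * r * p)| ≤ |t - 1| * δ * a := by
    rw [abs_mul]
    have h2 : |t| ≤ 5 / 4 := by rw [abs_le]; constructor <;> linarith
    have h3 : |(r - 1) - (t - 1) * r * p| ≤ |t - 1| * (4 * (W + 1) / L) := by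
      refine (abs_sub _ _).trans ?_
      have h4 : |(t - 1) * r * p| ≤ |t - 1| * (4 / L) := by
        rw [mul_assoc, abs_mul, abs_of_nonneg hrp0]
        apply mul_le_mul_of_nonneg_left _ (abs_nonneg _)
        rw [le_div_iff₀ hL]
        have : r * (p * L) ≤ 5 / 4 * 2 := mul_le_mul (by linarith) hpL (by positivity) (by norm_num)
        nlinarith
      have e2 : |t - 1| * (4 * (W + 1) / L) = 4 * |t - 1| * W / L + |t - 1| * (4 / L) := by ring
      rw [e2]
      linarith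
    have h5 : 4 * (W + 1) / L ≤ δ / 4 := by
      rw [div_le_iff₀ hL]; linarith
    have hδ0 : 0 ≤ δ := by
      by_contra hc
      push Not at hc
      have : δ * L < 0 := mul_neg_of_neg_of_pos hc hL
      linarith
    calc |t| * |(r - 1) - (t - 1) * r * p| ≤ (5 / 4) * (|t - 1| * (δ / 4)) := by
          apply mul_le_mul h2 (h3.trans (mul_le_mul_of_nonneg_left h5 (abs_nonneg _))) (abs_nonneg _) (by norm_num)
      _ = (|t - 1| * δ) * (5 / 16) := by ring
      _ ≤ (|t - 1| * δ) * a := mul_le_mul_of_nonneg_left (by linarith) (by positivity)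
  calc p * |t * ((r - 1) - (t - 1) * r * p)| ≤ p * (|t - 1| * δ * a) := mul_le_mul_of_nonneg_left h1 hp0
    _ = _ := by ring

lemma tail_exp {K t p L δ ε S a σ ρ c v P : ℝ} (hσ : σ = 1 ∨ σ = -1) (hρ : ρ = 1 ∨ ρ = -1) (hL0 : 0 < L) (hS : S ^ 2 = 2 * K) (hS0 : 0 < S)
    (hε : 0 < ε) (hε1 : ε ≤ 1) (ha : a = 1 - ε / 2) (ha0 : 1 / 2 ≤ a) (ha1 : a ≤ 1) (hx : t - 1 = σ * (2 * a * L / S))
    (hδ0 : 0 < δ) (hδ1 : δ ≤ 1 / 64) (hδε : δ = ε / 64)
    (hp0 : 0 ≤ p) (hpL : |p * L - 1| ≤ δ) (hmean : |P - (1 + (t - 1)) * p| ≤ p * |t - 1| * δ)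
    (hxa : |t - 1| = 2 * a * L / S) (hξ0 : 0 ≤ 2 * a * L / S) (hξ1 : 2 * a * L / S ≤ 1 / 4)
    (hv : v = ε * L / (8 * S)) (hv0 : 0 < v) (hvS : v * S = ε * L / 8) (hc : ρ * (a - c) ≤ -(ε / 4))
    (hσa : |σ| = 1) (hρa : |ρ| = 1) (hσ2 : σ * σ = 1) :
    v * (ρ * (a - c) * S + ρ * (σ * (K * (P - p)) - a * S)) + K * P * v ^ 2 ≤ -(ε ^ 2 * L / 128) := by
  have hKS : K = S ^ 2 / 2 := by linarith
  have hK0 : 0 ≤ K := by rw [hKS]; positivity
  obtain ⟨pl1, pl2⟩ := abs_le.1 hpL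
  have hpL2 : p * L ≤ 65 / 64 := by linarith
  obtain ⟨m1, m2⟩ := abs_le.1 hmean
  set ξ := 2 * a * L / S with hξ
  have htξ : t - 1 ≤ ξ := by rw [← hxa]; exact le_abs_self _
  have hPL : P * L ≤ 2 := by
    have h2 : P ≤ p * ((1 + (t - 1)) + ξ * δ) := by rw [← hxa]; linarith
    have h4 : (1 + (t - 1)) + ξ * δ ≤ 3 / 2 := by nlinarith
    have h5 : P ≤ p * (3 / 2) := h2.trans (mul_le_mul_of_nonneg_left h4 hp0)
    have h6 := mul_le_mul_of_nonneg_right h5 hL0.le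
    linarith
  have g2 : K * P * v ^ 2 ≤ ε ^ 2 * L / 64 := by
    have e1 : K * P * v ^ 2 = (P * L) * (v * S) ^ 2 / (2 * L) := by
      rw [hKS]; field_simp
    rw [e1, hvS, div_le_iff₀ (by positivity)]
    have : (P * L) * (ε * L / 8) ^ 2 ≤ 2 * (ε * L / 8) ^ 2 := mul_le_mul_of_nonneg_right hPL (sq_nonneg _)
    refine this.trans (le_of_eq ?_)
    ring
  have g3 : |σ * (K * (P - p)) - a * S| ≤ 4 * δ * S := by
    have e1 : K * ξ = a * L * S := by
      rw [hKS, hξ]; field_simp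
    have e2 : σ * (K * (P - p)) - a * S = σ * (K * (P - (1 + (t - 1)) * p)) + (K * ξ * p - a * S) := by
      have e3 : K * ξ * p = σ * (K * ((t - 1) * p)) := by rw [hx]; linear_combination (-(K * ξ * p)) * hσ2
      rw [e3]; ring
    have e4 : K * ξ * p - a * S = a * S * (p * L - 1) := by rw [e1]; ring
    rw [e2, e4]
    refine (abs_add_le _ _).trans ?_
    have hδS : 0 ≤ δ * S := by positivity
    have k1 : |σ * (K * (P - (1 + (t - 1)) * p))| ≤ 2 * δ * S := by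
      rw [abs_mul, hσa, one_mul, abs_mul, abs_of_nonneg hK0]
      calc K * |P - (1 + (t - 1)) * p| ≤ K * (p * |t - 1| * δ) := mul_le_mul_of_nonneg_left hmean hK0
        _ = (K * ξ) * p * δ := by rw [hxa]; ring
        _ = (a * (δ * S)) * (p * L) := by rw [e1]; ring
        _ ≤ (a * (δ * S)) * 2 := mul_le_mul_of_nonneg_left (by linarith) (by positivity)
        _ ≤ (1 * (δ * S)) * 2 := mul_le_mul_of_nonneg_right (mul_le_mul_of_nonneg_right ha1 hδS) (by norm_num)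
        _ = 2 * δ * S := by ring
    have k2 : |a * S * (p * L - 1)| ≤ δ * S := by
      rw [abs_mul, abs_of_pos (by positivity)]
      calc a * S * |p * L - 1| ≤ a * S * δ := mul_le_mul_of_nonneg_left hpL (by positivity)
        _ = a * (δ * S) := by ring
        _ ≤ 1 * (δ * S) := mul_le_mul_of_nonneg_right ha1 hδS
        _ = δ * S := one_mul _
    linarith
  have g4 : ρ * (σ * (K * (P - p)) - a * S) ≤ 4 * δ * S := by
    refine (le_abs_self _).trans ?_
    rw [abs_mul, hρa, one_mul]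
    exact g3
  have g5 : v * (ρ * (a - c) * S + ρ * (σ * (K * (P - p)) - a * S)) ≤ v * (-(ε / 4) * S + 4 * δ * S) := by
    apply mul_le_mul_of_nonneg_left _ hv0.le
    have := mul_le_mul_of_nonneg_right hc hS0.le
    linarith
  have e6 : v * (-(ε / 4) * S + 4 * δ * S) = -(3 * ε ^ 2 * L / 128) := by
    have : v * (-(ε / 4) * S + 4 * δ * S) = (v * S) * (-(ε / 4) + 4 * δ) := by ring
    rw [this, hvS, hδε]; ring
  linarith

/-- the tail of the tilted measure -/
lemma tilt_tail {X K w j : ℕ} (hX : 1 ≤ X) (hj : 0 < j) {t p r L W δ ε S a σ ρ c v : ℝ} (hpd : p = ej w X j) (hrd : r = rX w t X)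
    (hl : |ll w t X| ≤ 1 / 2) (hγ0 : 0 ≤ gam w X) (hγ1 : gam w X ≤ 1)
    (hσ : σ = 1 ∨ σ = -1) (hρ : ρ = 1 ∨ ρ = -1) (hL : 8 ≤ L) (hW : 0 ≤ W) (hS : S ^ 2 = 2 * K) (hS0 : 0 < S)
    (hε : 0 < ε) (hε1 : ε ≤ 1) (ha : a = 1 - ε / 2) (hx : t - 1 = σ * (2 * a * L / S)) (hSL : 128 * L ≤ ε * S)
    (hp0 : 0 ≤ p) (hpL : |p * L - 1| ≤ δ) (hδε : δ = ε / 64) (hr : |r - 1| ≤ 4 * |t - 1| * W / L) (hr2 : |r - 1| ≤ 1 / 4)
    (hδ : 16 * (W + 1) ≤ δ * L) (hv : v = ε * L / (8 * S)) (hc : ρ * (a - c) ≤ -(ε / 4)) :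
    EK X K (fun h => if 0 < ρ * (σ * ((Nm h (Ww w * j) : ℝ) - K * p) - c * S) then Gj w t X j h else 0) ≤
      aj w t X j ^ K * Real.exp (-(ε ^ 2 * L / 128)) := by
  have hL0 : 0 < L := by linarith
  have hδ0 : 0 < δ := by rw [hδε]; positivity
  have hδ1 : δ ≤ 1 / 64 := by rw [hδε]; linarith
  obtain ⟨pl1, pl2⟩ := abs_le.1 hpL
  have hpL2 : p * L ≤ 2 := by linarith
  have ha0 : 1 / 2 ≤ a := by rw [ha]; linarith
  have ha1 : a ≤ 1 := by rw [ha]; linarith
  have hσ2 : σ * σ = 1 := by rcases hσ with h | h <;> rw [h] <;> norm_num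
  have hρ2 : ρ * ρ = 1 := by rcases hρ with h | h <;> rw [h] <;> norm_num
  have hσa : |σ| = 1 := by rcases hσ with h | h <;> rw [h] <;> simp
  have hρa : |ρ| = 1 := by rcases hρ with h | h <;> rw [h] <;> simp
  set ξ := 2 * a * L / S with hξ
  have hξ0 : 0 < ξ := by positivity
  have hξε : ξ ≤ ε / 64 := by
    rw [hξ, div_le_iff₀ hS0]
    nlinarith
  have hxa : |t - 1| = ξ := by rw [hx, abs_mul, hσa, one_mul, abs_of_pos hξ0]
  have ht : |t - 1| ≤ 1 / 4 := by rw [hxa]; linarith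
  obtain ⟨t1, t2⟩ := abs_le.1 ht
  obtain ⟨r1, r2⟩ := abs_le.1 hr2
  obtain ⟨hA0, hmean⟩ := tilt_mean hp0 hL0 hW hpL2 ht hr hr2 hδ hL
  set A := 1 + (t - 1) * r * p with hA
  set P := t * r * p / A with hP
  have hP0 : 0 ≤ P := by
    have : 0 ≤ r := by linarith
    have : 0 ≤ t := by linarith
    positivity
  have hv0 : 0 < v := by rw [hv]; positivity
  have hvS : v * S = ε * L / 8 := by rw [hv]; field_simp
  have hv1 : v ≤ 1 := by
    rw [hv, div_le_one (by positivity)]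
    nlinarith
  set z := ρ * (σ * v) with hz
  have hzv : |z| = v := by rw [hz, abs_mul, abs_mul, hρa, hσa, one_mul, one_mul, abs_of_pos hv0]
  have hz2 : z ^ 2 = v ^ 2 := by rw [← sq_abs, hzv]
  -- the first step: the exponential moment
  have h1 : EK X K (fun h => if 0 < ρ * (σ * ((Nm h (Ww w * j) : ℝ) - K * p) - c * S) then Gj w t X j h else 0) ≤
      EK X K (fun h => Real.exp (-(z * (K * p)) - v * ρ * c * S) * (Gj w t X j h * Real.exp (z * Nm h (Ww w * j)))) := by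
    apply EK_mono
    intro h _
    have hG : 0 ≤ Gj w t X j h := prod_nonneg (fun i _ => gw_nonneg (by linarith) hl hγ0 hγ1 _ _)
    have e : Real.exp (-(z * (K * p)) - v * ρ * c * S) * (Gj w t X j h * Real.exp (z * Nm h (Ww w * j))) =
        Gj w t X j h * Real.exp (v * (ρ * (σ * ((Nm h (Ww w * j) : ℝ) - K * p) - c * S))) := by
      rw [mul_left_comm, ← Real.exp_add]
      congr 2
      rw [hz]; ring
    rw [e]
    split_ifs with hc
    · apply le_mul_of_one_le_right hG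
      apply Real.one_le_exp
      positivity
    · positivity
  refine h1.trans ?_
  rw [EK_const_mul, EK_Gj_exp hX w t z K hj, ← hpd, ← hrd]
  have hu := exp_quad (show |z| ≤ 1 by rw [hzv]; exact hv1)
  have hn : 0 ≤ 1 + (t * Real.exp z - 1) * r * p := by
    have hp4 : p ≤ 1 / 4 := by nlinarith
    have hrp0 : 0 ≤ r * p := by
      have : 0 ≤ r := by linarith
      positivity
    have hrp : r * p ≤ 5 / 16 := by nlinarith
    have : 0 ≤ t * Real.exp z := mul_nonneg (by linarith) (Real.exp_pos _).le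
    rw [mul_assoc]
    nlinarith
  have h2 := ratio_pow K hA0 hn
  rw [← hA, ← hP] at h2
  have haj : aj w t X j = A := by unfold aj; rw [← hrd, ← hpd]
  rw [haj]
  have hAK : 0 < A ^ K := by positivity
  have hK0 : (0 : ℝ) ≤ K := Nat.cast_nonneg _
  calc Real.exp (-(z * (K * p)) - v * ρ * c * S) * (1 + (t * Real.exp z - 1) * r * p) ^ K ≤
        Real.exp (-(z * (K * p)) - v * ρ * c * S) * (A ^ K * Real.exp (K * (P * (Real.exp z - 1)))) :=
        mul_le_mul_of_nonneg_left h2 (Real.exp_pos _).le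
    _ = A ^ K * Real.exp ((-(z * (K * p)) - v * ρ * c * S) + K * (P * (Real.exp z - 1))) := by
        rw [Real.exp_add]; ring
    _ ≤ A ^ K * Real.exp (-(ε ^ 2 * L / 128)) := by
        apply mul_le_mul_of_nonneg_left _ hAK.le
        apply Real.exp_le_exp.2
        have g1 : K * (P * (Real.exp z - 1)) ≤ K * P * z + K * P * v ^ 2 := by
          have := mul_le_mul_of_nonneg_left hu (mul_nonneg hK0 hP0)
          rw [hz2] at this
          have e1 : K * (P * (Real.exp z - 1)) = K * P * (Real.exp z - 1) := by ring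
          rw [e1]
          linarith
        have g2 := tail_exp hσ hρ hL0 hS hS0 hε hε1 ha ha0 ha1 hx hδ0 hδ1 hδε hp0 hpL hmean hxa hξ0.le (hξε.trans (by linarith)) hv hv0 hvS hc
          hσa hρa hσ2
        have e5 : (-(z * (K * p)) - v * ρ * c * S) + (K * P * z + K * P * v ^ 2) =
            v * (ρ * (a - c) * S + ρ * (σ * (K * (P - p)) - a * S)) + K * P * v ^ 2 := by
          rw [hz]; ring
        linarith

end Pool.Agent.N735.CL
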