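import Mathlib
import Pool.Agent.N735.CL.Md2

set_option autoImplicit false
set_option maxHeartbeats 2000000

/-! The tilted measures: the diagonal terms. -/

namespace Pool.Agent.N735.CL

open Finset Filter Topology

lemma diag_exp {K t p r l γ L W δ ε S a σ c1 A : ℝ} (hL8 : 8 ≤ L) (hS : S ^ 2 = 2 * K) (hS0 : 0 < S)
    (hε : 0 < ε) (hε1 : ε ≤ 1) (ha : a = 1 - ε / 2) (ha0 : 1 / 2 ≤ a) (ha1 : a ≤ 1) (hx : t - 1 = σ * (2 * a * L / S))
    (hδ0 : 0 < δ) (hδ1 : δ ≤ 1 / 64) (hδε : δ = ε / 64) (hc1 : c1 = 1 - ε / 4) (hA : A = K * p + σ * c1 * S)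
    (hp0 : 0 ≤ p) (hpL : |p * L - 1| ≤ δ) (hxa : |t - 1| = 2 * a * L / S) (hξ0 : 0 ≤ 2 * a * L / S) (hξ1 : 2 * a * L / S ≤ ε / 64)
    (hσa : |σ| = 1) (hσ2 : σ * σ = 1) (hW : 0 ≤ W) (hr : |r - 1| ≤ 4 * |t - 1| * W / L) (hr2 : |r - 1| ≤ 1 / 4)
    (hl : |l| * L ≤ 4 * |t - 1| * W) (hγ0 : 0 ≤ γ) (hγ1 : γ ≤ 1) (hLW : (33 + 64 * W ^ 2) * 16 ≤ 5 * ε * L) :
    0 ≤ A ∧ A * Real.log t + K * (l ^ 2 * γ * (1 - γ) + (t - 1) * r ^ 2 * p) ≤
      2 * (K * ((t - 1) * r * p - 2 * ((t - 1) * r * p) ^ 2)) + (1 - ε / 8) * L := by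
  have hL0 : 0 < L := by linarith
  have hKS : K = S ^ 2 / 2 := by linarith
  have hK0 : 0 ≤ K := by rw [hKS]; positivity
  obtain ⟨pl1, pl2⟩ := abs_le.1 hpL
  obtain ⟨r1, r2⟩ := abs_le.1 hr2
  set ξ := 2 * a * L / S with hξ
  have hKξ2 : K * ξ ^ 2 = 2 * a ^ 2 * L ^ 2 := by rw [hKS, hξ]; field_simp
  have hSξ : S * ξ = 2 * a * L := by rw [hξ]; field_simp
  have hx2 : (t - 1) ^ 2 = ξ ^ 2 := by rw [← sq_abs, hxa]
  have hc0 : 0 ≤ c1 := by rw [hc1]; linarith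
  have hc11 : c1 ≤ 1 := by rw [hc1]; linarith
  have ha2 : a ^ 2 ≤ 1 := by nlinarith
  have haa : a ^ 2 ≤ a := by nlinarith
  -- a lower bound for `A`
  have hσc : -(c1 * S) ≤ σ * c1 * S := by
    have h1 := (abs_le.1 hσa.le).1
    have h2 : 0 ≤ c1 * S := by positivity
    have h3 := mul_le_mul_of_nonneg_right h1 h2
    linarith
  have hA1 : K * p - S ≤ A := by
    rw [hA]
    have : c1 * S ≤ 1 * S := mul_le_mul_of_nonneg_right hc11 hS0.le
    linarith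
  have hKpS : S ≤ K * p := by
    -- `K p = S² p / 2` and `S p ≥ 2`
    have h1 : 2 ≤ S * p := by
      have h3 : 128 * L ≤ 2 * S := by
        have : ξ ≤ 1 / 64 := by linarith
        rw [hξ, div_le_iff₀ hS0] at this
        nlinarith
      have h4 : 63 / 64 ≤ p * L := by linarith
      have h5 : (64 * L) * p ≤ S * p := mul_le_mul_of_nonneg_right (by linarith) hp0
      nlinarith
    have h2 : S * 2 ≤ S * (S * p) := mul_le_mul_of_nonneg_left h1 hS0.le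
    rw [hKS]
    linarith
  have hA0 : 0 ≤ A := by linarith
  refine ⟨hA0, ?_⟩
  -- the logarithm
  have hlog : Real.log t ≤ (t - 1) - (t - 1) ^ 2 / 2 + |t - 1| ^ 3 := by
    have := log_cub (x := t - 1) (by rw [hxa]; linarith)
    rwa [show 1 + (t - 1) = t by ring] at this
  rw [hxa, hx2] at hlog
  have hAlog := mul_le_mul_of_nonneg_left hlog hA0
  -- the linear term
  have hAx : A * (t - 1) = K * p * (t - 1) + 2 * a * c1 * L := by
    rw [hA, add_mul]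
    congr 1
    rw [hx]
    linear_combination (c1 * S * ξ) * hσ2 + c1 * hSξ
  -- the quadratic term
  have hAq : a ^ 2 * L - L * (δ + 3 * ξ) ≤ A * (ξ ^ 2 / 2 - ξ ^ 3) := by
    have h1 : 0 ≤ ξ ^ 2 * (1 / 2 - ξ) := mul_nonneg (sq_nonneg _) (by linarith)
    have h2 : (K * p - S) * (ξ ^ 2 * (1 / 2 - ξ)) ≤ A * (ξ ^ 2 * (1 / 2 - ξ)) := mul_le_mul_of_nonneg_right hA1 h1
    have e1 : (K * p - S) * (ξ ^ 2 * (1 / 2 - ξ)) = (2 * a ^ 2 * L * (p * L) - 2 * a * L * ξ) * (1 / 2 - ξ) := by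
      have : (K * p - S) * (ξ ^ 2 * (1 / 2 - ξ)) = ((K * ξ ^ 2) * p - (S * ξ) * ξ) * (1 / 2 - ξ) := by ring
      rw [this, hKξ2, hSξ]; ring
    have e2 : A * (ξ ^ 2 / 2 - ξ ^ 3) = A * (ξ ^ 2 * (1 / 2 - ξ)) := by ring
    rw [e2]
    refine le_trans ?_ h2
    rw [e1]
    have h3 : (2 * a ^ 2 * L * (1 - δ) - 2 * a * L * ξ) * (1 / 2 - ξ) ≤ (2 * a ^ 2 * L * (p * L) - 2 * a * L * ξ) * (1 / 2 - ξ) := by
      apply mul_le_mul_of_nonneg_right _ (by linarith)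
      have : 2 * a ^ 2 * L * (1 - δ) ≤ 2 * a ^ 2 * L * (p * L) := mul_le_mul_of_nonneg_left (by linarith) (by positivity)
      linarith
    refine le_trans ?_ h3
    have e3 : (2 * a ^ 2 * L * (1 - δ) - 2 * a * L * ξ) * (1 / 2 - ξ) =
        a ^ 2 * L - (a ^ 2 * L * δ + a * L * ξ + 2 * a ^ 2 * L * ξ * (1 - δ) - 2 * a * L * ξ ^ 2) := by ring
    rw [e3]
    have h4 : a ^ 2 * L * δ ≤ 1 * (L * δ) := by
      have := mul_le_mul_of_nonneg_right ha2 (show 0 ≤ L * δ by positivity)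
      linarith
    have h5 : a * L * ξ ≤ 1 * (L * ξ) := by
      have := mul_le_mul_of_nonneg_right ha1 (show 0 ≤ L * ξ by positivity)
      linarith
    have h6 : 2 * a ^ 2 * L * ξ * (1 - δ) ≤ 2 * (L * ξ) := by
      have h7 : a ^ 2 * (1 - δ) ≤ 1 := by nlinarith
      have := mul_le_mul_of_nonneg_right h7 (show 0 ≤ 2 * (L * ξ) by positivity)
      linarith
    have h7 : 0 ≤ 2 * a * L * ξ ^ 2 := by positivity
    linarith
  -- the error terms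
  have hp2 : p * L ≤ 65 / 64 := by linarith
  have hr3 : (r - 1) ^ 2 * L ^ 2 ≤ (4 * ξ * W) ^ 2 := by
    rw [hxa, le_div_iff₀ hL0] at hr
    have := pow_le_pow_left₀ (by positivity) hr 2
    rwa [mul_pow, sq_abs] at this
  have hl2 : l ^ 2 * L ^ 2 ≤ (4 * ξ * W) ^ 2 := by
    rw [hxa] at hl
    have := pow_le_pow_left₀ (by positivity) hl 2
    rwa [mul_pow, sq_abs] at this
  have hKW : K * (4 * ξ * W) ^ 2 = 32 * a ^ 2 * W ^ 2 * L ^ 2 := by
    have : K * (4 * ξ * W) ^ 2 = 16 * W ^ 2 * (K * ξ ^ 2) := by ring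
    rw [this, hKξ2]; ring
  have hKr : K * (r - 1) ^ 2 ≤ 32 * W ^ 2 := by
    have h1 : K * ((r - 1) ^ 2 * L ^ 2) ≤ 32 * a ^ 2 * W ^ 2 * L ^ 2 := by
      rw [← hKW]; exact mul_le_mul_of_nonneg_left hr3 hK0
    have h2 : 32 * a ^ 2 * W ^ 2 * L ^ 2 ≤ 32 * W ^ 2 * L ^ 2 := by
      have := mul_le_mul_of_nonneg_right ha2 (show 0 ≤ 32 * W ^ 2 * L ^ 2 by positivity)
      linarith
    have h3 : (K * (r - 1) ^ 2) * L ^ 2 ≤ (32 * W ^ 2) * L ^ 2 := by linarith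
    exact le_of_mul_le_mul_right h3 (by positivity)
  have hKl : K * l ^ 2 ≤ 32 * W ^ 2 := by
    have h1 : K * (l ^ 2 * L ^ 2) ≤ 32 * a ^ 2 * W ^ 2 * L ^ 2 := by
      rw [← hKW]; exact mul_le_mul_of_nonneg_left hl2 hK0
    have h2 : 32 * a ^ 2 * W ^ 2 * L ^ 2 ≤ 32 * W ^ 2 * L ^ 2 := by
      have := mul_le_mul_of_nonneg_right ha2 (show 0 ≤ 32 * W ^ 2 * L ^ 2 by positivity)
      linarith
    have h3 : (K * l ^ 2) * L ^ 2 ≤ (32 * W ^ 2) * L ^ 2 := by linarith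
    exact le_of_mul_le_mul_right h3 (by positivity)
  have hKl' : K * (l ^ 2 * γ * (1 - γ)) ≤ 32 * W ^ 2 := by
    refine le_trans (mul_le_mul_of_nonneg_left ?_ hK0) hKl
    have h1 : γ * (1 - γ) ≤ 1 := by nlinarith
    calc l ^ 2 * γ * (1 - γ) = l ^ 2 * (γ * (1 - γ)) := by ring
      _ ≤ l ^ 2 * 1 := mul_le_mul_of_nonneg_left h1 (sq_nonneg _)
      _ = l ^ 2 := mul_one _
  have hxr : K * p * (t - 1) * (r - 1) ^ 2 ≤ 32 * W ^ 2 := by
    have h1 : p * (t - 1) ≤ 1 := by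
      have h2 : t - 1 ≤ 1 := (le_abs_self _).trans (by rw [hxa]; linarith)
      have h3 : p ≤ 1 := by nlinarith
      nlinarith
    have h4 : 0 ≤ K * (r - 1) ^ 2 := by positivity
    calc K * p * (t - 1) * (r - 1) ^ 2 = (K * (r - 1) ^ 2) * (p * (t - 1)) := by ring
      _ ≤ (K * (r - 1) ^ 2) * 1 := mul_le_mul_of_nonneg_left h1 h4
      _ ≤ _ := by linarith
  have hsq : 4 * (K * ((t - 1) * r * p) ^ 2) ≤ 32 := by
    have e1 : 4 * (K * ((t - 1) * r * p) ^ 2) = 4 * (K * ξ ^ 2) * (r * p) ^ 2 := by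
      rw [mul_pow, mul_pow, hx2]; ring
    rw [e1, hKξ2]
    have h1 : (r * (p * L)) ^ 2 ≤ 2 ^ 2 := by
      apply pow_le_pow_left₀
      · have : 0 ≤ r := by linarith
        positivity
      · nlinarith
    have e2 : 4 * (2 * a ^ 2 * L ^ 2) * (r * p) ^ 2 = 8 * a ^ 2 * (r * (p * L)) ^ 2 := by ring
    rw [e2]
    calc 8 * a ^ 2 * (r * (p * L)) ^ 2 ≤ 8 * a ^ 2 * 2 ^ 2 := mul_le_mul_of_nonneg_left h1 (by positivity)
      _ ≤ 32 := by linarith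
  have hmain : 2 * a * c1 * L - a ^ 2 * L = a * L := by rw [hc1, ha]; ring
  have e5 : K * ((t - 1) * r ^ 2 * p) = 2 * (K * ((t - 1) * r * p)) - K * p * (t - 1) + K * p * (t - 1) * (r - 1) ^ 2 := by ring
  have e6 : A * ((t - 1) - ξ ^ 2 / 2 + ξ ^ 3) = A * (t - 1) - A * (ξ ^ 2 / 2 - ξ ^ 3) := by ring
  rw [e6, hAx] at hAlog
  have h9 : L * (δ + 3 * ξ) ≤ L * (ε / 16) := by
    apply mul_le_mul_of_nonneg_left _ hL0.le
    rw [hδε]; linarith
  have h10 : a * L = L - ε / 2 * L := by rw [ha]; ring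
  have h11 : K * (l ^ 2 * γ * (1 - γ) + (t - 1) * r ^ 2 * p) = K * (l ^ 2 * γ * (1 - γ)) + K * ((t - 1) * r ^ 2 * p) := by ring
  rw [h11, e5]
  nlinarith

lemma tilt_diag {X K w j : ℕ} (hX : 1 ≤ X) (hj : 0 < j) {t p r L W δ ε S a σ c1 : ℝ} (hpd : p = ej w X j) (hrd : r = rX w t X)
    (hγ0 : 0 ≤ gam w X) (hγ1 : gam w X ≤ 1)
    (hσ : σ = 1 ∨ σ = -1) (hL : 8 ≤ L) (hW : 0 ≤ W) (hS : S ^ 2 = 2 * K) (hS0 : 0 < S)
    (hε : 0 < ε) (hε1 : ε ≤ 1) (ha : a = 1 - ε / 2) (hx : t - 1 = σ * (2 * a * L / S)) (hSL : 128 * L ≤ ε * S)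
    (hp0 : 0 ≤ p) (hpL : |p * L - 1| ≤ δ) (hδε : δ = ε / 64) (hr : |r - 1| ≤ 4 * |t - 1| * W / L) (hr2 : |r - 1| ≤ 1 / 4)
    (hl : |ll w t X| * L ≤ 4 * |t - 1| * W) (hLW : (33 + 64 * W ^ 2) * 16 ≤ 5 * ε * L) (hc1 : c1 = 1 - ε / 4) :
    EK X K (fun h => if σ * ((Nm h (Ww w * j) : ℝ) - K * p) ≤ c1 * S then Gj w t X j h ^ 2 else 0) ≤
      (aj w t X j ^ K) ^ 2 * Real.exp ((1 - ε / 8) * L) := by
  have hL0 : 0 < L := by linarith
  have hδ0 : 0 < δ := by rw [hδε]; positivity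
  have hδ1 : δ ≤ 1 / 64 := by rw [hδε]; linarith
  have ha0 : 1 / 2 ≤ a := by rw [ha]; linarith
  have ha1 : a ≤ 1 := by rw [ha]; linarith
  have hσ2 : σ * σ = 1 := by rcases hσ with h | h <;> rw [h] <;> norm_num
  have hσa : |σ| = 1 := by rcases hσ with h | h <;> rw [h] <;> simp
  have hξ0 : 0 ≤ 2 * a * L / S := by positivity
  have hξε : 2 * a * L / S ≤ ε / 64 := by
    rw [div_le_iff₀ hS0]
    nlinarith
  have hxa : |t - 1| = 2 * a * L / S := by rw [hx, abs_mul, hσa, one_mul, abs_of_nonneg hξ0]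
  obtain ⟨hA0, hexp⟩ := diag_exp (A := K * p + σ * c1 * S) (l := ll w t X) (γ := gam w X) hL hS hS0 hε hε1 ha ha0 ha1 hx hδ0 hδ1 hδε hc1 rfl
    hp0 hpL hxa hξ0 hξε hσa hσ2 hW hr hr2 hl hγ0 hγ1 hLW
  set A := K * p + σ * c1 * S with hA
  have ht4 : |t - 1| ≤ 1 / 64 := by rw [hxa]; linarith
  obtain ⟨t1, t2⟩ := abs_le.1 ht4
  obtain ⟨r1, r2⟩ := abs_le.1 hr2
  obtain ⟨pl1, pl2⟩ := abs_le.1 hpL
  have ht0 : 0 < t := by linarith
  have hσlog : 0 ≤ σ * Real.log t := by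
    rcases hσ with h | h
    · rw [h, one_mul]
      apply Real.log_nonneg
      rw [h, one_mul] at hx
      linarith
    · rw [h]
      have : Real.log t ≤ 0 := by
        apply Real.log_nonpos ht0.le
        rw [h] at hx
        linarith
      linarith
  have h1 : EK X K (fun h => if σ * ((Nm h (Ww w * j) : ℝ) - K * p) ≤ c1 * S then Gj w t X j h ^ 2 else 0) ≤
      EK X K (fun h => Real.exp (A * Real.log t) * (t ^ Nm h (Ww w * j) * Fh w t X h ^ 2)) := by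
    apply EK_mono
    intro h _
    have hnn : 0 ≤ t ^ Nm h (Ww w * j) * Fh w t X h ^ 2 := by positivity
    split_ifs with hc
    · rw [Gj_eq, mul_pow, sq (t ^ Nm h (Ww w * j)), mul_assoc]
      apply mul_le_mul_of_nonneg_right _ hnn
      have e : t ^ Nm h (Ww w * j) = Real.exp (Nm h (Ww w * j) * Real.log t) := by rw [Real.exp_nat_mul, Real.exp_log ht0]
      rw [e]
      apply Real.exp_le_exp.2
      have h2 : (σ * ((Nm h (Ww w * j) : ℝ) - A)) * (σ * Real.log t) ≤ 0 := by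
        apply mul_nonpos_of_nonpos_of_nonneg _ hσlog
        rw [hA]
        have : σ * ((Nm h (Ww w * j) : ℝ) - (K * p + σ * c1 * S)) = σ * ((Nm h (Ww w * j) : ℝ) - K * p) - (σ * σ) * (c1 * S) := by ring
        rw [this, hσ2]; linarith
      have h3 : (σ * ((Nm h (Ww w * j) : ℝ) - A)) * (σ * Real.log t) = (σ * σ) * (((Nm h (Ww w * j) : ℝ) - A) * Real.log t) := by ring
      rw [h3, hσ2] at h2
      linarith
    · positivity
  refine h1.trans ?_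
  rw [EK_const_mul, EK_tF hX w t K hj, ← hpd, ← hrd]
  have hp4 : p ≤ 1 / 4 := by nlinarith
  have hrp0 : 0 ≤ r * p := mul_nonneg (by linarith) hp0
  have hrp : r * p ≤ 5 / 16 := by nlinarith
  have hz : |(t - 1) * r * p| ≤ 1 / 5 := by
    rw [mul_assoc, abs_mul, abs_of_nonneg hrp0]
    calc |t - 1| * (r * p) ≤ 1 / 64 * (5 / 16) := mul_le_mul ht4 hrp hrp0 (by norm_num)
      _ ≤ 1 / 5 := by norm_num
  have haj : aj w t X j = 1 + (t - 1) * r * p := by unfold aj; rw [← hrd, ← hpd]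
  have h4 := exp_le_one_add hz
  rw [← haj] at h4
  have h5 : Real.exp (2 * (K * ((t - 1) * r * p - 2 * ((t - 1) * r * p) ^ 2))) ≤ (aj w t X j ^ K) ^ 2 := by
    have : Real.exp (2 * (K * ((t - 1) * r * p - 2 * ((t - 1) * r * p) ^ 2))) = (Real.exp ((t - 1) * r * p - 2 * ((t - 1) * r * p) ^ 2) ^ K) ^ 2 := by
      rw [← Real.exp_nat_mul, ← Real.exp_nat_mul]; push_cast; rfl
    rw [this]
    exact pow_le_pow_left₀ (by positivity) (pow_le_pow_left₀ (Real.exp_pos _).le h4 K) 2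
  have hγγ : 0 ≤ ll w t X ^ 2 * gam w X * (1 - gam w X) := mul_nonneg (mul_nonneg (sq_nonneg _) hγ0) (by linarith)
  have hb : 0 ≤ 1 + ll w t X ^ 2 * gam w X * (1 - gam w X) + (t - 1) * r ^ 2 * p := by
    have e : (t - 1) * r ^ 2 * p = ((t - 1) * r * p) * r := by ring
    rw [e]
    have h6 : |((t - 1) * r * p) * r| ≤ 1 / 5 * (5 / 4) := by
      rw [abs_mul, abs_of_pos (show 0 < r by linarith)]
      exact mul_le_mul hz (by linarith) (by linarith) (by norm_num)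
    have := (abs_le.1 h6).1
    linarith
  have h7 : (1 + ll w t X ^ 2 * gam w X * (1 - gam w X) + (t - 1) * r ^ 2 * p) ^ K ≤
      Real.exp (K * (ll w t X ^ 2 * gam w X * (1 - gam w X) + (t - 1) * r ^ 2 * p)) := by
    rw [Real.exp_nat_mul]
    apply pow_le_pow_left₀ hb
    linarith [Real.add_one_le_exp (ll w t X ^ 2 * gam w X * (1 - gam w X) + (t - 1) * r ^ 2 * p)]
  calc Real.exp (A * Real.log t) * (1 + ll w t X ^ 2 * gam w X * (1 - gam w X) + (t - 1) * r ^ 2 * p) ^ K ≤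
        Real.exp (A * Real.log t) * Real.exp (K * (ll w t X ^ 2 * gam w X * (1 - gam w X) + (t - 1) * r ^ 2 * p)) :=
        mul_le_mul_of_nonneg_left h7 (Real.exp_pos _).le
    _ = Real.exp (A * Real.log t + K * (ll w t X ^ 2 * gam w X * (1 - gam w X) + (t - 1) * r ^ 2 * p)) := (Real.exp_add _ _).symm
    _ ≤ Real.exp (2 * (K * ((t - 1) * r * p - 2 * ((t - 1) * r * p) ^ 2)) + (1 - ε / 8) * L) := Real.exp_le_exp.2 hexp
    _ = Real.exp (2 * (K * ((t - 1) * r * p - 2 * ((t - 1) * r * p) ^ 2))) * Real.exp ((1 - ε / 8) * L) := Real.exp_add _ _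
    _ ≤ _ := mul_le_mul_of_nonneg_right h5 (Real.exp_pos _).le

end Pool.Agent.N735.CL
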