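import Mathlib
import Pool.Agent.N735.CL.Md3
import Pool.Agent.N735.CL.Ap0

set_option autoImplicit false
set_option maxHeartbeats 2000000

/-! Functions of the residue classes: the weights of one coordinate. -/

namespace Pool.Agent.N735.CL

open Finset Filter Topology

/-- the function `c` on the primes of the translate -/
noncomputable def cp (c : ℕ → ℝ) (m h : ℕ) : ℝ := c (m + h) * pr m h

/-- the mean value -/
noncomputable def Bc (c : ℕ → ℝ) (X m : ℕ) : ℝ := E1 X (cp c m)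
/-- the mean square -/
noncomputable def Dc (c : ℕ → ℝ) (X m : ℕ) : ℝ := E1 X (cp (fun n => c n ^ 2) m)

noncomputable def gc (c : ℕ → ℝ) (w X : ℕ) : ℝ := E1 X (fun h => c h * cf (Ww w) h)
noncomputable def gv (c : ℕ → ℝ) (w X : ℕ) : ℝ := E1 X (fun h => c h ^ 2 * cf (Ww w) h)

/-- the correction factor -/
noncomputable def uf (c : ℕ → ℝ) (w : ℕ) (l : ℝ) (X h : ℕ) : ℝ := 1 + l * (c h * cf (Ww w) h - gc c w X)

/-- the weight of one coordinate -/
noncomputable def gq (c : ℕ → ℝ) (w : ℕ) (x l : ℝ) (X m h : ℕ) : ℝ := (1 + x * cp c m h) * uf c w l X h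

/-- its mean value -/
noncomputable def Aq (c : ℕ → ℝ) (w : ℕ) (x l : ℝ) (X m : ℕ) : ℝ := E1 X (gq c w x l X m)

/-- the mean value of `c` on the primes with the correction -/
noncomputable def A1q (c : ℕ → ℝ) (w : ℕ) (l : ℝ) (X m : ℕ) : ℝ := (1 - l * gc c w X) * Bc c X m + l * Dc c X m

lemma cf_nonneg (W h : ℕ) : 0 ≤ cf W h := by unfold cf; split_ifs <;> norm_num
lemma cf_le (W h : ℕ) : cf W h ≤ 1 := by unfold cf; split_ifs <;> norm_num

lemma E1_abs {X : ℕ} (f g : ℕ → ℝ) (h : ∀ v ∈ Icc 1 X, |f v| ≤ g v) : |E1 X f| ≤ E1 X g := by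
  rw [abs_le]
  constructor
  · have : E1 X (fun v => (-1) * g v) ≤ E1 X f := E1_mono (fun v hv => by linarith [(abs_le.1 (h v hv)).1])
    rw [E1_const_mul] at this
    linarith
  · exact E1_mono (fun v hv => (abs_le.1 (h v hv)).2)

section

variable {c : ℕ → ℝ} (hc : ∀ n, |c n| ≤ 1) {X w m m' : ℕ} (hX : 1 ≤ X) (hm : Ww w ∣ m) (hm0 : 0 < m) (hcm : ∀ h, c (m + h) = c h)
  (hm' : Ww w ∣ m') (hm0' : 0 < m') (hcm' : ∀ h, c (m' + h) = c h)

include hc in
lemma cp_abs (m h : ℕ) : |cp c m h| ≤ pr m h := by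
  unfold cp
  rw [abs_mul, abs_of_nonneg (pr_nonneg m h)]
  exact mul_le_of_le_one_left (pr_nonneg m h) (hc _)

include hc in
lemma cp_abs1 (m h : ℕ) : |cp c m h| ≤ 1 := (cp_abs hc m h).trans (pr_le_one m h)

include hc hX in
lemma gc_abs : |gc c w X| ≤ 1 := by
  unfold gc
  refine (E1_abs _ (fun _ => (1 : ℝ)) (fun v _ => ?_)).trans (le_of_eq (E1_const hX 1))
  rw [abs_mul, abs_of_nonneg (cf_nonneg _ _)]
  have := hc v
  have h1 := cf_le (Ww w) v
  have h2 := cf_nonneg (Ww w) v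
  nlinarith [abs_nonneg (c v)]

include hc hX in
lemma uf_abs (l : ℝ) (h : ℕ) : |uf c w l X h - 1| ≤ 2 * |l| := by
  have e : uf c w l X h - 1 = l * (c h * cf (Ww w) h - gc c w X) := by unfold uf; ring
  rw [e, abs_mul]
  have h1 : |c h * cf (Ww w) h - gc c w X| ≤ 2 := by
    refine (abs_sub _ _).trans ?_
    have h2 : |c h * cf (Ww w) h| ≤ 1 := by
      rw [abs_mul, abs_of_nonneg (cf_nonneg _ _)]
      have := hc h
      have h1 := cf_le (Ww w) h
      have h2 := cf_nonneg (Ww w) h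
      nlinarith [abs_nonneg (c h)]
    have h3 := gc_abs hc hX (w := w)
    linarith
  nlinarith [abs_nonneg l]

include hm hm0 hcm in
lemma uf_pr (l : ℝ) {h : ℕ} (hh : 0 < h) : uf c w l X h * pr m h = (1 + l * (c h - gc c w X)) * pr m h := by
  have := pr_cf (Ww_pos w) hm hm0 hh
  unfold uf
  linear_combination (l * c h) * this

include hX in
lemma E1_uf (l : ℝ) : E1 X (uf c w l X) = 1 := by
  have e : E1 X (uf c w l X) = E1 X (fun h => (1 - l * gc c w X) + l * (c h * cf (Ww w) h)) := E1_congr (fun h _ => by unfold uf; ring)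
  rw [e, E1_add, E1_const hX, E1_const_mul]
  have : E1 X (fun h => c h * cf (Ww w) h) = gc c w X := rfl
  rw [this]; ring

include hX in
lemma E1_uf2 (l : ℝ) : E1 X (fun h => uf c w l X h ^ 2) = 1 + l ^ 2 * (gv c w X - gc c w X ^ 2) := by
  have e : E1 X (fun h => uf c w l X h ^ 2) = E1 X (fun h => (1 - l * gc c w X) ^ 2 + ((2 * l * (1 - l * gc c w X)) * (c h * cf (Ww w) h) +
      l ^ 2 * (c h ^ 2 * cf (Ww w) h))) := E1_congr (fun h _ => by
    have := cf_sq (Ww w) h
    unfold uf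
    linear_combination (l ^ 2 * c h ^ 2) * this)
  rw [e, E1_add, E1_add, E1_const hX, E1_const_mul, E1_const_mul]
  have e1 : E1 X (fun h => c h * cf (Ww w) h) = gc c w X := rfl
  have e2 : E1 X (fun h => c h ^ 2 * cf (Ww w) h) = gv c w X := rfl
  rw [e1, e2]; ring

include hm hm0 hcm in
/-- the mean value of `cp * uf` -/
lemma E1_cpuf (l : ℝ) : E1 X (fun h => cp c m h * uf c w l X h) = A1q c w l X m := by
  have e : E1 X (fun h => cp c m h * uf c w l X h) = E1 X (fun h => (1 - l * gc c w X) * cp c m h + l * cp (fun n => c n ^ 2) m h) :=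
    E1_congr (fun h hh => by
      have := uf_pr (X := X) hm hm0 hcm l (mem_Icc.1 hh).1
      unfold cp
      simp only [hcm]
      linear_combination (c h) * this)
  rw [e, E1_add, E1_const_mul, E1_const_mul]
  rfl

include hX hm hm0 hcm in
lemma Aq_eq (x l : ℝ) : Aq c w x l X m = 1 + x * A1q c w l X m := by
  have e : Aq c w x l X m = E1 X (fun h => uf c w l X h + x * (cp c m h * uf c w l X h)) := E1_congr (fun h _ => by unfold gq; ring)
  rw [e, E1_add, E1_uf hX, E1_const_mul, E1_cpuf hm hm0 hcm]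

include hc hX hm hm0 hcm in
/-- the mean value of `cp * uf²` -/
lemma E1_cpuf2 (l : ℝ) : ∃ R : ℝ, |R| ≤ 4 * E1 X (pr m) ∧ E1 X (fun h => cp c m h * uf c w l X h ^ 2) =
    (1 - 2 * l * gc c w X) * Bc c X m + 2 * l * Dc c X m + l ^ 2 * R := by
  refine ⟨E1 X (fun h => (c h * (c h - gc c w X) ^ 2) * pr m h), ?_, ?_⟩
  · rw [← E1_const_mul]
    apply E1_abs
    intro h _
    rw [abs_mul, abs_of_nonneg (pr_nonneg m h), abs_mul, abs_pow]
    apply mul_le_mul_of_nonneg_right _ (pr_nonneg m h)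
    have h1 : |c h - gc c w X| ≤ 2 := (abs_sub _ _).trans (by linarith [hc h, gc_abs hc hX (w := w)])
    have h2 : |c h - gc c w X| ^ 2 ≤ 2 ^ 2 := pow_le_pow_left₀ (abs_nonneg _) h1 2
    have h3 := hc h
    calc |c h| * |c h - gc c w X| ^ 2 ≤ 1 * 2 ^ 2 := mul_le_mul h3 h2 (by positivity) (by norm_num)
      _ = 4 := by norm_num
  · have e : E1 X (fun h => cp c m h * uf c w l X h ^ 2) = E1 X (fun h => (1 - 2 * l * gc c w X) * cp c m h + ((2 * l) * cp (fun n => c n ^ 2) m h +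
        l ^ 2 * ((c h * (c h - gc c w X) ^ 2) * pr m h))) :=
      E1_congr (fun h hh => by
        have := uf_pr (X := X) hm hm0 hcm l (mem_Icc.1 hh).1
        unfold cp
        simp only [hcm]
        linear_combination (c h * uf c w l X h + c h * (1 + l * (c h - gc c w X))) * this)
    rw [e, E1_add, E1_add, E1_const_mul, E1_const_mul, E1_const_mul]
    unfold Bc Dc
    ring

include hc hX hm hm0 hcm hm' hm0' hcm' in
/-- the pairs -/
lemma E1_pairq (x l : ℝ) : ∃ R R' : ℝ, |R| ≤ 4 * E1 X (pr m) ∧ |R'| ≤ 4 * E1 X (pr m') ∧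
    E1 X (fun h => gq c w x l X m h * gq c w x l X m' h) ≤ 1 + l ^ 2 * (gv c w X - gc c w X ^ 2) +
      x * ((1 - 2 * l * gc c w X) * (Bc c X m + Bc c X m') + 2 * l * (Dc c X m + Dc c X m') + l ^ 2 * (R + R')) +
      x ^ 2 * ((1 + 2 * |l|) ^ 2 * E1 X (fun h => c h ^ 2 * (pr m h * pr m' h))) := by
  obtain ⟨R, hR, h1⟩ := E1_cpuf2 hc hX hm hm0 hcm l
  obtain ⟨R', hR', h2⟩ := E1_cpuf2 hc hX hm' hm0' hcm' l
  refine ⟨R, R', hR, hR', ?_⟩
  have e : E1 X (fun h => gq c w x l X m h * gq c w x l X m' h) = E1 X (fun h => uf c w l X h ^ 2 + (x * (cp c m h * uf c w l X h ^ 2) +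
      (x * (cp c m' h * uf c w l X h ^ 2) + x ^ 2 * (cp c m h * cp c m' h * uf c w l X h ^ 2)))) :=
    E1_congr (fun h _ => by unfold gq; ring)
  rw [e, E1_add, E1_add, E1_add, E1_const_mul, E1_const_mul, E1_const_mul, E1_uf2 hX, h1, h2]
  have h3 : E1 X (fun h => cp c m h * cp c m' h * uf c w l X h ^ 2) ≤ (1 + 2 * |l|) ^ 2 * E1 X (fun h => c h ^ 2 * (pr m h * pr m' h)) := by
    rw [← E1_const_mul]
    apply E1_mono
    intro h _
    have e1 : cp c m h * cp c m' h * uf c w l X h ^ 2 = uf c w l X h ^ 2 * (c h ^ 2 * (pr m h * pr m' h)) := by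
      unfold cp
      rw [hcm, hcm']; ring
    rw [e1]
    apply mul_le_mul_of_nonneg_right _ (mul_nonneg (sq_nonneg _) (mul_nonneg (pr_nonneg _ _) (pr_nonneg _ _)))
    rw [← sq_abs]
    apply pow_le_pow_left₀ (abs_nonneg _)
    have := uf_abs hc hX (w := w) l h
    have h4 := abs_add_le (uf c w l X h - 1) 1
    rw [abs_one, sub_add_cancel] at h4
    linarith
  have h4 := mul_le_mul_of_nonneg_left h3 (sq_nonneg x)
  linarith

end

end Pool.Agent.N735.CL
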