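import Mathlib
import Pool.Agent.N735.CL.Ap1

set_option autoImplicit false
set_option maxHeartbeats 2000000

/-! Functions of the residue classes: the pairs of translates. -/

namespace Pool.Agent.N735.CL

open Finset Filter Topology
open Pool.Agent.H646 (rat)

/-- what is needed of the function `c` of the residue modulo `q` -/
structure Nice (q : ℕ) (c : ℕ → ℝ) (cb v : ℝ) : Prop where
  q1 : 1 ≤ q
  per : ∀ m h, q ∣ m → c (m + h) = c h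
  abs : ∀ n, |c n| ≤ 1
  cb1 : |cb| ≤ 1
  v0 : 0 < v
  v1 : v ≤ 1
  win : ∀ δ : ℝ, 0 < δ → ∀ᶠ X : ℕ in atTop, ∀ m : ℕ, m ≤ X → |Real.log X * Bc c X m - cb| ≤ δ ∧ |Real.log X * Dc c X m - v| ≤ δ
  cop : ∀ w : ℕ, q ≤ w → ∀ δ : ℝ, 0 < δ → ∀ᶠ X : ℕ in atTop, |gc c w X - gam w X * cb| ≤ δ ∧ |gv c w X - gam w X * v| ≤ δ
  pair : ∀ δ : ℝ, 0 < δ → δ ≤ 1 → ∀ᶠ X : ℕ in atTop, ∃ Ex : Finset ℕ, (Ex.card : ℝ) ≤ X / Real.log X ^ 6 ∧
    ∀ d ∈ Icc 1 X, q ∣ d → d ∉ Ex → ∀ m : ℕ, m ≤ X → q ∣ m →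
      E1 X (fun h => c h ^ 2 * (pr m h * pr (m + d) h)) * Real.log X ^ 2 ≤ v * ((1 + δ) * rat d + 2 * δ)

/-- the translates -/
def mq (q w j : ℕ) : ℕ := Ww w * (q * j)

lemma mq_pos {q : ℕ} (hq : 1 ≤ q) (w : ℕ) {j : ℕ} (hj : 0 < j) : 0 < mq q w j := Nat.mul_pos (Ww_pos w) (Nat.mul_pos hq hj)
lemma mq_W (q w j : ℕ) : Ww w ∣ mq q w j := dvd_mul_right _ _
lemma mq_q (q w j : ℕ) : q ∣ mq q w j := Dvd.dvd.mul_left (dvd_mul_right _ _) _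

lemma mq_le {q : ℕ} (w X j : ℕ) (hj : j ∈ Icc 1 (X / (Ww w * q))) : mq q w j ≤ X := by
  unfold mq
  rw [mem_Icc] at hj
  calc Ww w * (q * j) = (Ww w * q) * j := by ring
    _ ≤ (Ww w * q) * (X / (Ww w * q)) := Nat.mul_le_mul_left _ hj.2
    _ ≤ X := Nat.mul_div_le _ _

noncomputable def lq (w : ℕ) (x : ℝ) (X : ℕ) : ℝ := -x / (gam w X * Real.log X)

lemma lq_abs {w : ℕ} {x : ℝ} {X : ℕ} {L : ℝ} (hL : L = Real.log X) (hL0 : 0 < L) (hγ : 1 / (2 * (Ww w : ℝ)) ≤ gam w X) :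
    |lq w x X| * L ≤ 2 * Ww w * |x| := by
  have hW : (0 : ℝ) < Ww w := by exact_mod_cast Ww_pos w
  have hγ0 : 0 < gam w X := lt_of_lt_of_le (by positivity) hγ
  unfold lq
  rw [← hL, abs_div, abs_neg, abs_of_pos (mul_pos hγ0 hL0)]
  have e : |x| / (gam w X * L) * L = |x| / gam w X := by field_simp
  rw [e, div_le_iff₀ hγ0]
  rw [div_le_iff₀ (by positivity)] at hγ
  nlinarith [abs_nonneg x]

lemma sw_q {q w : ℕ} (hq : 1 ≤ q) (hqw : q ≤ w) {d : ℕ} (hd : 0 < d) : sw w (q * d) = sw w d := by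
  unfold sw
  congr 1
  ext p
  rw [mem_filter, mem_filter, Nat.mem_primeFactors, Nat.mem_primeFactors]
  constructor
  · rintro ⟨⟨h1, h2, _⟩, h3⟩
    refine ⟨⟨h1, ?_, by omega⟩, h3⟩
    rcases (Nat.Prime.dvd_mul h1).1 h2 with h | h
    · exact absurd (Nat.le_of_dvd hq h) (by omega)
    · exact h
  · rintro ⟨⟨h1, h2, _⟩, h3⟩
    exact ⟨⟨h1, Dvd.dvd.mul_left h2 _, (Nat.mul_pos hq hd).ne'⟩, h3⟩

lemma goodq {δ E V R γ W Q v : ℝ} (hδ0 : 0 < δ) (hδ1 : δ ≤ 1 / 10) (hE : 1 ≤ E) (hV0 : 0 < V) (hv0 : 0 < v)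
    (hR : R ≤ V⁻¹ * E) (hQ : Q ≤ v * ((1 + δ) * R + 2 * δ)) (hγ0 : 0 < γ) (hγV : γ ≤ V + δ) (hW : 0 < W) (hγW : 1 / (2 * W) ≤ γ) :
    (1 + 2 * δ) ^ 2 * Q - v / γ + 27 * δ / γ ^ 2 ≤ v * (2 * (E - 1) / V + δ * (7 / V + 4 + 1 / V ^ 2 + 108 * W ^ 2 / v)) := by
  have hR' : R ≤ E / V := by rw [div_eq_mul_inv, mul_comm]; exact hR
  have h1 : (1 + 2 * δ) ^ 2 * Q ≤ v * ((1 + 7 * δ) * (E / V) + 4 * δ) := by
    have h2 : (1 + 2 * δ) ^ 2 * Q ≤ (1 + 5 * δ) * (v * ((1 + δ) * (E / V) + 2 * δ)) := by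
      have h3 : Q ≤ v * ((1 + δ) * (E / V) + 2 * δ) := by
        refine hQ.trans (mul_le_mul_of_nonneg_left ?_ hv0.le)
        have := mul_le_mul_of_nonneg_left hR' (show 0 ≤ 1 + δ by linarith)
        linarith
      have h4 : 0 ≤ v * ((1 + δ) * (E / V) + 2 * δ) := by
        have : 0 ≤ E / V := div_nonneg (by linarith) hV0.le
        positivity
      have h5 : (1 + 2 * δ) ^ 2 ≤ 1 + 5 * δ := by nlinarith
      calc (1 + 2 * δ) ^ 2 * Q ≤ (1 + 2 * δ) ^ 2 * (v * ((1 + δ) * (E / V) + 2 * δ)) := mul_le_mul_of_nonneg_left h3 (by positivity)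
        _ ≤ _ := mul_le_mul_of_nonneg_right h5 h4
    refine h2.trans ?_
    have h6 : (1 + 5 * δ) * (v * ((1 + δ) * (E / V) + 2 * δ)) = v * (((1 + 5 * δ) * (1 + δ)) * (E / V) + (1 + 5 * δ) * (2 * δ)) := by ring
    rw [h6]
    apply mul_le_mul_of_nonneg_left _ hv0.le
    have h7 : 0 ≤ E / V := div_nonneg (by linarith) hV0.le
    have h8 : (1 + 5 * δ) * (1 + δ) ≤ 1 + 7 * δ := by nlinarith
    have h9 := mul_le_mul_of_nonneg_right h8 h7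
    have h10 : (1 + 5 * δ) * (2 * δ) ≤ 4 * δ := by nlinarith
    linarith
  have h2 : v / γ ≥ v * (1 / V - δ / V ^ 2) := by
    rw [ge_iff_le, le_div_iff₀ hγ0, mul_assoc]
    apply mul_le_of_le_one_right hv0.le
    have h3 : 1 / V - δ / V ^ 2 = (V - δ) / V ^ 2 := by field_simp
    rw [h3, div_mul_eq_mul_div, div_le_one (by positivity)]
    rcases le_or_gt δ V with h | h
    · calc (V - δ) * γ ≤ (V - δ) * (V + δ) := mul_le_mul_of_nonneg_left hγV (by linarith)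
        _ ≤ V ^ 2 := by nlinarith
    · nlinarith
  have h3 : 27 * δ / γ ^ 2 ≤ 108 * W ^ 2 * δ := by
    rw [div_le_iff₀ (by positivity)]
    rw [div_le_iff₀ (by positivity)] at hγW
    have h4 : 1 ≤ (γ * (2 * W)) ^ 2 := one_le_pow₀ hγW
    have h5 := mul_le_mul_of_nonneg_left h4 (show 0 ≤ 27 * δ by positivity)
    nlinarith
  have h4 : v * (δ * (108 * W ^ 2 / v)) = 108 * W ^ 2 * δ := by field_simp
  have h5 : v * ((1 + 7 * δ) * (E / V) + 4 * δ) - v * (1 / V - δ / V ^ 2) ≤ v * (2 * (E - 1) / V + δ * (7 / V + 4 + 1 / V ^ 2)) := by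
    rw [← mul_sub]
    apply mul_le_mul_of_nonneg_left _ hv0.le
    have e1 : (1 + 7 * δ) * (E / V) + 4 * δ - (1 / V - δ / V ^ 2) = (1 + 7 * δ) * ((E - 1) / V) + 7 * δ * (1 / V) + 4 * δ + δ * (1 / V ^ 2) := by ring
    have h6 : 0 ≤ (E - 1) / V := div_nonneg (by linarith) hV0.le
    have h7 : (1 + 7 * δ) * ((E - 1) / V) ≤ 2 * ((E - 1) / V) := mul_le_mul_of_nonneg_right (by linarith) h6
    have e2 : 2 * (E - 1) / V + δ * (7 / V + 4 + 1 / V ^ 2) = 2 * ((E - 1) / V) + 7 * δ * (1 / V) + 4 * δ + δ * (1 / V ^ 2) := by ring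
    rw [e1, e2]
    linarith
  have e3 : v * (2 * (E - 1) / V + δ * (7 / V + 4 + 1 / V ^ 2 + 108 * W ^ 2 / v)) =
      v * (2 * (E - 1) / V + δ * (7 / V + 4 + 1 / V ^ 2)) + v * (δ * (108 * W ^ 2 / v)) := by ring
  rw [e3, h4]
  linarith

lemma allq {δ E V R γ W Q v C : ℝ} (hδ0 : 0 < δ) (hδ1 : δ ≤ 1 / 10) (hE : 1 ≤ E) (hV0 : 0 < V) (hv0 : 0 < v) (hC : 0 ≤ C)
    (hR : R ≤ V⁻¹ * E) (hQ : Q ≤ C * R) (hγ0 : 0 < γ) (hW : 0 < W) (hγW : 1 / (2 * W) ≤ γ) :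
    (1 + 2 * δ) ^ 2 * Q - v / γ + 27 * δ / γ ^ 2 ≤ v * ((2 * C / V + 108 * W ^ 2) / v * E) := by
  have hR' : R ≤ E / V := by rw [div_eq_mul_inv, mul_comm]; exact hR
  have h7 : 0 ≤ E / V := div_nonneg (by linarith) hV0.le
  have h3 : 27 * δ / γ ^ 2 ≤ 108 * W ^ 2 := by
    rw [div_le_iff₀ (by positivity)]
    rw [div_le_iff₀ (by positivity)] at hγW
    have h4 : 1 ≤ (γ * (2 * W)) ^ 2 := one_le_pow₀ hγW
    nlinarith
  have h1 : (1 + 2 * δ) ^ 2 * Q ≤ 2 * C / V * E := by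
    have h4 : Q ≤ C * (E / V) := hQ.trans (mul_le_mul_of_nonneg_left hR' hC)
    have h5 : 0 ≤ C * (E / V) := by positivity
    calc (1 + 2 * δ) ^ 2 * Q ≤ (1 + 2 * δ) ^ 2 * (C * (E / V)) := mul_le_mul_of_nonneg_left h4 (by positivity)
      _ ≤ 2 * (C * (E / V)) := mul_le_mul_of_nonneg_right (by nlinarith) h5
      _ = _ := by ring
  have h2 : 0 ≤ v / γ := by positivity
  have e : v * ((2 * C / V + 108 * W ^ 2) / v * E) = 2 * C / V * E + 108 * W ^ 2 * E := by field_simp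
  rw [e]
  nlinarith [show 0 ≤ 108 * W ^ 2 by positivity]

end Pool.Agent.N735.CL
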