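import Mathlib
import Pool.Agent.N735.CL.Ap2

set_option autoImplicit false
set_option maxHeartbeats 2000000

/-! Functions of the residue classes: the powers of the pair correlations. -/

namespace Pool.Agent.N735.CL

open Finset Filter Topology
open Pool.Agent.H646 (rat)

section

variable {c : ℕ → ℝ} (hc : ∀ n, |c n| ≤ 1) {X w : ℕ} (hX : 1 ≤ X)

include hc hX in
lemma gq_nonneg {x l : ℝ} (hx : |x| ≤ 1 / 2) (hl : |l| ≤ 1 / 4) (m h : ℕ) : 0 ≤ gq c w x l X m h := by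
  unfold gq
  apply mul_nonneg
  · have h1 : |x * cp c m h| ≤ 1 / 2 * 1 := by
      rw [abs_mul]
      exact mul_le_mul hx (cp_abs1 hc m h) (abs_nonneg _) (by norm_num)
    linarith [(abs_le.1 h1).1]
  · have := (abs_le.1 (uf_abs hc hX (w := w) l h)).1
    linarith

/-- the bound for the mean value -/
lemma A1_bound {l γc b d L B D cb v δ : ℝ} (hL : 0 < L) (hb : b = L * B) (hd : d = L * D) (hB : |b - cb| ≤ δ) (hD : |d - v| ≤ δ) (hδ : δ ≤ 1 / 10)
    (hcb : |cb| ≤ 1) (hv0 : 0 ≤ v) (hv1 : v ≤ 1) (hγc : |γc| ≤ 1) (hl : |l| ≤ 1 / 10) : |(1 - l * γc) * B + l * D| ≤ 2 / L := by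
  rw [le_div_iff₀ hL]
  have e : |(1 - l * γc) * B + l * D| * L = |b + l * (d - γc * b)| := by
    have e1 : |(1 - l * γc) * B + l * D| * L = |((1 - l * γc) * B + l * D) * L| := by rw [abs_mul, abs_of_pos hL]
    rw [e1, hb, hd]; congr 1; ring
  rw [e]
  obtain ⟨y1, y2⟩ := abs_le.1 hB
  obtain ⟨c1, c2⟩ := abs_le.1 hcb
  obtain ⟨z1, z2⟩ := abs_le.1 hD
  have hy2 : |b| ≤ 11 / 10 := by rw [abs_le]; constructor <;> linarith
  have hz2 : |d| ≤ 11 / 10 := by rw [abs_le]; constructor <;> linarith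
  have h2 : |γc * b| ≤ 11 / 10 := by
    rw [abs_mul]
    nlinarith [abs_nonneg b, abs_nonneg γc]
  have h3 : |l * (d - γc * b)| ≤ 1 / 10 * (22 / 10) := by
    rw [abs_mul]
    exact mul_le_mul hl ((abs_sub _ _).trans (by linarith)) (abs_nonneg _) (by norm_num)
  exact (abs_add_le _ _).trans (by linarith)

end

lemma ev_pairC {q : ℕ} {c : ℕ → ℝ} {cb v : ℝ} (hn : Nice q c cb v) (w : ℕ) (hw : q ≤ w) : ∃ C₁ : ℝ, 0 ≤ C₁ ∧ ∀ δ₂ : ℝ, 0 < δ₂ →
    ∀ᶠ X : ℕ in atTop, ∃ Ex : Finset ℕ, (Ex.card : ℝ) ≤ X / Real.log X ^ 6 ∧ ∀ x : ℝ, |x| ≤ 1 / 2 → ∀ K : ℕ,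
    (K : ℝ) * (x ^ 2 * v) ≤ 2 * Real.log X ^ 2 →
    ∀ i ∈ Icc 1 (X / (Ww w * q)), ∀ j ∈ Icc 1 (X / (Ww w * q)), i < j →
      (E1 X (fun h => gq c w x (lq w x X) X (mq q w i) h * gq c w x (lq w x X) X (mq q w j) h)) ^ K ≤
        (Aq c w x (lq w x X) X (mq q w i) ^ K * Aq c w x (lq w x X) X (mq q w j) ^ K) * (1 + ff w C₁ δ₂ Ex (j - i)) := by
  classical
  obtain ⟨C, hC, hall⟩ := pc_all
  have hV := Vw_pos w
  have hW : (0 : ℝ) < Ww w := by exact_mod_cast Ww_pos w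
  have hW1 : (1 : ℝ) ≤ Ww w := by exact_mod_cast Ww_pos w
  have hv0 := hn.v0
  set C₁ := 4 * ((2 * C / Vw w + 108 * (Ww w : ℝ) ^ 2) / v) with hC₁
  refine ⟨C₁, by positivity, fun δ₂ hδ₂ => ?_⟩
  set M₀ := 7 / Vw w + 4 + 1 / Vw w ^ 2 + 108 * (Ww w : ℝ) ^ 2 / v with hM₀
  have hM₀0 : 0 < M₀ := by positivity
  set δ := min (1 / 10) (δ₂ / (4 * M₀)) with hδ
  have hδ0 : 0 < δ := lt_min (by norm_num) (by positivity)
  have hδ1 : δ ≤ 1 / 10 := min_le_left _ _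
  filter_upwards [hall, hn.pair δ hδ0 (by linarith), hn.win δ hδ0, hn.cop w hw δ hδ0, eta_window 1 one_pos, ev_gam w δ hδ0,
    eventually_ge_atTop 1, tends_log.eventually_ge_atTop (8 + 16 / δ + Ww w / δ)] with X e1 e2 e3 e4 e5 e6 e11 e12
  obtain ⟨Ex, hEx, hgood⟩ := e2
  refine ⟨(Ex.filter (fun n => q ∣ n)).image (fun n => n / q), ?_, fun x hx K hKle i hi j hj hij => ?_⟩
  · refine le_trans ?_ hEx
    exact_mod_cast (card_image_le.trans (card_filter_le _ _))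
  set L := Real.log (X : ℝ) with hL
  have hq1 : 0 < 16 / δ := by positivity
  have hq2 : 0 < (Ww w : ℝ) / δ := by positivity
  have hL8 : 8 ≤ L := by linarith
  have hL0 : 0 < L := by linarith
  have hLδ : 16 ≤ δ * L := by
    have : 16 / δ ≤ L := by linarith
    rw [div_le_iff₀ hδ0] at this
    linarith
  have hLW : Ww w ≤ δ * L := by
    have : (Ww w : ℝ) / δ ≤ L := by linarith
    rw [div_le_iff₀ hδ0] at this
    linarith
  have hγ0 : 0 < gam w X := lt_of_lt_of_le (by positivity) e6.1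
  set l := lq w x X with hl
  have hlL : |l| * L ≤ 2 * Ww w * |x| := lq_abs hL hL0 e6.1
  have hlδ : |l| ≤ δ := by
    have : |l| * L ≤ δ * L := by nlinarith [abs_nonneg x]
    exact le_of_mul_le_mul_right this hL0
  have hi0 : 0 < i := (mem_Icc.1 hi).1
  have hj0 : 0 < j := (mem_Icc.1 hj).1
  have hiX := mq_le w X i hi
  have hjX := mq_le w X j hj
  set mi := mq q w i with hmi
  set mj := mq q w j with hmj
  have ci : ∀ h, c (mi + h) = c h := fun h => hn.per mi h (mq_q q w i)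
  have cj : ∀ h, c (mj + h) = c h := fun h => hn.per mj h (mq_q q w j)
  have pi0 : 0 < mi := mq_pos hn.q1 w hi0
  have pj0 : 0 < mj := mq_pos hn.q1 w hj0
  obtain ⟨R, R', hR, hR', hpair⟩ := E1_pairq hn.abs e11 (mq_W q w i) pi0 ci (mq_W q w j) pj0 cj x l
  have hPb : ∀ m : ℕ, m ≤ X → L * E1 X (pr m) ≤ 2 := by
    intro m hm
    have := (abs_le.1 (e5 m hm)).2
    linarith
  have hgc1 := gc_abs hn.abs e11 (w := w)
  set Q := E1 X (fun h => c h ^ 2 * (pr mi h * pr mj h)) with hQ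
  have hnum := pair_num (x := x) (l := l) (γ := gam w X) (γc := gc c w X) (vv := gv c w X) (L := L) (δ := δ) (B := Bc c X mi) (B' := Bc c X mj)
    (D := Dc c X mi) (D' := Dc c X mj) (R := R) (R' := R') (P := E1 X (pr mi)) (P' := E1 X (pr mj)) (Q := (1 + 2 * |l|) ^ 2 * Q) (cb := cb) (v := v)
    (A := A1q c w l X mi) (A' := A1q c w l X mj) hγ0 e6.2.2 hL0 hδ0 hδ1 rfl hlδ (by linarith) hn.cb1 hv0.le hn.v1
    (e3 mi hiX).1 (e3 mj hjX).1 (e3 mi hiX).2 (e3 mj hjX).2 (hPb mi hiX) (hPb mj hjX) hR hR' hLδ e4.1 hgc1 e4.2 rfl rfl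
  have hAi := Aq_eq e11 (mq_W q w i) pi0 ci x l
  have hAj := Aq_eq e11 (mq_W q w j) pj0 cj x l
  rw [← hmi] at hAi
  rw [← hmj] at hAj
  rw [← hAi, ← hAj] at hnum
  set g := E1 X (fun h => gq c w x l X mi h * gq c w x l X mj h) with hg
  have hg1 : L ^ 2 * (g - Aq c w x l X mi * Aq c w x l X mj) ≤ x ^ 2 * (L ^ 2 * ((1 + 2 * |l|) ^ 2 * Q) - v / gam w X + 27 * δ / gam w X ^ 2) := by
    refine le_trans ?_ hnum
    apply mul_le_mul_of_nonneg_left _ (by positivity)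
    linarith
  have hQ0 : 0 ≤ Q := E1_nonneg (fun h _ => mul_nonneg (sq_nonneg _) (mul_nonneg (pr_nonneg _ _) (pr_nonneg _ _)))
  have hg2 : L ^ 2 * (g - Aq c w x l X mi * Aq c w x l X mj) ≤ x ^ 2 * ((1 + 2 * δ) ^ 2 * (L ^ 2 * Q) - v / gam w X + 27 * δ / gam w X ^ 2) := by
    refine hg1.trans ?_
    apply mul_le_mul_of_nonneg_left _ (sq_nonneg x)
    have h1 : (1 + 2 * |l|) ^ 2 ≤ (1 + 2 * δ) ^ 2 := pow_le_pow_left₀ (by positivity) (by linarith) 2
    have h2 := mul_le_mul_of_nonneg_right h1 (show 0 ≤ L ^ 2 * Q by positivity)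
    linarith
  have hA34 : ∀ m : ℕ, m ≤ X → Ww w ∣ m → 0 < m → (∀ h, c (m + h) = c h) → 3 / 4 ≤ Aq c w x l X m := by
    intro m hm h1 h2 h3
    rw [Aq_eq e11 h1 h2 h3]
    have h4 := A1_bound hL0 rfl rfl (e3 m hm).1 (e3 m hm).2 hδ1 hn.cb1 hv0.le hn.v1 hgc1 (hlδ.trans hδ1)
    have h5 : |x * A1q c w l X m| ≤ 1 / 2 * (2 / L) := by
      rw [abs_mul]
      exact mul_le_mul hx h4 (abs_nonneg _) (by norm_num)
    have h6 : 1 / 2 * (2 / L) ≤ 1 / 4 := by
      rw [div_mul_div_comm, div_le_div_iff₀ (by positivity) (by norm_num)]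
      linarith
    linarith [(abs_le.1 h5).1]
  have hai := hA34 mi hiX (mq_W q w i) pi0 ci
  have haj := hA34 mj hjX (mq_W q w j) pj0 cj
  have hgn : 0 ≤ g := E1_nonneg (fun h _ => mul_nonneg (gq_nonneg hn.abs e11 hx (by linarith) _ _) (gq_nonneg hn.abs e11 hx (by linarith) _ _))
  have hd0 : 0 < j - i := by omega
  have hrat := rat_W w (q * (j - i)) (Nat.mul_pos hn.q1 hd0)
  rw [sw_q hn.q1 hw hd0] at hrat
  have hE : 1 ≤ Real.exp (sw w (j - i)) := Real.one_le_exp (sw_nonneg _ _)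
  set E := Real.exp (sw w (j - i)) with hEd
  have hu : 0 ≤ x ^ 2 * v := by positivity
  have hmd0 : 0 < Ww w * (q * (j - i)) := Nat.mul_pos (Ww_pos w) (Nat.mul_pos hn.q1 hd0)
  have hsum : mj = mi + Ww w * (q * (j - i)) := by
    rw [hmi, hmj]
    unfold mq
    rw [← mul_add, ← mul_add]
    congr 2
    omega
  have hAA : 0 ≤ Aq c w x l X mi ^ K * Aq c w x l X mj ^ K := by positivity
  unfold ff
  by_cases hmem : Ww w * (j - i) ∈ (Ex.filter (fun n => q ∣ n)).image (fun n => n / q)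
  · rw [if_pos hmem]
    have h1 := e1 mi (Ww w * (q * (j - i))) hmd0
    rw [← hsum] at h1
    have h2 : L ^ 2 * Q ≤ C * rat (Ww w * (q * (j - i))) := by
      refine le_trans ?_ h1
      rw [mul_comm]
      apply mul_le_mul_of_nonneg_right _ (by positivity)
      apply E1_mono
      intro h _
      apply mul_le_of_le_one_left (mul_nonneg (pr_nonneg _ _) (pr_nonneg _ _))
      rw [← sq_abs]
      exact pow_le_one₀ (abs_nonneg _) (hn.abs h)
    have h3 := allq hδ0 hδ1 hE hV hv0 hC.le hrat h2 hγ0 hW e6.1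
    have h4 := hg2.trans (mul_le_mul_of_nonneg_left h3 (sq_nonneg x))
    have h5 := pow_ofV (T := (2 * C / Vw w + 108 * (Ww w : ℝ) ^ 2) / v * E) hgn hai haj hL0 (by positivity) hu hKle (by
      refine h4.trans (le_of_eq ?_); ring)
    refine h5.trans (mul_le_mul_of_nonneg_left ?_ hAA)
    have h6 : 1 ≤ Real.exp (4 * (1 + 1) * ((0 : ℝ) - 1) ^ 2 / Vw w * (E - 1) + δ₂) := by
      apply Real.one_le_exp
      have : 0 ≤ 4 * (1 + 1) * ((0 : ℝ) - 1) ^ 2 / Vw w * (E - 1) := mul_nonneg (by positivity) (by linarith)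
      linarith
    have h7 : Real.exp (2 * 2 * ((2 * C / Vw w + 108 * (Ww w : ℝ) ^ 2) / v * E)) = Real.exp (C₁ * E) := by
      congr 1; rw [hC₁]; ring
    rw [h7]
    linarith
  · rw [if_neg hmem, add_zero]
    have hnE : Ww w * (q * (j - i)) ∉ Ex := by
      intro hc'
      apply hmem
      rw [mem_image]
      refine ⟨Ww w * (q * (j - i)), mem_filter.2 ⟨hc', mq_q q w (j - i)⟩, ?_⟩
      rw [show Ww w * (q * (j - i)) = q * (Ww w * (j - i)) by ring]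
      exact Nat.mul_div_cancel_left _ hn.q1
    have hdm : Ww w * (q * (j - i)) ∈ Icc 1 X := by
      rw [mem_Icc]
      exact ⟨hmd0, by omega⟩
    have h1 := hgood (Ww w * (q * (j - i))) hdm (mq_q q w (j - i)) hnE mi hiX (mq_q q w i)
    rw [← hsum] at h1
    have h2 : L ^ 2 * Q ≤ v * ((1 + δ) * rat (Ww w * (q * (j - i))) + 2 * δ) := by rw [mul_comm]; exact h1
    have h3 := goodq hδ0 hδ1 hE hV hv0 hrat h2 hγ0 e6.2.1 hW e6.1
    have h4 := hg2.trans (mul_le_mul_of_nonneg_left h3 (sq_nonneg x))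
    have hT0 : 0 ≤ 2 * (E - 1) / Vw w + δ * M₀ := by
      have : 0 ≤ 2 * (E - 1) / Vw w := div_nonneg (by linarith) hV.le
      positivity
    have h5 := pow_ofV (T := 2 * (E - 1) / Vw w + δ * M₀) hgn hai haj hL0 hT0 hu hKle (by
      refine h4.trans (le_of_eq ?_); rw [hM₀]; ring)
    refine h5.trans (mul_le_mul_of_nonneg_left ?_ hAA)
    have h6 : 2 * 2 * (2 * (E - 1) / Vw w + δ * M₀) = 4 * (1 + 1) * ((0 : ℝ) - 1) ^ 2 / Vw w * (E - 1) + 4 * M₀ * δ := by ring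
    have h7 : 4 * M₀ * δ ≤ δ₂ := by
      have h8 : δ ≤ δ₂ / (4 * M₀) := min_le_right _ _
      rw [le_div_iff₀ (by positivity)] at h8
      linarith
    have h9 : Real.exp (2 * 2 * (2 * (E - 1) / Vw w + δ * M₀)) ≤ Real.exp (4 * (1 + 1) * ((0 : ℝ) - 1) ^ 2 / Vw w * (E - 1) + δ₂) := by
      apply Real.exp_le_exp.2
      rw [h6]; linarith
    linarith

end Pool.Agent.N735.CL
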