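import Mathlib

set_option autoImplicit false
set_option maxHeartbeats 1000000

/-! Functions of the residue classes: the numerical part of the tails and of the diagonal. -/

namespace Pool.Agent.N735.CL

lemma mean_shift {x l γc B D P U2 A1 A L W : ℝ} (hL : 8 ≤ L) (hW : 1 ≤ W) (hx : |x| ≤ 1 / 64) (hl : |l| * L ≤ 2 * W * |x|)
    (hγc : |γc| ≤ 1) (hB : |L * B| ≤ 11 / 10) (hD : |L * D| ≤ 11 / 10) (hP : L * P ≤ 2) (hU : |U2 - D| ≤ 2 * |l| * P)
    (hA1 : A1 = (1 - l * γc) * B + l * D) (hA1b : |A1| ≤ 2 / L) (hA : A = 1 + x * A1) (hA34 : 3 / 4 ≤ A) :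
    |(A1 + x * U2) / A - B - x * D| ≤ 8 * (W + 1) * |x| / L ^ 2 := by
  have hL0 : 0 < L := by linarith
  have hL2 : 0 < L ^ 2 := by positivity
  have hA0 : 0 < A := by linarith
  have hx0 := abs_nonneg x
  have hl0 := abs_nonneg l
  have e : (A1 + x * U2) / A - B - x * D = (x * (U2 - D) + l * (D - γc * B) - (x * A1) * B - (x * A1) * (x * D)) / A := by
    rw [eq_div_iff hA0.ne', sub_mul, sub_mul, div_mul_cancel₀ _ hA0.ne', hA, hA1]; ring
  rw [e, abs_div, abs_of_pos hA0, div_le_iff₀ hA0]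
  have t1 : |x * (U2 - D)| * L ^ 2 ≤ W * |x| := by
    rw [abs_mul]
    have h1 : |U2 - D| * L ^ 2 ≤ 8 * W * |x| := by
      calc |U2 - D| * L ^ 2 ≤ (2 * |l| * P) * L ^ 2 := mul_le_mul_of_nonneg_right hU hL2.le
        _ = 2 * ((|l| * L) * (L * P)) := by ring
        _ ≤ 2 * ((2 * W * |x|) * 2) := by
            apply mul_le_mul_of_nonneg_left _ (by norm_num)
            calc (|l| * L) * (L * P) ≤ (|l| * L) * 2 := mul_le_mul_of_nonneg_left hP (by positivity)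
              _ ≤ (2 * W * |x|) * 2 := by linarith
        _ = _ := by ring
    calc |x| * |U2 - D| * L ^ 2 = |x| * (|U2 - D| * L ^ 2) := by ring
      _ ≤ |x| * (8 * W * |x|) := mul_le_mul_of_nonneg_left h1 hx0
      _ = (8 * |x|) * (W * |x|) := by ring
      _ ≤ 1 * (W * |x|) := mul_le_mul_of_nonneg_right (by linarith) (by positivity)
      _ = _ := one_mul _
  have t2 : |l * (D - γc * B)| * L ^ 2 ≤ (22 / 5) * W * |x| := by
    rw [abs_mul]
    have h1 : |D - γc * B| * L ≤ 22 / 10 := by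
      have h2 : |D - γc * B| * L = |L * D - γc * (L * B)| := by
        rw [← abs_of_pos hL0, ← abs_mul, abs_of_pos hL0]; congr 1; ring
      rw [h2]
      have h3 : |γc * (L * B)| ≤ 1 * (11 / 10) := by
        rw [abs_mul]
        exact mul_le_mul hγc hB (abs_nonneg _) (by norm_num)
      exact (abs_sub _ _).trans (by linarith)
    calc |l| * |D - γc * B| * L ^ 2 = (|l| * L) * (|D - γc * B| * L) := by ring
      _ ≤ (2 * W * |x|) * (22 / 10) := mul_le_mul hl h1 (by positivity) (by positivity)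
      _ = _ := by ring
  have hxA : |x * A1| * L ≤ 2 * |x| := by
    rw [abs_mul]
    rw [le_div_iff₀ hL0] at hA1b
    calc |x| * |A1| * L = |x| * (|A1| * L) := by ring
      _ ≤ |x| * 2 := mul_le_mul_of_nonneg_left hA1b hx0
      _ = _ := by ring
  have t3 : |(x * A1) * B| * L ^ 2 ≤ (11 / 5) * |x| := by
    rw [abs_mul]
    have : |B| * L ≤ 11 / 10 := by
      rw [abs_mul, abs_of_pos hL0] at hB
      linarith
    calc |x * A1| * |B| * L ^ 2 = (|x * A1| * L) * (|B| * L) := by ring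
      _ ≤ (2 * |x|) * (11 / 10) := mul_le_mul hxA this (by positivity) (by positivity)
      _ = _ := by ring
  have t4 : |(x * A1) * (x * D)| * L ^ 2 ≤ (1 / 10) * |x| := by
    rw [abs_mul]
    have : |x * D| * L ≤ 11 / 640 := by
      rw [abs_mul, mul_assoc, mul_comm |D| L]
      have : L * |D| ≤ 11 / 10 := by rw [abs_mul, abs_of_pos hL0] at hD; linarith
      calc |x| * (L * |D|) ≤ (1 / 64) * (11 / 10) := mul_le_mul hx this (by positivity) (by norm_num)
        _ = _ := by norm_num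
    calc |x * A1| * |x * D| * L ^ 2 = (|x * A1| * L) * (|x * D| * L) := by ring
      _ ≤ (2 * |x|) * (11 / 640) := mul_le_mul hxA this (by positivity) (by positivity)
      _ ≤ _ := by linarith
  have htot : |x * (U2 - D) + l * (D - γc * B) - (x * A1) * B - (x * A1) * (x * D)| * L ^ 2 ≤ 6 * (W + 1) * |x| := by
    have h1 : |x * (U2 - D) + l * (D - γc * B) - (x * A1) * B - (x * A1) * (x * D)| ≤
        |x * (U2 - D)| + |l * (D - γc * B)| + |(x * A1) * B| + |(x * A1) * (x * D)| := by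
      have a1 := abs_sub (x * (U2 - D) + l * (D - γc * B) - (x * A1) * B) ((x * A1) * (x * D))
      have a2 := abs_sub (x * (U2 - D) + l * (D - γc * B)) ((x * A1) * B)
      have a3 := abs_add_le (x * (U2 - D)) (l * (D - γc * B))
      linarith
    have h2 := mul_le_mul_of_nonneg_right h1 hL2.le
    have h3 : 0 ≤ W * |x| := by positivity
    nlinarith
  have h5 : 8 * (W + 1) * |x| / L ^ 2 * A = (8 * (W + 1) * |x|) * A / L ^ 2 := by ring
  rw [h5, le_div_iff₀ hL2]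
  refine htot.trans ?_
  have h6 : 0 ≤ 8 * (W + 1) * |x| := by positivity
  have h7 := mul_le_mul_of_nonneg_left hA34 h6
  linarith

lemma tailc_exp {K x v L S a σ ρ c1 ε δ vv B D Q M2 W : ℝ} (hL0 : 0 < L) (hv0 : 0 < v) (hS : S ^ 2 = 2 * v * K) (hS0 : 0 < S) (hK0 : 0 ≤ K)
    (hε : 0 < ε) (ha0 : 0 ≤ a) (ha1 : a ≤ 1) (hx : x = σ * (2 * a * L / S)) (hδ : δ = ε / 64) (hε1 : ε ≤ 1)
    (hD : |L * D - v| ≤ δ * v) (hQ : |Q - B - x * D| ≤ 8 * (W + 1) * |x| / L ^ 2) (hW : 8 * (W + 1) ≤ δ * v * L)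
    (hM : M2 ≤ 19 / 10 * D)
    (hvv : vv = ε * L / (8 * S)) (hc : ρ * (a - c1) ≤ -(ε / 4)) (hσa : |σ| = 1) (hρa : |ρ| = 1) (hσ2 : σ * σ = 1) :
    -(vv * ρ * σ) * (K * B) - vv * ρ * (c1 * S) + K * ((vv * ρ * σ) * Q + vv ^ 2 * M2) ≤ -(ε ^ 2 * L / 128) := by
  have hvv0 : 0 < vv := by rw [hvv]; positivity
  have hvS : vv * S = ε * L / 8 := by rw [hvv]; field_simp
  have hKe : K = S ^ 2 / (2 * v) := by rw [hS]; field_simp
  set ξ := 2 * a * L / S with hξ
  have hξ0 : 0 ≤ ξ := by positivity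
  have hxa : |x| = ξ := by rw [hx, abs_mul, hσa, one_mul, abs_of_nonneg hξ0]
  have hKξ : K * ξ = a * L * S / v := by rw [hKe, hξ]; field_simp
  have hδ0 : 0 < δ := by rw [hδ]; positivity
  obtain ⟨d1, d2⟩ := abs_le.1 hD
  -- the shift
  have s1 : |σ * (K * (Q - B)) - a * S| ≤ 2 * δ * S := by
    have e : σ * (K * (Q - B)) - a * S = σ * (K * (Q - B - x * D)) + (a * S / v) * (L * D - v) := by
      have e1 : K * (x * D) = σ * (a * L * S / v) * D := by
        rw [hx]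
        calc K * (σ * ξ * D) = σ * (K * ξ) * D := by ring
          _ = _ := by rw [hKξ]
      have e2 : σ * (K * (Q - B - x * D)) = σ * (K * (Q - B)) - σ * (K * (x * D)) := by ring
      rw [e2, e1]
      have e3 : σ * (σ * (a * L * S / v) * D) = (σ * σ) * (a * L * S / v * D) := by ring
      rw [e3, hσ2]
      field_simp
      ring
    rw [e]
    refine (abs_add_le _ _).trans ?_
    have h1 : |σ * (K * (Q - B - x * D))| ≤ δ * S := by
      rw [abs_mul, hσa, one_mul, abs_mul, abs_of_nonneg hK0]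
      calc K * |Q - B - x * D| ≤ K * (8 * (W + 1) * |x| / L ^ 2) := mul_le_mul_of_nonneg_left hQ hK0
        _ = (K * ξ) * (8 * (W + 1)) / L ^ 2 := by rw [hxa]; ring
        _ ≤ (K * ξ) * (δ * v * L) / L ^ 2 := by
            apply div_le_div_of_nonneg_right _ (by positivity)
            exact mul_le_mul_of_nonneg_left hW (by positivity)
        _ = a * (δ * S) := by rw [hKξ]; field_simp
        _ ≤ 1 * (δ * S) := mul_le_mul_of_nonneg_right ha1 (by positivity)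
        _ = _ := one_mul _
    have h2 : |(a * S / v) * (L * D - v)| ≤ δ * S := by
      rw [abs_mul, abs_of_nonneg (show 0 ≤ a * S / v by positivity)]
      calc a * S / v * |L * D - v| ≤ a * S / v * (δ * v) := mul_le_mul_of_nonneg_left hD (by positivity)
        _ = a * (δ * S) := by field_simp
        _ ≤ 1 * (δ * S) := mul_le_mul_of_nonneg_right ha1 (by positivity)
        _ = _ := one_mul _
    linarith
  have s2 : K * (vv ^ 2 * M2) ≤ ε ^ 2 * L / 64 := by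
    have h1 : K * (vv ^ 2 * M2) ≤ K * (vv ^ 2 * (19 / 10 * D)) := by
      apply mul_le_mul_of_nonneg_left _ hK0
      exact mul_le_mul_of_nonneg_left hM (sq_nonneg _)
    have h2 : K * (vv ^ 2 * (19 / 10 * D)) = (vv * S) ^ 2 * (19 / 20) * (L * D) / (v * L) := by
      rw [hKe]; field_simp; ring
    have h3 : L * D ≤ (65 / 64) * v := by
      have : δ * v ≤ 1 / 64 * v := mul_le_mul_of_nonneg_right (by rw [hδ]; linarith) hv0.le
      linarith
    rw [h2, hvS] at h1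
    refine h1.trans ?_
    rw [div_le_iff₀ (by positivity)]
    have h4 : 0 ≤ (ε * L / 8) ^ 2 * (19 / 20) := by positivity
    have h5 := mul_le_mul_of_nonneg_left h3 h4
    have e : ε ^ 2 * L / 64 * (v * L) = (ε * L / 8) ^ 2 * v := by ring
    rw [e]
    have h6 : 0 ≤ (ε * L / 8) ^ 2 * v := by positivity
    linarith
  have e : -(vv * ρ * σ) * (K * B) - vv * ρ * (c1 * S) + K * ((vv * ρ * σ) * Q + vv ^ 2 * M2) =
      vv * (ρ * (a - c1) * S + ρ * (σ * (K * (Q - B)) - a * S)) + K * (vv ^ 2 * M2) := by ring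
  rw [e]
  have s3 : ρ * (σ * (K * (Q - B)) - a * S) ≤ 2 * δ * S := by
    refine (le_abs_self _).trans ?_
    rw [abs_mul, hρa, one_mul]
    exact s1
  have s4 : ρ * (a - c1) * S ≤ -(ε / 4) * S := mul_le_mul_of_nonneg_right hc hS0.le
  have s5 : vv * (ρ * (a - c1) * S + ρ * (σ * (K * (Q - B)) - a * S)) ≤ vv * (-(ε / 4) * S + 2 * δ * S) :=
    mul_le_mul_of_nonneg_left (by linarith) hvv0.le
  have e2 : vv * (-(ε / 4) * S + 2 * δ * S) = -(7 / 32) * ε * (vv * S) := by rw [hδ]; ring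
  rw [e2, hvS] at s5
  have e3 : -(7 / 32) * ε * (ε * L / 8) = -(7 / 256) * (ε ^ 2 * L) := by ring
  rw [e3] at s5
  have : 0 ≤ ε ^ 2 * L := by positivity
  linarith

lemma sq_exp {y : ℝ} (hy : |y| ≤ 1 / 4) (hc : Real.exp (-y) - 1 - (-y) ≤ (-y) ^ 2 / 2 + |(-y)| ^ 3) :
    (1 + y) ^ 2 * Real.exp (-y) ≤ 1 + y - y ^ 2 / 2 + 3 * |y| ^ 3 := by
  rw [abs_neg, neg_sq] at hc
  obtain ⟨y1, y2⟩ := abs_le.1 hy
  have h1 : Real.exp (-y) ≤ 1 - y + y ^ 2 / 2 + |y| ^ 3 := by linarith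
  have h2 := mul_le_mul_of_nonneg_left h1 (sq_nonneg (1 + y))
  refine h2.trans ?_
  have e : (1 + y) ^ 2 * (1 - y + y ^ 2 / 2 + |y| ^ 3) = 1 + y - y ^ 2 / 2 + y ^ 4 / 2 + (1 + y) ^ 2 * |y| ^ 3 := by ring
  rw [e]
  have h3 : y ^ 4 ≤ 1 / 4 * |y| ^ 3 := by
    have : y ^ 4 = |y| ^ 4 := by
      rw [show (4 : ℕ) = 2 * 2 by norm_num, pow_mul, pow_mul, sq_abs]
    rw [this]
    calc |y| ^ 4 = |y| * |y| ^ 3 := by ring
      _ ≤ _ := mul_le_mul_of_nonneg_right hy (by positivity)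
  have h4 : (1 + y) ^ 2 ≤ 2 := by nlinarith
  have h5 : 0 ≤ |y| ^ 3 := by positivity
  have h6 := mul_le_mul_of_nonneg_right h4 h5
  linarith

lemma diagc_exp {K x v L S a σ c1 ε δ B D P l γc gvv R A1 W : ℝ} (hL8 : 8 ≤ L) (hv0 : 0 < v) (hv1 : v ≤ 1) (hS : S ^ 2 = 2 * v * K) (hS0 : 0 < S)
    (hε : 0 < ε) (hε1 : ε ≤ 1) (ha : a = 1 - ε / 2) (hx : x = σ * (2 * a * L / S)) (hδ : δ = ε / 64) (hc1 : c1 = 1 - ε / 4)
    (hD : |L * D - v| ≤ δ * v) (hP : L * P ≤ 2) (hP0 : 0 ≤ P) (hW1 : 1 ≤ W)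
    (hl : |l| * L ≤ 2 * W * |x|) (hg : gvv - γc ^ 2 ≤ 1) (hR : |R| ≤ 4 * P) (hA1b : |A1| ≤ 2 / L) (hA1 : A1 = (1 - l * γc) * B + l * D)
    (hξ : 512 * L ≤ ε * v * S) (hσa : |σ| = 1) (hσ2 : σ * σ = 1) (hLW : 50 * W ^ 2 * 16 ≤ ε * v * L) :
    (2 * a * L / S) * (c1 * S) + x * (K * B) + K * (l ^ 2 * (gvv - γc ^ 2) + x * ((1 - 2 * l * γc) * B + 2 * l * D + l ^ 2 * R) -
      x ^ 2 / 2 * ((1 - 4 * |l|) * D) + 6 * |x| ^ 3 * P) ≤ 2 * (K * (x * A1 - 2 * (x * A1) ^ 2)) + (1 - ε / 8) * L := by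
  have hL0 : 0 < L := by linarith
  have hKe : K = S ^ 2 / (2 * v) := by rw [hS]; field_simp
  have hK0 : 0 ≤ K := by rw [hKe]; positivity
  have ha0 : 1 / 2 ≤ a := by rw [ha]; linarith
  have ha1 : a ≤ 1 := by rw [ha]; linarith
  have ha2 : a ^ 2 ≤ 1 := pow_le_one₀ (by linarith) ha1
  set ξ := 2 * a * L / S with hξd
  have hξ0 : 0 ≤ ξ := by positivity
  have hxa : |x| = ξ := by rw [hx, abs_mul, hσa, one_mul, abs_of_nonneg hξ0]
  have hx2 : x ^ 2 = ξ ^ 2 := by rw [← sq_abs, hxa]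
  have hξS : ξ * S = 2 * a * L := by rw [hξd]; field_simp
  have hξs : ξ ≤ ε * v / 256 := by
    rw [hξd, div_le_iff₀ hS0]
    have : a * L ≤ 1 * L := mul_le_mul_of_nonneg_right ha1 hL0.le
    have e : ε * v / 256 * S = (ε * v * S) / 256 := by ring
    rw [e]
    linarith
  have hξ1 : ξ ≤ 1 / 256 := by
    have : ε * v ≤ 1 * 1 := mul_le_mul hε1 hv1 hv0.le (by norm_num)
    linarith
  have hKξ2 : K * ξ ^ 2 = 2 * a ^ 2 * L ^ 2 / v := by rw [hKe, hξd]; field_simp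
  have hKξ2' : K * ξ ^ 2 ≤ 2 * L ^ 2 / v := by
    rw [hKξ2]
    apply div_le_div_of_nonneg_right _ hv0.le
    have := mul_le_mul_of_nonneg_right ha2 (show 0 ≤ 2 * L ^ 2 by positivity)
    linarith
  obtain ⟨d1, d2⟩ := abs_le.1 hD
  have hδ0 : 0 < δ := by rw [hδ]; positivity
  have hδv : δ * v ≤ 1 / 64 * v := mul_le_mul_of_nonneg_right (by rw [hδ]; linarith) hv0.le
  have hD0 : 0 ≤ D := by
    have h1 : 0 ≤ L * D := by linarith
    exact nonneg_of_mul_nonneg_right h1 hL0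
  have hLD : L * D ≤ 65 / 64 * v := by linarith
  -- `l`
  have hlL : |l| * L ≤ 2 * W * ξ := by rw [← hxa]; exact hl
  have hl2 : K * l ^ 2 ≤ 8 * W ^ 2 / v := by
    have h1 : l ^ 2 * L ^ 2 ≤ 4 * W ^ 2 * ξ ^ 2 := by
      have := pow_le_pow_left₀ (by positivity) hlL 2
      rw [mul_pow, sq_abs] at this
      refine this.trans (le_of_eq ?_)
      ring
    have h2 : (K * l ^ 2) * L ^ 2 ≤ (8 * W ^ 2 / v) * L ^ 2 := by
      calc (K * l ^ 2) * L ^ 2 = K * (l ^ 2 * L ^ 2) := by ring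
        _ ≤ K * (4 * W ^ 2 * ξ ^ 2) := mul_le_mul_of_nonneg_left h1 hK0
        _ = 4 * W ^ 2 * (K * ξ ^ 2) := by ring
        _ ≤ 4 * W ^ 2 * (2 * L ^ 2 / v) := mul_le_mul_of_nonneg_left hKξ2' (by positivity)
        _ = _ := by ring
    exact le_of_mul_le_mul_right h2 (by positivity)
  have hl20 : 0 ≤ K * l ^ 2 := by positivity
  have t1 : K * (l ^ 2 * (gvv - γc ^ 2)) ≤ 8 * W ^ 2 / v := by
    calc K * (l ^ 2 * (gvv - γc ^ 2)) = (K * l ^ 2) * (gvv - γc ^ 2) := by ring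
      _ ≤ (K * l ^ 2) * 1 := mul_le_mul_of_nonneg_left hg hl20
      _ ≤ _ := by linarith
  have hPL : P ≤ 1 / 4 := by nlinarith
  have t2 : K * (x * (l ^ 2 * R)) ≤ W ^ 2 / v := by
    have h1 : |x * R| ≤ 1 / 256 * 1 := by
      rw [abs_mul, hxa]
      exact mul_le_mul hξ1 (by linarith) (abs_nonneg _) (by norm_num)
    calc K * (x * (l ^ 2 * R)) = (K * l ^ 2) * (x * R) := by ring
      _ ≤ (K * l ^ 2) * (1 / 256) := mul_le_mul_of_nonneg_left (by linarith [(abs_le.1 h1).2]) hl20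
      _ ≤ (8 * W ^ 2 / v) * (1 / 256) := mul_le_mul_of_nonneg_right hl2 (by norm_num)
      _ ≤ _ := by
        have : 0 ≤ W ^ 2 / v := by positivity
        have e : 8 * W ^ 2 / v = 8 * (W ^ 2 / v) := by ring
        rw [e]; linarith
  have hKD : K * ξ ^ 2 * D = a ^ 2 * L * (2 * (L * D) / v) := by rw [hKξ2]; ring
  have t3 : a ^ 2 * L - L * δ ≤ K * (x ^ 2 / 2 * D) := by
    have e : K * (x ^ 2 / 2 * D) = a ^ 2 * L * ((L * D) / v) := by
      rw [hx2]
      calc K * (ξ ^ 2 / 2 * D) = (K * ξ ^ 2 * D) / 2 := by ring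
        _ = _ := by rw [hKD]; ring
    rw [e]
    have h1 : 1 - δ ≤ (L * D) / v := by
      rw [le_div_iff₀ hv0]; linarith
    have h2 := mul_le_mul_of_nonneg_left h1 (show 0 ≤ a ^ 2 * L by positivity)
    have h3 : a ^ 2 * (L * δ) ≤ 1 * (L * δ) := mul_le_mul_of_nonneg_right ha2 (by positivity)
    linarith
  have t4 : K * (x ^ 2 / 2 * (4 * |l| * D)) ≤ W ^ 2 / v := by
    have e : K * (x ^ 2 / 2 * (4 * |l| * D)) = 4 * a ^ 2 * (|l| * L) * ((L * D) / v) := by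
      rw [hx2]
      calc K * (ξ ^ 2 / 2 * (4 * |l| * D)) = (K * ξ ^ 2 * D) * (2 * |l|) := by ring
        _ = _ := by rw [hKD]; ring
    rw [e]
    have h1 : (L * D) / v ≤ 2 := by rw [div_le_iff₀ hv0]; linarith
    have h2 : 0 ≤ (L * D) / v := by positivity
    have h3 : |l| * L ≤ 2 * W * (1 / 256) := hlL.trans (mul_le_mul_of_nonneg_left hξ1 (by positivity))
    calc 4 * a ^ 2 * (|l| * L) * ((L * D) / v) ≤ 4 * 1 * (2 * W * (1 / 256)) * 2 := by
          apply mul_le_mul _ h1 h2 (by positivity)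
          apply mul_le_mul _ h3 (by positivity) (by norm_num)
          linarith
      _ = W / 16 := by ring
      _ ≤ W ^ 2 / v := by
          rw [le_div_iff₀ hv0]
          nlinarith
  have t5 : K * (6 * |x| ^ 3 * P) ≤ ε / 8 * L := by
    rw [hxa]
    calc K * (6 * ξ ^ 3 * P) = 6 * (K * ξ ^ 2) * (ξ * P) := by ring
      _ ≤ 6 * (2 * L ^ 2 / v) * (ξ * P) := by
          apply mul_le_mul_of_nonneg_right _ (by positivity)
          linarith
      _ = 12 * L * (L * P) * (ξ / v) := by ring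
      _ ≤ 12 * L * 2 * (ε / 256) := by
          apply mul_le_mul _ _ (by positivity) (by positivity)
          · exact mul_le_mul_of_nonneg_left hP (by positivity)
          · rw [div_le_iff₀ hv0]; linarith
      _ ≤ _ := by nlinarith
  have t6 : 4 * (K * (x * A1) ^ 2) ≤ 32 / v := by
    have h1 : A1 ^ 2 ≤ 4 / L ^ 2 := by
      have := pow_le_pow_left₀ (abs_nonneg _) hA1b 2
      rw [sq_abs] at this
      refine this.trans (le_of_eq ?_)
      ring
    calc 4 * (K * (x * A1) ^ 2) = 4 * (K * ξ ^ 2) * A1 ^ 2 := by rw [mul_pow, hx2]; ring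
      _ ≤ 4 * (2 * L ^ 2 / v) * (4 / L ^ 2) := by
          apply mul_le_mul _ h1 (sq_nonneg _) (by positivity)
          linarith
      _ = _ := by field_simp; norm_num
  have t7 : 8 * W ^ 2 / v + W ^ 2 / v + W ^ 2 / v + 32 / v ≤ ε / 16 * L := by
    have e : 8 * W ^ 2 / v + W ^ 2 / v + W ^ 2 / v + 32 / v = (10 * W ^ 2 + 32) / v := by ring
    rw [e, div_le_iff₀ hv0]
    have : 1 ≤ W ^ 2 := one_le_pow₀ hW1
    linarith
  have hmain : (2 * a * L / S) * (c1 * S) - a ^ 2 * L = a * L := by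
    have : (2 * a * L / S) * (c1 * S) = 2 * a * c1 * L := by field_simp
    rw [this, hc1, ha]; ring
  have hexp : (2 * a * L / S) * (c1 * S) + x * (K * B) + K * (l ^ 2 * (gvv - γc ^ 2) + x * ((1 - 2 * l * γc) * B + 2 * l * D + l ^ 2 * R) -
      x ^ 2 / 2 * ((1 - 4 * |l|) * D) + 6 * |x| ^ 3 * P) - 2 * (K * (x * A1 - 2 * (x * A1) ^ 2)) =
      (2 * a * L / S) * (c1 * S) + K * (l ^ 2 * (gvv - γc ^ 2)) + K * (x * (l ^ 2 * R)) - K * (x ^ 2 / 2 * D) + K * (x ^ 2 / 2 * (4 * |l| * D)) +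
      K * (6 * |x| ^ 3 * P) + 4 * (K * (x * A1) ^ 2) := by
    rw [hA1]; ring
  rw [← hξd] at hmain hexp
  have h10 : a * L = L - ε / 2 * L := by rw [ha]; ring
  have h11 : L * δ = ε / 64 * L := by rw [hδ]; ring
  have h12 : 0 ≤ ε * L := by positivity
  have h13 : (1 - ε / 8) * L = L - ε / 8 * L := by ring
  rw [h13]
  linarith

end Pool.Agent.N735.CL
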