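import Mathlib
import Pool.Agent.N735.CL.Md3

set_option autoImplicit false
set_option maxHeartbeats 4000000

/-! The maximal deviation: the lower bound with the exact constant. -/

namespace Pool.Agent.N735.CL

open Finset Filter Topology

/-- the truncated weight of a translate -/
noncomputable def Hd (w : ℕ) (t : ℝ) (X : ℕ) (K : ℕ) (σ lo hi : ℝ) (j : ℕ) (h : Fin K → ℕ) : ℝ :=
  if lo ≤ σ * ((Nm h (Ww w * j) : ℝ) - K * ej w X j) ∧ σ * ((Nm h (Ww w * j) : ℝ) - K * ej w X j) ≤ hi then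
    Gj w t X j h / aj w t X j ^ K else 0

theorem dev_lower (ε θ : ℝ) (hε : 0 < ε) (hε1 : ε ≤ 1) (hθ : 0 < θ) : ∀ᶠ X : ℕ in atTop, ∀ σ : ℝ, (σ = 1 ∨ σ = -1) → ∀ K : ℕ,
    8192 / ε ^ 2 * Real.log X ^ 2 ≤ K →
      PK X K (fun h => ∀ m ∈ Icc 1 X, σ * ((Nm h m : ℝ) - K * E1 X (pr m)) < (1 - ε) * Real.sqrt (2 * K)) ≤ θ := by
  set τ := θ / 24 with hτ
  have hτ0 : 0 < τ := by positivity
  obtain ⟨τ1, hτ10, hτ14, hτ1⟩ : ∃ τ1 : ℝ, 0 < τ1 ∧ τ1 ≤ 1 / 4 ∧ 8 * (4 * τ1 + 2 * (Real.exp τ1 * (1 + τ1) - 1 + τ1)) ≤ τ := by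
    have h1 : ∀ᶠ x : ℝ in nhds 0, 8 * (4 * x + 2 * (Real.exp x * (1 + x) - 1 + x)) < τ := by
      apply ContinuousAt.eventually_lt
      · fun_prop
      · fun_prop
      · simp; exact hτ0
    have h3 : ∀ᶠ x : ℝ in nhds 0, x < 1 / 4 := by
      apply ContinuousAt.eventually_lt continuousAt_id continuousAt_const
      norm_num
    have h4 : ∀ᶠ x : ℝ in nhdsWithin 0 (Set.Ioi 0), x ∈ Set.Ioi (0 : ℝ) := self_mem_nhdsWithin
    obtain ⟨x, hx⟩ := (((h1.and h3).filter_mono nhdsWithin_le_nhds).and h4).exists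
    exact ⟨x, hx.2, hx.1.2.le, hx.1.1.le⟩
  obtain ⟨w0, hw0⟩ := main_avg (4 * (1 + 1) * ((0 : ℝ) - 1) ^ 2) τ1 (by norm_num) hτ10
  set w := max w0 2 with hw
  have hmain := hw0 w (le_max_left _ _)
  obtain ⟨C₁, hC₁0, hpair⟩ := ev_pairV w
  obtain ⟨C₃, hC₃0, hC₃⟩ := exc_avg w (le_max_right _ _) (2 * C₁) (by positivity)
  have hWpos : 0 < Ww w := Ww_pos w
  have hWr : (0 : ℝ) < Ww w := by exact_mod_cast hWpos
  set W := (Ww w : ℝ) with hWd
  have hbig : ∀ᶠ X : ℕ in atTop, 2 * Real.exp (-(ε ^ 2 * Real.log X / 128)) ≤ τ1 ∧ 16 * W / τ ≤ Real.exp (ε / 8 * Real.log X) := by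
    have h1 : Tendsto (fun X : ℕ => 2 * Real.exp (-(ε ^ 2 * Real.log X / 128))) atTop (𝓝 0) := by
      have h2 : Tendsto (fun X : ℕ => ε ^ 2 * Real.log (X : ℝ) / 128) atTop atTop :=
        (tends_log.const_mul_atTop (by positivity)).atTop_div_const (by norm_num)
      have h3 := (Real.tendsto_exp_neg_atTop_nhds_zero.comp h2).const_mul 2
      rw [mul_zero] at h3
      exact h3
    have h2 : Tendsto (fun X : ℕ => Real.exp (ε / 8 * Real.log (X : ℝ))) atTop atTop :=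
      Real.tendsto_exp_atTop.comp (tends_log.const_mul_atTop (by positivity))
    filter_upwards [h1.eventually_le_const hτ10, h2.eventually_ge_atTop (16 * W / τ)] with X a b
    exact ⟨a, b⟩
  filter_upwards [hpair τ1 hτ10, ev_lV w (1 / 4) (by norm_num), ev_gam w 1 one_pos, eta_window (ε / 64) (by positivity), hbig,
    eventually_ge_atTop (2 * Ww w + 4), tends_log.eventually_ge_atTop (2 * Ww w * (C₃ + 1) / τ1 ^ 2 + 1),
    tends_log.eventually_ge_atTop (16 * (W + 1) / (ε / 64) + (33 + 64 * W ^ 2) * 16 / (5 * ε) + 8)] with X h1 h2 h6 h4 h5 h7 h8 h9 σ hσ K hK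
  obtain ⟨Ex, hEx, hp⟩ := h1
  have hX1 : 1 ≤ X := by omega
  have hX0 : (0 : ℝ) < X := by exact_mod_cast (by omega : 0 < X)
  have hq : 0 < 2 * Ww w * (C₃ + 1) / τ1 ^ 2 := by positivity
  have hq1 : 0 ≤ 16 * (W + 1) / (ε / 64) := by positivity
  have hq2 : 0 ≤ (33 + 64 * W ^ 2) * 16 / (5 * ε) := by positivity
  set L := Real.log (X : ℝ) with hL
  have hL8 : 8 ≤ L := by linarith
  have hL1 : 1 ≤ L := by linarith
  have hL0 : 0 < L := by linarith
  have hδL : 16 * (W + 1) ≤ (ε / 64) * L := by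
    have : 16 * (W + 1) / (ε / 64) ≤ L := by linarith
    rw [div_le_iff₀ (by positivity)] at this
    linarith
  have hLW : (33 + 64 * W ^ 2) * 16 ≤ 5 * ε * L := by
    have : (33 + 64 * W ^ 2) * 16 / (5 * ε) ≤ L := by linarith
    rw [div_le_iff₀ (by positivity)] at this
    linarith
  -- the parameters
  set S := Real.sqrt (2 * K) with hSd
  have hKpos : (0 : ℝ) < K := lt_of_lt_of_le (by positivity) hK
  have hS2 : S ^ 2 = 2 * K := Real.sq_sqrt (by positivity)
  have hS0 : 0 < S := Real.sqrt_pos.2 (by positivity)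
  have hSL : 128 * L ≤ ε * S := by
    have h10 : 128 * L / ε ≤ S := by
      apply Real.le_sqrt_of_sq_le
      have : (128 * L / ε) ^ 2 = 2 * (8192 / ε ^ 2 * L ^ 2) := by
        rw [div_pow]; ring
      rw [this]; linarith
    rw [div_le_iff₀ hε] at h10
    linarith
  set a := 1 - ε / 2 with ha
  have ha0 : 1 / 2 ≤ a := by rw [ha]; linarith
  have ha1 : a ≤ 1 := by rw [ha]; linarith
  set t := 1 + σ * (2 * a * L / S) with ht
  have hx : t - 1 = σ * (2 * a * L / S) := by rw [ht]; ring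
  have hσa : |σ| = 1 := by rcases hσ with h | h <;> rw [h] <;> simp
  have hξ0 : 0 ≤ 2 * a * L / S := by positivity
  have hξε : 2 * a * L / S ≤ ε / 64 := by
    rw [div_le_iff₀ hS0]
    nlinarith
  have hxa : |t - 1| = 2 * a * L / S := by rw [hx, abs_mul, hσa, one_mul, abs_of_nonneg hξ0]
  have ht2 : |t - 1| ≤ 1 / 2 := by rw [hxa]; linarith
  obtain ⟨t1, t2⟩ := abs_le.1 ht2
  obtain ⟨l1, l2, l3⟩ := h2 t ht2
  have hKt : (K : ℝ) * (t - 1) ^ 2 ≤ 2 * L ^ 2 := by
    have e1 : (t - 1) ^ 2 = (2 * a * L / S) ^ 2 := by rw [← sq_abs, hxa]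
    have e2 : (K : ℝ) * (2 * a * L / S) ^ 2 = 2 * a ^ 2 * L ^ 2 := by
      have : (K : ℝ) = S ^ 2 / 2 := by linarith
      rw [this]; field_simp
    rw [e1, e2]
    have : a ^ 2 ≤ 1 := by nlinarith
    have := mul_le_mul_of_nonneg_right this (show 0 ≤ 2 * L ^ 2 by positivity)
    linarith
  have hγ0 : 0 ≤ gam w X := le_trans (by positivity) h6.1
  have hγ1 := h6.2.2
  have hr2 : |rX w t X - 1| ≤ 1 / 4 := l3.trans l1
  have hr : |rX w t X - 1| ≤ 4 * |t - 1| * W / L := by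
    rw [le_div_iff₀ hL0]
    exact (mul_le_mul_of_nonneg_right l3 hL0.le).trans l2
  set J := X / Ww w with hJ
  have hJX : (X : ℝ) / (2 * Ww w) ≤ J := by
    have h9 := Nat.lt_div_mul_add hWpos (a := X)
    have h10 : (X : ℝ) < (J : ℝ) * Ww w + Ww w := by rw [hJ]; exact_mod_cast h9
    have h11 : (2 : ℝ) * Ww w ≤ X := by exact_mod_cast (by omega : 2 * Ww w ≤ X)
    rw [div_le_iff₀ (by positivity)]
    linarith
  have hJ0 : (0 : ℝ) < J := lt_of_lt_of_le (by positivity) hJX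
  have hJ0' : 0 < J := by exact_mod_cast hJ0
  have hT : (Icc 1 J).Nonempty := ⟨1, mem_Icc.2 ⟨le_rfl, hJ0'⟩⟩
  have hcardT : ((Icc 1 J).card : ℝ) = J := by rw [Nat.card_Icc, Nat.add_sub_cancel]
  have hpL : ∀ j ∈ Icc 1 J, |ej w X j * L - 1| ≤ ε / 64 := fun j hj => h4 _ (mul_div_le' w X j hj)
  have hp0 : ∀ j, 0 ≤ ej w X j := fun j => ej_nonneg w X j
  have hjpos : ∀ j ∈ Icc 1 J, 0 < j := fun j hj => (mem_Icc.1 hj).1
  have hGn : ∀ j (h : Fin K → ℕ), 0 ≤ Gj w t X j h := fun j h =>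
    prod_nonneg (fun i _ => gw_nonneg (by linarith) (by linarith) hγ0 hγ1 _ _)
  have haj : ∀ j ∈ Icc 1 J, 0 < aj w t X j := by
    intro j hj
    have f1 := (abs_le.1 (hpL j hj)).2
    have f0 := hp0 j
    have f2 : ej w X j ≤ 1 / 4 := by nlinarith
    obtain ⟨r1, r2⟩ := abs_le.1 hr2
    unfold aj
    have f3 : 0 ≤ rX w t X * ej w X j := mul_nonneg (by linarith) f0
    have f4 : rX w t X * ej w X j ≤ 5 / 16 := by nlinarith
    nlinarith
  have hajK : ∀ j ∈ Icc 1 J, 0 < aj w t X j ^ K := fun j hj => pow_pos (haj j hj) K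
  -- the weights
  set lo := (1 - ε) * S with hlo
  set hi := (1 - ε / 4) * S with hhi
  set H : ℕ → (Fin K → ℕ) → ℝ := fun j h => Hd w t X K σ lo hi j h with hH
  have hHn : ∀ j ∈ Icc 1 J, ∀ h, 0 ≤ H j h := by
    intro j hj h
    simp only [hH, Hd]
    split_ifs
    · exact div_nonneg (hGn j h) (hajK j hj).le
    · exact le_rfl
  have hHle : ∀ j ∈ Icc 1 J, ∀ h, H j h ≤ Gj w t X j h / aj w t X j ^ K := by
    intro j hj h
    simp only [hH, Hd]
    split_ifs
    · exact le_rfl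
    · exact div_nonneg (hGn j h) (hajK j hj).le
  set M : ℕ → ℝ := fun j => EK X K (H j) with hM
  have hEG : ∀ j ∈ Icc 1 J, EK X K (fun h => Gj w t X j h / aj w t X j ^ K) = 1 := by
    intro j hj
    have e : (fun h : Fin K → ℕ => Gj w t X j h / aj w t X j ^ K) = fun h => (aj w t X j ^ K)⁻¹ * Gj w t X j h := by
      funext h; rw [div_eq_inv_mul]
    rw [e, EK_const_mul, EK_Gj hX1 w t K (hjpos j hj), inv_mul_cancel₀ (hajK j hj).ne']
  have hM1 : ∀ j ∈ Icc 1 J, M j ≤ 1 := by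
    intro j hj
    rw [← hEG j hj]
    exact EK_mono (fun h _ => hHle j hj h)
  have hMlo : ∀ j ∈ Icc 1 J, 1 - τ1 ≤ M j := by
    intro j hj
    have T1 := tilt_tail (K := K) (ρ := -1) (c := 1 - ε) hX1 (hjpos j hj) rfl rfl (by linarith) hγ0 hγ1 hσ (Or.inr rfl) hL8 hWr.le hS2 hS0 hε hε1 ha hx hSL
      (hp0 j) (hpL j hj) rfl hr hr2 hδL rfl (by rw [ha]; linarith)
    have T2 := tilt_tail (K := K) (ρ := 1) (c := 1 - ε / 4) hX1 (hjpos j hj) rfl rfl (by linarith) hγ0 hγ1 hσ (Or.inl rfl) hL8 hWr.le hS2 hS0 hε hε1 ha hx hSL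
      (hp0 j) (hpL j hj) rfl hr hr2 hδL rfl (by rw [ha]; linarith)
    have hk := hajK j hj
    have hsplit : EK X K (fun h => Gj w t X j h) ≤ EK X K (fun h => aj w t X j ^ K * H j h) +
        (EK X K (fun h => if 0 < (-1 : ℝ) * (σ * ((Nm h (Ww w * j) : ℝ) - K * ej w X j) - (1 - ε) * S) then Gj w t X j h else 0) +
        EK X K (fun h => if 0 < (1 : ℝ) * (σ * ((Nm h (Ww w * j) : ℝ) - K * ej w X j) - (1 - ε / 4) * S) then Gj w t X j h else 0)) := by
      rw [← EK_add, ← EK_add]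
      apply EK_mono
      intro h _
      have hg := hGn j h
      by_cases c1 : lo ≤ σ * ((Nm h (Ww w * j) : ℝ) - K * ej w X j)
      · by_cases c2 : σ * ((Nm h (Ww w * j) : ℝ) - K * ej w X j) ≤ hi
        · have e1 : aj w t X j ^ K * H j h = Gj w t X j h := by
            simp only [hH, Hd]
            rw [if_pos ⟨c1, c2⟩, mul_div_cancel₀ _ hk.ne']
          rw [e1]
          have g1 : (0 : ℝ) ≤ (if 0 < (-1 : ℝ) * (σ * ((Nm h (Ww w * j) : ℝ) - K * ej w X j) - (1 - ε) * S) then Gj w t X j h else 0) := by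
            split_ifs
            · exact hg
            · exact le_rfl
          have g2 : (0 : ℝ) ≤ (if 0 < (1 : ℝ) * (σ * ((Nm h (Ww w * j) : ℝ) - K * ej w X j) - (1 - ε / 4) * S) then Gj w t X j h else 0) := by
            split_ifs
            · exact hg
            · exact le_rfl
          linarith
        · have g0 : 0 ≤ aj w t X j ^ K * H j h := mul_nonneg hk.le (hHn j hj h)
          have g1 : (0 : ℝ) ≤ (if 0 < (-1 : ℝ) * (σ * ((Nm h (Ww w * j) : ℝ) - K * ej w X j) - (1 - ε) * S) then Gj w t X j h else 0) := by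
            split_ifs
            · exact hg
            · exact le_rfl
          have g2 : (if 0 < (1 : ℝ) * (σ * ((Nm h (Ww w * j) : ℝ) - K * ej w X j) - (1 - ε / 4) * S) then Gj w t X j h else 0) = Gj w t X j h := by
            rw [if_pos]
            push Not at c2
            linarith
          linarith
      · have g0 : 0 ≤ aj w t X j ^ K * H j h := mul_nonneg hk.le (hHn j hj h)
        have g2 : (0 : ℝ) ≤ (if 0 < (1 : ℝ) * (σ * ((Nm h (Ww w * j) : ℝ) - K * ej w X j) - (1 - ε / 4) * S) then Gj w t X j h else 0) := by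
          split_ifs
          · exact hg
          · exact le_rfl
        have g1 : (if 0 < (-1 : ℝ) * (σ * ((Nm h (Ww w * j) : ℝ) - K * ej w X j) - (1 - ε) * S) then Gj w t X j h else 0) = Gj w t X j h := by
          rw [if_pos]
          push Not at c1
          linarith
        linarith
    rw [EK_Gj hX1 w t K (hjpos j hj), EK_const_mul] at hsplit
    have h10 : aj w t X j ^ K * 1 ≤ aj w t X j ^ K * (M j + 2 * Real.exp (-(ε ^ 2 * L / 128))) := by
      have : aj w t X j ^ K * (M j + 2 * Real.exp (-(ε ^ 2 * L / 128))) = aj w t X j ^ K * M j + (aj w t X j ^ K * Real.exp (-(ε ^ 2 * L / 128)) +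
          aj w t X j ^ K * Real.exp (-(ε ^ 2 * L / 128))) := by ring
      rw [this, mul_one]
      linarith
    have h11 := le_of_mul_le_mul_left h10 hk
    linarith [h5.1]
  have hM0 : ∀ j ∈ Icc 1 J, 0 < M j := fun j hj => by linarith [hMlo j hj]
  -- the pairs
  have hff0 : ∀ d : ℕ, 0 ≤ ff w C₁ τ1 Ex d := ff_nonneg w C₁ τ1 hτ10 Ex
  set f : ℕ → ℕ → ℝ := fun i j => 4 * τ1 + 2 * ff w C₁ τ1 Ex (j - i) with hf
  have hpairM : ∀ i ∈ Icc 1 J, ∀ j ∈ Icc 1 J, i < j → EK X K (fun h => H i h * H j h) ≤ M i * M j * (1 + f i j) := by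
    intro i hi' j hj hij
    have hki := hajK i hi'
    have hkj := hajK j hj
    have g1 : EK X K (fun h => H i h * H j h) ≤ (aj w t X i ^ K * aj w t X j ^ K)⁻¹ * gg w t X i j ^ K := by
      rw [← EK_GG, ← EK_const_mul]
      apply EK_mono
      intro h _
      calc H i h * H j h ≤ (Gj w t X i h / aj w t X i ^ K) * (Gj w t X j h / aj w t X j ^ K) :=
            mul_le_mul (hHle i hi' h) (hHle j hj h) (hHn j hj h) (div_nonneg (hGn i h) hki.le)
        _ = _ := by rw [div_mul_div_comm, div_eq_inv_mul]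
    have g2 : gg w t X i j ^ K ≤ (aj w t X i ^ K * aj w t X j ^ K) * (1 + ff w C₁ τ1 Ex (j - i)) := by
      obtain ⟨p1, p2⟩ := hp t ht2 K hKt i hi' j hj hij
      have q3 : 0 ≤ aj w t X i ^ K * aj w t X j ^ K := by positivity
      set c := 4 * (1 + 1) * ((0 : ℝ) - 1) ^ 2 / Vw w with hc
      have hc0 : 0 ≤ c := by
        have := Vw_pos w
        positivity
      have q4 : 1 ≤ Real.exp (c * (Real.exp (sw w (j - i)) - 1) + τ1) := by
        apply Real.one_le_exp
        have e1 : 1 ≤ Real.exp (sw w (j - i)) := Real.one_le_exp (sw_nonneg _ _)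
        have : 0 ≤ c * (Real.exp (sw w (j - i)) - 1) := mul_nonneg hc0 (by linarith)
        linarith
      by_cases hE : Ww w * (j - i) ∈ Ex
      · have q5 : Real.exp (C₁ * Real.exp (sw w (j - i))) ≤ 1 + ff w C₁ τ1 Ex (j - i) := by
          simp only [ff]
          rw [if_pos hE, ← hc]
          linarith
        exact p1.trans (mul_le_mul_of_nonneg_left q5 q3)
      · have q5 : Real.exp (c * (Real.exp (sw w (j - i)) - 1) + τ1) ≤ 1 + ff w C₁ τ1 Ex (j - i) := by
          simp only [ff]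
          rw [if_neg hE, ← hc]
          linarith
        exact (p2 hE).trans (mul_le_mul_of_nonneg_left q5 q3)
    have hkk : 0 < aj w t X i ^ K * aj w t X j ^ K := by positivity
    have g3 : EK X K (fun h => H i h * H j h) ≤ 1 + ff w C₁ τ1 Ex (j - i) := by
      refine g1.trans ?_
      rw [inv_mul_le_iff₀ hkk]
      exact g2
    refine g3.trans ?_
    have g4 : (1 - τ1) * (1 - τ1) ≤ M i * M j := mul_le_mul (hMlo i hi') (hMlo j hj) (by linarith) (hM0 i hi').le
    have hF := hff0 (j - i)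
    have g5 : 1 + ff w C₁ τ1 Ex (j - i) ≤ ((1 - τ1) * (1 - τ1)) * (1 + f i j) := by
      simp only [hf]
      nlinarith [mul_nonneg hτ10.le hF, mul_nonneg hτ10.le hτ10.le, mul_nonneg (mul_nonneg hτ10.le hτ10.le) hF]
    refine g5.trans (mul_le_mul_of_nonneg_right g4 ?_)
    simp only [hf]
    linarith
  have hf0 : ∀ i ∈ Icc 1 J, ∀ j ∈ Icc 1 J, 0 ≤ f i j := fun i _ j _ => by
    have := hff0 (j - i)
    simp only [hf]; linarith
  -- the diagonal
  set D := 4 * Real.exp ((1 - ε / 8) * L) with hD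
  have hdiagM : ∀ j ∈ Icc 1 J, EK X K (fun h => H j h * H j h) ≤ M j ^ 2 * D := by
    intro j hj
    have hk := hajK j hj
    have T3 := tilt_diag (K := K) hX1 (hjpos j hj) rfl rfl hγ0 hγ1 hσ hL8 hWr.le hS2 hS0 hε hε1 ha hx hSL (hp0 j) (hpL j hj) rfl hr hr2 l2 hLW
      (c1 := 1 - ε / 4) rfl
    have g1 : EK X K (fun h => H j h * H j h) ≤ ((aj w t X j ^ K) ^ 2)⁻¹ *
        EK X K (fun h => if σ * ((Nm h (Ww w * j) : ℝ) - K * ej w X j) ≤ (1 - ε / 4) * S then Gj w t X j h ^ 2 else 0) := by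
      rw [← EK_const_mul]
      apply EK_mono
      intro h _
      simp only [hH, Hd]
      by_cases c1 : lo ≤ σ * ((Nm h (Ww w * j) : ℝ) - K * ej w X j) ∧ σ * ((Nm h (Ww w * j) : ℝ) - K * ej w X j) ≤ hi
      · rw [if_pos c1, if_pos c1.2]
        apply le_of_eq
        rw [div_mul_div_comm, ← sq, ← sq, div_eq_inv_mul]
      · rw [if_neg c1, mul_zero]
        apply mul_nonneg (by positivity)
        split_ifs
        · positivity
        · exact le_rfl
    have g2 : EK X K (fun h => H j h * H j h) ≤ Real.exp ((1 - ε / 8) * L) := by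
      refine g1.trans ?_
      rw [inv_mul_le_iff₀ (by positivity)]
      exact T3
    refine g2.trans ?_
    have g3 : (1 / 4 : ℝ) ≤ M j ^ 2 := by
      have := hMlo j hj
      nlinarith
    have g4 : (1 / 4 : ℝ) * D ≤ M j ^ 2 * D := mul_le_mul_of_nonneg_right g3 (by positivity)
    rw [hD] at g4 ⊢
    linarith
  -- the sum of the majorants
  have hExJ : (Ex.card : ℝ) ≤ τ1 ^ 2 / (C₃ + 1) * J := by
    refine hEx.trans ?_
    have h9 : X / L ^ 6 ≤ X / L := by
      apply div_le_div_of_nonneg_left hX0.le hL0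
      calc L = L ^ 1 := (pow_one L).symm
        _ ≤ L ^ 6 := pow_le_pow_right₀ hL1 (by norm_num)
    have h10 : X / L ≤ τ1 ^ 2 / (C₃ + 1) * (X / (2 * Ww w)) := by
      rw [div_mul_div_comm, div_le_div_iff₀ hL0 (by positivity)]
      have h11 : 2 * Ww w * (C₃ + 1) / τ1 ^ 2 ≤ L := by linarith
      rw [div_le_iff₀ (by positivity)] at h11
      calc X * ((C₃ + 1) * (2 * Ww w)) = X * (2 * Ww w * (C₃ + 1)) := by ring
        _ ≤ X * (L * τ1 ^ 2) := mul_le_mul_of_nonneg_left h11 hX0.le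
        _ = _ := by ring
    have h12 : τ1 ^ 2 / (C₃ + 1) * (X / (2 * Ww w)) ≤ τ1 ^ 2 / (C₃ + 1) * J := mul_le_mul_of_nonneg_left hJX (by positivity)
    linarith
  set B := Real.exp τ1 * (1 + τ1) - 1 + τ1 with hB
  have hsum1 := pair_sum_Icc (fun d => ff w C₁ τ1 Ex d) J (B * J) hff0 (ff_sum_Icc w C₁ τ1 C₃ hC₃0 hτ10 hmain hC₃ J Ex hExJ)
  have hfsum : ∑ i ∈ Icc 1 J, ∑ j ∈ (Icc 1 J).filter (fun j => i < j), f i j ≤ (4 * τ1 + 2 * B) * (J : ℝ) ^ 2 := by
    have e1 : ∑ i ∈ Icc 1 J, ∑ j ∈ (Icc 1 J).filter (fun j => i < j), f i j =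
        4 * τ1 * ∑ i ∈ Icc 1 J, (((Icc 1 J).filter (fun j => i < j)).card : ℝ) +
          2 * ∑ i ∈ Icc 1 J, ∑ j ∈ (Icc 1 J).filter (fun j => i < j), ff w C₁ τ1 Ex (j - i) := by
      rw [mul_sum, mul_sum, ← sum_add_distrib]
      apply sum_congr rfl
      intro i _
      simp only [hf]
      rw [sum_add_distrib, sum_const, nsmul_eq_mul, ← mul_sum]
      ring
    rw [e1]
    have e2 : ∑ i ∈ Icc 1 J, (((Icc 1 J).filter (fun j => i < j)).card : ℝ) ≤ (J : ℝ) ^ 2 := by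
      calc ∑ i ∈ Icc 1 J, (((Icc 1 J).filter (fun j => i < j)).card : ℝ) ≤ ∑ i ∈ Icc 1 J, (J : ℝ) := by
            apply sum_le_sum
            intro i _
            rw [← hcardT]
            exact_mod_cast card_filter_le _ _
        _ = _ := by rw [sum_const, nsmul_eq_mul, hcardT]; ring
    have e3 := mul_le_mul_of_nonneg_left e2 (show 0 ≤ 4 * τ1 by positivity)
    linarith
  have hDT : 2 * D ≤ τ * ((Icc 1 J).card : ℝ) := by
    rw [hcardT]
    have hXe : (X : ℝ) = Real.exp ((1 - ε / 8) * L) * Real.exp (ε / 8 * L) := by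
      rw [← Real.exp_add]
      have : (1 - ε / 8) * L + ε / 8 * L = L := by ring
      rw [this, hL, Real.exp_log hX0]
    have h13 : 16 * W ≤ τ * Real.exp (ε / 8 * L) := by
      have := h5.2
      rw [div_le_iff₀ hτ0] at this
      linarith
    have h14 : 8 * Real.exp ((1 - ε / 8) * L) * (2 * W) ≤ τ * X := by
      rw [hXe]
      calc 8 * Real.exp ((1 - ε / 8) * L) * (2 * W) = Real.exp ((1 - ε / 8) * L) * (16 * W) := by ring
        _ ≤ Real.exp ((1 - ε / 8) * L) * (τ * Real.exp (ε / 8 * L)) := mul_le_mul_of_nonneg_left h13 (Real.exp_pos _).le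
        _ = _ := by ring
    have h15 : 8 * Real.exp ((1 - ε / 8) * L) ≤ τ * (X / (2 * W)) := by
      rw [← mul_div_assoc, le_div_iff₀ (by positivity)]
      exact h14
    have h16 := mul_le_mul_of_nonneg_left hJX hτ0.le
    rw [hD]
    linarith
  have hfin := sm_abs hX1 (Icc 1 J) hT H M 2 D τ (by norm_num) hτ0 (fun j _ => rfl) hM0
    (fun i hi' j hj => by linarith [hM1 i hi', hMlo j hj]) f hf0 hpairM (by positivity) hdiagM
    (by
      rw [hcardT]
      calc 2 * (2 : ℝ) ^ 2 * ∑ i ∈ Icc 1 J, ∑ j ∈ (Icc 1 J).filter (fun j => i < j), f i j ≤ 2 * (2 : ℝ) ^ 2 * ((4 * τ1 + 2 * B) * (J : ℝ) ^ 2) :=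
            mul_le_mul_of_nonneg_left hfsum (by norm_num)
        _ = (8 * (4 * τ1 + 2 * B)) * (J : ℝ) ^ 2 := by ring
        _ ≤ τ * (J : ℝ) ^ 2 := mul_le_mul_of_nonneg_right hτ1 (sq_nonneg _)) hDT
  refine le_trans (PK_mono ?_) (hfin.trans (le_of_eq (by rw [hτ]; ring)))
  intro h _ hh j hj
  simp only [hH, Hd]
  rw [if_neg]
  rintro ⟨c1, _⟩
  have := hh (Ww w * j) (mem_Icc.2 ⟨Nat.mul_pos hWpos (hjpos j hj), mul_div_le' w X j hj⟩)
  have e : E1 X (pr (Ww w * j)) = ej w X j := rfl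
  rw [e] at this
  linarith

end Pool.Agent.N735.CL
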