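import Mathlib
import Pool.Agent.N735.CL.Wait

set_option autoImplicit false
set_option maxHeartbeats 2000000

/-! Sparse sets of translates: the ingredients. -/

namespace Pool.Agent.N735.CL

open Finset Filter Topology Asymptotics
open Pool.Agent.H646 (rat)

lemma two_pow_omega (d : ℕ) (hd : 0 < d) : (d.primeFactors.card : ℝ) * Real.log 2 ≤ Real.log d := by
  have h1 : 2 ^ d.primeFactors.card ≤ d := by
    calc 2 ^ d.primeFactors.card = ∏ _p ∈ d.primeFactors, 2 := by rw [prod_const]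
      _ ≤ ∏ p ∈ d.primeFactors, p := prod_le_prod' (fun p hp => (Nat.prime_of_mem_primeFactors hp).two_le)
      _ ≤ d := Nat.le_of_dvd hd (Nat.prod_primeFactors_dvd d)
  have h2 : ((2 : ℝ) ^ d.primeFactors.card) ≤ d := by exact_mod_cast h1
  have h3 := Real.log_le_log (by positivity) h2
  rwa [Real.log_pow] at h3

lemma rat_loglog : ∃ C : ℝ, 0 < C ∧ ∀ᶠ X : ℕ in atTop, ∀ d ∈ Icc 1 X, rat d ≤ C * Real.log (Real.log X) := by
  obtain ⟨C, hC⟩ := Pool.Agent.Helper256.KM.mertens_inv
  refine ⟨Real.exp (C + 4), Real.exp_pos _, ?_⟩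
  filter_upwards [tends_log.eventually_ge_atTop 4, eventually_ge_atTop 1] with X hL hX d hd
  rw [mem_Icc] at hd
  set L := Real.log (X : ℝ) with hLd
  have hd0 : 0 < d := hd.1
  rw [rat_eq d hd0]
  set Y := ⌊L⌋₊ with hY
  have hY4 : 4 ≤ Y := Nat.le_floor (by exact_mod_cast hL)
  have hYL : (Y : ℝ) ≤ L := Nat.floor_le (by linarith)
  have hfac : ∀ p ∈ d.primeFactors, (0 : ℝ) ≤ (1 - 1 / (p : ℝ))⁻¹ ∧
      (1 - 1 / (p : ℝ))⁻¹ ≤ Real.exp (1 / ((p : ℝ) - 1)) := by
    intro p hp
    have hp2 : (2 : ℝ) ≤ p := by exact_mod_cast (Nat.prime_of_mem_primeFactors hp).two_le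
    have hp1 : (0 : ℝ) < (p : ℝ) - 1 := by linarith
    have hp0 : (0 : ℝ) < p := by linarith
    have h1 : (1 - 1 / (p : ℝ))⁻¹ = 1 + 1 / ((p : ℝ) - 1) := by
      have : (1 : ℝ) - 1 / p = ((p : ℝ) - 1) / p := by field_simp
      rw [this, inv_div]
      field_simp
      ring
    rw [h1]
    constructor
    · positivity
    · linarith [Real.add_one_le_exp (1 / ((p : ℝ) - 1))]
  refine (prod_le_prod (fun p hp => (hfac p hp).1) (fun p hp => (hfac p hp).2)).trans ?_
  rw [← Real.exp_sum]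
  have hsum : ∑ p ∈ d.primeFactors, 1 / ((p : ℝ) - 1) ≤ Real.log (Real.log Y) + (C + 4) := by
    have e1 : ∑ p ∈ d.primeFactors, 1 / ((p : ℝ) - 1) =
        ∑ p ∈ d.primeFactors, (1 / ((p : ℝ) - 1) - 1 / p) + ∑ p ∈ d.primeFactors, 1 / (p : ℝ) := by
      rw [← sum_add_distrib]; apply sum_congr rfl; intro p _; ring
    have e2 : ∑ p ∈ d.primeFactors, (1 / ((p : ℝ) - 1) - 1 / p) ≤ 1 := by
      have h1 := telesc 1 d le_rfl
      have h2 : d.primeFactors = (d.primeFactors) := rfl
      refine le_trans (sum_le_sum_of_subset_of_nonneg (t := (Ioc 1 d).filter Nat.Prime) ?_ ?_) (h1.trans (by norm_num))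
      · intro p hp
        rw [mem_filter, mem_Ioc]
        exact ⟨⟨(Nat.prime_of_mem_primeFactors hp).one_lt, Nat.le_of_mem_primeFactors hp⟩, Nat.prime_of_mem_primeFactors hp⟩
      · intro p hp _
        have hp2 : (2 : ℝ) ≤ p := by exact_mod_cast (mem_filter.1 hp).2.two_le
        have : 1 / (p : ℝ) ≤ 1 / ((p : ℝ) - 1) := one_div_le_one_div_of_le (by linarith) (by linarith)
        linarith
    have e3 : ∑ p ∈ d.primeFactors, 1 / (p : ℝ) ≤ Real.log (Real.log Y) + C + 2 := by
      rw [← sum_filter_add_sum_filter_not d.primeFactors (fun p => p ≤ Y)]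
      have f1 : ∑ p ∈ d.primeFactors.filter (fun p => p ≤ Y), 1 / (p : ℝ) ≤ Real.log (Real.log Y) + C := by
        have g1 := (abs_le.1 (hC Y (by omega))).2
        refine le_trans (sum_le_sum_of_subset_of_nonneg (t := (Icc 1 Y).filter Nat.Prime) ?_ ?_) (show _ ≤ _ by linarith)
        · intro p hp
          rw [mem_filter] at hp
          rw [mem_filter, mem_Icc]
          have := Nat.prime_of_mem_primeFactors hp.1
          exact ⟨⟨this.pos, hp.2⟩, this⟩
        · intro p _ _
          positivity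
      have f2 : ∑ p ∈ d.primeFactors.filter (fun p => ¬ p ≤ Y), 1 / (p : ℝ) ≤ 2 := by
        have g1 : ∀ p ∈ d.primeFactors.filter (fun p => ¬ p ≤ Y), 1 / (p : ℝ) ≤ 1 / L := by
          intro p hp
          rw [mem_filter, not_le] at hp
          have : L < (p : ℝ) := by
            have h1 : L < (Y : ℝ) + 1 := Nat.lt_floor_add_one _
            have h2 : (Y : ℝ) + 1 ≤ p := by exact_mod_cast hp.2
            linarith
          exact one_div_le_one_div_of_le (by linarith) this.le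
        refine (sum_le_sum g1).trans ?_
        rw [sum_const, nsmul_eq_mul]
        have g2 := two_pow_omega d hd0
        have g3 : ((d.primeFactors.filter (fun p => ¬ p ≤ Y)).card : ℝ) ≤ d.primeFactors.card := by
          exact_mod_cast card_filter_le _ _
        have g4 : Real.log (d : ℝ) ≤ L := Real.log_le_log (by exact_mod_cast hd0) (by exact_mod_cast hd.2)
        have g5 : (1 : ℝ) / 2 ≤ Real.log 2 := by linarith [Real.log_two_gt_d9]
        have g6 : (0 : ℝ) ≤ (d.primeFactors.card : ℝ) := Nat.cast_nonneg _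
        rw [mul_one_div, div_le_iff₀ (by linarith)]
        nlinarith
      linarith
    linarith
  refine (Real.exp_le_exp.2 hsum).trans ?_
  have hY4r : (4 : ℝ) ≤ Y := by exact_mod_cast hY4
  have hlogY : 0 < Real.log (Y : ℝ) := Real.log_pos (by linarith)
  rw [Real.exp_add, Real.exp_log hlogY, mul_comm]
  apply mul_le_mul_of_nonneg_left _ (Real.exp_pos _).le
  exact Real.log_le_log (by linarith) hYL

/-- the mean value of the product for a finite set of translates -/
noncomputable def aT (X : ℕ) (T : Finset ℕ) : ℝ := E1 X (fun a => ∏ m ∈ T, tf 0 m a)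

lemma prod_tf0_nonneg (T : Finset ℕ) (a : ℕ) : 0 ≤ ∏ m ∈ T, tf 0 m a :=
  prod_nonneg (fun m _ => by unfold tf; split_ifs <;> norm_num)

lemma prod_tf0_le_one (T : Finset ℕ) (a : ℕ) : ∏ m ∈ T, tf 0 m a ≤ 1 :=
  prod_le_one (fun m _ => by unfold tf; split_ifs <;> norm_num) (fun m _ => by unfold tf; split_ifs <;> norm_num)

lemma prod_tf0_ge (T : Finset ℕ) (a : ℕ) : 1 - ∑ m ∈ T, pr m a ≤ ∏ m ∈ T, tf 0 m a := by
  classical
  induction T using Finset.induction_on with
  | empty => simp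
  | insert b T hb ih =>
    rw [sum_insert hb, prod_insert hb, tf_eq]
    have h1 := prod_tf0_le_one T a
    have h2 := prod_tf0_nonneg T a
    have h3 := pr_nonneg b a
    have h4 := pr_le_one b a
    nlinarith

lemma aT_nonneg (X : ℕ) (T : Finset ℕ) : 0 ≤ aT X T := E1_nonneg (fun a _ => prod_tf0_nonneg T a)

lemma E1_sum {X : ℕ} {ι : Type*} (s : Finset ι) (Φ : ι → ℕ → ℝ) :
    E1 X (fun v => ∑ j ∈ s, Φ j v) = ∑ j ∈ s, E1 X (Φ j) := by
  unfold E1
  rw [sum_comm, sum_div]

lemma E1_sub {X : ℕ} (f g : ℕ → ℝ) : E1 X (fun v => f v - g v) = E1 X f - E1 X g := by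
  unfold E1
  rw [sum_sub_distrib, sub_div]

lemma aT_ge {X : ℕ} (hX : 1 ≤ X) (T : Finset ℕ) : 1 - ∑ m ∈ T, E1 X (pr m) ≤ aT X T := by
  have h : 1 - ∑ m ∈ T, E1 X (pr m) = E1 X (fun a => 1 - ∑ m ∈ T, pr m a) := by
    rw [E1_sub, E1_const hX, E1_sum]
  rw [h]
  exact E1_mono (fun a _ => prod_tf0_ge T a)

lemma aT_le {X : ℕ} (hX : 1 ≤ X) (Q : ℝ) (hQ : 0 ≤ Q) (T : Finset ℕ)
    (h : ∀ m ∈ T, ∀ m' ∈ T, m ≠ m' → E1 X (fun a => pr m a * pr m' a) ≤ Q) :
    aT X T ≤ 1 - ∑ m ∈ T, E1 X (pr m) + (T.card : ℝ) ^ 2 * Q := by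
  classical
  induction T using Finset.induction_on with
  | empty =>
    unfold aT
    simp only [prod_empty, sum_empty, card_empty, Nat.cast_zero]
    rw [E1_const hX]
    norm_num
  | insert b T hb ih =>
    have ih' := ih (fun m hm m' hm' hne => h m (mem_insert_of_mem hm) m' (mem_insert_of_mem hm') hne)
    rw [sum_insert hb, card_insert_of_notMem hb]
    have e1 : aT X (insert b T) = aT X T - E1 X (fun a => pr b a * ∏ m ∈ T, tf 0 m a) := by
      unfold aT
      rw [← E1_sub]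
      apply E1_congr
      intro a _
      rw [prod_insert hb, tf_eq]
      ring
    have e2 : E1 X (pr b) - ∑ m ∈ T, E1 X (fun a => pr b a * pr m a) ≤ E1 X (fun a => pr b a * ∏ m ∈ T, tf 0 m a) := by
      have e3 : E1 X (pr b) - ∑ m ∈ T, E1 X (fun a => pr b a * pr m a) = E1 X (fun a => pr b a * (1 - ∑ m ∈ T, pr m a)) := by
        rw [← E1_sum, ← E1_sub]
        apply E1_congr
        intro a _
        rw [mul_sub, mul_one, mul_sum]
      rw [e3]
      exact E1_mono (fun a _ => mul_le_mul_of_nonneg_left (prod_tf0_ge T a) (pr_nonneg b a))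
    have e4 : ∑ m ∈ T, E1 X (fun a => pr b a * pr m a) ≤ T.card * Q := by
      have : ∀ m ∈ T, E1 X (fun a => pr b a * pr m a) ≤ Q := fun m hm =>
        h b (mem_insert_self _ _) m (mem_insert_of_mem hm) (fun hbm => hb (hbm ▸ hm))
      refine (sum_le_sum this).trans (le_of_eq ?_)
      rw [sum_const, nsmul_eq_mul]
    rw [e1]
    push_cast
    have hc : (0 : ℝ) ≤ T.card := Nat.cast_nonneg _
    nlinarith

/-- the number of the `m` in `S` such that no `m + h i` is prime -/
def fails (S : Finset ℕ) {K : ℕ} (h : Fin K → ℕ) : ℕ := (S.filter (fun m => Nm h m = 0)).card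

lemma EK_choose {X : ℕ} (S : Finset ℕ) (K r : ℕ) :
    EK X K (fun h => ((fails S h).choose r : ℝ)) = ∑ T ∈ powersetCard r S, (aT X T) ^ K := by
  classical
  have h1 : ∀ h : Fin K → ℕ, ((fails S h).choose r : ℝ) = ∑ T ∈ powersetCard r S, ∏ i, ∏ m ∈ T, tf 0 m (h i) := by
    intro h
    have e2 : ∀ T ∈ powersetCard r S, ∏ i, ∏ m ∈ T, tf 0 m (h i) = if T ⊆ S.filter (fun m => Nm h m = 0) then 1 else 0 := by
      intro T hT
      rw [mem_powersetCard] at hT
      rw [Finset.prod_comm]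
      simp_rw [prod_tf]
      split_ifs with hT2
      · apply prod_eq_one
        intro m hm
        rw [(mem_filter.1 (hT2 hm)).2, pow_zero]
      · obtain ⟨m, hm, hmn⟩ := not_subset.1 hT2
        apply prod_eq_zero hm
        rw [mem_filter, not_and] at hmn
        exact zero_pow (hmn (hT.1 hm))
    rw [sum_congr rfl e2, ← sum_filter, sum_const, nsmul_eq_mul, mul_one]
    unfold fails
    rw [← card_powersetCard]
    congr 2
    ext T
    rw [mem_filter, mem_powersetCard, mem_powersetCard]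
    constructor
    · rintro ⟨a, b⟩
      exact ⟨⟨a.trans (filter_subset _ _), b⟩, a⟩
    · rintro ⟨⟨_, b⟩, c⟩
      exact ⟨c, b⟩
  rw [EK_congr (fun h _ => h1 h), EK_sum]
  apply sum_congr rfl
  intro T _
  exact EK_prod X K (fun a => ∏ m ∈ T, tf 0 m a)

end Pool.Agent.N735.CL
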