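import Mathlib
import Pool.Agent.N735.CL.Gum

set_option autoImplicit false
set_option maxHeartbeats 2000000

/-! Sparse sets of translates: the limit law. -/

namespace Pool.Agent.N735.CL

open Finset Filter Topology Asymptotics
open Pool.Agent.H646 (rat)

/-- `X → ∞`, `S ⊆ {1, ..., X}`, `|S| → ∞`, `log |S| = o(log X / log log X)` -/
noncomputable def gf : Filter (ℕ × Finset ℕ) :=
  ((comap Prod.fst atTop ⊓ comap (fun x : ℕ × Finset ℕ => x.2.card) atTop) ⊓
    comap (fun x : ℕ × Finset ℕ => Real.log x.2.card * Real.log (Real.log x.1) / Real.log x.1) (𝓝 0)) ⊓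
    𝓟 {x : ℕ × Finset ℕ | x.2 ⊆ Icc 1 x.1}

lemma gf_X : Tendsto (fun x : ℕ × Finset ℕ => x.1) gf atTop :=
  tendsto_comap.mono_left ((inf_le_left.trans inf_le_left).trans inf_le_left)

lemma gf_M : Tendsto (fun x : ℕ × Finset ℕ => x.2.card) gf atTop :=
  tendsto_comap.mono_left ((inf_le_left.trans inf_le_left).trans inf_le_right)

lemma gf_q : Tendsto (fun x : ℕ × Finset ℕ => Real.log x.2.card * Real.log (Real.log x.1) / Real.log x.1) gf (𝓝 0) :=
  tendsto_comap.mono_left (inf_le_left.trans inf_le_right)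

lemma gf_S : ∀ᶠ x in gf, x.2 ⊆ Icc 1 x.1 :=
  (inf_le_right : gf ≤ _) (mem_principal_self _)

lemma gf_L : Tendsto (fun x : ℕ × Finset ℕ => Real.log (x.1 : ℝ)) gf atTop := tends_log.comp gf_X

lemma gf_LL : Tendsto (fun x : ℕ × Finset ℕ => Real.log (Real.log (x.1 : ℝ))) gf atTop :=
  Real.tendsto_log_atTop.comp gf_L

lemma gf_lM : Tendsto (fun x : ℕ × Finset ℕ => Real.log (x.2.card : ℝ)) gf atTop := tends_log.comp gf_M

/-- the length of the patterns -/
noncomputable def Kt (t : ℝ) (X : ℕ) (M : ℕ) : ℕ := ⌊Real.log X * (Real.log M + t)⌋₊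

lemma Kt_1 (t : ℝ) : Tendsto (fun x : ℕ × Finset ℕ => (Kt t x.1 x.2.card : ℝ) / Real.log x.1 - Real.log x.2.card) gf (𝓝 t) := by
  have h1 : Tendsto (fun x : ℕ × Finset ℕ => t - 1 / Real.log (x.1 : ℝ)) gf (𝓝 t) := by
    have : Tendsto (fun x : ℕ × Finset ℕ => 1 / Real.log (x.1 : ℝ)) gf (𝓝 0) := by
      simp only [one_div]
      exact gf_L.inv_tendsto_atTop
    simpa using tendsto_const_nhds.sub this
  refine tendsto_of_tendsto_of_tendsto_of_le_of_le' h1 tendsto_const_nhds ?_ ?_
  · filter_upwards [gf_L.eventually_ge_atTop 1] with x hL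
    have hL0 : 0 < Real.log (x.1 : ℝ) := by linarith
    have h2 : Real.log (x.1 : ℝ) * (Real.log x.2.card + t) < (Kt t x.1 x.2.card : ℝ) + 1 := Nat.lt_floor_add_one _
    have h3 : t - 1 / Real.log (x.1 : ℝ) = (Real.log (x.1 : ℝ) * (Real.log x.2.card + t) - 1) / Real.log x.1 - Real.log x.2.card := by
      field_simp
      ring
    rw [h3]
    have : (Real.log (x.1 : ℝ) * (Real.log x.2.card + t) - 1) / Real.log x.1 ≤ (Kt t x.1 x.2.card : ℝ) / Real.log x.1 :=
      div_le_div_of_nonneg_right (by linarith) hL0.le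
    linarith
  · filter_upwards [gf_L.eventually_ge_atTop 1, gf_lM.eventually_ge_atTop |t|] with x hL hM
    have hL0 : 0 < Real.log (x.1 : ℝ) := by linarith
    have h0 : 0 ≤ Real.log (x.2.card : ℝ) + t := by linarith [neg_abs_le t]
    have h2 : (Kt t x.1 x.2.card : ℝ) ≤ Real.log (x.1 : ℝ) * (Real.log x.2.card + t) := Nat.floor_le (by positivity)
    have h3 : (Kt t x.1 x.2.card : ℝ) / Real.log x.1 ≤ Real.log x.2.card + t := by
      rw [div_le_iff₀ hL0]; linarith
    linarith

lemma Kt_2 (t : ℝ) : Tendsto (fun x : ℕ × Finset ℕ => (Kt t x.1 x.2.card : ℝ) * (Real.log (Real.log x.1) / Real.log x.1 ^ 2)) gf (𝓝 0) := by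
  have h1 : Tendsto (fun x : ℕ × Finset ℕ => 2 * (Real.log x.2.card * Real.log (Real.log x.1) / Real.log x.1)) gf (𝓝 0) := by
    simpa using gf_q.const_mul 2
  refine squeeze_zero' ?_ ?_ h1
  · filter_upwards [gf_LL.eventually_ge_atTop 1] with x h
    positivity
  · filter_upwards [gf_L.eventually_ge_atTop 1, gf_lM.eventually_ge_atTop |t|, gf_LL.eventually_ge_atTop 1] with x hL hM hLL
    have hL0 : 0 < Real.log (x.1 : ℝ) := by linarith
    have h0 : 0 ≤ Real.log (x.2.card : ℝ) + t := by linarith [neg_abs_le t]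
    have h2 : (Kt t x.1 x.2.card : ℝ) ≤ Real.log (x.1 : ℝ) * (Real.log x.2.card + t) := Nat.floor_le (by positivity)
    have h3 : (Kt t x.1 x.2.card : ℝ) ≤ Real.log (x.1 : ℝ) * (2 * Real.log x.2.card) := by
      refine h2.trans (mul_le_mul_of_nonneg_left ?_ hL0.le)
      linarith [le_abs_self t]
    calc (Kt t x.1 x.2.card : ℝ) * (Real.log (Real.log x.1) / Real.log x.1 ^ 2) ≤
        (Real.log (x.1 : ℝ) * (2 * Real.log x.2.card)) * (Real.log (Real.log x.1) / Real.log x.1 ^ 2) := by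
          apply mul_le_mul_of_nonneg_right h3
          positivity
      _ = _ := by field_simp

lemma Kt_3 (t : ℝ) : Tendsto (fun x : ℕ × Finset ℕ => (Kt t x.1 x.2.card : ℝ) / Real.log x.1 ^ 2) gf (𝓝 0) := by
  refine squeeze_zero' (Eventually.of_forall (fun x => by positivity)) ?_ (Kt_2 t)
  filter_upwards [gf_LL.eventually_ge_atTop 1] with x h
  rw [div_eq_mul_inv, div_eq_mul_inv]
  apply mul_le_mul_of_nonneg_left _ (Nat.cast_nonneg _)
  have : (0 : ℝ) ≤ (Real.log x.1 ^ 2)⁻¹ := by positivity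
  nlinarith

lemma choose_lim (r : ℕ) : Tendsto (fun x : ℕ × Finset ℕ => ((x.2.card.choose r : ℕ) : ℝ) * Real.exp (-(r * Real.log x.2.card))) gf
    (𝓝 (1 / r.factorial)) := by
  have h1 : Tendsto (fun M : ℕ => ((M.choose r : ℕ) : ℝ) * Real.exp (-(r * Real.log M))) atTop (𝓝 (1 / r.factorial)) := by
    have e1 : (fun M : ℕ => ((M.choose r : ℕ) : ℝ) * Real.exp (-(r * Real.log M))) ~[atTop]
        (fun M : ℕ => (M : ℝ) ^ r / r.factorial * Real.exp (-(r * Real.log M))) :=
      (isEquivalent_choose r).mul (IsEquivalent.refl (u := fun M : ℕ => Real.exp (-(r * Real.log M))))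
    refine (IsEquivalent.tendsto_nhds_iff e1).mpr ?_
    refine tendsto_const_nhds.congr' ?_
    filter_upwards [eventually_ge_atTop 1] with M hM
    have hM0 : (0 : ℝ) < M := by exact_mod_cast hM
    rw [Real.exp_neg, Real.exp_nat_mul, Real.exp_log hM0]
    field_simp
  exact h1.comp gf_M

/-- the factorial moments -/
theorem moment_lim (t : ℝ) (r : ℕ) : Tendsto (fun x : ℕ × Finset ℕ =>
    EK x.1 (Kt t x.1 x.2.card) (fun h => ((fails x.2 h).choose r : ℝ))) gf (𝓝 (Real.exp (-t) ^ r / r.factorial)) := by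
  obtain ⟨c, hc, hη⟩ := eta_precise
  obtain ⟨C₁, hC₁, hp⟩ := pc_all
  obtain ⟨C₂, hC₂, hr⟩ := rat_loglog
  set Q : ℝ := C₁ * C₂ with hQ
  have hQ0 : 0 < Q := by positivity
  -- the two bounds
  have hup : Tendsto (fun x : ℕ × Finset ℕ => (((x.2.card.choose r : ℕ) : ℝ) * Real.exp (-(r * Real.log x.2.card))) *
      Real.exp (-(r * ((Kt t x.1 x.2.card : ℝ) / Real.log x.1 - Real.log x.2.card)) +
        (r * c * ((Kt t x.1 x.2.card : ℝ) / Real.log x.1 ^ 2) +
          r ^ 2 * Q * ((Kt t x.1 x.2.card : ℝ) * (Real.log (Real.log x.1) / Real.log x.1 ^ 2))))) gf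
      (𝓝 (Real.exp (-t) ^ r / r.factorial)) := by
    have h1 : Tendsto (fun x : ℕ × Finset ℕ => -(r * ((Kt t x.1 x.2.card : ℝ) / Real.log x.1 - Real.log x.2.card)) +
        (r * c * ((Kt t x.1 x.2.card : ℝ) / Real.log x.1 ^ 2) +
          r ^ 2 * Q * ((Kt t x.1 x.2.card : ℝ) * (Real.log (Real.log x.1) / Real.log x.1 ^ 2)))) gf
        (𝓝 (-(r * t) + (r * c * 0 + r ^ 2 * Q * 0))) :=
      ((Kt_1 t).const_mul _).neg.add (((Kt_3 t).const_mul _).add ((Kt_2 t).const_mul _))
    have h2 := (choose_lim r).mul ((Real.continuous_exp.tendsto _).comp h1)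
    have e : 1 / (r.factorial : ℝ) * Real.exp (-(r * t) + (r * c * 0 + r ^ 2 * Q * 0)) = Real.exp (-t) ^ r / r.factorial := by
      rw [← Real.exp_nat_mul]
      have : -(r * t) + (r * c * 0 + r ^ 2 * Q * 0) = (r : ℝ) * -t := by ring
      rw [this]
      ring
    rw [e] at h2
    exact h2
  have hlo : Tendsto (fun x : ℕ × Finset ℕ => (((x.2.card.choose r : ℕ) : ℝ) * Real.exp (-(r * Real.log x.2.card))) *
      Real.exp (-(r * ((Kt t x.1 x.2.card : ℝ) / Real.log x.1 - Real.log x.2.card)) -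
        (r * c + 2 * (2 * r) ^ 2) * ((Kt t x.1 x.2.card : ℝ) / Real.log x.1 ^ 2))) gf
      (𝓝 (Real.exp (-t) ^ r / r.factorial)) := by
    have h1 : Tendsto (fun x : ℕ × Finset ℕ => -(r * ((Kt t x.1 x.2.card : ℝ) / Real.log x.1 - Real.log x.2.card)) -
        (r * c + 2 * (2 * r) ^ 2) * ((Kt t x.1 x.2.card : ℝ) / Real.log x.1 ^ 2)) gf
        (𝓝 (-(r * t) - (r * c + 2 * (2 * r) ^ 2) * 0)) :=
      ((Kt_1 t).const_mul _).neg.sub ((Kt_3 t).const_mul _)
    have h2 := (choose_lim r).mul ((Real.continuous_exp.tendsto _).comp h1)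
    have e : 1 / (r.factorial : ℝ) * Real.exp (-(r * t) - (r * c + 2 * (2 * r) ^ 2) * 0) = Real.exp (-t) ^ r / r.factorial := by
      rw [← Real.exp_nat_mul]
      have : -(r * t) - (r * c + 2 * (2 * r) ^ 2) * 0 = (r : ℝ) * -t := by ring
      rw [this]
      ring
    rw [e] at h2
    exact h2
  refine tendsto_of_tendsto_of_tendsto_of_le_of_le' hlo hup ?_ ?_
  · filter_upwards [gf_X.eventually hη, gf_S, gf_X.eventually_ge_atTop 1, gf_L.eventually_ge_atTop (c + 10 * r + 1)] with x h1 hS hX hL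
    obtain ⟨X, S⟩ := x
    simp only at h1 hS hX hL ⊢
    set L := Real.log (X : ℝ) with hLd
    set K := Kt t X S.card with hK
    have hL0 : 0 < L := by
      have : (0 : ℝ) ≤ 10 * r := by positivity
      linarith
    rw [EK_choose]
    set y := r / L + r * c / L ^ 2 with hy
    have hyL : y ≤ 2 * r / L := by
      have : r * c / L ^ 2 ≤ r / L := by
        rw [div_le_div_iff₀ (by positivity) hL0]
        have h3 : c ≤ L := by
          have : (0 : ℝ) ≤ 10 * r := by positivity
          linarith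
        have h4 : (0 : ℝ) ≤ r := Nat.cast_nonneg _
        calc (r : ℝ) * c * L ≤ r * L * L := by gcongr
          _ = r * L ^ 2 := by ring
      rw [hy]
      have e : 2 * (r : ℝ) / L = r / L + r / L := by ring
      linarith
    have hy0 : 0 ≤ y := by positivity
    have hy5 : y ≤ 1 / 5 := by
      refine hyL.trans ?_
      rw [div_le_iff₀ hL0]
      linarith
    have hT : ∀ T ∈ powersetCard r S, Real.exp (-(y + 2 * y ^ 2)) ^ K ≤ aT X T ^ K := by
      intro T hT
      rw [mem_powersetCard] at hT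
      apply pow_le_pow_left₀ (Real.exp_pos _).le
      refine le_trans ?_ (aT_ge hX T)
      have h2 : ∑ m ∈ T, E1 X (pr m) ≤ y := by
        have h3 : ∀ m ∈ T, E1 X (pr m) ≤ 1 / L + c / L ^ 2 := by
          intro m hm
          have := (abs_le.1 (h1 m (mem_Icc.1 (hS (hT.1 hm))).2)).2
          linarith
        refine (sum_le_sum h3).trans (le_of_eq ?_)
        rw [sum_const, nsmul_eq_mul, hT.2, hy]
        ring
      have h4 := exp_le_one_add (x := -y) (by rw [abs_neg, abs_of_nonneg hy0]; exact hy5)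
      have e : -y - 2 * (-y) ^ 2 = -(y + 2 * y ^ 2) := by ring
      rw [e] at h4
      linarith
    refine le_trans ?_ (card_nsmul_le_sum _ _ _ hT)
    rw [card_powersetCard, nsmul_eq_mul, ← Real.exp_nat_mul, mul_assoc, ← Real.exp_add]
    apply mul_le_mul_of_nonneg_left _ (Nat.cast_nonneg _)
    apply Real.exp_le_exp.2
    have hK0 : (0 : ℝ) ≤ K := Nat.cast_nonneg _
    have h5 : y ^ 2 ≤ (2 * r / L) ^ 2 := pow_le_pow_left₀ hy0 hyL 2
    have h6 : (K : ℝ) * (2 * y ^ 2) ≤ K * (2 * (2 * r / L) ^ 2) := by gcongr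
    have h7 : (K : ℝ) * -(y + 2 * y ^ 2) = -(K * (r / L + r * c / L ^ 2)) - K * (2 * y ^ 2) := by rw [hy]; ring
    rw [h7]
    have h8 : -(r * Real.log (S.card : ℝ)) + (-(r * ((K : ℝ) / L - Real.log S.card)) - (r * c + 2 * (2 * r) ^ 2) * ((K : ℝ) / L ^ 2)) =
      -(K * (r / L + r * c / L ^ 2)) - K * (2 * (2 * r / L) ^ 2) := by field_simp; ring
    rw [h8]
    linarith
  · filter_upwards [gf_X.eventually hη, gf_X.eventually hp, gf_X.eventually hr, gf_S, gf_X.eventually_ge_atTop 1,
      gf_L.eventually_ge_atTop 1, gf_LL.eventually_ge_atTop 1] with x h1 h2 h3 hS hX hL hLL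
    obtain ⟨X, S⟩ := x
    simp only at h1 h2 h3 hS hX hL hLL ⊢
    set L := Real.log (X : ℝ) with hLd
    set K := Kt t X S.card with hK
    have hL0 : 0 < L := by linarith
    rw [EK_choose]
    set z := -(r / L) + (r * c / L ^ 2 + r ^ 2 * (Q * Real.log L / L ^ 2)) with hz
    have hT : ∀ T ∈ powersetCard r S, aT X T ^ K ≤ Real.exp z ^ K := by
      intro T hT
      rw [mem_powersetCard] at hT
      apply pow_le_pow_left₀ (aT_nonneg X T)
      have hpair : ∀ m ∈ T, ∀ m' ∈ T, m < m' → E1 X (fun a => pr m a * pr m' a) ≤ Q * Real.log L / L ^ 2 := by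
        intro m hm m' hm' hlt
        have g1 := mem_Icc.1 (hS (hT.1 hm))
        have g2 := mem_Icc.1 (hS (hT.1 hm'))
        have g3 := h2 m (m' - m) (by omega)
        have g4 : m + (m' - m) = m' := by omega
        rw [g4] at g3
        have g5 := h3 (m' - m) (mem_Icc.2 ⟨by omega, by omega⟩)
        rw [le_div_iff₀ (by positivity)]
        refine g3.trans ?_
        calc C₁ * rat (m' - m) ≤ C₁ * (C₂ * Real.log L) := mul_le_mul_of_nonneg_left g5 hC₁.le
          _ = _ := by rw [hQ]; ring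
      have hpair2 : ∀ m ∈ T, ∀ m' ∈ T, m ≠ m' → E1 X (fun a => pr m a * pr m' a) ≤ Q * Real.log L / L ^ 2 := by
        intro m hm m' hm' hne
        rcases lt_or_gt_of_ne hne with h | h
        · exact hpair m hm m' hm' h
        · have := hpair m' hm' m hm h
          refine le_trans (le_of_eq ?_) this
          apply E1_congr
          intro a _
          ring
      have hQL : 0 ≤ Q * Real.log L / L ^ 2 := by positivity
      refine (aT_le hX _ hQL T hpair2).trans ?_
      have h4 : r * (1 / L - c / L ^ 2) ≤ ∑ m ∈ T, E1 X (pr m) := by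
        have h3 : ∀ m ∈ T, 1 / L - c / L ^ 2 ≤ E1 X (pr m) := by
          intro m hm
          have := (abs_le.1 (h1 m (mem_Icc.1 (hS (hT.1 hm))).2)).1
          linarith
        refine le_trans (le_of_eq ?_) (sum_le_sum h3)
        rw [sum_const, nsmul_eq_mul, hT.2]
      rw [hT.2]
      have h5 := Real.add_one_le_exp z
      have h6 : z = -(r * (1 / L - c / L ^ 2)) + r ^ 2 * (Q * Real.log L / L ^ 2) := by rw [hz]; ring
      rw [h6] at h5 ⊢
      linarith
    refine (sum_le_card_nsmul _ _ _ hT).trans ?_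
    rw [card_powersetCard, nsmul_eq_mul, ← Real.exp_nat_mul, mul_assoc, ← Real.exp_add]
    apply mul_le_mul_of_nonneg_left _ (Nat.cast_nonneg _)
    apply Real.exp_le_exp.2
    apply le_of_eq
    rw [hz]
    field_simp
    ring

lemma alt_choose (k N R : ℕ) (hR : 1 ≤ R) : |(if N = k then (1 : ℝ) else 0) - ∑ j ∈ range R, (-1) ^ j * ((k + j).choose k : ℝ) * (N.choose (k + j) : ℝ)| ≤
    ((k + (R - 1)).choose k : ℝ) * (N.choose (k + (R - 1)) : ℝ) := by
  rcases lt_or_ge N k with hN | hN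
  · rw [if_neg (by omega)]
    have : ∀ j ∈ range R, (-1 : ℝ) ^ j * ((k + j).choose k : ℝ) * (N.choose (k + j) : ℝ) = 0 := by
      intro j _
      rw [Nat.choose_eq_zero_of_lt (show N < k + j by omega)]
      simp
    rw [sum_congr rfl this, sum_const_zero, sub_zero, abs_zero]
    positivity
  · have e0 : ∀ j : ℕ, ((k + j).choose k : ℝ) * (N.choose (k + j) : ℝ) = (N.choose k : ℝ) * ((N - k).choose j : ℝ) := by
      intro j
      rcases le_or_gt (k + j) N with h | h
      · have := Nat.choose_mul (n := N) (k := k + j) (s := k) (show k ≤ k + j by omega)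
        have e : k + j - k = j := by omega
        rw [e] at this
        have h2 : ((k + j).choose k) * (N.choose (k + j)) = (N.choose k) * ((N - k).choose j) := by
          rw [mul_comm]; exact this
        exact_mod_cast h2
      · rw [Nat.choose_eq_zero_of_lt h, Nat.choose_eq_zero_of_lt (show N - k < j by omega)]
        simp
    have e1 : ∑ j ∈ range R, (-1 : ℝ) ^ j * ((k + j).choose k : ℝ) * (N.choose (k + j) : ℝ) =
        (N.choose k : ℝ) * ∑ j ∈ range R, (-1 : ℝ) ^ j * ((N - k).choose j : ℝ) := by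
      rw [mul_sum]
      apply sum_congr rfl
      intro j _
      rw [mul_assoc, e0]
      ring
    rw [e1, e0]
    obtain ⟨R', rfl⟩ : ∃ R', R = R' + 1 := ⟨R - 1, by omega⟩
    rw [Nat.add_sub_cancel]
    rcases Nat.eq_zero_or_pos (N - k) with h | h
    · have hNk : N = k := by omega
      rw [if_pos hNk, h, hNk, Nat.choose_self]
      rw [sum_range_succ']
      simp
    · rw [if_neg (by omega)]
      obtain ⟨n, hn⟩ : ∃ n, N - k = n + 1 := ⟨N - k - 1, by omega⟩
      have h2 : ∑ j ∈ range (R' + 1), (-1 : ℝ) ^ j * ((N - k).choose j : ℝ) = (-1) ^ R' * (n.choose R' : ℝ) := by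
        rw [hn]
        have := Int.alternating_sum_range_choose_eq_choose (n := n) (m := R')
        have h3 : ((∑ j ∈ range (R' + 1), (-1 : ℤ) ^ j * ((n + 1).choose j : ℤ) : ℤ) : ℝ) = (((-1) ^ R' * (n.choose R' : ℤ) : ℤ) : ℝ) := by
          rw [this]
        push_cast at h3
        exact h3
      rw [h2, zero_sub, abs_neg, abs_mul, abs_mul, abs_pow, abs_neg, abs_one, one_pow, one_mul, Nat.abs_cast, Nat.abs_cast]
      apply mul_le_mul_of_nonneg_left _ (Nat.cast_nonneg _)
      rw [hn]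
      exact_mod_cast Nat.choose_le_succ n R'

lemma tail_small (lam : ℝ) (k : ℕ) (θ : ℝ) (hθ : 0 < θ) : ∃ R : ℕ, 1 ≤ R ∧
    |∑ j ∈ range R, (-1) ^ j * ((k + j).choose k : ℝ) * (lam ^ (k + j) / (k + j).factorial) - Real.exp (-lam) * lam ^ k / k.factorial| ≤ θ ∧
    |((k + (R - 1)).choose k : ℝ) * (lam ^ (k + (R - 1)) / (k + (R - 1)).factorial)| ≤ θ := by
  have hch : ∀ j : ℕ, ((k + j).choose k : ℝ) * (lam ^ (k + j) / (k + j).factorial) = lam ^ k / k.factorial * (lam ^ j / j.factorial) := by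
    intro j
    have h1 : (k + j).choose k * k.factorial * j.factorial = (k + j).factorial := by
      have := Nat.choose_mul_factorial_mul_factorial (show k ≤ k + j by omega)
      rwa [Nat.add_sub_cancel_left] at this
    have h2 : ((k + j).choose k : ℝ) * k.factorial * j.factorial = (k + j).factorial := by exact_mod_cast h1
    have h3 : ((k + j).factorial : ℝ) ≠ 0 := by positivity
    have h4 : (k.factorial : ℝ) ≠ 0 := by positivity
    have h5 : (j.factorial : ℝ) ≠ 0 := by positivity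
    rw [← h2, pow_add]
    have h6 : ((k + j).choose k : ℝ) ≠ 0 := by
      intro h0
      rw [h0] at h2
      simp at h2
      exact h3 (by exact_mod_cast h2.symm)
    field_simp
  have h1 : Tendsto (fun R => ∑ j ∈ range R, (-lam) ^ j / j.factorial) atTop (𝓝 (Real.exp (-lam))) := by
    have := (NormedSpace.expSeries_div_hasSum_exp (-lam)).tendsto_sum_nat
    rwa [← Real.exp_eq_exp_ℝ] at this
  have h2 : Tendsto (fun R => ∑ j ∈ range R, (-1) ^ j * ((k + j).choose k : ℝ) * (lam ^ (k + j) / (k + j).factorial)) atTop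
      (𝓝 (Real.exp (-lam) * lam ^ k / k.factorial)) := by
    have h3 := h1.const_mul (lam ^ k / k.factorial)
    have e : lam ^ k / k.factorial * Real.exp (-lam) = Real.exp (-lam) * lam ^ k / k.factorial := by ring
    rw [e] at h3
    refine h3.congr ?_
    intro R
    rw [mul_sum]
    apply sum_congr rfl
    intro j _
    rw [mul_assoc, hch, neg_pow]
    ring
  have h3 : Tendsto (fun R : ℕ => ((k + (R - 1)).choose k : ℝ) * (lam ^ (k + (R - 1)) / (k + (R - 1)).factorial)) atTop (𝓝 0) := by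
    have h4 : Tendsto (fun j : ℕ => lam ^ k / k.factorial * (lam ^ j / j.factorial)) atTop (𝓝 (lam ^ k / k.factorial * 0)) :=
      (FloorSemiring.tendsto_pow_div_factorial_atTop lam).const_mul _
    rw [mul_zero] at h4
    have h5 := h4.comp (tendsto_sub_atTop_nat 1)
    refine h5.congr ?_
    intro R
    simp only [Function.comp]
    rw [hch]
  have e2 := (Metric.tendsto_nhds.1 h2) θ hθ
  have e3 := (Metric.tendsto_nhds.1 h3) θ hθ
  obtain ⟨R, h4, h5, h6⟩ := (e2.and (e3.and (eventually_ge_atTop 1))).exists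
  rw [Real.dist_eq] at h4 h5
  rw [sub_zero] at h5
  exact ⟨R, h6, h4.le, h5.le⟩

/-- the number of the failures is asymptotically Poisson -/
theorem poisson_lim (t : ℝ) (k : ℕ) : Tendsto (fun x : ℕ × Finset ℕ =>
    PK x.1 (Kt t x.1 x.2.card) (fun h => fails x.2 h = k)) gf (𝓝 (Real.exp (-Real.exp (-t)) * Real.exp (-t) ^ k / k.factorial)) := by
  classical
  set lam := Real.exp (-t) with hlam
  rw [Metric.tendsto_nhds]
  intro θ hθ
  obtain ⟨R, hR, ht1, ht2⟩ := tail_small lam k (θ / 5) (by positivity)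
  have hm : ∀ r, Tendsto (fun x : ℕ × Finset ℕ => EK x.1 (Kt t x.1 x.2.card) (fun h => ((fails x.2 h).choose r : ℝ))) gf
      (𝓝 (lam ^ r / r.factorial)) := fun r => moment_lim t r
  have hs : Tendsto (fun x : ℕ × Finset ℕ => ∑ j ∈ range R, (-1) ^ j * ((k + j).choose k : ℝ) *
      EK x.1 (Kt t x.1 x.2.card) (fun h => ((fails x.2 h).choose (k + j) : ℝ))) gf
      (𝓝 (∑ j ∈ range R, (-1) ^ j * ((k + j).choose k : ℝ) * (lam ^ (k + j) / (k + j).factorial))) :=
    tendsto_finsetSum _ (fun j _ => (hm (k + j)).const_mul _)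
  have hs2 := (hm (k + (R - 1))).const_mul (((k + (R - 1)).choose k : ℕ) : ℝ)
  filter_upwards [(Metric.tendsto_nhds.1 hs) (θ / 5) (by positivity), (Metric.tendsto_nhds.1 hs2) (θ / 5) (by positivity)] with x h1 h2
  rw [Real.dist_eq] at h1 h2 ⊢
  set K := Kt t x.1 x.2.card with hK
  have h3 : |PK x.1 K (fun h => fails x.2 h = k) - ∑ j ∈ range R, (-1) ^ j * ((k + j).choose k : ℝ) *
      EK x.1 K (fun h => ((fails x.2 h).choose (k + j) : ℝ))| ≤
      ((k + (R - 1)).choose k : ℝ) * EK x.1 K (fun h => ((fails x.2 h).choose (k + (R - 1)) : ℝ)) := by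
    have e1 : ∑ j ∈ range R, (-1) ^ j * ((k + j).choose k : ℝ) * EK x.1 K (fun h => ((fails x.2 h).choose (k + j) : ℝ)) =
        EK x.1 K (fun h => ∑ j ∈ range R, (-1) ^ j * ((k + j).choose k : ℝ) * ((fails x.2 h).choose (k + j) : ℝ)) := by
      rw [EK_sum]
      apply sum_congr rfl
      intro j _
      rw [← EK_const_mul]
    have e2 : PK x.1 K (fun h => fails x.2 h = k) = EK x.1 K (fun h => if fails x.2 h = k then 1 else 0) := by
      unfold PK
      apply EK_congr
      intro v _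
      congr
    rw [e1, e2, ← EK_sub, ← EK_const_mul]
    rw [abs_le]
    constructor
    · have e3 : -EK x.1 K (fun h => ((k + (R - 1)).choose k : ℝ) * ((fails x.2 h).choose (k + (R - 1)) : ℝ)) =
          EK x.1 K (fun h => (-1) * (((k + (R - 1)).choose k : ℝ) * ((fails x.2 h).choose (k + (R - 1)) : ℝ))) := by
        rw [EK_const_mul (-1), neg_one_mul]
      rw [e3]
      apply EK_mono
      intro h _
      have := (abs_le.1 (alt_choose k (fails x.2 h) R hR)).1
      linarith
    · apply EK_mono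
      intro h _
      exact (abs_le.1 (alt_choose k (fails x.2 h) R hR)).2
  have h4 := abs_lt.1 h1
  have h5 := abs_lt.1 h2
  have h6 := abs_le.1 h3
  have h7 := abs_le.1 ht1
  have h8 := abs_le.1 ht2
  rw [abs_lt]
  constructor <;> linarith [h4.1, h4.2, h5.1, h5.2, h6.1, h6.2, h7.1, h7.2, h8.1, h8.2]

/-- the same for the prefixes of the longer patterns -/
lemma fails_pre {X : ℕ} (hX : 1 ≤ X) (S : Finset ℕ) (K₀ K : ℕ) (hK : K₀ ≤ K) (k : ℕ) :
    PK X K (fun h => fails S (fun i : Fin K₀ => h (Fin.castLE hK i)) = k) = PK X K₀ (fun h => fails S h = k) := by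
  obtain ⟨n, rfl⟩ := Nat.exists_eq_add_of_le hK
  exact PK_pre hX K₀ n (fun v => fails S v = k)

end Pool.Agent.N735.CL
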