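import Mathlib
import Pool.Agent.N735.CL.GumL
import Pool.Agent.N735.CL.Short

set_option autoImplicit false
set_option maxHeartbeats 2000000

/-! Sparse sets of translates: the powers of two. -/

namespace Pool.Agent.N735.CL

open Finset Filter Topology Asymptotics

/-- the `n`-th prime, `p_1 = 2` -/
noncomputable def pn (n : ℕ) : ℕ := Nat.nth Nat.Prime (n - 1)

lemma pn_mono {a b : ℕ} (h : a ≤ b) : pn a ≤ pn b :=
  Nat.nth_monotone Nat.infinite_setOfPred_prime (by omega)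

lemma pn_prime (n : ℕ) : (pn n).Prime := Nat.prime_nth_prime _

lemma pi_pn (n : ℕ) (hn : 1 ≤ n) : Nat.primeCounting (pn n) = n := by
  unfold pn Nat.primeCounting
  have h := Nat.primeCounting'_nth_eq (n - 1)
  unfold Nat.primeCounting' at *
  rw [Nat.count_succ, h, if_pos (Nat.prime_nth_prime _)]
  omega

lemma pi_log : Tendsto (fun x : ℕ => (Nat.primeCounting x : ℝ) * Real.log x / x) atTop (𝓝 1) := by
  rw [Metric.tendsto_nhds]
  intro δ hδ
  filter_upwards [eta_window (δ / 2) (by positivity)] with X hX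
  have h := hX 0 (Nat.zero_le _)
  rw [E1_pr] at h
  simp only [zero_add, Nat.primeCounting_zero, Nat.cast_zero, sub_zero] at h
  rw [Real.dist_eq]
  have e : (Nat.primeCounting X : ℝ) * Real.log X / X = (Nat.primeCounting X : ℝ) / X * Real.log X := by ring
  rw [e]
  linarith

lemma pn_tendsto : Tendsto pn atTop atTop :=
  (Nat.nth_strictMono Nat.infinite_setOfPred_prime).tendsto_atTop.comp (tendsto_sub_atTop_nat 1)

lemma pn_asymp : Tendsto (fun n : ℕ => (pn n : ℝ) / (n * Real.log n)) atTop (𝓝 1) := by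
  have h1 : Tendsto (fun n : ℕ => (Nat.primeCounting (pn n) : ℝ) * Real.log (pn n) / (pn n)) atTop (𝓝 1) :=
    pi_log.comp pn_tendsto
  have h2 : Tendsto (fun n : ℕ => (n : ℝ) * Real.log (pn n) / (pn n)) atTop (𝓝 1) := by
    refine h1.congr' ?_
    filter_upwards [eventually_ge_atTop 1] with n hn
    rw [pi_pn n hn]
  -- `log n / log p_n → 1`
  have hlp : Tendsto (fun n : ℕ => Real.log (pn n : ℝ)) atTop atTop := tends_log.comp pn_tendsto
  have h3 : Tendsto (fun n : ℕ => Real.log ((n : ℝ) * Real.log (pn n) / (pn n))) atTop (𝓝 0) := by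
    have := (Real.continuousAt_log (by norm_num : (1 : ℝ) ≠ 0)).tendsto.comp h2
    rwa [Real.log_one] at this
  have h4 : Tendsto (fun n : ℕ => Real.log n / Real.log (pn n)) atTop (𝓝 1) := by
    have a1 : Tendsto (fun n : ℕ => Real.log (Real.log (pn n : ℝ)) / Real.log (pn n)) atTop (𝓝 0) := by
      have : Tendsto (fun y : ℝ => Real.log y / y) atTop (𝓝 0) := by
        simpa using Real.tendsto_pow_log_div_mul_add_atTop 1 0 1 one_ne_zero
      exact this.comp hlp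
    have a2 : Tendsto (fun n : ℕ => Real.log ((n : ℝ) * Real.log (pn n) / (pn n)) / Real.log (pn n)) atTop (𝓝 0) := by
      simpa using h3.div_atTop hlp
    have a3 : Tendsto (fun n : ℕ => Real.log ((n : ℝ) * Real.log (pn n) / (pn n)) / Real.log (pn n) + 1 -
        Real.log (Real.log (pn n : ℝ)) / Real.log (pn n)) atTop (𝓝 (0 + 1 - 0)) := (a2.add_const 1).sub a1
    rw [zero_add, sub_zero] at a3
    refine a3.congr' ?_
    filter_upwards [eventually_ge_atTop 1, hlp.eventually_ge_atTop 1] with n hn hl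
    have hn0 : (n : ℝ) ≠ 0 := by positivity
    have hp0 : (pn n : ℝ) ≠ 0 := by exact_mod_cast (pn_prime n).pos.ne'
    have hl0 : Real.log (pn n : ℝ) ≠ 0 := by linarith
    rw [Real.log_div (mul_ne_zero hn0 hl0) hp0, Real.log_mul hn0 hl0]
    field_simp
    ring
  have h5 := (h2.mul h4).inv₀ (by norm_num)
  rw [mul_one, inv_one] at h5
  refine h5.congr' ?_
  filter_upwards [eventually_ge_atTop 1, hlp.eventually_ge_atTop 1] with n hn hl
  have hp0 : (pn n : ℝ) ≠ 0 := by exact_mod_cast (pn_prime n).pos.ne'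
  have hl0 : Real.log (pn n : ℝ) ≠ 0 := by linarith
  rw [mul_comm, ← mul_div_assoc, inv_div]
  field_simp

/-- `{2 ^ n : a ≤ n ≤ b}` -/
def pows (a b : ℕ) : Finset ℕ := (Icc a b).image (fun n => 2 ^ n)

lemma card_pows (a b : ℕ) : (pows a b).card = b + 1 - a := by
  unfold pows
  rw [card_image_of_injective _ (Nat.pow_right_injective le_rfl), Nat.card_Icc]

lemma pows_sub (a b N : ℕ) (hb : b ≤ N) : pows a b ⊆ Icc 1 (2 ^ N) := by
  intro m hm
  unfold pows at hm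
  rw [mem_image] at hm
  obtain ⟨n, hn, rfl⟩ := hm
  rw [mem_Icc] at hn ⊢
  exact ⟨Nat.one_le_two_pow, Nat.pow_le_pow_right (by norm_num) (hn.2.trans hb)⟩

lemma log_two_pow (N : ℕ) : Real.log ((2 ^ N : ℕ) : ℝ) = N * Real.log 2 := by
  push_cast
  rw [Real.log_pow]

/-- the blocks of exponents `[a N, b N]` tend along `gf` -/
lemma pows_gf (a b : ℕ → ℕ) (hb : ∀ N, b N ≤ N) (ρ : ℝ) (hρ : 0 < ρ) (hab : ∀ᶠ N in atTop, ρ * N ≤ ((b N + 1 - a N : ℕ) : ℝ)) :
    Tendsto (fun N : ℕ => ((2 ^ N : ℕ), pows (a N) (b N))) atTop gf := by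
  have hN : Tendsto (fun N : ℕ => (N : ℝ)) atTop atTop := tendsto_natCast_atTop_atTop
  have hc : Tendsto (fun N => (pows (a N) (b N)).card) atTop atTop := by
    simp_rw [card_pows]
    rw [← tendsto_natCast_atTop_iff (R := ℝ)]
    exact tendsto_atTop_mono' _ hab (hN.const_mul_atTop hρ)
  have hX : Tendsto (fun N : ℕ => (2 ^ N : ℕ)) atTop atTop := tendsto_pow_atTop_atTop_of_one_lt (by norm_num)
  unfold gf
  refine tendsto_inf.2 ⟨tendsto_inf.2 ⟨tendsto_inf.2 ⟨tendsto_comap_iff.2 hX, tendsto_comap_iff.2 hc⟩, tendsto_comap_iff.2 ?_⟩, ?_⟩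
  · simp only [Function.comp_def]
    have h1 : Tendsto (fun N : ℕ => 4 * (Real.log ((N : ℝ) * 1 + 1) ^ 2 / ((N : ℝ) * 1 + 1))) atTop (𝓝 (4 * 0)) := by
      have := Real.tendsto_pow_log_div_mul_add_atTop 1 0 2 one_ne_zero
      have h2 : Tendsto (fun N : ℕ => (N : ℝ) * 1 + 1) atTop atTop := by
        simp_rw [mul_one]
        exact tendsto_atTop_add_const_right _ _ hN
      have h3 := (this.comp h2).const_mul 4
      refine h3.congr ?_
      intro N
      simp only [Function.comp_def]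
      rw [one_mul, add_zero]
    rw [mul_zero] at h1
    refine squeeze_zero' ?_ ?_ h1
    · filter_upwards [eventually_ge_atTop 4] with N hN4
      rw [log_two_pow]
      have hN4r : (4 : ℝ) ≤ N := by exact_mod_cast hN4
      have hl2 := Real.log_two_gt_d9
      have h3 : 1 ≤ (N : ℝ) * Real.log 2 := by nlinarith
      have h4 : 0 ≤ Real.log ((N : ℝ) * Real.log 2) := Real.log_nonneg h3
      have h5 : 0 ≤ Real.log ((pows (a N) (b N)).card : ℝ) := Real.log_natCast_nonneg _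
      positivity
    · filter_upwards [eventually_ge_atTop 4, hc.eventually_ge_atTop 1] with N hN4 hc1
      rw [log_two_pow]
      have hN4r : (4 : ℝ) ≤ N := by exact_mod_cast hN4
      have hl2 := Real.log_two_gt_d9
      have hl2' := Real.log_two_lt_d9
      have h3 : 1 ≤ (N : ℝ) * Real.log 2 := by nlinarith
      have h4 : 0 ≤ Real.log ((N : ℝ) * Real.log 2) := Real.log_nonneg h3
      have hcle : ((pows (a N) (b N)).card : ℝ) ≤ (N : ℝ) + 1 := by
        rw [card_pows]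
        have := hb N
        have h5 : b N + 1 - a N ≤ N + 1 := by omega
        exact_mod_cast h5
      have hc0 : (0 : ℝ) < ((pows (a N) (b N)).card : ℝ) := by exact_mod_cast hc1
      have h6 : Real.log ((pows (a N) (b N)).card : ℝ) ≤ Real.log ((N : ℝ) + 1) := Real.log_le_log hc0 hcle
      have h7 : Real.log ((N : ℝ) * Real.log 2) ≤ Real.log ((N : ℝ) + 1) := Real.log_le_log (by linarith) (by nlinarith)
      have h8 : 0 ≤ Real.log ((N : ℝ) + 1) := Real.log_nonneg (by linarith)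
      rw [mul_one]
      have h9 : Real.log ((pows (a N) (b N)).card : ℝ) * Real.log ((N : ℝ) * Real.log 2) ≤ Real.log ((N : ℝ) + 1) ^ 2 := by
        rw [sq]
        exact mul_le_mul h6 h7 h4 h8
      rw [div_le_iff₀ (by linarith)]
      have h10 : 4 * (Real.log ((N : ℝ) + 1) ^ 2 / ((N : ℝ) + 1)) * ((N : ℝ) * Real.log 2) =
          Real.log ((N : ℝ) + 1) ^ 2 * (4 * ((N : ℝ) * Real.log 2) / ((N : ℝ) + 1)) := by ring
      rw [h10]
      refine h9.trans (le_mul_of_one_le_right (by positivity) ?_)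
      rw [le_div_iff₀ (by linarith)]
      nlinarith
  · rw [tendsto_principal]
    exact Eventually.of_forall (fun N => pows_sub _ _ _ (hb N))

lemma Nm_ne {K' K : ℕ} (hle : K' ≤ K) (h : Fin K → ℕ) (m : ℕ) :
    Nm (fun i : Fin K' => h (Fin.castLE hle i)) m ≠ 0 ↔ ∃ i : Fin K, (i : ℕ) < K' ∧ (m + h i).Prime := by
  unfold Nm
  rw [Ne, card_eq_zero, ← Ne, ← nonempty_iff_ne_empty]
  constructor
  · rintro ⟨i, hi⟩
    exact ⟨Fin.castLE hle i, i.2, (mem_filter.1 hi).2⟩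
  · rintro ⟨i, hi, hp⟩
    exact ⟨⟨i, hi⟩, mem_filter.2 ⟨mem_univ _, hp⟩⟩

lemma fails_zero (a b : ℕ) {K' K : ℕ} (hle : K' ≤ K) (h : Fin K → ℕ) :
    fails (pows a b) (fun i : Fin K' => h (Fin.castLE hle i)) = 0 ↔
      ∀ n ∈ Icc a b, ∃ i : Fin K, (i : ℕ) < K' ∧ (2 ^ n + h i).Prime := by
  unfold fails
  rw [card_eq_zero, filter_eq_empty_iff]
  unfold pows
  constructor
  · intro H n hn
    exact (Nm_ne hle h _).1 (H (mem_image_of_mem _ hn))
  · intro H m hm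
    obtain ⟨n, hn, rfl⟩ := mem_image.1 hm
    exact (Nm_ne hle h _).2 (H n hn)

lemma natCast_log_tendsto : Tendsto (fun N : ℕ => Real.log (N : ℝ)) atTop atTop := tends_log

lemma ev_pn_ge (δ : ℝ) (hδ : Real.log 2 < δ) (t : ℝ) : ∀ᶠ N : ℕ in atTop,
    (N : ℝ) * Real.log 2 * (Real.log N + t) ≤ pn ⌈δ * N⌉₊ := by
  have hl2 : 0 < Real.log 2 := Real.log_pos (by norm_num)
  have hδ0 : 0 < δ := by linarith
  set ρ := (1 + Real.log 2 / δ) / 2 with hρ
  have hq : Real.log 2 / δ < 1 := by rw [div_lt_one hδ0]; exact hδ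
  have hq0 : 0 < Real.log 2 / δ := by positivity
  have hρ1 : ρ < 1 := by rw [hρ]; linarith
  have hρ0 : 0 < ρ := by rw [hρ]; linarith
  have hρδ : Real.log 2 < ρ * δ := by
    have : Real.log 2 / δ < ρ := by rw [hρ]; linarith
    rwa [div_lt_iff₀ hδ0] at this
  have hm : Tendsto (fun N : ℕ => ⌈δ * N⌉₊) atTop atTop :=
    tendsto_nat_ceil_atTop.comp (tendsto_natCast_atTop_atTop.const_mul_atTop hδ0)
  have h1 := hm.eventually (pn_asymp.eventually (Ioi_mem_nhds hρ1))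
  filter_upwards [h1, hm.eventually_ge_atTop 3, eventually_ge_atTop 1,
    tends_log.eventually_ge_atTop ((Real.log 2 * t - ρ * δ * Real.log δ) / (ρ * δ - Real.log 2)),
    tends_log.eventually_ge_atTop (-Real.log δ)] with N h1 h2 hN h3 h5
  set m := ⌈δ * N⌉₊ with hmd
  have hNr : (1 : ℝ) ≤ N := by exact_mod_cast hN
  have hN0 : (0 : ℝ) < N := by linarith
  have hm3 : (3 : ℝ) ≤ m := by exact_mod_cast h2
  have hlm : 0 < Real.log (m : ℝ) := Real.log_pos (by linarith)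
  have hmge : δ * N ≤ m := Nat.le_ceil _
  have h4 : ρ * (m * Real.log m) ≤ pn m := by
    have h1' : ρ < (pn m : ℝ) / (m * Real.log m) := h1
    rw [lt_div_iff₀ (by positivity)] at h1'
    exact h1'.le
  have h6 : Real.log δ + Real.log N ≤ Real.log m := by
    rw [← Real.log_mul hδ0.ne' hN0.ne']
    exact Real.log_le_log (by positivity) hmge
  have h7 : 0 ≤ Real.log δ + Real.log N := by linarith
  have h8 : (δ * N) * (Real.log δ + Real.log N) ≤ m * Real.log m := mul_le_mul hmge h6 h7 (by linarith)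
  refine le_trans ?_ h4
  refine le_trans ?_ (mul_le_mul_of_nonneg_left h8 hρ0.le)
  rw [div_le_iff₀ (by linarith)] at h3
  have h9 : Real.log 2 * (Real.log N + t) ≤ ρ * δ * (Real.log δ + Real.log N) := by nlinarith
  calc (N : ℝ) * Real.log 2 * (Real.log N + t) = N * (Real.log 2 * (Real.log N + t)) := by ring
    _ ≤ N * (ρ * δ * (Real.log δ + Real.log N)) := mul_le_mul_of_nonneg_left h9 hN0.le
    _ = _ := by ring

lemma ev_pn_le (δ : ℝ) (hδ0 : 0 < δ) (hδ : δ < Real.log 2) (t : ℝ) : ∀ᶠ N : ℕ in atTop,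
    (pn ⌊δ * N⌋₊ : ℝ) ≤ (N : ℝ) * Real.log 2 * (Real.log N + t) := by
  have hl2 : 0 < Real.log 2 := Real.log_pos (by norm_num)
  have hl2' := Real.log_two_lt_d9
  set ρ := (1 + Real.log 2 / δ) / 2 with hρ
  have hq : 1 < Real.log 2 / δ := by rw [one_lt_div hδ0]; exact hδ
  have hρ1 : 1 < ρ := by rw [hρ]; linarith
  have hρδ : ρ * δ < Real.log 2 := by
    have : ρ < Real.log 2 / δ := by rw [hρ]; linarith
    rwa [lt_div_iff₀ hδ0] at this
  have hm : Tendsto (fun N : ℕ => ⌊δ * N⌋₊) atTop atTop :=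
    tendsto_nat_floor_atTop.comp (tendsto_natCast_atTop_atTop.const_mul_atTop hδ0)
  have h1 := hm.eventually (pn_asymp.eventually (Iio_mem_nhds hρ1))
  filter_upwards [h1, hm.eventually_ge_atTop 3, eventually_ge_atTop 1,
    tends_log.eventually_ge_atTop ((-t * Real.log 2) / (Real.log 2 - ρ * δ))] with N h1 h2 hN h3
  set m := ⌊δ * N⌋₊ with hmd
  have hNr : (1 : ℝ) ≤ N := by exact_mod_cast hN
  have hN0 : (0 : ℝ) < N := by linarith
  have hm3 : (3 : ℝ) ≤ m := by exact_mod_cast h2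
  have hlm : 0 < Real.log (m : ℝ) := Real.log_pos (by linarith)
  have hmle : (m : ℝ) ≤ δ * N := Nat.floor_le (by positivity)
  have hmN : (m : ℝ) ≤ N := by nlinarith
  have h4 : (pn m : ℝ) ≤ ρ * (m * Real.log m) := by
    have h1' : (pn m : ℝ) / (m * Real.log m) < ρ := h1
    rw [div_lt_iff₀ (by positivity)] at h1'
    exact h1'.le
  have h6 : Real.log m ≤ Real.log N := Real.log_le_log (by linarith) hmN
  have h8 : (m : ℝ) * Real.log m ≤ (δ * N) * Real.log N := mul_le_mul hmle h6 hlm.le (by positivity)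
  refine h4.trans ((mul_le_mul_of_nonneg_left h8 (by linarith)).trans ?_)
  rw [div_le_iff₀ (by linarith)] at h3
  have h9 : ρ * δ * Real.log N ≤ Real.log 2 * (Real.log N + t) := by nlinarith
  calc ρ * (δ * N * Real.log N) = N * (ρ * δ * Real.log N) := by ring
    _ ≤ N * (Real.log 2 * (Real.log N + t)) := mul_le_mul_of_nonneg_left h9 hN0.le
    _ = _ := by ring

lemma Kt_pow (t : ℝ) (N M : ℕ) : Kt t (2 ^ N) M = ⌊(N : ℝ) * Real.log 2 * (Real.log M + t)⌋₊ := by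
  unfold Kt
  rw [log_two_pow]

lemma PK_le_one {X K : ℕ} (hX : 1 ≤ X) (B : (Fin K → ℕ) → Prop) : PK X K B ≤ 1 := by
  unfold PK
  exact (EK_mono (Ψ := fun _ => 1) (fun v _ => by split_ifs <;> norm_num)).trans (le_of_eq (EK_const hX 1))

lemma PK_cast_card (t : ℝ) (X : ℕ) (S : Finset ℕ) (c : ℕ) (hc : S.card = c) (k : ℕ) :
    PK X (Kt t X S.card) (fun h => fails S h = k) = PK X (Kt t X c) (fun h => fails S h = k) := by
  subst hc
  rfl

/-- the threshold for the lengths `p_n` is `n = (log 2) N` -/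
theorem pow_law_up (δ : ℝ) (hδ : Real.log 2 < δ) : Tendsto (fun N : ℕ => PK (2 ^ N) (pn N)
    (fun h => ∀ n ∈ Icc 1 N, δ * N ≤ n → ∃ i : Fin (pn N), (i : ℕ) < pn n ∧ (2 ^ n + h i).Prime)) atTop (𝓝 1) := by
  have hl2 : 0 < Real.log 2 := Real.log_pos (by norm_num)
  have hl2' := Real.log_two_lt_d9
  rw [Metric.tendsto_nhds]
  intro θ hθ
  -- choose `t`
  have ht : Tendsto (fun t : ℝ => Real.exp (-Real.exp (-t))) atTop (𝓝 1) := by
    have h1 : Tendsto (fun t : ℝ => Real.exp (-t)) atTop (𝓝 0) := Real.tendsto_exp_neg_atTop_nhds_zero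
    have h2 := (Real.continuous_exp.tendsto _).comp h1.neg
    rw [neg_zero, Real.exp_zero] at h2
    exact h2
  obtain ⟨t, ht1⟩ := ((Metric.tendsto_nhds.1 ht) (θ / 2) (by positivity)).exists
  rw [Real.dist_eq] at ht1
  have hg := (poisson_lim t 0).comp (pows_gf (fun _ => 1) (fun N => N) (fun N => le_rfl) 1 one_pos
    (Eventually.of_forall (fun N => by simp)))
  have hg2 := (Metric.tendsto_nhds.1 hg) (θ / 2) (by positivity)
  filter_upwards [hg2, ev_pn_ge δ hδ t, ev_pn_ge 1 (by linarith) t, eventually_ge_atTop 1] with N h1 h2 h3 hN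
  simp only [Function.comp_def, pow_zero, mul_one, Nat.factorial_zero, Nat.cast_one, div_one] at h1
  rw [PK_cast_card t _ _ N (by rw [card_pows, Nat.add_sub_cancel])] at h1
  rw [Real.dist_eq] at h1 ⊢
  set K₀ := Kt t (2 ^ N) N with hK₀
  have hX : 1 ≤ 2 ^ N := Nat.one_le_two_pow
  have e1 : K₀ = ⌊(N : ℝ) * Real.log 2 * (Real.log N + t)⌋₊ := Kt_pow t N N
  have hle : K₀ ≤ pn N := by
    rw [e1]
    apply Nat.floor_le_of_le
    rw [one_mul, Nat.ceil_natCast] at h3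
    exact h3
  have hle2 : K₀ ≤ pn ⌈δ * N⌉₊ := by
    rw [e1]
    exact Nat.floor_le_of_le h2
  have h4 : PK (2 ^ N) K₀ (fun h => fails (pows 1 N) h = 0) ≤ PK (2 ^ N) (pn N)
      (fun h => ∀ n ∈ Icc 1 N, δ * N ≤ n → ∃ i : Fin (pn N), (i : ℕ) < pn n ∧ (2 ^ n + h i).Prime) := by
    rw [← PK_castLE hX hle]
    apply PK_mono
    intro h _ hh n hn hδn
    obtain ⟨i, hi, hp⟩ := (fails_zero 1 N hle h).1 hh n hn
    refine ⟨i, lt_of_lt_of_le hi (hle2.trans (pn_mono ?_)), hp⟩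
    exact Nat.ceil_le.2 hδn
  have h5 := PK_le_one (K := pn N) hX (fun h => ∀ n ∈ Icc 1 N, δ * N ≤ n → ∃ i : Fin (pn N), (i : ℕ) < pn n ∧ (2 ^ n + h i).Prime)
  have h6 := abs_lt.1 h1
  have h7 := abs_lt.1 ht1
  rw [abs_lt]
  constructor <;> linarith [h6.1, h6.2, h7.1, h7.2]

theorem pow_law_lo (δ : ℝ) (hδ : δ < Real.log 2) : Tendsto (fun N : ℕ => PK (2 ^ N) (pn N)
    (fun h => ∀ n ∈ Icc 1 N, δ * N ≤ n → ∃ i : Fin (pn N), (i : ℕ) < pn n ∧ (2 ^ n + h i).Prime)) atTop (𝓝 0) := by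
  have hl2 : 0 < Real.log 2 := Real.log_pos (by norm_num)
  have hl2' := Real.log_two_lt_d9
  have hl2'' := Real.log_two_gt_d9
  set δ₁ := max δ (1 / 4) with hδ₁
  have hδ₁l : δ₁ < Real.log 2 := max_lt hδ (by linarith)
  have hδ₁0 : 1 / 4 ≤ δ₁ := le_max_right _ _
  set δ₂ := (δ₁ + Real.log 2) / 2 with hδ₂
  have hδ₂l : δ₂ < Real.log 2 := by rw [hδ₂]; linarith
  have hδ12 : δ₁ < δ₂ := by rw [hδ₂]; linarith
  set ρ := (δ₂ - δ₁) / 2 with hρ
  have hρ0 : 0 < ρ := by rw [hρ]; linarith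
  rw [Metric.tendsto_nhds]
  intro θ hθ
  have ht : Tendsto (fun t : ℝ => Real.exp (-Real.exp (-t))) atBot (𝓝 0) := by
    have h1 : Tendsto (fun t : ℝ => Real.exp (-t)) atBot atTop := Real.tendsto_exp_atTop.comp tendsto_neg_atBot_atTop
    exact Real.tendsto_exp_neg_atTop_nhds_zero.comp h1
  obtain ⟨t, ht1⟩ := ((Metric.tendsto_nhds.1 ht) (θ / 2) (by positivity)).exists
  rw [Real.dist_eq, sub_zero] at ht1
  have hbN : ∀ N : ℕ, ⌊δ₂ * N⌋₊ ≤ N := by
    intro N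
    apply Nat.floor_le_of_le
    have : (0 : ℝ) ≤ N := Nat.cast_nonneg _
    nlinarith
  have hab : ∀ᶠ N : ℕ in atTop, ρ * N ≤ ((⌊δ₂ * N⌋₊ + 1 - ⌈δ₁ * N⌉₊ : ℕ) : ℝ) := by
    filter_upwards [eventually_ge_atTop ⌈1 / ρ⌉₊] with N hN
    have hN1 : 1 / ρ ≤ N := (Nat.le_ceil _).trans (by exact_mod_cast hN)
    rw [div_le_iff₀ hρ0] at hN1
    have hN0 : (0 : ℝ) ≤ N := Nat.cast_nonneg _
    have h1 : δ₂ * N < ⌊δ₂ * N⌋₊ + 1 := Nat.lt_floor_add_one _
    have h2 : (⌈δ₁ * N⌉₊ : ℝ) < δ₁ * N + 1 := Nat.ceil_lt_add_one (by positivity)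
    have h3 : (⌊δ₂ * N⌋₊ : ℝ) + 1 ≤ ((⌊δ₂ * N⌋₊ + 1 - ⌈δ₁ * N⌉₊ : ℕ) : ℝ) + ⌈δ₁ * N⌉₊ := by
      have : ⌊δ₂ * N⌋₊ + 1 ≤ (⌊δ₂ * N⌋₊ + 1 - ⌈δ₁ * N⌉₊) + ⌈δ₁ * N⌉₊ := by omega
      exact_mod_cast this
    have h4 : δ₂ * N - δ₁ * N = 2 * (ρ * N) := by rw [hρ]; ring
    linarith
  have hg := (poisson_lim t 0).comp (pows_gf (fun N => ⌈δ₁ * N⌉₊) (fun N => ⌊δ₂ * N⌋₊) hbN ρ hρ0 hab)
  have hg2 := (Metric.tendsto_nhds.1 hg) (θ / 2) (by positivity)
  filter_upwards [hg2, hab, ev_pn_le δ₂ (by linarith) hδ₂l (t + Real.log ρ), ev_pn_ge 1 (by linarith) t,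
    eventually_ge_atTop 1] with N h1 hab h2 h3 hN
  simp only [Function.comp_def, pow_zero, mul_one, Nat.factorial_zero, Nat.cast_one, div_one] at h1
  rw [PK_cast_card t _ _ _ (card_pows _ _)] at h1
  rw [Real.dist_eq] at h1 ⊢
  set M := ⌊δ₂ * N⌋₊ + 1 - ⌈δ₁ * N⌉₊ with hM
  set K₀ := Kt t (2 ^ N) M with hK₀
  have hX : 1 ≤ 2 ^ N := Nat.one_le_two_pow
  have hNr : (1 : ℝ) ≤ N := by exact_mod_cast hN
  have hM0 : (0 : ℝ) < M := lt_of_lt_of_le (by positivity) hab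
  have e1 : K₀ = ⌊(N : ℝ) * Real.log 2 * (Real.log M + t)⌋₊ := Kt_pow t N M
  have hMN : (M : ℝ) ≤ N := by
    have h1 : M ≤ N := by
      have h5 := hbN N
      have h6 : 1 ≤ ⌈δ₁ * N⌉₊ := Nat.one_le_ceil_iff.2 (by positivity)
      omega
    exact_mod_cast h1
  have hlog1 : Real.log M ≤ Real.log N := Real.log_le_log hM0 hMN
  have hlog2 : Real.log ρ + Real.log N ≤ Real.log M := by
    rw [← Real.log_mul hρ0.ne' (by linarith)]
    exact Real.log_le_log (by positivity) hab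
  have hNl : 0 ≤ (N : ℝ) * Real.log 2 := by positivity
  have hle : K₀ ≤ pn N := by
    rw [e1]
    apply Nat.floor_le_of_le
    rw [one_mul, Nat.ceil_natCast] at h3
    refine le_trans ?_ h3
    exact mul_le_mul_of_nonneg_left (by linarith) hNl
  have hle2 : pn ⌊δ₂ * N⌋₊ ≤ K₀ := by
    rw [e1]
    apply Nat.le_floor
    refine h2.trans (mul_le_mul_of_nonneg_left (by linarith) hNl)
  have h4 : PK (2 ^ N) (pn N)
      (fun h => ∀ n ∈ Icc 1 N, δ * N ≤ n → ∃ i : Fin (pn N), (i : ℕ) < pn n ∧ (2 ^ n + h i).Prime) ≤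
      PK (2 ^ N) K₀ (fun h => fails (pows ⌈δ₁ * N⌉₊ ⌊δ₂ * N⌋₊) h = 0) := by
    rw [← PK_castLE hX hle]
    apply PK_mono
    intro h _ hh
    refine (fails_zero _ _ hle h).2 ?_
    intro n hn
    rw [mem_Icc] at hn
    have hn1 : 1 ≤ n := by
      have h6 : 1 ≤ ⌈δ₁ * N⌉₊ := Nat.one_le_ceil_iff.2 (by positivity)
      omega
    have hδn : δ * N ≤ n := by
      have h7 : δ₁ * N ≤ n := Nat.ceil_le.1 hn.1
      have h8 : δ * N ≤ δ₁ * N := mul_le_mul_of_nonneg_right (le_max_left _ _) (by linarith)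
      linarith
    obtain ⟨i, hi, hp⟩ := hh n (mem_Icc.2 ⟨hn1, hn.2.trans (hbN N)⟩) hδn
    exact ⟨i, lt_of_lt_of_le hi ((pn_mono hn.2).trans hle2), hp⟩
  have h5 := PK_nonneg (X := 2 ^ N) (K := pn N) (fun h => ∀ n ∈ Icc 1 N, δ * N ≤ n → ∃ i : Fin (pn N), (i : ℕ) < pn n ∧ (2 ^ n + h i).Prime)
  have h6 := abs_lt.1 h1
  have h7 := abs_lt.1 ht1
  rw [sub_zero, abs_lt]
  constructor <;> linarith [h6.1, h6.2, h7.1, h7.2]

end Pool.Agent.N735.CL
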