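import Mathlib
import Pool.Agent.N735.CL.Sq2
import Pool.Agent.N735.CL.Gen

set_option autoImplicit false
set_option maxHeartbeats 2000000

/-! The correlations of the translates by squares. -/

namespace Pool.Agent.N735.CL

open Finset Filter Topology

lemma main_rows (w : ℕ) (C₁ τ1 : ℝ) (hτ1 : 0 < τ1) (Ex : Finset ℕ)
    (hF : ∀ J : ℕ, ∑ d ∈ Icc 1 J, Real.exp (4 * (1 + 1) * ((0 : ℝ) - 1) ^ 2 / Vw w * (Real.exp (2 * sw w d) - 1)) ≤ J * (1 + τ1))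
    (j : ℕ) (hj : 1 ≤ j) :
    ∑ i ∈ Icc 1 (j - 1), (Real.exp (4 * (1 + 1) * ((0 : ℝ) - 1) ^ 2 / Vw w * (Real.exp (sw w (Ww w * (j ^ 2 - i ^ 2))) - 1) + τ1) - 1) ≤
      ((Real.exp τ1 - 1) + 2 * Real.exp τ1 * τ1) * j := by
  set c := 4 * (1 + 1) * ((0 : ℝ) - 1) ^ 2 / Vw w with hc
  have hc0 : 0 ≤ c := by
    have := Vw_pos w
    positivity
  set F : ℕ → ℝ := fun d => Real.exp (c * (Real.exp (2 * sw w d) - 1)) with hFd
  have hF1 : ∀ d, 1 ≤ F d := by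
    intro d
    apply Real.one_le_exp
    apply mul_nonneg hc0
    have : 1 ≤ Real.exp (2 * sw w d) := Real.one_le_exp (by have := sw_nonneg w d; linarith)
    linarith
  have h1 : ∀ i ∈ Icc 1 (j - 1), Real.exp (c * (Real.exp (sw w (Ww w * (j ^ 2 - i ^ 2))) - 1) + τ1) - 1 ≤
      Real.exp τ1 * ((F (j - i) + F (j + i)) / 2) - 1 := by
    intro i hi
    rw [mem_Icc] at hi
    have hij : i < j := by omega
    have hpos : 0 < j ^ 2 - i ^ 2 := by
      have := Nat.pow_lt_pow_left hij (n := 2) (by norm_num)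
      omega
    rw [sw_W_mul w _ hpos, sq_diff i j hij]
    have h2 := conv_ineq w (j - i) (j + i) (by omega) (by omega) c 1 hc0
    rw [Real.exp_add, mul_comm]
    have := mul_le_mul_of_nonneg_left h2 (Real.exp_pos τ1).le
    linarith
  refine (sum_le_sum h1).trans ?_
  rw [sum_sub_distrib, ← mul_sum, sum_const, nsmul_eq_mul, Nat.card_Icc, mul_one]
  have h2 := row_le F τ1 hτ1.le hF1 hF j hj
  have h3 := mul_le_mul_of_nonneg_left h2 (Real.exp_pos τ1).le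
  have e : ((j - 1 + 1 - 1 : ℕ) : ℝ) = j - 1 := by
    rw [show j - 1 + 1 - 1 = j - 1 by omega, Nat.cast_sub hj]; norm_num
  rw [e]
  have h4 : 1 ≤ Real.exp τ1 := Real.one_le_exp hτ1.le
  nlinarith

lemma exc_part (w : ℕ) (C₁ τ1 C₃ κ : ℝ) (hC₁ : 0 ≤ C₁) (hτ1 : 0 < τ1) (hκ : 0 ≤ κ)
    (hG : ∀ J : ℕ, ∑ d ∈ Icc 1 J, Real.exp (2 * C₁ * Real.exp (2 * sw w d)) ≤ J * C₃)
    (X I : ℕ) (hX : 1 ≤ X) (hI : (Ww w * I) ^ 2 ≤ X) (hI2 : (X : ℝ) ≤ κ * (I : ℝ) ^ 2) (Ex : Finset ℕ)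
    (hEx : (Ex.card : ℝ) ≤ X / Real.log X ^ 6) (hL1 : 1 ≤ Real.log (X : ℝ)) (hL : 8 * C₃ * κ / τ1 ^ 2 ≤ Real.log X) :
    ∑ j ∈ Icc 1 I, ∑ i ∈ Icc 1 (j - 1), (if Ww w * (Ww w * (j ^ 2 - i ^ 2)) ∈ Ex then
      Real.exp (C₁ * Real.exp (sw w (Ww w * (j ^ 2 - i ^ 2)))) else 0) ≤ τ1 * (I : ℝ) ^ 2 := by
  classical
  set L := Real.log (X : ℝ) with hLd
  have hL0 : 0 < L := by linarith
  have hX0 : (0 : ℝ) < X := by exact_mod_cast hX
  set P := ((Icc 1 I) ×ˢ (Icc 1 I)).filter (fun x : ℕ × ℕ => x.1 < x.2 ∧ Ww w * (Ww w * (x.2 ^ 2 - x.1 ^ 2)) ∈ Ex) with hP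
  set g : ℕ × ℕ → ℝ := fun x => Real.exp (C₁ * Real.exp (sw w (Ww w * (x.2 ^ 2 - x.1 ^ 2)))) with hg
  -- rewriting as a sum over `P`
  have e1 : ∑ j ∈ Icc 1 I, ∑ i ∈ Icc 1 (j - 1), (if Ww w * (Ww w * (j ^ 2 - i ^ 2)) ∈ Ex then
      Real.exp (C₁ * Real.exp (sw w (Ww w * (j ^ 2 - i ^ 2)))) else 0) = ∑ x ∈ P, g x := by
    rw [hP, sum_filter, sum_product, sum_comm]
    apply sum_congr rfl
    intro j hj
    rw [mem_Icc] at hj
    have hset : Icc 1 (j - 1) = (Icc 1 I).filter (fun i => i < j) := by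
      ext i; rw [mem_filter, mem_Icc, mem_Icc]; omega
    rw [hset, sum_filter]
    apply sum_congr rfl
    intro i _
    by_cases h1 : i < j <;> by_cases h2 : Ww w * (Ww w * (j ^ 2 - i ^ 2)) ∈ Ex <;> simp [h1, h2, hg]
  rw [e1]
  have h1 := sq_sum_le_card_mul_sum_sq (s := P) (f := g)
  have h2 := pairs_count X hX w I hI Ex
  rw [← hP] at h2
  have hPle : (P.card : ℝ) ≤ 4 * X / L := by
    have h3 : (P.card : ℝ) ^ 2 ≤ (4 * X / L) ^ 2 := by
      refine h2.trans ?_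
      have h4 : (1 + L) ^ 4 ≤ (2 * L) ^ 4 := pow_le_pow_left₀ (by linarith) (by linarith) 4
      calc (Ex.card : ℝ) * (X * (1 + L) ^ 4) ≤ (X / L ^ 6) * (X * (2 * L) ^ 4) := by
            apply mul_le_mul hEx (mul_le_mul_of_nonneg_left h4 hX0.le) (by positivity) (by positivity)
        _ = (4 * X / L) ^ 2 := by field_simp; ring
    exact le_of_sq_le_sq h3 (by positivity)
  have hC₃ : 0 ≤ C₃ := by
    have := (sum_nonneg (s := Icc 1 1) (f := fun d => Real.exp (2 * C₁ * Real.exp (2 * sw w d))) (fun s _ => (Real.exp_pos _).le)).trans (hG 1)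
    simpa using this
  have hsq : ∑ x ∈ P, g x ^ 2 ≤ 2 * C₃ * (I : ℝ) ^ 2 := by
    set G : ℕ → ℝ := fun d => Real.exp (2 * C₁ * Real.exp (2 * sw w d)) with hGd
    have h3 : ∑ x ∈ P, g x ^ 2 ≤ ∑ j ∈ Icc 1 I, ∑ i ∈ Icc 1 (j - 1), (G (j - i) + G (j + i)) / 2 := by
      have h4 : ∑ x ∈ P, g x ^ 2 ≤ ∑ x ∈ P, (G (x.2 - x.1) + G (x.2 + x.1)) / 2 := by
        apply sum_le_sum
        intro x hx
        rw [hP, mem_filter, mem_product, mem_Icc, mem_Icc] at hx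
        obtain ⟨⟨h1, h2⟩, h3, _⟩ := hx
        have hpos : 0 < x.2 ^ 2 - x.1 ^ 2 := by
          have := Nat.pow_lt_pow_left h3 (n := 2) (by norm_num)
          omega
        have h5 := conv_ineq w (x.2 - x.1) (x.2 + x.1) (by omega) (by omega) (2 * C₁) 0 (by positivity)
        simp only [sub_zero] at h5
        rw [← sq_diff _ _ h3] at h5
        refine le_trans (le_of_eq ?_) h5
        simp only [hg]
        rw [sw_W_mul w _ hpos, ← Real.exp_nat_mul]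
        congr 1; push_cast; ring
      refine h4.trans ?_
      rw [hP, sum_filter, sum_product, sum_comm]
      apply sum_le_sum
      intro j hj
      rw [mem_Icc] at hj
      have hset : Icc 1 (j - 1) = (Icc 1 I).filter (fun i => i < j) := by
        ext i; rw [mem_filter, mem_Icc, mem_Icc]; omega
      rw [hset, sum_filter]
      apply sum_le_sum
      intro i _
      have hG0 : 0 ≤ (G (j - i) + G (j + i)) / 2 := by
        simp only [hGd]
        positivity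
      by_cases h1 : i < j <;> by_cases h2 : Ww w * (Ww w * (j ^ 2 - i ^ 2)) ∈ Ex
      · rw [if_pos ⟨h1, h2⟩, if_pos h1]
      · rw [if_neg (by tauto), if_pos h1]; exact hG0
      · rw [if_neg (by tauto), if_neg h1]
      · rw [if_neg (by tauto), if_neg h1]
    refine h3.trans ?_
    exact sum_rows I (fun i j => (G (j - i) + G (j + i)) / 2) (2 * C₃) (by positivity)
      (fun j hj => row_le' G C₃ (fun d => (Real.exp_pos _).le) hG j (mem_Icc.1 hj).1)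
  have h5 : (∑ x ∈ P, g x) ^ 2 ≤ (τ1 * (I : ℝ) ^ 2) ^ 2 := by
    refine h1.trans ?_
    have hnn : 0 ≤ ∑ x ∈ P, g x ^ 2 := sum_nonneg (fun x _ => sq_nonneg _)
    calc (P.card : ℝ) * ∑ x ∈ P, g x ^ 2 ≤ (4 * X / L) * (2 * C₃ * (I : ℝ) ^ 2) := mul_le_mul hPle hsq hnn (by positivity)
      _ ≤ (4 * (κ * (I : ℝ) ^ 2) / L) * (2 * C₃ * (I : ℝ) ^ 2) := by gcongr
      _ = (8 * C₃ * κ / L) * ((I : ℝ) ^ 2) ^ 2 := by ring
      _ ≤ τ1 ^ 2 * ((I : ℝ) ^ 2) ^ 2 := by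
          apply mul_le_mul_of_nonneg_right _ (sq_nonneg _)
          rw [div_le_iff₀ hL0]
          rw [div_le_iff₀ (by positivity)] at hL
          linarith
      _ = _ := by ring
  exact le_of_sq_le_sq h5 (by positivity)

lemma sq_sum (w : ℕ) (C₁ τ1 C₃ κ : ℝ) (hC₁ : 0 ≤ C₁) (hτ1 : 0 < τ1) (hκ : 0 ≤ κ)
    (hF : ∀ J : ℕ, ∑ d ∈ Icc 1 J, Real.exp (4 * (1 + 1) * ((0 : ℝ) - 1) ^ 2 / Vw w * (Real.exp (2 * sw w d) - 1)) ≤ J * (1 + τ1))
    (hG : ∀ J : ℕ, ∑ d ∈ Icc 1 J, Real.exp (2 * C₁ * Real.exp (2 * sw w d)) ≤ J * C₃)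
    (X I : ℕ) (hX : 1 ≤ X) (hI : (Ww w * I) ^ 2 ≤ X) (hI2 : (X : ℝ) ≤ κ * (I : ℝ) ^ 2) (Ex : Finset ℕ)
    (hEx : (Ex.card : ℝ) ≤ X / Real.log X ^ 6) (hL1 : 1 ≤ Real.log (X : ℝ)) (hL : 8 * C₃ * κ / τ1 ^ 2 ≤ Real.log X) :
    ∑ j ∈ Icc 1 I, ∑ i ∈ Icc 1 (j - 1), ff w C₁ τ1 Ex (Ww w * (j ^ 2 - i ^ 2)) ≤
      ((Real.exp τ1 - 1) + 2 * Real.exp τ1 * τ1 + τ1) * (I : ℝ) ^ 2 := by
  unfold ff
  simp_rw [sum_add_distrib]
  have h1 := exc_part w C₁ τ1 C₃ κ hC₁ hτ1 hκ hG X I hX hI hI2 Ex hEx hL1 hL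
  have h2 := sum_rows I (fun i j => Real.exp (4 * (1 + 1) * ((0 : ℝ) - 1) ^ 2 / Vw w * (Real.exp (sw w (Ww w * (j ^ 2 - i ^ 2))) - 1) + τ1) - 1)
    ((Real.exp τ1 - 1) + 2 * Real.exp τ1 * τ1) (by
      have : 1 ≤ Real.exp τ1 := Real.one_le_exp hτ1.le
      have : 0 < Real.exp τ1 * τ1 := by positivity
      nlinarith) (fun j hj => main_rows w C₁ τ1 hτ1 Ex hF j (mem_Icc.1 hj).1)
  linarith

/-- below the threshold almost every pattern has a square without primes -/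
theorem sq_lower (θ : ℝ) (hθ : 0 < θ) : ∃ C₀ : ℝ, 0 < C₀ ∧ ∀ᶠ N : ℕ in atTop, ∀ K : ℕ,
    (K : ℝ) ≤ 2 * Real.log N ^ 2 - C₀ * Real.log N →
      PK (N ^ 2) K (fun h => ∀ n ∈ Icc 1 N, N < 2 * n → Nm h (n ^ 2) ≠ 0) ≤ θ := by
  obtain ⟨c₃, hc₃1, hcore⟩ := gen_core
  have hc₃0 : 0 < c₃ := by linarith
  set τ := θ / 24 with hτ
  have hτ0 : 0 < τ := by positivity
  obtain ⟨τ1, hτ10, hτ1⟩ : ∃ τ1 : ℝ, 0 < τ1 ∧ 8 * c₃ ^ 2 * ((Real.exp τ1 - 1) + 2 * Real.exp τ1 * τ1 + τ1) ≤ τ := by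
    have h1 : ∀ᶠ x : ℝ in nhds 0, 8 * c₃ ^ 2 * ((Real.exp x - 1) + 2 * Real.exp x * x + x) < τ := by
      apply ContinuousAt.eventually_lt
      · fun_prop
      · fun_prop
      · simp; exact hτ0
    have h4 : ∀ᶠ x : ℝ in nhdsWithin 0 (Set.Ioi 0), x ∈ Set.Ioi (0 : ℝ) := self_mem_nhdsWithin
    obtain ⟨x, hx⟩ := ((h1.filter_mono nhdsWithin_le_nhds).and h4).exists
    exact ⟨x, hx.2, hx.1.le⟩
  obtain ⟨w0, hw0⟩ := main_avg2 (4 * (1 + 1) * ((0 : ℝ) - 1) ^ 2) τ1 (by norm_num) hτ10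
  set w := max w0 2 with hw
  have hmain := hw0 w (le_max_left _ _)
  obtain ⟨C₁, hC₁0, C₄, hev⟩ := hcore w (le_max_right _ _)
  obtain ⟨C₃, hC₃0, hC₃⟩ := exc_avg2 w (le_max_right _ _) (2 * C₁) (by positivity)
  have hWpos : 0 < Ww w := Ww_pos w
  have hWr : (1 : ℝ) ≤ Ww w := by exact_mod_cast hWpos
  have hWr0 : (0 : ℝ) < Ww w := by linarith
  set κ : ℝ := 4 * (Ww w : ℝ) ^ 2 with hκ
  set C₀ := 2 * (|Real.log (τ / (4 * Ww w * c₃))| + |C₄|) + 1 with hC₀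
  have hC₀0 : 0 < C₀ := by positivity
  refine ⟨C₀, hC₀0, ?_⟩
  have hX : Tendsto (fun N : ℕ => N ^ 2) atTop atTop := tendsto_pow_atTop (by norm_num)
  filter_upwards [hX.eventually (hev τ1 hτ10), eventually_ge_atTop (2 * Ww w + 4),
    tends_log.eventually_ge_atTop (8 * C₃ * κ / τ1 ^ 2 + 1)] with N h1 h7 h8 K hK
  obtain ⟨Ex, hEx, hp⟩ := h1
  have hN0 : (0 : ℝ) < N := by exact_mod_cast (by omega : 0 < N)
  have hX1 : 1 ≤ N ^ 2 := Nat.one_le_pow _ _ (by omega)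
  have hq : 0 ≤ 8 * C₃ * κ / τ1 ^ 2 := by positivity
  have hlogX : Real.log ((N ^ 2 : ℕ) : ℝ) = 2 * Real.log N := by push_cast; rw [Real.log_pow]; norm_num
  set l := Real.log (N : ℝ) with hl
  have hl1 : 1 ≤ l := by linarith
  rw [hlogX] at hEx hp
  set I := N / Ww w with hI
  have hIle : Ww w * I ≤ N := Nat.mul_div_le N (Ww w)
  have hIlt : N < Ww w * (I + 1) := by
    rw [mul_add, mul_one]
    have h9 := Nat.lt_div_mul_add hWpos (a := N)
    rw [← hI, mul_comm] at h9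
    exact h9
  have hI2 : 2 ≤ I := by
    by_contra hc
    push Not at hc
    have : Ww w * (I + 1) ≤ Ww w * 2 := Nat.mul_le_mul_left _ (by omega)
    omega
  have hIr : (N : ℝ) ≤ 2 * Ww w * I := by
    have h9 : (N : ℝ) < Ww w * ((I : ℝ) + 1) := by exact_mod_cast hIlt
    have h10 : (1 : ℝ) ≤ I := by exact_mod_cast (by omega : 1 ≤ I)
    nlinarith
  have hI0 : (0 : ℝ) < I := by exact_mod_cast (by omega : 0 < I)
  -- the set of the indices
  set R := Icc (I / 2 + 1) I with hR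
  set φ : ℕ → ℕ := fun i => Ww w * i ^ 2 with hφ
  have hφinj : Function.Injective φ := by
    intro a b hab
    simp only [hφ] at hab
    have := Nat.eq_of_mul_eq_mul_left hWpos hab
    exact Nat.pow_left_injective (n := 2) (by norm_num) this
  set T := R.image φ with hT
  have hRcard : (I : ℝ) / 2 ≤ R.card := by
    rw [hR, Nat.card_Icc, div_le_iff₀ (by norm_num)]
    exact_mod_cast (by omega : I ≤ (I + 1 - (I / 2 + 1)) * 2)
  have hTcard : T.card = R.card := card_image_of_injective _ hφinj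
  have hTsub : T ⊆ Icc 1 (N ^ 2 / Ww w) := by
    intro a ha
    rw [hT, mem_image] at ha
    obtain ⟨i, hi, rfl⟩ := ha
    rw [hR, mem_Icc] at hi
    rw [mem_Icc]
    constructor
    · exact Nat.mul_pos hWpos (by have : 0 < i := by omega
                                  positivity)
    · rw [Nat.le_div_iff_mul_le hWpos]
      calc Ww w * i ^ 2 * Ww w = (Ww w * i) ^ 2 := by ring
        _ ≤ N ^ 2 := Nat.pow_le_pow_left ((Nat.mul_le_mul_left _ hi.2).trans hIle) 2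
  have hRne : R.Nonempty := ⟨I, by rw [hR, mem_Icc]; omega⟩
  have hTne : T.Nonempty := hRne.image φ
  have hTr : (N : ℝ) / (4 * Ww w) ≤ T.card := by
    rw [hTcard, div_le_iff₀ (by positivity)]
    nlinarith
  have hKL : (K : ℝ) ≤ (1 + 1) * (2 * l) ^ 2 := by
    have : 0 ≤ C₀ * l := by positivity
    nlinarith [sq_nonneg l]
  have hmainT := hp K hKL T hTsub hTne τ hτ0
  -- the pair sum
  have hpair : 2 * c₃ ^ 2 * ∑ a ∈ T, ∑ b ∈ T.filter (fun b => a < b), ff w C₁ τ1 Ex (b - a) ≤ τ * (T.card : ℝ) ^ 2 := by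
    have hS := sq_sum w C₁ τ1 C₃ κ hC₁0 hτ10 (by positivity) hmain hC₃ (N ^ 2) I hX1
      (Nat.pow_le_pow_left hIle 2) (by
        rw [hκ]; push_cast
        calc (N : ℝ) ^ 2 ≤ (2 * Ww w * I) ^ 2 := pow_le_pow_left₀ hN0.le hIr 2
          _ = _ := by ring) Ex (by rw [hlogX]; exact hEx) (by rw [hlogX]; linarith) (by rw [hlogX]; linarith)
    have hle : ∑ a ∈ T, ∑ b ∈ T.filter (fun b => a < b), ff w C₁ τ1 Ex (b - a) ≤
        ∑ j ∈ Icc 1 I, ∑ i ∈ Icc 1 (j - 1), ff w C₁ τ1 Ex (Ww w * (j ^ 2 - i ^ 2)) := by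
      have e1 : ∑ a ∈ T, ∑ b ∈ T.filter (fun b => a < b), ff w C₁ τ1 Ex (b - a) =
          ∑ i ∈ R, ∑ j ∈ R, (if φ i < φ j then ff w C₁ τ1 Ex (φ j - φ i) else 0) := by
        rw [hT, sum_image (fun a _ b _ h => hφinj h)]
        apply sum_congr rfl
        intro i _
        rw [sum_filter, sum_image (fun a _ b _ h => hφinj h)]
      rw [e1, sum_comm]
      have hRsub : R ⊆ Icc 1 I := by
        intro i hi
        rw [hR, mem_Icc] at hi
        rw [mem_Icc]; omega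
      refine (sum_le_sum_of_subset_of_nonneg hRsub (fun j _ _ => sum_nonneg (fun i _ => ?_))).trans ?_
      · split_ifs
        · exact ff_nonneg _ _ _ hτ10 _ _
        · exact le_rfl
      · apply sum_le_sum
        intro j hj
        rw [← sum_filter]
        have hsub : R.filter (fun i => φ i < φ j) ⊆ Icc 1 (j - 1) := by
          intro i hi
          rw [mem_filter, hR, mem_Icc] at hi
          obtain ⟨hi1, hi2⟩ := hi
          simp only [hφ] at hi2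
          have h3 : i ^ 2 < j ^ 2 := lt_of_mul_lt_mul_left hi2 (Nat.zero_le _)
          have h4 : i < j := lt_of_pow_lt_pow_left₀ 2 (Nat.zero_le _) h3
          rw [mem_Icc]; omega
        refine (sum_le_sum_of_subset_of_nonneg hsub (fun i _ _ => ff_nonneg _ _ _ hτ10 _ _)).trans (le_of_eq ?_)
        apply sum_congr rfl
        intro i _
        simp only [hφ]
        rw [← Nat.mul_sub]
    set B := (Real.exp τ1 - 1) + 2 * Real.exp τ1 * τ1 + τ1 with hB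
    have hB0 : 0 ≤ B := by
      have : 1 ≤ Real.exp τ1 := Real.one_le_exp hτ10.le
      have : 0 < Real.exp τ1 * τ1 := by positivity
      rw [hB]; nlinarith
    have hI4 : (I : ℝ) ^ 2 ≤ 4 * (T.card : ℝ) ^ 2 := by
      rw [hTcard]
      have : (I : ℝ) ≤ 2 * R.card := by linarith
      nlinarith
    calc 2 * c₃ ^ 2 * ∑ a ∈ T, ∑ b ∈ T.filter (fun b => a < b), ff w C₁ τ1 Ex (b - a) ≤ 2 * c₃ ^ 2 * (B * (I : ℝ) ^ 2) :=
          mul_le_mul_of_nonneg_left (hle.trans hS) (by positivity)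
      _ ≤ 2 * c₃ ^ 2 * (B * (4 * (T.card : ℝ) ^ 2)) := by gcongr
      _ = (8 * c₃ ^ 2 * B) * (T.card : ℝ) ^ 2 := by ring
      _ ≤ _ := mul_le_mul_of_nonneg_right hτ1 (sq_nonneg _)
  -- the diagonal
  have hdiagT : c₃ * Real.exp (K / (2 * l) + C₄) ≤ τ * T.card := by
    have h9 : (K : ℝ) / (2 * l) ≤ l - C₀ / 2 := by
      rw [div_le_iff₀ (by linarith)]
      calc (K : ℝ) ≤ 2 * l ^ 2 - C₀ * l := hK
        _ = _ := by ring
    have h10 : Real.exp (K / (2 * l) + C₄) ≤ Real.exp (l + (C₄ - C₀ / 2)) := Real.exp_le_exp.2 (by linarith)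
    have h12 : Real.exp (l + (C₄ - C₀ / 2)) = N * Real.exp (C₄ - C₀ / 2) := by
      rw [Real.exp_add, hl, Real.exp_log hN0]
    have h13 : Real.exp (C₄ - C₀ / 2) ≤ τ / (4 * Ww w * c₃) := by
      have h14 : Real.exp (Real.log (τ / (4 * Ww w * c₃))) = τ / (4 * Ww w * c₃) := Real.exp_log (by positivity)
      rw [← h14]
      apply Real.exp_le_exp.2
      have h15 := neg_abs_le (Real.log (τ / (4 * Ww w * c₃)))
      have h16 := le_abs_self C₄
      rw [hC₀]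
      linarith
    calc c₃ * Real.exp (K / (2 * l) + C₄) ≤ c₃ * (N * (τ / (4 * Ww w * c₃))) := by
          rw [h12] at h10
          exact mul_le_mul_of_nonneg_left (h10.trans (mul_le_mul_of_nonneg_left h13 hN0.le)) hc₃0.le
      _ = τ * (N / (4 * Ww w)) := by field_simp
      _ ≤ τ * T.card := mul_le_mul_of_nonneg_left hTr hτ0.le
  have hfin := hmainT hpair hdiagT
  refine le_trans (PK_mono ?_) (hfin.trans (le_of_eq (by rw [hτ]; ring)))
  intro h _ hh j hj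
  rw [hT, mem_image] at hj
  obtain ⟨i, hi, rfl⟩ := hj
  rw [hR, mem_Icc] at hi
  have e : Ww w * φ i = (Ww w * i) ^ 2 := by simp only [hφ]; ring
  rw [e]
  apply hh
  · rw [mem_Icc]
    exact ⟨Nat.mul_pos hWpos (by omega), (Nat.mul_le_mul_left _ hi.2).trans hIle⟩
  · calc N < Ww w * (I + 1) := hIlt
      _ ≤ Ww w * (2 * i) := Nat.mul_le_mul_left _ (by omega)
      _ = _ := by ring

end Pool.Agent.N735.CL
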