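import Mathlib
import Pool.Agent.N735.CL.Sq3
import Pool.Agent.N735.CL.GumP
import Pool.Agent.N735.CL.Poi

set_option autoImplicit false
set_option maxHeartbeats 2000000

/-! The longest waiting time over the squares. -/

namespace Pool.Agent.N735.CL

open Finset Filter Topology

lemma log_sq_nat (N : ℕ) : Real.log ((N ^ 2 : ℕ) : ℝ) = 2 * Real.log N := by push_cast; rw [Real.log_pow]; norm_num

lemma tends_sq : Tendsto (fun N : ℕ => N ^ 2) atTop atTop := tendsto_pow_atTop (by norm_num)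

lemma one_le_PK {X K : ℕ} (hX : 1 ≤ X) (B : (Fin K → ℕ) → Prop) (h : ∀ v, B v) : 1 ≤ PK X K B := by
  have h1 : EK X K (fun _ => (1 : ℝ)) ≤ PK X K B := EK_mono (fun v _ => by rw [if_pos (h v)])
  rwa [EK_const hX] at h1

/-- union bound, with different lengths for the different translates -/
lemma union_len {X : ℕ} (hX : 1 ≤ X) (K : ℕ) (R : Finset ℕ) (m : ℕ → ℕ) (k : ℕ → ℕ) (hk : ∀ n ∈ R, k n ≤ K) :
    PK X K (fun h => ∃ n ∈ R, ¬ ∃ i : Fin K, (i : ℕ) < k n ∧ (m n + h i).Prime) ≤ ∑ n ∈ R, (1 - E1 X (pr (m n))) ^ (k n) := by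
  classical
  refine (PK_exists R (fun n h => ¬ ∃ i : Fin K, (i : ℕ) < k n ∧ (m n + h i).Prime)).trans (sum_le_sum (fun n hn => ?_))
  have h1 : PK X K (fun h => ¬ ∃ i : Fin K, (i : ℕ) < k n ∧ (m n + h i).Prime) =
      PK X K (fun h => Nm (fun i : Fin (k n) => h (Fin.castLE (hk n hn) i)) (m n) = 0) := by
    congr 1
    funext h
    rw [← Nm_ne (hk n hn) h (m n), not_not]
  rw [h1, PK_castLE hX (hk n hn) (fun h => Nm h (m n) = 0), binom hX]
  simp

/-- above the threshold every square has a prime -/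
theorem sq_upper (θ : ℝ) (hθ : 0 < θ) : ∃ C₀ : ℝ, 0 < C₀ ∧ ∀ᶠ N : ℕ in atTop, ∀ K : ℕ,
    2 * Real.log N ^ 2 + C₀ * Real.log N ≤ K → PK (N ^ 2) K (fun h => ∃ n ∈ Icc 1 N, Nm h (n ^ 2) = 0) ≤ θ := by
  obtain ⟨c, hc, hη⟩ := eta_precise
  set C₀ := 2 * c + 4 * |Real.log θ| + 1 with hC₀
  have hC₀0 : 0 < C₀ := by positivity
  refine ⟨C₀, hC₀0, ?_⟩
  filter_upwards [tends_sq.eventually hη, eventually_ge_atTop 1, tends_log.eventually_ge_atTop (c + 1)] with N h1 hN h3 K hK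
  have hX : 1 ≤ N ^ 2 := Nat.one_le_pow _ _ hN
  rw [log_sq_nat] at h1
  have hN0 : (0 : ℝ) < N := by exact_mod_cast hN
  set l := Real.log (N : ℝ) with hl
  have hl0 : 0 < l := by linarith
  have hstep : PK (N ^ 2) K (fun h => ∃ n ∈ Icc 1 N, Nm h (n ^ 2) = 0) ≤ EK (N ^ 2) K (fun h => ∑ n ∈ Icc 1 N, (0 : ℝ) ^ Nm h (n ^ 2)) := by
    unfold PK
    apply EK_mono
    intro h _
    have hnn : ∀ m ∈ Icc 1 N, (0 : ℝ) ≤ 0 ^ Nm h (m ^ 2) := fun m _ => pow_nonneg le_rfl _
    split_ifs with hc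
    · obtain ⟨m, hm, hm0⟩ := hc
      have := single_le_sum hnn hm
      rw [hm0, pow_zero] at this
      exact this
    · exact sum_nonneg hnn
  refine hstep.trans ?_
  rw [EK_sum]
  have h4 : ∀ n ∈ Icc 1 N, EK (N ^ 2) K (fun h => (0 : ℝ) ^ Nm h (n ^ 2)) ≤ Real.exp (-l + (c / 2 - C₀ / 4)) := by
    intro n hn
    rw [EK_pow hX]
    have h5 := (abs_le.1 (h1 (n ^ 2) (Nat.pow_le_pow_left (mem_Icc.1 hn).2 2))).1
    have hη1 : E1 (N ^ 2) (pr (n ^ 2)) ≤ 1 := by
      rw [← E1_const hX 1]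
      exact E1_mono (fun h _ => pr_le_one _ h)
    set η := E1 (N ^ 2) (pr (n ^ 2)) with hη
    have h6 : (1 + (0 - 1) * η) ^ K ≤ Real.exp (K * (-η)) := by
      rw [Real.exp_nat_mul]
      apply pow_le_pow_left₀ (by linarith)
      linarith [Real.add_one_le_exp (-η)]
    refine h6.trans (Real.exp_le_exp.2 ?_)
    have h7 : 1 / (2 * l) - c / (2 * l) ^ 2 ≤ η := by linarith
    have h8 : 0 ≤ 1 / (2 * l) - c / (2 * l) ^ 2 := by
      rw [sub_nonneg, div_le_div_iff₀ (by positivity) (by positivity)]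
      nlinarith
    have hK0 : (0 : ℝ) ≤ K := Nat.cast_nonneg _
    have h9 : (2 * l ^ 2 + C₀ * l) * (1 / (2 * l) - c / (2 * l) ^ 2) ≤ K * η := mul_le_mul hK h7 h8 hK0
    have h10 : (2 * l ^ 2 + C₀ * l) * (1 / (2 * l) - c / (2 * l) ^ 2) = l - c / 2 + (C₀ / 2) * (1 - c / (2 * l)) := by
      field_simp
    have h11 : c / (2 * l) ≤ 1 / 2 := by
      rw [div_le_iff₀ (by positivity)]; linarith
    have h12 : (C₀ / 2) * (1 / 2) ≤ (C₀ / 2) * (1 - c / (2 * l)) := mul_le_mul_of_nonneg_left (by linarith) (by positivity)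
    linarith
  refine (sum_le_sum h4).trans ?_
  rw [sum_const, nsmul_eq_mul, Nat.card_Icc, Nat.add_sub_cancel]
  have h8 : (N : ℝ) = Real.exp l := (Real.exp_log hN0).symm
  rw [h8, ← Real.exp_add]
  have h9 : Real.exp (Real.log θ) = θ := Real.exp_log hθ
  rw [← h9]
  apply Real.exp_le_exp.2
  have h10 := neg_abs_le (Real.log θ)
  rw [hC₀]
  linarith

/-- the longest waiting time over the squares -/
theorem sq_law (θ : ℝ) (hθ : 0 < θ) : ∃ C : ℝ, 0 < C ∧ ∀ᶠ N : ℕ in atTop, ∀ K : ℕ,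
    2 * Real.log N ^ 2 + C * Real.log N ≤ K →
      PK (N ^ 2) K (fun h => ¬ ∃ g₁ g₂ : ℕ, (⨆ n ∈ Icc 1 N, wait h (n ^ 2)) = (g₁ : ℕ∞) ∧
        (⨆ n ∈ (Icc 1 N).filter (fun n => N < 2 * n), wait h (n ^ 2)) = (g₂ : ℕ∞) ∧
        (g₁ : ℝ) ≤ 2 * Real.log N ^ 2 + C * Real.log N ∧ 2 * Real.log N ^ 2 - C * Real.log N ≤ g₂) ≤ θ := by
  obtain ⟨C₀, hC₀, h0⟩ := sq_upper (θ / 2) (by positivity)
  obtain ⟨C₁, hC₁, h1⟩ := sq_lower (θ / 2) (by positivity)
  refine ⟨C₀ + C₁ + 1, by positivity, ?_⟩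
  filter_upwards [h0, h1, eventually_ge_atTop 1, tends_log.eventually_ge_atTop (C₁ + 1)] with N h0 h1 hN hL K hK
  have hX : 1 ≤ N ^ 2 := Nat.one_le_pow _ _ hN
  set l := Real.log (N : ℝ) with hl
  have hl1 : 1 ≤ l := by linarith
  have hl0 : 0 < l := by linarith
  set K1 := ⌈2 * l ^ 2 + C₀ * l⌉₊ with hK1
  set K2 := ⌊2 * l ^ 2 - C₁ * l⌋₊ with hK2
  have e1 : 2 * l ^ 2 + C₀ * l ≤ K1 := Nat.le_ceil _
  have e2 : (K1 : ℝ) < 2 * l ^ 2 + C₀ * l + 1 := Nat.ceil_lt_add_one (by positivity)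
  have e3 : (K2 : ℝ) ≤ 2 * l ^ 2 - C₁ * l := Nat.floor_le (by nlinarith)
  have e4 : 2 * l ^ 2 - C₁ * l < K2 + 1 := Nat.lt_floor_add_one _
  have hC0L : 0 < C₀ * l := by positivity
  have hC1L : 0 < C₁ * l := by positivity
  have hCL : (C₀ + C₁ + 1) * l = C₀ * l + C₁ * l + l := by ring
  have hK1K : K1 ≤ K := by
    apply Nat.ceil_le.2
    linarith
  have hK2K : K2 ≤ K := by
    have : (K2 : ℝ) ≤ K := by linarith
    exact_mod_cast this
  have f1 := h0 K1 e1
  have f2 := h1 K2 e3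
  rw [← PK_castLE hX hK1K] at f1
  rw [← PK_castLE hX hK2K] at f2
  refine le_trans (PK_mono (C := fun h => (∃ n ∈ Icc 1 N, Nm (fun i : Fin K1 => h (Fin.castLE hK1K i)) (n ^ 2) = 0) ∨
    (∀ n ∈ Icc 1 N, N < 2 * n → Nm (fun i : Fin K2 => h (Fin.castLE hK2K i)) (n ^ 2) ≠ 0)) ?_) ((PK_or _ _).trans (by linarith))
  intro h _ hh
  by_contra hc
  push Not at hc
  apply hh
  obtain ⟨c1, n, hn, hn2, c2⟩ := hc
  have w1 : ∀ n ∈ Icc 1 N, wait h (n ^ 2) ≤ (K1 : ℕ∞) := by
    intro n hn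
    obtain ⟨i, hi, hp⟩ := (Nm_ne hK1K h (n ^ 2)).1 (c1 n hn)
    unfold wait
    refine (iInf_le _ i).trans ?_
    rw [if_pos hp]
    exact_mod_cast (by omega : (i : ℕ) + 1 ≤ K1)
  have w2 : ((K2 + 1 : ℕ) : ℕ∞) ≤ wait h (n ^ 2) := by
    unfold wait
    apply le_iInf
    intro i
    split_ifs with hp
    · have : K2 ≤ (i : ℕ) := by
        by_contra hcc
        push Not at hcc
        exact (Nm_ne hK2K h (n ^ 2)).2 ⟨i, hcc, hp⟩ c2
      exact_mod_cast (by omega : K2 + 1 ≤ (i : ℕ) + 1)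
    · exact le_top
  have g1 : (⨆ n ∈ Icc 1 N, wait h (n ^ 2)) ≤ (K1 : ℕ∞) := iSup₂_le w1
  have g2 : (⨆ n ∈ (Icc 1 N).filter (fun n => N < 2 * n), wait h (n ^ 2)) ≤ (K1 : ℕ∞) :=
    iSup₂_le (fun n hn => w1 n (mem_filter.1 hn).1)
  have g3 : ((K2 + 1 : ℕ) : ℕ∞) ≤ ⨆ n ∈ (Icc 1 N).filter (fun n => N < 2 * n), wait h (n ^ 2) :=
    le_trans w2 (le_iSup₂ (f := fun n (_ : n ∈ (Icc 1 N).filter (fun n => N < 2 * n)) => wait h (n ^ 2)) n (mem_filter.2 ⟨hn, hn2⟩))
  obtain ⟨a, ha, haK⟩ := ENat.le_natCast_iff.1 g1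
  obtain ⟨b, hb, hbK⟩ := ENat.le_natCast_iff.1 g2
  rw [hb] at g3
  have g4 : K2 + 1 ≤ b := by exact_mod_cast g3
  refine ⟨a, b, ha, hb, ?_, ?_⟩
  · have : (a : ℝ) ≤ K1 := by exact_mod_cast haK
    nlinarith
  · have : (K2 : ℝ) + 1 ≤ b := by exact_mod_cast g4
    nlinarith

/-- the number of the `i` with `i ≤ c (log_2 n)²` -/
noncomputable def len (c : ℝ) (n : ℕ) : ℕ := ⌊c * Real.logb 2 n ^ 2⌋₊

lemma len_le (c : ℝ) (N : ℕ) : c * Real.logb 2 N ^ 2 = c / Real.log 2 ^ 2 * Real.log N ^ 2 := by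
  unfold Real.logb
  rw [div_pow]; ring

theorem sq_len_lo (c : ℝ) (hc : c < 2 * Real.log 2 ^ 2) : Tendsto (fun N : ℕ => PK (N ^ 2) (len c N)
    (fun h => ∀ n ∈ Icc 1 N, N < 2 * n → ∃ i : Fin (len c N), (i : ℕ) < len c n ∧ (n ^ 2 + h i).Prime)) atTop (𝓝 0) := by
  have hl2 : 0 < Real.log 2 := Real.log_pos (by norm_num)
  rw [Metric.tendsto_nhds]
  intro θ hθ
  obtain ⟨C₀, hC₀, h1⟩ := sq_lower (θ / 2) (by positivity)
  set c' := max (c / Real.log 2 ^ 2) 0 with hc'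
  have hc'2 : c' < 2 := by
    apply max_lt _ (by norm_num)
    rw [div_lt_iff₀ (by positivity)]
    exact hc
  filter_upwards [h1, eventually_ge_atTop 1, tends_log.eventually_ge_atTop (C₀ / (2 - c') + 1)] with N h1 hN hL
  have hq : 0 ≤ C₀ / (2 - c') := div_nonneg hC₀.le (by linarith)
  set l := Real.log (N : ℝ) with hl
  have hlen : (len c N : ℝ) ≤ 2 * l ^ 2 - C₀ * l := by
    have e1 : (len c N : ℝ) ≤ c' * l ^ 2 := by
      have e2 : c * Real.logb 2 N ^ 2 ≤ c' * l ^ 2 := by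
        rw [len_le]
        exact mul_le_mul_of_nonneg_right (le_max_left _ _) (sq_nonneg _)
      have e3 : (len c N : ℝ) ≤ ((⌊c' * l ^ 2⌋₊ : ℕ) : ℝ) := by
        unfold len
        exact_mod_cast Nat.floor_le_floor e2
      refine e3.trans (Nat.floor_le ?_)
      have : 0 ≤ c' := le_max_right _ _
      positivity
    have e2 : C₀ ≤ (2 - c') * l := by
      have : C₀ / (2 - c') ≤ l := by linarith
      rw [div_le_iff₀ (by linarith)] at this
      linarith
    nlinarith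
  have h2 := h1 (len c N) hlen
  have h3 : PK (N ^ 2) (len c N) (fun h => ∀ n ∈ Icc 1 N, N < 2 * n → ∃ i : Fin (len c N), (i : ℕ) < len c n ∧ (n ^ 2 + h i).Prime) ≤
      PK (N ^ 2) (len c N) (fun h => ∀ n ∈ Icc 1 N, N < 2 * n → Nm h (n ^ 2) ≠ 0) := by
    apply PK_mono
    intro h _ hh n hn hn2
    obtain ⟨i, _, hp⟩ := hh n hn hn2
    unfold Nm
    rw [Ne, card_eq_zero, ← Ne, ← nonempty_iff_ne_empty]
    exact ⟨i, mem_filter.2 ⟨mem_univ _, hp⟩⟩
  have h4 := PK_nonneg (X := N ^ 2) (K := len c N) (fun h => ∀ n ∈ Icc 1 N, N < 2 * n → ∃ i : Fin (len c N), (i : ℕ) < len c n ∧ (n ^ 2 + h i).Prime)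
  rw [Real.dist_eq, sub_zero, abs_of_nonneg h4]
  linarith

theorem sq_len_up (c u : ℝ) (hc : 0 < c) (hcu : 2 * Real.log 2 ^ 2 < c * u) : Tendsto (fun N : ℕ => PK (N ^ 2) (len c N)
    (fun h => ∀ n ∈ Icc 1 N, (N : ℝ) ^ u ≤ n → ∃ i : Fin (len c N), (i : ℕ) < len c n ∧ (n ^ 2 + h i).Prime)) atTop (𝓝 1) := by
  classical
  have hl2 : 0 < Real.log 2 := Real.log_pos (by norm_num)
  have hu : 0 < u := by
    by_contra hcon
    push Not at hcon
    have : c * u ≤ 0 := mul_nonpos_of_nonneg_of_nonpos hc.le hcon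
    have : 0 < 2 * Real.log 2 ^ 2 := by positivity
    linarith
  obtain ⟨c₀, hc₀, hη⟩ := eta_precise
  set α := c * u / (2 * Real.log 2 ^ 2) with hα
  have hα1 : 1 < α := by rw [hα, one_lt_div (by positivity)]; exact hcu
  set δ := (α - 1) / 2 with hδ
  have hδ0 : 0 < δ := by rw [hδ]; linarith
  have hαδ : α = 1 + 2 * δ := by rw [hδ]; ring
  -- the bound tends to zero
  have hlim : Tendsto (fun N : ℕ => Real.exp 1 * ((1 + Real.log N) * Real.exp (-(u * δ) * Real.log N))) atTop (𝓝 0) := by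
    have h1 : Tendsto (fun y : ℝ => (1 + y) * Real.exp (-(u * δ) * y)) atTop (𝓝 0) := by
      have h2 : Tendsto (fun y : ℝ => Real.exp (-(u * δ) * y)) atTop (𝓝 0) := by
        have : Tendsto (fun y : ℝ => -(u * δ) * y) atTop atBot := tendsto_id.const_mul_atTop_of_neg (by
          have : 0 < u * δ := by positivity
          linarith)
        exact Real.tendsto_exp_atBot.comp this
      have h3 : Tendsto (fun y : ℝ => y * Real.exp (-(u * δ) * y)) atTop (𝓝 0) := by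
        have := Real.tendsto_pow_mul_exp_neg_atTop_nhds_zero 1
        have hb : 0 < u * δ := by positivity
        have h4 : Tendsto (fun y : ℝ => (u * δ) * y) atTop atTop := tendsto_id.const_mul_atTop hb
        have h5 := (this.comp h4).const_mul ((u * δ)⁻¹)
        rw [mul_zero] at h5
        refine h5.congr ?_
        intro y
        simp only [Function.comp, pow_one]
        have e : -(u * δ * y) = -(u * δ) * y := by ring
        rw [e]
        field_simp
      have h6 := h2.add h3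
      rw [add_zero] at h6
      refine h6.congr ?_
      intro y; ring
    have h7 := (h1.comp tends_log).const_mul (Real.exp 1)
    rw [mul_zero] at h7
    exact h7
  have hcomp : ∀ᶠ N : ℕ in atTop, 1 - PK (N ^ 2) (len c N)
      (fun h => ∀ n ∈ Icc 1 N, (N : ℝ) ^ u ≤ n → ∃ i : Fin (len c N), (i : ℕ) < len c n ∧ (n ^ 2 + h i).Prime) ≤
        Real.exp 1 * ((1 + Real.log N) * Real.exp (-(u * δ) * Real.log N)) := by
    filter_upwards [tends_sq.eventually hη, eventually_ge_atTop 3, tends_log.eventually_ge_atTop (c₀ * α / (2 * δ) + c₀ + 1)] with N h1 hN hL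
    have hX : 1 ≤ N ^ 2 := Nat.one_le_pow _ _ (by omega)
    rw [log_sq_nat] at h1
    have hN0 : (0 : ℝ) < N := by exact_mod_cast (by omega : 0 < N)
    have hq : 0 ≤ c₀ * α / (2 * δ) := by positivity
    set l := Real.log (N : ℝ) with hl
    have hl0 : 1 ≤ l := by linarith
    set R := (Icc 1 N).filter (fun n : ℕ => (N : ℝ) ^ u ≤ n) with hR
    have hlenle : ∀ n ∈ R, len c n ≤ len c N := by
      intro n hn
      rw [hR, mem_filter, mem_Icc] at hn
      unfold len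
      apply Nat.floor_le_floor
      rw [len_le, len_le]
      apply mul_le_mul_of_nonneg_left _ (by positivity)
      apply pow_le_pow_left₀ (Real.log_natCast_nonneg _)
      exact Real.log_le_log (by exact_mod_cast hn.1.1) (by exact_mod_cast hn.1.2)
    have h2 := union_len hX (len c N) R (fun n => n ^ 2) (fun n => len c n) hlenle
    -- the complement
    have h3 : 1 - PK (N ^ 2) (len c N)
        (fun h => ∀ n ∈ Icc 1 N, (N : ℝ) ^ u ≤ n → ∃ i : Fin (len c N), (i : ℕ) < len c n ∧ (n ^ 2 + h i).Prime) ≤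
        PK (N ^ 2) (len c N) (fun h => ∃ n ∈ R, ¬ ∃ i : Fin (len c N), (i : ℕ) < len c n ∧ (n ^ 2 + h i).Prime) := by
      have h4 := PK_or (X := N ^ 2) (K := len c N) (fun h => ∀ n ∈ Icc 1 N, (N : ℝ) ^ u ≤ n → ∃ i : Fin (len c N), (i : ℕ) < len c n ∧ (n ^ 2 + h i).Prime)
        (fun h => ∃ n ∈ R, ¬ ∃ i : Fin (len c N), (i : ℕ) < len c n ∧ (n ^ 2 + h i).Prime)
      have h5 : (1 : ℝ) ≤ PK (N ^ 2) (len c N) (fun h => (∀ n ∈ Icc 1 N, (N : ℝ) ^ u ≤ n → ∃ i : Fin (len c N), (i : ℕ) < len c n ∧ (n ^ 2 + h i).Prime) ∨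
          (∃ n ∈ R, ¬ ∃ i : Fin (len c N), (i : ℕ) < len c n ∧ (n ^ 2 + h i).Prime)) := by
        apply one_le_PK hX
        intro h
        by_cases hc : ∀ n ∈ Icc 1 N, (N : ℝ) ^ u ≤ n → ∃ i : Fin (len c N), (i : ℕ) < len c n ∧ (n ^ 2 + h i).Prime
        · exact Or.inl hc
        · right
          push Not at hc
          obtain ⟨n, hn, hn2, hn3⟩ := hc
          refine ⟨n, by rw [hR]; exact mem_filter.2 ⟨hn, hn2⟩, ?_⟩
          push Not
          exact hn3
      linarith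
    refine h3.trans (h2.trans ?_)
    have hterm : ∀ n ∈ R, (1 - E1 (N ^ 2) (pr (n ^ 2))) ^ (len c n) ≤ Real.exp 1 * ((1 / (n : ℝ)) * Real.exp (-(u * δ) * l)) := by
      intro n hn
      rw [hR, mem_filter, mem_Icc] at hn
      obtain ⟨⟨hn1, hn2⟩, hn3⟩ := hn
      have hn0 : (0 : ℝ) < n := by exact_mod_cast hn1
      have h5 := (abs_le.1 (h1 (n ^ 2) (Nat.pow_le_pow_left hn2 2))).1
      have hη1 : E1 (N ^ 2) (pr (n ^ 2)) ≤ 1 := by
        rw [← E1_const hX 1]
        exact E1_mono (fun h _ => pr_le_one _ h)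
      set η := E1 (N ^ 2) (pr (n ^ 2)) with hη
      have h6 : (1 - η) ^ (len c n) ≤ Real.exp ((len c n : ℕ) * (-η)) := by
        rw [Real.exp_nat_mul]
        apply pow_le_pow_left₀ (by linarith)
        linarith [Real.add_one_le_exp (-η)]
      have hln : u * l ≤ Real.log n := by
        have := Real.log_le_log (Real.rpow_pos_of_pos hN0 u) hn3
        rwa [Real.log_rpow hN0] at this
      set y := Real.log (n : ℝ) with hy
      have hul : 0 < u * l := by positivity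
      have hy0 : 0 < y := by linarith
      have hlen : c / Real.log 2 ^ 2 * y ^ 2 - 1 ≤ len c n := by
        have h7 : c * Real.logb 2 n ^ 2 < (len c n : ℝ) + 1 := Nat.lt_floor_add_one _
        rw [len_le] at h7
        linarith
      have h7 : 1 / (2 * l) - c₀ / (2 * l) ^ 2 ≤ η := by linarith
      have h8 : 0 ≤ 1 / (2 * l) - c₀ / (2 * l) ^ 2 := by
        rw [sub_nonneg, div_le_div_iff₀ (by positivity) (by positivity)]
        nlinarith
      have h8' : 1 / (2 * l) - c₀ / (2 * l) ^ 2 ≤ 1 := by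
        have g1 : 1 / (2 * l) ≤ 1 := by rw [div_le_one (by positivity)]; linarith
        have g2 : 0 ≤ c₀ / (2 * l) ^ 2 := by positivity
        linarith
      have hlen0 : (0 : ℝ) ≤ len c n := Nat.cast_nonneg _
      have h9 : (1 + δ) * y - 1 ≤ len c n * η := by
        have g1 : c / Real.log 2 ^ 2 * y ^ 2 * (1 / (2 * l) - c₀ / (2 * l) ^ 2) - 1 ≤ (len c n : ℝ) * (1 / (2 * l) - c₀ / (2 * l) ^ 2) := by
          have := mul_le_mul_of_nonneg_right hlen h8
          linarith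
        have g2 : (len c n : ℝ) * (1 / (2 * l) - c₀ / (2 * l) ^ 2) ≤ len c n * η := mul_le_mul_of_nonneg_left h7 hlen0
        have g3 : (1 + δ) * y ≤ c / Real.log 2 ^ 2 * y ^ 2 * (1 / (2 * l) - c₀ / (2 * l) ^ 2) := by
          have g4 : c / Real.log 2 ^ 2 * y ^ 2 * (1 / (2 * l) - c₀ / (2 * l) ^ 2) = (c / (2 * Real.log 2 ^ 2) * (y / l)) * y * (1 - c₀ / (2 * l)) := by
            field_simp
          have g5 : α ≤ c / (2 * Real.log 2 ^ 2) * (y / l) := by
            have : u ≤ y / l := by rw [le_div_iff₀ (by linarith)]; exact hln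
            calc α = c / (2 * Real.log 2 ^ 2) * u := by rw [hα]; ring
              _ ≤ _ := mul_le_mul_of_nonneg_left this (by positivity)
          have g6 : 1 + δ ≤ α * (1 - c₀ / (2 * l)) := by
            have g7 : α * (c₀ / (2 * l)) ≤ δ := by
              rw [← mul_div_assoc, div_le_iff₀ (by positivity)]
              have : c₀ * α / (2 * δ) ≤ l := by linarith
              rw [div_le_iff₀ (by positivity)] at this
              linarith
            have : α * (1 - c₀ / (2 * l)) = α - α * (c₀ / (2 * l)) := by ring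
            rw [this]
            linarith
          have g8 : 0 ≤ 1 - c₀ / (2 * l) := by
            rw [sub_nonneg, div_le_one (by positivity)]
            linarith
          rw [g4]
          calc (1 + δ) * y ≤ (α * (1 - c₀ / (2 * l))) * y := mul_le_mul_of_nonneg_right g6 hy0.le
            _ = α * y * (1 - c₀ / (2 * l)) := by ring
            _ ≤ (c / (2 * Real.log 2 ^ 2) * (y / l)) * y * (1 - c₀ / (2 * l)) := by gcongr
        linarith
      refine h6.trans ?_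
      have h10 : 1 / (n : ℝ) = Real.exp (-y) := by rw [Real.exp_neg, hy, Real.exp_log hn0, one_div]
      rw [h10, ← Real.exp_add, ← Real.exp_add]
      apply Real.exp_le_exp.2
      have h11 : δ * (u * l) ≤ δ * y := mul_le_mul_of_nonneg_left hln hδ0.le
      linarith
    refine (sum_le_sum hterm).trans ?_
    rw [← mul_sum, ← sum_mul]
    apply mul_le_mul_of_nonneg_left _ (Real.exp_pos _).le
    apply mul_le_mul_of_nonneg_right _ (Real.exp_pos _).le
    have h12 : ∑ n ∈ R, 1 / (n : ℝ) ≤ ∑ n ∈ Icc 1 N, 1 / (n : ℝ) :=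
      sum_le_sum_of_subset_of_nonneg (filter_subset _ _) (fun n _ _ => by positivity)
    refine h12.trans ?_
    have h13 := harmonic_le_one_add_log N
    rw [harmonic_eq_sum_Icc] at h13
    push_cast at h13
    simp only [one_div]
    exact h13
  have h1 : Tendsto (fun N : ℕ => 1 - Real.exp 1 * ((1 + Real.log N) * Real.exp (-(u * δ) * Real.log N))) atTop (𝓝 1) := by
    simpa using tendsto_const_nhds.sub hlim
  refine tendsto_of_tendsto_of_tendsto_of_le_of_le' h1 tendsto_const_nhds ?_ ?_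
  · filter_upwards [hcomp] with N hN
    linarith
  · filter_upwards [eventually_ge_atTop 1] with N hN
    exact PK_le_one (Nat.one_le_pow _ _ hN) _

end Pool.Agent.N735.CL
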