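import Mathlib
import Pool.Agent.N735.CL.Md4
import Pool.Agent.N735.CL.Sq4

set_option autoImplicit false
set_option maxHeartbeats 4000000

/-! The maximal deviation: the upper bound and the law. -/

namespace Pool.Agent.N735.CL

open Finset Filter Topology

lemma exp_cub {z : ℝ} (hz : |z| ≤ 1) : Real.exp z - 1 - z ≤ z ^ 2 / 2 + |z| ^ 3 := by
  have h := Real.exp_bound hz (n := 3) (by norm_num)
  rw [Finset.sum_range_succ, Finset.sum_range_succ, Finset.sum_range_one] at h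
  have h1 := (le_abs_self _).trans h
  have h2 : |z| ^ 3 * ((Nat.succ 3 : ℕ) / ((Nat.factorial 3 : ℕ) * (3 : ℕ)) : ℝ) ≤ |z| ^ 3 := by
    have h3 : 0 ≤ |z| ^ 3 := by positivity
    have h4 : ((Nat.succ 3 : ℕ) / ((Nat.factorial 3 : ℕ) * (3 : ℕ)) : ℝ) ≤ 1 := by
      norm_num [Nat.factorial]
    calc |z| ^ 3 * ((Nat.succ 3 : ℕ) / ((Nat.factorial 3 : ℕ) * (3 : ℕ)) : ℝ) ≤ |z| ^ 3 * 1 := mul_le_mul_of_nonneg_left h4 h3
      _ = _ := mul_one _
  have h5 : z ^ 0 / (Nat.factorial 0 : ℕ) + z ^ 1 / (Nat.factorial 1 : ℕ) + z ^ 2 / (Nat.factorial 2 : ℕ) = 1 + z + z ^ 2 / 2 := by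
    norm_num [Nat.factorial]
  rw [h5] at h1
  linarith

theorem dev_upper (ε θ : ℝ) (hε : 0 < ε) (hε1 : ε ≤ 1) (hθ : 0 < θ) : ∀ᶠ X : ℕ in atTop, ∀ σ : ℝ, (σ = 1 ∨ σ = -1) → ∀ K : ℕ,
    8192 / ε ^ 2 * Real.log X ^ 2 ≤ K →
      PK X K (fun h => ∃ m ∈ Icc 1 X, (1 + ε) * Real.sqrt (2 * K) ≤ σ * ((Nm h m : ℝ) - K * E1 X (pr m))) ≤ θ := by
  have hbig : ∀ᶠ X : ℕ in atTop, Real.exp (-(ε * Real.log X)) ≤ θ := by
    have h2 : Tendsto (fun X : ℕ => ε * Real.log (X : ℝ)) atTop atTop := tends_log.const_mul_atTop hε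
    exact (Real.tendsto_exp_neg_atTop_nhds_zero.comp h2).eventually_le_const hθ
  filter_upwards [eta_window (ε / 64) (by positivity), hbig, eventually_ge_atTop 1, tends_log.eventually_ge_atTop 8] with X h1 h2 hX1 hL8 σ hσ K hK
  have hX0 : (0 : ℝ) < X := by exact_mod_cast (by omega : 0 < X)
  set L := Real.log (X : ℝ) with hL
  have hL0 : 0 < L := by linarith
  set S := Real.sqrt (2 * K) with hSd
  have hKpos : (0 : ℝ) < K := lt_of_lt_of_le (by positivity) hK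
  have hS2 : S ^ 2 = 2 * K := Real.sq_sqrt (by positivity)
  have hS0 : 0 < S := Real.sqrt_pos.2 (by positivity)
  have hSL : 128 * L ≤ ε * S := by
    have h10 : 128 * L / ε ≤ S := by
      apply Real.le_sqrt_of_sq_le
      have : (128 * L / ε) ^ 2 = 2 * (8192 / ε ^ 2 * L ^ 2) := by
        rw [div_pow]; ring
      rw [this]; linarith
    rw [div_le_iff₀ hε] at h10
    linarith
  have hσa : |σ| = 1 := by rcases hσ with h | h <;> rw [h] <;> simp
  have hσ2 : σ ^ 2 = 1 := by rcases hσ with h | h <;> rw [h] <;> norm_num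
  set v := 2 * (1 + ε) * L / S with hv
  have hv0 : 0 < v := by positivity
  have hvS : v * S = 2 * (1 + ε) * L := by rw [hv]; field_simp
  have hvε : v ≤ ε / 32 := by
    rw [hv, div_le_iff₀ hS0]
    nlinarith
  have hterm : ∀ m ∈ Icc 1 X, PK X K (fun h => (1 + ε) * S ≤ σ * ((Nm h m : ℝ) - K * E1 X (pr m))) ≤ Real.exp (-((1 + ε) * L)) := by
    intro m hm
    have hη := abs_le.1 (h1 m (mem_Icc.1 hm).2)
    set η := E1 X (pr m) with hηd
    have hη0 : 0 ≤ η := E1_pr_nonneg X m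
    have hη1 : η ≤ 1 := by
      rw [hηd, ← E1_const hX1 1]
      exact E1_mono (fun h _ => pr_le_one _ h)
    set z := σ * v with hz
    have hza : |z| = v := by rw [hz, abs_mul, hσa, one_mul, abs_of_pos hv0]
    have hz2 : z ^ 2 = v ^ 2 := by rw [← sq_abs, hza]
    have hz1 : |z| ≤ 1 := by rw [hza]; linarith
    have g1 : PK X K (fun h => (1 + ε) * S ≤ σ * ((Nm h m : ℝ) - K * η)) ≤
        EK X K (fun h => Real.exp (-(z * (K * η)) - v * ((1 + ε) * S)) * Real.exp z ^ Nm h m) := by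
      unfold PK
      apply EK_mono
      intro h _
      have e : Real.exp (-(z * (K * η)) - v * ((1 + ε) * S)) * Real.exp z ^ Nm h m =
          Real.exp (v * (σ * ((Nm h m : ℝ) - K * η) - (1 + ε) * S)) := by
        rw [← Real.exp_nat_mul, ← Real.exp_add]
        congr 1
        rw [hz]; ring
      rw [e]
      split_ifs with hc
      · apply Real.one_le_exp
        apply mul_nonneg hv0.le
        linarith
      · positivity
    refine g1.trans ?_
    rw [EK_const_mul, EK_pow hX1, ← hηd]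
    have hez : 0 < Real.exp z := Real.exp_pos _
    have g2 : (1 + (Real.exp z - 1) * η) ^ K ≤ Real.exp (K * ((Real.exp z - 1) * η)) := by
      rw [Real.exp_nat_mul]
      apply pow_le_pow_left₀
      · nlinarith
      · linarith [Real.add_one_le_exp ((Real.exp z - 1) * η)]
    calc Real.exp (-(z * (K * η)) - v * ((1 + ε) * S)) * (1 + (Real.exp z - 1) * η) ^ K ≤
          Real.exp (-(z * (K * η)) - v * ((1 + ε) * S)) * Real.exp (K * ((Real.exp z - 1) * η)) :=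
          mul_le_mul_of_nonneg_left g2 (Real.exp_pos _).le
      _ = Real.exp (K * η * (Real.exp z - 1 - z) - v * ((1 + ε) * S)) := by
          rw [← Real.exp_add]; congr 1; ring
      _ ≤ Real.exp (-((1 + ε) * L)) := by
          apply Real.exp_le_exp.2
          have g3 := exp_cub hz1
          rw [hz2, hza] at g3
          have hKη : 0 ≤ K * η := by positivity
          have g4 : K * η * (Real.exp z - 1 - z) ≤ K * η * (v ^ 2 / 2 + v ^ 3) := mul_le_mul_of_nonneg_left g3 hKη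
          have g5 : K * η * (v ^ 2 / 2 + v ^ 3) = (η * L) * ((1 + ε) ^ 2 * L) * (1 + 2 * v) := by
            have : (K : ℝ) = S ^ 2 / 2 := by linarith
            have e1 : K * η * (v ^ 2 / 2 + v ^ 3) = η * (v * S) ^ 2 * (1 + 2 * v) / 4 := by rw [this]; ring
            rw [e1, hvS]; ring
          have g6 : (η * L) * ((1 + ε) ^ 2 * L) * (1 + 2 * v) ≤ (1 + ε / 8) * ((1 + ε) ^ 2 * L) := by
            have k1 : (η * L) * (1 + 2 * v) ≤ (1 + ε / 64) * (1 + ε / 16) := by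
              apply mul_le_mul (by linarith [hη.2]) (by linarith) (by linarith) (by positivity)
            have k2 : (1 + ε / 64) * (1 + ε / 16) ≤ 1 + ε / 8 := by nlinarith
            have k3 : 0 ≤ (1 + ε) ^ 2 * L := by positivity
            calc (η * L) * ((1 + ε) ^ 2 * L) * (1 + 2 * v) = ((η * L) * (1 + 2 * v)) * ((1 + ε) ^ 2 * L) := by ring
              _ ≤ (1 + ε / 8) * ((1 + ε) ^ 2 * L) := mul_le_mul_of_nonneg_right (k1.trans k2) k3
          have g7 : v * ((1 + ε) * S) = 2 * ((1 + ε) ^ 2 * L) := by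
            have : v * ((1 + ε) * S) = (v * S) * (1 + ε) := by ring
            rw [this, hvS]; ring
          rw [g7]
          have g8 : (1 + ε) * L ≤ (1 - ε / 8) * ((1 + ε) ^ 2 * L) := by
            have : 1 ≤ (1 - ε / 8) * (1 + ε) := by nlinarith
            calc (1 + ε) * L = 1 * ((1 + ε) * L) := (one_mul _).symm
              _ ≤ ((1 - ε / 8) * (1 + ε)) * ((1 + ε) * L) := mul_le_mul_of_nonneg_right this (by positivity)
              _ = _ := by ring
          linarith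
  refine (PK_exists (Icc 1 X) (fun m h => (1 + ε) * S ≤ σ * ((Nm h m : ℝ) - K * E1 X (pr m)))).trans ?_
  refine (sum_le_sum hterm).trans ?_
  rw [sum_const, nsmul_eq_mul, Nat.card_Icc, Nat.add_sub_cancel]
  have hXe : (X : ℝ) = Real.exp L := (Real.exp_log hX0).symm
  rw [hXe, ← Real.exp_add]
  refine le_trans (le_of_eq ?_) h2
  congr 1
  ring

/-- the law of the maximal deviations -/
theorem dev_law (ε θ : ℝ) (hε : 0 < ε) (hε1 : ε ≤ 1) (hθ : 0 < θ) : ∀ᶠ X : ℕ in atTop, ∀ K : ℕ,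
    8192 / ε ^ 2 * Real.log X ^ 2 ≤ K →
      PK X K (fun h => ¬ ∀ σ : ℝ, (σ = 1 ∨ σ = -1) →
        (∃ m ∈ Icc 1 X, (1 - ε) * Real.sqrt (2 * K) ≤ σ * ((Nm h m : ℝ) - K * E1 X (pr m))) ∧
        (∀ m ∈ Icc 1 X, σ * ((Nm h m : ℝ) - K * E1 X (pr m)) ≤ (1 + ε) * Real.sqrt (2 * K))) ≤ θ := by
  filter_upwards [dev_lower ε (θ / 4) hε hε1 (by positivity), dev_upper ε (θ / 4) hε hε1 (by positivity)] with X h1 h2 K hK
  have a1 := h1 1 (Or.inl rfl) K hK
  have a2 := h1 (-1) (Or.inr rfl) K hK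
  have b1 := h2 1 (Or.inl rfl) K hK
  have b2 := h2 (-1) (Or.inr rfl) K hK
  refine le_trans (PK_mono (C := fun h => ((∀ m ∈ Icc 1 X, (1 : ℝ) * ((Nm h m : ℝ) - K * E1 X (pr m)) < (1 - ε) * Real.sqrt (2 * K)) ∨
      (∀ m ∈ Icc 1 X, (-1 : ℝ) * ((Nm h m : ℝ) - K * E1 X (pr m)) < (1 - ε) * Real.sqrt (2 * K))) ∨
      ((∃ m ∈ Icc 1 X, (1 + ε) * Real.sqrt (2 * K) ≤ (1 : ℝ) * ((Nm h m : ℝ) - K * E1 X (pr m))) ∨
      (∃ m ∈ Icc 1 X, (1 + ε) * Real.sqrt (2 * K) ≤ (-1 : ℝ) * ((Nm h m : ℝ) - K * E1 X (pr m))))) ?_) ?_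
  · intro h _ hh
    by_contra hc
    apply hh
    rw [not_or, not_or, not_or] at hc
    obtain ⟨⟨c1, c2⟩, c3, c4⟩ := hc
    push Not at c1 c2 c3 c4
    intro σ hσ
    rcases hσ with rfl | rfl
    · exact ⟨c1, fun m hm => (c3 m hm).le⟩
    · exact ⟨c2, fun m hm => (c4 m hm).le⟩
  · refine (PK_or _ _).trans ?_
    have k1 := PK_or (X := X) (K := K) (fun h => ∀ m ∈ Icc 1 X, (1 : ℝ) * ((Nm h m : ℝ) - K * E1 X (pr m)) < (1 - ε) * Real.sqrt (2 * K))
      (fun h => ∀ m ∈ Icc 1 X, (-1 : ℝ) * ((Nm h m : ℝ) - K * E1 X (pr m)) < (1 - ε) * Real.sqrt (2 * K))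
    have k2 := PK_or (X := X) (K := K) (fun h => ∃ m ∈ Icc 1 X, (1 + ε) * Real.sqrt (2 * K) ≤ (1 : ℝ) * ((Nm h m : ℝ) - K * E1 X (pr m)))
      (fun h => ∃ m ∈ Icc 1 X, (1 + ε) * Real.sqrt (2 * K) ≤ (-1 : ℝ) * ((Nm h m : ℝ) - K * E1 X (pr m)))
    linarith

end Pool.Agent.N735.CL
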