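import Mathlib
import Pool.Agent.N735.CL.Ap3
import Pool.Agent.N735.CL.Ap4
import Pool.Agent.N735.CL.Md5

set_option autoImplicit false
set_option maxHeartbeats 2000000

/-! Functions of the residue classes: the tails and the diagonal. -/

namespace Pool.Agent.N735.CL

open Finset Filter Topology

/-- the sum of `c` over the primes of a translated pattern -/
noncomputable def Nc (c : ℕ → ℝ) {K : ℕ} (h : Fin K → ℕ) (m : ℕ) : ℝ := ∑ i, cp c m (h i)

/-- the weight of a tuple -/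
noncomputable def Gc (c : ℕ → ℝ) (w : ℕ) (x l : ℝ) (X m : ℕ) {K : ℕ} (h : Fin K → ℕ) : ℝ := ∏ i, gq c w x l X m (h i)

lemma EK_Gc (c : ℕ → ℝ) (w : ℕ) (x l : ℝ) (X m K : ℕ) : EK X K (fun h => Gc c w x l X m h) = Aq c w x l X m ^ K := by
  unfold Gc Aq
  rw [EK_prod]

lemma exp_Nc (c : ℕ → ℝ) (z : ℝ) {K : ℕ} (h : Fin K → ℕ) (m : ℕ) : Real.exp (z * Nc c h m) = ∏ i, Real.exp (z * cp c m (h i)) := by
  unfold Nc
  rw [mul_sum, Real.exp_sum]

lemma add_pow_le {A y : ℝ} (K : ℕ) (hA : 0 < A) (hn : 0 ≤ A + y) : (A + y) ^ K ≤ A ^ K * Real.exp (K * (y / A)) := by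
  have e : A + y = A * (1 + y / A) := by field_simp
  have h1 : 0 ≤ 1 + y / A := by
    rw [e] at hn
    exact nonneg_of_mul_nonneg_right hn hA
  rw [e, mul_pow, Real.exp_nat_mul]
  have e2 : A * (1 + y / A) = A + y := by field_simp
  apply mul_le_mul_of_nonneg_left _ (by positivity)
  apply pow_le_pow_left₀ h1
  linarith [Real.add_one_le_exp (y / A)]

section

variable {c : ℕ → ℝ} (hc : ∀ n, |c n| ≤ 1) {X w m : ℕ} (hX : 1 ≤ X) (hm : Ww w ∣ m) (hm0 : 0 < m) (hcm : ∀ h, c (m + h) = c h)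

include hc hX hm hm0 hcm in
/-- the exponential moment of one coordinate under the tilted measure -/
lemma E1_tail {x l z : ℝ} (hx : |x| ≤ 1 / 64) (hl : |l| ≤ 1 / 10) (hz : |z| ≤ 1) : ∃ U2 : ℝ, |U2 - Dc c X m| ≤ 2 * |l| * E1 X (pr m) ∧
    E1 X (fun h => gq c w x l X m h * Real.exp (z * cp c m h)) ≤ Aq c w x l X m + (z * (A1q c w l X m + x * U2) +
      z ^ 2 * (5 / 4 * Dc c X m)) := by
  refine ⟨E1 X (fun h => cp (fun n => c n ^ 2) m h * uf c w l X h), ?_, ?_⟩
  · have e : E1 X (fun h => cp (fun n => c n ^ 2) m h * uf c w l X h) - Dc c X m = E1 X (fun h => cp (fun n => c n ^ 2) m h * (uf c w l X h - 1)) := by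
      have : E1 X (fun h => cp (fun n => c n ^ 2) m h * uf c w l X h) = E1 X (fun h => cp (fun n => c n ^ 2) m h * (uf c w l X h - 1) + cp (fun n => c n ^ 2) m h) :=
        E1_congr (fun h _ => by ring)
      rw [this, E1_add]
      unfold Dc
      ring
    rw [e, ← E1_const_mul]
    apply E1_abs
    intro h _
    rw [abs_mul, mul_comm]
    apply mul_le_mul (uf_abs hc hX l h) _ (abs_nonneg _) (by positivity)
    apply cp_abs (c := fun n => c n ^ 2) _ m h
    intro n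
    rw [abs_pow]
    exact pow_le_one₀ (abs_nonneg _) (hc n)
  · have h1 : ∀ h ∈ Icc 1 X, gq c w x l X m h * Real.exp (z * cp c m h) ≤
        gq c w x l X m h + (z * (cp c m h * uf c w l X h + x * (cp (fun n => c n ^ 2) m h * uf c w l X h)) +
          z ^ 2 * (5 / 4 * cp (fun n => c n ^ 2) m h)) := by
      intro h _
      have hcp := cp_abs1 hc m h
      have hg := gq_nonneg hc hX (w := w) (show |x| ≤ 1 / 2 by linarith) (show |l| ≤ 1 / 4 by linarith) m h
      have hzc : |z * cp c m h| ≤ 1 := by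
        rw [abs_mul]
        calc |z| * |cp c m h| ≤ 1 * 1 := mul_le_mul hz hcp (abs_nonneg _) (by norm_num)
          _ = 1 := one_mul _
      have h2 := exp_quad hzc
      have h3 := mul_le_mul_of_nonneg_left h2 hg
      have hsq : cp c m h ^ 2 = cp (fun n => c n ^ 2) m h := by
        unfold cp
        rw [mul_pow, sq (pr m h), pr_sq]
      have h4 : gq c w x l X m h * cp c m h = cp c m h * uf c w l X h + x * (cp (fun n => c n ^ 2) m h * uf c w l X h) := by
        rw [← hsq]; unfold gq; ring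
      have h5 : gq c w x l X m h ≤ 5 / 4 := by
        unfold gq
        have a1 : |x * cp c m h| ≤ 1 / 64 * 1 := by
          rw [abs_mul]; exact mul_le_mul hx hcp (abs_nonneg _) (by norm_num)
        have a2 := (abs_le.1 (uf_abs hc hX (w := w) l h))
        have a3 := (abs_le.1 a1)
        have a4 : uf c w l X h ≤ 12 / 10 := by linarith
        have a5 : 0 ≤ uf c w l X h := by linarith
        calc (1 + x * cp c m h) * uf c w l X h ≤ (65 / 64) * (12 / 10) := mul_le_mul (by linarith) a4 a5 (by norm_num)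
          _ ≤ 5 / 4 := by norm_num
      have h6 : gq c w x l X m h * cp c m h ^ 2 ≤ 5 / 4 * cp c m h ^ 2 := mul_le_mul_of_nonneg_right h5 (sq_nonneg _)
      have h7 := mul_le_mul_of_nonneg_left h6 (sq_nonneg z)
      rw [← h4, ← hsq]
      have e : gq c w x l X m h * (z * cp c m h + (z * cp c m h) ^ 2) = z * (gq c w x l X m h * cp c m h) + z ^ 2 * (gq c w x l X m h * cp c m h ^ 2) := by ring
      rw [e] at h3
      linarith
    refine (E1_mono h1).trans (le_of_eq ?_)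
    rw [E1_add, E1_add, E1_const_mul, E1_const_mul, E1_add, E1_const_mul, E1_const_mul, E1_cpuf hm hm0 hcm]
    rfl

include hc hX hm hm0 hcm in
/-- the diagonal moment of one coordinate -/
lemma E1_diag {x l : ℝ} (hx : |x| ≤ 1 / 64) (hl : |l| ≤ 1 / 10) : ∃ R : ℝ, |R| ≤ 4 * E1 X (pr m) ∧
    E1 X (fun h => gq c w x l X m h ^ 2 * Real.exp (-(x * cp c m h))) ≤ 1 + (l ^ 2 * (gv c w X - gc c w X ^ 2) +
      x * ((1 - 2 * l * gc c w X) * Bc c X m + 2 * l * Dc c X m + l ^ 2 * R) - x ^ 2 / 2 * ((1 - 4 * |l|) * Dc c X m) + 6 * |x| ^ 3 * E1 X (pr m)) := by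
  obtain ⟨R, hR, h1⟩ := E1_cpuf2 hc hX hm hm0 hcm l
  refine ⟨R, hR, ?_⟩
  have h2 : ∀ h ∈ Icc 1 X, gq c w x l X m h ^ 2 * Real.exp (-(x * cp c m h)) ≤
      uf c w l X h ^ 2 + (x * (cp c m h * uf c w l X h ^ 2) + ((-(x ^ 2 / 2) * (1 - 4 * |l|)) * cp (fun n => c n ^ 2) m h + (6 * |x| ^ 3) * pr m h)) := by
    intro h _
    have hcp := cp_abs1 hc m h
    have hy : |x * cp c m h| ≤ 1 / 4 := by
      rw [abs_mul]
      calc |x| * |cp c m h| ≤ 1 / 64 * 1 := mul_le_mul hx hcp (abs_nonneg _) (by norm_num)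
        _ ≤ 1 / 4 := by norm_num
    have h3 := sq_exp hy (exp_cub (by rw [abs_neg]; linarith))
    have hu0 : 0 ≤ uf c w l X h ^ 2 := sq_nonneg _
    have h4 := mul_le_mul_of_nonneg_left h3 hu0
    have e1 : gq c w x l X m h ^ 2 * Real.exp (-(x * cp c m h)) = uf c w l X h ^ 2 * ((1 + x * cp c m h) ^ 2 * Real.exp (-(x * cp c m h))) := by
      unfold gq; ring
    rw [e1]
    refine h4.trans ?_
    have hsq : cp c m h ^ 2 = cp (fun n => c n ^ 2) m h := by
      unfold cp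
      rw [mul_pow, sq (pr m h), pr_sq]
    obtain ⟨u1, u2⟩ := abs_le.1 (uf_abs hc hX (w := w) l h)
    have hl0 := abs_nonneg l
    have h5 : 1 - 4 * |l| ≤ uf c w l X h ^ 2 := by
      have : 1 - 2 * |l| ≤ uf c w l X h := by linarith
      have h6 := pow_le_pow_left₀ (show 0 ≤ 1 - 2 * |l| by linarith) this 2
      nlinarith
    have h6 : uf c w l X h ^ 2 ≤ 2 := by
      have h7 : uf c w l X h ≤ 12 / 10 := by linarith
      have h8 : 0 ≤ uf c w l X h := by linarith
      nlinarith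
    have h7 : |x * cp c m h| ^ 3 ≤ |x| ^ 3 * pr m h := by
      rw [abs_mul, mul_pow]
      apply mul_le_mul_of_nonneg_left _ (by positivity)
      have a1 := cp_abs hc m h
      have a2 : pr m h ^ 3 = pr m h := by
        rw [pow_succ, sq, pr_sq, pr_sq]
      calc |cp c m h| ^ 3 ≤ pr m h ^ 3 := pow_le_pow_left₀ (abs_nonneg _) a1 3
        _ = _ := a2
    have h8 : uf c w l X h ^ 2 * (3 * |x * cp c m h| ^ 3) ≤ (6 * |x| ^ 3) * pr m h := by
      calc uf c w l X h ^ 2 * (3 * |x * cp c m h| ^ 3) ≤ 2 * (3 * (|x| ^ 3 * pr m h)) := by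
            apply mul_le_mul h6 (by linarith) (by positivity) (by norm_num)
        _ = _ := by ring
    have h9 : (x ^ 2 / 2 * (1 - 4 * |l|)) * cp c m h ^ 2 ≤ uf c w l X h ^ 2 * ((x * cp c m h) ^ 2 / 2) := by
      have : (x ^ 2 / 2 * (1 - 4 * |l|)) * cp c m h ^ 2 = (1 - 4 * |l|) * ((x * cp c m h) ^ 2 / 2) := by ring
      rw [this]
      exact mul_le_mul_of_nonneg_right h5 (by positivity)
    rw [← hsq]
    have e2 : uf c w l X h ^ 2 * (1 + x * cp c m h - (x * cp c m h) ^ 2 / 2 + 3 * |x * cp c m h| ^ 3) =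
        uf c w l X h ^ 2 + x * (cp c m h * uf c w l X h ^ 2) - uf c w l X h ^ 2 * ((x * cp c m h) ^ 2 / 2) +
          uf c w l X h ^ 2 * (3 * |x * cp c m h| ^ 3) := by ring
    rw [e2]
    linarith
  refine (E1_mono h2).trans (le_of_eq ?_)
  rw [E1_add, E1_add, E1_add, E1_const_mul, E1_const_mul, E1_const_mul, E1_uf2 hX, h1]
  unfold Dc
  ring

end

/-- what is known of a translate -/
structure Tr (c : ℕ → ℝ) (cb v : ℝ) (w X m : ℕ) (l x L δ : ℝ) : Prop where
  hc : ∀ n, |c n| ≤ 1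
  hX : 1 ≤ X
  hm : Ww w ∣ m
  hm0 : 0 < m
  hcm : ∀ h, c (m + h) = c h
  hL : 8 ≤ L
  hv0 : 0 < v
  hv1 : v ≤ 1
  hcb : |cb| ≤ 1
  hδ1 : δ ≤ 1 / 64
  hB : |L * Bc c X m - cb| ≤ δ * v
  hD : |L * Dc c X m - v| ≤ δ * v
  hP : L * E1 X (pr m) ≤ 2
  hx : |x| ≤ 1 / 64
  hl : |l| * L ≤ 2 * Ww w * |x|
  hl1 : |l| ≤ 1 / 10

lemma Tr.A1b {c : ℕ → ℝ} {cb v : ℝ} {w X m : ℕ} {l x L δ : ℝ} (T : Tr c cb v w X m l x L δ) : |A1q c w l X m| ≤ 2 / L := by
  have hL0 : 0 < L := by linarith [T.hL]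
  have h1 : δ * v ≤ 1 / 10 := by
    have := mul_le_mul T.hδ1 T.hv1 T.hv0.le (by norm_num)
    linarith
  exact A1_bound hL0 rfl rfl T.hB T.hD h1 T.hcb T.hv0.le T.hv1 (gc_abs T.hc T.hX) T.hl1

lemma Tr.A34 {c : ℕ → ℝ} {cb v : ℝ} {w X m : ℕ} {l x L δ : ℝ} (T : Tr c cb v w X m l x L δ) : 3 / 4 ≤ Aq c w x l X m := by
  have hL0 : 0 < L := by linarith [T.hL]
  rw [Aq_eq T.hX T.hm T.hm0 T.hcm]
  have h5 : |x * A1q c w l X m| ≤ 1 / 64 * (2 / L) := by
    rw [abs_mul]
    exact mul_le_mul T.hx T.A1b (abs_nonneg _) (by norm_num)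
  have h6 : 1 / 64 * (2 / L) ≤ 1 / 4 := by
    rw [div_mul_div_comm, div_le_div_iff₀ (by positivity) (by norm_num)]
    linarith [T.hL]
  linarith [(abs_le.1 h5).1]

/-- the tails under the tilted measure -/
lemma tailc {c : ℕ → ℝ} {cb v : ℝ} {w X m K : ℕ} {l x L δ : ℝ} (T : Tr c cb v w X m l x L δ) {S a σ ρ c1 ε : ℝ}
    (hS : S ^ 2 = 2 * v * K) (hS0 : 0 < S) (hε : 0 < ε) (hε1 : ε ≤ 1) (ha0 : 0 ≤ a) (ha1 : a ≤ 1) (hx : x = σ * (2 * a * L / S)) (hδ : δ = ε / 64)
    (hW : 8 * ((Ww w : ℝ) + 1) ≤ δ * v * L) (hc1 : ρ * (a - c1) ≤ -(ε / 4)) (hσ : σ = 1 ∨ σ = -1) (hρ : ρ = 1 ∨ ρ = -1)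
    (hSL : 512 * L ≤ ε * v * S) :
    EK X K (fun h => if 0 < ρ * (σ * (Nc c h m - K * Bc c X m) - c1 * S) then Gc c w x l X m h else 0) ≤
      Aq c w x l X m ^ K * Real.exp (-(ε ^ 2 * L / 128)) := by
  have hL0 : 0 < L := by linarith [T.hL]
  have hσa : |σ| = 1 := by rcases hσ with h | h <;> rw [h] <;> simp
  have hρa : |ρ| = 1 := by rcases hρ with h | h <;> rw [h] <;> simp
  have hσ2 : σ * σ = 1 := by rcases hσ with h | h <;> rw [h] <;> norm_num
  set vv := ε * L / (8 * S) with hvv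
  have hvv0 : 0 < vv := by positivity
  have hvv1 : vv ≤ 1 := by
    rw [hvv, div_le_one (by positivity)]
    have : ε * v * S ≤ 1 * S := by
      apply mul_le_mul_of_nonneg_right _ hS0.le
      have := mul_le_mul hε1 T.hv1 T.hv0.le (by norm_num)
      linarith
    nlinarith
  set z := vv * ρ * σ with hz
  have hza : |z| = vv := by rw [hz, abs_mul, abs_mul, hσa, hρa, mul_one, mul_one, abs_of_pos hvv0]
  obtain ⟨U2, hU2, hE⟩ := E1_tail T.hc T.hX T.hm T.hm0 T.hcm T.hx T.hl1 (show |z| ≤ 1 by rw [hza]; exact hvv1)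
  have hA34 := T.A34
  have hA0 : 0 < Aq c w x l X m := by linarith
  have hgn : ∀ h, 0 ≤ gq c w x l X m h := gq_nonneg T.hc T.hX (by linarith [T.hx]) (by linarith [T.hl1]) m
  have hGn : ∀ h : Fin K → ℕ, 0 ≤ Gc c w x l X m h := fun h => prod_nonneg (fun i _ => hgn _)
  have h1 : EK X K (fun h => if 0 < ρ * (σ * (Nc c h m - K * Bc c X m) - c1 * S) then Gc c w x l X m h else 0) ≤
      EK X K (fun h => Real.exp (-(z * (K * Bc c X m)) - vv * ρ * (c1 * S)) * ∏ i, (gq c w x l X m (h i) * Real.exp (z * cp c m (h i)))) := by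
    apply EK_mono
    intro h _
    rw [prod_mul_distrib, ← exp_Nc]
    have e : Real.exp (-(z * (K * Bc c X m)) - vv * ρ * (c1 * S)) * ((∏ i, gq c w x l X m (h i)) * Real.exp (z * Nc c h m)) =
        Gc c w x l X m h * Real.exp (vv * (ρ * (σ * (Nc c h m - K * Bc c X m) - c1 * S))) := by
      unfold Gc
      have : vv * (ρ * (σ * (Nc c h m - K * Bc c X m) - c1 * S)) = (-(z * (K * Bc c X m)) - vv * ρ * (c1 * S)) + z * Nc c h m := by
        rw [hz]; ring
      rw [this, Real.exp_add]; ring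
    rw [e]
    split_ifs with hcond
    · apply le_mul_of_one_le_right (hGn h)
      apply Real.one_le_exp
      positivity
    · exact mul_nonneg (hGn h) (Real.exp_pos _).le
  refine h1.trans ?_
  rw [EK_const_mul, EK_prod X K (fun v => gq c w x l X m v * Real.exp (z * cp c m v))]
  set y := z * (A1q c w l X m + x * U2) + z ^ 2 * (5 / 4 * Dc c X m) with hy
  have hE0 : 0 ≤ E1 X (fun h => gq c w x l X m h * Real.exp (z * cp c m h)) := E1_nonneg (fun h _ => mul_nonneg (hgn h) (Real.exp_pos _).le)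
  have h2 : E1 X (fun h => gq c w x l X m h * Real.exp (z * cp c m h)) ^ K ≤ Aq c w x l X m ^ K * Real.exp (K * (y / Aq c w x l X m)) :=
    (pow_le_pow_left₀ hE0 hE K).trans (add_pow_le K hA0 (hE0.trans hE))
  have hAK : 0 < Aq c w x l X m ^ K := by positivity
  calc Real.exp (-(z * (K * Bc c X m)) - vv * ρ * (c1 * S)) * E1 X (fun h => gq c w x l X m h * Real.exp (z * cp c m h)) ^ K ≤
        Real.exp (-(z * (K * Bc c X m)) - vv * ρ * (c1 * S)) * (Aq c w x l X m ^ K * Real.exp (K * (y / Aq c w x l X m))) :=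
        mul_le_mul_of_nonneg_left h2 (Real.exp_pos _).le
    _ = Aq c w x l X m ^ K * Real.exp ((-(z * (K * Bc c X m)) - vv * ρ * (c1 * S)) + K * (y / Aq c w x l X m)) := by
        rw [Real.exp_add]; ring
    _ ≤ Aq c w x l X m ^ K * Real.exp (-(ε ^ 2 * L / 128)) := by
        apply mul_le_mul_of_nonneg_left _ hAK.le
        apply Real.exp_le_exp.2
        have hB1 : |L * Bc c X m| ≤ 11 / 10 := by
          have h3 : δ * v ≤ 1 / 64 := by
            have := mul_le_mul T.hδ1 T.hv1 T.hv0.le (by norm_num)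
            linarith
          obtain ⟨b1, b2⟩ := abs_le.1 T.hB
          obtain ⟨c1', c2'⟩ := abs_le.1 T.hcb
          rw [abs_le]; constructor <;> linarith
        have hδ0 : 0 < δ := by rw [hδ]; positivity
        have hD0 : 0 ≤ Dc c X m := by
          have h3 : 0 ≤ L * Dc c X m := by
            have := (abs_le.1 T.hD).1
            have h4 : δ * v ≤ 1 / 64 * v := mul_le_mul_of_nonneg_right T.hδ1 T.hv0.le
            linarith [T.hv0]
          exact nonneg_of_mul_nonneg_right h3 hL0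
        have hD1 : |L * Dc c X m| ≤ 11 / 10 := by
          have h3 : δ * v ≤ 1 / 64 := by
            have := mul_le_mul T.hδ1 T.hv1 T.hv0.le (by norm_num)
            linarith
          obtain ⟨b1, b2⟩ := abs_le.1 T.hD
          have := T.hv0
          have := T.hv1
          rw [abs_le]; constructor <;> linarith
        have hshift := mean_shift (W := (Ww w : ℝ)) T.hL (by exact_mod_cast Ww_pos w) T.hx T.hl (gc_abs T.hc T.hX (w := w)) hB1 hD1 T.hP hU2
          (A1 := A1q c w l X m) rfl T.A1b (Aq_eq T.hX T.hm T.hm0 T.hcm x l) hA34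
        have hfin := tailc_exp (K := (K : ℝ)) (M2 := (5 / 4 * Dc c X m) / Aq c w x l X m) (W := (Ww w : ℝ)) hL0 T.hv0 hS hS0 (Nat.cast_nonneg K)
          hε ha0 ha1 hx hδ hε1 T.hD hshift hW (by
            rw [div_le_iff₀ hA0]
            have := mul_le_mul_of_nonneg_left hA34 (show 0 ≤ 19 / 10 * Dc c X m by positivity)
            linarith) hvv hc1 hσa hρa hσ2
        have hz2 : z ^ 2 = vv ^ 2 := by rw [← sq_abs, hza]
        refine le_trans (le_of_eq ?_) hfin
        rw [hy, hz2, hz]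
        ring

/-- the diagonal under the tilted measure -/
lemma diagc {c : ℕ → ℝ} {cb v : ℝ} {w X m K : ℕ} {l x L δ : ℝ} (T : Tr c cb v w X m l x L δ) {S a σ c1 ε : ℝ}
    (hS : S ^ 2 = 2 * v * K) (hS0 : 0 < S) (hε : 0 < ε) (hε1 : ε ≤ 1) (ha : a = 1 - ε / 2) (hx : x = σ * (2 * a * L / S)) (hδ : δ = ε / 64)
    (hc1 : c1 = 1 - ε / 4) (hσ : σ = 1 ∨ σ = -1) (hSL : 512 * L ≤ ε * v * S) (hgv : gv c w X - gc c w X ^ 2 ≤ 1)
    (hLW : 50 * (Ww w : ℝ) ^ 2 * 16 ≤ ε * v * L) :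
    EK X K (fun h => if σ * (Nc c h m - K * Bc c X m) ≤ c1 * S then Gc c w x l X m h ^ 2 else 0) ≤
      (Aq c w x l X m ^ K) ^ 2 * Real.exp ((1 - ε / 8) * L) := by
  have hL0 : 0 < L := by linarith [T.hL]
  have hσa : |σ| = 1 := by rcases hσ with h | h <;> rw [h] <;> simp
  have hσ2 : σ * σ = 1 := by rcases hσ with h | h <;> rw [h] <;> norm_num
  have ha0 : 0 < a := by rw [ha]; linarith
  obtain ⟨R, hR, hE⟩ := E1_diag T.hc T.hX T.hm T.hm0 T.hcm T.hx T.hl1
  set Y := l ^ 2 * (gv c w X - gc c w X ^ 2) +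
      x * ((1 - 2 * l * gc c w X) * Bc c X m + 2 * l * Dc c X m + l ^ 2 * R) - x ^ 2 / 2 * ((1 - 4 * |l|) * Dc c X m) + 6 * |x| ^ 3 * E1 X (pr m) with hY
  have h1 : EK X K (fun h => if σ * (Nc c h m - K * Bc c X m) ≤ c1 * S then Gc c w x l X m h ^ 2 else 0) ≤
      EK X K (fun h => Real.exp ((2 * a * L / S) * (c1 * S) + x * (K * Bc c X m)) *
        ∏ i, (gq c w x l X m (h i) ^ 2 * Real.exp (-(x * cp c m (h i))))) := by
    apply EK_mono
    intro h _
    have e0 : ∏ i, (gq c w x l X m (h i) ^ 2 * Real.exp (-(x * cp c m (h i)))) = Gc c w x l X m h ^ 2 * Real.exp (-x * Nc c h m) := by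
      rw [exp_Nc, prod_mul_distrib, prod_pow]
      unfold Gc
      congr 1
      apply prod_congr rfl
      intro i _
      rw [neg_mul]
    rw [e0]
    have e : Real.exp ((2 * a * L / S) * (c1 * S) + x * (K * Bc c X m)) * (Gc c w x l X m h ^ 2 * Real.exp (-x * Nc c h m)) =
        Gc c w x l X m h ^ 2 * Real.exp ((2 * a * L / S) * (c1 * S - σ * (Nc c h m - K * Bc c X m))) := by
      have : (2 * a * L / S) * (c1 * S - σ * (Nc c h m - K * Bc c X m)) = ((2 * a * L / S) * (c1 * S) + x * (K * Bc c X m)) + -x * Nc c h m := by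
        rw [hx]; ring
      rw [this, Real.exp_add ((2 * a * L / S) * (c1 * S) + x * (K * Bc c X m)) (-x * Nc c h m)]; ring
    rw [e]
    split_ifs with hcond
    · apply le_mul_of_one_le_right (sq_nonneg _)
      apply Real.one_le_exp
      apply mul_nonneg (by positivity)
      linarith
    · positivity
  refine h1.trans ?_
  rw [EK_const_mul, EK_prod X K (fun v => gq c w x l X m v ^ 2 * Real.exp (-(x * cp c m v)))]
  have hE0 : 0 ≤ E1 X (fun h => gq c w x l X m h ^ 2 * Real.exp (-(x * cp c m h))) := E1_nonneg (fun h _ => mul_nonneg (sq_nonneg _) (Real.exp_pos _).le)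
  have h2 : E1 X (fun h => gq c w x l X m h ^ 2 * Real.exp (-(x * cp c m h))) ^ K ≤ Real.exp (K * Y) := by
    rw [Real.exp_nat_mul]
    apply pow_le_pow_left₀ hE0
    linarith [Real.add_one_le_exp Y]
  have hA1z : |x * A1q c w l X m| ≤ 1 / 5 := by
    have h5 : |x * A1q c w l X m| ≤ 1 / 64 * (2 / L) := by
      rw [abs_mul]
      exact mul_le_mul T.hx T.A1b (abs_nonneg _) (by norm_num)
    have h6 : 1 / 64 * (2 / L) ≤ 1 / 5 := by
      rw [div_mul_div_comm, div_le_div_iff₀ (by positivity) (by norm_num)]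
      linarith [T.hL]
    linarith
  have h4 := exp_le_one_add hA1z
  rw [← Aq_eq T.hX T.hm T.hm0 T.hcm x l] at h4
  have h5 : Real.exp (2 * (K * (x * A1q c w l X m - 2 * (x * A1q c w l X m) ^ 2))) ≤ (Aq c w x l X m ^ K) ^ 2 := by
    have : Real.exp (2 * (K * (x * A1q c w l X m - 2 * (x * A1q c w l X m) ^ 2))) = (Real.exp (x * A1q c w l X m - 2 * (x * A1q c w l X m) ^ 2) ^ K) ^ 2 := by
      rw [← Real.exp_nat_mul, ← Real.exp_nat_mul]; push_cast; rfl
    rw [this]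
    exact pow_le_pow_left₀ (by positivity) (pow_le_pow_left₀ (Real.exp_pos _).le h4 K) 2
  have hexp := diagc_exp (K := (K : ℝ)) (A1 := A1q c w l X m) (W := (Ww w : ℝ)) T.hL T.hv0 T.hv1 hS hS0 hε hε1 ha hx hδ hc1 T.hD T.hP
    (E1_nonneg (fun h _ => pr_nonneg m h)) (by exact_mod_cast Ww_pos w) T.hl hgv hR T.A1b rfl hSL hσa hσ2 hLW
  calc Real.exp ((2 * a * L / S) * (c1 * S) + x * (K * Bc c X m)) * E1 X (fun h => gq c w x l X m h ^ 2 * Real.exp (-(x * cp c m h))) ^ K ≤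
        Real.exp ((2 * a * L / S) * (c1 * S) + x * (K * Bc c X m)) * Real.exp (K * Y) := mul_le_mul_of_nonneg_left h2 (Real.exp_pos _).le
    _ = Real.exp ((2 * a * L / S) * (c1 * S) + x * (K * Bc c X m) + K * Y) := (Real.exp_add _ _).symm
    _ ≤ Real.exp (2 * (K * (x * A1q c w l X m - 2 * (x * A1q c w l X m) ^ 2)) + (1 - ε / 8) * L) := Real.exp_le_exp.2 hexp
    _ = Real.exp (2 * (K * (x * A1q c w l X m - 2 * (x * A1q c w l X m) ^ 2))) * Real.exp ((1 - ε / 8) * L) := Real.exp_add _ _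
    _ ≤ _ := mul_le_mul_of_nonneg_right h5 (Real.exp_pos _).le

end Pool.Agent.N735.CL
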