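import Mathlib
import Pool.Agent.N735.CL.Ap5

set_option autoImplicit false
set_option maxHeartbeats 4000000

/-! Functions of the residue classes: the lower bound for the maximal deviation. -/

namespace Pool.Agent.N735.CL

open Finset Filter Topology

/-- the truncated weight of a translate -/
noncomputable def Hc (c : ℕ → ℝ) (w : ℕ) (x l : ℝ) (X K : ℕ) (σ lo hi : ℝ) (m : ℕ) (h : Fin K → ℕ) : ℝ :=
  if lo ≤ σ * (Nc c h m - K * Bc c X m) ∧ σ * (Nc c h m - K * Bc c X m) ≤ hi then Gc c w x l X m h / Aq c w x l X m ^ K else 0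

lemma gv_sub_le {c : ℕ → ℝ} (hc : ∀ n, |c n| ≤ 1) {X : ℕ} (hX : 1 ≤ X) (w : ℕ) : gv c w X - gc c w X ^ 2 ≤ 1 := by
  have h1 : gv c w X ≤ 1 := by
    unfold gv
    rw [← E1_const hX 1]
    apply E1_mono
    intro h _
    have h2 : c h ^ 2 ≤ 1 := by
      rw [← sq_abs]
      exact pow_le_one₀ (abs_nonneg _) (hc h)
    calc c h ^ 2 * cf (Ww w) h ≤ 1 * 1 := mul_le_mul h2 (cf_le _ _) (cf_nonneg _ _) (by norm_num)
      _ = 1 := one_mul _
  linarith [sq_nonneg (gc c w X)]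

theorem devc_lower {q : ℕ} {c : ℕ → ℝ} {cb v : ℝ} (hn : Nice q c cb v) (ε θ : ℝ) (hε : 0 < ε) (hε1 : ε ≤ 1) (hθ : 0 < θ) :
    ∀ᶠ X : ℕ in atTop, ∀ σ : ℝ, (σ = 1 ∨ σ = -1) → ∀ K : ℕ, 131072 / (ε ^ 2 * v ^ 3) * Real.log X ^ 2 ≤ K →
      PK X K (fun h => ∀ m ∈ Icc 1 X, σ * (Nc c h m - K * Bc c X m) < (1 - ε) * Real.sqrt (2 * v * K)) ≤ θ := by
  have hv0 := hn.v0
  have hv1 := hn.v1
  set τ := θ / 24 with hτ
  have hτ0 : 0 < τ := by positivity
  obtain ⟨τ1, hτ10, hτ14, hτ1⟩ : ∃ τ1 : ℝ, 0 < τ1 ∧ τ1 ≤ 1 / 4 ∧ 8 * (4 * τ1 + 2 * (Real.exp τ1 * (1 + τ1) - 1 + τ1)) ≤ τ := by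
    have h1 : ∀ᶠ x : ℝ in nhds 0, 8 * (4 * x + 2 * (Real.exp x * (1 + x) - 1 + x)) < τ := by
      apply ContinuousAt.eventually_lt
      · fun_prop
      · fun_prop
      · simp; exact hτ0
    have h3 : ∀ᶠ x : ℝ in nhds 0, x < 1 / 4 := by
      apply ContinuousAt.eventually_lt continuousAt_id continuousAt_const
      norm_num
    have h4 : ∀ᶠ x : ℝ in nhdsWithin 0 (Set.Ioi 0), x ∈ Set.Ioi (0 : ℝ) := self_mem_nhdsWithin
    obtain ⟨x, hx⟩ := (((h1.and h3).filter_mono nhdsWithin_le_nhds).and h4).exists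
    exact ⟨x, hx.2, hx.1.2.le, hx.1.1.le⟩
  obtain ⟨w0, hw0⟩ := main_avg (4 * (1 + 1) * ((0 : ℝ) - 1) ^ 2) τ1 (by norm_num) hτ10
  set w := max (max w0 2) q with hw
  have hmain := hw0 w (le_trans (le_max_left _ _) (le_max_left _ _))
  have hwq : q ≤ w := le_max_right _ _
  have hw2 : 2 ≤ w := le_trans (le_max_right _ _) (le_max_left _ _)
  obtain ⟨C₁, hC₁0, hpair⟩ := ev_pairC hn w hwq
  obtain ⟨C₃, hC₃0, hC₃⟩ := exc_avg w hw2 (2 * C₁) (by positivity)
  have hq1 := hn.q1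
  have hWpos : 0 < Ww w := Ww_pos w
  have hWr : (0 : ℝ) < Ww w := by exact_mod_cast hWpos
  have hWr1 : (1 : ℝ) ≤ Ww w := by exact_mod_cast hWpos
  set W := (Ww w : ℝ) with hWd
  set Q := Ww w * q with hQd
  have hQpos : 0 < Q := Nat.mul_pos hWpos hq1
  have hQr : (0 : ℝ) < (Q : ℝ) := by exact_mod_cast hQpos
  have hbig : ∀ᶠ X : ℕ in atTop, 2 * Real.exp (-(ε ^ 2 * Real.log X / 128)) ≤ τ1 ∧ 16 * (Q : ℝ) / τ ≤ Real.exp (ε / 8 * Real.log X) := by
    have h1 : Tendsto (fun X : ℕ => 2 * Real.exp (-(ε ^ 2 * Real.log X / 128))) atTop (𝓝 0) := by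
      have h2 : Tendsto (fun X : ℕ => ε ^ 2 * Real.log (X : ℝ) / 128) atTop atTop :=
        (tends_log.const_mul_atTop (by positivity)).atTop_div_const (by norm_num)
      have h3 := (Real.tendsto_exp_neg_atTop_nhds_zero.comp h2).const_mul 2
      rw [mul_zero] at h3
      exact h3
    have h2 : Tendsto (fun X : ℕ => Real.exp (ε / 8 * Real.log (X : ℝ))) atTop atTop :=
      Real.tendsto_exp_atTop.comp (tends_log.const_mul_atTop (by positivity))
    filter_upwards [h1.eventually_le_const hτ10, h2.eventually_ge_atTop (16 * (Q : ℝ) / τ)] with X a b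
    exact ⟨a, b⟩
  filter_upwards [hpair τ1 hτ10, hn.win (ε / 64 * v) (by positivity), ev_gam w 1 one_pos, eta_window 1 one_pos, hbig,
    eventually_ge_atTop (2 * Q + 4), tends_log.eventually_ge_atTop (2 * Q * (C₃ + 1) / τ1 ^ 2 + 1),
    tends_log.eventually_ge_atTop (8 * (W + 1) / (ε / 64 * v) + 50 * W ^ 2 * 16 / (ε * v) + 10 * W + 8)] with X h1 h2 h6 h4 h5 h7 h8 h9 σ hσ K hK
  obtain ⟨Ex, hEx, hp⟩ := h1
  have hX1 : 1 ≤ X := by omega
  have hX0 : (0 : ℝ) < X := by exact_mod_cast (by omega : 0 < X)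
  have hq : 0 < 2 * Q * (C₃ + 1) / τ1 ^ 2 := by positivity
  have hq1' : 0 ≤ 8 * (W + 1) / (ε / 64 * v) := by positivity
  have hq2 : 0 ≤ 50 * W ^ 2 * 16 / (ε * v) := by positivity
  set L := Real.log (X : ℝ) with hL
  have hL8 : 8 ≤ L := by linarith
  have hL1 : 1 ≤ L := by linarith
  have hL0 : 0 < L := by linarith
  have hLW10 : 10 * W ≤ L := by linarith
  have hδL : 8 * (W + 1) ≤ (ε / 64) * v * L := by
    have : 8 * (W + 1) / (ε / 64 * v) ≤ L := by linarith
    rw [div_le_iff₀ (by positivity)] at this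
    linarith
  have hLW : 50 * W ^ 2 * 16 ≤ ε * v * L := by
    have : 50 * W ^ 2 * 16 / (ε * v) ≤ L := by linarith
    rw [div_le_iff₀ (by positivity)] at this
    linarith
  -- the parameters
  set S := Real.sqrt (2 * v * K) with hSd
  have hKpos : (0 : ℝ) < K := lt_of_lt_of_le (by positivity) hK
  have hS2 : S ^ 2 = 2 * v * K := Real.sq_sqrt (by positivity)
  have hS0 : 0 < S := Real.sqrt_pos.2 (by positivity)
  have hSL : 512 * L ≤ ε * v * S := by
    have h10 : 512 * L / (ε * v) ≤ S := by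
      apply Real.le_sqrt_of_sq_le
      have : (512 * L / (ε * v)) ^ 2 = 2 * v * (131072 / (ε ^ 2 * v ^ 3) * L ^ 2) := by
        field_simp; ring
      rw [this]
      exact mul_le_mul_of_nonneg_left hK (by positivity)
    rw [div_le_iff₀ (by positivity)] at h10
    linarith
  set a := 1 - ε / 2 with ha
  have ha0 : 1 / 2 ≤ a := by rw [ha]; linarith
  have ha1 : a ≤ 1 := by rw [ha]; linarith
  set x := σ * (2 * a * L / S) with hx
  have hσa : |σ| = 1 := by rcases hσ with h | h <;> rw [h] <;> simp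
  have hξ0 : 0 ≤ 2 * a * L / S := by positivity
  have hξε : 2 * a * L / S ≤ 1 / 64 := by
    rw [div_le_iff₀ hS0]
    have h10 : ε * v * S ≤ 1 * S := by
      apply mul_le_mul_of_nonneg_right _ hS0.le
      have := mul_le_mul hε1 hv1 hv0.le (by norm_num)
      linarith
    have h11 : a * L ≤ 1 * L := mul_le_mul_of_nonneg_right ha1 hL0.le
    linarith
  have hxa : |x| = 2 * a * L / S := by rw [hx, abs_mul, hσa, one_mul, abs_of_nonneg hξ0]
  have hx64 : |x| ≤ 1 / 64 := by rw [hxa]; exact hξε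
  have hKt : (K : ℝ) * (x ^ 2 * v) ≤ 2 * L ^ 2 := by
    have e1 : x ^ 2 = (2 * a * L / S) ^ 2 := by rw [← sq_abs, hxa]
    have e2 : (K : ℝ) * ((2 * a * L / S) ^ 2 * v) = 2 * a ^ 2 * L ^ 2 := by
      have : (K : ℝ) = S ^ 2 / (2 * v) := by rw [hS2]; field_simp
      rw [this]; field_simp
    rw [e1, e2]
    have : a ^ 2 ≤ 1 := pow_le_one₀ (by linarith) ha1
    have := mul_le_mul_of_nonneg_right this (show 0 ≤ 2 * L ^ 2 by positivity)
    linarith
  set l := lq w x X with hl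
  have hlL : |l| * L ≤ 2 * W * |x| := lq_abs hL hL0 h6.1
  have hl10 : |l| ≤ 1 / 10 := by
    have h10 : |l| * L ≤ 1 / 10 * L := by
      have : 2 * W * |x| ≤ 2 * W * (1 / 64) := mul_le_mul_of_nonneg_left hx64 (by positivity)
      linarith
    exact le_of_mul_le_mul_right h10 hL0
  set J := X / Q with hJ
  have hJX : (X : ℝ) / (2 * Q) ≤ J := by
    have h9 := Nat.lt_div_mul_add hQpos (a := X)
    have h10 : (X : ℝ) < (J : ℝ) * Q + Q := by rw [hJ]; exact_mod_cast h9
    have h11 : (2 : ℝ) * Q ≤ X := by exact_mod_cast (by omega : 2 * Q ≤ X)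
    rw [div_le_iff₀ (by positivity)]
    linarith
  have hJ0 : (0 : ℝ) < J := lt_of_lt_of_le (by positivity) hJX
  have hJ0' : 0 < J := by exact_mod_cast hJ0
  have hT : (Icc 1 J).Nonempty := ⟨1, mem_Icc.2 ⟨le_rfl, hJ0'⟩⟩
  have hcardT : ((Icc 1 J).card : ℝ) = J := by rw [Nat.card_Icc, Nat.add_sub_cancel]
  have hgv := gv_sub_le hn.abs hX1 w
  have hTr : ∀ j ∈ Icc 1 J, Tr c cb v w X (mq q w j) l x L (ε / 64) := by
    intro j hj
    have hjX := mq_le w X j hj
    obtain ⟨w1, w2⟩ := h2 (mq q w j) hjX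
    exact ⟨hn.abs, hX1, mq_W q w j, mq_pos hq1 w (mem_Icc.1 hj).1, fun h => hn.per _ h (mq_q q w j), hL8, hv0, hv1, hn.cb1, by linarith,
      w1, w2, by linarith [(abs_le.1 (h4 _ hjX)).2], hx64, hlL, hl10⟩
  have haj : ∀ j ∈ Icc 1 J, 0 < Aq c w x l X (mq q w j) := fun j hj => by linarith [(hTr j hj).A34]
  have hajK : ∀ j ∈ Icc 1 J, 0 < Aq c w x l X (mq q w j) ^ K := fun j hj => pow_pos (haj j hj) K
  have hGn : ∀ j (h : Fin K → ℕ), 0 ≤ Gc c w x l X (mq q w j) h := fun j h =>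
    prod_nonneg (fun i _ => gq_nonneg hn.abs hX1 (by linarith) (by linarith) _ _)
  -- the weights
  set lo := (1 - ε) * S with hlo
  set hi := (1 - ε / 4) * S with hhi
  set H : ℕ → (Fin K → ℕ) → ℝ := fun j h => Hc c w x l X K σ lo hi (mq q w j) h with hH
  have hHn : ∀ j ∈ Icc 1 J, ∀ h, 0 ≤ H j h := by
    intro j hj h
    simp only [hH, Hc]
    split_ifs
    · exact div_nonneg (hGn j h) (hajK j hj).le
    · exact le_rfl
  have hHle : ∀ j ∈ Icc 1 J, ∀ h, H j h ≤ Gc c w x l X (mq q w j) h / Aq c w x l X (mq q w j) ^ K := by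
    intro j hj h
    simp only [hH, Hc]
    split_ifs
    · exact le_rfl
    · exact div_nonneg (hGn j h) (hajK j hj).le
  set M : ℕ → ℝ := fun j => EK X K (H j) with hM
  have hEG : ∀ j ∈ Icc 1 J, EK X K (fun h => Gc c w x l X (mq q w j) h / Aq c w x l X (mq q w j) ^ K) = 1 := by
    intro j hj
    have e : (fun h : Fin K → ℕ => Gc c w x l X (mq q w j) h / Aq c w x l X (mq q w j) ^ K) =
        fun h => (Aq c w x l X (mq q w j) ^ K)⁻¹ * Gc c w x l X (mq q w j) h := by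
      funext h; rw [div_eq_inv_mul]
    rw [e, EK_const_mul, EK_Gc, inv_mul_cancel₀ (hajK j hj).ne']
  have hM1 : ∀ j ∈ Icc 1 J, M j ≤ 1 := by
    intro j hj
    rw [← hEG j hj]
    exact EK_mono (fun h _ => hHle j hj h)
  have hMlo : ∀ j ∈ Icc 1 J, 1 - τ1 ≤ M j := by
    intro j hj
    have T1 := tailc (hTr j hj) (K := K) (S := S) (a := a) (σ := σ) (ρ := -1) (c1 := 1 - ε) (ε := ε) hS2 hS0 hε hε1 (by linarith) ha1 hx rfl hδL
      (by rw [ha]; linarith) hσ (Or.inr rfl) hSL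
    have T2 := tailc (hTr j hj) (K := K) (S := S) (a := a) (σ := σ) (ρ := 1) (c1 := 1 - ε / 4) (ε := ε) hS2 hS0 hε hε1 (by linarith) ha1 hx rfl hδL
      (by rw [ha]; linarith) hσ (Or.inl rfl) hSL
    have hk := hajK j hj
    have hsplit : EK X K (fun h => Gc c w x l X (mq q w j) h) ≤ EK X K (fun h => Aq c w x l X (mq q w j) ^ K * H j h) +
        (EK X K (fun h => if 0 < (-1 : ℝ) * (σ * (Nc c h (mq q w j) - K * Bc c X (mq q w j)) - (1 - ε) * S) then Gc c w x l X (mq q w j) h else 0) +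
        EK X K (fun h => if 0 < (1 : ℝ) * (σ * (Nc c h (mq q w j) - K * Bc c X (mq q w j)) - (1 - ε / 4) * S) then Gc c w x l X (mq q w j) h else 0)) := by
      rw [← EK_add, ← EK_add]
      apply EK_mono
      intro h _
      have hg := hGn j h
      by_cases c1 : lo ≤ σ * (Nc c h (mq q w j) - K * Bc c X (mq q w j))
      · by_cases c2 : σ * (Nc c h (mq q w j) - K * Bc c X (mq q w j)) ≤ hi
        · have e1 : Aq c w x l X (mq q w j) ^ K * H j h = Gc c w x l X (mq q w j) h := by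
            simp only [hH, Hc]
            rw [if_pos ⟨c1, c2⟩, mul_div_cancel₀ _ hk.ne']
          rw [e1]
          have g1 : (0 : ℝ) ≤ (if 0 < (-1 : ℝ) * (σ * (Nc c h (mq q w j) - K * Bc c X (mq q w j)) - (1 - ε) * S) then Gc c w x l X (mq q w j) h else 0) := by
            split_ifs
            · exact hg
            · exact le_rfl
          have g2 : (0 : ℝ) ≤ (if 0 < (1 : ℝ) * (σ * (Nc c h (mq q w j) - K * Bc c X (mq q w j)) - (1 - ε / 4) * S) then Gc c w x l X (mq q w j) h else 0) := by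
            split_ifs
            · exact hg
            · exact le_rfl
          linarith
        · have g0 : 0 ≤ Aq c w x l X (mq q w j) ^ K * H j h := mul_nonneg hk.le (hHn j hj h)
          have g1 : (0 : ℝ) ≤ (if 0 < (-1 : ℝ) * (σ * (Nc c h (mq q w j) - K * Bc c X (mq q w j)) - (1 - ε) * S) then Gc c w x l X (mq q w j) h else 0) := by
            split_ifs
            · exact hg
            · exact le_rfl
          have g2 : (if 0 < (1 : ℝ) * (σ * (Nc c h (mq q w j) - K * Bc c X (mq q w j)) - (1 - ε / 4) * S) then Gc c w x l X (mq q w j) h else 0) =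
              Gc c w x l X (mq q w j) h := by
            rw [if_pos]
            push Not at c2
            linarith
          linarith
      · have g0 : 0 ≤ Aq c w x l X (mq q w j) ^ K * H j h := mul_nonneg hk.le (hHn j hj h)
        have g2 : (0 : ℝ) ≤ (if 0 < (1 : ℝ) * (σ * (Nc c h (mq q w j) - K * Bc c X (mq q w j)) - (1 - ε / 4) * S) then Gc c w x l X (mq q w j) h else 0) := by
          split_ifs
          · exact hg
          · exact le_rfl
        have g1 : (if 0 < (-1 : ℝ) * (σ * (Nc c h (mq q w j) - K * Bc c X (mq q w j)) - (1 - ε) * S) then Gc c w x l X (mq q w j) h else 0) =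
            Gc c w x l X (mq q w j) h := by
          rw [if_pos]
          push Not at c1
          linarith
        linarith
    rw [EK_Gc, EK_const_mul] at hsplit
    have h10 : Aq c w x l X (mq q w j) ^ K * 1 ≤ Aq c w x l X (mq q w j) ^ K * (M j + 2 * Real.exp (-(ε ^ 2 * L / 128))) := by
      have : Aq c w x l X (mq q w j) ^ K * (M j + 2 * Real.exp (-(ε ^ 2 * L / 128))) = Aq c w x l X (mq q w j) ^ K * M j +
          (Aq c w x l X (mq q w j) ^ K * Real.exp (-(ε ^ 2 * L / 128)) + Aq c w x l X (mq q w j) ^ K * Real.exp (-(ε ^ 2 * L / 128))) := by ring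
      rw [this, mul_one]
      linarith
    have h11 := le_of_mul_le_mul_left h10 hk
    linarith [h5.1]
  have hM0 : ∀ j ∈ Icc 1 J, 0 < M j := fun j hj => by linarith [hMlo j hj]
  -- the pairs
  have hff0 : ∀ d : ℕ, 0 ≤ ff w C₁ τ1 Ex d := ff_nonneg w C₁ τ1 hτ10 Ex
  set f : ℕ → ℕ → ℝ := fun i j => 4 * τ1 + 2 * ff w C₁ τ1 Ex (j - i) with hf
  have hpairM : ∀ i ∈ Icc 1 J, ∀ j ∈ Icc 1 J, i < j → EK X K (fun h => H i h * H j h) ≤ M i * M j * (1 + f i j) := by
    intro i hi' j hj hij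
    have hki := hajK i hi'
    have hkj := hajK j hj
    have g1 : EK X K (fun h => H i h * H j h) ≤ (Aq c w x l X (mq q w i) ^ K * Aq c w x l X (mq q w j) ^ K)⁻¹ *
        (E1 X (fun h => gq c w x l X (mq q w i) h * gq c w x l X (mq q w j) h)) ^ K := by
      rw [← EK_prod X K (fun v => gq c w x l X (mq q w i) v * gq c w x l X (mq q w j) v), ← EK_const_mul]
      apply EK_mono
      intro h _
      calc H i h * H j h ≤ (Gc c w x l X (mq q w i) h / Aq c w x l X (mq q w i) ^ K) * (Gc c w x l X (mq q w j) h / Aq c w x l X (mq q w j) ^ K) :=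
            mul_le_mul (hHle i hi' h) (hHle j hj h) (hHn j hj h) (div_nonneg (hGn i h) hki.le)
        _ = _ := by
            rw [div_mul_div_comm, div_eq_inv_mul]
            unfold Gc
            rw [prod_mul_distrib]
    have g2 := hp x (by linarith) K hKt i hi' j hj hij
    have hkk : 0 < Aq c w x l X (mq q w i) ^ K * Aq c w x l X (mq q w j) ^ K := by positivity
    have g3 : EK X K (fun h => H i h * H j h) ≤ 1 + ff w C₁ τ1 Ex (j - i) := by
      refine g1.trans ?_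
      rw [inv_mul_le_iff₀ hkk]
      exact g2
    refine g3.trans ?_
    have g4 : (1 - τ1) * (1 - τ1) ≤ M i * M j := mul_le_mul (hMlo i hi') (hMlo j hj) (by linarith) (hM0 i hi').le
    have hF := hff0 (j - i)
    have g5 : 1 + ff w C₁ τ1 Ex (j - i) ≤ ((1 - τ1) * (1 - τ1)) * (1 + f i j) := by
      simp only [hf]
      nlinarith [mul_nonneg hτ10.le hF, mul_nonneg hτ10.le hτ10.le, mul_nonneg (mul_nonneg hτ10.le hτ10.le) hF]
    refine g5.trans (mul_le_mul_of_nonneg_right g4 ?_)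
    simp only [hf]
    linarith
  have hf0 : ∀ i ∈ Icc 1 J, ∀ j ∈ Icc 1 J, 0 ≤ f i j := fun i _ j _ => by
    have := hff0 (j - i)
    simp only [hf]; linarith
  -- the diagonal
  set D := 4 * Real.exp ((1 - ε / 8) * L) with hD
  have hdiagM : ∀ j ∈ Icc 1 J, EK X K (fun h => H j h * H j h) ≤ M j ^ 2 * D := by
    intro j hj
    have hk := hajK j hj
    have T3 := diagc (hTr j hj) (K := K) (S := S) (a := a) (σ := σ) (c1 := 1 - ε / 4) (ε := ε) hS2 hS0 hε hε1 ha hx rfl rfl hσ hSL hgv hLW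
    have g1 : EK X K (fun h => H j h * H j h) ≤ ((Aq c w x l X (mq q w j) ^ K) ^ 2)⁻¹ *
        EK X K (fun h => if σ * (Nc c h (mq q w j) - K * Bc c X (mq q w j)) ≤ (1 - ε / 4) * S then Gc c w x l X (mq q w j) h ^ 2 else 0) := by
      rw [← EK_const_mul]
      apply EK_mono
      intro h _
      simp only [hH, Hc]
      by_cases c1 : lo ≤ σ * (Nc c h (mq q w j) - K * Bc c X (mq q w j)) ∧ σ * (Nc c h (mq q w j) - K * Bc c X (mq q w j)) ≤ hi
      · rw [if_pos c1, if_pos c1.2]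
        apply le_of_eq
        rw [div_mul_div_comm, ← sq, ← sq, div_eq_inv_mul]
      · rw [if_neg c1, mul_zero]
        apply mul_nonneg (by positivity)
        split_ifs
        · positivity
        · exact le_rfl
    have g2 : EK X K (fun h => H j h * H j h) ≤ Real.exp ((1 - ε / 8) * L) := by
      refine g1.trans ?_
      rw [inv_mul_le_iff₀ (by positivity)]
      exact T3
    refine g2.trans ?_
    have g3 : (1 / 4 : ℝ) ≤ M j ^ 2 := by
      have := hMlo j hj
      nlinarith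
    have g4 : (1 / 4 : ℝ) * D ≤ M j ^ 2 * D := mul_le_mul_of_nonneg_right g3 (by positivity)
    rw [hD] at g4 ⊢
    linarith
  -- the sum of the majorants
  have hExJ : (Ex.card : ℝ) ≤ τ1 ^ 2 / (C₃ + 1) * J := by
    refine hEx.trans ?_
    have h9 : X / L ^ 6 ≤ X / L := by
      apply div_le_div_of_nonneg_left hX0.le hL0
      calc L = L ^ 1 := (pow_one L).symm
        _ ≤ L ^ 6 := pow_le_pow_right₀ hL1 (by norm_num)
    have h10 : X / L ≤ τ1 ^ 2 / (C₃ + 1) * (X / (2 * Q)) := by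
      rw [div_mul_div_comm, div_le_div_iff₀ hL0 (by positivity)]
      have h11 : 2 * Q * (C₃ + 1) / τ1 ^ 2 ≤ L := by linarith
      rw [div_le_iff₀ (by positivity)] at h11
      calc X * ((C₃ + 1) * (2 * Q)) = X * (2 * Q * (C₃ + 1)) := by ring
        _ ≤ X * (L * τ1 ^ 2) := mul_le_mul_of_nonneg_left h11 hX0.le
        _ = _ := by ring
    have h12 : τ1 ^ 2 / (C₃ + 1) * (X / (2 * Q)) ≤ τ1 ^ 2 / (C₃ + 1) * J := mul_le_mul_of_nonneg_left hJX (by positivity)
    linarith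
  set B := Real.exp τ1 * (1 + τ1) - 1 + τ1 with hB
  have hsum1 := pair_sum_Icc (fun d => ff w C₁ τ1 Ex d) J (B * J) hff0 (ff_sum_Icc w C₁ τ1 C₃ hC₃0 hτ10 hmain hC₃ J Ex hExJ)
  have hfsum : ∑ i ∈ Icc 1 J, ∑ j ∈ (Icc 1 J).filter (fun j => i < j), f i j ≤ (4 * τ1 + 2 * B) * (J : ℝ) ^ 2 := by
    have e1 : ∑ i ∈ Icc 1 J, ∑ j ∈ (Icc 1 J).filter (fun j => i < j), f i j =
        4 * τ1 * ∑ i ∈ Icc 1 J, (((Icc 1 J).filter (fun j => i < j)).card : ℝ) +
          2 * ∑ i ∈ Icc 1 J, ∑ j ∈ (Icc 1 J).filter (fun j => i < j), ff w C₁ τ1 Ex (j - i) := by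
      rw [mul_sum, mul_sum, ← sum_add_distrib]
      apply sum_congr rfl
      intro i _
      simp only [hf]
      rw [sum_add_distrib, sum_const, nsmul_eq_mul, ← mul_sum]
      ring
    rw [e1]
    have e2 : ∑ i ∈ Icc 1 J, (((Icc 1 J).filter (fun j => i < j)).card : ℝ) ≤ (J : ℝ) ^ 2 := by
      calc ∑ i ∈ Icc 1 J, (((Icc 1 J).filter (fun j => i < j)).card : ℝ) ≤ ∑ i ∈ Icc 1 J, (J : ℝ) := by
            apply sum_le_sum
            intro i _
            rw [← hcardT]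
            exact_mod_cast card_filter_le _ _
        _ = _ := by rw [sum_const, nsmul_eq_mul, hcardT]; ring
    have e3 := mul_le_mul_of_nonneg_left e2 (show 0 ≤ 4 * τ1 by positivity)
    linarith
  have hDT : 2 * D ≤ τ * ((Icc 1 J).card : ℝ) := by
    rw [hcardT]
    have hXe : (X : ℝ) = Real.exp ((1 - ε / 8) * L) * Real.exp (ε / 8 * L) := by
      rw [← Real.exp_add]
      have : (1 - ε / 8) * L + ε / 8 * L = L := by ring
      rw [this, hL, Real.exp_log hX0]
    have h13 : 16 * Q ≤ τ * Real.exp (ε / 8 * L) := by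
      have := h5.2
      rw [div_le_iff₀ hτ0] at this
      linarith
    have h14 : 8 * Real.exp ((1 - ε / 8) * L) * (2 * Q) ≤ τ * X := by
      rw [hXe]
      calc 8 * Real.exp ((1 - ε / 8) * L) * (2 * Q) = Real.exp ((1 - ε / 8) * L) * (16 * Q) := by ring
        _ ≤ Real.exp ((1 - ε / 8) * L) * (τ * Real.exp (ε / 8 * L)) := mul_le_mul_of_nonneg_left h13 (Real.exp_pos _).le
        _ = _ := by ring
    have h15 : 8 * Real.exp ((1 - ε / 8) * L) ≤ τ * (X / (2 * Q)) := by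
      rw [← mul_div_assoc, le_div_iff₀ (by positivity)]
      exact h14
    have h16 := mul_le_mul_of_nonneg_left hJX hτ0.le
    rw [hD]
    linarith
  have hfin := sm_abs hX1 (Icc 1 J) hT H M 2 D τ (by norm_num) hτ0 (fun j _ => rfl) hM0
    (fun i hi' j hj => by linarith [hM1 i hi', hMlo j hj]) f hf0 hpairM (by positivity) hdiagM
    (by
      rw [hcardT]
      calc 2 * (2 : ℝ) ^ 2 * ∑ i ∈ Icc 1 J, ∑ j ∈ (Icc 1 J).filter (fun j => i < j), f i j ≤ 2 * (2 : ℝ) ^ 2 * ((4 * τ1 + 2 * B) * (J : ℝ) ^ 2) :=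
            mul_le_mul_of_nonneg_left hfsum (by norm_num)
        _ = (8 * (4 * τ1 + 2 * B)) * (J : ℝ) ^ 2 := by ring
        _ ≤ τ * (J : ℝ) ^ 2 := mul_le_mul_of_nonneg_right hτ1 (sq_nonneg _)) hDT
  refine le_trans (PK_mono ?_) (hfin.trans (le_of_eq (by rw [hτ]; ring)))
  intro h _ hh j hj
  simp only [hH, Hc]
  rw [if_neg]
  rintro ⟨c1, _⟩
  have := hh (mq q w j) (mem_Icc.2 ⟨mq_pos hq1 w (mem_Icc.1 hj).1, mq_le w X j hj⟩)
  linarith

end Pool.Agent.N735.CL
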