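import Mathlib
import Pool.Agent.N735.CL.Ap6

set_option autoImplicit false
set_option maxHeartbeats 4000000

/-! Functions of the residue classes: the upper bound and the law. -/

namespace Pool.Agent.N735.CL

open Finset Filter Topology

/-- the exponential moment -/
lemma E1_expc {c : ℕ → ℝ} (hc : ∀ n, |c n| ≤ 1) {X m : ℕ} (hX : 1 ≤ X) {z : ℝ} (hz : |z| ≤ 1) :
    E1 X (fun h => Real.exp (z * cp c m h)) ≤ 1 + (z * Bc c X m + (z ^ 2 / 2 * Dc c X m + |z| ^ 3 * E1 X (pr m))) := by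
  have h1 : ∀ h ∈ Icc 1 X, Real.exp (z * cp c m h) ≤ 1 + (z * cp c m h + (z ^ 2 / 2 * cp (fun n => c n ^ 2) m h + |z| ^ 3 * pr m h)) := by
    intro h _
    have hcp := cp_abs1 hc m h
    have hy : |z * cp c m h| ≤ 1 := by
      rw [abs_mul]
      calc |z| * |cp c m h| ≤ 1 * 1 := mul_le_mul hz hcp (abs_nonneg _) (by norm_num)
        _ = 1 := one_mul _
    have h2 := exp_cub hy
    have hsq : cp c m h ^ 2 = cp (fun n => c n ^ 2) m h := by
      unfold cp
      rw [mul_pow, sq (pr m h), pr_sq]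
    have h7 : |z * cp c m h| ^ 3 ≤ |z| ^ 3 * pr m h := by
      rw [abs_mul, mul_pow]
      apply mul_le_mul_of_nonneg_left _ (by positivity)
      have a1 := cp_abs hc m h
      have a2 : pr m h ^ 3 = pr m h := by
        rw [pow_succ, sq, pr_sq, pr_sq]
      calc |cp c m h| ^ 3 ≤ pr m h ^ 3 := pow_le_pow_left₀ (abs_nonneg _) a1 3
        _ = _ := a2
    rw [← hsq]
    have e : (z * cp c m h) ^ 2 / 2 = z ^ 2 / 2 * cp c m h ^ 2 := by ring
    rw [e] at h2
    linarith
  refine (E1_mono h1).trans (le_of_eq ?_)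
  rw [E1_add, E1_add, E1_add, E1_const hX, E1_const_mul, E1_const_mul, E1_const_mul]
  rfl

theorem devc_upper {q : ℕ} {c : ℕ → ℝ} {cb v : ℝ} (hn : Nice q c cb v) (ε θ : ℝ) (hε : 0 < ε) (hε1 : ε ≤ 1) (hθ : 0 < θ) :
    ∀ᶠ X : ℕ in atTop, ∀ σ : ℝ, (σ = 1 ∨ σ = -1) → ∀ K : ℕ, 131072 / (ε ^ 2 * v ^ 3) * Real.log X ^ 2 ≤ K →
      PK X K (fun h => ∃ m ∈ Icc 1 X, (1 + ε) * Real.sqrt (2 * v * K) ≤ σ * (Nc c h m - K * Bc c X m)) ≤ θ := by
  have hv0 := hn.v0
  have hv1 := hn.v1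
  have hbig : ∀ᶠ X : ℕ in atTop, Real.exp (-(ε * Real.log X)) ≤ θ := by
    have h2 : Tendsto (fun X : ℕ => ε * Real.log (X : ℝ)) atTop atTop := tends_log.const_mul_atTop hε
    exact (Real.tendsto_exp_neg_atTop_nhds_zero.comp h2).eventually_le_const hθ
  filter_upwards [hn.win (ε / 64 * v) (by positivity), eta_window 1 one_pos, hbig, eventually_ge_atTop 1, tends_log.eventually_ge_atTop 8]
    with X h1 h1' h2 hX1 hL8 σ hσ K hK
  have hX0 : (0 : ℝ) < X := by exact_mod_cast (by omega : 0 < X)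
  set L := Real.log (X : ℝ) with hL
  have hL0 : 0 < L := by linarith
  set S := Real.sqrt (2 * v * K) with hSd
  have hKpos : (0 : ℝ) < K := lt_of_lt_of_le (by positivity) hK
  have hS2 : S ^ 2 = 2 * v * K := Real.sq_sqrt (by positivity)
  have hS0 : 0 < S := Real.sqrt_pos.2 (by positivity)
  have hSL : 512 * L ≤ ε * v * S := by
    have h10 : 512 * L / (ε * v) ≤ S := by
      apply Real.le_sqrt_of_sq_le
      have : (512 * L / (ε * v)) ^ 2 = 2 * v * (131072 / (ε ^ 2 * v ^ 3) * L ^ 2) := by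
        field_simp; ring
      rw [this]
      exact mul_le_mul_of_nonneg_left hK (by positivity)
    rw [div_le_iff₀ (by positivity)] at h10
    linarith
  have hσa : |σ| = 1 := by rcases hσ with h | h <;> rw [h] <;> simp
  have hKe : (K : ℝ) = S ^ 2 / (2 * v) := by rw [hS2]; field_simp
  set u := 2 * (1 + ε) * L / S with hu
  have hu0 : 0 < u := by positivity
  have huS : u * S = 2 * (1 + ε) * L := by rw [hu]; field_simp
  have huε : u ≤ ε * v / 128 := by
    rw [hu, div_le_iff₀ hS0]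
    have e : ε * v / 128 * S = (ε * v * S) / 128 := by ring
    rw [e]
    nlinarith
  have hu1 : u ≤ 1 / 128 := by
    have : ε * v ≤ 1 * 1 := mul_le_mul hε1 hv1 hv0.le (by norm_num)
    linarith
  have hterm : ∀ m ∈ Icc 1 X, PK X K (fun h => (1 + ε) * S ≤ σ * (Nc c h m - K * Bc c X m)) ≤ Real.exp (-((1 + ε) * L)) := by
    intro m hm
    have hmX := (mem_Icc.1 hm).2
    obtain ⟨_, hD⟩ := h1 m hmX
    have hP := (abs_le.1 (h1' m hmX)).2
    have hP0 : 0 ≤ E1 X (pr m) := E1_nonneg (fun h _ => pr_nonneg m h)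
    set z := σ * u with hz
    have hza : |z| = u := by rw [hz, abs_mul, hσa, one_mul, abs_of_pos hu0]
    have hz2 : z ^ 2 = u ^ 2 := by rw [← sq_abs, hza]
    have hz1 : |z| ≤ 1 := by rw [hza]; linarith
    have hE := E1_expc hn.abs (m := m) hX1 hz1
    have g1 : PK X K (fun h => (1 + ε) * S ≤ σ * (Nc c h m - K * Bc c X m)) ≤
        EK X K (fun h => Real.exp (-(z * (K * Bc c X m)) - u * ((1 + ε) * S)) * ∏ i, Real.exp (z * cp c m (h i))) := by
      unfold PK
      apply EK_mono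
      intro h _
      rw [← exp_Nc]
      have e : Real.exp (-(z * (K * Bc c X m)) - u * ((1 + ε) * S)) * Real.exp (z * Nc c h m) =
          Real.exp (u * (σ * (Nc c h m - K * Bc c X m) - (1 + ε) * S)) := by
        rw [← Real.exp_add]
        congr 1
        rw [hz]; ring
      rw [e]
      split_ifs with hc
      · apply Real.one_le_exp
        apply mul_nonneg hu0.le
        linarith
      · positivity
    refine g1.trans ?_
    rw [EK_const_mul, EK_prod X K (fun y => Real.exp (z * cp c m y))]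
    set Y := z * Bc c X m + (z ^ 2 / 2 * Dc c X m + |z| ^ 3 * E1 X (pr m)) with hY
    have hE0 : 0 ≤ E1 X (fun h => Real.exp (z * cp c m h)) := E1_nonneg (fun h _ => (Real.exp_pos _).le)
    have g2 : E1 X (fun h => Real.exp (z * cp c m h)) ^ K ≤ Real.exp (K * Y) := by
      rw [Real.exp_nat_mul]
      apply pow_le_pow_left₀ hE0
      linarith [Real.add_one_le_exp Y]
    calc Real.exp (-(z * (K * Bc c X m)) - u * ((1 + ε) * S)) * E1 X (fun h => Real.exp (z * cp c m h)) ^ K ≤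
          Real.exp (-(z * (K * Bc c X m)) - u * ((1 + ε) * S)) * Real.exp (K * Y) :=
          mul_le_mul_of_nonneg_left g2 (Real.exp_pos _).le
      _ = Real.exp (K * (u ^ 2 / 2 * Dc c X m + u ^ 3 * E1 X (pr m)) - u * ((1 + ε) * S)) := by
          rw [← Real.exp_add, hY, hz2, hza]; congr 1; ring
      _ ≤ Real.exp (-((1 + ε) * L)) := by
          apply Real.exp_le_exp.2
          have hD2 : L * Dc c X m ≤ (1 + ε / 64) * v := by linarith [(abs_le.1 hD).2]
          have e1 : K * (u ^ 2 / 2 * Dc c X m) = (1 + ε) ^ 2 * L * ((L * Dc c X m) / v) := by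
            have : K * (u ^ 2 / 2 * Dc c X m) = (u * S) ^ 2 * Dc c X m / (4 * v) := by rw [hKe]; field_simp; ring
            rw [this, huS]; field_simp; ring
          have g3 : K * (u ^ 2 / 2 * Dc c X m) ≤ (1 + ε) ^ 2 * L * (1 + ε / 64) := by
            rw [e1]
            apply mul_le_mul_of_nonneg_left _ (by positivity)
            rw [div_le_iff₀ hv0]; exact hD2
          have e2 : K * (u ^ 3 * E1 X (pr m)) = 2 * (1 + ε) ^ 2 * L * (L * E1 X (pr m)) * (u / v) := by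
            have : K * (u ^ 3 * E1 X (pr m)) = (u * S) ^ 2 * E1 X (pr m) * u / (2 * v) := by rw [hKe]; field_simp
            rw [this, huS]; field_simp <;> ring
          have g4 : K * (u ^ 3 * E1 X (pr m)) ≤ (1 + ε) ^ 2 * L * (ε / 32) := by
            rw [e2]
            have k1 : L * E1 X (pr m) ≤ 2 := by linarith
            have k2 : u / v ≤ ε / 128 := by rw [div_le_iff₀ hv0]; linarith
            calc 2 * (1 + ε) ^ 2 * L * (L * E1 X (pr m)) * (u / v) ≤ 2 * (1 + ε) ^ 2 * L * 2 * (ε / 128) := by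
                  apply mul_le_mul _ k2 (by positivity) (by positivity)
                  exact mul_le_mul_of_nonneg_left k1 (by positivity)
              _ = _ := by ring
          have g7 : u * ((1 + ε) * S) = 2 * ((1 + ε) ^ 2 * L) := by
            have : u * ((1 + ε) * S) = (u * S) * (1 + ε) := by ring
            rw [this, huS]; ring
          rw [g7, mul_add]
          have g8 : (1 + ε) * L ≤ (1 - ε / 64 - ε / 32) * ((1 + ε) ^ 2 * L) := by
            have : 1 ≤ (1 - ε / 64 - ε / 32) * (1 + ε) := by nlinarith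
            calc (1 + ε) * L = 1 * ((1 + ε) * L) := (one_mul _).symm
              _ ≤ ((1 - ε / 64 - ε / 32) * (1 + ε)) * ((1 + ε) * L) := mul_le_mul_of_nonneg_right this (by positivity)
              _ = _ := by ring
          linarith
  refine (PK_exists (Icc 1 X) (fun m h => (1 + ε) * S ≤ σ * (Nc c h m - K * Bc c X m))).trans ?_
  refine (sum_le_sum hterm).trans ?_
  rw [sum_const, nsmul_eq_mul, Nat.card_Icc, Nat.add_sub_cancel]
  have hXe : (X : ℝ) = Real.exp L := (Real.exp_log hX0).symm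
  rw [hXe, ← Real.exp_add]
  refine le_trans (le_of_eq ?_) h2
  congr 1
  ring

/-- the law of the maximal deviations -/
theorem devc_law {q : ℕ} {c : ℕ → ℝ} {cb v : ℝ} (hn : Nice q c cb v) (ε θ : ℝ) (hε : 0 < ε) (hε1 : ε ≤ 1) (hθ : 0 < θ) :
    ∀ᶠ X : ℕ in atTop, ∀ K : ℕ, 131072 / (ε ^ 2 * v ^ 3) * Real.log X ^ 2 ≤ K →
      PK X K (fun h => ¬ ∀ σ : ℝ, (σ = 1 ∨ σ = -1) →
        (∃ m ∈ Icc 1 X, (1 - ε) * Real.sqrt (2 * v * K) ≤ σ * (Nc c h m - K * Bc c X m)) ∧
        (∀ m ∈ Icc 1 X, σ * (Nc c h m - K * Bc c X m) ≤ (1 + ε) * Real.sqrt (2 * v * K))) ≤ θ := by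
  filter_upwards [devc_lower hn ε (θ / 4) hε hε1 (by positivity), devc_upper hn ε (θ / 4) hε hε1 (by positivity)] with X h1 h2 K hK
  have a1 := h1 1 (Or.inl rfl) K hK
  have a2 := h1 (-1) (Or.inr rfl) K hK
  have b1 := h2 1 (Or.inl rfl) K hK
  have b2 := h2 (-1) (Or.inr rfl) K hK
  refine le_trans (PK_mono (C := fun h => ((∀ m ∈ Icc 1 X, (1 : ℝ) * (Nc c h m - K * Bc c X m) < (1 - ε) * Real.sqrt (2 * v * K)) ∨
      (∀ m ∈ Icc 1 X, (-1 : ℝ) * (Nc c h m - K * Bc c X m) < (1 - ε) * Real.sqrt (2 * v * K))) ∨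
      ((∃ m ∈ Icc 1 X, (1 + ε) * Real.sqrt (2 * v * K) ≤ (1 : ℝ) * (Nc c h m - K * Bc c X m)) ∨
      (∃ m ∈ Icc 1 X, (1 + ε) * Real.sqrt (2 * v * K) ≤ (-1 : ℝ) * (Nc c h m - K * Bc c X m)))) ?_) ?_
  · intro h _ hh
    by_contra hc
    apply hh
    rw [not_or, not_or, not_or] at hc
    obtain ⟨⟨c1, c2⟩, c3, c4⟩ := hc
    push Not at c1 c2 c3 c4
    intro σ hσ
    rcases hσ with rfl | rfl
    · exact ⟨c1, fun m hm => (c3 m hm).le⟩
    · exact ⟨c2, fun m hm => (c4 m hm).le⟩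
  · refine (PK_or _ _).trans ?_
    have k1 := PK_or (X := X) (K := K) (fun h => ∀ m ∈ Icc 1 X, (1 : ℝ) * (Nc c h m - K * Bc c X m) < (1 - ε) * Real.sqrt (2 * v * K))
      (fun h => ∀ m ∈ Icc 1 X, (-1 : ℝ) * (Nc c h m - K * Bc c X m) < (1 - ε) * Real.sqrt (2 * v * K))
    have k2 := PK_or (X := X) (K := K) (fun h => ∃ m ∈ Icc 1 X, (1 + ε) * Real.sqrt (2 * v * K) ≤ (1 : ℝ) * (Nc c h m - K * Bc c X m))
      (fun h => ∃ m ∈ Icc 1 X, (1 + ε) * Real.sqrt (2 * v * K) ≤ (-1 : ℝ) * (Nc c h m - K * Bc c X m))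
    linarith

end Pool.Agent.N735.CL
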