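import Mathlib
import Pool.Agent.H373R2.T7.TupleMain2
import Pool.Agent.H343R2.EH.Psi

set_option autoImplicit false
set_option maxHeartbeats 2000000

/-! Prime pairs in a residue class: the sieve. -/

namespace Pool.Agent.N735.CL

open Finset
open Pool.Agent.H373R2.T7

/-- the sifting primes -/
def Tq (q z : ℕ) : Finset ℕ := (pz z).filter (fun p => ¬ p ∣ q)

lemma mem_Tq {q z p : ℕ} : p ∈ Tq q z ↔ p ∈ pz z ∧ ¬ p ∣ q := by unfold Tq; rw [mem_filter]

/-- the family of classes -/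
noncomputable def LC (q a₀ d z r D : ℕ) : Finset ℕ := by
  classical exact if ∃ S ⊆ Tq q z, S.card ≤ r ∧ q * ∏ p ∈ S, p = D then
    (range D).filter (fun b => b ≡ a₀ [MOD q] ∧ ∀ p ∈ Tq q z, p ∣ D → ¬ p ∣ b ∧ (p : ℤ) ∣ (b : ℤ) + d) else ∅

lemma dvd_qprod {q z p : ℕ} {S : Finset ℕ} (hS : S ⊆ Tq q z) (hp : p ∈ Tq q z) : p ∣ q * ∏ p ∈ S, p ↔ p ∈ S := by
  have hpp := (mem_pz.1 (mem_Tq.1 hp).1).2
  constructor
  · intro h
    rcases (Nat.Prime.dvd_mul hpp).1 h with h | h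
    · exact absurd h (mem_Tq.1 hp).2
    · obtain ⟨p', hp', hd⟩ := (Prime.dvd_finsetProd_iff hpp.prime _).1 h
      have h2 := (mem_pz.1 (mem_Tq.1 (hS hp')).1).2
      rw [(Nat.prime_dvd_prime_iff_eq hpp h2).1 hd]
      exact hp'
  · intro h
    exact Dvd.dvd.mul_left (dvd_prod_of_mem _ h) _

lemma LC_eq (q a₀ d z r : ℕ) (S : Finset ℕ) (hS : S ⊆ Tq q z) (hr : S.card ≤ r) :
    LC q a₀ d z r (q * ∏ p ∈ S, p) = (range (q * ∏ p ∈ S, p)).filter (fun b => b ≡ a₀ [MOD q] ∧ ∀ p ∈ S, ¬ p ∣ b ∧ (p : ℤ) ∣ (b : ℤ) + d) := by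
  classical
  unfold LC
  rw [if_pos ⟨S, hS, hr, rfl⟩]
  apply filter_congr
  intro b _
  constructor
  · rintro ⟨h1, h2⟩
    exact ⟨h1, fun p hp => h2 p (hS hp) ((dvd_qprod hS (hS hp)).2 hp)⟩
  · rintro ⟨h1, h2⟩
    exact ⟨h1, fun p hp hd => h2 p ((dvd_qprod hS hp).1 hd)⟩

/-- the local number of classes -/
def rq (d p : ℕ) : ℕ := rhoP (fun _ : Fin 1 => (d : ℤ)) p

lemma rq_le1 (d p : ℕ) : rq d p ≤ 1 := rhoP_le_k _ p

lemma LC_card (q a₀ d z r : ℕ) (hq : 1 ≤ q) (S : Finset ℕ) (hS : S ⊆ Tq q z) (hr : S.card ≤ r) :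
    (LC q a₀ d z r (q * ∏ p ∈ S, p)).card = ∏ p ∈ S, rq d p := by
  rw [LC_eq q a₀ d z r S hS hr]
  classical
  have h := crt_aux (fun p b => ¬ p ∣ b ∧ ∃ _i : Fin 1, (p : ℤ) ∣ (b : ℤ) + d) S (fun p hp => (mem_pz.1 (mem_Tq.1 (hS hp)).1).2) q hq
    (fun p hp => (mem_Tq.1 (hS hp)).2) a₀
  have e : ∏ p ∈ S, rq d p = ∏ p ∈ S, ((range p).filter (fun b => ¬ p ∣ b ∧ ∃ _i : Fin 1, (p : ℤ) ∣ (b : ℤ) + d)).card := by
    apply prod_congr rfl
    intro p _
    unfold rq rhoP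
    congr 1
  rw [e, ← h]
  congr 1
  apply filter_congr
  intro b _
  have h1 : ∀ p : ℕ, (p ∣ b ↔ p ∣ b % p) := by
    intro p
    rw [Nat.dvd_iff_mod_eq_zero, Nat.dvd_iff_mod_eq_zero, Nat.mod_mod]
  have h2 : ∀ (p : ℕ), ((p : ℤ) ∣ (b : ℤ) + d ↔ (p : ℤ) ∣ ((b % p : ℕ) : ℤ) + d) := by
    intro p
    have e : (b : ℤ) + d = (((b % p : ℕ) : ℤ) + d) + p * ((b / p : ℕ) : ℤ) := by
      have := Nat.mod_add_div b p
      have h3 : (b : ℤ) = ((b % p : ℕ) : ℤ) + p * ((b / p : ℕ) : ℤ) := by exact_mod_cast this.symm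
      rw [h3]
      ring
    rw [e]
    exact (Int.dvd_add_left (dvd_mul_right _ _))
  constructor
  · rintro ⟨h0, h⟩
    refine ⟨h0, fun p hp => ?_⟩
    obtain ⟨h3, hi⟩ := h p hp
    exact ⟨fun h4 => h3 ((h1 p).2 h4), 0, (h2 p).1 hi⟩
  · rintro ⟨h0, h⟩
    refine ⟨h0, fun p hp => ?_⟩
    obtain ⟨h3, _, hi⟩ := h p hp
    exact ⟨fun h4 => h3 ((h1 p).1 h4), (h2 p).2 hi⟩

lemma LC_fam {q a₀ : ℕ} (d z r : ℕ) (hq : 1 ≤ q) (ha : a₀.Coprime q) : H343E.Fam 1 (LC q a₀ d z r) := by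
  classical
  constructor
  · intro D b hb
    by_cases h : ∃ S ⊆ Tq q z, S.card ≤ r ∧ q * ∏ p ∈ S, p = D
    · obtain ⟨S, hS, hr, rfl⟩ := h
      rw [LC_eq q a₀ d z r S hS hr, mem_filter, mem_range] at hb
      refine ⟨hb.1, ?_⟩
      rw [Nat.coprime_mul_iff_right]
      constructor
      · have h1 : Nat.gcd b q = Nat.gcd a₀ q := hb.2.1.gcd_eq
        rw [Nat.Coprime, h1]
        exact ha
      · rw [Nat.coprime_prod_right_iff]
        intro p hp
        have hpp := (mem_pz.1 (mem_Tq.1 (hS hp)).1).2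
        rw [Nat.coprime_comm]
        exact (Nat.Prime.coprime_iff_not_dvd hpp).2 (hb.2.2 p hp).1
    · unfold LC at hb
      rw [if_neg h] at hb
      simp at hb
  · intro D
    by_cases h : ∃ S ⊆ Tq q z, S.card ≤ r ∧ q * ∏ p ∈ S, p = D
    · obtain ⟨S, hS, hr, rfl⟩ := h
      rw [LC_card q a₀ d z r hq S hS hr]
      have : ∏ p ∈ S, rq d p ≤ 1 := prod_le_one' (fun p _ => rq_le1 d p)
      exact_mod_cast this
    · unfold LC
      rw [if_neg h]
      simp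

/-- the error term in progressions -/
noncomputable def EC (q a₀ d N z r D : ℕ) : ℝ :=
  ∑ b ∈ LC q a₀ d z r D, |lamAP N D b - lam1 N / (Nat.totient D : ℝ)|

lemma EC_nonneg (q a₀ d N z r D : ℕ) : 0 ≤ EC q a₀ d N z r D := sum_nonneg fun _ _ => abs_nonneg _

lemma tot_q {q z : ℕ} {S : Finset ℕ} (hS : S ⊆ Tq q z) : (Nat.totient (q * ∏ p ∈ S, p) : ℝ) = Nat.totient q * ∏ p ∈ S, ((p : ℝ) - 1) := by
  have hSp : ∀ p ∈ S, p.Prime := fun p hp => (mem_pz.1 (mem_Tq.1 (hS hp)).1).2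
  have hcop : q.Coprime (∏ p ∈ S, p) := by
    rw [Nat.coprime_prod_right_iff]
    intro p hp
    rw [Nat.coprime_comm]
    exact (Nat.Prime.coprime_iff_not_dvd (hSp p hp)).2 (mem_Tq.1 (hS hp)).2
  rw [Nat.totient_mul hcop, totient_prod S hSp]
  push_cast
  congr 1
  apply prod_congr rfl
  intro p hp
  rw [Nat.cast_sub (hSp p hp).one_le]
  push_cast
  ring

theorem class_sieve (q a₀ d N z r : ℕ) (hq : 1 ≤ q) :
    |∑ n ∈ ((Icc 1 N).filter (fun n : ℕ => n ≡ a₀ [MOD q] ∧ ∀ p ∈ Tq q z, ¬ p ∣ n)).filter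
        (fun n : ℕ => ∀ p ∈ Tq q z, ¬ (p : ℤ) ∣ (n : ℤ) + d), ArithmeticFunction.vonMangoldt n -
        (lam1 N / Nat.totient q) * ∏ p ∈ Tq q z, (1 - (rq d p : ℝ) / (p - 1 : ℝ))| ≤
      ((z : ℝ) + 1) ^ r * (z * ((Nat.log 2 N + 1 : ℝ) * Real.log N)) + ∑ D ∈ Icc 1 (q * (z + 1) ^ r), EC q a₀ d N z r D +
      2 * (lam1 N / Nat.totient q) * Real.exp (3 * ((2 : ℕ) * (1 + Real.log z)) - r) := by
  have hpp : ∀ S ⊆ Tq q z, ∀ p ∈ S, p.Prime := fun S hS p hp => (mem_pz.1 (mem_Tq.1 (hS hp)).1).2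
  have hlN : 0 ≤ (Nat.log 2 N + 1 : ℝ) * Real.log N := by
    have := Real.log_natCast_nonneg N
    positivity
  have hψ : 0 ≤ lam1 N := sum_nonneg fun _ _ => ArithmeticFunction.vonMangoldt_nonneg
  have hψq : 0 ≤ lam1 N / Nat.totient q := by positivity
  have key := sieve_gen' ((Icc 1 N).filter (fun n => n ≡ a₀ [MOD q] ∧ ∀ p ∈ Tq q z, ¬ p ∣ n)) (fun n => ArithmeticFunction.vonMangoldt n)
    (fun _ _ => ArithmeticFunction.vonMangoldt_nonneg) (fun p n => (p : ℤ) ∣ (n : ℤ) + d) (Tq q z)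
    (fun p => (rq d p : ℝ) / (p - 1 : ℝ)) (fun p hp => by
      have hp2 : (2 : ℝ) ≤ p := by exact_mod_cast (mem_pz.1 (mem_Tq.1 hp).1).2.two_le
      constructor
      · apply div_nonneg (Nat.cast_nonneg _); linarith
      · rw [div_le_one (by linarith)]
        have h1 : (rq d p : ℝ) ≤ 1 := by exact_mod_cast rq_le1 d p
        linarith) (lam1 N / Nat.totient q) hψq
    (fun S => z * ((Nat.log 2 N + 1 : ℝ) * Real.log N) + EC q a₀ d N z r (q * ∏ p ∈ S, p)) r (by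
      intro S hS hr
      have hSp := hpp S hS
      set D := q * ∏ p ∈ S, p with hd
      have hd1 : 1 ≤ D := Nat.mul_pos hq (Nat.pos_of_ne_zero (prod_ne_zero_iff.2 fun p hp => (hSp p hp).ne_zero))
      have hpd : ∀ p ∈ S, p ∣ D := fun p hp => Dvd.dvd.mul_left (dvd_prod_of_mem _ hp) _
      set W' : ℝ := ∑ n ∈ (Icc 1 N).filter (fun n : ℕ => n ≡ a₀ [MOD q] ∧ ∀ p ∈ S, ¬ p ∣ n ∧ (p : ℤ) ∣ (n : ℤ) + d),
        ArithmeticFunction.vonMangoldt n with hW'
      have hmodq : ∀ n : ℕ, n % D ≡ a₀ [MOD q] ↔ n ≡ a₀ [MOD q] := by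
        intro n
        have : n % D ≡ n [MOD q] := (Nat.mod_modEq n D).of_dvd (dvd_mul_right q _)
        exact ⟨fun h => this.symm.trans h, fun h => this.trans h⟩
      have h1 : W' = ∑ b ∈ LC q a₀ d z r D, lamAP N D b := by
        rw [hW', ← sum_fiberwise_of_maps_to (t := LC q a₀ d z r D) (g := fun n => n % D)]
        · apply sum_congr rfl
          intro b hb
          rw [hd, LC_eq q a₀ d z r S hS hr, ← hd, mem_filter, mem_range] at hb
          unfold lamAP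
          apply sum_congr _ (fun _ _ => rfl)
          ext n
          rw [mem_filter, mem_filter, mem_filter]
          constructor
          · rintro ⟨⟨h1, h2⟩, h3⟩
            refine ⟨h1, ?_⟩
            unfold Nat.ModEq
            rw [h3, Nat.mod_eq_of_lt hb.1]
          · rintro ⟨h1, h2⟩
            unfold Nat.ModEq at h2
            rw [Nat.mod_eq_of_lt hb.1] at h2
            refine ⟨⟨h1, ?_, fun p hp => ?_⟩, h2⟩
            · rw [← hmodq, h2]; exact hb.2.1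
            · obtain ⟨h3, hi⟩ := hb.2.2 p hp
              rw [← h2] at h3 hi
              exact ⟨fun h4 => h3 ((dvd_mod_iff n D p (hpd p hp)).2 h4), (dvd_add_mod_iff n D p d (hpd p hp)).1 hi⟩
        · intro n hn
          rw [mem_filter] at hn
          rw [hd, LC_eq q a₀ d z r S hS hr, ← hd, mem_filter, mem_range]
          refine ⟨Nat.mod_lt _ hd1, (hmodq n).2 hn.2.1, fun p hp => ?_⟩
          obtain ⟨h3, hi⟩ := hn.2.2 p hp
          exact ⟨fun h4 => h3 ((dvd_mod_iff n D p (hpd p hp)).1 h4), (dvd_add_mod_iff n D p d (hpd p hp)).2 hi⟩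
      have h2 : (lam1 N / Nat.totient q) * ∏ p ∈ S, ((rq d p : ℝ) / (p - 1 : ℝ)) = ∑ b ∈ LC q a₀ d z r D, lam1 N / (Nat.totient D : ℝ) := by
        rw [sum_const, nsmul_eq_mul, hd, LC_card q a₀ d z r hq S hS hr, tot_q hS, prod_div_distrib]
        push_cast
        ring
      have h3 : |W' - (lam1 N / Nat.totient q) * ∏ p ∈ S, ((rq d p : ℝ) / (p - 1 : ℝ))| ≤ EC q a₀ d N z r D := by
        rw [h1, h2, ← sum_sub_distrib]
        exact abs_sum_le_sum_abs _ _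
      -- comparison of W and W'
      set W : ℝ := ∑ n ∈ ((Icc 1 N).filter (fun n : ℕ => n ≡ a₀ [MOD q] ∧ ∀ p ∈ Tq q z, ¬ p ∣ n)).filter
        (fun n : ℕ => ∀ p ∈ S, (p : ℤ) ∣ (n : ℤ) + d), ArithmeticFunction.vonMangoldt n with hW
      have h4 : |W - W'| ≤ z * ((Nat.log 2 N + 1 : ℝ) * Real.log N) := by
        have h5 : W = ∑ n ∈ Icc 1 N, if (n ≡ a₀ [MOD q] ∧ ∀ p ∈ Tq q z, ¬ p ∣ n) ∧ (∀ p ∈ S, (p : ℤ) ∣ (n : ℤ) + d) then
            ArithmeticFunction.vonMangoldt n else 0 := by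
          rw [hW, filter_filter, sum_filter]
        have h6 : W' = ∑ n ∈ Icc 1 N, if (n ≡ a₀ [MOD q] ∧ ∀ p ∈ S, ¬ p ∣ n ∧ (p : ℤ) ∣ (n : ℤ) + d) then
            ArithmeticFunction.vonMangoldt n else 0 := by
          rw [hW', sum_filter]
        rw [h5, h6, ← sum_sub_distrib]
        refine (abs_sum_le_sum_abs _ _).trans ?_
        have h7 : ∀ n ∈ Icc 1 N, |(if (n ≡ a₀ [MOD q] ∧ ∀ p ∈ Tq q z, ¬ p ∣ n) ∧ (∀ p ∈ S, (p : ℤ) ∣ (n : ℤ) + d) then
            ArithmeticFunction.vonMangoldt n else 0) - (if (n ≡ a₀ [MOD q] ∧ ∀ p ∈ S, ¬ p ∣ n ∧ (p : ℤ) ∣ (n : ℤ) + d) then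
            ArithmeticFunction.vonMangoldt n else 0)| ≤ ∑ p ∈ pz z, if p ∣ n then ArithmeticFunction.vonMangoldt n else 0 := by
          intro n _
          have h8 : (0 : ℝ) ≤ ArithmeticFunction.vonMangoldt n := ArithmeticFunction.vonMangoldt_nonneg
          have h9 : 0 ≤ ∑ p ∈ pz z, if p ∣ n then ArithmeticFunction.vonMangoldt n else 0 :=
            sum_nonneg fun p _ => by split_ifs <;> simp [h8]
          by_cases h10 : ∀ p ∈ Tq q z, ¬ p ∣ n
          · by_cases h11 : n ≡ a₀ [MOD q] ∧ ∀ p ∈ S, (p : ℤ) ∣ (n : ℤ) + d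
            · rw [if_pos ⟨⟨h11.1, h10⟩, h11.2⟩, if_pos ⟨h11.1, fun p hp => ⟨h10 p (hS hp), h11.2 p hp⟩⟩, sub_self, abs_zero]
              exact h9
            · rw [if_neg (fun h => h11 ⟨h.1.1, h.2⟩), if_neg (fun h => h11 ⟨h.1, fun p hp => (h.2 p hp).2⟩), sub_self, abs_zero]
              exact h9
          · rw [if_neg (fun h => h10 h.1.2), zero_sub, abs_neg]
            push Not at h10
            obtain ⟨p, hp, hpn⟩ := h10
            have h11 : |(if (n ≡ a₀ [MOD q] ∧ ∀ p ∈ S, ¬ p ∣ n ∧ (p : ℤ) ∣ (n : ℤ) + d) then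
              ArithmeticFunction.vonMangoldt n else 0)| ≤ ArithmeticFunction.vonMangoldt n := by
              split_ifs
              · rw [abs_of_nonneg h8]
              · rw [abs_zero]; exact h8
            refine h11.trans ?_
            have h12 := single_le_sum (f := fun p => if p ∣ n then ArithmeticFunction.vonMangoldt n else (0 : ℝ))
              (s := pz z) (fun p _ => by split_ifs <;> simp [h8]) (mem_Tq.1 hp).1
            simp only [if_pos hpn] at h12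
            exact h12
        refine (sum_le_sum h7).trans ?_
        rw [sum_comm]
        have h8 : ∀ p ∈ pz z, ∑ n ∈ Icc 1 N, (if p ∣ n then ArithmeticFunction.vonMangoldt n else 0) ≤
            (Nat.log 2 N + 1 : ℝ) * Real.log N := by
          intro p hp
          rw [← sum_filter]
          exact lam_mult_prime N p (mem_pz.1 hp).2
        refine (sum_le_sum h8).trans ?_
        rw [sum_const, nsmul_eq_mul]
        apply mul_le_mul_of_nonneg_right _ hlN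
        exact_mod_cast card_pz_le z
      have h5 : W - (lam1 N / Nat.totient q) * ∏ p ∈ S, ((rq d p : ℝ) / (p - 1 : ℝ)) = (W - W') + (W' - (lam1 N / Nat.totient q) * ∏ p ∈ S, ((rq d p : ℝ) / (p - 1 : ℝ))) := by ring
      rw [h5]
      exact (abs_add_le _ _).trans (add_le_add h4 h3))
  refine key.trans ?_
  have hTpz : Tq q z ⊆ pz z := filter_subset _ _
  have e1 : ∑ j ∈ range (r + 1), ∑ S ∈ (Tq q z).powersetCard j, (z * ((Nat.log 2 N + 1 : ℝ) * Real.log N) + EC q a₀ d N z r (q * ∏ p ∈ S, p)) ≤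
      ((∑ j ∈ range (r + 1), ((pz z).powersetCard j).card : ℕ) : ℝ) * (z * ((Nat.log 2 N + 1 : ℝ) * Real.log N)) +
      ∑ j ∈ range (r + 1), ∑ S ∈ (pz z).powersetCard j, EC q a₀ d N z r (q * ∏ p ∈ S, p) := by
    push_cast
    rw [sum_mul, ← sum_add_distrib]
    apply sum_le_sum
    intro j _
    have : ∑ S ∈ (pz z).powersetCard j, (z * ((Nat.log 2 N + 1 : ℝ) * Real.log N) + EC q a₀ d N z r (q * ∏ p ∈ S, p)) =
        (((pz z).powersetCard j).card : ℝ) * (z * ((Nat.log 2 N + 1 : ℝ) * Real.log N)) + ∑ S ∈ (pz z).powersetCard j, EC q a₀ d N z r (q * ∏ p ∈ S, p) := by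
      rw [sum_add_distrib, sum_const, nsmul_eq_mul]
    rw [← this]
    apply sum_le_sum_of_subset_of_nonneg (powersetCard_mono hTpz)
    intro S _ _
    have := EC_nonneg q a₀ d N z r (q * ∏ p ∈ S, p)
    positivity
  have h1 := card_small (pz z) r
  have h2 : (((pz z).card : ℝ) + 1) ^ r ≤ ((z : ℝ) + 1) ^ r := by
    have : ((pz z).card : ℝ) ≤ z := by exact_mod_cast card_pz_le z
    gcongr
  have h3 : ((∑ j ∈ range (r + 1), ((pz z).powersetCard j).card : ℕ) : ℝ) * (z * ((Nat.log 2 N + 1 : ℝ) * Real.log N)) ≤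
      ((z : ℝ) + 1) ^ r * (z * ((Nat.log 2 N + 1 : ℝ) * Real.log N)) :=
    mul_le_mul_of_nonneg_right (h1.trans h2) (by positivity)
  have h4 := sum_small_le z r (fun D => EC q a₀ d N z r (q * D)) (fun D => EC_nonneg q a₀ d N z r (q * D))
  have h4' : ∑ D ∈ Icc 1 ((z + 1) ^ r), EC q a₀ d N z r (q * D) ≤ ∑ D ∈ Icc 1 (q * (z + 1) ^ r), EC q a₀ d N z r D := by
    rw [← sum_image (s := Icc 1 ((z + 1) ^ r)) (g := fun D => q * D) (f := fun D => EC q a₀ d N z r D)]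
    · apply sum_le_sum_of_subset_of_nonneg _ (fun D _ _ => EC_nonneg _ _ _ _ _ _ _)
      intro D hD
      rw [mem_image] at hD
      obtain ⟨D', hD', rfl⟩ := hD
      rw [mem_Icc] at hD' ⊢
      exact ⟨Nat.mul_pos hq hD'.1, Nat.mul_le_mul_left _ hD'.2⟩
    · intro x _ y _ hxy
      exact Nat.eq_of_mul_eq_mul_left hq hxy
  have h5 : es (fun p => (rq d p : ℝ) / (p - 1 : ℝ)) (Tq q z) r ≤ Real.exp (3 * ((2 : ℕ) * (1 + Real.log z)) - r) := by
    have hg : ∀ p ∈ Tq q z, (rq d p : ℝ) / (p - 1 : ℝ) ≤ (2 : ℕ) * (1 / (p : ℝ)) := by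
      intro p hp
      have hp2 : (2 : ℝ) ≤ p := by exact_mod_cast (mem_pz.1 (hTpz hp)).2.two_le
      have h6 : (rq d p : ℝ) ≤ 1 := by exact_mod_cast rq_le1 d p
      rw [mul_one_div, div_le_div_iff₀ (by linarith) (by linarith)]
      push_cast
      nlinarith
    refine (es_le (fun p hp => by
      have hp2 : (2 : ℝ) ≤ p := by exact_mod_cast (mem_pz.1 (hTpz hp)).2.two_le
      apply div_nonneg (Nat.cast_nonneg _); linarith) r).trans ?_
    apply Real.exp_le_exp.2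
    have h6 := sum_le_sum hg
    rw [← mul_sum] at h6
    have h7 := sum_pz_le z
    have h7' : ∑ p ∈ Tq q z, 1 / (p : ℝ) ≤ ∑ p ∈ pz z, 1 / (p : ℝ) :=
      sum_le_sum_of_subset_of_nonneg hTpz (fun p _ _ => by positivity)
    have h8 : ((2 : ℕ) : ℝ) * ∑ p ∈ Tq q z, 1 / (p : ℝ) ≤ ((2 : ℕ) : ℝ) * (1 + Real.log z) :=
      mul_le_mul_of_nonneg_left (h7'.trans h7) (Nat.cast_nonneg _)
    linarith
  have h6 : 2 * (lam1 N / Nat.totient q) * es (fun p => (rq d p : ℝ) / (p - 1 : ℝ)) (Tq q z) r ≤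
      2 * (lam1 N / Nat.totient q) * Real.exp (3 * ((2 : ℕ) * (1 + Real.log z)) - r) :=
    mul_le_mul_of_nonneg_left h5 (by positivity)
  linarith

end Pool.Agent.N735.CL
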