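import Mathlib
import Pool.Agent.N735.CL.Cl1
import Pool.Agent.H373R2.T7.Tuple4

set_option autoImplicit false
set_option maxHeartbeats 4000000

/-! Prime pairs in a residue class: the main term of the sieve. -/

namespace Pool.Agent.N735.CL

open Finset
open Pool.Agent.H373R2.T7

lemma rq_zero {d p : ℕ} (h : p ∣ d) : rq d p = 0 := by
  unfold rq rhoP
  rw [card_eq_zero, filter_eq_empty_iff]
  rintro r _ ⟨h1, _, h2⟩
  apply h1
  have h3 : (p : ℤ) ∣ (d : ℤ) := by exact_mod_cast h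
  have := (Int.dvd_add_left h3).1 h2
  exact_mod_cast this

lemma prod_Tq {q z d : ℕ} (hqd : q ∣ d) : ∏ p ∈ Tq q z, (1 - (rq d p : ℝ) / (p - 1 : ℝ)) =
    ∏ p ∈ pz z, (1 - (rhoP (fun _ : Fin 1 => (d : ℤ)) p : ℝ) / (p - 1 : ℝ)) := by
  unfold Tq
  rw [prod_filter]
  apply prod_congr rfl
  intro p _
  by_cases h : p ∣ q
  · rw [if_neg (by simpa using h)]
    have : rhoP (fun _ : Fin 1 => (d : ℤ)) p = 0 := rq_zero (h.trans hqd)
    rw [this]; simp
  · rw [if_pos h]; rfl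

theorem class_main (q E U : ℕ) (hq : 1 ≤ q) : ∃ N0 : ℕ, ∀ N : ℕ, N0 ≤ N → ∀ z : ℕ, 1 ≤ z → (z : ℝ) ≤ Real.log N ^ E →
    ∀ a₀ d : ℕ, a₀.Coprime q → q ∣ d →
    |∑ n ∈ Icc 1 N, (if n ≡ a₀ [MOD q] then ArithmeticFunction.vonMangoldt n else 0) *
      (if ∀ p ∈ pz z, ¬ (p : ℤ) ∣ (n : ℤ) + d then (Vz z)⁻¹ else 0) - singZ (fun _ : Fin 1 => (d : ℤ)) z / Nat.totient q * N| ≤
      N / Real.log N ^ U := by
  set U2 := U + 3 with hU2
  obtain ⟨N0, h0⟩ := choice 2 E U2 4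
  set U1 := U + 3 with hU1
  obtain ⟨B, X0, hBV⟩ := H343E.unsmoothed U1
  obtain ⟨C, N1, hC, hpnt⟩ := pnt_lam (U + 3)
  obtain ⟨n1, h1⟩ := ev_log' (B + E + U + 1 + 6) 1
  obtain ⟨n2, h2⟩ := ev_L' (C + 40 + q ^ 2)
  obtain ⟨n3, h3⟩ := Vz_inv_small E
  refine ⟨max (max (max N0 ⌈X0⌉₊) (max N1 n1)) (max (max n2 n3) 4), fun N hN z hz hzE a₀ d ha hqd => ?_⟩
  have b1 := le_trans (le_trans (le_trans (le_max_left _ _) (le_max_left _ _)) (le_max_left _ _)) hN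
  have b2 := le_trans (le_trans (le_trans (le_max_right _ _) (le_max_left _ _)) (le_max_left _ _)) hN
  have b3 := le_trans (le_trans (le_trans (le_max_left _ _) (le_max_right _ _)) (le_max_left _ _)) hN
  have b4 := le_trans (le_trans (le_trans (le_max_right _ _) (le_max_right _ _)) (le_max_left _ _)) hN
  have b5 := le_trans (le_trans (le_trans (le_max_left _ _) (le_max_left _ _)) (le_max_right _ _)) hN
  have b6 := le_trans (le_trans (le_trans (le_max_right _ _) (le_max_left _ _)) (le_max_right _ _)) hN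
  have hN4 : 4 ≤ N := le_trans (le_trans (le_max_right _ _) (le_max_right _ _)) hN
  obtain ⟨r, hr1, hr2, _⟩ := h0 N b1 z hzE
  have hX0 : X0 ≤ (N : ℝ) := (Nat.le_ceil _).trans (by exact_mod_cast b2)
  have hP := hpnt N b3
  have a1 := h1 N b4
  have hL := h2 N b5
  have hV := h3 N b6 z hz hzE
  have hNr : (4 : ℝ) ≤ N := by exact_mod_cast hN4
  have hN0 : (0 : ℝ) < N := by linarith
  set L := Real.log N with hLd
  have hqr : (1 : ℝ) ≤ q := by exact_mod_cast hq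
  have hq2 : (0 : ℝ) ≤ (q : ℝ) ^ 2 := by positivity
  have hL40 : 40 ≤ L := by linarith
  have hLq : (q : ℝ) ^ 2 ≤ L := by linarith
  have hL0 : 0 < L := by linarith
  have hL1 : 1 ≤ L := by linarith
  rw [one_mul] at a1
  have hss : √(N : ℝ) * √(N : ℝ) = N := Real.mul_self_sqrt hN0.le
  have hs0 : 0 < √(N : ℝ) := Real.sqrt_pos.2 hN0
  set D0 : ℕ := (z + 1) ^ r with hD0
  have hD01 : 1 ≤ D0 := Nat.one_le_pow _ _ (by omega)
  have hD01r : (1 : ℝ) ≤ D0 := by exact_mod_cast hD01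
  have hD0r : (D0 : ℝ) = ((z : ℝ) + 1) ^ r := by rw [hD0]; push_cast; ring
  have hD02 : (D0 : ℝ) ^ 2 ≤ √N := by
    have h5 : ((D0 : ℝ) ^ 2) ^ 2 ≤ N := by rw [← pow_mul, hD0r]; exact hr2
    have h6 := Real.sqrt_le_sqrt h5
    rwa [Real.sqrt_sq (by positivity)] at h6
  have hDs0 : (D0 : ℝ) ≤ √N := le_trans (le_self_pow₀ hD01r (by norm_num)) hD02
  set D : ℕ := q * D0 with hD
  have hDr : (D : ℝ) = q * D0 := by rw [hD]; push_cast; ring
  have hD2 : (D : ℝ) ^ 2 ≤ L * √N := by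
    rw [hDr, mul_pow]
    exact mul_le_mul hLq hD02 (by positivity) hL0.le
  have hD1r : (1 : ℝ) ≤ D := by rw [hDr]; exact one_le_mul_of_one_le_of_one_le hqr hD01r
  have hDs : (D : ℝ) ≤ L * √N := le_trans (le_self_pow₀ hD1r (by norm_num)) hD2
  have hpow : ∀ j, j ≤ B + E + U + 1 + 6 → L ^ j ≤ √(N : ℝ) := fun j hj => (pow_le_pow_right₀ hL1 hj).trans a1
  have hNB : L * √(N : ℝ) ≤ N / L ^ B := by
    rw [le_div_iff₀ (by positivity)]
    calc L * √(N : ℝ) * L ^ B = √(N : ℝ) * L ^ (B + 1) := by rw [pow_succ]; ring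
      _ ≤ √(N : ℝ) * √(N : ℝ) := by
          apply mul_le_mul_of_nonneg_left (hpow (B + 1) (by omega)) hs0.le
      _ = N := hss
  have hbv := hBV N hX0 1 le_rfl D (hDs.trans hNB) (by rw [one_mul]; exact hD2.trans hNB) (LC q a₀ d z r) (LC_fam d z r hq ha)
  have hEf : ∑ D ∈ Icc 1 D, EC q a₀ d N z r D ≤ N / L ^ U1 := by
    rw [one_mul] at hbv
    refine le_trans (le_of_eq ?_) hbv
    apply sum_congr rfl
    intro D _
    unfold EC
    apply sum_congr rfl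
    intro b _
    rw [lamAP_eq, lam1_eq']
  have hsv := class_sieve q a₀ d N z r hq
  set φ := (Nat.totient q : ℝ) with hφ
  have hφ1 : 1 ≤ φ := by
    rw [hφ]
    exact_mod_cast Nat.totient_pos.2 hq
  have hφ0 : 0 < φ := by linarith
  -- the sums
  set c0 : ℝ := z * ((Nat.log 2 N + 1 : ℝ) * Real.log N) with hc0
  have hlog2 : (Nat.log 2 N : ℝ) ≤ 2 * L := natlog_le N (by omega)
  have hc0' : c0 ≤ L ^ (E + 3) := by
    rw [hc0]
    calc (z : ℝ) * ((Nat.log 2 N + 1 : ℝ) * Real.log N) ≤ L ^ E * ((2 * L + 1) * L) := by gcongr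
      _ ≤ L ^ E * L ^ 3 := by
          apply mul_le_mul_of_nonneg_left _ (by positivity)
          have h5 : 2 * L + 1 ≤ L * L := by nlinarith
          calc (2 * L + 1) * L ≤ (L * L) * L := mul_le_mul_of_nonneg_right h5 hL0.le
            _ = L ^ 3 := by ring
      _ = L ^ (E + 3) := by rw [pow_add]
  have hc00 : 0 ≤ c0 := by positivity
  set P1 : ℝ := ∏ p ∈ pz z, (1 - (rhoP (fun _ : Fin 1 => (d : ℤ)) p : ℝ) / (p - 1 : ℝ)) with hP1
  rw [prod_Tq hqd, ← hP1] at hsv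
  have hP10 : 0 ≤ P1 ∧ P1 ≤ 1 := by
    have hh : ∀ p ∈ pz z, 0 ≤ 1 - (rhoP (fun _ : Fin 1 => (d : ℤ)) p : ℝ) / (p - 1 : ℝ) ∧ 1 - (rhoP (fun _ : Fin 1 => (d : ℤ)) p : ℝ) / (p - 1 : ℝ) ≤ 1 := by
      intro p hp
      have hp2 : (2 : ℝ) ≤ p := by exact_mod_cast (mem_pz.1 hp).2.two_le
      have h5 := rhoP_le (fun _ : Fin 1 => (d : ℤ)) p
      have h6 : (rhoP (fun _ : Fin 1 => (d : ℤ)) p : ℝ) ≤ ((p - 1 : ℕ) : ℝ) := by exact_mod_cast h5
      rw [Nat.cast_sub (mem_pz.1 hp).2.one_le] at h6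
      push_cast at h6
      have h7 : (rhoP (fun _ : Fin 1 => (d : ℤ)) p : ℝ) / (p - 1 : ℝ) ≤ 1 := by rw [div_le_one (by linarith)]; exact h6
      have h8 : 0 ≤ (rhoP (fun _ : Fin 1 => (d : ℤ)) p : ℝ) / (p - 1 : ℝ) := div_nonneg (Nat.cast_nonneg _) (by linarith)
      constructor <;> linarith
    exact ⟨prod_nonneg fun p hp => (hh p hp).1, prod_le_one (fun p hp => (hh p hp).1) (fun p hp => (hh p hp).2)⟩
  set W0 : ℝ := ∑ n ∈ (Icc 1 N).filter (fun n : ℕ => n ≡ a₀ [MOD q] ∧ ∀ p ∈ Tq q z, ¬ (p : ℤ) ∣ (n : ℤ) + d), ArithmeticFunction.vonMangoldt n with hW0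
  set W1 : ℝ := ∑ n ∈ ((Icc 1 N).filter (fun n : ℕ => n ≡ a₀ [MOD q] ∧ ∀ p ∈ Tq q z, ¬ p ∣ n)).filter
        (fun n : ℕ => ∀ p ∈ Tq q z, ¬ (p : ℤ) ∣ (n : ℤ) + d), ArithmeticFunction.vonMangoldt n with hW1
  have hsum : ∑ n ∈ Icc 1 N, (if n ≡ a₀ [MOD q] then ArithmeticFunction.vonMangoldt n else 0) *
      (if ∀ p ∈ pz z, ¬ (p : ℤ) ∣ (n : ℤ) + d then (Vz z)⁻¹ else 0) = (Vz z)⁻¹ * W0 := by
    rw [hW0, sum_filter, mul_sum]
    apply sum_congr rfl
    intro n _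
    by_cases h4 : n ≡ a₀ [MOD q]
    · have hiff : (∀ p ∈ pz z, ¬ (p : ℤ) ∣ (n : ℤ) + d) ↔ ∀ p ∈ Tq q z, ¬ (p : ℤ) ∣ (n : ℤ) + d := by
        constructor
        · intro h p hp
          exact h p (mem_Tq.1 hp).1
        · intro h p hp hd
          by_cases hpq : p ∣ q
          · have h5 : (p : ℤ) ∣ (d : ℤ) := by exact_mod_cast hpq.trans hqd
            have h6 := (Int.dvd_add_left h5).1 hd
            have h7 : p ∣ n := by exact_mod_cast h6
            have h8 : n.gcd q = a₀.gcd q := h4.gcd_eq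
            have h9 : p ∣ n.gcd q := Nat.dvd_gcd h7 hpq
            rw [h8] at h9
            rw [Nat.Coprime] at ha
            rw [ha] at h9
            exact (mem_pz.1 hp).2.one_lt.ne' (Nat.dvd_one.1 h9)
          · exact h p (mem_Tq.2 ⟨hp, hpq⟩) hd
      rw [if_pos h4]
      by_cases h5 : ∀ p ∈ Tq q z, ¬ (p : ℤ) ∣ (n : ℤ) + d
      · rw [if_pos (hiff.2 h5), if_pos ⟨h4, h5⟩, mul_comm]
      · rw [if_neg (fun h => h5 (hiff.1 h)), if_neg (fun h => h5 h.2), mul_zero, mul_zero]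
    · rw [if_neg h4, zero_mul, if_neg (fun h : n ≡ a₀ [MOD q] ∧ ∀ p ∈ Tq q z, ¬ (p : ℤ) ∣ (n : ℤ) + d => h4 h.1), mul_zero]
  have hdiff : |W0 - W1| ≤ c0 := by
    have h5 : W0 = ∑ n ∈ Icc 1 N, if (n ≡ a₀ [MOD q] ∧ ∀ p ∈ Tq q z, ¬ (p : ℤ) ∣ (n : ℤ) + d) then ArithmeticFunction.vonMangoldt n else 0 := by
      rw [hW0, sum_filter]
    have h6 : W1 = ∑ n ∈ Icc 1 N, if (n ≡ a₀ [MOD q] ∧ ∀ p ∈ Tq q z, ¬ p ∣ n) ∧ (∀ p ∈ Tq q z, ¬ (p : ℤ) ∣ (n : ℤ) + d) then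
        ArithmeticFunction.vonMangoldt n else 0 := by
      rw [hW1, filter_filter, sum_filter]
    rw [h5, h6, ← sum_sub_distrib]
    refine (abs_sum_le_sum_abs _ _).trans ?_
    have h7 : ∀ n ∈ Icc 1 N, |(if (n ≡ a₀ [MOD q] ∧ ∀ p ∈ Tq q z, ¬ (p : ℤ) ∣ (n : ℤ) + d) then ArithmeticFunction.vonMangoldt n else 0) -
        (if (n ≡ a₀ [MOD q] ∧ ∀ p ∈ Tq q z, ¬ p ∣ n) ∧ (∀ p ∈ Tq q z, ¬ (p : ℤ) ∣ (n : ℤ) + d) then
        ArithmeticFunction.vonMangoldt n else 0)| ≤ ∑ p ∈ pz z, if p ∣ n then ArithmeticFunction.vonMangoldt n else 0 := by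
      intro n _
      have h8 : (0 : ℝ) ≤ ArithmeticFunction.vonMangoldt n := ArithmeticFunction.vonMangoldt_nonneg
      have h9 : 0 ≤ ∑ p ∈ pz z, if p ∣ n then ArithmeticFunction.vonMangoldt n else 0 :=
        sum_nonneg fun p _ => by split_ifs <;> simp [h8]
      by_cases h10 : ∀ p ∈ Tq q z, ¬ p ∣ n
      · by_cases h11 : n ≡ a₀ [MOD q] ∧ ∀ p ∈ Tq q z, ¬ (p : ℤ) ∣ (n : ℤ) + d
        · rw [if_pos h11, if_pos ⟨⟨h11.1, h10⟩, h11.2⟩, sub_self, abs_zero]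
          exact h9
        · rw [if_neg h11, if_neg (fun h => h11 ⟨h.1.1, h.2⟩), sub_self, abs_zero]
          exact h9
      · rw [if_neg (c := (n ≡ a₀ [MOD q] ∧ ∀ p ∈ Tq q z, ¬ p ∣ n) ∧ (∀ p ∈ Tq q z, ¬ (p : ℤ) ∣ (n : ℤ) + d)) (fun h => h10 h.1.2), sub_zero]
        push Not at h10
        obtain ⟨p, hp, hpn⟩ := h10
        have h11 : |(if (n ≡ a₀ [MOD q] ∧ ∀ p ∈ Tq q z, ¬ (p : ℤ) ∣ (n : ℤ) + d) then
          ArithmeticFunction.vonMangoldt n else 0)| ≤ ArithmeticFunction.vonMangoldt n := by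
          split_ifs
          · rw [abs_of_nonneg h8]
          · rw [abs_zero]; exact h8
        refine h11.trans ?_
        have h12 := single_le_sum (f := fun p => if p ∣ n then ArithmeticFunction.vonMangoldt n else (0 : ℝ))
          (s := pz z) (fun p _ => by split_ifs <;> simp [h8]) (mem_Tq.1 hp).1
        simp only [if_pos hpn] at h12
        exact h12
    refine (sum_le_sum h7).trans ?_
    rw [sum_comm]
    have h8 : ∀ p ∈ pz z, ∑ n ∈ Icc 1 N, (if p ∣ n then ArithmeticFunction.vonMangoldt n else 0) ≤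
        (Nat.log 2 N + 1 : ℝ) * Real.log N := by
      intro p hp
      rw [← sum_filter]
      exact lam_mult_prime N p (mem_pz.1 hp).2
    refine (sum_le_sum h8).trans ?_
    rw [sum_const, nsmul_eq_mul, hc0]
    apply mul_le_mul_of_nonneg_right _ (by positivity)
    exact_mod_cast card_pz_le z
  have hexp : Real.exp (3 * ((2 : ℕ) * (1 + Real.log z)) - r) ≤ 1 / L ^ U2 := hr1
  have hψ := lam1_le N
  have hψ0 : 0 ≤ lam1 N := sum_nonneg fun _ _ => ArithmeticFunction.vonMangoldt_nonneg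
  have hψφ : lam1 N / φ ≤ 6 * N := (div_le_self hψ0 hφ1).trans hψ
  have hψφ0 : 0 ≤ lam1 N / φ := by positivity
  have htot : |W0 - N / φ * P1| ≤ c0 + (((z : ℝ) + 1) ^ r * c0 + N / L ^ U1 + 2 * (6 * N) * (1 / L ^ U2)) + (C * (N / L ^ (U + 3)) + 2) := by
    have e : W0 - N / φ * P1 = (W0 - W1) + (W1 - lam1 N / φ * P1) + (lam1 N - N) / φ * P1 := by ring
    rw [e]
    refine (abs_add_le _ _).trans (add_le_add ((abs_add_le _ _).trans (add_le_add hdiff ?_)) ?_)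
    · refine hsv.trans ?_
      apply add_le_add (add_le_add le_rfl hEf)
      apply mul_le_mul _ hexp (Real.exp_pos _).le (by positivity)
      exact mul_le_mul_of_nonneg_left hψφ (by norm_num)
    · rw [abs_mul, abs_of_nonneg hP10.1, abs_div, abs_of_pos hφ0]
      calc |lam1 N - N| / φ * P1 ≤ |lam1 N - N| * 1 := by
            apply mul_le_mul _ hP10.2 hP10.1 (abs_nonneg _)
            exact div_le_self (abs_nonneg _) hφ1
        _ ≤ _ := by rw [mul_one]; exact hP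
  -- sizes
  set T : ℝ := N / L ^ (U + 3) with hT
  have hT0 : 0 < T := by positivity
  have hsT : √(N : ℝ) * L ^ (E + 3) ≤ T := by
    rw [hT, le_div_iff₀ (by positivity)]
    calc √(N : ℝ) * L ^ (E + 3) * L ^ (U + 3) = √(N : ℝ) * L ^ (E + 3 + (U + 3)) := by rw [mul_assoc, ← pow_add]
      _ ≤ √(N : ℝ) * √(N : ℝ) := mul_le_mul_of_nonneg_left (hpow _ (by omega)) hs0.le
      _ = N := hss
  have g1 : ((z : ℝ) + 1) ^ r * c0 ≤ T := by
    rw [← hD0r]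
    calc (D0 : ℝ) * c0 ≤ √N * L ^ (E + 3) := mul_le_mul hDs0 hc0' hc00 hs0.le
      _ ≤ T := hsT
  have g2 : c0 ≤ T := by
    refine le_trans ?_ g1
    exact le_mul_of_one_le_left hc00 (by rw [← hD0r]; exact hD01r)
  have g4 : 2 * (6 * (N : ℝ)) * (1 / L ^ U2) = 12 * T := by rw [hT, hU2]; ring
  have g5 : (2 : ℝ) ≤ 2 * T := by
    have : 1 ≤ T := by
      refine le_trans ?_ hsT
      have h5 : 1 ≤ L ^ (E + 3) := one_le_pow₀ hL1
      have h6 : 1 ≤ √(N : ℝ) := (one_le_pow₀ hL1).trans (hpow 0 (by omega))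
      nlinarith
    linarith
  have hfin : |W0 - N / φ * P1| ≤ (C + 17) * T := by
    refine htot.trans ?_
    rw [g4]
    nlinarith
  have hfinal : |(Vz z)⁻¹ * W0 - singZ (fun _ : Fin 1 => (d : ℤ)) z / φ * N| ≤ L * ((C + 17) * T) := by
    have e : (Vz z)⁻¹ * W0 - singZ (fun _ : Fin 1 => (d : ℤ)) z / φ * N = (Vz z)⁻¹ * (W0 - N / φ * P1) := by
      rw [singZ_eq, pow_one]; ring
    rw [e, abs_mul, abs_of_nonneg (inv_pos.2 (Vz_pos z)).le]
    exact mul_le_mul hV hfin (abs_nonneg _) (by positivity)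
  rw [hsum]
  refine hfinal.trans ?_
  calc L * ((C + 17) * T) = ((C + 17) / L ^ 2) * (N / L ^ U) := by
        rw [hT, show U + 3 = U + 2 + 1 by ring, pow_succ L (U + 2), pow_add L U 2]
        field_simp
    _ ≤ 1 * (N / L ^ U) := by
        apply mul_le_mul_of_nonneg_right _ (by positivity)
        rw [div_le_one (by positivity)]
        nlinarith
    _ = _ := one_mul _

end Pool.Agent.N735.CL
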