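import Mathlib
import Pool.Agent.N735.CL.Cl2
import Pool.Agent.H560R3.GB.Tup

set_option autoImplicit false
set_option maxHeartbeats 4000000

/-! Prime pairs in a residue class: almost all differences. -/

namespace Pool.Agent.N735.CL

open Finset
open Pool.Agent.H373R2.T7
open Pool.Agent.H560R3.GB

/-- the indicator of a class -/
noncomputable def ic (q a₀ n : ℕ) : ℝ := if n ≡ a₀ [MOD q] then 1 else 0

lemma ic_nonneg (q a₀ n : ℕ) : 0 ≤ ic q a₀ n := by unfold ic; split_ifs <;> norm_num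
lemma ic_le (q a₀ n : ℕ) : ic q a₀ n ≤ 1 := by unfold ic; split_ifs <;> norm_num

/-- the weighted number of the prime pairs in a class -/
noncomputable def tcC (q a₀ d N : ℕ) : ℝ := ∑ n ∈ Icc 1 N, ic q a₀ n * (lamP n * lamP ((n : ℤ) + d))

lemma energy_id (X : ℕ) : Pool.Agent.H373R2.T7.energy 1 X (fun m => (m : ℤ)) ≤ X := by
  unfold Pool.Agent.H373R2.T7.energy
  have : (((Fintype.piFinset fun _ : Fin 1 => Icc 1 X) ×ˢ (Fintype.piFinset fun _ : Fin 1 => Icc 1 X)).filter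
      (fun q => ∑ i, ((q.1 i : ℕ) : ℤ) = ∑ i, ((q.2 i : ℕ) : ℤ))).card ≤ (Icc 1 X).card := by
    apply card_le_card_of_injOn (fun q => q.1 0)
    · intro q hq
      rw [mem_coe, mem_filter, mem_product, Fintype.mem_piFinset] at hq
      exact hq.1.1 0
    · intro q hq q' hq' hqq
      rw [mem_coe, mem_filter] at hq hq'
      have a1 := hq.2
      have a2 := hq'.2
      simp only [Fin.sum_univ_one, Fin.isValue, Nat.cast_inj] at a1 a2 hqq
      ext i
      · rw [Subsingleton.elim i 0]; exact hqq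
      · rw [Subsingleton.elim i 0, ← a1, ← a2]; exact hqq
  refine this.trans (le_of_eq ?_)
  simp

lemma lamzI_model (z n d : ℕ) (hn : 1 ≤ n) : lamzI z ((n : ℤ) + d) = if ∀ p ∈ pz z, ¬ (p : ℤ) ∣ (n : ℤ) + d then (Vz z)⁻¹ else 0 := by
  unfold lamzI lamz
  rw [if_pos (by omega)]
  have e : ((n : ℤ) + d).toNat = n + d := by omega
  rw [e]
  congr 1
  apply propext
  constructor
  · intro h p hp hd
    apply h p hp
    exact_mod_cast hd
  · intro h p hp hd
    apply h p hp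
    exact_mod_cast hd

theorem class_bad (q G U : ℕ) (hq : 1 ≤ q) : ∃ B0 : ℕ, ∀ E : ℕ, ∃ N0 : ℕ, ∀ N : ℕ, N0 ≤ N → ∀ X : ℕ, 1 ≤ X → X ≤ G * N → N ≤ 6 * X →
    ∀ z : ℕ, Real.log N ^ B0 ≤ z → (z : ℝ) ≤ Real.log N ^ E → ∀ a₀ : ℕ, a₀.Coprime q →
      (((Icc 1 X).filter (fun d => q ∣ d ∧ (N : ℝ) / Real.log N ^ U <
        |tcC q a₀ d N - singZ (fun _ : Fin 1 => (d : ℤ)) z / Nat.totient q * N|)).card : ℝ) ≤ X / Real.log N ^ U := by
  classical
  obtain ⟨B0, hB0⟩ := lam_e 1 (G + 1) 1 (2 * U + 2)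
  refine ⟨B0, fun E => ?_⟩
  obtain ⟨n1, h1⟩ := hB0 E
  obtain ⟨n2, h2⟩ := class_main q E (U + 1) hq
  obtain ⟨n4, h4⟩ := ev_log' (U + 5) 1
  obtain ⟨n5, h5⟩ := ev_L' (Real.log (G + 1) + 16 + 8 * (2 * 2 ^ 2 * (4 * (G + 1))))
  refine ⟨max (max n1 n2) (max n4 (max n5 3)), fun N hN X hX1 hXG hNX z hz1 hz2 a₀ ha => ?_⟩
  have b1 := le_trans (le_trans (le_max_left _ _) (le_max_left _ _)) hN
  have b2 := le_trans (le_trans (le_max_right _ _) (le_max_left _ _)) hN
  have b4 := le_trans (le_trans (le_max_left _ _) (le_max_right _ _)) hN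
  have b5 := le_trans (le_trans (le_trans (le_max_left _ _) (le_max_right _ _)) (le_max_right _ _)) hN
  have hN3 : 3 ≤ N := le_trans (le_trans (le_trans (le_max_right _ _) (le_max_right _ _)) (le_max_right _ _)) hN
  have hNr : (3 : ℝ) ≤ N := by exact_mod_cast hN3
  have hN0' : (0 : ℝ) < N := by linarith
  have hL := h5 N b5
  have a4 := h4 N b4
  set L := Real.log N with hLd
  rw [one_mul] at a4
  have hG0 : (0 : ℝ) ≤ G := Nat.cast_nonneg _
  have hlG : 0 ≤ Real.log ((G : ℝ) + 1) := Real.log_nonneg (by linarith)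
  have hL16 : 16 ≤ L := by
    have : 0 ≤ 8 * (2 * 2 ^ 2 * (4 * ((G : ℝ) + 1))) := by positivity
    linarith
  have hL1 : 1 ≤ L := by linarith
  have hL0 : 0 < L := by linarith
  have hz : 1 ≤ z := by
    have : (1 : ℝ) ≤ z := (one_le_pow₀ hL1).trans hz1
    exact_mod_cast this
  have hX0 : (0 : ℝ) < X := by exact_mod_cast hX1
  have hss : √(N : ℝ) * √(N : ℝ) = N := Real.mul_self_sqrt hN0'.le
  have hs0 : 0 < √(N : ℝ) := Real.sqrt_pos.2 hN0'
  have hs1 : 1 ≤ √(N : ℝ) := (one_le_pow₀ hL1).trans a4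
  -- the first moment
  set D : ℕ → ℝ := fun d => |∑ n ∈ Icc 1 N, (ic q a₀ n * ArithmeticFunction.vonMangoldt n) * (lamI ((n : ℤ) + d) - lamzI z ((n : ℤ) + d))| with hD
  have hfirst : ∑ d ∈ Icc 1 X, D d ≤ L * (N * X / L ^ (2 * U + 2)) := by
    have g1 := h1 N b1 X (fun m => (m : ℤ)) (fun m hm => by
      rw [abs_of_nonneg (Int.natCast_nonneg _)]
      have := (mem_Icc.1 hm).2.trans hXG
      have h6 : m ≤ (G + 1) * N := this.trans (Nat.mul_le_mul_right _ (by omega))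
      exact_mod_cast h6) (by
      rw [pow_one, mul_one]
      have he' : (Pool.Agent.H373R2.T7.energy 1 X (fun m => (m : ℤ)) : ℝ) ≤ X := by exact_mod_cast energy_id X
      have g5r : (N : ℝ) ≤ 6 * X := by exact_mod_cast hNX
      calc (Pool.Agent.H373R2.T7.energy 1 X (fun m => (m : ℤ)) : ℝ) * N ≤ X * (6 * X) := mul_le_mul he' g5r (Nat.cast_nonneg _) hX0.le
        _ = 6 * (X : ℝ) ^ 2 := by ring
        _ ≤ Real.log N * (X : ℝ) ^ 2 := mul_le_mul_of_nonneg_right (by linarith) (sq_nonneg _)) N (Nat.le_mul_of_pos_left _ (by omega)) z hz1 hz2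
    exact l1_real N X (fun n m => lamI ((n : ℤ) + (m : ℤ)) - lamzI z ((n : ℤ) + (m : ℤ))) (N * X / L ^ (2 * U + 2)) L hL0 g1
      (fun n => ic q a₀ n * ArithmeticFunction.vonMangoldt n) (fun n hn => by
        rw [mem_Icc] at hn
        rw [abs_of_nonneg (mul_nonneg (ic_nonneg _ _ _) ArithmeticFunction.vonMangoldt_nonneg)]
        have h6 : ArithmeticFunction.vonMangoldt n ≤ L :=
          ArithmeticFunction.vonMangoldt_le_log.trans (Real.log_le_log (by exact_mod_cast hn.1) (by exact_mod_cast hn.2))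
        have h7 := ic_le q a₀ n
        have h8 := ic_nonneg q a₀ n
        have h9 : (0 : ℝ) ≤ ArithmeticFunction.vonMangoldt n := ArithmeticFunction.vonMangoldt_nonneg
        nlinarith)
  -- deterministic part
  set T : ℝ := N / L ^ (U + 1) with hT
  have hT0 : 0 < T := by positivity
  have hTL : T * 8 * (L / 8) = N / L ^ U := by rw [hT, pow_succ]; field_simp
  have hsT : √(N : ℝ) * L ^ 4 ≤ T := by
    rw [hT, le_div_iff₀ (by positivity)]
    calc √(N : ℝ) * L ^ 4 * L ^ (U + 1) = √(N : ℝ) * L ^ (U + 5) := by rw [mul_assoc, ← pow_add]; congr 2; ring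
      _ ≤ √(N : ℝ) * √(N : ℝ) := mul_le_mul_of_nonneg_left a4 hs0.le
      _ = N := hss
  set Y : ℕ := (G + 1) * N with hY
  have hYr : (Y : ℝ) = ((G : ℝ) + 1) * N := by rw [hY]; push_cast; ring
  have hlogY : Real.log Y ≤ 2 * L := by
    rw [hYr, Real.log_mul (by linarith) hN0'.ne']
    have : 0 ≤ 8 * (2 * 2 ^ 2 * (4 * ((G : ℝ) + 1))) := by positivity
    linarith
  have hlogY0 : 0 ≤ Real.log Y := Real.log_natCast_nonneg Y
  have hsY : √(Y : ℝ) ≤ ((G : ℝ) + 1) * √N := by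
    rw [hYr, Real.sqrt_mul (by linarith)]
    apply mul_le_mul_of_nonneg_right _ hs0.le
    rw [Real.sqrt_le_left (by linarith)]
    nlinarith
  have hdet : ∀ d ∈ Icc 1 X, q ∣ d → |tcC q a₀ d N - singZ (fun _ : Fin 1 => (d : ℤ)) z / Nat.totient q * N| ≤ D d + (1 / 2) * (N / L ^ U) := by
    intro d hd hqd
    have hdX := (mem_Icc.1 hd).2
    have e1 := toPrimes (fun _ : Fin 1 => (d : ℤ)) N Y (by omega) (Nat.le_mul_of_pos_left _ (by omega)) (fun i n hn => by
      rw [mem_Icc] at hn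
      have h7 : n + d ≤ (G + 1) * N := by
        rw [add_mul, one_mul]
        omega
      rw [hY]
      exact_mod_cast h7) (2 * L) (by linarith) hlogY
    have e4 := h2 N b2 z hz hz2 a₀ d ha hqd
    set S1 := ∑ n ∈ Icc 1 N, (ic q a₀ n * ArithmeticFunction.vonMangoldt n) * lamI ((n : ℤ) + d) with hS1
    set S2 := ∑ n ∈ Icc 1 N, (ic q a₀ n * ArithmeticFunction.vonMangoldt n) * lamzI z ((n : ℤ) + d) with hS2
    have e3 : S2 = ∑ n ∈ Icc 1 N, (if n ≡ a₀ [MOD q] then ArithmeticFunction.vonMangoldt n else 0) *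
      (if ∀ p ∈ pz z, ¬ (p : ℤ) ∣ (n : ℤ) + d then (Vz z)⁻¹ else 0) := by
      rw [hS2]
      apply sum_congr rfl
      intro n hn
      rw [lamzI_model z n d (mem_Icc.1 hn).1]
      congr 1
      unfold ic
      split_ifs <;> simp
    rw [← e3] at e4
    have e2 : D d = |S1 - S2| := by
      simp only [hD, hS1, hS2]
      rw [← sum_sub_distrib]
      congr 1
      apply sum_congr rfl
      intro n _
      rw [mul_sub]
    have e1' : |S1 - tcC q a₀ d N| ≤ (((1 : ℕ) : ℝ) + 1) * (2 * L) ^ (1 + 1) * (2 * √(Y : ℝ) * Real.log Y) := by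
      refine le_trans ?_ e1
      rw [tupleCount_eq]
      have hsub : ∀ n : ℕ, 0 ≤ ArithmeticFunction.vonMangoldt n * lamI ((n : ℤ) + d) - lamP n * lamP ((n : ℤ) + d) := by
        intro n
        have k1 : lamP (n : ℤ) ≤ ArithmeticFunction.vonMangoldt n := by
          refine (lamP_le (n : ℤ)).trans ?_
          unfold lamI
          split_ifs with h
          · rw [Int.toNat_natCast]
          · exact ArithmeticFunction.vonMangoldt_nonneg
        have k2 := lamP_le ((n : ℤ) + d)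
        have := mul_le_mul k1 k2 (lamP_nonneg _) ArithmeticFunction.vonMangoldt_nonneg
        linarith
      have g1 : S1 - tcC q a₀ d N = ∑ n ∈ Icc 1 N, ic q a₀ n * (ArithmeticFunction.vonMangoldt n * lamI ((n : ℤ) + d) - lamP n * lamP ((n : ℤ) + d)) := by
        rw [hS1]
        unfold tcC
        rw [← sum_sub_distrib]
        apply sum_congr rfl
        intro n _
        ring
      have g2 : ∑ n ∈ Icc 1 N, ArithmeticFunction.vonMangoldt n * ∏ i : Fin 1, lamI ((n : ℤ) + (fun _ : Fin 1 => (d : ℤ)) i) -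
          ∑ n ∈ Icc 1 N, lamP n * ∏ i : Fin 1, lamP ((n : ℤ) + (fun _ : Fin 1 => (d : ℤ)) i) =
          ∑ n ∈ Icc 1 N, (ArithmeticFunction.vonMangoldt n * lamI ((n : ℤ) + d) - lamP n * lamP ((n : ℤ) + d)) := by
        rw [← sum_sub_distrib]
        apply sum_congr rfl
        intro n _
        simp
      rw [g1, g2, abs_of_nonneg (sum_nonneg fun n _ => mul_nonneg (ic_nonneg _ _ _) (hsub n)), abs_of_nonneg (sum_nonneg fun n _ => hsub n)]
      apply sum_le_sum
      intro n _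
      exact mul_le_of_le_one_left (hsub n) (ic_le _ _ _)
    rw [e2]
    have e5 : tcC q a₀ d N - singZ (fun _ : Fin 1 => (d : ℤ)) z / Nat.totient q * N =
        -(S1 - tcC q a₀ d N) + (S1 - S2) + (S2 - singZ (fun _ : Fin 1 => (d : ℤ)) z / Nat.totient q * N) := by ring
    rw [e5]
    have g1 : (((1 : ℕ) : ℝ) + 1) * (2 * L) ^ (1 + 1) * (2 * √(Y : ℝ) * Real.log Y) ≤ (2 * 2 ^ 2 * (4 * ((G : ℝ) + 1))) * T := by
      calc (((1 : ℕ) : ℝ) + 1) * (2 * L) ^ (1 + 1) * (2 * √(Y : ℝ) * Real.log Y) ≤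
          (((1 : ℕ) : ℝ) + 1) * (2 * L) ^ (1 + 1) * (2 * (((G : ℝ) + 1) * √N) * (2 * L)) := by gcongr
        _ = (2 * 2 ^ 2 * (4 * ((G : ℝ) + 1))) * (√N * L ^ 3) := by push_cast; ring
        _ ≤ (2 * 2 ^ 2 * (4 * ((G : ℝ) + 1))) * T := by
            apply mul_le_mul_of_nonneg_left _ (by positivity)
            refine le_trans ?_ hsT
            apply mul_le_mul_of_nonneg_left _ hs0.le
            exact pow_le_pow_right₀ hL1 (by omega)
    have g5 : (2 * 2 ^ 2 * (4 * ((G : ℝ) + 1))) * T + T ≤ (1 / 2) * (N / L ^ U) := by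
      rw [← hTL]
      have h6 : ((2 * 2 ^ 2 * (4 * ((G : ℝ) + 1))) + 1) ≤ L / 8 * 4 := by linarith
      nlinarith
    have q1 := abs_add_le (-(S1 - tcC q a₀ d N) + (S1 - S2)) (S2 - singZ (fun _ : Fin 1 => (d : ℤ)) z / Nat.totient q * N)
    have q2 := abs_add_le (-(S1 - tcC q a₀ d N)) (S1 - S2)
    rw [abs_neg] at q2
    linarith
  set bad := (Icc 1 X).filter (fun d => q ∣ d ∧ (N : ℝ) / L ^ U <
        |tcC q a₀ d N - singZ (fun _ : Fin 1 => (d : ℤ)) z / Nat.totient q * N|) with hbad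
  have hb : (bad.card : ℝ) * ((1 / 2) * (N / L ^ U)) ≤ L * (N * X / L ^ (2 * U + 2)) := by
    refine le_trans ?_ hfirst
    calc (bad.card : ℝ) * ((1 / 2) * (N / L ^ U)) = ∑ _m ∈ bad, (1 / 2) * ((N : ℝ) / L ^ U) := by rw [sum_const, nsmul_eq_mul]
      _ ≤ ∑ m ∈ bad, D m := by
          apply sum_le_sum
          intro m hm
          rw [hbad, mem_filter] at hm
          have h6 := hdet m hm.1 hm.2.1
          have h7 := hm.2.2
          linarith
      _ ≤ _ := sum_le_sum_of_subset_of_nonneg (filter_subset _ _) (fun _ _ _ => abs_nonneg _)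
  have h6 : L * (N * X / L ^ (2 * U + 2)) = ((2 / L) * (X / L ^ U)) * ((1 / 2) * (N / L ^ U)) := by
    rw [show 2 * U + 2 = U + U + 2 by ring, pow_add L (U + U) 2, pow_add]
    field_simp
  rw [h6] at hb
  have h7 := le_of_mul_le_mul_right hb (by positivity)
  refine h7.trans ?_
  calc (2 / L) * (X / L ^ U) ≤ 1 * (X / L ^ U) := by
        apply mul_le_mul_of_nonneg_right _ (by positivity)
        rw [div_le_one hL0]; linarith
    _ = _ := one_mul _

end Pool.Agent.N735.CL
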