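import Mathlib
import Pool.Agent.N735.CL.Cl3
import Pool.Agent.N735.CL.Grid

set_option autoImplicit false
set_option maxHeartbeats 2000000

/-! Prime pairs in a residue class: the grid. -/

namespace Pool.Agent.N735.CL

open Finset Filter Topology
open Pool.Agent.H373R2.T7
open Pool.Agent.H560R3.GB
open Pool.Agent.H646 (rat)

/-- the reduced classes -/
def Cq (q : ℕ) : Finset ℕ := (range q).filter (fun a => a.Coprime q)

theorem gridC (q G U : ℕ) (hq : 1 ≤ q) (hG : 1 ≤ G) : ∀ᶠ X : ℕ in atTop, ∃ Ex : Finset ℕ,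
    (Ex.card : ℝ) ≤ X / Real.log X ^ U ∧ ∀ d ∈ Icc 1 X, q ∣ d → d ∉ Ex → ∃ S : ℝ, 0 ≤ S ∧ S ≤ rat d ∧ ∀ a₀ ∈ Cq q, ∀ k ∈ Icc 1 (2 * G + 1),
      |tcC q a₀ d (gr G X k) - S / Nat.totient q * (gr G X k : ℕ)| ≤ X / Real.log X := by
  classical
  obtain ⟨B0, hB0⟩ := class_bad q G (U + 2) hq
  obtain ⟨n1, h1⟩ := hB0 (B0 + 1)
  have hG0 : (1 : ℝ) ≤ G := by exact_mod_cast hG
  have hqr : (1 : ℝ) ≤ q := by exact_mod_cast hq
  have hlG : 0 ≤ Real.log (G : ℝ) := Real.log_nonneg hG0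
  filter_upwards [eventually_ge_atTop (G * (n1 + 1) + 4), tends_log.eventually_ge_atTop
    (2 * Real.log G + 2 ^ (2 * B0 + 3) + q * (2 * G + 1) * 2 ^ (U + 2) + 40)] with X hXn hXl
  have hX4 : 4 ≤ X := by omega
  have hXG : G ≤ X := by nlinarith
  have hX0 : (0 : ℝ) < X := by exact_mod_cast (by omega : 0 < X)
  set L := Real.log (X : ℝ) with hL
  have q1 : (0 : ℝ) < 2 ^ (2 * B0 + 3) := by positivity
  have q2 : (0 : ℝ) < q * (2 * G + 1) * 2 ^ (U + 2) := by positivity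
  have hL40 : 40 ≤ L := by linarith
  have hL0 : 0 < L := by linarith
  obtain ⟨z, hz1, hz2⟩ : ∃ z : ℕ, (2 * L) ^ B0 ≤ z ∧ (z : ℝ) ≤ (L / 2) ^ (B0 + 1) := by
    refine ⟨⌈(2 * L) ^ B0⌉₊, Nat.le_ceil _, ?_⟩
    have h2 := (Nat.ceil_lt_add_one (show 0 ≤ (2 * L) ^ B0 by positivity)).le
    have h3 : 1 ≤ (2 * L) ^ B0 := one_le_pow₀ (by linarith)
    have h4 : (L / 2) ^ (B0 + 1) = (2 * L) ^ B0 * (L / (2 * 4 ^ B0)) := by
      have e1 : (L / 2) ^ (B0 + 1) = (L / 2) ^ B0 * (L / 2) := pow_succ _ _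
      have e2 : (L / 2) ^ B0 = (2 * L) ^ B0 / 4 ^ B0 := by
        rw [← div_pow]; congr 1; ring
      rw [e1, e2]
      field_simp
    have h5 : 2 ≤ L / (2 * 4 ^ B0) := by
      rw [le_div_iff₀ (by positivity)]
      have h6 : (2 : ℝ) ^ (2 * B0 + 3) = 8 * 4 ^ B0 := by
        rw [pow_add, pow_mul]; norm_num; ring
      have h7 : (0 : ℝ) < 4 ^ B0 := by positivity
      linarith
    rw [h4]
    nlinarith
  -- the grid points
  have hgrid : ∀ k ∈ Icc 1 (2 * G + 1), n1 ≤ gr G X k ∧ L / 2 ≤ Real.log (gr G X k : ℝ) ∧ Real.log (gr G X k : ℝ) ≤ 2 * L ∧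
      X ≤ G * gr G X k ∧ gr G X k ≤ 6 * X := by
    intro k hk
    obtain ⟨g1, g2⟩ := gr_bounds G X k hG hXG hk
    have hg0 : 0 < gr G X k := by
      rcases Nat.eq_zero_or_pos (gr G X k) with h | h
      · rw [h] at g1; omega
      · exact h
    have hgr0 : (0 : ℝ) < gr G X k := by exact_mod_cast hg0
    refine ⟨?_, ?_, ?_, g1, g2⟩
    · by_contra h
      push Not at h
      have : G * gr G X k ≤ G * n1 := Nat.mul_le_mul_left _ h.le
      nlinarith
    · have g1r : (X : ℝ) ≤ G * gr G X k := by exact_mod_cast g1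
      have := Real.log_le_log hX0 g1r
      rw [Real.log_mul (by linarith) hgr0.ne'] at this
      linarith
    · have g2r : (gr G X k : ℝ) ≤ 6 * X := by exact_mod_cast g2
      have := Real.log_le_log hgr0 g2r
      rw [Real.log_mul (by norm_num) hX0.ne'] at this
      have h6 : Real.log 6 ≤ 6 := by
        have := Real.log_le_sub_one_of_pos (show (0 : ℝ) < 6 by norm_num)
        linarith
      linarith
  set Exk : ℕ × ℕ → Finset ℕ := fun t => (Icc 1 X).filter (fun d : ℕ => q ∣ d ∧ (gr G X t.1 : ℝ) / Real.log (gr G X t.1 : ℝ) ^ (U + 2) <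
    |tcC q t.2 d (gr G X t.1) - singZ (fun _ : Fin 1 => (d : ℤ)) z / Nat.totient q * (gr G X t.1 : ℕ)|) with hExk
  set I := (Icc 1 (2 * G + 1)) ×ˢ (Cq q) with hI
  have hEk : ∀ t ∈ I, ((Exk t).card : ℝ) ≤ X / (L / 2) ^ (U + 2) := by
    intro t ht
    rw [hI, mem_product] at ht
    obtain ⟨g1, g2, g3, g4, g5⟩ := hgrid t.1 ht.1
    set N := gr G X t.1 with hN
    have hlN0 : 0 < Real.log (N : ℝ) := by linarith
    have hmain := h1 N g1 X (by omega) g4 g5 z ((pow_le_pow_left₀ hlN0.le g3 B0).trans hz1) (hz2.trans (pow_le_pow_left₀ (by positivity) g2 _))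
      t.2 (mem_filter.1 ht.2).2
    refine hmain.trans ?_
    apply div_le_div_of_nonneg_left hX0.le (by positivity)
    exact pow_le_pow_left₀ (by positivity) g2 _
  have hIc : (I.card : ℝ) ≤ q * (2 * G + 1) := by
    rw [hI, card_product, Nat.card_Icc, Nat.add_sub_cancel]
    have h3 : (Cq q).card ≤ q := by
      unfold Cq
      exact (card_filter_le _ _).trans (by simp)
    have h4 : ((Cq q).card : ℝ) ≤ q := by exact_mod_cast h3
    push_cast
    nlinarith [show (0 : ℝ) ≤ 2 * G + 1 by positivity]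
  refine ⟨I.biUnion Exk, ?_, fun d hd hqd hdE => ?_⟩
  · have h2 : ((I.biUnion Exk).card : ℝ) ≤ (q * (2 * G + 1)) * (X / (L / 2) ^ (U + 2)) := by
      have h3 : (I.biUnion Exk).card ≤ ∑ k ∈ I, (Exk k).card := card_biUnion_le
      have h4 : ((I.biUnion Exk).card : ℝ) ≤ ∑ k ∈ I, ((Exk k).card : ℝ) := by exact_mod_cast h3
      refine h4.trans ((sum_le_sum hEk).trans ?_)
      rw [sum_const, nsmul_eq_mul]
      exact mul_le_mul_of_nonneg_right hIc (by positivity)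
    refine h2.trans ?_
    have e : ((q : ℝ) * (2 * (G : ℝ) + 1)) * (X / (L / 2) ^ (U + 2)) = (q * (2 * G + 1) * 2 ^ (U + 2) / L ^ 2) * (X / L ^ U) := by
      rw [div_pow]
      field_simp
      ring
    rw [e]
    apply mul_le_of_le_one_left (by positivity)
    rw [div_le_one (by positivity)]
    have : L ≤ L ^ 2 := by nlinarith
    linarith
  · refine ⟨singZ (fun _ : Fin 1 => (d : ℤ)) z, singZ_nonneg _ _, singZ_le d z (mem_Icc.1 hd).1, fun a₀ ha₀ k hk => ?_⟩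
    obtain ⟨g1, g2, g3, g4, g5⟩ := hgrid k hk
    have hnot : |tcC q a₀ d (gr G X k) - singZ (fun _ : Fin 1 => (d : ℤ)) z / Nat.totient q * (gr G X k : ℕ)| ≤
        (gr G X k : ℝ) / Real.log (gr G X k : ℝ) ^ (U + 2) := by
      by_contra h
      push Not at h
      apply hdE
      rw [mem_biUnion]
      exact ⟨(k, a₀), mem_product.2 ⟨hk, ha₀⟩, mem_filter.2 ⟨hd, hqd, h⟩⟩
    refine hnot.trans ?_
    have g5r : (gr G X k : ℝ) ≤ 6 * X := by exact_mod_cast g5
    have hL2 : 1 ≤ L / 2 := by linarith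
    have h3 : (L / 2) ^ 2 ≤ Real.log (gr G X k : ℝ) ^ (U + 2) := by
      calc (L / 2) ^ 2 ≤ (L / 2) ^ (U + 2) := pow_le_pow_right₀ hL2 (by omega)
        _ ≤ _ := pow_le_pow_left₀ (by positivity) g2 _
    calc (gr G X k : ℝ) / Real.log (gr G X k : ℝ) ^ (U + 2) ≤ (6 * X) / (L / 2) ^ 2 := div_le_div₀ (by positivity) g5r (by positivity) h3
      _ = 24 * X / L ^ 2 := by field_simp; ring
      _ ≤ X / L := by
          rw [div_le_div_iff₀ (by positivity) hL0]
          have h5 : 24 * L ≤ L ^ 2 := by nlinarith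
          have h6 := mul_le_mul_of_nonneg_left h5 hX0.le
          linarith

/-- the number of the primes `p ≤ y` in the class with `p + d` prime -/
noncomputable def pdC (q a₀ d y : ℕ) : ℝ := ∑ h ∈ Icc 1 y, ic q a₀ h * (pr 0 h * pr d h)

lemma pdC_nonneg (q a₀ d y : ℕ) : 0 ≤ pdC q a₀ d y :=
  sum_nonneg (fun _ _ => mul_nonneg (ic_nonneg _ _ _) (mul_nonneg (pr_nonneg _ _) (pr_nonneg _ _)))

lemma pdC_mono (q a₀ d : ℕ) {y y' : ℕ} (h : y ≤ y') : pdC q a₀ d y ≤ pdC q a₀ d y' := by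
  unfold pdC
  apply sum_le_sum_of_subset_of_nonneg
  · exact Icc_subset_Icc_right h
  · intro i _ _
    exact mul_nonneg (ic_nonneg _ _ _) (mul_nonneg (pr_nonneg _ _) (pr_nonneg _ _))

lemma pdC_window (q a₀ X m d : ℕ) : ∑ h ∈ Icc 1 X, ic q a₀ (m + h) * (pr m h * pr (m + d) h) = pdC q a₀ d (m + X) - pdC q a₀ d m := by
  unfold pdC
  induction X with
  | zero => simp
  | succ X ih =>
    rw [Finset.sum_Icc_succ_top (by omega), ih, show m + (X + 1) = (m + X) + 1 by ring, Finset.sum_Icc_succ_top (by omega)]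
    have e : ic q a₀ (m + X + 1) * (pr 0 (m + X + 1) * pr d (m + X + 1)) = ic q a₀ (m + X + 1) * (pr m (X + 1) * pr (m + d) (X + 1)) := by
      unfold pr
      rw [show 0 + (m + X + 1) = m + (X + 1) by ring, show d + (m + X + 1) = m + d + (X + 1) by ring]
    rw [e]; ring

lemma lamP_pr (n : ℕ) : lamP (n : ℤ) = pr 0 n * Real.log n := by
  unfold lamP pr
  rw [Int.toNat_natCast, zero_add]
  split_ifs <;> simp

lemma lamP_pr' (n d : ℕ) : lamP ((n : ℤ) + d) = pr d n * Real.log ((n : ℝ) + d) := by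
  unfold lamP pr
  have e : ((n : ℤ) + d).toNat = d + n := by omega
  rw [e]
  split_ifs
  · push_cast; rw [one_mul, add_comm]
  · simp

lemma pdC_lower (q a₀ d N : ℕ) (T l : ℝ) (hT : 1 ≤ T) (hl : 0 ≤ l) (hlT : l ≤ Real.log T) :
    l ^ 2 * pdC q a₀ d N ≤ tcC q a₀ d N + l ^ 2 * T := by
  have h1 : ∀ n ∈ Icc 1 N, l ^ 2 * (ic q a₀ n * (pr 0 n * pr d n)) ≤ ic q a₀ n * (lamP n * lamP ((n : ℤ) + d)) + (if (n : ℝ) ≤ T then l ^ 2 else 0) := by
    intro n hn
    have hn1 : (1 : ℝ) ≤ n := by exact_mod_cast (mem_Icc.1 hn).1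
    have hi0 := ic_nonneg q a₀ n
    have hi1 := ic_le q a₀ n
    have p0 := pr_nonneg 0 n
    have p1 := pr_nonneg d n
    have p0' := pr_le_one 0 n
    have p1' := pr_le_one d n
    have hpp : 0 ≤ ic q a₀ n * (pr 0 n * pr d n) := by positivity
    rw [lamP_pr, lamP_pr']
    have hlog : 0 ≤ Real.log (n : ℝ) := Real.log_nonneg hn1
    have hlogd : Real.log (n : ℝ) ≤ Real.log ((n : ℝ) + d) := Real.log_le_log (by linarith) (by linarith [Nat.cast_nonneg (α := ℝ) d])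
    by_cases hc : (n : ℝ) ≤ T
    · rw [if_pos hc]
      have h2 : ic q a₀ n * (pr 0 n * pr d n) ≤ 1 := by
        calc ic q a₀ n * (pr 0 n * pr d n) ≤ 1 * (1 * 1) := by gcongr
          _ = 1 := by norm_num
      have h3 : 0 ≤ ic q a₀ n * (pr 0 n * Real.log n * (pr d n * Real.log (n + d))) := by
        have : 0 ≤ Real.log ((n : ℝ) + d) := by linarith
        positivity
      nlinarith [sq_nonneg l]
    · rw [if_neg hc, add_zero]
      push Not at hc
      have h4 : l ≤ Real.log (n : ℝ) := hlT.trans (Real.log_le_log (by linarith) hc.le)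
      have h5 : l ^ 2 ≤ Real.log (n : ℝ) * Real.log ((n : ℝ) + d) := by
        rw [sq]
        exact mul_le_mul h4 (h4.trans hlogd) hl hlog
      calc l ^ 2 * (ic q a₀ n * (pr 0 n * pr d n)) ≤ (Real.log (n : ℝ) * Real.log ((n : ℝ) + d)) * (ic q a₀ n * (pr 0 n * pr d n)) :=
            mul_le_mul_of_nonneg_right h5 hpp
        _ = _ := by ring
  have h2 := sum_le_sum h1
  rw [← mul_sum, sum_add_distrib, ← sum_filter, sum_const, nsmul_eq_mul] at h2
  have h3 : (((Icc 1 N).filter (fun n : ℕ => (n : ℝ) ≤ T)).card : ℝ) ≤ T := by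
    have : (Icc 1 N).filter (fun n : ℕ => (n : ℝ) ≤ T) ⊆ Icc 1 ⌊T⌋₊ := by
      intro n hn
      rw [mem_filter, mem_Icc] at hn
      rw [mem_Icc]
      exact ⟨hn.1.1, Nat.le_floor hn.2⟩
    have h4 := card_le_card this
    rw [Nat.card_Icc, Nat.add_sub_cancel] at h4
    exact (by exact_mod_cast h4 : _ ≤ ((⌊T⌋₊ : ℕ) : ℝ)).trans (Nat.floor_le (by linarith))
  have h4 := mul_le_mul_of_nonneg_right h3 (sq_nonneg l)
  unfold pdC tcC
  linarith

lemma pdC_upper (q a₀ d N B : ℕ) (hd : d ≤ B * N) : tcC q a₀ d N ≤ Real.log (((B : ℝ) + 1) * N) ^ 2 * pdC q a₀ d N := by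
  unfold tcC pdC
  rw [mul_sum]
  apply sum_le_sum
  intro n hn
  have hn1 : (1 : ℝ) ≤ n := by exact_mod_cast (mem_Icc.1 hn).1
  have hnN : (n : ℝ) ≤ N := by exact_mod_cast (mem_Icc.1 hn).2
  have hdr : (d : ℝ) ≤ B * N := by exact_mod_cast hd
  have hB0 : (0 : ℝ) ≤ B := Nat.cast_nonneg _
  have hN0 : (1 : ℝ) ≤ N := hn1.trans hnN
  rw [lamP_pr, lamP_pr']
  have hlog : 0 ≤ Real.log (n : ℝ) := Real.log_nonneg hn1
  have hlogd : 0 ≤ Real.log ((n : ℝ) + d) := Real.log_nonneg (by linarith [Nat.cast_nonneg (α := ℝ) d])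
  have h1 : Real.log (n : ℝ) ≤ Real.log (((B : ℝ) + 1) * N) := Real.log_le_log (by linarith) (by nlinarith)
  have h2 : Real.log ((n : ℝ) + d) ≤ Real.log (((B : ℝ) + 1) * N) := Real.log_le_log (by linarith [Nat.cast_nonneg (α := ℝ) d]) (by linarith)
  have h3 : Real.log (n : ℝ) * Real.log ((n : ℝ) + d) ≤ Real.log (((B : ℝ) + 1) * N) ^ 2 := by
    rw [sq]
    exact mul_le_mul h1 h2 hlogd (hlog.trans h1)
  have hpp : 0 ≤ ic q a₀ n * (pr 0 n * pr d n) := mul_nonneg (ic_nonneg _ _ _) (mul_nonneg (pr_nonneg _ _) (pr_nonneg _ _))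
  have := mul_le_mul_of_nonneg_right h3 hpp
  linarith

end Pool.Agent.N735.CL
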