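import Mathlib
import Pool.Agent.N735.CL.Cl4

set_option autoImplicit false
set_option maxHeartbeats 2000000

/-! Prime pairs in a residue class: the windows. -/

namespace Pool.Agent.N735.CL

open Finset Filter Topology
open Pool.Agent.H373R2.T7
open Pool.Agent.H560R3.GB
open Pool.Agent.H646 (rat)

theorem pc_class (q U : ℕ) (hq : 1 ≤ q) (δ : ℝ) (hδ : 0 < δ) (hδ1 : δ ≤ 1) : ∀ᶠ X : ℕ in atTop, ∃ Ex : Finset ℕ,
    (Ex.card : ℝ) ≤ X / Real.log X ^ U ∧ ∀ d ∈ Icc 1 X, q ∣ d → d ∉ Ex → ∀ a₀ ∈ Cq q, ∀ m : ℕ, m ≤ X →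
      E1 X (fun h => ic q a₀ (m + h) * (pr m h * pr (m + d) h)) * Real.log X ^ 2 ≤ ((1 + δ) * rat d + δ) / Nat.totient q := by
  obtain ⟨G, hG1, hGδ⟩ : ∃ G : ℕ, 1 ≤ G ∧ 4 / δ ≤ G := by
    obtain ⟨n, hn⟩ := exists_nat_ge (4 / δ)
    exact ⟨n + 1, by omega, by push_cast; linarith⟩
  have hG0 : (1 : ℝ) ≤ G := by exact_mod_cast hG1
  have hφ1 : (1 : ℝ) ≤ Nat.totient q := by exact_mod_cast Nat.totient_pos.2 hq
  set φ := (Nat.totient q : ℝ) with hφ
  have hφ0 : 0 < φ := by linarith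
  set κ := δ / (2 * φ) with hκ
  have hκ0 : 0 < κ := by positivity
  obtain ⟨δ', hδ'0, hδ'1, hδ'⟩ : ∃ δ' : ℝ, 0 < δ' ∧ δ' < 1 ∧ 1 / (1 - δ') ^ 2 - 1 / (1 + δ') ^ 2 ≤ δ / 12 ∧ 1 / (1 - δ') ^ 2 ≤ 1 + δ / 24 := by
    have h1 : ∀ᶠ x : ℝ in nhds 0, 1 / (1 - x) ^ 2 - 1 / (1 + x) ^ 2 < δ / 12 := by
      apply ContinuousAt.eventually_lt
      · apply ContinuousAt.sub
        · apply ContinuousAt.div continuousAt_const (by fun_prop) (by norm_num)
        · apply ContinuousAt.div continuousAt_const (by fun_prop) (by norm_num)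
      · exact continuousAt_const
      · norm_num; exact hδ
    have h2 : ∀ᶠ x : ℝ in nhds 0, 1 / (1 - x) ^ 2 < 1 + δ / 24 := by
      apply ContinuousAt.eventually_lt
      · apply ContinuousAt.div continuousAt_const (by fun_prop) (by norm_num)
      · exact continuousAt_const
      · norm_num; exact hδ
    have h3 : ∀ᶠ x : ℝ in nhds 0, x < 1 := by
      apply ContinuousAt.eventually_lt continuousAt_id continuousAt_const
      simp
    have h4 : ∀ᶠ x : ℝ in nhdsWithin 0 (Set.Ioi 0), x ∈ Set.Ioi (0 : ℝ) := self_mem_nhdsWithin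
    obtain ⟨x, hx⟩ := (((h1.and (h2.and h3)).filter_mono nhdsWithin_le_nhds).and h4).exists
    exact ⟨x, hx.2, hx.1.2.2, hx.1.1.le, hx.1.2.1.le⟩
  filter_upwards [gridC q G U hq hG1, eventually_ge_atTop (G + 4), tends_log.eventually_ge_atTop (Real.log (6 * (G + 1)) / δ' + 3 / κ + 1),
    ev_small κ δ' hκ0 hδ'0 2, (tendsto_natCast_atTop_atTop (R := ℝ)).eventually_ge_atTop (24 * (G + 1) / δ)] with X e1 e2 e3 e4 e5
  obtain ⟨Ex, hEx, hgood⟩ := e1
  refine ⟨Ex, hEx, fun d hd hqd hdE a₀ ha₀ m hm => ?_⟩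
  obtain ⟨S0, hS00, hS0r, hS0⟩ := hgood d hd hqd hdE
  set S := S0 / φ with hSdef
  have hS : ∀ k ∈ Icc 1 (2 * G + 1), |tcC q a₀ d (gr G X k) - S * (gr G X k : ℕ)| ≤ X / Real.log X := hS0 a₀ ha₀
  have hS0' : 0 ≤ S := by positivity
  have hSr : S ≤ rat d / φ := div_le_div_of_nonneg_right hS0r hφ0.le
  have hX4 : 4 ≤ X := by omega
  have hX0 : (0 : ℝ) < X := by exact_mod_cast (by omega : 0 < X)
  have hX1 : (1 : ℝ) ≤ X := by exact_mod_cast (by omega : 1 ≤ X)
  set L := Real.log (X : ℝ) with hL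
  have hlG : 0 ≤ Real.log (6 * ((G : ℝ) + 1)) := Real.log_nonneg (by linarith)
  have q1 : 0 ≤ Real.log (6 * ((G : ℝ) + 1)) / δ' := by positivity
  have q2 : 0 < 3 / κ := by positivity
  have hL1 : 1 ≤ L := by linarith
  have hL0 : 0 < L := by linarith
  have hLG : Real.log (6 * ((G : ℝ) + 1)) ≤ δ' * L := by
    have : Real.log (6 * ((G : ℝ) + 1)) / δ' ≤ L := by linarith
    rw [div_le_iff₀ hδ'0] at this
    linarith
  have hL3 : 3 ≤ κ * L := by
    have : 3 / κ ≤ L := by linarith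
    rw [div_le_iff₀ hκ0] at this
    linarith
  set c₁ := (1 - δ') ^ 2 with hc₁
  set c₂ := (1 + δ') ^ 2 with hc₂
  have hc₁0 : 0 < c₁ := by
    have : 0 < 1 - δ' := by linarith
    positivity
  have hc₂0 : 0 < c₂ := by positivity
  have hc₂1 : 1 / c₂ ≤ 1 := by
    rw [div_le_one hc₂0, hc₂]
    nlinarith
  have hc₁2 : 1 / c₁ ≤ 2 := by linarith
  -- bounds at the grid points
  have hup : ∀ k ∈ Icc 1 (2 * G + 1), pdC q a₀ d (gr G X k) ≤ (S * (gr G X k : ℝ) + X / L) / (c₁ * L ^ 2) + (X : ℝ) ^ (1 - δ') := by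
    intro k hk
    have h1 := (abs_le.1 (hS k hk)).2
    have h2 := pdC_lower q a₀ d (gr G X k) ((X : ℝ) ^ (1 - δ')) ((1 - δ') * L)
      (Real.one_le_rpow hX1 (by linarith)) (mul_nonneg (by linarith) hL0.le)
      (by rw [Real.log_rpow hX0])
    have hl2 : ((1 - δ') * L) ^ 2 = c₁ * L ^ 2 := by rw [hc₁]; ring
    rw [hl2] at h2
    rw [← sub_le_iff_le_add, le_div_iff₀ (by positivity)]
    linarith
  have hlo : ∀ k ∈ Icc 1 (2 * G + 1), (S * (gr G X k : ℝ) - X / L) / (c₂ * L ^ 2) ≤ pdC q a₀ d (gr G X k) := by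
    intro k hk
    obtain ⟨g1, g2⟩ := gr_bounds G X k hG1 (by omega) hk
    have hg0 : 0 < gr G X k := by
      rcases Nat.eq_zero_or_pos (gr G X k) with h | h
      · rw [h] at g1; omega
      · exact h
    have hgr0 : (1 : ℝ) ≤ gr G X k := by exact_mod_cast hg0
    have h1 := (abs_le.1 (hS k hk)).1
    have h2 := pdC_upper q a₀ d (gr G X k) G ((mem_Icc.1 hd).2.trans g1)
    have hlog : Real.log (((G : ℝ) + 1) * (gr G X k : ℝ)) ≤ (1 + δ') * L := by
      have g2r : (gr G X k : ℝ) ≤ 6 * X := by exact_mod_cast g2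
      calc Real.log (((G : ℝ) + 1) * (gr G X k : ℝ)) ≤ Real.log ((6 * ((G : ℝ) + 1)) * X) := by
            apply Real.log_le_log (by positivity)
            nlinarith
        _ = Real.log (6 * ((G : ℝ) + 1)) + L := by rw [Real.log_mul (by positivity) hX0.ne']
        _ ≤ _ := by linarith
    have hlog0 : 0 ≤ Real.log (((G : ℝ) + 1) * (gr G X k : ℝ)) := Real.log_nonneg (by nlinarith)
    have hpd0 := pdC_nonneg q a₀ d (gr G X k)
    have h3 : Real.log (((G : ℝ) + 1) * (gr G X k : ℝ)) ^ 2 * pdC q a₀ d (gr G X k) ≤ (c₂ * L ^ 2) * pdC q a₀ d (gr G X k) := by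
      apply mul_le_mul_of_nonneg_right _ hpd0
      have := pow_le_pow_left₀ hlog0 hlog 2
      refine this.trans (le_of_eq ?_)
      rw [hc₂]; ring
    rw [div_le_iff₀ (by positivity)]
    linarith
  -- the position of `m`
  obtain ⟨g, hg⟩ : ∃ g, g = X / G + 1 := ⟨_, rfl⟩
  have hg0 : 0 < g := by rw [hg]; exact Nat.succ_pos _
  obtain ⟨k, hk⟩ : ∃ k, k = m / g := ⟨_, rfl⟩
  have hXg : X < G * g := by rw [hg]; exact Nat.lt_mul_div_succ X (by omega)
  have hk1 : k * g ≤ m := by rw [hk]; exact Nat.div_mul_le_self m g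
  have hgr : ∀ j, gr G X j = j * g := fun j => by unfold gr; rw [hg]
  have hk2 : m < (k + 1) * g := by
    have := Nat.lt_div_mul_add hg0 (a := m)
    calc m < m / g * g + g := this
      _ = (k + 1) * g := by rw [hk]; ring
  have hkG : k < G := by
    by_contra h
    push Not at h
    have : G * g ≤ k * g := Nat.mul_le_mul_right _ h
    omega
  have hk3 : m + X ≤ (k + 1 + G) * g := by
    have : (k + 1 + G) * g = (k + 1) * g + G * g := by ring
    omega
  have hwin : ∑ h ∈ Icc 1 X, ic q a₀ (m + h) * (pr m h * pr (m + d) h) ≤ pdC q a₀ d (gr G X (k + 1 + G)) - pdC q a₀ d (gr G X k) := by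
    rw [pdC_window]
    have a1 := pdC_mono q a₀ d hk3
    have a2 := pdC_mono q a₀ d hk1
    rw [hgr, hgr]
    linarith
  have hP2 := hup (k + 1 + G) (mem_Icc.2 ⟨by omega, by omega⟩)
  have hP1 : (S * (gr G X k : ℝ) - X / L) / (c₂ * L ^ 2) ≤ pdC q a₀ d (gr G X k) := by
    rcases Nat.eq_zero_or_pos k with h0 | h0
    · have e2 : gr G X k = 0 := by rw [hgr, h0, zero_mul]
      rw [e2]
      have e3 : pdC q a₀ d 0 = 0 := by unfold pdC; simp
      rw [e3]
      simp only [Nat.cast_zero, mul_zero, zero_sub]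
      apply div_nonpos_of_nonpos_of_nonneg
      · have : 0 ≤ X / L := by positivity
        linarith
      · positivity
    · exact hlo k (mem_Icc.2 ⟨h0, by omega⟩)
  set y1 : ℝ := (gr G X k : ℝ) with hy1
  set y2 : ℝ := (gr G X (k + 1 + G) : ℝ) with hy2
  have hy1X : y1 ≤ X := by
    rw [hy1]
    have : gr G X k ≤ X := by rw [hgr]; exact hk1.trans hm
    exact_mod_cast this
  have hy10 : 0 ≤ y1 := Nat.cast_nonneg _
  have hdiff : y2 - y1 ≤ X * (1 + 7 * δ / 24) := by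
    have e1 : y2 - y1 = (G + 1) * (g : ℝ) := by
      rw [hy1, hy2, hgr, hgr]; push_cast; ring
    rw [e1]
    have e2 : (g : ℝ) ≤ X / G + 1 := by
      rw [hg]; push_cast
      have := @Nat.cast_div_le ℝ _ _ _ X G
      linarith
    have e6 : 24 * ((G : ℝ) + 1) / δ ≤ X := e5
    rw [div_le_iff₀ hδ] at e6
    have e7 : 1 / (G : ℝ) ≤ δ / 4 := by
      rw [div_le_iff₀ (by linarith)]
      rw [div_le_iff₀ hδ] at hGδ
      linarith
    calc ((G : ℝ) + 1) * (g : ℝ) ≤ (G + 1) * (X / G + 1) := mul_le_mul_of_nonneg_left e2 (by positivity)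
      _ = X + X * (1 / G) + (G + 1) := by field_simp
      _ ≤ X + X * (δ / 4) + X * δ / 24 := by
          have := mul_le_mul_of_nonneg_left e7 hX0.le
          linarith
      _ = _ := by ring
  have hmainS : S * (y2 / c₁ - y1 / c₂) ≤ (1 + δ) * rat d / φ * X := by
    have b1 : y2 / c₁ - y1 / c₂ = (y2 - y1) * (1 / c₁) + y1 * (1 / c₁ - 1 / c₂) := by ring
    have b2 : (y2 - y1) * (1 / c₁) ≤ X * (1 + 7 * δ / 24) * (1 + δ / 24) := by
      apply mul_le_mul hdiff hδ'.2 (by positivity) (by positivity)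
    have b3 : y1 * (1 / c₁ - 1 / c₂) ≤ X * (δ / 12) := by
      have b4 : 0 ≤ 1 / c₁ - 1 / c₂ := by
        have : 1 / c₂ ≤ 1 / c₁ := by
          apply one_div_le_one_div_of_le hc₁0
          rw [hc₁, hc₂]; nlinarith
        linarith
      calc y1 * (1 / c₁ - 1 / c₂) ≤ X * (1 / c₁ - 1 / c₂) := mul_le_mul_of_nonneg_right hy1X b4
        _ ≤ X * (δ / 12) := mul_le_mul_of_nonneg_left hδ'.1 hX0.le
    have b5 : y2 / c₁ - y1 / c₂ ≤ X * (1 + δ) := by
      rw [b1]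
      have : X * (1 + 7 * δ / 24) * (1 + δ / 24) + X * (δ / 12) ≤ X * (1 + δ) := by
        have : (1 + 7 * δ / 24) * (1 + δ / 24) + δ / 12 ≤ 1 + δ := by nlinarith
        nlinarith
      linarith
    calc S * (y2 / c₁ - y1 / c₂) ≤ S * (X * (1 + δ)) := mul_le_mul_of_nonneg_left b5 hS0'
      _ ≤ rat d / φ * (X * (1 + δ)) := mul_le_mul_of_nonneg_right hSr (by positivity)
      _ = _ := by ring
  unfold E1
  rw [div_mul_eq_mul_div, div_le_iff₀ hX0]
  have hL2 : 0 < L ^ 2 := by positivity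
  have hf1 : (pdC q a₀ d (gr G X (k + 1 + G)) - pdC q a₀ d (gr G X k)) * L ^ 2 ≤
      S * (y2 / c₁ - y1 / c₂) + (X / L) * (1 / c₁ + 1 / c₂) + L ^ 2 * (X : ℝ) ^ (1 - δ') := by
    have : pdC q a₀ d (gr G X (k + 1 + G)) - pdC q a₀ d (gr G X k) ≤ (S * y2 + X / L) / (c₁ * L ^ 2) + (X : ℝ) ^ (1 - δ') - (S * y1 - X / L) / (c₂ * L ^ 2) := by
      linarith
    have h3 := mul_le_mul_of_nonneg_right this hL2.le
    refine h3.trans (le_of_eq ?_)
    field_simp
    ring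
  have hf2 : (X / L) * (1 / c₁ + 1 / c₂) ≤ κ * X := by
    have h4 : (X / L) * (1 / c₁ + 1 / c₂) ≤ (X / L) * 3 := mul_le_mul_of_nonneg_left (by linarith) (by positivity)
    have h5 : (X / L) * 3 ≤ κ * X := by
      rw [div_mul_eq_mul_div, div_le_iff₀ hL0]
      nlinarith
    linarith
  have hf3 := mul_le_mul_of_nonneg_right hwin hL2.le
  have e9 : ((1 + δ) * rat d + δ) / φ * X = (1 + δ) * rat d / φ * X + κ * X + κ * X := by
    rw [hκ]; field_simp; ring
  rw [e9]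
  linarith

/-- a prime which is not coprime to `q` -/
noncomputable def nq (q m h : ℕ) : ℝ := if (m + h).Prime ∧ ¬ (m + h).Coprime q then 1 else 0

lemma nq_nonneg (q m h : ℕ) : 0 ≤ nq q m h := by unfold nq; split_ifs <;> norm_num

lemma sum_nq {q : ℕ} (hq : 1 ≤ q) (X m : ℕ) : ∑ h ∈ Icc 1 X, nq q m h ≤ q := by
  unfold nq
  rw [← sum_filter, sum_const, nsmul_eq_mul, mul_one]
  have : (Icc 1 X).filter (fun h => (m + h).Prime ∧ ¬ (m + h).Coprime q) ⊆ Icc 1 q := by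
    intro h hh
    rw [mem_filter, mem_Icc] at hh
    rw [mem_Icc]
    refine ⟨hh.1.1, ?_⟩
    have h1 : (m + h) ∣ q := by
      by_contra hc
      exact hh.2.2 ((Nat.Prime.coprime_iff_not_dvd hh.2.1).2 hc)
    have := Nat.le_of_dvd hq h1
    omega
  have h2 := card_le_card this
  rw [Nat.card_Icc, Nat.add_sub_cancel] at h2
  exact_mod_cast h2

lemma mod_mem_Cq {q n : ℕ} (hq : 1 ≤ q) (hn : n.Coprime q) : n % q ∈ Cq q := by
  unfold Cq
  rw [mem_filter, mem_range]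
  exact ⟨Nat.mod_lt _ hq, ((Nat.mod_modEq n q).gcd_eq).trans hn⟩

lemma sum_ic {q : ℕ} (hq : 1 ≤ q) (f : ℕ → ℝ) {n : ℕ} (hn : n.Coprime q) : ∑ a ∈ Cq q, f a * ic q a n = f (n % q) := by
  rw [sum_eq_single (n % q)]
  · unfold ic
    rw [if_pos (Nat.mod_modEq n q).symm, mul_one]
  · intro b hb hne
    unfold ic
    rw [if_neg, mul_zero]
    intro h
    apply hne
    unfold Nat.ModEq at h
    unfold Cq at hb
    rw [mem_filter, mem_range] at hb
    rw [Nat.mod_eq_of_lt hb.1] at h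
    exact h.symm
  · intro h
    exact absurd (mod_mem_Cq hq hn) h

lemma per_mod {q : ℕ} {c : ℕ → ℝ} (hper : ∀ m h, q ∣ m → c (m + h) = c h) (n : ℕ) : c (n % q) = c n := by
  conv_rhs => rw [← Nat.div_add_mod n q]
  exact (hper _ _ (dvd_mul_right _ _)).symm

/-- decomposition of a function of the residue on the primes -/
lemma decomp {q : ℕ} (hq : 1 ≤ q) {c : ℕ → ℝ} (hper : ∀ m h, q ∣ m → c (m + h) = c h) (hc : ∀ n, |c n| ≤ 1) (m h : ℕ) :
    |c (m + h) * pr m h - ∑ a ∈ Cq q, c a * (ic q a (m + h) * pr m h)| ≤ nq q m h := by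
  by_cases h1 : (m + h).Prime
  · by_cases h2 : (m + h).Coprime q
    · have h3 := sum_ic hq c h2
      rw [per_mod hper] at h3
      have e : ∑ a ∈ Cq q, c a * (ic q a (m + h) * pr m h) = (∑ a ∈ Cq q, c a * ic q a (m + h)) * pr m h := by
        rw [sum_mul]; exact sum_congr rfl (fun a _ => by ring)
      rw [e, h3, sub_self, abs_zero]
      exact nq_nonneg _ _ _
    · have e : ∑ a ∈ Cq q, c a * (ic q a (m + h) * pr m h) = 0 := by
        apply sum_eq_zero
        intro a ha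
        unfold ic
        rw [if_neg, zero_mul, mul_zero]
        intro h3
        apply h2
        rw [Nat.Coprime, h3.gcd_eq]
        exact (mem_filter.1 ha).2
      rw [e, sub_zero]
      unfold nq pr
      rw [if_pos h1, if_pos ⟨h1, h2⟩, mul_one]
      exact hc _
  · unfold pr
    rw [if_neg h1]
    simp only [mul_zero, sum_const_zero, sub_self, abs_zero]
    exact nq_nonneg _ _ _

/-- the `pair` field -/
theorem pair_field {q : ℕ} (hq : 1 ≤ q) {c : ℕ → ℝ} (hper : ∀ m h, q ∣ m → c (m + h) = c h) (hc : ∀ n, |c n| ≤ 1)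
    (hv : 0 < (∑ a ∈ Cq q, c a ^ 2) / (Nat.totient q : ℝ)) (δ : ℝ) (hδ : 0 < δ) (hδ1 : δ ≤ 1) : ∀ᶠ X : ℕ in atTop, ∃ Ex : Finset ℕ,
    (Ex.card : ℝ) ≤ X / Real.log X ^ 6 ∧ ∀ d ∈ Icc 1 X, q ∣ d → d ∉ Ex → ∀ m : ℕ, m ≤ X → q ∣ m →
      E1 X (fun h => c h ^ 2 * (pr m h * pr (m + d) h)) * Real.log X ^ 2 ≤
        ((∑ a ∈ Cq q, c a ^ 2) / (Nat.totient q : ℝ)) * ((1 + δ) * rat d + 2 * δ) := by
  set v := (∑ a ∈ Cq q, c a ^ 2) / (Nat.totient q : ℝ) with hvd
  have hφ1 : (1 : ℝ) ≤ Nat.totient q := by exact_mod_cast Nat.totient_pos.2 hq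
  have hq0 : (0 : ℝ) < q := by exact_mod_cast hq
  filter_upwards [pc_class q 6 hq δ hδ hδ1, ev_small (v * δ / q) 1 (by positivity) one_pos 2, eventually_ge_atTop 1] with X h1 h2 hX1
  obtain ⟨Ex, hEx, hgood⟩ := h1
  refine ⟨Ex, hEx, fun d hd hqd hdE m hm hqm => ?_⟩
  have hX0 : (0 : ℝ) < X := by exact_mod_cast hX1
  set L := Real.log (X : ℝ) with hL
  have hpt : ∀ h ∈ Icc 1 X, c h ^ 2 * (pr m h * pr (m + d) h) ≤ ∑ a ∈ Cq q, c a ^ 2 * (ic q a (m + h) * (pr m h * pr (m + d) h)) + nq q m h := by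
    intro h _
    have hper2 : ∀ m h, q ∣ m → (fun n => c n ^ 2) (m + h) = (fun n => c n ^ 2) h := fun m h hd => by simp only [hper m h hd]
    have hc2 : ∀ n, |(fun n => c n ^ 2) n| ≤ 1 := fun n => by
      simp only [abs_pow]
      exact pow_le_one₀ (abs_nonneg _) (hc n)
    have h3 := (abs_le.1 (decomp hq hper2 hc2 m h)).2
    have h3' : |(fun n => c n ^ 2) (m + h) * pr m h| = |c (m + h) ^ 2 * pr m h| := rfl
    change (c (m + h) ^ 2 * pr m h - ∑ a ∈ Cq q, c a ^ 2 * (ic q a (m + h) * pr m h)) ≤ nq q m h at h3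
    rw [hper m h hqm] at h3
    have p1 := pr_le_one (m + d) h
    have p0 := pr_nonneg (m + d) h
    have h4 : c h ^ 2 * pr m h ≤ ∑ a ∈ Cq q, c a ^ 2 * (ic q a (m + h) * pr m h) + nq q m h := by linarith
    have h5 := mul_le_mul_of_nonneg_right h4 p0
    rw [add_mul, sum_mul] at h5
    have h6 : nq q m h * pr (m + d) h ≤ nq q m h := mul_le_of_le_one_right (nq_nonneg _ _ _) p1
    have h7 : ∑ a ∈ Cq q, c a ^ 2 * (ic q a (m + h) * pr m h) * pr (m + d) h = ∑ a ∈ Cq q, c a ^ 2 * (ic q a (m + h) * (pr m h * pr (m + d) h)) :=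
      sum_congr rfl (fun a _ => by ring)
    rw [h7] at h5
    have e : c h ^ 2 * (pr m h * pr (m + d) h) = c h ^ 2 * pr m h * pr (m + d) h := by ring
    rw [e]
    linarith
  have hE : E1 X (fun h => c h ^ 2 * (pr m h * pr (m + d) h)) ≤ ∑ a ∈ Cq q, c a ^ 2 * E1 X (fun h => ic q a (m + h) * (pr m h * pr (m + d) h)) + q / X := by
    refine (E1_mono hpt).trans ?_
    rw [E1_add]
    apply add_le_add
    · apply le_of_eq
      unfold E1
      rw [sum_comm, sum_div]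
      apply sum_congr rfl
      intro a _
      rw [← mul_sum, mul_div_assoc]
    · unfold E1
      exact div_le_div_of_nonneg_right (sum_nq hq X m) hX0.le
  have hL2 : 0 ≤ L ^ 2 := sq_nonneg _
  have h3 := mul_le_mul_of_nonneg_right hE hL2
  refine h3.trans ?_
  rw [add_mul, sum_mul]
  have h4 : ∑ a ∈ Cq q, c a ^ 2 * E1 X (fun h => ic q a (m + h) * (pr m h * pr (m + d) h)) * L ^ 2 ≤
      ∑ a ∈ Cq q, c a ^ 2 * (((1 + δ) * rat d + δ) / Nat.totient q) := by
    apply sum_le_sum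
    intro a ha
    have := hgood d hd hqd hdE a ha m hm
    rw [mul_assoc]
    exact mul_le_mul_of_nonneg_left this (sq_nonneg _)
  have h5 : ∑ a ∈ Cq q, c a ^ 2 * (((1 + δ) * rat d + δ) / Nat.totient q) = v * ((1 + δ) * rat d + δ) := by
    rw [← sum_mul, hvd]; ring
  have h6 : (q : ℝ) / X * L ^ 2 ≤ v * δ := by
    have h2' : L ^ 2 ≤ v * δ / q * X := by simpa using h2
    rw [div_mul_eq_mul_div, div_le_iff₀ hX0]
    have := mul_le_mul_of_nonneg_left h2' hq0.le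
    have e : (q : ℝ) * (v * δ / q * X) = v * δ * X := by field_simp
    linarith
  rw [h5] at h4
  linarith

end Pool.Agent.N735.CL
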