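import Mathlib
import Pool.Agent.N735.CL.Cl5
import Pool.Agent.N735.CL.Ap2
import Pool.Agent.H343R2.EH.Primes

set_option autoImplicit false
set_option maxHeartbeats 2000000

/-! The primes of the residue classes in the windows. -/

namespace Pool.Agent.N735.CL

open Finset Filter Topology
open Pool.Agent.H373R2.T7

lemma ap_pi (q : ℕ) (hq : 1 ≤ q) : ∃ x0 : ℕ, ∀ x : ℕ, x0 ≤ x → ∀ a ∈ Cq q,
    |H343E.piAP x q a - H343E.pi1 x / (Nat.totient q : ℝ)| ≤ x / Real.log x ^ 2 := by
  classical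
  obtain ⟨B, x0, h⟩ := H343E.primes_of 2 (H343E.unsmoothed (2 + 2))
  obtain ⟨n1, h1⟩ := ev_log' (B + 2) 1
  obtain ⟨n2, h2⟩ := ev_L' ((q : ℝ) ^ 2 + 1)
  refine ⟨max (max x0 n1) (max n2 3), fun x hx a ha => ?_⟩
  have b1 := le_trans (le_trans (le_max_left _ _) (le_max_left _ _)) hx
  have b2 := le_trans (le_trans (le_max_right _ _) (le_max_left _ _)) hx
  have b3 := le_trans (le_trans (le_max_left _ _) (le_max_right _ _)) hx
  have b4 := le_trans (le_trans (le_max_right _ _) (le_max_right _ _)) hx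
  have a1 := h1 x b2
  have a2 := h2 x b3
  rw [one_mul] at a1
  set L := Real.log (x : ℝ) with hL
  have hqr : (1 : ℝ) ≤ q := by exact_mod_cast hq
  have hq2 : (0 : ℝ) ≤ (q : ℝ) ^ 2 := by positivity
  have hL1 : 1 ≤ L := by linarith
  have hL0 : 0 < L := by linarith
  have hx0 : (0 : ℝ) < x := by exact_mod_cast (by omega : 0 < x)
  have hss : √(x : ℝ) * √(x : ℝ) = x := Real.mul_self_sqrt hx0.le
  have hs1 : 1 ≤ √(x : ℝ) := (one_le_pow₀ hL1).trans a1
  have hqB : (q : ℝ) ^ 2 ≤ x / L ^ B := by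
    rw [le_div_iff₀ (by positivity)]
    calc (q : ℝ) ^ 2 * L ^ B ≤ L * L ^ B := mul_le_mul_of_nonneg_right (by linarith) (by positivity)
      _ = L ^ (B + 1) := by ring
      _ ≤ L ^ (B + 2) := pow_le_pow_right₀ hL1 (by omega)
      _ ≤ √(x : ℝ) := a1
      _ ≤ √(x : ℝ) * √(x : ℝ) := le_mul_of_one_le_left (by linarith) hs1
      _ = x := hss
  have hqB' : (q : ℝ) ≤ x / L ^ B := le_trans (le_self_pow₀ hqr (by norm_num)) hqB
  have ha' := mem_filter.1 ha
  have key := h x b1 1 le_rfl q hqB' (by rw [one_mul]; exact hqB) (fun q' => if q' = q then {a} else ∅) ⟨by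
    intro q' b hb
    by_cases hqq : q' = q
    · subst hqq
      simp only [if_true, mem_singleton] at hb
      subst hb
      exact ⟨mem_range.1 ha'.1, ha'.2⟩
    · simp [hqq] at hb, by
    intro q'
    by_cases hqq : q' = q
    · simp [hqq]
    · simp [hqq]⟩
  have h3 : |H343E.piAP x q a - H343E.pi1 x / (Nat.totient q : ℝ)| ≤ ∑ q' ∈ Icc 1 q, ∑ b ∈ (if q' = q then ({a} : Finset ℕ) else ∅),
      |H343E.piAP x q' b - H343E.pi1 x / (Nat.totient q' : ℝ)| := by
    have h4 := single_le_sum (f := fun q' => ∑ b ∈ (if q' = q then ({a} : Finset ℕ) else ∅), |H343E.piAP x q' b - H343E.pi1 x / (Nat.totient q' : ℝ)|)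
      (fun i _ => sum_nonneg (fun _ _ => abs_nonneg _)) (mem_Icc.2 ⟨hq, le_rfl⟩ : q ∈ Icc 1 q)
    simpa using h4
  refine h3.trans (key.trans (le_of_eq ?_))
  rw [one_mul]

lemma sum_icpr (q a X m : ℕ) : ∑ h ∈ Icc 1 X, ic q a (m + h) * pr m h = H343E.piAP (m + X) q a - H343E.piAP m q a := by
  have key : ∀ y : ℕ, H343E.piAP y q a = ∑ n ∈ Icc 1 y, ic q a n * pr 0 n := by
    intro y
    unfold H343E.piAP
    rw [card_filter]
    push_cast
    apply sum_congr rfl
    intro n _
    unfold ic pr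
    rw [zero_add]
    by_cases h1 : n.Prime <;> by_cases h2 : n ≡ a [MOD q] <;> simp [h1, h2]
  rw [key, key]
  induction X with
  | zero => simp
  | succ X ih =>
    rw [Finset.sum_Icc_succ_top (by omega), ih, show m + (X + 1) = (m + X) + 1 by ring, Finset.sum_Icc_succ_top (by omega)]
    have e : ic q a (m + X + 1) * pr 0 (m + X + 1) = ic q a (m + X + 1) * pr m (X + 1) := by
      unfold pr
      rw [show 0 + (m + X + 1) = m + (X + 1) by ring]
    rw [e]; ring

lemma sum_pr1 (X m : ℕ) : ∑ h ∈ Icc 1 X, pr m h = H343E.pi1 (m + X) - H343E.pi1 m := by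
  have h := sum_icpr 1 0 X m
  have e1 : ∀ n, ic 1 0 n = 1 := fun n => by unfold ic; rw [if_pos (Nat.modEq_one)]
  have e2 : ∀ y, H343E.piAP y 1 0 = H343E.pi1 y := fun y => by
    unfold H343E.piAP H343E.pi1
    congr 2
    ext p
    simp [Nat.modEq_one]
  simp only [e1, one_mul, e2] at h
  exact h

lemma pi1_le (y : ℕ) : H343E.pi1 y ≤ y := by
  unfold H343E.pi1
  have := card_filter_le (Icc 1 y) (fun p => p.Prime)
  rw [Nat.card_Icc, Nat.add_sub_cancel] at this
  exact_mod_cast this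

lemma piAP_le (y q a : ℕ) : H343E.piAP y q a ≤ y := by
  unfold H343E.piAP
  have := card_filter_le (Icc 1 y) (fun p => p.Prime ∧ p ≡ a [MOD q])
  rw [Nat.card_Icc, Nat.add_sub_cancel] at this
  exact_mod_cast this

/-- the primes of a reduced class in the windows -/
theorem win_class (q : ℕ) (hq : 1 ≤ q) (δ : ℝ) (hδ : 0 < δ) : ∀ᶠ X : ℕ in atTop, ∀ a ∈ Cq q, ∀ m : ℕ, m ≤ X →
    |Real.log X * E1 X (fun h => ic q a (m + h) * pr m h) - 1 / Nat.totient q| ≤ δ := by
  obtain ⟨x0, h0⟩ := ap_pi q hq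
  have hφ1 : (1 : ℝ) ≤ Nat.totient q := by exact_mod_cast Nat.totient_pos.2 hq
  set φ := (Nat.totient q : ℝ) with hφ
  have hφ0 : 0 < φ := by linarith
  filter_upwards [eta_window (δ / 2) (by positivity), eventually_ge_atTop (4 + x0 ^ 2), tends_log.eventually_ge_atTop (64 / δ + 1),
    ev_small (δ / 16) (1 / 2) (by positivity) (by norm_num) 1] with X h1 h2 h3 h4 a ha m hm
  have hX4 : 4 ≤ X := by omega
  have hX0 : (0 : ℝ) < X := by exact_mod_cast (by omega : 0 < X)
  set L := Real.log (X : ℝ) with hL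
  have hq1 : 0 < 64 / δ := by positivity
  have hL1 : 1 ≤ L := by linarith
  have hL0 : 0 < L := by linarith
  have hLδ : 64 ≤ δ * L := by
    have : 64 / δ ≤ L := by linarith
    rw [div_le_iff₀ hδ] at this
    linarith
  have hsq : (X : ℝ) ^ (1 / 2 : ℝ) * (X : ℝ) ^ (1 / 2 : ℝ) = X := by
    rw [← Real.rpow_add hX0]; norm_num
  have hs0 : 0 < (X : ℝ) ^ (1 / 2 : ℝ) := Real.rpow_pos_of_pos hX0 _
  have h4' : L * (X : ℝ) ^ (1 / 2 : ℝ) ≤ δ / 16 * X := by
    have e : (1 : ℝ) - 1 / 2 = 1 / 2 := by norm_num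
    rw [e, pow_one] at h4
    exact h4
  -- the error at one point
  have herr : ∀ y : ℕ, y ≤ 2 * X → L * |H343E.piAP y q a - H343E.pi1 y / φ| ≤ δ / 4 * X := by
    intro y hy
    have hyr : (y : ℝ) ≤ 2 * X := by exact_mod_cast hy
    rcases le_or_gt ((X : ℝ) ^ (1 / 2 : ℝ)) y with hs | hs
    · have hyx0 : x0 ≤ y := by
        have h5 : (x0 : ℝ) ≤ (X : ℝ) ^ (1 / 2 : ℝ) := by
          have h6 : (x0 : ℝ) ^ 2 ≤ X := by exact_mod_cast (by omega : x0 ^ 2 ≤ X)
          have h7 := Real.rpow_le_rpow (by positivity) h6 (show (0 : ℝ) ≤ 1 / 2 by norm_num)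
          rw [← Real.sqrt_eq_rpow, Real.sqrt_sq (Nat.cast_nonneg _)] at h7
          exact h7
        exact_mod_cast h5.trans hs
      have h5 := h0 y hyx0 a ha
      have hlog : L / 2 ≤ Real.log y := by
        have := Real.log_le_log hs0 hs
        rw [Real.log_rpow hX0] at this
        linarith
      have h6 : (y : ℝ) / Real.log y ^ 2 ≤ 8 * (X / L ^ 2) := by
        have h7 : (L / 2) ^ 2 ≤ Real.log y ^ 2 := pow_le_pow_left₀ (by positivity) hlog 2
        calc (y : ℝ) / Real.log y ^ 2 ≤ (2 * X) / (L / 2) ^ 2 := div_le_div₀ (by positivity) hyr (by positivity) h7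
          _ = _ := by field_simp; norm_num
      calc L * |H343E.piAP y q a - H343E.pi1 y / φ| ≤ L * (8 * (X / L ^ 2)) := mul_le_mul_of_nonneg_left (h5.trans h6) hL0.le
        _ = 8 * X / L := by field_simp
        _ ≤ δ / 4 * X := by
            rw [div_le_iff₀ hL0]
            nlinarith
    · have h5 : |H343E.piAP y q a - H343E.pi1 y / φ| ≤ y := by
        have a1 := piAP_le y q a
        have a2 := pi1_le y
        have a3 : 0 ≤ H343E.piAP y q a := by unfold H343E.piAP; positivity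
        have a4 : 0 ≤ H343E.pi1 y := by unfold H343E.pi1; positivity
        have a5 : H343E.pi1 y / φ ≤ y := (div_le_self a4 hφ1).trans a2
        have a6 : 0 ≤ H343E.pi1 y / φ := by positivity
        rw [abs_le]; constructor <;> linarith
      calc L * |H343E.piAP y q a - H343E.pi1 y / φ| ≤ L * (X : ℝ) ^ (1 / 2 : ℝ) := mul_le_mul_of_nonneg_left (h5.trans hs.le) hL0.le
        _ ≤ δ / 4 * X := by linarith [show 0 < δ * X by positivity]
  have hη := h1 m hm
  have e1 : E1 X (fun h => ic q a (m + h) * pr m h) = (H343E.piAP (m + X) q a - H343E.piAP m q a) / X := by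
    unfold E1; rw [sum_icpr]
  have e2 : E1 X (pr m) = (H343E.pi1 (m + X) - H343E.pi1 m) / X := by
    unfold E1; rw [sum_pr1]
  have g1 := herr (m + X) (by omega)
  have g2 := herr m (by omega)
  have e3 : L * E1 X (fun h => ic q a (m + h) * pr m h) - 1 / φ =
      (E1 X (pr m) * L - 1) / φ + (L * (H343E.piAP (m + X) q a - H343E.pi1 (m + X) / φ) - L * (H343E.piAP m q a - H343E.pi1 m / φ)) / X := by
    rw [e1, e2]; field_simp; ring
  rw [e3]
  refine (abs_add_le _ _).trans ?_
  have g3 : |(E1 X (pr m) * L - 1) / φ| ≤ δ / 2 := by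
    rw [abs_div, abs_of_pos hφ0]
    exact (div_le_self (abs_nonneg _) hφ1).trans hη
  have g4 : |(L * (H343E.piAP (m + X) q a - H343E.pi1 (m + X) / φ) - L * (H343E.piAP m q a - H343E.pi1 m / φ)) / X| ≤ δ / 2 := by
    rw [abs_div, abs_of_pos hX0, div_le_iff₀ hX0]
    refine (abs_sub _ _).trans ?_
    rw [abs_mul, abs_mul, abs_of_pos hL0]
    linarith
  linarith

/-- the windows, for a function of the residue -/
theorem win_fun {q : ℕ} (hq : 1 ≤ q) {c : ℕ → ℝ} (hper : ∀ m h, q ∣ m → c (m + h) = c h) (hc : ∀ n, |c n| ≤ 1) (δ : ℝ) (hδ : 0 < δ) :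
    ∀ᶠ X : ℕ in atTop, ∀ m : ℕ, m ≤ X → |Real.log X * Bc c X m - (∑ a ∈ Cq q, c a) / Nat.totient q| ≤ δ := by
  have hqr : (1 : ℝ) ≤ q := by exact_mod_cast hq
  have hq0 : (0 : ℝ) < q := by linarith
  have hφ0 : (0 : ℝ) < Nat.totient q := by exact_mod_cast Nat.totient_pos.2 hq
  filter_upwards [win_class q hq (δ / (2 * q)) (by positivity), ev_small (δ / (2 * q)) 1 (by positivity) one_pos 1, eventually_ge_atTop 1] with X h1 h2 hX1 m hm
  have hX0 : (0 : ℝ) < X := by exact_mod_cast hX1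
  set L := Real.log (X : ℝ) with hL
  have hL0 : 0 ≤ L := Real.log_natCast_nonneg X
  have hdec : |Bc c X m - ∑ a ∈ Cq q, c a * E1 X (fun h => ic q a (m + h) * pr m h)| ≤ q / X := by
    have e : Bc c X m - ∑ a ∈ Cq q, c a * E1 X (fun h => ic q a (m + h) * pr m h) =
        E1 X (fun h => c (m + h) * pr m h - ∑ a ∈ Cq q, c a * (ic q a (m + h) * pr m h)) := by
      unfold Bc cp E1
      rw [sum_sub_distrib, sub_div]
      congr 1
      rw [sum_comm, sum_div]
      apply sum_congr rfl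
      intro a _
      rw [← mul_sum, mul_div_assoc]
    rw [e]
    refine (E1_abs _ (nq q m) (fun h _ => decomp hq hper hc m h)).trans ?_
    unfold E1
    exact div_le_div_of_nonneg_right (sum_nq hq X m) hX0.le
  have hsum : |L * ∑ a ∈ Cq q, c a * E1 X (fun h => ic q a (m + h) * pr m h) - (∑ a ∈ Cq q, c a) / Nat.totient q| ≤ δ / 2 := by
    have e : L * ∑ a ∈ Cq q, c a * E1 X (fun h => ic q a (m + h) * pr m h) - (∑ a ∈ Cq q, c a) / Nat.totient q =
        ∑ a ∈ Cq q, c a * (L * E1 X (fun h => ic q a (m + h) * pr m h) - 1 / Nat.totient q) := by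
      rw [mul_sum, sum_div, ← sum_sub_distrib]
      apply sum_congr rfl
      intro a _
      ring
    rw [e]
    refine (abs_sum_le_sum_abs _ _).trans ?_
    have h3 : ∀ a ∈ Cq q, |c a * (L * E1 X (fun h => ic q a (m + h) * pr m h) - 1 / Nat.totient q)| ≤ δ / (2 * q) := by
      intro a ha
      rw [abs_mul]
      calc |c a| * |L * E1 X (fun h => ic q a (m + h) * pr m h) - 1 / Nat.totient q| ≤ 1 * (δ / (2 * q)) :=
            mul_le_mul (hc a) (h1 a ha m hm) (abs_nonneg _) (by norm_num)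
        _ = _ := one_mul _
    refine (sum_le_sum h3).trans ?_
    rw [sum_const, nsmul_eq_mul]
    have h4 : ((Cq q).card : ℝ) ≤ q := by
      have : (Cq q).card ≤ q := by
        unfold Cq
        exact (card_filter_le _ _).trans (by simp)
      exact_mod_cast this
    calc ((Cq q).card : ℝ) * (δ / (2 * q)) ≤ q * (δ / (2 * q)) := mul_le_mul_of_nonneg_right h4 (by positivity)
      _ = δ / 2 := by field_simp
  have h5 : L * (q / X) ≤ δ / 2 := by
    have h2' : L ≤ δ / (2 * q) * X := by simpa using h2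
    rw [mul_div_assoc', div_le_iff₀ hX0]
    have := mul_le_mul_of_nonneg_right h2' hq0.le
    have e : δ / (2 * q) * X * q = δ / 2 * X := by field_simp
    linarith
  have e : L * Bc c X m - (∑ a ∈ Cq q, c a) / Nat.totient q =
      L * (Bc c X m - ∑ a ∈ Cq q, c a * E1 X (fun h => ic q a (m + h) * pr m h)) +
      (L * ∑ a ∈ Cq q, c a * E1 X (fun h => ic q a (m + h) * pr m h) - (∑ a ∈ Cq q, c a) / Nat.totient q) := by ring
  rw [e]
  refine (abs_add_le _ _).trans ?_
  rw [abs_mul, abs_of_nonneg hL0]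
  have := mul_le_mul_of_nonneg_left hdec hL0
  linarith

/-- a class without small prime factors -/
theorem cop_class (q w : ℕ) (hq : 1 ≤ q) (hqw : q ≤ w) : ∃ κ C : ℝ, 0 ≤ C ∧ ∀ X : ℕ, 1 ≤ X → ∀ a ∈ Cq q,
    |E1 X (fun h => ic q a h * cf (Ww w) h) - κ| ≤ C / X := by
  classical
  set S := ((Icc 1 w).filter Nat.Prime).filter (fun p => ¬ p ∣ q) with hS
  have hSp : ∀ p ∈ S, p.Prime := fun p hp => (mem_filter.1 (mem_filter.1 hp).1).2
  have hSq : ∀ p ∈ S, ¬ p ∣ q := fun p hp => (mem_filter.1 hp).2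
  refine ⟨1 / q * ∏ p ∈ S, ((((range p).filter (fun a => ¬ p ∣ a)).card : ℝ) / p), ∏ p ∈ S, (((range p).filter (fun a => ¬ p ∣ a)).card : ℝ),
    prod_nonneg (fun _ _ => Nat.cast_nonneg _), fun X hX a ha => ?_⟩
  have hX0 : (0 : ℝ) < X := by exact_mod_cast hX
  have key := count_sys (fun p b => ¬ p ∣ b) X S hSp q hq hSq a
  have hcop := (mem_filter.1 ha).2
  have e1 : E1 X (fun h => ic q a h * cf (Ww w) h) = (((Icc 1 X).filter (fun n => n ≡ a [MOD q] ∧ ∀ p ∈ S, ¬ p ∣ n % p)).card : ℝ) / X := by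
    unfold E1
    rw [card_filter]
    push_cast
    congr 1
    apply sum_congr rfl
    intro n _
    unfold ic cf
    by_cases h1 : n ≡ a [MOD q]
    · have hiff : n.Coprime (Ww w) ↔ ∀ p ∈ S, ¬ p ∣ n % p := by
        unfold Ww
        rw [Nat.coprime_prod_right_iff]
        constructor
        · intro h p hp hd
          have h2 := h p (mem_filter.1 hp).1
          have h3 : p ∣ n := by rwa [Nat.dvd_mod_iff (dvd_refl p)] at hd
          exact (Nat.Prime.coprime_iff_not_dvd (hSp p hp)).1 h2.symm h3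
        · intro h p hp
          have hpp := (mem_filter.1 hp).2
          rw [Nat.coprime_comm, Nat.Prime.coprime_iff_not_dvd hpp]
          intro hd
          by_cases hpq : p ∣ q
          · have h8 : n.gcd q = a.gcd q := h1.gcd_eq
            have h9 : p ∣ n.gcd q := Nat.dvd_gcd hd hpq
            rw [h8] at h9
            rw [Nat.Coprime] at hcop
            rw [hcop] at h9
            exact hpp.one_lt.ne' (Nat.dvd_one.1 h9)
          · exact h p (mem_filter.2 ⟨hp, hpq⟩) (by rwa [Nat.dvd_mod_iff (dvd_refl p)])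
      by_cases h2 : n.Coprime (Ww w)
      · rw [if_pos h1, if_pos h2, if_pos ⟨h1, hiff.1 h2⟩, one_mul]
      · rw [if_pos h1, if_neg h2, if_neg (fun h => h2 (hiff.2 h.2)), mul_zero]
    · rw [if_neg h1, zero_mul, if_neg (fun h => h1 h.1)]
  rw [e1]
  have e2 : (((Icc 1 X).filter (fun n => n ≡ a [MOD q] ∧ ∀ p ∈ S, ¬ p ∣ n % p)).card : ℝ) / X -
      1 / q * ∏ p ∈ S, ((((range p).filter (fun a => ¬ p ∣ a)).card : ℝ) / p) =
      ((((Icc 1 X).filter (fun n => n ≡ a [MOD q] ∧ ∀ p ∈ S, ¬ p ∣ n % p)).card : ℝ) -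
        (X : ℝ) / q * ∏ p ∈ S, ((((range p).filter (fun a => ¬ p ∣ a)).card : ℝ) / p)) / X := by
    have hq0 : (q : ℝ) ≠ 0 := by exact_mod_cast (by omega : q ≠ 0)
    field_simp
  rw [e2, abs_div, abs_of_pos hX0]
  exact div_le_div_of_nonneg_right key hX0.le

/-- the decomposition on the integers without small prime factors -/
theorem cop_fun {q : ℕ} (hq : 1 ≤ q) {c : ℕ → ℝ} (hper : ∀ m h, q ∣ m → c (m + h) = c h) (hc : ∀ n, |c n| ≤ 1) (w : ℕ) (hqw : q ≤ w)
    (δ : ℝ) (hδ : 0 < δ) : ∀ᶠ X : ℕ in atTop, |E1 X (fun h => c h * cf (Ww w) h) - gam w X * ((∑ a ∈ Cq q, c a) / Nat.totient q)| ≤ δ := by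
  obtain ⟨κ, C, hC, hκ⟩ := cop_class q w hq hqw
  have hqr : (1 : ℝ) ≤ q := by exact_mod_cast hq
  have hφ0 : (0 : ℝ) < Nat.totient q := by exact_mod_cast Nat.totient_pos.2 hq
  have hcard : ((Cq q).card : ℝ) = Nat.totient q := by
    rw [Nat.totient_eq_card_coprime]
    congr 2
    unfold Cq
    apply filter_congr
    intro a _
    exact Nat.coprime_comm
  have hcardq : ((Cq q).card : ℝ) ≤ q := by
    have : (Cq q).card ≤ q := by
      unfold Cq
      exact (card_filter_le _ _).trans (by simp)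
    exact_mod_cast this
  have hgen : ∀ f : ℕ → ℝ, (∀ m h, q ∣ m → f (m + h) = f h) → (∀ n, |f n| ≤ 1) → ∀ X : ℕ, 1 ≤ X →
      |E1 X (fun h => f h * cf (Ww w) h) - κ * ∑ a ∈ Cq q, f a| ≤ q * (C / X) := by
    intro f hf hf1 X hX
    have e1 : E1 X (fun h => f h * cf (Ww w) h) = ∑ a ∈ Cq q, f a * E1 X (fun h => ic q a h * cf (Ww w) h) := by
      have e2 : E1 X (fun h => f h * cf (Ww w) h) = E1 X (fun h => ∑ a ∈ Cq q, f a * (ic q a h * cf (Ww w) h)) := by
        apply E1_congr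
        intro h _
        by_cases h1 : h.Coprime (Ww w)
        · have h2 : h.Coprime q := by
            rw [Nat.Coprime]
            by_contra hne
            obtain ⟨p, hp, hpd⟩ := Nat.exists_prime_and_dvd hne
            have h3 : p ∣ h := hpd.trans (Nat.gcd_dvd_left _ _)
            have h4 : p ∣ q := hpd.trans (Nat.gcd_dvd_right _ _)
            have h5 : p ≤ w := (Nat.le_of_dvd hq h4).trans hqw
            have h6 : p ∣ Ww w := by
              unfold Ww
              exact dvd_prod_of_mem _ (mem_filter.2 ⟨mem_Icc.2 ⟨hp.one_le, h5⟩, hp⟩)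
            have h7 := Nat.dvd_gcd h3 h6
            rw [Nat.Coprime] at h1
            rw [h1] at h7
            exact hp.one_lt.ne' (Nat.dvd_one.1 h7)
          have h3 := sum_ic hq f h2
          rw [per_mod hf] at h3
          have e : ∑ a ∈ Cq q, f a * (ic q a h * cf (Ww w) h) = (∑ a ∈ Cq q, f a * ic q a h) * cf (Ww w) h := by
            rw [sum_mul]; exact sum_congr rfl (fun a _ => by ring)
          rw [e, h3]
        · unfold cf
          rw [if_neg h1]
          simp
      rw [e2]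
      unfold E1
      rw [sum_comm, sum_div]
      apply sum_congr rfl
      intro a _
      rw [← mul_sum, mul_div_assoc]
    rw [e1, mul_sum, ← sum_sub_distrib]
    refine (abs_sum_le_sum_abs _ _).trans ?_
    have h3 : ∀ a ∈ Cq q, |f a * E1 X (fun h => ic q a h * cf (Ww w) h) - κ * f a| ≤ C / X := by
      intro a ha
      have e : f a * E1 X (fun h => ic q a h * cf (Ww w) h) - κ * f a = f a * (E1 X (fun h => ic q a h * cf (Ww w) h) - κ) := by ring
      rw [e, abs_mul]
      calc |f a| * |E1 X (fun h => ic q a h * cf (Ww w) h) - κ| ≤ 1 * (C / X) := mul_le_mul (hf1 a) (hκ X hX a ha) (abs_nonneg _) (by norm_num)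
        _ = _ := one_mul _
    refine (sum_le_sum h3).trans ?_
    rw [sum_const, nsmul_eq_mul]
    exact mul_le_mul_of_nonneg_right hcardq (by positivity)
  obtain ⟨n, hn⟩ := exists_nat_ge (2 * q * C / δ)
  filter_upwards [eventually_ge_atTop (n + 1)] with X hX
  have hX1 : 1 ≤ X := by omega
  have hX0 : (0 : ℝ) < X := by exact_mod_cast hX1
  have g1 := hgen c hper hc X hX1
  have g2 := hgen (fun _ => 1) (fun _ _ _ => rfl) (fun _ => by simp) X hX1
  have e1 : E1 X (fun h => (fun _ => (1 : ℝ)) h * cf (Ww w) h) = gam w X := by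
    unfold gam
    apply E1_congr
    intro h _
    simp
  rw [e1] at g2
  simp only [sum_const, nsmul_eq_mul, mul_one, hcard] at g2
  set s := ∑ a ∈ Cq q, c a with hs
  have hs1 : |s / Nat.totient q| ≤ 1 := by
    rw [abs_div, abs_of_pos hφ0, div_le_one hφ0, ← hcard]
    refine (abs_sum_le_sum_abs _ _).trans ((sum_le_sum (fun a _ => hc a)).trans ?_)
    simp
  have e2 : E1 X (fun h => c h * cf (Ww w) h) - gam w X * (s / Nat.totient q) =
      (E1 X (fun h => c h * cf (Ww w) h) - κ * s) - (gam w X - κ * Nat.totient q) * (s / Nat.totient q) := by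
    field_simp
    ring
  rw [e2]
  refine (abs_sub _ _).trans ?_
  rw [abs_mul]
  have h3 : |gam w X - κ * Nat.totient q| * |s / Nat.totient q| ≤ q * (C / X) * 1 :=
    mul_le_mul g2 hs1 (abs_nonneg _) (by positivity)
  have h4 : 2 * (q * (C / X)) ≤ δ := by
    have hnX : (n : ℝ) ≤ X := by exact_mod_cast (by omega : n ≤ X)
    have h5 : 2 * q * C / δ ≤ X := hn.trans hnX
    rw [div_le_iff₀ hδ] at h5
    have e3 : 2 * ((q : ℝ) * (C / X)) = 2 * q * C / X := by ring
    rw [e3, div_le_iff₀ hX0]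
    linarith
  linarith

/-- functions of the residue are nice -/
theorem nice {q : ℕ} (hq : 1 ≤ q) {c : ℕ → ℝ} (hper : ∀ m h, q ∣ m → c (m + h) = c h) (hc : ∀ n, |c n| ≤ 1)
    (hv : 0 < (∑ a ∈ Cq q, c a ^ 2) / (Nat.totient q : ℝ)) :
    Nice q c ((∑ a ∈ Cq q, c a) / Nat.totient q) ((∑ a ∈ Cq q, c a ^ 2) / (Nat.totient q : ℝ)) := by
  have hφ0 : (0 : ℝ) < Nat.totient q := by exact_mod_cast Nat.totient_pos.2 hq
  have hcard : ((Cq q).card : ℝ) = Nat.totient q := by
    rw [Nat.totient_eq_card_coprime]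
    congr 2
    unfold Cq
    apply filter_congr
    intro a _
    exact Nat.coprime_comm
  have hper2 : ∀ m h, q ∣ m → (fun n => c n ^ 2) (m + h) = (fun n => c n ^ 2) h := fun m h hd => by simp only [hper m h hd]
  have hc2 : ∀ n, |(fun n => c n ^ 2) n| ≤ 1 := fun n => by
    simp only [abs_pow]
    exact pow_le_one₀ (abs_nonneg _) (hc n)
  refine ⟨hq, hper, hc, ?_, hv, ?_, ?_, ?_, fun δ hδ hδ1 => pair_field hq hper hc hv δ hδ hδ1⟩
  · rw [abs_div, abs_of_pos hφ0, div_le_one hφ0, ← hcard]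
    refine (abs_sum_le_sum_abs _ _).trans ((sum_le_sum (fun a _ => hc a)).trans ?_)
    simp
  · rw [div_le_one hφ0, ← hcard]
    refine (sum_le_sum (fun a _ => ?_)).trans (le_of_eq (by rw [sum_const, nsmul_eq_mul, mul_one]))
    rw [← sq_abs]
    exact pow_le_one₀ (abs_nonneg _) (hc a)
  · intro δ hδ
    filter_upwards [win_fun hq hper hc δ hδ, win_fun hq hper2 hc2 δ hδ] with X h1 h2 m hm
    exact ⟨h1 m hm, h2 m hm⟩
  · intro w hw δ hδ
    filter_upwards [cop_fun hq hper hc w hw δ hδ, cop_fun hq hper2 hc2 w hw δ hδ] with X h1 h2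
    exact ⟨h1, h2⟩

end Pool.Agent.N735.CL
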