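import Mathlib
import Pool.Agent.N735.CL.Ap7
import Pool.Agent.N735.CL.Cl3
import Pool.Agent.TH915.UC.BT

set_option autoImplicit false
set_option maxHeartbeats 2000000

/-! The upper bound for all moduli. -/

namespace Pool.Agent.N735.CL

open Finset Filter Topology

/-- the number of the primes of a class -/
noncomputable def Ncl (q a : ℕ) {K : ℕ} (h : Fin K → ℕ) (m : ℕ) : ℝ := ∑ i, ic q a (m + h i) * pr m (h i)
/-- its density -/
noncomputable def pcl (q a X m : ℕ) : ℝ := E1 X (fun h => ic q a (m + h) * pr m h)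

lemma card_le_bt (q a X m : ℕ) (hq : 1 ≤ q) : ∑ h ∈ Icc 1 X, ic q a (m + h) * pr m h ≤
    22 * ((q : ℝ) / q.totient) * ((X / q + 2 : ℕ) : ℝ) / Real.log ((X / q + 2 : ℕ) : ℝ) := by
  refine le_trans ?_ (Pool.Agent.TH915.UC.bt_gen (a % q + (m / q) * q) q (X / q + 2) hq (Nat.le_add_left 2 _))
  have e : ∑ h ∈ Icc 1 X, ic q a (m + h) * pr m h = (((Icc 1 X).filter (fun h => (m + h).Prime ∧ m + h ≡ a [MOD q])).card : ℝ) := by
    rw [card_filter]
    push_cast
    apply sum_congr rfl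
    intro h _
    unfold ic pr
    by_cases h1 : (m + h).Prime <;> by_cases h2 : m + h ≡ a [MOD q] <;> simp [h1, h2]
  rw [e]
  have hval : ∀ h ∈ (Icc 1 X).filter (fun h => (m + h).Prime ∧ m + h ≡ a [MOD q]), m / q ≤ (m + h) / q ∧
      a % q + m / q * q + ((m + h) / q - m / q) * q = m + h ∧ (m + h) / q - m / q < X / q + 2 := by
    intro h hh
    rw [mem_filter, mem_Icc] at hh
    have h1 : (m + h) % q = a % q := hh.2.2
    have h2 := Nat.div_add_mod (m + h) q
    have h3 := Nat.div_add_mod m q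
    have h4 := Nat.div_add_mod X q
    have h5 := Nat.mod_lt m hq
    have h6 := Nat.mod_lt X hq
    have h7 : m / q ≤ (m + h) / q := Nat.div_le_div_right (by omega)
    have h8 := hh.1.2
    rw [h1] at h2
    generalize (m + h) / q = A at *
    generalize m / q = B at *
    generalize X / q = D at *
    obtain ⟨E, rfl⟩ := Nat.exists_eq_add_of_le h7
    refine ⟨h7, ?_, ?_⟩
    · rw [Nat.add_sub_cancel_left]
      rw [← h2]
      ring
    · rw [Nat.add_sub_cancel_left]
      by_contra hc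
      push Not at hc
      have h9 : q * (D + 2) ≤ q * E := Nat.mul_le_mul_left _ hc
      have e1 : q * (D + 2) = q * D + q + q := by ring
      have e2 : q * (B + E) = q * B + q * E := by ring
      rw [e1] at h9
      rw [e2] at h2
      omega
  have : ((Icc 1 X).filter (fun h => (m + h).Prime ∧ m + h ≡ a [MOD q])).card ≤
      ((range (X / q + 2)).filter (fun k => (a % q + (m / q) * q + k * q).Prime)).card := by
    apply card_le_card_of_injOn (fun h => (m + h) / q - m / q)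
    · intro h hh
      obtain ⟨k1, k2, k3⟩ := hval h hh
      simp only [coe_filter, mem_range, Set.mem_setOf_eq]
      refine ⟨k3, ?_⟩
      rw [k2]
      exact (mem_filter.1 hh).2.1
    · intro h hh h' hh' heq
      obtain ⟨k1, k2, k3⟩ := hval h hh
      obtain ⟨k1', k2', k3'⟩ := hval h' hh'
      simp only at heq
      rw [heq, k2'] at k2
      omega
  exact_mod_cast this

lemma pcl_le (q a X m : ℕ) (δ : ℝ) (hδ : 0 < δ) (hq : 1 ≤ q) (hX : 2 ≤ X) (hqX : (q : ℝ) ≤ (X : ℝ) ^ (1 - δ)) :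
    pcl q a X m ≤ 66 / δ / (Nat.totient q * Real.log X) := by
  have hX2 : (2 : ℝ) ≤ X := by exact_mod_cast hX
  have hX0 : (0 : ℝ) < X := by linarith
  have hX1 : (1 : ℝ) ≤ X := by linarith
  have hL0 : 0 < Real.log (X : ℝ) := Real.log_pos (by linarith)
  have hφ : (0 : ℝ) < Nat.totient q := by exact_mod_cast Nat.totient_pos.2 hq
  have hq0 : (0 : ℝ) < q := by exact_mod_cast hq
  have hqX1 : (q : ℝ) ≤ X := hqX.trans (by
    calc (X : ℝ) ^ (1 - δ) ≤ (X : ℝ) ^ (1 : ℝ) := Real.rpow_le_rpow_of_exponent_le hX1 (by linarith)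
      _ = X := Real.rpow_one _)
  have key := card_le_bt q a X m hq
  set N := X / q + 2 with hN
  have hN1 : (X : ℝ) / q ≤ N := by
    have h1 : X < q * (X / q + 1) := Nat.lt_mul_div_succ X hq
    have h2 : X ≤ N * q := by
      rw [hN]
      calc X ≤ q * (X / q + 1) := h1.le
        _ ≤ q * (X / q + 2) := Nat.mul_le_mul_left _ (by omega)
        _ = (X / q + 2) * q := mul_comm _ _
    rw [div_le_iff₀ hq0]
    exact_mod_cast h2
  have hN2 : (N : ℝ) ≤ 3 * (X / q) := by
    have h1 : ((X / q : ℕ) : ℝ) ≤ X / q := Nat.cast_div_le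
    have h2 : 1 ≤ (X : ℝ) / q := by rw [le_div_iff₀ hq0]; linarith
    rw [hN]
    push_cast
    linarith
  have hlog : δ * Real.log X ≤ Real.log N := by
    have h1 : (X : ℝ) ^ δ ≤ N := by
      refine le_trans ?_ hN1
      rw [le_div_iff₀ hq0]
      calc (X : ℝ) ^ δ * q ≤ (X : ℝ) ^ δ * (X : ℝ) ^ (1 - δ) := mul_le_mul_of_nonneg_left hqX (by positivity)
        _ = X := by rw [← Real.rpow_add hX0]; norm_num
    rw [← Real.log_rpow hX0]
    exact Real.log_le_log (by positivity) h1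
  have key2 : 22 * ((q : ℝ) / q.totient) * N / Real.log N ≤ 66 / δ / (Nat.totient q * Real.log X) * X := by
    calc 22 * ((q : ℝ) / q.totient) * N / Real.log N ≤ 22 * ((q : ℝ) / q.totient) * (3 * (X / q)) / (δ * Real.log X) := by
          apply div_le_div₀ (by positivity) _ (by positivity) hlog
          exact mul_le_mul_of_nonneg_left hN2 (by positivity)
      _ = 66 / δ / (Nat.totient q * Real.log X) * X := by field_simp; ring
  unfold pcl E1
  rw [div_le_iff₀ hX0]
  exact key.trans key2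

lemma E1_cls (q a m : ℕ) {X : ℕ} (hX : 1 ≤ X) {z : ℝ} (hz : |z| ≤ 1) :
    E1 X (fun h => Real.exp (z * (ic q a (m + h) * pr m h))) ≤ Real.exp ((z + z ^ 2) * pcl q a X m) := by
  have h1 : ∀ h ∈ Icc 1 X, Real.exp (z * (ic q a (m + h) * pr m h)) ≤ 1 + (z + z ^ 2) * (ic q a (m + h) * pr m h) := by
    intro h _
    have h01 : ic q a (m + h) * pr m h = 0 ∨ ic q a (m + h) * pr m h = 1 := by
      unfold ic pr; split_ifs <;> simp
    rcases h01 with h0 | h0
    · rw [h0]; simp
    · rw [h0, mul_one, mul_one]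
      have := abs_le.1 (Real.abs_exp_sub_one_sub_id_le hz)
      linarith [this.2]
  refine (E1_mono h1).trans ?_
  rw [E1_add, E1_const hX, E1_const_mul]
  have := Real.add_one_le_exp ((z + z ^ 2) * pcl q a X m)
  unfold pcl at *
  linarith

lemma tail_cls (q a m : ℕ) {X K : ℕ} (hX : 1 ≤ X) {z s : ℝ} (hz : |z| ≤ 1) :
    PK X K (fun h => s ≤ z * (Ncl q a h m - K * pcl q a X m)) ≤ Real.exp (K * (z ^ 2 * pcl q a X m) - s) := by
  have g1 : PK X K (fun h => s ≤ z * (Ncl q a h m - K * pcl q a X m)) ≤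
      EK X K (fun h => Real.exp (-(z * (K * pcl q a X m)) - s) * ∏ i, Real.exp (z * (ic q a (m + h i) * pr m (h i)))) := by
    unfold PK
    apply EK_mono
    intro h _
    have e : Real.exp (-(z * (K * pcl q a X m)) - s) * ∏ i, Real.exp (z * (ic q a (m + h i) * pr m (h i))) =
        Real.exp (z * (Ncl q a h m - K * pcl q a X m) - s) := by
      rw [← Real.exp_sum, ← mul_sum, ← Real.exp_add]
      congr 1
      unfold Ncl
      ring
    rw [e]
    split_ifs with hc
    · exact Real.one_le_exp (by linarith)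
    · positivity
  refine g1.trans ?_
  rw [EK_const_mul, EK_prod X K (fun y => Real.exp (z * (ic q a (m + y) * pr m y)))]
  have hE := E1_cls q a m hX hz
  have hE0 : 0 ≤ E1 X (fun h => Real.exp (z * (ic q a (m + h) * pr m h))) := E1_nonneg (fun h _ => (Real.exp_pos _).le)
  calc Real.exp (-(z * (K * pcl q a X m)) - s) * E1 X (fun y => Real.exp (z * (ic q a (m + y) * pr m y))) ^ K ≤
        Real.exp (-(z * (K * pcl q a X m)) - s) * Real.exp ((z + z ^ 2) * pcl q a X m) ^ K :=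
        mul_le_mul_of_nonneg_left (pow_le_pow_left₀ hE0 hE K) (Real.exp_pos _).le
    _ = _ := by rw [← Real.exp_nat_mul, ← Real.exp_add]; congr 1; ring

lemma tail_cls' (q a m : ℕ) {X K : ℕ} {B : ℝ} (hB : 0 ≤ B) (hX : 2 ≤ X) (hq : 1 ≤ q)
    (hp : pcl q a X m ≤ B / (Nat.totient q * Real.log X)) {σ : ℝ} (hσ : σ = 1 ∨ σ = -1) :
    PK X K (fun h => (B + 4) * (Real.sqrt (K / Nat.totient q) + Real.log X) ≤ σ * (Ncl q a h m - K * pcl q a X m)) ≤
      Real.exp (-(4 * Real.log X)) := by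
  have hX2 : (2 : ℝ) ≤ X := by exact_mod_cast hX
  have hφ : (0 : ℝ) < Nat.totient q := by exact_mod_cast Nat.totient_pos.2 hq
  set L := Real.log (X : ℝ) with hL
  set S := Real.sqrt ((K : ℝ) / Nat.totient q) with hS
  have hL0 : 0 < L := Real.log_pos (by linarith)
  have hS0 : 0 ≤ S := Real.sqrt_nonneg _
  have hS2 : S ^ 2 = K / Nat.totient q := Real.sq_sqrt (by positivity)
  have hσa : |σ| = 1 := by rcases hσ with h | h <;> rw [h] <;> simp
  obtain ⟨z0, hz0, hz1, hz2, hz3⟩ : ∃ z0 : ℝ, 0 < z0 ∧ z0 ≤ 1 ∧ S ^ 2 * z0 ^ 2 ≤ L ^ 2 ∧ L ≤ z0 * (S + L) := by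
    rcases le_or_gt S L with h | h
    · exact ⟨1, one_pos, le_rfl, by nlinarith, by linarith⟩
    · have hS0' : 0 < S := by linarith
      refine ⟨L / S, by positivity, by rw [div_le_one hS0']; exact h.le, ?_, ?_⟩
      · apply le_of_eq; field_simp
      · rw [mul_add]
        have h5 : L / S * S = L := by field_simp
        rw [h5]
        have h6 : 0 ≤ L / S * L := by positivity
        linarith
  have hKp : K * (z0 ^ 2 * pcl q a X m) ≤ B * L := by
    calc K * (z0 ^ 2 * pcl q a X m) ≤ K * (z0 ^ 2 * (B / (Nat.totient q * L))) := by gcongr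
      _ = (S ^ 2 * z0 ^ 2) * (B / L) := by rw [hS2]; field_simp
      _ ≤ L ^ 2 * (B / L) := mul_le_mul_of_nonneg_right hz2 (by positivity)
      _ = B * L := by field_simp
  have h1 := tail_cls q a m (K := K) (by omega : 1 ≤ X) (z := σ * z0) (s := z0 * ((B + 4) * (S + L)))
    (by rw [abs_mul, hσa, one_mul, abs_of_pos hz0]; exact hz1)
  refine (PK_mono ?_).trans (h1.trans ?_)
  · intro h _ hh
    have h2 := mul_le_mul_of_nonneg_left hh hz0.le
    calc z0 * ((B + 4) * (S + L)) ≤ z0 * (σ * (Ncl q a h m - K * pcl q a X m)) := h2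
      _ = σ * z0 * (Ncl q a h m - K * pcl q a X m) := by ring
  · apply Real.exp_le_exp.2
    have e : (σ * z0) ^ 2 = z0 ^ 2 := by rcases hσ with h | h <;> rw [h] <;> ring
    rw [e]
    have h3 : (B + 4) * L ≤ z0 * ((B + 4) * (S + L)) := by
      have := mul_le_mul_of_nonneg_left hz3 (by linarith : 0 ≤ B + 4)
      linarith
    linarith

theorem uniform_cls (δ : ℝ) (hδ : 0 < δ) (θ : ℝ) (hθ : 0 < θ) : ∀ᶠ X : ℕ in atTop, ∀ K : ℕ,
    PK X K (fun h => ∃ q ∈ Icc 1 X, (q : ℝ) ≤ (X : ℝ) ^ (1 - δ) ∧ ∃ a ∈ range X, ∃ m ∈ Icc 1 X,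
      (66 / δ + 4) * (Real.sqrt (K / Nat.totient q) + Real.log X) ≤ |Ncl q a h m - K * pcl q a X m|) ≤ θ := by
  classical
  obtain ⟨n, hn⟩ := exists_nat_ge (2 / θ)
  filter_upwards [eventually_ge_atTop (n + 2)] with X hX K
  have hX2 : 2 ≤ X := by omega
  have hX0 : (0 : ℝ) < X := by exact_mod_cast (by omega : 0 < X)
  set J : Finset (ℕ × ℕ × ℕ × ℝ) := ((Icc 1 X).filter (fun q : ℕ => (q : ℝ) ≤ (X : ℝ) ^ (1 - δ))) ×ˢ (range X ×ˢ (Icc 1 X ×ˢ ({1, -1} : Finset ℝ))) with hJ
  refine (PK_mono (C := fun h => ∃ j ∈ J, (66 / δ + 4) * (Real.sqrt (K / Nat.totient j.1) + Real.log X) ≤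
    j.2.2.2 * (Ncl j.1 j.2.1 h j.2.2.1 - K * pcl j.1 j.2.1 X j.2.2.1)) ?_).trans ?_
  · rintro h _ ⟨q, hq, hqX, a, ha, m, hm, hb⟩
    rcases le_abs.1 hb with h1 | h1
    · refine ⟨(q, a, m, 1), ?_, ?_⟩
      · rw [hJ]
        simp only [mem_product, mem_filter, mem_insert, mem_singleton]
        exact ⟨⟨hq, hqX⟩, ha, hm, Or.inl trivial⟩
      · simp only [one_mul]; exact h1
    · refine ⟨(q, a, m, -1), ?_, ?_⟩
      · rw [hJ]
        simp only [mem_product, mem_filter, mem_insert, mem_singleton]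
        exact ⟨⟨hq, hqX⟩, ha, hm, Or.inr trivial⟩
      · simp only [neg_mul, one_mul]; exact h1
  · refine (PK_exists J (fun j h => (66 / δ + 4) * (Real.sqrt (K / Nat.totient j.1) + Real.log X) ≤
      j.2.2.2 * (Ncl j.1 j.2.1 h j.2.2.1 - K * pcl j.1 j.2.1 X j.2.2.1))).trans ?_
    have h1 : ∀ j ∈ J, PK X K (fun h => (66 / δ + 4) * (Real.sqrt (K / Nat.totient j.1) + Real.log X) ≤
        j.2.2.2 * (Ncl j.1 j.2.1 h j.2.2.1 - K * pcl j.1 j.2.1 X j.2.2.1)) ≤ Real.exp (-(4 * Real.log X)) := by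
      rintro ⟨q, a, m, σ⟩ hj
      rw [hJ] at hj
      simp only [mem_product, mem_filter, mem_insert, mem_singleton] at hj
      obtain ⟨⟨hq, hqX⟩, ha, hm, hσ⟩ := hj
      have hq1 := (mem_Icc.1 hq).1
      exact tail_cls' q a m (by positivity) hX2 hq1 (pcl_le q a X m δ hδ hq1 hX2 hqX) hσ
    refine (sum_le_sum h1).trans ?_
    rw [sum_const, nsmul_eq_mul]
    have hcard : (J.card : ℝ) ≤ 2 * (X : ℝ) ^ 3 := by
      have h2 : J.card ≤ X * (X * (X * 2)) := by
        rw [hJ, card_product, card_product, card_product, card_range, Nat.card_Icc, Nat.add_sub_cancel]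
        have h3 : ((Icc 1 X).filter (fun q : ℕ => (q : ℝ) ≤ (X : ℝ) ^ (1 - δ))).card ≤ X := by
          refine (card_filter_le _ _).trans ?_
          rw [Nat.card_Icc, Nat.add_sub_cancel]
        have h4 : ({1, -1} : Finset ℝ).card ≤ 2 := card_le_two
        exact Nat.mul_le_mul h3 (Nat.mul_le_mul_left _ (Nat.mul_le_mul_left _ h4))
      have h3 : (J.card : ℝ) ≤ X * (X * (X * 2)) := by exact_mod_cast h2
      calc (J.card : ℝ) ≤ X * (X * (X * 2)) := h3
        _ = _ := by ring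
    have he : Real.exp (-(4 * Real.log X)) = 1 / (X : ℝ) ^ 4 := by
      rw [Real.exp_neg, one_div]
      congr 1
      rw [show (4 : ℝ) * Real.log X = ((4 : ℕ) : ℝ) * Real.log X by norm_num, Real.exp_nat_mul, Real.exp_log hX0]
    rw [he]
    have hnX : 2 / θ ≤ X := by
      have : (n : ℝ) ≤ X := by exact_mod_cast (by omega : n ≤ X)
      linarith
    rw [div_le_iff₀ hθ] at hnX
    calc (J.card : ℝ) * (1 / (X : ℝ) ^ 4) ≤ 2 * (X : ℝ) ^ 3 * (1 / (X : ℝ) ^ 4) := mul_le_mul_of_nonneg_right hcard (by positivity)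
      _ = 2 / X := by field_simp
      _ ≤ θ := by rw [div_le_iff₀ hX0]; linarith

end Pool.Agent.N735.CL
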