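import Mathlib
import Pool.Agent.N735.CL.Cl6

set_option autoImplicit false
set_option maxHeartbeats 2000000

/-! The primes of the residue classes in the windows, with a stronger error term. -/

namespace Pool.Agent.N735.CL

open Finset Filter Topology
open Pool.Agent.H373R2.T7

lemma ap_piA (q : ℕ) (hq : 1 ≤ q) (A : ℕ) : ∃ x0 : ℕ, ∀ x : ℕ, x0 ≤ x → ∀ a ∈ Cq q,
    |H343E.piAP x q a - H343E.pi1 x / (Nat.totient q : ℝ)| ≤ x / Real.log x ^ A := by
  classical
  obtain ⟨B, x0, h⟩ := H343E.primes_of A (H343E.unsmoothed (A + 2))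
  obtain ⟨n1, h1⟩ := ev_log' (B + 2) 1
  obtain ⟨n2, h2⟩ := ev_L' ((q : ℝ) ^ 2 + 1)
  refine ⟨max (max x0 n1) (max n2 3), fun x hx a ha => ?_⟩
  have b1 := le_trans (le_trans (le_max_left _ _) (le_max_left _ _)) hx
  have b2 := le_trans (le_trans (le_max_right _ _) (le_max_left _ _)) hx
  have b3 := le_trans (le_trans (le_max_left _ _) (le_max_right _ _)) hx
  have b4 := le_trans (le_trans (le_max_right _ _) (le_max_right _ _)) hx
  have a1 := h1 x b2
  have a2 := h2 x b3
  rw [one_mul] at a1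
  set L := Real.log (x : ℝ) with hL
  have hqr : (1 : ℝ) ≤ q := by exact_mod_cast hq
  have hq2 : (0 : ℝ) ≤ (q : ℝ) ^ 2 := by positivity
  have hL1 : 1 ≤ L := by linarith
  have hL0 : 0 < L := by linarith
  have hx0 : (0 : ℝ) < x := by exact_mod_cast (by omega : 0 < x)
  have hss : √(x : ℝ) * √(x : ℝ) = x := Real.mul_self_sqrt hx0.le
  have hs1 : 1 ≤ √(x : ℝ) := (one_le_pow₀ hL1).trans a1
  have hqB : (q : ℝ) ^ 2 ≤ x / L ^ B := by
    rw [le_div_iff₀ (by positivity)]
    calc (q : ℝ) ^ 2 * L ^ B ≤ L * L ^ B := mul_le_mul_of_nonneg_right (by linarith) (by positivity)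
      _ = L ^ (B + 1) := by ring
      _ ≤ L ^ (B + 2) := pow_le_pow_right₀ hL1 (by omega)
      _ ≤ √(x : ℝ) := a1
      _ ≤ √(x : ℝ) * √(x : ℝ) := le_mul_of_one_le_left (by linarith) hs1
      _ = x := hss
  have hqB' : (q : ℝ) ≤ x / L ^ B := le_trans (le_self_pow₀ hqr (by norm_num)) hqB
  have ha' := mem_filter.1 ha
  have key := h x b1 1 le_rfl q hqB' (by rw [one_mul]; exact hqB) (fun q' => if q' = q then {a} else ∅) ⟨by
    intro q' b hb
    by_cases hqq : q' = q
    · subst hqq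
      simp only [if_true, mem_singleton] at hb
      subst hb
      exact ⟨mem_range.1 ha'.1, ha'.2⟩
    · simp [hqq] at hb, by
    intro q'
    by_cases hqq : q' = q
    · simp [hqq]
    · simp [hqq]⟩
  have h3 : |H343E.piAP x q a - H343E.pi1 x / (Nat.totient q : ℝ)| ≤ ∑ q' ∈ Icc 1 q, ∑ b ∈ (if q' = q then ({a} : Finset ℕ) else ∅),
      |H343E.piAP x q' b - H343E.pi1 x / (Nat.totient q' : ℝ)| := by
    have h4 := single_le_sum (f := fun q' => ∑ b ∈ (if q' = q then ({a} : Finset ℕ) else ∅), |H343E.piAP x q' b - H343E.pi1 x / (Nat.totient q' : ℝ)|)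
      (fun i _ => sum_nonneg (fun _ _ => abs_nonneg _)) (mem_Icc.2 ⟨hq, le_rfl⟩ : q ∈ Icc 1 q)
    simpa using h4
  refine h3.trans (key.trans (le_of_eq ?_))
  rw [one_mul]

/-- the primes of a reduced class in the windows -/
theorem win_classA (q : ℕ) (hq : 1 ≤ q) (A : ℕ) : ∀ᶠ X : ℕ in atTop, ∀ a ∈ Cq q, ∀ m : ℕ, m ≤ X →
    |E1 X (fun h => ic q a (m + h) * pr m h) - E1 X (pr m) / Nat.totient q| ≤ 1 / Real.log X ^ A := by
  obtain ⟨x0, h0⟩ := ap_piA q hq (A + 1)
  have hφ1 : (1 : ℝ) ≤ Nat.totient q := by exact_mod_cast Nat.totient_pos.2 hq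
  set φ := (Nat.totient q : ℝ) with hφ
  have hφ0 : 0 < φ := by linarith
  filter_upwards [eventually_ge_atTop (4 + x0 ^ 2), tends_log.eventually_ge_atTop (2 ^ (A + 3) : ℝ),
    ev_small (1 / 2) (1 / 2) (by norm_num) (by norm_num) A] with X h2 h3 h4 a ha m hm
  have hX4 : 4 ≤ X := by omega
  have hX0 : (0 : ℝ) < X := by exact_mod_cast (by omega : 0 < X)
  set L := Real.log (X : ℝ) with hL
  have hL1 : 1 ≤ L := (one_le_pow₀ (by norm_num : (1 : ℝ) ≤ 2)).trans h3
  have hL0 : 0 < L := by linarith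
  have hLA : 0 < L ^ A := by positivity
  have hs0 : 0 < (X : ℝ) ^ (1 / 2 : ℝ) := Real.rpow_pos_of_pos hX0 _
  have h4' : L ^ A * (X : ℝ) ^ (1 / 2 : ℝ) ≤ 1 / 2 * X := by
    have e : (1 : ℝ) - 1 / 2 = 1 / 2 := by norm_num
    rw [e] at h4
    exact h4
  -- the error at one point
  have herr : ∀ y : ℕ, y ≤ 2 * X → L ^ A * |H343E.piAP y q a - H343E.pi1 y / φ| ≤ 1 / 2 * X := by
    intro y hy
    have hyr : (y : ℝ) ≤ 2 * X := by exact_mod_cast hy
    rcases le_or_gt ((X : ℝ) ^ (1 / 2 : ℝ)) y with hs | hs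
    · have hyx0 : x0 ≤ y := by
        have h5 : (x0 : ℝ) ≤ (X : ℝ) ^ (1 / 2 : ℝ) := by
          have h6 : (x0 : ℝ) ^ 2 ≤ X := by exact_mod_cast (by omega : x0 ^ 2 ≤ X)
          have h7 := Real.rpow_le_rpow (by positivity) h6 (show (0 : ℝ) ≤ 1 / 2 by norm_num)
          rw [← Real.sqrt_eq_rpow, Real.sqrt_sq (Nat.cast_nonneg _)] at h7
          exact h7
        exact_mod_cast h5.trans hs
      have h5 := h0 y hyx0 a ha
      have hlog : L / 2 ≤ Real.log y := by
        have := Real.log_le_log hs0 hs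
        rw [Real.log_rpow hX0] at this
        linarith
      have h6 : (y : ℝ) / Real.log y ^ (A + 1) ≤ (2 * X) / (L / 2) ^ (A + 1) := by
        have h7 : (L / 2) ^ (A + 1) ≤ Real.log y ^ (A + 1) := pow_le_pow_left₀ (by positivity) hlog _
        exact div_le_div₀ (by positivity) hyr (by positivity) h7
      calc L ^ A * |H343E.piAP y q a - H343E.pi1 y / φ| ≤ L ^ A * ((2 * X) / (L / 2) ^ (A + 1)) := mul_le_mul_of_nonneg_left (h5.trans h6) hLA.le
        _ = 2 ^ (A + 2) * X / L := by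
            rw [div_pow, pow_succ L A]
            field_simp
            ring
        _ ≤ 1 / 2 * X := by
            rw [div_le_iff₀ hL0]
            have e : (2 : ℝ) ^ (A + 3) = 2 * 2 ^ (A + 2) := by ring
            rw [e] at h3
            have h8 : 2 * 2 ^ (A + 2) * X ≤ L * X := mul_le_mul_of_nonneg_right h3 hX0.le
            linarith
    · have h5 : |H343E.piAP y q a - H343E.pi1 y / φ| ≤ y := by
        have a1 := piAP_le y q a
        have a2 := pi1_le y
        have a3 : 0 ≤ H343E.piAP y q a := by unfold H343E.piAP; positivity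
        have a4 : 0 ≤ H343E.pi1 y := by unfold H343E.pi1; positivity
        have a5 : H343E.pi1 y / φ ≤ y := (div_le_self a4 hφ1).trans a2
        have a6 : 0 ≤ H343E.pi1 y / φ := by positivity
        rw [abs_le]; constructor <;> linarith
      calc L ^ A * |H343E.piAP y q a - H343E.pi1 y / φ| ≤ L ^ A * (X : ℝ) ^ (1 / 2 : ℝ) := mul_le_mul_of_nonneg_left (h5.trans hs.le) hLA.le
        _ ≤ 1 / 2 * X := h4'
  have e1 : E1 X (fun h => ic q a (m + h) * pr m h) = (H343E.piAP (m + X) q a - H343E.piAP m q a) / X := by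
    unfold E1; rw [sum_icpr]
  have e2 : E1 X (pr m) = (H343E.pi1 (m + X) - H343E.pi1 m) / X := by
    unfold E1; rw [sum_pr1]
  have g1 := herr (m + X) (by omega)
  have g2 := herr m (by omega)
  have e3 : E1 X (fun h => ic q a (m + h) * pr m h) - E1 X (pr m) / φ =
      ((H343E.piAP (m + X) q a - H343E.pi1 (m + X) / φ) - (H343E.piAP m q a - H343E.pi1 m / φ)) / X := by
    rw [e1, e2]; field_simp; ring
  rw [e3, abs_div, abs_of_pos hX0, div_le_div_iff₀ hX0 hLA, one_mul]
  have h9 := abs_sub (H343E.piAP (m + X) q a - H343E.pi1 (m + X) / φ) (H343E.piAP m q a - H343E.pi1 m / φ)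
  have h10 := mul_le_mul_of_nonneg_left h9 hLA.le
  rw [mul_add] at h10
  linarith

/-- functions with the mean value `0` over the reduced classes -/
theorem win_zero {q : ℕ} (hq : 1 ≤ q) {c : ℕ → ℝ} (hper : ∀ m h, q ∣ m → c (m + h) = c h) (hc : ∀ n, |c n| ≤ 1)
    (h0 : ∑ a ∈ Cq q, c a = 0) (A : ℕ) :
    ∀ᶠ X : ℕ in atTop, ∀ m : ℕ, m ≤ X → |Bc c X m| ≤ 2 * q / Real.log X ^ A := by
  have hqr : (1 : ℝ) ≤ q := by exact_mod_cast hq
  have hq0 : (0 : ℝ) < q := by linarith
  filter_upwards [win_classA q hq A, ev_small 1 1 one_pos one_pos A, eventually_ge_atTop 3] with X h1 h2 hX1 m hm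
  have hX3 : (3 : ℝ) ≤ X := by exact_mod_cast hX1
  have hX0 : (0 : ℝ) < X := by linarith
  set L := Real.log (X : ℝ) with hL
  have hL0 : 0 < L := Real.log_pos (by linarith)
  have hLA : 0 < L ^ A := by positivity
  have hdec : |Bc c X m - ∑ a ∈ Cq q, c a * E1 X (fun h => ic q a (m + h) * pr m h)| ≤ q / X := by
    have e : Bc c X m - ∑ a ∈ Cq q, c a * E1 X (fun h => ic q a (m + h) * pr m h) =
        E1 X (fun h => c (m + h) * pr m h - ∑ a ∈ Cq q, c a * (ic q a (m + h) * pr m h)) := by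
      unfold Bc cp E1
      rw [sum_sub_distrib, sub_div]
      congr 1
      rw [sum_comm, sum_div]
      apply sum_congr rfl
      intro a _
      rw [← mul_sum, mul_div_assoc]
    rw [e]
    refine (E1_abs _ (nq q m) (fun h _ => decomp hq hper hc m h)).trans ?_
    unfold E1
    exact div_le_div_of_nonneg_right (sum_nq hq X m) hX0.le
  have hsum : |∑ a ∈ Cq q, c a * E1 X (fun h => ic q a (m + h) * pr m h)| ≤ q / L ^ A := by
    have e : ∑ a ∈ Cq q, c a * E1 X (fun h => ic q a (m + h) * pr m h) =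
        ∑ a ∈ Cq q, c a * (E1 X (fun h => ic q a (m + h) * pr m h) - E1 X (pr m) / Nat.totient q) := by
      have e2 : ∑ a ∈ Cq q, c a * (E1 X (fun h => ic q a (m + h) * pr m h) - E1 X (pr m) / Nat.totient q) =
          ∑ a ∈ Cq q, c a * E1 X (fun h => ic q a (m + h) * pr m h) - (∑ a ∈ Cq q, c a) * (E1 X (pr m) / Nat.totient q) := by
        rw [sum_mul, ← sum_sub_distrib]
        apply sum_congr rfl
        intro a _
        ring
      rw [e2, h0, zero_mul, sub_zero]
    rw [e]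
    refine (abs_sum_le_sum_abs _ _).trans ?_
    have h3 : ∀ a ∈ Cq q, |c a * (E1 X (fun h => ic q a (m + h) * pr m h) - E1 X (pr m) / Nat.totient q)| ≤ 1 / L ^ A := by
      intro a ha
      rw [abs_mul]
      calc |c a| * |E1 X (fun h => ic q a (m + h) * pr m h) - E1 X (pr m) / Nat.totient q| ≤ 1 * (1 / L ^ A) :=
            mul_le_mul (hc a) (h1 a ha m hm) (abs_nonneg _) (by norm_num)
        _ = _ := one_mul _
    refine (sum_le_sum h3).trans ?_
    rw [sum_const, nsmul_eq_mul]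
    have h4 : ((Cq q).card : ℝ) ≤ q := by
      have : (Cq q).card ≤ q := by
        unfold Cq
        exact (card_filter_le _ _).trans (by simp)
      exact_mod_cast this
    calc ((Cq q).card : ℝ) * (1 / L ^ A) ≤ q * (1 / L ^ A) := mul_le_mul_of_nonneg_right h4 (by positivity)
      _ = q / L ^ A := by ring
  have h5 : (q : ℝ) / X ≤ q / L ^ A := by
    have h2' : L ^ A ≤ X := by simpa using h2
    exact div_le_div_of_nonneg_left hq0.le hLA h2'
  have e : Bc c X m = (Bc c X m - ∑ a ∈ Cq q, c a * E1 X (fun h => ic q a (m + h) * pr m h)) +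
      ∑ a ∈ Cq q, c a * E1 X (fun h => ic q a (m + h) * pr m h) := by ring
  rw [e]
  refine (abs_add_le _ _).trans ?_
  have e2 : 2 * (q : ℝ) / L ^ A = q / L ^ A + q / L ^ A := by ring
  rw [e2]
  linarith

lemma PK_not {X K : ℕ} (hX : 1 ≤ X) (B : (Fin K → ℕ) → Prop) : PK X K B + PK X K (fun v => ¬ B v) = 1 := by
  unfold PK
  rw [← EK_add]
  refine (EK_congr (Ψ := fun _ => (1 : ℝ)) ?_).trans (EK_const hX 1)
  intro v _
  by_cases h : B v <;> simp [h]

end Pool.Agent.N735.CL
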