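import Mathlib
import Pool.Agent.N735.CL.Kf1

set_option autoImplicit false
set_option maxHeartbeats 2000000

/-! The translates with exactly `s` primes: the mean values and the correlations. -/

namespace Pool.Agent.N735.CL

open Finset Filter Topology
open Pool.Agent.H646 (rat)

/-- the weighted indicator function of exactly `s` primes -/
noncomputable def Hs (w X s j : ℕ) {K : ℕ} (h : Fin K → ℕ) : ℝ := Fh w 0 X h * (if Nm h (Ww w * j) = s then 1 else 0)

/-- the weight of one coordinate -/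
noncomputable def wc (w X v : ℕ) : ℝ := wt (Ww w) (ll w 0 X) (gam w X) v

lemma Hs_sum (w X s j : ℕ) {K : ℕ} (h : Fin K → ℕ) :
    Hs w X s j h = ∑ A ∈ powersetCard s (univ : Finset (Fin K)), ∏ v, (wc w X (h v) * xf A (Ww w * j) v (h v)) := by
  unfold Hs Fh
  rw [← sum_xf s (Ww w * j) h, mul_sum]
  apply sum_congr rfl
  intro A _
  rw [← prod_mul_distrib]
  rfl

section

variable {X : ℕ} (hX : 1 ≤ X) (w : ℕ) {j : ℕ} (hj : 0 < j)

include hj in
lemma wc_pr {a : ℕ} (ha : 0 < a) : wc w X a * pr (Ww w * j) a = rX w 0 X * pr (Ww w * j) a := by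
  have h1 := pr_cf (Ww_pos w) (dvd_mul_right (Ww w) j) (Nat.mul_pos (Ww_pos w) hj) ha
  unfold wc wt rX rr
  linear_combination (ll w 0 X) * h1

include hj in
lemma E1_wpr : E1 X (fun a => wc w X a * pr (Ww w * j) a) = rX w 0 X * ej w X j := by
  rw [E1_congr (g := fun a => rX w 0 X * pr (Ww w * j) a) (fun a ha => wc_pr w hj (mem_Icc.1 ha).1), E1_const_mul]
  rfl

include hX hj in
lemma E1_wnpr : E1 X (fun a => wc w X a * (1 - pr (Ww w * j) a)) = aj w 0 X j := by
  rw [← aj_eq hX w 0 hj]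
  apply E1_congr
  intro a _
  unfold gw wc
  rw [tf_eq]; ring

include hj in
lemma E1_w2pr : E1 X (fun a => wc w X a ^ 2 * pr (Ww w * j) a) = rX w 0 X ^ 2 * ej w X j := by
  have h : ∀ a ∈ Icc 1 X, wc w X a ^ 2 * pr (Ww w * j) a = rX w 0 X ^ 2 * pr (Ww w * j) a := by
    intro a ha
    have h1 := wc_pr (X := X) w hj (mem_Icc.1 ha).1
    linear_combination (wc w X a + rX w 0 X) * h1
  rw [E1_congr h, E1_const_mul]
  rfl

include hX hj in
lemma E1_w2npr : E1 X (fun a => wc w X a ^ 2 * (1 - pr (Ww w * j) a)) =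
    1 + ll w 0 X ^ 2 * gam w X * (1 - gam w X) + (0 - 1) * rX w 0 X ^ 2 * ej w X j := by
  have h := E1_g2 hX (Ww_pos w) (dvd_mul_right (Ww w) j) (Nat.mul_pos (Ww_pos w) hj) 0 (ll w 0 X)
  refine Eq.trans ?_ h
  apply E1_congr
  intro a _
  unfold wc gam
  rw [tf_eq]; ring

include hj in
lemma E1_w2pp (i : ℕ) : E1 X (fun a => wc w X a ^ 2 * (pr (Ww w * j) a * pr (Ww w * i) a)) =
    rX w 0 X ^ 2 * E1 X (fun a => pr (Ww w * j) a * pr (Ww w * i) a) := by
  rw [← E1_const_mul]
  apply E1_congr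
  intro a ha
  have h1 := wc_pr (X := X) w hj (mem_Icc.1 ha).1
  linear_combination ((wc w X a + rX w 0 X) * pr (Ww w * i) a) * h1

include hX hj in
/-- the mean value -/
lemma EK_Hs (s K : ℕ) : EK X K (fun h => Hs w X s j h) =
    K.choose s * ((rX w 0 X * ej w X j) ^ s * aj w 0 X j ^ (K - s)) := by
  classical
  rw [EK_congr (fun h _ => Hs_sum w X s j h), EK_sum]
  have h1 : ∀ A ∈ powersetCard s (univ : Finset (Fin K)), EK X K (fun h => ∏ v, (wc w X (h v) * xf A (Ww w * j) v (h v))) =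
      (rX w 0 X * ej w X j) ^ s * aj w 0 X j ^ (K - s) := by
    intro A hA
    rw [mem_powersetCard] at hA
    rw [EK_prod' X K (fun v a => wc w X a * xf A (Ww w * j) v a)]
    have h2 : ∀ v : Fin K, E1 X (fun a => wc w X a * xf A (Ww w * j) v a) = if v ∈ A then rX w 0 X * ej w X j else aj w 0 X j := by
      intro v
      unfold xf
      by_cases hv : v ∈ A
      · simp only [hv, if_true]
        exact E1_wpr w hj
      · simp only [hv, if_false]
        exact E1_wnpr hX w hj
    rw [prod_congr rfl (fun v _ => h2 v), prod_mem_ite, hA.2]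
  rw [sum_congr rfl h1, sum_const, nsmul_eq_mul, card_powersetCard, card_univ, Fintype.card_fin]

include hX hj in
/-- the diagonal -/
lemma EK_Hs2 (s K : ℕ) : EK X K (fun h => Hs w X s j h * Hs w X s j h) =
    K.choose s * ((rX w 0 X ^ 2 * ej w X j) ^ s * (1 + ll w 0 X ^ 2 * gam w X * (1 - gam w X) + (0 - 1) * rX w 0 X ^ 2 * ej w X j) ^ (K - s)) := by
  classical
  have h0 : ∀ h ∈ Om X K, Hs w X s j h * Hs w X s j h = ∑ A ∈ powersetCard s (univ : Finset (Fin K)), ∏ v, (wc w X (h v) ^ 2 * xf A (Ww w * j) v (h v)) := by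
    intro h _
    have e : Hs w X s j h * Hs w X s j h = (∏ v, wc w X (h v) ^ 2) * (if Nm h (Ww w * j) = s then 1 else 0) := by
      unfold Hs
      have : Fh w 0 X h = ∏ v, wc w X (h v) := rfl
      rw [this, prod_pow]
      split_ifs <;> ring
    rw [e, ← sum_xf s (Ww w * j) h, mul_sum]
    apply sum_congr rfl
    intro A _
    rw [← prod_mul_distrib]
  rw [EK_congr h0, EK_sum]
  have h1 : ∀ A ∈ powersetCard s (univ : Finset (Fin K)), EK X K (fun h => ∏ v, (wc w X (h v) ^ 2 * xf A (Ww w * j) v (h v))) =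
      (rX w 0 X ^ 2 * ej w X j) ^ s * (1 + ll w 0 X ^ 2 * gam w X * (1 - gam w X) + (0 - 1) * rX w 0 X ^ 2 * ej w X j) ^ (K - s) := by
    intro A hA
    rw [mem_powersetCard] at hA
    rw [EK_prod' X K (fun v a => wc w X a ^ 2 * xf A (Ww w * j) v a)]
    have h2 : ∀ v : Fin K, E1 X (fun a => wc w X a ^ 2 * xf A (Ww w * j) v a) = if v ∈ A then rX w 0 X ^ 2 * ej w X j else
        (1 + ll w 0 X ^ 2 * gam w X * (1 - gam w X) + (0 - 1) * rX w 0 X ^ 2 * ej w X j) := by
      intro v
      unfold xf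
      by_cases hv : v ∈ A
      · simp only [hv, if_true]
        exact E1_w2pr w hj
      · simp only [hv, if_false]
        exact E1_w2npr hX w hj
    rw [prod_congr rfl (fun v _ => h2 v), prod_mem_ite, hA.2]
  rw [sum_congr rfl h1, sum_const, nsmul_eq_mul, card_powersetCard, card_univ, Fintype.card_fin]

include hj in
/-- the correlations -/
lemma EK_HH {i : ℕ} (hi : 0 < i) (s K : ℕ) (hs : s ≤ K) (hK : 0 < K) (hg : 0 < gg w 0 X i j) (hr : 0 < rX w 0 X) (hei : 0 < ej w X i) (hej : 0 < ej w X j) :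
    EK X K (fun h => Hs w X s i h * Hs w X s j h) ≤
      (K.choose s : ℝ) ^ 2 * (gg w 0 X i j ^ K * (rX w 0 X ^ 2 * ej w X i / gg w 0 X i j) ^ s * (rX w 0 X ^ 2 * ej w X j / gg w 0 X i j) ^ s *
        (1 + E1 X (fun a => pr (Ww w * i) a * pr (Ww w * j) a) * gg w 0 X i j / (rX w 0 X ^ 2 * ej w X i * ej w X j) * ((s : ℝ) / K)) ^ s) := by
  classical
  set g := gg w 0 X i j with hgd
  set r := rX w 0 X with hrd
  set p := ej w X i with hp
  set p' := ej w X j with hp'
  set q := E1 X (fun a => pr (Ww w * i) a * pr (Ww w * j) a) with hq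
  have hq0 : 0 ≤ q := E1_nonneg (fun a _ => mul_nonneg (pr_nonneg _ _) (pr_nonneg _ _))
  set ρ := q * g / (r ^ 2 * p * p') with hρ
  have hρ0 : 0 ≤ ρ := by positivity
  have h0 : ∀ h ∈ Om X K, Hs w X s i h * Hs w X s j h = ∑ A ∈ powersetCard s (univ : Finset (Fin K)), ∑ B ∈ powersetCard s (univ : Finset (Fin K)),
      ∏ v, (wc w X (h v) ^ 2 * (xf A (Ww w * i) v (h v) * xf B (Ww w * j) v (h v))) := by
    intro h _
    rw [Hs_sum, Hs_sum, sum_mul_sum]
    apply sum_congr rfl
    intro A _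
    apply sum_congr rfl
    intro B _
    rw [← prod_mul_distrib]
    apply prod_congr rfl
    intro v _
    ring
  rw [EK_congr h0, EK_sum]
  have hxf1 : ∀ (A : Finset (Fin K)) (m : ℕ) (v : Fin K) (a : ℕ), xf A m v a ≤ 1 := by
    intro A m v a
    unfold xf
    have := pr_nonneg m a
    have := pr_le_one m a
    split_ifs <;> linarith
  have hxf0 : ∀ (A : Finset (Fin K)) (m : ℕ) (v : Fin K) (a : ℕ), 0 ≤ xf A m v a := by
    intro A m v a
    unfold xf
    have := pr_nonneg m a
    have := pr_le_one m a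
    split_ifs <;> linarith
  have hcoord : ∀ (A B : Finset (Fin K)) (v : Fin K), E1 X (fun a => wc w X a ^ 2 * (xf A (Ww w * i) v a * xf B (Ww w * j) v a)) ≤
      g * (if v ∈ A then r ^ 2 * p / g else 1) * (if v ∈ B then r ^ 2 * p' / g else 1) * (if v ∈ A ∩ B then ρ else 1) := by
    intro A B v
    by_cases h1 : v ∈ A <;> by_cases h2 : v ∈ B
    · have h3 : v ∈ A ∩ B := mem_inter.2 ⟨h1, h2⟩
      rw [if_pos h1, if_pos h2, if_pos h3]
      have e : E1 X (fun a => wc w X a ^ 2 * (xf A (Ww w * i) v a * xf B (Ww w * j) v a)) = r ^ 2 * q := by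
        rw [hq, hrd, ← E1_w2pp (X := X) w hi j]
        apply E1_congr
        intro a _
        unfold xf
        rw [if_pos h1, if_pos h2]
      rw [e, hρ]
      apply le_of_eq
      field_simp
    · have h3 : v ∉ A ∩ B := fun h => h2 (mem_inter.1 h).2
      rw [if_pos h1, if_neg h2, if_neg h3]
      have e : E1 X (fun a => wc w X a ^ 2 * (xf A (Ww w * i) v a * xf B (Ww w * j) v a)) ≤ r ^ 2 * p := by
        rw [hp, hrd, ← E1_w2pr (X := X) w hi]
        apply E1_mono
        intro a _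
        apply mul_le_mul_of_nonneg_left _ (sq_nonneg _)
        have e1 : xf A (Ww w * i) v a = pr (Ww w * i) a := by unfold xf; rw [if_pos h1]
        rw [e1]
        exact mul_le_of_le_one_right (pr_nonneg _ _) (hxf1 _ _ _ _)
      refine e.trans (le_of_eq ?_)
      field_simp
    · have h3 : v ∉ A ∩ B := fun h => h1 (mem_inter.1 h).1
      rw [if_neg h1, if_pos h2, if_neg h3]
      have e : E1 X (fun a => wc w X a ^ 2 * (xf A (Ww w * i) v a * xf B (Ww w * j) v a)) ≤ r ^ 2 * p' := by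
        rw [hp', hrd, ← E1_w2pr (X := X) w hj]
        apply E1_mono
        intro a _
        apply mul_le_mul_of_nonneg_left _ (sq_nonneg _)
        have e1 : xf B (Ww w * j) v a = pr (Ww w * j) a := by unfold xf; rw [if_pos h2]
        rw [e1]
        exact mul_le_of_le_one_left (pr_nonneg _ _) (hxf1 _ _ _ _)
      refine e.trans (le_of_eq ?_)
      field_simp
    · have h3 : v ∉ A ∩ B := fun h => h1 (mem_inter.1 h).1
      rw [if_neg h1, if_neg h2, if_neg h3]
      have e : E1 X (fun a => wc w X a ^ 2 * (xf A (Ww w * i) v a * xf B (Ww w * j) v a)) = g := by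
        rw [hgd]
        unfold gg
        apply E1_congr
        intro a _
        unfold xf gw wc
        rw [if_neg h1, if_neg h2, tf_eq, tf_eq]
        ring
      rw [e]
      apply le_of_eq
      ring
  have hAB : ∀ A ∈ powersetCard s (univ : Finset (Fin K)), ∀ B ∈ powersetCard s (univ : Finset (Fin K)),
      EK X K (fun h => ∏ v, (wc w X (h v) ^ 2 * (xf A (Ww w * i) v (h v) * xf B (Ww w * j) v (h v)))) ≤
        (g ^ K * (r ^ 2 * p / g) ^ s * (r ^ 2 * p' / g) ^ s) * ρ ^ (A ∩ B).card := by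
    intro A hA B hB
    rw [mem_powersetCard] at hA hB
    rw [EK_prod' X K (fun v a => wc w X a ^ 2 * (xf A (Ww w * i) v a * xf B (Ww w * j) v a))]
    have h1 : ∏ v : Fin K, E1 X (fun a => wc w X a ^ 2 * (xf A (Ww w * i) v a * xf B (Ww w * j) v a)) ≤
        ∏ v : Fin K, (g * (if v ∈ A then r ^ 2 * p / g else 1) * (if v ∈ B then r ^ 2 * p' / g else 1) * (if v ∈ A ∩ B then ρ else 1)) := by
      apply Finset.prod_le_prod
      · intro v _
        exact E1_nonneg (fun a _ => mul_nonneg (sq_nonneg _) (mul_nonneg (hxf0 _ _ _ _) (hxf0 _ _ _ _)))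
      · intro v _
        exact hcoord A B v
    refine h1.trans (le_of_eq ?_)
    rw [prod_mul_distrib, prod_mul_distrib, prod_mul_distrib, prod_const, card_univ, Fintype.card_fin,
      prod_mem_ite, prod_mem_ite, prod_mem_ite, hA.2, hB.2]
    simp
  have hsumA : ∀ A ∈ powersetCard s (univ : Finset (Fin K)),
      EK X K (fun h => ∑ B ∈ powersetCard s (univ : Finset (Fin K)), ∏ v, (wc w X (h v) ^ 2 * (xf A (Ww w * i) v (h v) * xf B (Ww w * j) v (h v)))) ≤
        (g ^ K * (r ^ 2 * p / g) ^ s * (r ^ 2 * p' / g) ^ s) * (K.choose s * (1 + ρ * ((s : ℝ) / K)) ^ s) := by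
    intro A hA
    rw [EK_sum]
    refine (sum_le_sum (fun B hB => hAB A hA B hB)).trans ?_
    rw [← mul_sum]
    apply mul_le_mul_of_nonneg_left _ (by positivity)
    exact sum_inter hs hK ρ hρ0 A (mem_powersetCard.1 hA).2
  refine (sum_le_sum hsumA).trans (le_of_eq ?_)
  rw [sum_const, nsmul_eq_mul, card_powersetCard, card_univ, Fintype.card_fin]
  ring

end

end Pool.Agent.N735.CL
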