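import Mathlib
import Pool.Agent.N735.CL.Kf2
import Pool.Agent.N735.CL.Gum

set_option autoImplicit false
set_option maxHeartbeats 4000000

/-! The translates with exactly `s` primes: the second moment. -/

namespace Pool.Agent.N735.CL

open Finset Filter Topology
open Pool.Agent.H646 (rat)

lemma ev_basic (w : ℕ) (δ : ℝ) (hδ : 0 < δ) (hδ1 : δ ≤ 1 / 10) : ∀ᶠ X : ℕ in atTop, |rX w 0 X - 1| ≤ δ ∧
    (∀ j ∈ Icc 1 (X / Ww w), 1 / (2 * Real.log X) ≤ ej w X j ∧ ej w X j ≤ 3 / (2 * Real.log X) ∧ 1 / 2 ≤ aj w 0 X j ∧ aj w 0 X j ≤ 1 ∧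
      1 / 2 ≤ 1 + ll w 0 X ^ 2 * gam w X * (1 - gam w X) + (0 - 1) * rX w 0 X ^ 2 * ej w X j) ∧
    (∀ i ∈ Icc 1 (X / Ww w), ∀ j ∈ Icc 1 (X / Ww w), |gg w 0 X i j - 1| ≤ δ) := by
  filter_upwards [ev_r w 0 δ hδ, eta_window (1 / 2) (by norm_num), ev_l w 0 (δ / 4) (by positivity), ev_gam w 1 one_pos,
    tends_log.eventually_ge_atTop (40 / δ + 1), eventually_ge_atTop 1] with X h1 h2 h3 h4 h5 hX
  have hq : 0 < 40 / δ := by positivity
  have hL0 : 0 < Real.log (X : ℝ) := by linarith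
  set L := Real.log (X : ℝ) with hL
  have hLδ : 40 ≤ δ * L := by
    have : 40 / δ ≤ L := by linarith
    rw [div_le_iff₀ hδ] at this
    linarith
  obtain ⟨r1, r2⟩ := abs_le.1 h1
  set r := rX w 0 X with hr
  have hr0 : 0 < r := by linarith
  have hr2 : r ^ 2 ≤ 4 / 3 := by nlinarith
  have hγ0 : 0 ≤ gam w X := le_trans (by positivity) h4.1
  have hγ1 := h4.2.2
  have hll : 0 ≤ ll w 0 X ^ 2 * gam w X * (1 - gam w X) := by
    have : 0 ≤ 1 - gam w X := by linarith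
    positivity
  have hll2 : ll w 0 X ^ 2 * gam w X * (1 - gam w X) ≤ δ / 4 := by
    have e1 : ll w 0 X ^ 2 ≤ δ / 4 := by
      have e2 : ll w 0 X ^ 2 = |ll w 0 X| * |ll w 0 X| := by rw [← sq, sq_abs]
      rw [e2]
      have := h3.1
      calc |ll w 0 X| * |ll w 0 X| ≤ (δ / 4) * 1 := mul_le_mul this (by linarith) (abs_nonneg _) (by positivity)
        _ = _ := by ring
    have e3 : gam w X * (1 - gam w X) ≤ 1 := by nlinarith
    calc ll w 0 X ^ 2 * gam w X * (1 - gam w X) = ll w 0 X ^ 2 * (gam w X * (1 - gam w X)) := by ring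
      _ ≤ ll w 0 X ^ 2 * 1 := mul_le_mul_of_nonneg_left e3 (sq_nonneg _)
      _ ≤ _ := by linarith
  have hej : ∀ j ∈ Icc 1 (X / Ww w), 1 / (2 * L) ≤ ej w X j ∧ ej w X j ≤ 3 / (2 * L) ∧ ej w X j ≤ δ / 16 := by
    intro j hj
    have h6 := abs_le.1 (h2 _ (mul_div_le' w X j hj))
    have e : E1 X (pr (Ww w * j)) = ej w X j := rfl
    rw [e] at h6
    have g2 : ej w X j ≤ 3 / (2 * L) := by rw [le_div_iff₀ (by positivity)]; linarith
    refine ⟨?_, g2, g2.trans ?_⟩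
    · rw [div_le_iff₀ (by positivity)]; linarith
    · rw [div_le_iff₀ (by positivity)]; linarith
  refine ⟨h1, ?_, ?_⟩
  · intro j hj
    obtain ⟨g1, g2, g3⟩ := hej j hj
    have g0 : 0 ≤ ej w X j := ej_nonneg w X j
    have g4 : r * ej w X j ≤ 1 / 10 := by nlinarith
    have g5 : r ^ 2 * ej w X j ≤ 1 / 10 := by nlinarith
    refine ⟨g1, g2, ?_, ?_, ?_⟩
    · unfold aj; rw [← hr]; linarith
    · unfold aj
      rw [← hr]
      have : 0 ≤ r * ej w X j := by positivity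
      linarith
    · linarith
  · intro i hi j hj
    obtain ⟨g1, g2, g3⟩ := hej j hj
    obtain ⟨f1, f2, f3⟩ := hej i hi
    have g0 : 0 ≤ ej w X j := ej_nonneg w X j
    have f0 : 0 ≤ ej w X i := ej_nonneg w X i
    rw [gg_eq hX w 0 (mem_Icc.1 hi).1 (mem_Icc.1 hj).1, ← hr]
    set q := E1 X (fun h => pr (Ww w * i) h * pr (Ww w * j) h) with hq
    have hq0 : 0 ≤ q := E1_nonneg (fun a _ => mul_nonneg (pr_nonneg _ _) (pr_nonneg _ _))
    have hq1 : q ≤ ej w X i := by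
      apply E1_mono
      intro a _
      exact mul_le_of_le_one_right (pr_nonneg _ _) (pr_le_one _ _)
    have k1 : r ^ 2 * (ej w X i + ej w X j) ≤ δ / 4 := by
      calc r ^ 2 * (ej w X i + ej w X j) ≤ (4 / 3) * (δ / 16 + δ / 16) := mul_le_mul hr2 (by linarith) (by positivity) (by norm_num)
        _ ≤ _ := by linarith
    have k2 : r ^ 2 * q ≤ δ / 4 := by
      calc r ^ 2 * q ≤ (4 / 3) * (δ / 16) := mul_le_mul hr2 (by linarith) hq0 (by norm_num)
        _ ≤ _ := by linarith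
    have k3 : 0 ≤ r ^ 2 * (ej w X i + ej w X j) := by positivity
    have k4 : 0 ≤ r ^ 2 * q := by positivity
    rw [abs_le]
    constructor <;> nlinarith

theorem gen_core_k (s : ℕ) : ∃ c₃ : ℝ, 1 ≤ c₃ ∧ ∀ w : ℕ, 2 ≤ w → ∃ C₁ : ℝ, 0 ≤ C₁ ∧ ∃ C₄ : ℝ, ∀ τ1 : ℝ, 0 < τ1 → τ1 ≤ 1 → ∀ᶠ X : ℕ in atTop,
    ∃ Ex : Finset ℕ, (Ex.card : ℝ) ≤ X / Real.log X ^ 6 ∧ ∀ K : ℕ, Real.log X ^ 2 / 4 ≤ K → (K : ℝ) ≤ (1 + 1) * Real.log X ^ 2 →
      ∀ T ⊆ Icc 1 (X / Ww w), T.Nonempty → ∀ τ : ℝ, 0 < τ →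
        2 * c₃ ^ 2 * (τ1 * (T.card : ℝ) ^ 2 + 2 * ∑ i ∈ T, ∑ j ∈ T.filter (fun j => i < j), ff w C₁ τ1 Ex (j - i)) ≤ τ * (T.card : ℝ) ^ 2 →
        c₃ * (Real.exp (K / Real.log X + C₄) * (Real.log X / K) ^ s) ≤ τ * T.card →
        PK X K (fun h => ∀ j ∈ T, Nm h (Ww w * j) ≠ s) ≤ 24 * τ := by
  obtain ⟨c₀, hc₀1, hratio⟩ := ev_ratio
  obtain ⟨Cp, hCp, hpc⟩ := pc_all
  obtain ⟨Cr, hCr, hrl⟩ := rat_loglog
  have hc₀0 : 0 < c₀ := by linarith
  set c_r : ℝ := 6 ^ s * c₀ with hc_r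
  have hc_r1 : 1 ≤ c_r := by
    have : (1 : ℝ) ≤ 6 ^ s := one_le_pow₀ (by norm_num)
    rw [hc_r]; nlinarith
  set c₃ : ℝ := c_r * (8 ^ s * s.factorial) with hc₃
  have h8 : (1 : ℝ) ≤ 8 ^ s * s.factorial := by
    have h1 : (1 : ℝ) ≤ 8 ^ s := one_le_pow₀ (by norm_num)
    have h2 : (1 : ℝ) ≤ s.factorial := by exact_mod_cast Nat.factorial_pos s
    nlinarith
  have hc₃r : c_r ≤ c₃ := by rw [hc₃]; exact le_mul_of_one_le_right (by linarith) h8
  refine ⟨c₃, by linarith, fun w hw => ?_⟩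
  obtain ⟨C₁, hC₁0, hpair⟩ := ev_pairU w 0 1 zero_le_one le_rfl
  obtain ⟨C₄, hdiag⟩ := ev_diagS w
  refine ⟨C₁, hC₁0, C₄, fun τ1 hτ10 hτ11 => ?_⟩
  obtain ⟨δ, hδ0, hδ1, hδ⟩ : ∃ δ : ℝ, 0 < δ ∧ δ ≤ 1 / 10 ∧ ((1 + δ) ^ 3 / (1 - δ) ^ 2) ^ s ≤ 1 + τ1 / 2 := by
    have h1 : ∀ᶠ x : ℝ in nhds 0, ((1 + x) ^ 3 / (1 - x) ^ 2) ^ s < 1 + τ1 / 2 := by
      apply ContinuousAt.eventually_lt
      · apply ContinuousAt.pow
        apply ContinuousAt.div
        · fun_prop
        · fun_prop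
        · norm_num
      · exact continuousAt_const
      · simp; exact hτ10
    have h3 : ∀ᶠ x : ℝ in nhds 0, x < 1 / 10 := by
      apply ContinuousAt.eventually_lt continuousAt_id continuousAt_const
      norm_num
    have h4 : ∀ᶠ x : ℝ in nhdsWithin 0 (Set.Ioi 0), x ∈ Set.Ioi (0 : ℝ) := self_mem_nhdsWithin
    obtain ⟨x, hx⟩ := (((h1.and h3).filter_mono nhdsWithin_le_nhds).and h4).exists
    exact ⟨x, hx.2, hx.1.2.le, hx.1.1.le⟩
  have hLLs : ∀ᶠ X : ℕ in atTop, 1024 * Cp * Cr * (s + 1) * Real.log (Real.log X) ≤ δ * Real.log X := by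
    have h1 := (Real.isLittleO_log_id_atTop).bound (show (0 : ℝ) < δ / (1024 * Cp * Cr * (s + 1)) by positivity)
    filter_upwards [tends_log.eventually h1, tends_log.eventually_ge_atTop 1] with X h2 h3
    have h4 : 0 ≤ Real.log (Real.log (X : ℝ)) := Real.log_nonneg h3
    rw [Real.norm_of_nonneg h4, id, Real.norm_of_nonneg (by linarith)] at h2
    have h5 : 0 < 1024 * Cp * Cr * (s + 1) := by positivity
    calc 1024 * Cp * Cr * (s + 1) * Real.log (Real.log X) ≤ 1024 * Cp * Cr * (s + 1) * (δ / (1024 * Cp * Cr * (s + 1)) * Real.log X) :=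
          mul_le_mul_of_nonneg_left h2 h5.le
      _ = _ := by field_simp
  filter_upwards [hpair τ1 hτ10, hratio w, hdiag, ev_basic w δ hδ0 hδ1, hpc, hrl, hLLs, eventually_ge_atTop 1,
    tends_log.eventually_ge_atTop (8 * (s + 1))] with X h1 h2 h3 h4 h5 h6 h7 hX1 hLs
  obtain ⟨Ex, hEx, hp⟩ := h1
  obtain ⟨hrδ, hbas, hggδ⟩ := h4
  refine ⟨Ex, hEx, fun K hKlo hKL T hT hTne τ hτ0 hsum hdiagT => ?_⟩
  set L := Real.log (X : ℝ) with hL
  have hs0 : (0 : ℝ) ≤ s := Nat.cast_nonneg _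
  have hL8 : 8 ≤ L := by linarith
  have hL0 : 0 < L := by linarith
  have hK2s : (2 : ℝ) * s + 2 ≤ K := by nlinarith
  have hKr : (0 : ℝ) < K := by linarith
  have hK0 : 0 < K := by exact_mod_cast hKr
  have hK2s' : 2 * s + 2 ≤ K := by exact_mod_cast hK2s
  have hsK : s ≤ K := by omega
  obtain ⟨r1, r2⟩ := abs_le.1 hrδ
  set r := rX w 0 X with hr
  have hr0 : 0 < r := by linarith
  have hr2 : 1 / 2 ≤ r ^ 2 := by nlinarith
  have hff0 : ∀ d : ℕ, 0 ≤ ff w C₁ τ1 Ex d := ff_nonneg w C₁ τ1 hτ10 Ex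
  set M : ℕ → ℝ := fun j => K.choose s * ((r * ej w X j) ^ s * aj w 0 X j ^ (K - s)) with hM
  have hCpos : (0 : ℝ) < K.choose s := by exact_mod_cast Nat.choose_pos hsK
  have hejpos : ∀ j ∈ T, 0 < ej w X j := fun j hj => lt_of_lt_of_le (by positivity) (hbas j (hT hj)).1
  have hajpos : ∀ j ∈ T, 0 < aj w 0 X j := fun j hj => by linarith [(hbas j (hT hj)).2.2.1]
  have hM0 : ∀ j ∈ T, 0 < M j := by
    intro j hj
    have := hejpos j hj
    have := hajpos j hj
    simp only [hM]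
    positivity
  have hajK : ∀ j ∈ T, aj w 0 X j ^ K ≤ aj w 0 X j ^ (K - s) := fun j hj =>
    pow_le_pow_of_le_one (hajpos j hj).le (hbas j (hT hj)).2.2.2.1 (Nat.sub_le _ _)
  have hajK2 : ∀ j ∈ T, aj w 0 X j ^ (K - s) ≤ 2 ^ s * aj w 0 X j ^ K := by
    intro j hj
    have e : aj w 0 X j ^ K = aj w 0 X j ^ (K - s) * aj w 0 X j ^ s := by rw [← pow_add]; congr 1; omega
    rw [e]
    have h9 : (1 : ℝ) ≤ 2 ^ s * aj w 0 X j ^ s := by
      rw [← mul_pow]
      apply one_le_pow₀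
      linarith [(hbas j (hT hj)).2.2.1]
    have h10 : 0 ≤ aj w 0 X j ^ (K - s) := pow_nonneg (hajpos j hj).le _
    calc aj w 0 X j ^ (K - s) = aj w 0 X j ^ (K - s) * 1 := (mul_one _).symm
      _ ≤ aj w 0 X j ^ (K - s) * (2 ^ s * aj w 0 X j ^ s) := mul_le_mul_of_nonneg_left h9 h10
      _ = _ := by ring
  -- the comparison of the mean values
  have hMc : ∀ i ∈ T, ∀ j ∈ T, M i ≤ c_r * M j := by
    intro i hi j hj
    have g1 : ej w X i ≤ 3 * ej w X j := by
      have a1 := (hbas i (hT hi)).2.1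
      have a2 := (hbas j (hT hj)).1
      calc ej w X i ≤ 3 / (2 * L) := a1
        _ = 3 * (1 / (2 * L)) := by ring
        _ ≤ _ := mul_le_mul_of_nonneg_left a2 (by norm_num)
    have g2 : (r * ej w X i) ^ s ≤ 3 ^ s * (r * ej w X j) ^ s := by
      rw [← mul_pow]
      apply pow_le_pow_left₀ (by have := hejpos i hi; positivity)
      calc r * ej w X i ≤ r * (3 * ej w X j) := mul_le_mul_of_nonneg_left g1 hr0.le
        _ = _ := by ring
    have g3 : aj w 0 X i ^ (K - s) ≤ 2 ^ s * (c₀ * aj w 0 X j ^ (K - s)) := by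
      refine (hajK2 i hi).trans ?_
      apply mul_le_mul_of_nonneg_left _ (by positivity)
      refine (h2 K hKL i (hT hi) j (hT hj)).trans ?_
      exact mul_le_mul_of_nonneg_left (hajK j hj) hc₀0.le
    simp only [hM]
    have hpi : 0 ≤ aj w 0 X i ^ (K - s) := pow_nonneg (hajpos i hi).le _
    have hpj : 0 ≤ (r * ej w X j) ^ s := by have := hejpos j hj; positivity
    have g4 : (r * ej w X i) ^ s * aj w 0 X i ^ (K - s) ≤ (3 ^ s * (r * ej w X j) ^ s) * (2 ^ s * (c₀ * aj w 0 X j ^ (K - s))) :=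
      mul_le_mul g2 g3 hpi (by positivity)
    have e6 : (6 : ℝ) ^ s = 3 ^ s * 2 ^ s := by rw [← mul_pow]; norm_num
    calc (K.choose s : ℝ) * ((r * ej w X i) ^ s * aj w 0 X i ^ (K - s)) ≤
        K.choose s * ((3 ^ s * (r * ej w X j) ^ s) * (2 ^ s * (c₀ * aj w 0 X j ^ (K - s)))) := mul_le_mul_of_nonneg_left g4 hCpos.le
      _ = c_r * (K.choose s * ((r * ej w X j) ^ s * aj w 0 X j ^ (K - s))) := by rw [hc_r, e6]; ring
  -- the pairs
  set f : ℕ → ℕ → ℝ := fun i j => τ1 + 2 * ff w C₁ τ1 Ex (j - i) with hf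
  have hf0 : ∀ i ∈ T, ∀ j ∈ T, 0 ≤ f i j := fun i _ j _ => by
    have := hff0 (j - i)
    simp only [hf]; linarith
  have hpairM : ∀ i ∈ T, ∀ j ∈ T, i < j → EK X K (fun h => Hs w X s i h * Hs w X s j h) ≤ M i * M j * (1 + f i j) := by
    intro i hi j hj hij
    have hi0 : 0 < i := (mem_Icc.1 (hT hi)).1
    have hj0 : 0 < j := (mem_Icc.1 (hT hj)).1
    have hgg := abs_le.1 (hggδ i (hT hi) j (hT hj))
    set g := gg w 0 X i j with hg
    have hg0 : 0 < g := by linarith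
    have hei := hejpos i hi
    have hejj := hejpos j hj
    have hai := hajpos i hi
    have haj := hajpos j hj
    refine (EK_HH w hj0 hi0 s K hsK hK0 hg0 hr0 hei hejj).trans ?_
    rw [← hr, ← hg]
    set q := E1 X (fun a => pr (Ww w * i) a * pr (Ww w * j) a) with hq
    set p := ej w X i with hpi
    set p' := ej w X j with hpj
    set x := q * g / (r ^ 2 * p * p') * ((s : ℝ) / K) with hx
    have hq0 : 0 ≤ q := E1_nonneg (fun a _ => mul_nonneg (pr_nonneg _ _) (pr_nonneg _ _))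
    have hx0 : 0 ≤ x := by positivity
    -- the size of `x`
    have hxδ : x ≤ δ := by
      have k1 : Ww w * i + Ww w * (j - i) = Ww w * j := by rw [← mul_add]; congr 1; omega
      have k2 := h5 (Ww w * i) (Ww w * (j - i)) (Nat.mul_pos (Ww_pos w) (by omega))
      rw [k1] at k2
      have k3 : Ww w * (j - i) ∈ Icc 1 X := by
        rw [mem_Icc]
        refine ⟨Nat.mul_pos (Ww_pos w) (by omega), ?_⟩
        exact (Nat.mul_le_mul_left _ (Nat.sub_le _ _)).trans (mul_div_le' w X j (hT hj))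
      have k4 := h6 _ k3
      have hLL0 : 0 ≤ Real.log L := Real.log_nonneg (by linarith)
      have k5 : q * L ^ 2 ≤ Cp * (Cr * Real.log L) := k2.trans (mul_le_mul_of_nonneg_left k4 hCp.le)
      have k6 : 1 / (2 * L) ≤ p := (hbas i (hT hi)).1
      have k7 : 1 / (2 * L) ≤ p' := (hbas j (hT hj)).1
      have k8 : 1 / (8 * L ^ 2) ≤ r ^ 2 * p * p' := by
        have m0 : 0 ≤ 1 / (2 * L) := by positivity
        have m1 : 1 / (8 * L ^ 2) = (1 / 2) * (1 / (2 * L)) * (1 / (2 * L)) := by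
          rw [div_mul_div_comm, div_mul_div_comm]
          congr 1 <;> ring
        rw [m1]
        exact mul_le_mul (mul_le_mul hr2 k6 m0 (sq_nonneg _)) k7 m0 (by positivity)
      have k9 : q * g / (r ^ 2 * p * p') ≤ 16 * (q * L ^ 2) := by
        rw [div_le_iff₀ (by positivity)]
        have : 16 * (q * L ^ 2) * (1 / (8 * L ^ 2)) ≤ 16 * (q * L ^ 2) * (r ^ 2 * p * p') := mul_le_mul_of_nonneg_left k8 (by positivity)
        have e : 16 * (q * L ^ 2) * (1 / (8 * L ^ 2)) = 2 * q := by field_simp; ring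
        rw [e] at this
        refine le_trans ?_ this
        nlinarith
      have k10 : (s : ℝ) / K ≤ 4 * s / L ^ 2 := by
        rw [div_le_div_iff₀ hKr (by positivity)]
        nlinarith
      have k11 : x ≤ (16 * (Cp * (Cr * Real.log L))) * (4 * s / L ^ 2) := by
        apply mul_le_mul (k9.trans (by linarith)) k10 (by positivity) (by positivity)
      refine k11.trans ?_
      have k12 : (16 * (Cp * (Cr * Real.log L))) * (4 * s / L ^ 2) = (64 * Cp * Cr * s * Real.log L) / L ^ 2 := by ring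
      rw [k12, div_le_iff₀ (by positivity)]
      have k13 : 64 * Cp * Cr * s * Real.log L ≤ 1024 * Cp * Cr * (s + 1) * Real.log L := by
        apply mul_le_mul_of_nonneg_right _ hLL0
        have : 0 < Cp * Cr := by positivity
        nlinarith
      have k14 : δ * L ≤ δ * L ^ 2 := by
        apply mul_le_mul_of_nonneg_left _ hδ0.le
        nlinarith
      linarith
    -- the powers of `g`
    have hgK : g ^ K ≤ (aj w 0 X i ^ K * aj w 0 X j ^ K) * (1 + ff w C₁ τ1 Ex (j - i)) := by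
      obtain ⟨p1, p2⟩ := hp K hKL i (hT hi) j (hT hj) hij
      have q3 : 0 ≤ aj w 0 X i ^ K * aj w 0 X j ^ K := by positivity
      set c := 4 * (1 + 1) * ((0 : ℝ) - 1) ^ 2 / Vw w with hc
      have hc0 : 0 ≤ c := by
        have := Vw_pos w
        positivity
      have q4 : 1 ≤ Real.exp (c * (Real.exp (sw w (j - i)) - 1) + τ1) := by
        apply Real.one_le_exp
        have e1 : 1 ≤ Real.exp (sw w (j - i)) := Real.one_le_exp (sw_nonneg _ _)
        have : 0 ≤ c * (Real.exp (sw w (j - i)) - 1) := mul_nonneg hc0 (by linarith)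
        linarith
      by_cases hE : Ww w * (j - i) ∈ Ex
      · have q5 : Real.exp (C₁ * Real.exp (sw w (j - i))) ≤ 1 + ff w C₁ τ1 Ex (j - i) := by
          simp only [ff]
          rw [if_pos hE, ← hc]
          linarith
        exact p1.trans (mul_le_mul_of_nonneg_left q5 q3)
      · have q5 : Real.exp (c * (Real.exp (sw w (j - i)) - 1) + τ1) ≤ 1 + ff w C₁ τ1 Ex (j - i) := by
          simp only [ff]
          rw [if_neg hE, ← hc]
          linarith
        exact (p2 hE).trans (mul_le_mul_of_nonneg_left q5 q3)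
    set F := ff w C₁ τ1 Ex (j - i) with hF
    have hF0 : 0 ≤ F := hff0 _
    set a := aj w 0 X i with ha
    set a' := aj w 0 X j with ha'
    have hy : (a * a' * r ^ 2 * (1 + x) / g ^ 2) ^ s ≤ 1 + τ1 / 2 := by
      refine le_trans (pow_le_pow_left₀ (by positivity) ?_ s) hδ
      rw [div_le_div_iff₀ (by positivity) (by nlinarith)]
      have b1 : a * a' ≤ 1 := by
        have c1 := (hbas i (hT hi)).2.2.2.1
        have c2 := (hbas j (hT hj)).2.2.2.1
        calc a * a' ≤ 1 * 1 := mul_le_mul c1 c2 haj.le zero_le_one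
          _ = 1 := one_mul 1
      have b2 : r ^ 2 ≤ (1 + δ) ^ 2 := pow_le_pow_left₀ hr0.le (by linarith) 2
      have b3 : (1 - δ) ^ 2 ≤ g ^ 2 := pow_le_pow_left₀ (by linarith) (by linarith [hgg.1]) 2
      have b4 : a * a' * r ^ 2 * (1 + x) ≤ (1 + δ) ^ 3 := by
        calc a * a' * r ^ 2 * (1 + x) ≤ 1 * (1 + δ) ^ 2 * (1 + δ) := by
              apply mul_le_mul (mul_le_mul b1 b2 (sq_nonneg _) zero_le_one) (by linarith) (by linarith) (by positivity)
          _ = (1 + δ) ^ 3 := by ring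
      exact mul_le_mul b4 b3 (sq_nonneg _) (by positivity)
    have hsplit : a ^ K = a ^ (K - s) * a ^ s := by rw [← pow_add]; congr 1; omega
    have hsplit' : a' ^ K = a' ^ (K - s) * a' ^ s := by rw [← pow_add]; congr 1; omega
    have hstep : (K.choose s : ℝ) ^ 2 * (g ^ K * (r ^ 2 * p / g) ^ s * (r ^ 2 * p' / g) ^ s * (1 + x) ^ s) ≤
        (K.choose s : ℝ) ^ 2 * (((a ^ K * a' ^ K) * (1 + F)) * (r ^ 2 * p / g) ^ s * (r ^ 2 * p' / g) ^ s * (1 + x) ^ s) := by
      apply mul_le_mul_of_nonneg_left _ (sq_nonneg _)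
      have n1 : 0 ≤ (r ^ 2 * p / g) ^ s := by positivity
      have n2 : 0 ≤ (r ^ 2 * p' / g) ^ s := by positivity
      have n3 : 0 ≤ (1 + x) ^ s := by positivity
      exact mul_le_mul_of_nonneg_right (mul_le_mul_of_nonneg_right (mul_le_mul_of_nonneg_right hgK n1) n2) n3
    refine hstep.trans ?_
    have heq : (K.choose s : ℝ) ^ 2 * (((a ^ K * a' ^ K) * (1 + F)) * (r ^ 2 * p / g) ^ s * (r ^ 2 * p' / g) ^ s * (1 + x) ^ s) =
        M i * M j * ((1 + F) * (a * a' * r ^ 2 * (1 + x) / g ^ 2) ^ s) := by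
      simp only [hM]
      rw [← hpi, ← hpj, ← ha, ← ha', hsplit, hsplit']
      simp only [mul_pow, div_pow]
      field_simp
      ring
    rw [heq]
    have hMM : 0 ≤ M i * M j := (mul_pos (hM0 i hi) (hM0 j hj)).le
    apply mul_le_mul_of_nonneg_left _ hMM
    calc (1 + F) * (a * a' * r ^ 2 * (1 + x) / g ^ 2) ^ s ≤ (1 + F) * (1 + τ1 / 2) := mul_le_mul_of_nonneg_left hy (by linarith)
      _ ≤ 1 + f i j := by
          simp only [hf]
          rw [← hF]
          nlinarith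
  -- the diagonal
  set D : ℝ := 8 ^ s * s.factorial * (Real.exp (K / L + C₄) * (L / K) ^ s) with hD
  have hD0 : 0 ≤ D := by positivity
  have hdiagM : ∀ j ∈ T, EK X K (fun h => Hs w X s j h * Hs w X s j h) ≤ M j ^ 2 * D := by
    intro j hj
    have hj0 : 0 < j := (mem_Icc.1 (hT hj)).1
    rw [EK_Hs2 hX1 w hj0 s K]
    obtain ⟨b1, b2, b3, b4, b5⟩ := hbas j (hT hj)
    have b6 := h3 K hKL j (hT hj)
    set dd := 1 + ll w 0 X ^ 2 * gam w X * (1 - gam w X) + (0 - 1) * rX w 0 X ^ 2 * ej w X j with hdd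
    rw [← hr]
    have hdd0 : 0 < dd := by linarith
    have e0 : dd ^ K = dd ^ (K - s) * dd ^ s := by rw [← pow_add]; congr 1; omega
    have c0 : (1 : ℝ) ≤ 2 ^ s * dd ^ s := by
      rw [← mul_pow]
      apply one_le_pow₀
      linarith
    have c1 : dd ^ (K - s) ≤ 2 ^ s * dd ^ K := by
      rw [e0]
      have h10 : 0 ≤ dd ^ (K - s) := pow_nonneg hdd0.le _
      calc dd ^ (K - s) = dd ^ (K - s) * 1 := (mul_one _).symm
        _ ≤ dd ^ (K - s) * (2 ^ s * dd ^ s) := mul_le_mul_of_nonneg_left c0 h10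
        _ = _ := by ring
    set E := Real.exp (K / L + C₄) with hE
    have hE0 : 0 < E := Real.exp_pos _
    set A := aj w 0 X j ^ (K - s) with hA
    have hA0 : 0 ≤ A := pow_nonneg (hajpos j hj).le _
    have c2 : dd ^ (K - s) ≤ 2 ^ s * (A ^ 2 * E) := by
      refine c1.trans (mul_le_mul_of_nonneg_left (b6.trans ?_) (by positivity))
      apply mul_le_mul_of_nonneg_right _ hE0.le
      exact pow_le_pow_left₀ (pow_nonneg (hajpos j hj).le _) (hajK j hj) 2
    have c3 : ((K : ℝ) / 2) ^ s ≤ s.factorial * K.choose s := by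
      have d1 : (((K + 1 - s : ℕ) : ℝ)) ^ s ≤ s.factorial * K.choose s := by
        have := Nat.pow_sub_le_descFactorial K s
        rw [Nat.descFactorial_eq_factorial_mul_choose] at this
        exact_mod_cast this
      refine le_trans (pow_le_pow_left₀ (by positivity) ?_ s) d1
      have d2 : ((K + 1 - s : ℕ) : ℝ) = K + 1 - s := by
        rw [Nat.cast_sub (by omega)]; push_cast; ring
      rw [d2]
      linarith
    have hejj := hejpos j hj
    have c4 : (2 : ℝ) ^ s ≤ K.choose s * ej w X j ^ s * (8 ^ s * s.factorial * (L / K) ^ s) := by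
      have d1 : (1 / (2 * L)) ^ s ≤ ej w X j ^ s := pow_le_pow_left₀ (by positivity) b1 s
      have d2 : (2 : ℝ) ^ s = ((K : ℝ) / 2) ^ s * (1 / (2 * L)) ^ s * (8 ^ s * (L / K) ^ s) := by
        rw [← mul_pow, ← mul_pow, ← mul_pow]
        congr 1
        field_simp
        norm_num
      rw [d2]
      calc ((K : ℝ) / 2) ^ s * (1 / (2 * L)) ^ s * (8 ^ s * (L / K) ^ s) ≤ (s.factorial * K.choose s) * ej w X j ^ s * (8 ^ s * (L / K) ^ s) := by
            apply mul_le_mul_of_nonneg_right _ (by positivity)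
            exact mul_le_mul c3 d1 (by positivity) (by positivity)
        _ = _ := by ring
    have hre : 0 ≤ (r ^ 2 * ej w X j) ^ s := by positivity
    have hM2 : M j ^ 2 * D = (K.choose s * ((r ^ 2 * ej w X j) ^ s * (A ^ 2 * E))) * (K.choose s * ej w X j ^ s * (8 ^ s * s.factorial * (L / K) ^ s)) := by
      simp only [hM, hD]
      rw [← hA]
      simp only [mul_pow]
      ring
    rw [hM2]
    calc (K.choose s : ℝ) * ((r ^ 2 * ej w X j) ^ s * dd ^ (K - s)) ≤ K.choose s * ((r ^ 2 * ej w X j) ^ s * (2 ^ s * (A ^ 2 * E))) := by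
          apply mul_le_mul_of_nonneg_left _ hCpos.le
          exact mul_le_mul_of_nonneg_left c2 hre
      _ = (K.choose s * ((r ^ 2 * ej w X j) ^ s * (A ^ 2 * E))) * 2 ^ s := by ring
      _ ≤ _ := mul_le_mul_of_nonneg_left c4 (by positivity)
  have hT0 : (0 : ℝ) < T.card := by exact_mod_cast hTne.card_pos
  have hMval : ∀ j ∈ T, EK X K (fun h => Hs w X s j h) = M j := fun j hj => EK_Hs hX1 w (mem_Icc.1 (hT hj)).1 s K
  have hcard : ∑ i ∈ T, ((T.filter (fun j => i < j)).card : ℝ) ≤ (T.card : ℝ) ^ 2 := by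
    calc ∑ i ∈ T, ((T.filter (fun j => i < j)).card : ℝ) ≤ ∑ i ∈ T, (T.card : ℝ) :=
          sum_le_sum (fun i _ => by exact_mod_cast card_filter_le _ _)
      _ = _ := by rw [sum_const, nsmul_eq_mul]; ring
  have hfsum : ∑ i ∈ T, ∑ j ∈ T.filter (fun j => i < j), f i j ≤
      τ1 * (T.card : ℝ) ^ 2 + 2 * ∑ i ∈ T, ∑ j ∈ T.filter (fun j => i < j), ff w C₁ τ1 Ex (j - i) := by
    have e1 : ∑ i ∈ T, ∑ j ∈ T.filter (fun j => i < j), f i j =
        τ1 * ∑ i ∈ T, ((T.filter (fun j => i < j)).card : ℝ) + 2 * ∑ i ∈ T, ∑ j ∈ T.filter (fun j => i < j), ff w C₁ τ1 Ex (j - i) := by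
      rw [mul_sum, mul_sum, ← sum_add_distrib]
      apply sum_congr rfl
      intro i _
      simp only [hf]
      rw [sum_add_distrib, sum_const, nsmul_eq_mul, ← mul_sum]
      ring
    rw [e1]
    have := mul_le_mul_of_nonneg_left hcard hτ10.le
    linarith
  have hS0 : 0 ≤ τ1 * (T.card : ℝ) ^ 2 + 2 * ∑ i ∈ T, ∑ j ∈ T.filter (fun j => i < j), ff w C₁ τ1 Ex (j - i) := by
    have : 0 ≤ ∑ i ∈ T, ∑ j ∈ T.filter (fun j => i < j), ff w C₁ τ1 Ex (j - i) :=
      sum_nonneg (fun i _ => sum_nonneg (fun j _ => hff0 _))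
    positivity
  have hc_r0 : 0 ≤ c_r := by linarith
  have hfin := sm_abs hX1 T hTne (fun j h => Hs w X s j h) M c_r D τ hc_r0 hτ0 hMval hM0 hMc f hf0 hpairM hD0 hdiagM
    (by
      have g1 : 2 * c_r ^ 2 ≤ 2 * c₃ ^ 2 := by
        have := pow_le_pow_left₀ hc_r0 hc₃r 2
        linarith
      calc 2 * c_r ^ 2 * ∑ i ∈ T, ∑ j ∈ T.filter (fun j => i < j), f i j ≤
            2 * c_r ^ 2 * (τ1 * (T.card : ℝ) ^ 2 + 2 * ∑ i ∈ T, ∑ j ∈ T.filter (fun j => i < j), ff w C₁ τ1 Ex (j - i)) :=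
            mul_le_mul_of_nonneg_left hfsum (by positivity)
        _ ≤ 2 * c₃ ^ 2 * (τ1 * (T.card : ℝ) ^ 2 + 2 * ∑ i ∈ T, ∑ j ∈ T.filter (fun j => i < j), ff w C₁ τ1 Ex (j - i)) :=
            mul_le_mul_of_nonneg_right g1 hS0
        _ ≤ _ := hsum)
    (by
      refine le_trans (le_of_eq ?_) hdiagT
      rw [hD, hc₃]; ring)
  refine le_trans (PK_mono ?_) hfin
  intro h _ hall j hj
  simp only [Hs]
  rw [if_neg (hall j hj), mul_zero]

end Pool.Agent.N735.CL
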