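import Mathlib
import Pool.Agent.N735.CL.Kf3
import Pool.Agent.N735.CL.Sq4

set_option autoImplicit false
set_option maxHeartbeats 2000000

/-! The squares with exactly `s` primes; the `k`-fold waiting time. -/

namespace Pool.Agent.N735.CL

open Finset Filter Topology

theorem sq_lower_k (s : ℕ) (θ : ℝ) (hθ : 0 < θ) : ∃ C₀ : ℝ, 0 < C₀ ∧ ∀ᶠ N : ℕ in atTop, ∀ K : ℕ, Real.log N ^ 2 ≤ K →
    (K : ℝ) ≤ 2 * Real.log N ^ 2 + 2 * s * Real.log N * Real.log (Real.log N) - C₀ * Real.log N →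
      PK (N ^ 2) K (fun h => ∀ n ∈ Icc 1 N, N < 2 * n → Nm h (n ^ 2) ≠ s) ≤ θ := by
  obtain ⟨c₃, hc₃1, hcore⟩ := gen_core_k s
  have hc₃0 : 0 < c₃ := by linarith
  set τ := θ / 24 with hτ
  have hτ0 : 0 < τ := by positivity
  obtain ⟨τ1, hτ10, hτ11, hτ1⟩ : ∃ τ1 : ℝ, 0 < τ1 ∧ τ1 ≤ 1 ∧ 2 * c₃ ^ 2 * (τ1 + 8 * ((Real.exp τ1 - 1) + 2 * Real.exp τ1 * τ1 + τ1)) ≤ τ := by
    have h1 : ∀ᶠ x : ℝ in nhds 0, 2 * c₃ ^ 2 * (x + 8 * ((Real.exp x - 1) + 2 * Real.exp x * x + x)) < τ := by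
      apply ContinuousAt.eventually_lt
      · fun_prop
      · fun_prop
      · simp; exact hτ0
    have h3 : ∀ᶠ x : ℝ in nhds 0, x < 1 := by
      apply ContinuousAt.eventually_lt continuousAt_id continuousAt_const
      norm_num
    have h4 : ∀ᶠ x : ℝ in nhdsWithin 0 (Set.Ioi 0), x ∈ Set.Ioi (0 : ℝ) := self_mem_nhdsWithin
    obtain ⟨x, hx⟩ := (((h1.and h3).filter_mono nhdsWithin_le_nhds).and h4).exists
    exact ⟨x, hx.2, hx.1.2.le, hx.1.1.le⟩
  obtain ⟨w0, hw0⟩ := main_avg2 (4 * (1 + 1) * ((0 : ℝ) - 1) ^ 2) τ1 (by norm_num) hτ10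
  set w := max w0 2 with hw
  have hmain := hw0 w (le_max_left _ _)
  obtain ⟨C₁, hC₁0, C₄, hev⟩ := hcore w (le_max_right _ _)
  obtain ⟨C₃, hC₃0, hC₃⟩ := exc_avg2 w (le_max_right _ _) (2 * C₁) (by positivity)
  have hWpos : 0 < Ww w := Ww_pos w
  have hWr : (1 : ℝ) ≤ Ww w := by exact_mod_cast hWpos
  have hWr0 : (0 : ℝ) < Ww w := by linarith
  set κ : ℝ := 4 * (Ww w : ℝ) ^ 2 with hκ
  set C₀ := 2 * (|Real.log (τ / (4 * Ww w * (c₃ * 2 ^ s)))| + |C₄|) + 1 with hC₀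
  have hC₀0 : 0 < C₀ := by positivity
  refine ⟨C₀, hC₀0, ?_⟩
  have hX : Tendsto (fun N : ℕ => N ^ 2) atTop atTop := tendsto_pow_atTop (by norm_num)
  have hLLs : ∀ᶠ N : ℕ in atTop, 2 * s * Real.log (Real.log N) ≤ Real.log N := by
    have h1 := (Real.isLittleO_log_id_atTop).bound (show (0 : ℝ) < 1 / (2 * s + 1) by positivity)
    filter_upwards [tends_log.eventually h1, tends_log.eventually_ge_atTop 1] with N h2 h3
    have h4 : 0 ≤ Real.log (Real.log (N : ℝ)) := Real.log_nonneg h3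
    rw [Real.norm_of_nonneg h4, id, Real.norm_of_nonneg (by linarith), one_div, inv_mul_eq_div, le_div_iff₀ (by positivity)] at h2
    linarith
  filter_upwards [hX.eventually (hev τ1 hτ10 hτ11), eventually_ge_atTop (2 * Ww w + 4),
    tends_log.eventually_ge_atTop (8 * C₃ * κ / τ1 ^ 2 + 1), hLLs] with N h1 h7 h8 hLLN K hKlo hK
  obtain ⟨Ex, hEx, hp⟩ := h1
  have hN0 : (0 : ℝ) < N := by exact_mod_cast (by omega : 0 < N)
  have hX1 : 1 ≤ N ^ 2 := Nat.one_le_pow _ _ (by omega)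
  have hq : 0 ≤ 8 * C₃ * κ / τ1 ^ 2 := by positivity
  have hlogX : Real.log ((N ^ 2 : ℕ) : ℝ) = 2 * Real.log N := by push_cast; rw [Real.log_pow]; norm_num
  set l := Real.log (N : ℝ) with hl
  have hl1 : 1 ≤ l := by linarith
  rw [hlogX] at hEx hp
  set I := N / Ww w with hI
  have hIle : Ww w * I ≤ N := Nat.mul_div_le N (Ww w)
  have hIlt : N < Ww w * (I + 1) := by
    rw [mul_add, mul_one]
    have h9 := Nat.lt_div_mul_add hWpos (a := N)
    rw [← hI, mul_comm] at h9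
    exact h9
  have hI2 : 2 ≤ I := by
    by_contra hc
    push Not at hc
    have : Ww w * (I + 1) ≤ Ww w * 2 := Nat.mul_le_mul_left _ (by omega)
    omega
  have hIr : (N : ℝ) ≤ 2 * Ww w * I := by
    have h9 : (N : ℝ) < Ww w * ((I : ℝ) + 1) := by exact_mod_cast hIlt
    have h10 : (1 : ℝ) ≤ I := by exact_mod_cast (by omega : 1 ≤ I)
    nlinarith
  have hI0 : (0 : ℝ) < I := by exact_mod_cast (by omega : 0 < I)
  -- the set of the indices
  set R := Icc (I / 2 + 1) I with hR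
  set φ : ℕ → ℕ := fun i => Ww w * i ^ 2 with hφ
  have hφinj : Function.Injective φ := by
    intro a b hab
    simp only [hφ] at hab
    have := Nat.eq_of_mul_eq_mul_left hWpos hab
    exact Nat.pow_left_injective (n := 2) (by norm_num) this
  set T := R.image φ with hT
  have hRcard : (I : ℝ) / 2 ≤ R.card := by
    rw [hR, Nat.card_Icc, div_le_iff₀ (by norm_num)]
    exact_mod_cast (by omega : I ≤ (I + 1 - (I / 2 + 1)) * 2)
  have hTcard : T.card = R.card := card_image_of_injective _ hφinj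
  have hTsub : T ⊆ Icc 1 (N ^ 2 / Ww w) := by
    intro a ha
    rw [hT, mem_image] at ha
    obtain ⟨i, hi, rfl⟩ := ha
    rw [hR, mem_Icc] at hi
    rw [mem_Icc]
    constructor
    · exact Nat.mul_pos hWpos (by have : 0 < i := by omega
                                  positivity)
    · rw [Nat.le_div_iff_mul_le hWpos]
      calc Ww w * i ^ 2 * Ww w = (Ww w * i) ^ 2 := by ring
        _ ≤ N ^ 2 := Nat.pow_le_pow_left ((Nat.mul_le_mul_left _ hi.2).trans hIle) 2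
  have hRne : R.Nonempty := ⟨I, by rw [hR, mem_Icc]; omega⟩
  have hTne : T.Nonempty := hRne.image φ
  have hTr : (N : ℝ) / (4 * Ww w) ≤ T.card := by
    rw [hTcard, div_le_iff₀ (by positivity)]
    nlinarith
  have hKL : (K : ℝ) ≤ (1 + 1) * (2 * l) ^ 2 := by
    have h21 : 0 ≤ C₀ * l := by positivity
    have h22 : 2 * s * l * Real.log l ≤ l * l := by
      calc 2 * s * l * Real.log l = (2 * s * Real.log l) * l := by ring
        _ ≤ l * l := mul_le_mul_of_nonneg_right hLLN (by linarith)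
    nlinarith [sq_nonneg l]
  have hKlo' : (2 * l) ^ 2 / 4 ≤ (K : ℝ) := by
    refine le_trans (le_of_eq ?_) hKlo
    ring
  have hmainT := hp K hKlo' hKL T hTsub hTne τ hτ0
  -- the pair sum
  have hpair : 2 * c₃ ^ 2 * (τ1 * (T.card : ℝ) ^ 2 + 2 * ∑ a ∈ T, ∑ b ∈ T.filter (fun b => a < b), ff w C₁ τ1 Ex (b - a)) ≤ τ * (T.card : ℝ) ^ 2 := by
    have hS := sq_sum w C₁ τ1 C₃ κ hC₁0 hτ10 (by positivity) hmain hC₃ (N ^ 2) I hX1
      (Nat.pow_le_pow_left hIle 2) (by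
        rw [hκ]; push_cast
        calc (N : ℝ) ^ 2 ≤ (2 * Ww w * I) ^ 2 := pow_le_pow_left₀ hN0.le hIr 2
          _ = _ := by ring) Ex (by rw [hlogX]; exact hEx) (by rw [hlogX]; linarith) (by rw [hlogX]; linarith)
    have hle : ∑ a ∈ T, ∑ b ∈ T.filter (fun b => a < b), ff w C₁ τ1 Ex (b - a) ≤
        ∑ j ∈ Icc 1 I, ∑ i ∈ Icc 1 (j - 1), ff w C₁ τ1 Ex (Ww w * (j ^ 2 - i ^ 2)) := by
      have e1 : ∑ a ∈ T, ∑ b ∈ T.filter (fun b => a < b), ff w C₁ τ1 Ex (b - a) =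
          ∑ i ∈ R, ∑ j ∈ R, (if φ i < φ j then ff w C₁ τ1 Ex (φ j - φ i) else 0) := by
        rw [hT, sum_image (fun a _ b _ h => hφinj h)]
        apply sum_congr rfl
        intro i _
        rw [sum_filter, sum_image (fun a _ b _ h => hφinj h)]
      rw [e1, sum_comm]
      have hRsub : R ⊆ Icc 1 I := by
        intro i hi
        rw [hR, mem_Icc] at hi
        rw [mem_Icc]; omega
      refine (sum_le_sum_of_subset_of_nonneg hRsub (fun j _ _ => sum_nonneg (fun i _ => ?_))).trans ?_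
      · split_ifs
        · exact ff_nonneg _ _ _ hτ10 _ _
        · exact le_rfl
      · apply sum_le_sum
        intro j hj
        rw [← sum_filter]
        have hsub : R.filter (fun i => φ i < φ j) ⊆ Icc 1 (j - 1) := by
          intro i hi
          rw [mem_filter, hR, mem_Icc] at hi
          obtain ⟨hi1, hi2⟩ := hi
          simp only [hφ] at hi2
          have h3 : i ^ 2 < j ^ 2 := lt_of_mul_lt_mul_left hi2 (Nat.zero_le _)
          have h4 : i < j := lt_of_pow_lt_pow_left₀ 2 (Nat.zero_le _) h3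
          rw [mem_Icc]; omega
        refine (sum_le_sum_of_subset_of_nonneg hsub (fun i _ _ => ff_nonneg _ _ _ hτ10 _ _)).trans (le_of_eq ?_)
        apply sum_congr rfl
        intro i _
        simp only [hφ]
        rw [← Nat.mul_sub]
    set B := (Real.exp τ1 - 1) + 2 * Real.exp τ1 * τ1 + τ1 with hB
    have hB0 : 0 ≤ B := by
      have : 1 ≤ Real.exp τ1 := Real.one_le_exp hτ10.le
      have : 0 < Real.exp τ1 * τ1 := by positivity
      rw [hB]; nlinarith
    have hI4 : (I : ℝ) ^ 2 ≤ 4 * (T.card : ℝ) ^ 2 := by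
      rw [hTcard]
      have : (I : ℝ) ≤ 2 * R.card := by linarith
      nlinarith
    have hBI : B * (I : ℝ) ^ 2 ≤ B * (4 * (T.card : ℝ) ^ 2) := mul_le_mul_of_nonneg_left hI4 hB0
    have hall : τ1 * (T.card : ℝ) ^ 2 + 2 * ∑ a ∈ T, ∑ b ∈ T.filter (fun b => a < b), ff w C₁ τ1 Ex (b - a) ≤ (τ1 + 8 * B) * (T.card : ℝ) ^ 2 := by
      have := hle.trans hS
      linarith
    calc 2 * c₃ ^ 2 * (τ1 * (T.card : ℝ) ^ 2 + 2 * ∑ a ∈ T, ∑ b ∈ T.filter (fun b => a < b), ff w C₁ τ1 Ex (b - a)) ≤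
          2 * c₃ ^ 2 * ((τ1 + 8 * B) * (T.card : ℝ) ^ 2) := mul_le_mul_of_nonneg_left hall (by positivity)
      _ = (2 * c₃ ^ 2 * (τ1 + 8 * B)) * (T.card : ℝ) ^ 2 := by ring
      _ ≤ _ := mul_le_mul_of_nonneg_right hτ1 (sq_nonneg _)
  -- the diagonal
  have hdiagT : c₃ * (Real.exp (K / (2 * l) + C₄) * (2 * l / K) ^ s) ≤ τ * T.card := by
    have h9 : (K : ℝ) / (2 * l) ≤ l + s * Real.log l - C₀ / 2 := by
      rw [div_le_iff₀ (by linarith)]
      refine hK.trans (le_of_eq ?_)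
      ring
    have h10 : Real.exp (K / (2 * l) + C₄) ≤ Real.exp (l + s * Real.log l + (C₄ - C₀ / 2)) := Real.exp_le_exp.2 (by linarith)
    have h12 : Real.exp (l + s * Real.log l + (C₄ - C₀ / 2)) = N * l ^ s * Real.exp (C₄ - C₀ / 2) := by
      rw [Real.exp_add, Real.exp_add, hl, Real.exp_log hN0, Real.exp_nat_mul, Real.exp_log (by linarith)]
    have hl0 : 0 < l := by linarith
    have hKr0 : (0 : ℝ) < K := lt_of_lt_of_le (by positivity) hKlo
    have h11 : (2 * l / K) ^ s ≤ (2 / l) ^ s := by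
      apply pow_le_pow_left₀ (by positivity)
      rw [div_le_div_iff₀ hKr0 hl0]
      calc 2 * l * l = 2 * l ^ 2 := by ring
        _ ≤ 2 * K := by linarith
    have h13 : Real.exp (C₄ - C₀ / 2) ≤ τ / (4 * Ww w * (c₃ * 2 ^ s)) := by
      have h14 : Real.exp (Real.log (τ / (4 * Ww w * (c₃ * 2 ^ s)))) = τ / (4 * Ww w * (c₃ * 2 ^ s)) := Real.exp_log (by positivity)
      rw [← h14]
      apply Real.exp_le_exp.2
      have h15 := neg_abs_le (Real.log (τ / (4 * Ww w * (c₃ * 2 ^ s))))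
      have h16 := le_abs_self C₄
      rw [hC₀]
      linarith
    rw [h12] at h10
    have hls : l ^ s * (2 / l) ^ s = 2 ^ s := by
      rw [← mul_pow]; congr 1; field_simp
    have h17 : Real.exp (K / (2 * l) + C₄) * (2 * l / K) ^ s ≤ N * (2 ^ s * (τ / (4 * Ww w * (c₃ * 2 ^ s)))) := by
      calc Real.exp (K / (2 * l) + C₄) * (2 * l / K) ^ s ≤ (N * l ^ s * Real.exp (C₄ - C₀ / 2)) * (2 / l) ^ s :=
            mul_le_mul h10 h11 (by positivity) (by positivity)
        _ = N * ((l ^ s * (2 / l) ^ s) * Real.exp (C₄ - C₀ / 2)) := by ring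
        _ ≤ N * (2 ^ s * (τ / (4 * Ww w * (c₃ * 2 ^ s)))) := by
            rw [hls]
            exact mul_le_mul_of_nonneg_left (mul_le_mul_of_nonneg_left h13 (by positivity)) hN0.le
    calc c₃ * (Real.exp (K / (2 * l) + C₄) * (2 * l / K) ^ s) ≤ c₃ * (N * (2 ^ s * (τ / (4 * Ww w * (c₃ * 2 ^ s))))) :=
          mul_le_mul_of_nonneg_left h17 hc₃0.le
      _ = τ * (N / (4 * Ww w)) := by field_simp
      _ ≤ τ * T.card := mul_le_mul_of_nonneg_left hTr hτ0.le
  have hfin := hmainT hpair hdiagT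
  refine le_trans (PK_mono ?_) (hfin.trans (le_of_eq (by rw [hτ]; ring)))
  intro h _ hh j hj
  rw [hT, mem_image] at hj
  obtain ⟨i, hi, rfl⟩ := hj
  rw [hR, mem_Icc] at hi
  have e : Ww w * φ i = (Ww w * i) ^ 2 := by simp only [hφ]; ring
  rw [e]
  apply hh
  · rw [mem_Icc]
    exact ⟨Nat.mul_pos hWpos (by omega), (Nat.mul_le_mul_left _ hi.2).trans hIle⟩
  · calc N < Ww w * (I + 1) := hIlt
      _ ≤ Ww w * (2 * i) := Nat.mul_le_mul_left _ (by omega)
      _ = _ := by ring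



/-- few primes: the exponential bound -/
lemma few_primes (s : ℕ) (θ : ℝ) (hθ : 0 < θ) : ∃ C₀ : ℝ, 0 < C₀ ∧ ∀ᶠ N : ℕ in atTop, ∀ K : ℕ,
    2 * Real.log N ^ 2 + 2 * s * Real.log N * Real.log (Real.log N) + C₀ * Real.log N ≤ K →
      ∀ m ≤ N ^ 2, PK (N ^ 2) K (fun h => Nm h m ≤ s) ≤ θ / N := by
  obtain ⟨c, hc, hη⟩ := eta_precise
  set C₀ := 4 * ((1 + c) * (1 + s) + |Real.log θ|) + 1 with hC₀
  have hC₀0 : 0 < C₀ := by positivity
  refine ⟨C₀, hC₀0, ?_⟩
  filter_upwards [tends_sq.eventually hη, eventually_ge_atTop 1, tends_log.eventually_ge_atTop (4 * (1 + c) + 2)] with N h1 hN h3 K hK m hm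
  have hX : 1 ≤ N ^ 2 := Nat.one_le_pow _ _ hN
  rw [log_sq_nat] at h1
  have hN0 : (0 : ℝ) < N := by exact_mod_cast hN
  set l := Real.log (N : ℝ) with hl
  have hl2 : 2 ≤ l := by linarith
  have hl0 : 0 < l := by linarith
  have hll0 : 0 ≤ Real.log l := Real.log_nonneg (by linarith)
  have hlll : Real.log l ≤ l := by
    have := Real.log_le_sub_one_of_pos hl0
    linarith
  have ht0 : 0 < 1 / l := by positivity
  have hstep : PK (N ^ 2) K (fun h => Nm h m ≤ s) ≤ EK (N ^ 2) K (fun h => l ^ s * (1 / l) ^ Nm h m) := by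
    unfold PK
    apply EK_mono
    intro h _
    split_ifs with hc
    · obtain ⟨d, hd⟩ := Nat.exists_eq_add_of_le hc
      rw [hd, pow_add, mul_assoc, mul_comm, mul_assoc, ← mul_pow, one_div, inv_mul_cancel₀ hl0.ne', one_pow, mul_one]
      exact one_le_pow₀ (by linarith)
    · positivity
  refine hstep.trans ?_
  rw [EK_const_mul, EK_pow hX]
  have h5 := (abs_le.1 (h1 m hm)).1
  have hη1 : E1 (N ^ 2) (pr m) ≤ 1 := by
    rw [← E1_const hX 1]
    exact E1_mono (fun h _ => pr_le_one _ h)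
  have hη0 : 0 ≤ E1 (N ^ 2) (pr m) := E1_nonneg (fun h _ => pr_nonneg _ h)
  set η := E1 (N ^ 2) (pr m) with hη
  have htl : 1 / l ≤ 1 := by rw [div_le_one hl0]; linarith
  have h6 : (1 + (1 / l - 1) * η) ^ K ≤ Real.exp (K * ((1 / l - 1) * η)) := by
    rw [Real.exp_nat_mul]
    apply pow_le_pow_left₀
    · nlinarith
    · linarith [Real.add_one_le_exp ((1 / l - 1) * η)]
  have h7 : 1 / (2 * l) - c / (2 * l) ^ 2 ≤ η := by linarith
  have h8 : 0 ≤ 1 / (2 * l) - c / (2 * l) ^ 2 := by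
    rw [sub_nonneg, div_le_div_iff₀ (by positivity) (by positivity)]
    nlinarith
  have hK0 : (0 : ℝ) ≤ K := Nat.cast_nonneg _
  have h9 : (2 * l ^ 2 + 2 * s * l * Real.log l + C₀ * l) * (1 / (2 * l) - c / (2 * l) ^ 2) ≤ K * η := mul_le_mul hK h7 h8 hK0
  have h10 : (2 * l ^ 2 + 2 * s * l * Real.log l + C₀ * l) * (1 / (2 * l) - c / (2 * l) ^ 2) = (l + s * Real.log l + C₀ / 2) * (1 - c / (2 * l)) := by
    field_simp
  rw [h10] at h9
  set A := l + s * Real.log l + C₀ / 2 with hA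
  have hA0 : 0 < A := by positivity
  have h11 : A * (1 - (1 + c) / l) ≤ K * ((1 - 1 / l) * η) := by
    calc A * (1 - (1 + c) / l) ≤ A * ((1 - c / (2 * l)) * (1 - 1 / l)) := by
          apply mul_le_mul_of_nonneg_left _ hA0.le
          have e1 : (1 + c) / l = 1 / l + c / l := by ring
          have e2 : c / (2 * l) ≤ c / l := by
            apply div_le_div_of_nonneg_left hc.le hl0; linarith
          have e3 : 0 ≤ c / (2 * l) * (1 / l) := by positivity
          have e4 : (1 - c / (2 * l)) * (1 - 1 / l) = 1 - c / (2 * l) - 1 / l + c / (2 * l) * (1 / l) := by ring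
          rw [e1, e4]; linarith
      _ = (A * (1 - c / (2 * l))) * (1 - 1 / l) := by ring
      _ ≤ (K * η) * (1 - 1 / l) := mul_le_mul_of_nonneg_right h9 (by linarith)
      _ = _ := by ring
  have h12 : l + s * Real.log l + C₀ / 4 - (1 + c) * (1 + s) ≤ A * (1 - (1 + c) / l) := by
    have e1 : A * (1 - (1 + c) / l) = A - ((1 + c) + s * ((1 + c) * (Real.log l / l)) + C₀ / 2 * ((1 + c) / l)) := by
      rw [hA]; field_simp
    have e2 : Real.log l / l ≤ 1 := by rw [div_le_one hl0]; exact hlll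
    have e3 : (1 + c) / l ≤ 1 / 4 := by
      rw [div_le_iff₀ hl0]; linarith
    have e4 : s * ((1 + c) * (Real.log l / l)) ≤ s * ((1 + c) * 1) := by
      apply mul_le_mul_of_nonneg_left _ (Nat.cast_nonneg _)
      exact mul_le_mul_of_nonneg_left e2 (by linarith)
    have e5 : C₀ / 2 * ((1 + c) / l) ≤ C₀ / 2 * (1 / 4) := mul_le_mul_of_nonneg_left e3 (by positivity)
    rw [e1, hA]
    nlinarith
  have h13 : l ^ s = Real.exp (s * Real.log l) := by rw [Real.exp_nat_mul, Real.exp_log hl0]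
  have h14 : (N : ℝ) = Real.exp l := (Real.exp_log hN0).symm
  have h15 : θ / N = Real.exp (Real.log θ - l) := by rw [Real.exp_sub, Real.exp_log hθ, ← h14]
  rw [h13, h15]
  calc Real.exp (s * Real.log l) * (1 + (1 / l - 1) * η) ^ K ≤ Real.exp (s * Real.log l) * Real.exp (K * ((1 / l - 1) * η)) :=
        mul_le_mul_of_nonneg_left h6 (Real.exp_pos _).le
    _ = Real.exp (s * Real.log l + K * ((1 / l - 1) * η)) := (Real.exp_add _ _).symm
    _ ≤ Real.exp (Real.log θ - l) := by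
        apply Real.exp_le_exp.2
        have e1 : K * ((1 / l - 1) * η) = -(K * ((1 - 1 / l) * η)) := by ring
        rw [e1]
        have e2 := neg_abs_le (Real.log θ)
        have e3 : C₀ / 4 = (1 + c) * (1 + s) + |Real.log θ| + 1 / 4 := by rw [hC₀]; ring
        linarith

/-- the number of primes among the first `w` members of the pattern, placed after `m` -/
def cntK {K : ℕ} (h : Fin K → ℕ) (m w : ℕ) : ℕ := (univ.filter (fun i : Fin K => (i : ℕ) < w ∧ (m + h i).Prime)).card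

lemma cntK_mono {K : ℕ} (h : Fin K → ℕ) (m : ℕ) {w w' : ℕ} (hw : w ≤ w') : cntK h m w ≤ cntK h m w' := by
  unfold cntK
  apply card_le_card
  intro i hi
  rw [mem_filter] at hi ⊢
  exact ⟨hi.1, lt_of_lt_of_le hi.2.1 hw, hi.2.2⟩

lemma cntK_eq {K w : ℕ} (hw : w ≤ K) (h : Fin K → ℕ) (m : ℕ) : cntK h m w = Nm (fun i : Fin w => h (Fin.castLE hw i)) m := by
  unfold cntK Nm
  refine (card_bij' (fun (i : Fin w) _ => Fin.castLE hw i) (fun (i : Fin K) hi => (⟨i, (mem_filter.1 hi).2.1⟩ : Fin w)) ?_ ?_ ?_ ?_).symm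
  · intro i hi
    rw [mem_filter] at hi ⊢
    exact ⟨mem_univ _, i.2, hi.2⟩
  · intro i hi
    rw [mem_filter] at hi ⊢
    exact ⟨mem_univ _, hi.2.2⟩
  · intro i _; rfl
  · intro i _; rfl

/-- the `k`-fold law, `k = s + 1` -/
theorem kfold (s : ℕ) (θ : ℝ) (hθ : 0 < θ) : ∃ C : ℝ, 0 < C ∧ ∀ᶠ N : ℕ in atTop, ∀ K : ℕ,
    2 * Real.log N ^ 2 + 2 * s * Real.log N * Real.log (Real.log N) + C * Real.log N ≤ K →
      PK (N ^ 2) K (fun h => ¬ ((∀ w : ℕ, 2 * Real.log N ^ 2 + 2 * s * Real.log N * Real.log (Real.log N) + C * Real.log N ≤ w →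
          ∀ n ∈ Icc 1 N, s + 1 ≤ cntK h (n ^ 2 - n) w ∧ s + 1 ≤ cntK h (n ^ 2) w) ∧
        (∀ w : ℕ, (w : ℝ) ≤ 2 * Real.log N ^ 2 + 2 * s * Real.log N * Real.log (Real.log N) - C * Real.log N →
          ∃ n ∈ Icc 1 N, N < 2 * n ∧ cntK h (n ^ 2) w ≤ s))) ≤ θ := by
  obtain ⟨C₀, hC₀, h0⟩ := few_primes s (θ / 4) (by positivity)
  obtain ⟨C₁, hC₁, h1⟩ := sq_lower_k s (θ / 2) (by positivity)
  refine ⟨C₀ + C₁ + 1, by positivity, ?_⟩
  filter_upwards [h0, h1, eventually_ge_atTop 1, tends_log.eventually_ge_atTop (C₁ + 2)] with N h0 h1 hN hL K hK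
  have hX : 1 ≤ N ^ 2 := Nat.one_le_pow _ _ hN
  have hN0 : (0 : ℝ) < N := by exact_mod_cast hN
  set l := Real.log (N : ℝ) with hl
  have hl2 : 2 ≤ l := by linarith
  have hl0 : 0 < l := by linarith
  have hll0 : 0 ≤ 2 * s * l * Real.log l := by
    have : 0 ≤ Real.log l := Real.log_nonneg (by linarith)
    positivity
  set B := 2 * l ^ 2 + 2 * s * l * Real.log l with hB
  have hB0 : 2 * l ^ 2 ≤ B := by linarith
  have hCL : (C₀ + C₁ + 1) * l = C₀ * l + C₁ * l + l := by ring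
  have hC0L : 0 < C₀ * l := by positivity
  have hC1L : 0 < C₁ * l := by positivity
  have hl2' : (C₁ + 2) * l ≤ l ^ 2 := by rw [sq]; exact mul_le_mul_of_nonneg_right hL hl0.le
  set K1 := ⌈B + C₀ * l⌉₊ with hK1
  set K2 := ⌊B - C₁ * l⌋₊ with hK2
  have e1 : B + C₀ * l ≤ K1 := Nat.le_ceil _
  have e2 : (K1 : ℝ) < B + C₀ * l + 1 := Nat.ceil_lt_add_one (by nlinarith)
  have e3 : (K2 : ℝ) ≤ B - C₁ * l := Nat.floor_le (by nlinarith)
  have e4 : B - C₁ * l < K2 + 1 := Nat.lt_floor_add_one _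
  have e5 : l ^ 2 ≤ K2 := by nlinarith
  have hK1K : K1 ≤ K := by
    apply Nat.ceil_le.2
    linarith
  have hK2K : K2 ≤ K := by
    have : (K2 : ℝ) ≤ K := by linarith
    exact_mod_cast this
  have f1 := h0 K1 e1
  have f2 := h1 K2 e5 e3
  rw [← PK_castLE hX hK2K] at f2
  set F := (Icc 1 N).image (fun n => n ^ 2) ∪ (Icc 1 N).image (fun n => n ^ 2 - n) with hF
  have hFle : ∀ m ∈ F, m ≤ N ^ 2 := by
    intro m hm
    rw [hF, mem_union, mem_image, mem_image] at hm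
    rcases hm with ⟨n, hn, rfl⟩ | ⟨n, hn, rfl⟩
    · exact Nat.pow_le_pow_left (mem_Icc.1 hn).2 2
    · exact (Nat.sub_le _ _).trans (Nat.pow_le_pow_left (mem_Icc.1 hn).2 2)
  have hFc : (F.card : ℝ) ≤ 2 * N := by
    have g1 : F.card ≤ N + N := by
      refine (card_union_le _ _).trans (add_le_add ?_ ?_)
      · exact card_image_le.trans (by rw [Nat.card_Icc]; omega)
      · exact card_image_le.trans (by rw [Nat.card_Icc]; omega)
    have : (F.card : ℝ) ≤ ((N + N : ℕ) : ℝ) := by exact_mod_cast g1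
    push_cast at this
    linarith
  have g3 : PK (N ^ 2) K (fun h => ∃ m ∈ F, Nm (fun i : Fin K1 => h (Fin.castLE hK1K i)) m ≤ s) ≤ θ / 2 := by
    refine (PK_exists F (fun m h => Nm (fun i : Fin K1 => h (Fin.castLE hK1K i)) m ≤ s)).trans ?_
    have g4 : ∀ m ∈ F, PK (N ^ 2) K (fun h => Nm (fun i : Fin K1 => h (Fin.castLE hK1K i)) m ≤ s) ≤ θ / 4 / N := by
      intro m hm
      rw [PK_castLE hX hK1K (fun h => Nm h m ≤ s)]
      exact f1 m (hFle m hm)
    refine (sum_le_sum g4).trans ?_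
    rw [sum_const, nsmul_eq_mul]
    calc (F.card : ℝ) * (θ / 4 / N) ≤ (2 * N) * (θ / 4 / N) := mul_le_mul_of_nonneg_right hFc (by positivity)
      _ = θ / 2 := by field_simp; norm_num
  refine le_trans (PK_mono (C := fun h => (∃ m ∈ F, Nm (fun i : Fin K1 => h (Fin.castLE hK1K i)) m ≤ s) ∨
    (∀ n ∈ Icc 1 N, N < 2 * n → Nm (fun i : Fin K2 => h (Fin.castLE hK2K i)) (n ^ 2) ≠ s)) ?_) ((PK_or _ _).trans (by linarith))
  intro h _ hh
  by_contra hc
  push Not at hc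
  apply hh
  obtain ⟨c1, n, hn, hn2, c2⟩ := hc
  have c3 : ∀ m ∈ F, ∀ w : ℕ, B + (C₀ + C₁ + 1) * l ≤ w → s + 1 ≤ cntK h m w := by
    intro m hm w hw
    have k1 : K1 ≤ w := by
      have : (K1 : ℝ) ≤ w := by linarith
      exact_mod_cast this
    have k2 := c1 m hm
    rw [← cntK_eq hK1K] at k2
    exact (Nat.succ_le_of_lt k2).trans (cntK_mono h m k1)
  refine ⟨fun w hw n hn => ⟨?_, ?_⟩, fun w hw => ⟨n, hn, hn2, ?_⟩⟩
  · exact c3 _ (by rw [hF, mem_union]; right; exact mem_image_of_mem _ hn) w hw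
  · exact c3 _ (by rw [hF, mem_union]; left; exact mem_image_of_mem _ hn) w hw
  · have k1 : w ≤ K2 := by
      have : (w : ℝ) < K2 + 1 := by linarith
      have : w < K2 + 1 := by exact_mod_cast this
      omega
    have k2 := cntK_mono h (n ^ 2) k1
    rw [cntK_eq hK2K, c2] at k2
    exact k2

end Pool.Agent.N735.CL
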