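import Mathlib
import Pool.Agent.N735.CL.Ap7
import Pool.Agent.N735.CL.Cl8

set_option autoImplicit false
set_option maxHeartbeats 2000000

/-! The race of the primes in the residue classes: the direction of the largest deviations. -/

namespace Pool.Agent.N735.CL

open Finset Filter Topology

/-- the sum of `c` over the primes among the translates -/
noncomputable def tot {q K : ℕ} (c : ZMod q → ℝ) (h : Fin K → ℕ) (x : ℕ) : ℝ :=
  ∑ i ∈ univ.filter (fun i : Fin K => (x + h i).Prime), c ((x + h i : ℕ) : ZMod q)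

/-- the mean value of the product over the reduced classes -/
noncomputable def cor {q : ℕ} (c d : ZMod q → ℝ) : ℝ := (∑ a ∈ Cq q, c (a : ZMod q) * d (a : ZMod q)) / Nat.totient q

lemma tot_eq {q K : ℕ} (c : ZMod q → ℝ) (M : ℝ) (h : Fin K → ℕ) (x : ℕ) :
    Nc (fun n => c (n : ZMod q) / M) h x = tot c h x / M := by
  unfold Nc cp pr tot
  rw [sum_filter, sum_div]
  apply sum_congr rfl
  intro i _
  split_ifs <;> simp

lemma tot_sub {q K : ℕ} (c d : ZMod q → ℝ) (t : ℝ) (h : Fin K → ℕ) (x : ℕ) :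
    tot (fun z => c z - t * d z) h x = tot c h x - t * tot d h x := by
  unfold tot
  rw [sum_sub_distrib, mul_sum]

theorem bal_law {q : ℕ} (hq : 1 ≤ q) (c : ZMod q → ℝ) (hV : 0 < cor c c) (h0 : ∑ a ∈ Cq q, c (a : ZMod q) = 0) (A : ℕ)
    (ε θ : ℝ) (hε : 0 < ε) (hε1 : ε ≤ 1) (hθ : 0 < θ) :
    ∃ C : ℝ, ∀ᶠ X : ℕ in atTop, ∀ K : ℕ, C * Real.log X ^ 2 ≤ K → (K : ℝ) ≤ Real.log X ^ A →
      PK X K (fun h => ¬ ((∃ m ∈ Icc 1 X, (1 - ε) * Real.sqrt (2 * cor c c * K) ≤ tot c h m) ∧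
        (∀ m ∈ Icc 1 X, tot c h m ≤ (1 + ε) * Real.sqrt (2 * cor c c * K)))) ≤ θ := by
  haveI : NeZero q := ⟨by omega⟩
  obtain ⟨M, hM0, hM⟩ : ∃ M : ℝ, 0 < M ∧ ∀ a : ZMod q, |c a| ≤ M := by
    refine ⟨∑ a : ZMod q, |c a| + 1, ?_, fun a => ?_⟩
    · have : 0 ≤ ∑ a : ZMod q, |c a| := sum_nonneg (fun _ _ => abs_nonneg _)
      linarith
    · have := single_le_sum (f := fun a : ZMod q => |c a|) (fun _ _ => abs_nonneg _) (mem_univ a)
      linarith
  set f : ℕ → ℝ := fun n => c (n : ZMod q) / M with hf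
  have hper : ∀ m h, q ∣ m → f (m + h) = f h := by
    intro m h hd
    simp only [hf]
    have : ((m + h : ℕ) : ZMod q) = (h : ZMod q) := by
      rw [Nat.cast_add, (ZMod.natCast_eq_zero_iff m q).2 hd, zero_add]
    rw [this]
  have hf1 : ∀ n, |f n| ≤ 1 := by
    intro n
    simp only [hf]
    rw [abs_div, abs_of_pos hM0, div_le_one hM0]
    exact hM _
  have hf0 : ∑ a ∈ Cq q, f a = 0 := by
    simp only [hf]
    rw [← sum_div, h0, zero_div]
  have hv : (∑ a ∈ Cq q, f a ^ 2) / (Nat.totient q : ℝ) = cor c c / M ^ 2 := by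
    unfold cor
    rw [div_div, mul_comm, ← div_div]
    congr 1
    rw [sum_div]
    apply sum_congr rfl
    intro a _
    simp only [hf]
    rw [div_pow, sq (c (a : ZMod q))]
  have hv0 : 0 < (∑ a ∈ Cq q, f a ^ 2) / (Nat.totient q : ℝ) := by rw [hv]; positivity
  have hn := nice hq hper hf1 hv0
  rw [hv] at hn hv0
  set V := cor c c with hVd
  set v := V / M ^ 2 with hvd
  have hqr : (1 : ℝ) ≤ q := by exact_mod_cast hq
  have hq0 : (0 : ℝ) < q := by linarith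
  have hs0 : 0 < Real.sqrt (2 * V) := Real.sqrt_pos.2 (by positivity)
  refine ⟨131072 / ((ε / 2) ^ 2 * v ^ 3), ?_⟩
  filter_upwards [devc_law hn (ε / 2) θ (by positivity) (by linarith) hθ, win_zero hq hper hf1 hf0 (A + 1),
    tends_log.eventually_ge_atTop (1 + 4 * q * M / (ε * Real.sqrt (2 * V)))] with X h1 h2 h3 K hK hKA
  have h4 := h1 K hK
  refine (PK_mono ?_).trans h4
  intro h _ hh hc
  apply hh
  set L := Real.log (X : ℝ) with hL
  set S := Real.sqrt (2 * V * K) with hS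
  have hpos : 0 ≤ 4 * q * M / (ε * Real.sqrt (2 * V)) := by positivity
  have hL1 : 1 ≤ L := by linarith
  have hL0 : 0 < L := by linarith
  have hSv : Real.sqrt (2 * v * K) = S / M := by
    have e : 2 * v * K = (2 * V * K) / M ^ 2 := by rw [hvd]; ring
    rw [e, Real.sqrt_div' _ (by positivity), Real.sqrt_sq hM0.le]
  rw [hSv] at hc
  have hS0 : 0 ≤ S := Real.sqrt_nonneg _
  have hdev : ∀ m ∈ Icc 1 X, |K * Bc f X m| * M ≤ ε / 2 * S := by
    intro m hm
    rw [abs_mul, abs_of_nonneg (Nat.cast_nonneg K : (0 : ℝ) ≤ K)]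
    have g1 := h2 m (mem_Icc.1 hm).2
    have hsK : Real.sqrt K ≤ L ^ A := by
      apply Real.sqrt_le_iff.2
      refine ⟨by positivity, hKA.trans ?_⟩
      have : 1 ≤ L ^ A := one_le_pow₀ hL1
      nlinarith
    have hSe : S = Real.sqrt (2 * V) * Real.sqrt K := by rw [hS, Real.sqrt_mul (by positivity)]
    have hKs : (K : ℝ) = Real.sqrt K * Real.sqrt K := (Real.mul_self_sqrt (Nat.cast_nonneg K)).symm
    have hL4 : 4 * q * M ≤ ε * Real.sqrt (2 * V) * L := by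
      have h5 : 4 * q * M / (ε * Real.sqrt (2 * V)) ≤ L := by linarith
      rw [div_le_iff₀ (by positivity)] at h5
      linarith
    calc (K : ℝ) * |Bc f X m| * M = K * (|Bc f X m| * M) := by ring
      _ ≤ K * (2 * q / L ^ (A + 1) * M) := mul_le_mul_of_nonneg_left (mul_le_mul_of_nonneg_right g1 hM0.le) (Nat.cast_nonneg K)
      _ = Real.sqrt K * (Real.sqrt K * (2 * q / L ^ (A + 1) * M)) := by rw [← mul_assoc (Real.sqrt K), ← hKs]
      _ ≤ Real.sqrt K * (L ^ A * (2 * q / L ^ (A + 1) * M)) := by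
          apply mul_le_mul_of_nonneg_left _ (Real.sqrt_nonneg _)
          exact mul_le_mul_of_nonneg_right hsK (by positivity)
      _ = Real.sqrt K * (2 * q * M / L) := by rw [pow_succ]; field_simp
      _ ≤ Real.sqrt K * (ε / 2 * Real.sqrt (2 * V)) := by
          apply mul_le_mul_of_nonneg_left _ (Real.sqrt_nonneg _)
          rw [div_le_iff₀ hL0]
          linarith
      _ = ε / 2 * S := by rw [hSe]; ring
  have hN : ∀ m, Nc f h m * M = tot c h m := by
    intro m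
    rw [hf, tot_eq]
    field_simp
  obtain ⟨u1, u2⟩ := hc 1 (Or.inl rfl)
  constructor
  · obtain ⟨m, hm, hm2⟩ := u1
    refine ⟨m, hm, ?_⟩
    have a1 := hdev m hm
    rw [one_mul] at hm2
    have a2 := mul_le_mul_of_nonneg_right hm2 hM0.le
    have e1 : (1 - ε / 2) * (S / M) * M = (1 - ε / 2) * S := by field_simp
    have e2 : (Nc f h m - K * Bc f X m) * M = tot c h m - K * Bc f X m * M := by rw [sub_mul, hN]
    rw [e1, e2] at a2
    have a3 := neg_abs_le (K * Bc f X m)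
    have a4 := mul_le_mul_of_nonneg_right a3 hM0.le
    rw [neg_mul] at a4
    linarith
  · intro m hm
    have a1 := hdev m hm
    have hm2 := u2 m hm
    rw [one_mul] at hm2
    have a2 := mul_le_mul_of_nonneg_right hm2 hM0.le
    have e1 : (1 + ε / 2) * (S / M) * M = (1 + ε / 2) * S := by field_simp
    have e2 : (Nc f h m - K * Bc f X m) * M = tot c h m - K * Bc f X m * M := by rw [sub_mul, hN]
    rw [e1, e2] at a2
    have a3 := le_abs_self (K * Bc f X m)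
    have a4 := mul_le_mul_of_nonneg_right a3 hM0.le
    linarith

lemma cor_sub {q : ℕ} (c d : ZMod q → ℝ) (t : ℝ) :
    cor (fun z => c z - t * d z) (fun z => c z - t * d z) = cor c c - 2 * t * cor c d + t ^ 2 * cor d d := by
  unfold cor
  rw [← sub_eq_zero]
  have e : ∑ a ∈ Cq q, (c (a : ZMod q) - t * d (a : ZMod q)) * (c (a : ZMod q) - t * d (a : ZMod q)) =
      ∑ a ∈ Cq q, c (a : ZMod q) * c (a : ZMod q) - 2 * t * ∑ a ∈ Cq q, c (a : ZMod q) * d (a : ZMod q) +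
        t ^ 2 * ∑ a ∈ Cq q, d (a : ZMod q) * d (a : ZMod q) := by
    rw [mul_sum, mul_sum, ← sum_sub_distrib, ← sum_add_distrib]
    apply sum_congr rfl
    intro a _
    ring
  rw [e]
  ring

lemma cor_self_nonneg {q : ℕ} (d : ZMod q → ℝ) : 0 ≤ cor d d := by
  unfold cor
  exact div_nonneg (sum_nonneg (fun a _ => mul_self_nonneg _)) (Nat.cast_nonneg _)

/-- the numerical part -/
lemma dir_num {V s0 t δ ε N Cd Vd V' Y T Td σ : ℝ} (hV : 0 < V) (hs : s0 ^ 2 = V) (hs0 : 0 < s0) (ht : 0 < t) (ht1 : t ≤ 1)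
    (htN : t * N ≤ ε * s0) (htV : t * N ≤ V / 4) (hCd : |Cd| ≤ N) (hVd0 : 0 ≤ Vd) (hVd : Vd ≤ N) (hσ : σ = 1 ∨ σ = -1)
    (hV' : V' = V - 2 * (σ * t) * Cd + (σ * t) ^ 2 * Vd) (hδ0 : 0 < δ) (hδ : 6 * δ * s0 ≤ ε * t) (hY : 0 ≤ Y)
    (h1 : (1 - δ) * (s0 * Y) ≤ T) (h2 : T - σ * t * Td ≤ (1 + δ) * (Real.sqrt V' * Y)) :
    -(ε * Y) ≤ σ * (Td - Cd / s0 * Y) := by
  have hσ2 : σ ^ 2 = 1 := by rcases hσ with h | h <;> rw [h] <;> norm_num
  have hσa : |σ| = 1 := by rcases hσ with h | h <;> rw [h] <;> norm_num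
  have hV'e : V' = V - 2 * t * (σ * Cd) + t ^ 2 * Vd := by rw [hV', mul_pow, hσ2]; ring
  have hσC : |σ * Cd| ≤ N := by rw [abs_mul, hσa, one_mul]; exact hCd
  obtain ⟨c1, c2⟩ := abs_le.1 hσC
  have htc : t * (σ * Cd) ≤ V / 4 := (mul_le_mul_of_nonneg_left c2 ht.le).trans htV
  have htc' : -(V / 4) ≤ t * (σ * Cd) := by
    have := mul_le_mul_of_nonneg_left c1 ht.le
    linarith
  have ht2 : t ^ 2 * Vd ≤ V / 4 := by
    have a1 : t ^ 2 * Vd ≤ t * N := by
      calc t ^ 2 * Vd = t * (t * Vd) := by ring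
        _ ≤ t * (1 * N) := by
            apply mul_le_mul_of_nonneg_left _ ht.le
            exact mul_le_mul ht1 hVd hVd0 (by norm_num)
        _ = t * N := by ring
    linarith
  have ht20 : 0 ≤ t ^ 2 * Vd := by positivity
  have hV'0 : 0 < V' := by rw [hV'e]; linarith
  have hV'4 : V' ≤ (2 * s0) ^ 2 := by rw [hV'e, mul_pow, hs]; linarith
  set r := Real.sqrt V' with hr
  have hr0 : 0 ≤ r := Real.sqrt_nonneg _
  have hr2 : r ^ 2 = V' := Real.sq_sqrt hV'0.le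
  have hr4 : r ≤ 2 * s0 := by
    apply Real.sqrt_le_iff.2
    exact ⟨by positivity, hV'4⟩
  -- r ≤ s0 + (V' - V) / (2 s0)
  have hrs : r * (2 * s0) ≤ V' + V := by nlinarith [sq_nonneg (r - s0)]
  have hkey : (1 + δ) * r * s0 ≤ V - t * (σ * Cd) + t ^ 2 * Vd / 2 + 2 * δ * s0 * s0 := by
    have b1 : δ * r * s0 ≤ δ * (2 * s0) * s0 := by
      apply mul_le_mul_of_nonneg_right _ hs0.le
      exact mul_le_mul_of_nonneg_left hr4 hδ0.le
    have b2 : r * s0 ≤ V - t * (σ * Cd) + t ^ 2 * Vd / 2 := by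
      rw [hV'e] at hrs
      linarith
    linarith
  -- multiply by s0
  have h3 : σ * t * Td ≥ (1 - δ) * (s0 * Y) - (1 + δ) * (r * Y) := by linarith
  have h4 : s0 * (σ * t * Td) ≥ (t * (σ * Cd) - t ^ 2 * Vd / 2 - 3 * δ * s0 * s0) * Y := by
    have b1 := mul_le_mul_of_nonneg_left h3 hs0.le
    have b2 := mul_le_mul_of_nonneg_right hkey hY
    have e1 : s0 * ((1 - δ) * (s0 * Y) - (1 + δ) * (r * Y)) = (V * Y - δ * s0 * s0 * Y) - ((1 + δ) * r * s0) * Y := by
      rw [← hs]; ring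
    rw [e1] at b1
    have e2 : (V - t * (σ * Cd) + t ^ 2 * Vd / 2 + 2 * δ * s0 * s0) * Y = V * Y - (t * (σ * Cd) - t ^ 2 * Vd / 2 - 3 * δ * s0 * s0) * Y - δ * s0 * s0 * Y := by
      ring
    rw [e2] at b2
    linarith
  have h5 : t ^ 2 * Vd / 2 + 3 * δ * s0 * s0 ≤ ε * t * s0 := by
    have b1 : t ^ 2 * Vd ≤ ε * t * s0 := by
      calc t ^ 2 * Vd = t * (t * Vd) := by ring
        _ ≤ t * (t * N) := by
            apply mul_le_mul_of_nonneg_left _ ht.le
            exact mul_le_mul_of_nonneg_left hVd ht.le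
        _ ≤ t * (ε * s0) := mul_le_mul_of_nonneg_left htN ht.le
        _ = _ := by ring
    have b2 : 6 * δ * s0 * s0 ≤ ε * t * s0 := mul_le_mul_of_nonneg_right hδ hs0.le
    linarith
  have h6 : (t * s0) * (-(ε * Y)) ≤ (t * s0) * (σ * (Td - Cd / s0 * Y)) := by
    have e1 : (t * s0) * (σ * (Td - Cd / s0 * Y)) = s0 * (σ * t * Td) - t * (σ * Cd) * Y := by field_simp
    rw [e1]
    have b1 := mul_le_mul_of_nonneg_right h5 hY
    linarith
  exact le_of_mul_le_mul_left h6 (by positivity)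

/-- the directions of the largest deviations -/
theorem dir_law {q : ℕ} (hq : 1 ≤ q) {ι : Type*} (s : Finset ι) (c : ZMod q → ℝ) (d : ι → ZMod q → ℝ) (hV : 0 < cor c c)
    (h0 : ∑ a ∈ Cq q, c (a : ZMod q) = 0) (hd0 : ∀ i ∈ s, ∑ a ∈ Cq q, d i (a : ZMod q) = 0) (A : ℕ)
    (ε θ : ℝ) (hε : 0 < ε) (hθ : 0 < θ) :
    ∃ C : ℝ, ∀ᶠ X : ℕ in atTop, ∀ K : ℕ, C * Real.log X ^ 2 ≤ K → (K : ℝ) ≤ Real.log X ^ A →
      PK X K (fun h => ¬ ∃ m ∈ Icc 1 X, ∀ i ∈ s, |tot (d i) h m - cor c (d i) / Real.sqrt (cor c c) * Real.sqrt (2 * K)| ≤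
        ε * Real.sqrt (2 * K)) ≤ θ := by
  classical
  set V := cor c c with hVd
  set s0 := Real.sqrt V with hs0d
  have hs0 : 0 < s0 := Real.sqrt_pos.2 hV
  have hs : s0 ^ 2 = V := Real.sq_sqrt hV.le
  set N := ∑ i ∈ s, (|cor c (d i)| + cor (d i) (d i)) + 1 with hN
  have hNi : ∀ i ∈ s, |cor c (d i)| ≤ N ∧ cor (d i) (d i) ≤ N := by
    intro i hi
    have h1 := single_le_sum (f := fun i => |cor c (d i)| + cor (d i) (d i)) (fun j _ => add_nonneg (abs_nonneg _) (cor_self_nonneg _)) hi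
    have h2 := abs_nonneg (cor c (d i))
    have h3 := cor_self_nonneg (d i)
    constructor <;> linarith
  have hN1 : 1 ≤ N := by
    have : 0 ≤ ∑ i ∈ s, (|cor c (d i)| + cor (d i) (d i)) := sum_nonneg (fun j _ => add_nonneg (abs_nonneg _) (cor_self_nonneg _))
    linarith
  have hN0 : 0 < N := by linarith
  set t := min 1 (min (ε * s0 / N) (V / (4 * N))) with ht
  have ht0 : 0 < t := lt_min one_pos (lt_min (by positivity) (by positivity))
  have ht1 : t ≤ 1 := min_le_left _ _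
  have htN : t * N ≤ ε * s0 := by
    have : t ≤ ε * s0 / N := (min_le_right _ _).trans (min_le_left _ _)
    rwa [le_div_iff₀ hN0] at this
  have htV : t * N ≤ V / 4 := by
    have : t ≤ V / (4 * N) := (min_le_right _ _).trans (min_le_right _ _)
    rw [le_div_iff₀ (by positivity)] at this
    linarith
  set δ := min 1 (ε * t / (6 * s0)) with hδ
  have hδ0 : 0 < δ := lt_min one_pos (by positivity)
  have hδ1 : δ ≤ 1 := min_le_left _ _
  have hδ6 : 6 * δ * s0 ≤ ε * t := by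
    have : δ ≤ ε * t / (6 * s0) := min_le_right _ _
    rw [le_div_iff₀ (by positivity)] at this
    linarith
  -- the functionals
  set θ' := θ / (2 * s.card + 1) with hθ'
  have hθ'0 : 0 < θ' := by positivity
  obtain ⟨C0, hC0⟩ := bal_law hq c hV h0 A δ θ' hδ0 hδ1 hθ'0
  have hex : ∀ (i : ι) (σ : ℝ), ∃ C : ℝ, i ∈ s → (σ = 1 ∨ σ = -1) → ∀ᶠ X : ℕ in atTop, ∀ K : ℕ, C * Real.log X ^ 2 ≤ K → (K : ℝ) ≤ Real.log X ^ A →
      PK X K (fun h => ¬ (∀ m ∈ Icc 1 X, tot c h m - (σ * t) * tot (d i) h m ≤ (1 + δ) * (Real.sqrt (V - 2 * (σ * t) * cor c (d i) +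
        (σ * t) ^ 2 * cor (d i) (d i)) * Real.sqrt (2 * K)))) ≤ θ' := by
    intro i σ
    by_cases hi : i ∈ s ∧ (σ = 1 ∨ σ = -1)
    · have hcs := cor_sub c (d i) (σ * t)
      obtain ⟨k1, k2⟩ := hNi i hi.1
      have hσ2 : σ ^ 2 = 1 := by rcases hi.2 with h | h <;> rw [h] <;> norm_num
      have hσa : |σ| = 1 := by rcases hi.2 with h | h <;> rw [h] <;> norm_num
      have hpos : 0 < cor (fun z => c z - (σ * t) * d i z) (fun z => c z - (σ * t) * d i z) := by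
        rw [hcs, mul_pow, hσ2, one_mul]
        have h3 : |2 * (σ * t) * cor c (d i)| ≤ 2 * (t * N) := by
          rw [abs_mul, abs_mul, abs_mul, hσa, one_mul, abs_of_pos ht0, abs_of_pos (by norm_num : (0 : ℝ) < 2), mul_assoc]
          exact mul_le_mul_of_nonneg_left (mul_le_mul_of_nonneg_left k1 ht0.le) (by norm_num)
        have h4 := (abs_le.1 h3).2
        have h5 : 0 ≤ t ^ 2 * cor (d i) (d i) := mul_nonneg (sq_nonneg t) (cor_self_nonneg _)
        have h6 : cor c c = V := rfl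
        rw [h6]
        linarith
      obtain ⟨C, hC⟩ := bal_law hq (fun z => c z - (σ * t) * d i z) hpos (by
        rw [sum_sub_distrib, ← mul_sum, h0, hd0 i hi.1, mul_zero, sub_zero]) A δ θ' hδ0 hδ1 hθ'0
      refine ⟨C, fun _ _ => ?_⟩
      filter_upwards [hC] with X h1 K hK hKA
      refine (PK_mono ?_).trans (h1 K hK hKA)
      intro h _ hh hc
      apply hh
      intro m hm
      have h2 := hc.2 m hm
      rw [tot_sub, hcs] at h2
      have e : Real.sqrt (2 * (cor c c - 2 * (σ * t) * cor c (d i) + (σ * t) ^ 2 * cor (d i) (d i)) * K) =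
          Real.sqrt (V - 2 * (σ * t) * cor c (d i) + (σ * t) ^ 2 * cor (d i) (d i)) * Real.sqrt (2 * K) := by
        rw [← Real.sqrt_mul (by rw [hcs] at hpos; exact hpos.le)]
        congr 1
        ring
      rw [e] at h2
      exact h2
    · exact ⟨0, fun h1 h2 => absurd ⟨h1, h2⟩ hi⟩
  choose CC hCC using hex
  set J : Finset (ι × ℝ) := s ×ˢ ({1, -1} : Finset ℝ) with hJ
  refine ⟨|C0| + ∑ j ∈ J, |CC j.1 j.2|, ?_⟩
  have hall : ∀ᶠ X : ℕ in atTop, ∀ j ∈ J, ∀ K : ℕ, CC j.1 j.2 * Real.log X ^ 2 ≤ K → (K : ℝ) ≤ Real.log X ^ A →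
      PK X K (fun h => ¬ (∀ m ∈ Icc 1 X, tot c h m - (j.2 * t) * tot (d j.1) h m ≤ (1 + δ) * (Real.sqrt (V - 2 * (j.2 * t) * cor c (d j.1) +
        (j.2 * t) ^ 2 * cor (d j.1) (d j.1)) * Real.sqrt (2 * K)))) ≤ θ' := by
    rw [Filter.eventually_all_finset]
    rintro ⟨i, σ⟩ hj
    rw [hJ, mem_product, mem_insert, mem_singleton] at hj
    exact hCC i σ hj.1 hj.2
  filter_upwards [hC0, hall] with X h1 h2 K hK hKA
  have hLn : 0 ≤ Real.log (X : ℝ) ^ 2 := sq_nonneg _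
  have hsumn : 0 ≤ ∑ j ∈ J, |CC j.1 j.2| := sum_nonneg (fun _ _ => abs_nonneg _)
  have b1 := h1 K (by
    refine le_trans (mul_le_mul_of_nonneg_right ?_ hLn) hK
    linarith [le_abs_self C0]) hKA
  have b2 : ∀ j ∈ J, PK X K (fun h => ¬ (∀ m ∈ Icc 1 X, tot c h m - (j.2 * t) * tot (d j.1) h m ≤ (1 + δ) * (Real.sqrt (V - 2 * (j.2 * t) * cor c (d j.1) +
        (j.2 * t) ^ 2 * cor (d j.1) (d j.1)) * Real.sqrt (2 * K)))) ≤ θ' := by
    intro j hj
    apply h2 j hj K _ hKA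
    refine le_trans (mul_le_mul_of_nonneg_right ?_ hLn) hK
    have h3 := single_le_sum (f := fun j : ι × ℝ => |CC j.1 j.2|) (fun _ _ => abs_nonneg _) hj
    linarith [le_abs_self (CC j.1 j.2), abs_nonneg C0]
  refine (PK_mono (C := fun h => (¬ ((∃ m ∈ Icc 1 X, (1 - δ) * Real.sqrt (2 * cor c c * K) ≤ tot c h m) ∧
        (∀ m ∈ Icc 1 X, tot c h m ≤ (1 + δ) * Real.sqrt (2 * cor c c * K)))) ∨
      ∃ j ∈ J, ¬ (∀ m ∈ Icc 1 X, tot c h m - (j.2 * t) * tot (d j.1) h m ≤ (1 + δ) * (Real.sqrt (V - 2 * (j.2 * t) * cor c (d j.1) +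
        (j.2 * t) ^ 2 * cor (d j.1) (d j.1)) * Real.sqrt (2 * K)))) ?_).trans ?_
  · intro h _ hh
    by_contra hc
    rw [not_or, not_not] at hc
    obtain ⟨⟨⟨m, hm, hm2⟩, _⟩, hc2⟩ := hc
    apply hh
    refine ⟨m, hm, fun i hi => ?_⟩
    have hY : 0 ≤ Real.sqrt (2 * (K : ℝ)) := Real.sqrt_nonneg _
    have e0 : Real.sqrt (2 * cor c c * K) = s0 * Real.sqrt (2 * K) := by
      rw [hs0d, ← Real.sqrt_mul hV.le]
      congr 1
      ring
    rw [e0] at hm2
    obtain ⟨k1, k2⟩ := hNi i hi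
    have hdir : ∀ σ : ℝ, (σ = 1 ∨ σ = -1) → -(ε * Real.sqrt (2 * K)) ≤ σ * (tot (d i) h m - cor c (d i) / s0 * Real.sqrt (2 * K)) := by
      intro σ hσ
      have hj : (i, σ) ∈ J := by
        rw [hJ, mem_product, mem_insert, mem_singleton]
        exact ⟨hi, hσ⟩
      have h3 : ∀ m ∈ Icc 1 X, tot c h m - (σ * t) * tot (d i) h m ≤ (1 + δ) * (Real.sqrt (V - 2 * (σ * t) * cor c (d i) +
          (σ * t) ^ 2 * cor (d i) (d i)) * Real.sqrt (2 * K)) := by
        by_contra hcc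
        exact hc2 ⟨(i, σ), hj, hcc⟩
      exact dir_num hV hs hs0 ht0 ht1 htN htV k1 (cor_self_nonneg _) k2 hσ rfl hδ0 hδ6 hY hm2 (h3 m hm)
    have p1 := hdir 1 (Or.inl rfl)
    have p2 := hdir (-1) (Or.inr rfl)
    rw [abs_le]
    constructor <;> linarith
  · refine (PK_or _ _).trans ?_
    have b3 := (PK_exists J (fun j h => ¬ (∀ m ∈ Icc 1 X, tot c h m - (j.2 * t) * tot (d j.1) h m ≤ (1 + δ) * (Real.sqrt (V - 2 * (j.2 * t) * cor c (d j.1) +
        (j.2 * t) ^ 2 * cor (d j.1) (d j.1)) * Real.sqrt (2 * K)))) (X := X) (K := K)).trans (sum_le_sum b2)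
    rw [sum_const, nsmul_eq_mul] at b3
    have hJc : (J.card : ℝ) ≤ 2 * s.card := by
      have : J.card ≤ s.card * 2 := by
        rw [hJ, card_product]
        exact Nat.mul_le_mul_left _ card_le_two
      have h3 : (J.card : ℝ) ≤ s.card * 2 := by exact_mod_cast this
      linarith
    have b4 := mul_le_mul_of_nonneg_right hJc hθ'0.le
    have e : θ' + 2 * s.card * θ' = θ := by rw [hθ']; field_simp; ring
    linarith

end Pool.Agent.N735.CL
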