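import Mathlib
import Pool.Agent.N735.CL.Cl6
import Pool.Agent.N735.CL.Cl8

set_option autoImplicit false
set_option maxHeartbeats 2000000

/-! Ties in the races. -/

namespace Pool.Agent.N735.CL

open Finset Filter Topology

/-- the number of the primes of a class, as a natural number -/
def Nn {K : ℕ} (q a : ℕ) (h : Fin K → ℕ) (x : ℕ) : ℕ :=
  (univ.filter (fun i : Fin K => (x + h i).Prime ∧ x + h i ≡ a [MOD q])).card

/-- the factor of one coordinate -/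
noncomputable def zf (q a b : ℕ) (ζ : ℂ) (n : ℕ) : ℂ :=
  (if n.Prime ∧ n ≡ a [MOD q] then ζ else 1) * (if n.Prime ∧ n ≡ b [MOD q] then ζ⁻¹ else 1)

lemma prod_zf {K : ℕ} (q a b : ℕ) (ζ : ℂ) (h : Fin K → ℕ) (x : ℕ) :
    ∏ i, zf q a b ζ (x + h i) = ζ ^ (Nn q a h x) * (ζ⁻¹) ^ (Nn q b h x) := by
  unfold zf Nn
  rw [prod_mul_distrib, prod_ite, prod_ite, prod_const, prod_const_one, mul_one, prod_const, prod_const_one, mul_one]

lemma geom_root {M : ℕ} {η : ℂ} (hη : η ^ M = 1) : 0 ≤ (∑ j ∈ range M, η ^ j).re := by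
  by_cases h : η = 1
  · rw [h]
    simp
  · have h1 := mul_geom_sum η M
    rw [hη, sub_self] at h1
    have h2 : ∑ j ∈ range M, η ^ j = 0 := by
      rcases mul_eq_zero.1 h1 with h3 | h3
      · exact absurd (sub_eq_zero.1 h3) h
      · exact h3
    rw [h2]
    simp

/-- the indicator of an equality -/
lemma ind_le {K M : ℕ} (hM : 0 < M) (q a b u v : ℕ) {ζ : ℂ} (hζ : ζ ^ M = 1) (h : Fin K → ℕ) (x : ℕ) :
    (if Nn q a h x + u = Nn q b h x + v then (1 : ℝ) else 0) ≤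
      (1 / M) * (∑ j ∈ range M, (ζ ^ u * (ζ⁻¹) ^ v) ^ j * ∏ i, zf q a b (ζ ^ j) (x + h i)).re := by
  have hζ0 : ζ ≠ 0 := by
    intro h0
    rw [h0, zero_pow hM.ne'] at hζ
    exact zero_ne_one hζ
  set η := (ζ ^ u * (ζ⁻¹) ^ v) * (ζ ^ (Nn q a h x) * (ζ⁻¹) ^ (Nn q b h x)) with hη
  have e : ∑ j ∈ range M, (ζ ^ u * (ζ⁻¹) ^ v) ^ j * ∏ i, zf q a b (ζ ^ j) (x + h i) = ∑ j ∈ range M, η ^ j := by
    apply sum_congr rfl
    intro j _
    rw [prod_zf, hη, mul_pow (ζ ^ u * ζ⁻¹ ^ v)]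
    congr 1
    rw [mul_pow, ← inv_pow, ← pow_mul, ← pow_mul, ← pow_mul, ← pow_mul, mul_comm (Nn q a h x) j, mul_comm (Nn q b h x) j]
  rw [e]
  have hηM : η ^ M = 1 := by
    rw [hη, mul_pow, mul_pow, mul_pow, ← pow_mul, ← pow_mul, ← pow_mul, ← pow_mul, mul_comm u, mul_comm v, mul_comm (Nn q a h x), mul_comm (Nn q b h x),
      pow_mul, pow_mul, pow_mul, pow_mul, inv_pow, hζ]
    simp
  have hM0 : (0 : ℝ) < M := by exact_mod_cast hM
  split_ifs with heq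
  · have h1 : η = 1 := by
      rw [hη]
      have e1 : ζ ^ u * ζ⁻¹ ^ v * (ζ ^ Nn q a h x * ζ⁻¹ ^ Nn q b h x) = ζ ^ (Nn q a h x + u) * (ζ⁻¹) ^ (Nn q b h x + v) := by
        rw [pow_add, pow_add]; ring
      rw [e1, heq, ← mul_pow, mul_inv_cancel₀ hζ0, one_pow]
    rw [h1]
    simp only [one_pow, sum_const, card_range, nsmul_eq_mul, mul_one, Complex.natCast_re]
    apply le_of_eq
    field_simp
  · exact mul_nonneg (by positivity) (geom_root hηM)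

lemma sum_prodC (X K : ℕ) (f : ℕ → ℂ) : ∑ h ∈ Om X K, ∏ i, f (h i) = (∑ v ∈ Icc 1 X, f v) ^ K := by
  unfold Om
  rw [← Finset.prod_univ_sum]
  simp

/-- the probability of an equality -/
lemma PK_eq_le {M : ℕ} (hM : 0 < M) (q a b u v X K m : ℕ) (hX : 1 ≤ X) {ζ : ℂ} (hζ : ζ ^ M = 1) :
    PK X K (fun h => Nn q a h m + u = Nn q b h m + v) ≤
      (1 / M) * ∑ j ∈ range M, ‖(∑ n ∈ Icc 1 X, zf q a b (ζ ^ j) (m + n)) / X‖ ^ K := by
  have hX0 : (0 : ℝ) < X := by exact_mod_cast hX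
  have hM0 : (0 : ℝ) < M := by exact_mod_cast hM
  have hζn : ‖ζ‖ = 1 := by
    have h1 : ‖ζ‖ ^ M = 1 := by rw [← norm_pow, hζ, norm_one]
    exact (pow_eq_one_iff_of_nonneg (norm_nonneg _) hM.ne').1 h1
  unfold PK EK
  have h1 : ∑ h ∈ Om X K, (if Nn q a h m + u = Nn q b h m + v then (1 : ℝ) else 0) ≤
      ∑ h ∈ Om X K, (1 / M) * (∑ j ∈ range M, (ζ ^ u * (ζ⁻¹) ^ v) ^ j * ∏ i, zf q a b (ζ ^ j) (m + h i)).re :=
    sum_le_sum (fun h _ => ind_le hM q a b u v hζ h m)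
  rw [← mul_sum, ← Complex.re_sum, sum_comm] at h1
  have h2 : (∑ j ∈ range M, ∑ h ∈ Om X K, (ζ ^ u * (ζ⁻¹) ^ v) ^ j * ∏ i, zf q a b (ζ ^ j) (m + h i)).re ≤
      ∑ j ∈ range M, ‖∑ n ∈ Icc 1 X, zf q a b (ζ ^ j) (m + n)‖ ^ K := by
    refine (Complex.re_le_norm _).trans ((norm_sum_le _ _).trans (sum_le_sum (fun j _ => ?_)))
    rw [← mul_sum, norm_mul, sum_prodC X K (fun n => zf q a b (ζ ^ j) (m + n)), norm_pow, norm_pow, norm_mul, norm_pow, norm_pow, norm_inv, hζn]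
    simp
  rw [div_le_iff₀ (by positivity)]
  have h3 : (∑ h ∈ Om X K, (if Nn q a h m + u = Nn q b h m + v then (1 : ℝ) else 0)) ≤
      (1 / M) * (∑ j ∈ range M, ‖(∑ n ∈ Icc 1 X, zf q a b (ζ ^ j) (m + n)) / X‖ ^ K) * X ^ K := by
    refine h1.trans ?_
    rw [mul_assoc, sum_mul]
    apply mul_le_mul_of_nonneg_left _ (by positivity)
    refine h2.trans (le_of_eq ?_)
    apply sum_congr rfl
    intro j _
    rw [norm_div, div_pow, Complex.norm_natCast, div_mul_cancel₀ _ (by positivity)]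
  refine le_trans (le_of_eq ?_) h3
  apply sum_congr rfl
  intro h _
  by_cases hh : Nn q a h m + u = Nn q b h m + v <;> simp [hh]

end Pool.Agent.N735.CL
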