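import Mathlib
import Pool.Agent.N735.CL.Ti1
import Pool.Agent.N735.CL.Gum

set_option autoImplicit false
set_option maxHeartbeats 2000000

/-! Ties in the races: the law. -/

namespace Pool.Agent.N735.CL

open Finset Filter Topology

lemma zf_one (q a b n : ℕ) : zf q a b 1 n = 1 := by
  unfold zf; split_ifs <;> simp

lemma zf_eq {q a b : ℕ} (hab : ¬ a ≡ b [MOD q]) (ζ : ℂ) (m n : ℕ) :
    zf q a b ζ (m + n) = 1 + (ic q a (m + n) * pr m n : ℝ) * (ζ - 1) + (ic q b (m + n) * pr m n : ℝ) * (ζ⁻¹ - 1) := by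
  unfold zf ic pr
  by_cases h1 : (m + n).Prime
  · by_cases h2 : m + n ≡ a [MOD q]
    · have h3 : ¬ m + n ≡ b [MOD q] := fun h => hab (h2.symm.trans h)
      simp [h1, h2, h3]
    · by_cases h3 : m + n ≡ b [MOD q]
      · simp [h1, h2, h3]
      · simp [h1, h2, h3]
  · simp [h1]

lemma mean_zf {q a b : ℕ} (hab : ¬ a ≡ b [MOD q]) (ζ : ℂ) (m X : ℕ) (hX : 1 ≤ X) :
    (∑ n ∈ Icc 1 X, zf q a b ζ (m + n)) / X = 1 + (E1 X (fun h => ic q a (m + h) * pr m h) : ℝ) * (ζ - 1) +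
      (E1 X (fun h => ic q b (m + h) * pr m h) : ℝ) * (ζ⁻¹ - 1) := by
  have hX0 : (X : ℂ) ≠ 0 := by exact_mod_cast (by omega : X ≠ 0)
  rw [sum_congr rfl (fun n _ => zf_eq hab ζ m n), sum_add_distrib, sum_add_distrib, ← sum_mul, ← sum_mul, sum_const, Nat.card_Icc, Nat.add_sub_cancel]
  unfold E1
  push_cast
  field_simp
  simp

lemma norm_zf {q a b : ℕ} (hab : ¬ a ≡ b [MOD q]) {ζ : ℂ} (hζ : ‖ζ‖ = 1) (m X : ℕ) (hX : 1 ≤ X) {L φ δ κ : ℝ} (hL : 4 ≤ L) (hφ : 1 ≤ φ)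
    (hκ : κ ≤ 1 - ζ.re) (hδ : 4 * δ * φ ≤ κ)
    (ha : |L * E1 X (fun h => ic q a (m + h) * pr m h) - 1 / φ| ≤ δ) (hb : |L * E1 X (fun h => ic q b (m + h) * pr m h) - 1 / φ| ≤ δ) :
    ‖(∑ n ∈ Icc 1 X, zf q a b ζ (m + n)) / X‖ ≤ Real.exp (-(κ / (φ * L))) := by
  rw [mean_zf hab ζ m X hX]
  set pa := E1 X (fun h => ic q a (m + h) * pr m h) with hpa
  set pb := E1 X (fun h => ic q b (m + h) * pr m h) with hpb
  have hL0 : 0 < L := by linarith
  have hφ0 : 0 < φ := by linarith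
  set p := 1 / (φ * L) with hp
  have hp0 : 0 < p := by positivity
  have hζ0 : ζ ≠ 0 := by intro h; rw [h, norm_zero] at hζ; exact zero_ne_one hζ
  have hre : |ζ.re| ≤ 1 := by rw [← hζ]; exact Complex.abs_re_le_norm ζ
  have hinv : ζ⁻¹ = (starRingEnd ℂ) ζ := by
    rw [Complex.inv_def, Complex.normSq_eq_norm_sq, hζ]
    simp
  have hsum : ζ + ζ⁻¹ = (2 * ζ.re : ℝ) := by
    rw [hinv, Complex.add_conj]
  have e : (1 : ℂ) + (pa : ℝ) * (ζ - 1) + (pb : ℝ) * (ζ⁻¹ - 1) = ((1 - 2 * p * (1 - ζ.re) : ℝ) : ℂ) + (((pa - p : ℝ) : ℂ) * (ζ - 1) + ((pb - p : ℝ) : ℂ) * (ζ⁻¹ - 1)) := by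
    have : (p : ℂ) * (ζ - 1) + (p : ℂ) * (ζ⁻¹ - 1) = ((-(2 * p * (1 - ζ.re)) : ℝ) : ℂ) := by
      have h1 : (p : ℂ) * (ζ - 1) + (p : ℂ) * (ζ⁻¹ - 1) = (p : ℂ) * ((ζ + ζ⁻¹) - 2) := by ring
      rw [h1, hsum]
      push_cast
      ring
    push_cast at this ⊢
    linear_combination this
  rw [e]
  have hn1 : ‖ζ - 1‖ ≤ 2 := (norm_sub_le _ _).trans (by rw [hζ, norm_one]; norm_num)
  have hn2 : ‖ζ⁻¹ - 1‖ ≤ 2 := (norm_sub_le _ _).trans (by rw [norm_inv, hζ, norm_one]; norm_num)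
  have hda : |pa - p| ≤ δ / L := by
    have e1 : L * pa - 1 / φ = L * (pa - p) := by rw [hp]; field_simp
    rw [e1, abs_mul, abs_of_pos hL0] at ha
    rw [le_div_iff₀ hL0]; linarith
  have hdb : |pb - p| ≤ δ / L := by
    have e1 : L * pb - 1 / φ = L * (pb - p) := by rw [hp]; field_simp
    rw [e1, abs_mul, abs_of_pos hL0] at hb
    rw [le_div_iff₀ hL0]; linarith
  have hδ0 : 0 ≤ δ := (abs_nonneg _).trans ha
  have hp4 : p ≤ 1 / 4 := by
    rw [hp, div_le_div_iff₀ (by positivity) (by norm_num)]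
    nlinarith
  obtain ⟨r1, r2⟩ := abs_le.1 hre
  have hmain : ‖((1 - 2 * p * (1 - ζ.re) : ℝ) : ℂ)‖ = 1 - 2 * p * (1 - ζ.re) := by
    rw [Complex.norm_real, Real.norm_of_nonneg]
    nlinarith
  have h1 : ‖((1 - 2 * p * (1 - ζ.re) : ℝ) : ℂ) + (((pa - p : ℝ) : ℂ) * (ζ - 1) + ((pb - p : ℝ) : ℂ) * (ζ⁻¹ - 1))‖ ≤
      (1 - 2 * p * (1 - ζ.re)) + (δ / L * 2 + δ / L * 2) := by
    refine (norm_add_le _ _).trans ?_
    rw [hmain]
    have h2 : ‖((pa - p : ℝ) : ℂ) * (ζ - 1)‖ ≤ δ / L * 2 := by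
      rw [norm_mul, Complex.norm_real, Real.norm_eq_abs]
      exact mul_le_mul hda hn1 (norm_nonneg _) (by positivity)
    have h3 : ‖((pb - p : ℝ) : ℂ) * (ζ⁻¹ - 1)‖ ≤ δ / L * 2 := by
      rw [norm_mul, Complex.norm_real, Real.norm_eq_abs]
      exact mul_le_mul hdb hn2 (norm_nonneg _) (by positivity)
    have h4 := norm_add_le (((pa - p : ℝ) : ℂ) * (ζ - 1)) (((pb - p : ℝ) : ℂ) * (ζ⁻¹ - 1))
    linarith
  refine h1.trans ?_
  have h5 : δ / L * 2 + δ / L * 2 ≤ p * κ := by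
    have e1 : δ / L * 2 + δ / L * 2 = (4 * δ * φ) * p := by rw [hp]; field_simp; ring
    rw [e1]
    have := mul_le_mul_of_nonneg_right hδ hp0.le
    linarith
  have h6 : p * κ ≤ p * (1 - ζ.re) := mul_le_mul_of_nonneg_left hκ hp0.le
  have h7 : κ / (φ * L) = p * κ := by rw [hp]; ring
  rw [h7]
  have h8 := Real.add_one_le_exp (-(p * κ))
  linarith

/-- ties are rare -/
theorem ties_law {q a b : ℕ} (hq : 1 ≤ q) (ha : a ∈ Cq q) (hb : b ∈ Cq q) (hab : ¬ a ≡ b [MOD q]) (J : ℕ) (ε θ : ℝ) (hε : 0 < ε) (hθ : 0 < θ) :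
    ∃ C : ℝ, ∀ᶠ X : ℕ in atTop, ∀ K : ℕ, C * Real.log X ≤ K →
      PK X K (fun h => ε * X ≤ (((Icc 1 X).filter (fun x => Nn q a h x ≤ Nn q b h x + J ∧ Nn q b h x ≤ Nn q a h x + J)).card : ℝ)) ≤ θ := by
  have hφ1 : (1 : ℝ) ≤ Nat.totient q := by exact_mod_cast Nat.totient_pos.2 hq
  set φ := (Nat.totient q : ℝ) with hφ
  have hφ0 : 0 < φ := by linarith
  obtain ⟨M, hM⟩ := exists_nat_ge (max 1 ((2 * J + 1) * 2 / (ε * θ)))
  have hM1 : (1 : ℝ) ≤ M := (le_max_left _ _).trans hM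
  have hM0 : (0 : ℝ) < M := by linarith
  have hMp : 0 < M := by exact_mod_cast hM0
  have hM2 : (2 * J + 1) * 2 / (ε * θ) ≤ M := (le_max_right _ _).trans hM
  set ζ : ℂ := Complex.exp (2 * Real.pi * Complex.I / M) with hζ
  have hprim : IsPrimitiveRoot ζ M := Complex.isPrimitiveRoot_exp M hMp.ne'
  have hζM : ζ ^ M = 1 := hprim.pow_eq_one
  have hζn : ‖ζ‖ = 1 := by
    have h1 : ‖ζ‖ ^ M = 1 := by rw [← norm_pow, hζM, norm_one]
    exact (pow_eq_one_iff_of_nonneg (norm_nonneg _) hMp.ne').1 h1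
  have hζj : ∀ j : ℕ, ‖ζ ^ j‖ = 1 := fun j => by rw [norm_pow, hζn, one_pow]
  obtain ⟨κ, hκ0, hκ⟩ : ∃ κ : ℝ, 0 < κ ∧ ∀ j ∈ range M, j ≠ 0 → κ ≤ 1 - (ζ ^ j).re := by
    have hpos : ∀ j ∈ range M, j ≠ 0 → 0 < 1 - (ζ ^ j).re := by
      intro j hj hj0
      have hne : ζ ^ j ≠ 1 := hprim.pow_ne_one_of_pos_of_lt hj0 (mem_range.1 hj)
      have h1 : (ζ ^ j).re ≤ 1 := by rw [← hζj j]; exact Complex.re_le_norm _
      rcases h1.lt_or_eq with h2 | h2
      · linarith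
      · exfalso
        apply hne
        have h3 := Complex.sq_norm (ζ ^ j)
        rw [hζj j, Complex.normSq_apply, h2] at h3
        have h4 : (ζ ^ j).im = 0 := by nlinarith
        exact Complex.ext (by rw [h2, Complex.one_re]) (by rw [h4, Complex.one_im])
    set P := (range M).filter (fun j => j ≠ 0) with hP
    rcases P.eq_empty_or_nonempty with hPe | hPn
    · refine ⟨1, one_pos, fun j hj hj0 => ?_⟩
      exfalso
      have : j ∈ P := by rw [hP, mem_filter]; exact ⟨hj, hj0⟩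
      rw [hPe] at this
      exact absurd this (notMem_empty _)
    · obtain ⟨j0, hj0, hmin⟩ := P.exists_min_image (fun j => 1 - (ζ ^ j).re) hPn
      rw [hP, mem_filter] at hj0
      refine ⟨1 - (ζ ^ j0).re, hpos j0 hj0.1 hj0.2, fun j hj hj0' => hmin j ?_⟩
      rw [hP, mem_filter]; exact ⟨hj, hj0'⟩
  refine ⟨φ * Real.log M / κ, ?_⟩
  filter_upwards [win_class q hq (κ / (4 * φ)) (by positivity), eventually_ge_atTop 1, tends_log.eventually_ge_atTop 4] with X h1 hX1 hL4 K hK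
  have hX0 : (0 : ℝ) < X := by exact_mod_cast (by omega : 0 < X)
  set L := Real.log (X : ℝ) with hL
  have hL0 : 0 < L := by linarith
  have hpt : ∀ m ∈ Icc 1 X, ∀ u v : ℕ, PK X K (fun h => Nn q a h m + u = Nn q b h m + v) ≤ 2 / M := by
    intro m hm u v
    have hmX := (mem_Icc.1 hm).2
    refine (PK_eq_le hMp q a b u v X K m hX1 hζM).trans ?_
    have h2 : ∀ j ∈ range M, ‖(∑ n ∈ Icc 1 X, zf q a b (ζ ^ j) (m + n)) / X‖ ^ K ≤ (if j = 0 then 1 else 0) + 1 / M := by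
      intro j hj
      by_cases hj0 : j = 0
      · rw [hj0, pow_zero, if_pos rfl]
        simp only [zf_one, sum_const, Nat.card_Icc, Nat.add_sub_cancel, nsmul_eq_mul, mul_one]
        rw [div_self (by exact_mod_cast (by omega : X ≠ 0)), norm_one, one_pow]
        have : 0 < 1 / (M : ℝ) := by positivity
        linarith
      · rw [if_neg hj0, zero_add]
        have h3 := norm_zf hab (hζj j) m X hX1 hL4 hφ1 (hκ j hj hj0) (δ := κ / (4 * φ)) (le_of_eq (by field_simp)) (h1 a ha m hmX) (h1 b hb m hmX)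
        calc ‖(∑ n ∈ Icc 1 X, zf q a b (ζ ^ j) (m + n)) / X‖ ^ K ≤ Real.exp (-(κ / (φ * L))) ^ K := pow_le_pow_left₀ (norm_nonneg _) h3 K
          _ = Real.exp (-(K * (κ / (φ * L)))) := by rw [← Real.exp_nat_mul]; congr 1; ring
          _ ≤ Real.exp (-Real.log M) := by
              apply Real.exp_le_exp.2
              have h4 : Real.log M ≤ K * (κ / (φ * L)) := by
                calc Real.log M = (φ * Real.log M / κ * L) * (κ / (φ * L)) := by field_simp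
                  _ ≤ K * (κ / (φ * L)) := mul_le_mul_of_nonneg_right hK (by positivity)
              linarith
          _ = 1 / M := by rw [Real.exp_neg, Real.exp_log hM0, one_div]
    calc (1 / M) * ∑ j ∈ range M, ‖(∑ n ∈ Icc 1 X, zf q a b (ζ ^ j) (m + n)) / X‖ ^ K ≤
          (1 / M) * ∑ j ∈ range M, ((if j = 0 then (1 : ℝ) else 0) + 1 / M) := mul_le_mul_of_nonneg_left (sum_le_sum h2) (by positivity)
      _ = 2 / M := by
          rw [sum_add_distrib, sum_ite_eq' (range M) 0 (fun _ => (1 : ℝ)), if_pos (mem_range.2 hMp), sum_const, card_range, nsmul_eq_mul]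
          field_simp
          norm_num
  -- the mean number of ties
  set Φ : (Fin K → ℕ) → ℝ := fun h => ∑ x ∈ Icc 1 X, ∑ k ∈ range (2 * J + 1), (if Nn q a h x + J = Nn q b h x + k then (1 : ℝ) else 0) with hΦ
  have hEK : EK X K Φ ≤ X * ((2 * J + 1) * (2 / M)) := by
    have e1 : EK X K Φ = ∑ x ∈ Icc 1 X, ∑ k ∈ range (2 * J + 1), PK X K (fun h => Nn q a h x + J = Nn q b h x + k) := by
      rw [hΦ, EK_sum]
      apply sum_congr rfl
      intro x _
      rw [EK_sum]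
      apply sum_congr rfl
      intro k _
      unfold PK
      apply EK_congr
      intro h _
      by_cases hh : Nn q a h x + J = Nn q b h x + k <;> simp [hh]
    rw [e1]
    calc ∑ x ∈ Icc 1 X, ∑ k ∈ range (2 * J + 1), PK X K (fun h => Nn q a h x + J = Nn q b h x + k) ≤
          ∑ x ∈ Icc 1 X, ∑ k ∈ range (2 * J + 1), (2 / M : ℝ) := sum_le_sum (fun x hx => sum_le_sum (fun k _ => hpt x hx J k))
      _ = X * ((2 * J + 1) * (2 / M)) := by
          rw [sum_const, sum_const, Nat.card_Icc, Nat.add_sub_cancel, card_range, nsmul_eq_mul, nsmul_eq_mul]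
          push_cast
          ring
  have hΦ0 : ∀ h ∈ Om X K, 0 ≤ Φ h := fun h _ => sum_nonneg (fun x _ => sum_nonneg (fun k _ => by split_ifs <;> norm_num))
  refine (PK_mono (C := fun h => ε * X ≤ Φ h) ?_).trans ((PK_markov hΦ0 (by positivity)).trans ?_)
  · intro h _ hh
    refine hh.trans ?_
    rw [card_filter]
    push_cast
    simp only [hΦ]
    apply sum_le_sum
    intro x _
    split_ifs with hc
    · have hk : Nn q a h x + J - Nn q b h x ∈ range (2 * J + 1) := by rw [mem_range]; omega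
      have h5 := single_le_sum (f := fun k => if Nn q a h x + J = Nn q b h x + k then (1 : ℝ) else 0)
        (fun k _ => by split_ifs <;> norm_num) hk
      refine le_trans (le_of_eq ?_) h5
      rw [if_pos (by omega)]
    · exact sum_nonneg (fun k _ => by split_ifs <;> norm_num)
  · rw [div_le_iff₀ (by positivity)]
    refine hEK.trans ?_
    rw [div_le_iff₀ (by positivity)] at hM2
    have h6 : (2 * (J : ℝ) + 1) * (2 / M) ≤ ε * θ := by
      rw [← mul_div_assoc, div_le_iff₀ hM0]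
      linarith
    calc (X : ℝ) * ((2 * J + 1) * (2 / M)) ≤ X * (ε * θ) := mul_le_mul_of_nonneg_left h6 hX0.le
      _ = θ * (ε * X) := by ring

end Pool.Agent.N735.CL
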