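import Mathlib
import Pool.Agent.N735.CL.Ti2
import Pool.Agent.N735.CL.GumP

set_option autoImplicit false
set_option maxHeartbeats 2000000

/-! Ties in the races: the uniform bound. -/

namespace Pool.Agent.N735.CL

open Finset Filter Topology

lemma norm_zf2 {q a b : ℕ} (hab : ¬ a ≡ b [MOD q]) {ζ : ℂ} (hζ : ‖ζ‖ = 1) (m X : ℕ) (hX : 1 ≤ X) {L φ : ℝ} (hL : 16 ≤ L) (hφ : 1 ≤ φ)
    (ha : |L * E1 X (fun h => ic q a (m + h) * pr m h) - 1 / φ| ≤ 1 / (2 * φ))
    (hb : |L * E1 X (fun h => ic q b (m + h) * pr m h) - 1 / φ| ≤ 1 / (2 * φ)) :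
    ‖(∑ n ∈ Icc 1 X, zf q a b ζ (m + n)) / X‖ ≤ Real.exp (-((1 - ζ.re) / (2 * (φ * L)))) := by
  rw [mean_zf hab ζ m X hX]
  set pa := E1 X (fun h => ic q a (m + h) * pr m h) with hpa
  set pb := E1 X (fun h => ic q b (m + h) * pr m h) with hpb
  have hL0 : 0 < L := by linarith
  have hφ0 : 0 < φ := by linarith
  set p := 1 / (φ * L) with hp
  have hp0 : 0 < p := by positivity
  have hre : |ζ.re| ≤ 1 := by rw [← hζ]; exact Complex.abs_re_le_norm ζ
  obtain ⟨r1, r2⟩ := abs_le.1 hre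
  have hinv : ζ⁻¹ = (starRingEnd ℂ) ζ := by
    rw [Complex.inv_def, Complex.normSq_eq_norm_sq, hζ]
    simp
  have hcs : ζ.im * ζ.im = (1 - ζ.re) * (1 + ζ.re) := by
    have h1 := Complex.sq_norm ζ
    rw [hζ, Complex.normSq_apply] at h1
    linarith
  have hbd : ∀ x : ℝ, |L * x - 1 / φ| ≤ 1 / (2 * φ) → p / 2 ≤ x ∧ x ≤ 3 / 2 * p := by
    intro x hx
    have e1 : L * x - 1 / φ = L * (x - p) := by rw [hp]; field_simp
    have e2 : 1 / (2 * φ) = L * (p / 2) := by rw [hp]; field_simp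
    rw [e1, e2, abs_mul, abs_of_pos hL0] at hx
    have h3 := le_of_mul_le_mul_left hx hL0
    obtain ⟨h4, h5⟩ := abs_le.1 h3
    constructor <;> linarith
  obtain ⟨a1, a2⟩ := hbd pa ha
  obtain ⟨b1, b2⟩ := hbd pb hb
  have hp16 : p ≤ 1 / 16 := by
    rw [hp, div_le_div_iff₀ (by positivity) (by norm_num)]
    nlinarith
  set z : ℂ := (1 : ℂ) + (pa : ℝ) * (ζ - 1) + (pb : ℝ) * (ζ⁻¹ - 1) with hz
  have zre : z.re = 1 - (pa + pb) * (1 - ζ.re) := by
    rw [hz, hinv]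
    simp
    ring
  have zim : z.im = (pa - pb) * ζ.im := by
    rw [hz, hinv]
    simp
    ring
  have hs0 : 0 ≤ 1 - ζ.re := by linarith
  have hs2 : 1 - ζ.re ≤ 2 := by linarith
  set s := 1 - ζ.re with hs
  have hn : ‖z‖ ^ 2 ≤ 1 - p * s := by
    rw [Complex.sq_norm, Complex.normSq_apply, zre, zim]
    have e1 : (pa - pb) * ζ.im * ((pa - pb) * ζ.im) = (pa - pb) ^ 2 * (s * (2 - s)) := by
      have : (pa - pb) * ζ.im * ((pa - pb) * ζ.im) = (pa - pb) ^ 2 * (ζ.im * ζ.im) := by ring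
      rw [this, hcs, hs]; ring
    rw [e1]
    set σ := pa + pb with hσ
    have s1 : p ≤ σ := by linarith
    have s2 : σ ≤ 3 * p := by linarith
    have d1 : (pa - pb) ^ 2 ≤ p ^ 2 := by
      apply sq_le_sq'
      · linarith
      · linarith
    have f1 : (pa - pb) ^ 2 * (s * (2 - s)) ≤ p ^ 2 * (2 * s) := by
      apply mul_le_mul d1 _ (mul_nonneg hs0 (by linarith)) (by positivity)
      nlinarith
    have f2 : p ^ 2 * (2 * s) ≤ 1 / 8 * (p * s) := by
      have : p ^ 2 * (2 * s) = 2 * p * (p * s) := by ring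
      rw [this]
      apply mul_le_mul_of_nonneg_right _ (by positivity)
      linarith
    have f3 : (σ * s) ^ 2 ≤ 3 / 8 * (σ * s) := by
      have : (σ * s) ^ 2 = (σ * s) * (σ * s) := sq _
      rw [this]
      apply mul_le_mul_of_nonneg_right _ (mul_nonneg (by linarith) hs0)
      have : σ * s ≤ 3 / 16 * 2 := mul_le_mul (by linarith) hs2 hs0 (by norm_num)
      linarith
    have f4 : p * s ≤ σ * s := mul_le_mul_of_nonneg_right s1 hs0
    have e2 : (1 - σ * s) * (1 - σ * s) = 1 - 2 * (σ * s) + (σ * s) ^ 2 := by ring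
    rw [e2]
    have f5 : 0 ≤ p * s := by positivity
    linarith
  have h1 : ‖z‖ ^ 2 ≤ Real.exp (-(s / (2 * (φ * L)))) ^ 2 := by
    refine hn.trans ?_
    rw [← Real.exp_nat_mul]
    have h2 := Real.add_one_le_exp (-(p * s))
    have e3 : ((2 : ℕ) : ℝ) * -(s / (2 * (φ * L))) = -(p * s) := by
      rw [hp]; push_cast; field_simp
    rw [e3]
    linarith
  exact (pow_le_pow_iff_left₀ (norm_nonneg _) (Real.exp_pos _).le (by norm_num)).1 h1

lemma root_re {M j : ℕ} (hM : 0 < M) (hj : j < M) :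
    8 * (j : ℝ) ^ 2 / M ^ 2 ≤ 1 - (Complex.exp (2 * Real.pi * Complex.I / M) ^ j).re ∨
    8 * ((M - j : ℕ) : ℝ) ^ 2 / M ^ 2 ≤ 1 - (Complex.exp (2 * Real.pi * Complex.I / M) ^ j).re := by
  have hM0 : (0 : ℝ) < M := by exact_mod_cast hM
  have hM0c : (M : ℂ) ≠ 0 := by exact_mod_cast hM.ne'
  have hpi := Real.pi_pos
  have e1 : (Complex.exp (2 * Real.pi * Complex.I / M) ^ j).re = Real.cos (2 * Real.pi * j / M) := by
    rw [← Complex.exp_nat_mul]
    have : (j : ℂ) * (2 * Real.pi * Complex.I / M) = ((2 * Real.pi * j / M : ℝ) : ℂ) * Complex.I := by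
      push_cast
      ring
    rw [this, Complex.exp_ofReal_mul_I_re]
  rw [e1]
  rcases le_total (2 * j) M with h | h
  · left
    have h1 : |2 * Real.pi * j / M| ≤ Real.pi := by
      rw [abs_of_nonneg (by positivity), div_le_iff₀ hM0]
      have : (2 * (j : ℝ)) ≤ M := by exact_mod_cast h
      nlinarith
    have h2 := Real.cos_le_one_sub_mul_cos_sq h1
    have e2 : 2 / Real.pi ^ 2 * (2 * Real.pi * j / M) ^ 2 = 8 * (j : ℝ) ^ 2 / M ^ 2 := by
      field_simp
      ring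
    rw [e2] at h2
    linarith
  · right
    have e3 : ((M - j : ℕ) : ℝ) = (M : ℝ) - j := by push_cast [hj.le]; ring
    have e4 : Real.cos (2 * Real.pi * j / M) = Real.cos (2 * Real.pi * ((M : ℝ) - j) / M) := by
      have : 2 * Real.pi * ((M : ℝ) - j) / M = 2 * Real.pi - 2 * Real.pi * j / M := by field_simp
      rw [this, Real.cos_two_pi_sub]
    have hjr : (j : ℝ) < M := by exact_mod_cast hj
    have h1 : |2 * Real.pi * ((M : ℝ) - j) / M| ≤ Real.pi := by
      have h0 : 0 ≤ (M : ℝ) - j := by linarith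
      rw [abs_of_nonneg (by positivity), div_le_iff₀ hM0]
      have : (M : ℝ) ≤ 2 * j := by exact_mod_cast h
      nlinarith
    have h2 := Real.cos_le_one_sub_mul_cos_sq h1
    have e2 : 2 / Real.pi ^ 2 * (2 * Real.pi * ((M : ℝ) - j) / M) ^ 2 = 8 * ((M : ℝ) - j) ^ 2 / M ^ 2 := by
      field_simp
      ring
    rw [e2] at h2
    rw [e3, e4]
    linarith

lemma pow_half {r D t : ℝ} {K i M : ℕ} (hM : 0 < M) (hD : 0 < D) (hr : 8 * (i : ℝ) ^ 2 / M ^ 2 ≤ r) (hK : (M : ℝ) ^ 2 * D ≤ K)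
    (ht0 : 0 ≤ t) (ht : t ≤ Real.exp (-(r / (2 * D)))) : t ^ K ≤ (1 / 2 : ℝ) ^ i := by
  have hM0 : (0 : ℝ) < M := by exact_mod_cast hM
  refine (pow_le_pow_left₀ ht0 ht K).trans ?_
  rw [← Real.exp_nat_mul]
  have h1 : (i : ℝ) ≤ K * (r / (2 * D)) := by
    have h2 : (i : ℝ) ≤ 4 * (i : ℝ) ^ 2 := by
      rcases Nat.eq_zero_or_pos i with h | h
      · rw [h]; simp
      · have : (1 : ℝ) ≤ i := by exact_mod_cast h
        nlinarith
    have h3 : 4 * (i : ℝ) ^ 2 = (M : ℝ) ^ 2 * D * (8 * (i : ℝ) ^ 2 / M ^ 2 / (2 * D)) := by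
      field_simp
      ring
    have h4 : 8 * (i : ℝ) ^ 2 / M ^ 2 / (2 * D) ≤ r / (2 * D) := div_le_div_of_nonneg_right hr (by positivity)
    have h5 : 0 ≤ 8 * (i : ℝ) ^ 2 / M ^ 2 / (2 * D) := by positivity
    rw [h3] at h2
    exact h2.trans (mul_le_mul hK h4 h5 (Nat.cast_nonneg K))
  have h6 : (K : ℝ) * -(r / (2 * D)) ≤ (i : ℝ) * (-1) := by linarith
  refine (Real.exp_le_exp.2 h6).trans ?_
  rw [Real.exp_nat_mul]
  apply pow_le_pow_left₀ (Real.exp_pos _).le
  rw [Real.exp_neg, one_div]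
  apply inv_anti₀ (by norm_num)
  have := Real.add_one_le_exp (1 : ℝ)
  linarith

/-- the probability of an equality, uniformly -/
theorem eq_law {q a b : ℕ} (hq : 1 ≤ q) (ha : a ∈ Cq q) (hb : b ∈ Cq q) (hab : ¬ a ≡ b [MOD q]) :
    ∀ᶠ X : ℕ in atTop, ∀ K : ℕ, 1 ≤ K → ∀ m ∈ Icc 1 X, ∀ u v : ℕ, PK X K (fun h => Nn q a h m + u = Nn q b h m + v) ≤
      8 * Real.sqrt (Nat.totient q * Real.log X / K) := by
  have hφ1 : (1 : ℝ) ≤ Nat.totient q := by exact_mod_cast Nat.totient_pos.2 hq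
  set φ := (Nat.totient q : ℝ) with hφ
  have hφ0 : 0 < φ := by linarith
  filter_upwards [win_class q hq (1 / (2 * φ)) (by positivity), eventually_ge_atTop 1, tends_log.eventually_ge_atTop 16] with X h1 hX1 hL16 K hK m hm u v
  have hmX := (mem_Icc.1 hm).2
  have hX0 : (0 : ℝ) < X := by exact_mod_cast (by omega : 0 < X)
  have hK0 : (0 : ℝ) < K := by exact_mod_cast (by omega : 0 < K)
  set L := Real.log (X : ℝ) with hL
  have hL0 : 0 < L := by linarith
  set D := φ * L with hD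
  have hD0 : 0 < D := by positivity
  set t := Real.sqrt (K / D) with ht
  have ht0 : 0 < t := Real.sqrt_pos.2 (by positivity)
  have hti : Real.sqrt (D / K) = 1 / t := by
    rw [ht, ← Real.sqrt_one, ← Real.sqrt_div (by norm_num)]
    congr 1
    rw [one_div_div]
  rw [hti]
  rcases lt_or_ge t 1 with hlt | hge
  · refine (PK_le_one hX1 _).trans ?_
    have : 1 ≤ 1 / t := by rw [le_div_iff₀ ht0]; linarith
    linarith
  · set M := ⌊t⌋₊ with hMd
    have hMp : 0 < M := Nat.floor_pos.2 hge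
    have hM0 : (0 : ℝ) < M := by exact_mod_cast hMp
    have hM1 : (1 : ℝ) ≤ M := by exact_mod_cast hMp
    have hMt : (M : ℝ) ≤ t := Nat.floor_le ht0.le
    have htM : t < M + 1 := Nat.lt_floor_add_one t
    have hKM : (M : ℝ) ^ 2 * D ≤ K := by
      have h2 : (M : ℝ) ^ 2 ≤ t ^ 2 := pow_le_pow_left₀ hM0.le hMt 2
      rw [ht, Real.sq_sqrt (by positivity), le_div_iff₀ hD0] at h2
      exact h2
    set ζ : ℂ := Complex.exp (2 * Real.pi * Complex.I / M) with hζ
    have hprim : IsPrimitiveRoot ζ M := Complex.isPrimitiveRoot_exp M hMp.ne'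
    have hζM : ζ ^ M = 1 := hprim.pow_eq_one
    have hζn : ‖ζ‖ = 1 := by
      have h1 : ‖ζ‖ ^ M = 1 := by rw [← norm_pow, hζM, norm_one]
      exact (pow_eq_one_iff_of_nonneg (norm_nonneg _) hMp.ne').1 h1
    have hζj : ∀ j : ℕ, ‖ζ ^ j‖ = 1 := fun j => by rw [norm_pow, hζn, one_pow]
    refine (PK_eq_le hMp q a b u v X K m hX1 hζM).trans ?_
    have h2 : ∀ j ∈ range M, ‖(∑ n ∈ Icc 1 X, zf q a b (ζ ^ j) (m + n)) / X‖ ^ K ≤ (1 / 2 : ℝ) ^ j + (1 / 2 : ℝ) ^ (M - 1 - j) := by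
      intro j hj
      have hjM := mem_range.1 hj
      have h3 := norm_zf2 hab (hζj j) m X hX1 hL16 hφ1 (h1 a ha m hmX) (h1 b hb m hmX)
      rcases root_re hMp hjM with h4 | h4
      · have h5 := pow_half hMp hD0 h4 hKM (norm_nonneg _) h3
        have : (0 : ℝ) ≤ (1 / 2 : ℝ) ^ (M - 1 - j) := by positivity
        linarith
      · have h5 := pow_half hMp hD0 h4 hKM (norm_nonneg _) h3
        have h6 : (1 / 2 : ℝ) ^ (M - j) ≤ (1 / 2 : ℝ) ^ (M - 1 - j) :=
          pow_le_pow_of_le_one (by norm_num) (by norm_num) (by omega)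
        have : (0 : ℝ) ≤ (1 / 2 : ℝ) ^ j := by positivity
        linarith
    have h7 : ∑ j ∈ range M, ‖(∑ n ∈ Icc 1 X, zf q a b (ζ ^ j) (m + n)) / X‖ ^ K ≤ 4 := by
      refine (sum_le_sum h2).trans ?_
      rw [sum_add_distrib, sum_range_reflect (fun j => (1 / 2 : ℝ) ^ j) M]
      have := sum_geometric_two_le M
      linarith
    have h8 : (1 / (M : ℝ)) * ∑ j ∈ range M, ‖(∑ n ∈ Icc 1 X, zf q a b (ζ ^ j) (m + n)) / X‖ ^ K ≤ (1 / M) * 4 :=
      mul_le_mul_of_nonneg_left h7 (by positivity)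
    refine h8.trans ?_
    have h9 : 1 / (M : ℝ) ≤ 2 * (1 / t) := by
      rw [mul_one_div, div_le_div_iff₀ hM0 ht0]
      linarith
    linarith

/-- ties are rare, uniformly -/
theorem ties_unif {q a b : ℕ} (hq : 1 ≤ q) (ha : a ∈ Cq q) (hb : b ∈ Cq q) (hab : ¬ a ≡ b [MOD q]) :
    ∀ᶠ X : ℕ in atTop, ∀ K : ℕ, 1 ≤ K → ∀ J : ℕ, ∀ θ : ℝ, 0 < θ →
      PK X K (fun h => 8 * Real.sqrt (Nat.totient q) / θ * ((2 * J + 1) * Real.sqrt (Real.log X / K) * X) ≤
        (((Icc 1 X).filter (fun x => Nn q a h x ≤ Nn q b h x + J ∧ Nn q b h x ≤ Nn q a h x + J)).card : ℝ)) ≤ θ := by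
  have hφ1 : (1 : ℝ) ≤ Nat.totient q := by exact_mod_cast Nat.totient_pos.2 hq
  set φ := (Nat.totient q : ℝ) with hφ
  have hφ0 : 0 < φ := by linarith
  filter_upwards [eq_law hq ha hb hab, eventually_ge_atTop 1, tends_log.eventually_ge_atTop 16] with X hpt hX1 hL16 K hK J θ hθ
  have hX0 : (0 : ℝ) < X := by exact_mod_cast (by omega : 0 < X)
  have hK0 : (0 : ℝ) < K := by exact_mod_cast (by omega : 0 < K)
  set L := Real.log (X : ℝ) with hL
  have hL0 : 0 < L := by linarith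
  have hs0 : 0 < Real.sqrt (L / K) := Real.sqrt_pos.2 (by positivity)
  have hsφ : 0 < Real.sqrt φ := Real.sqrt_pos.2 hφ0
  have hsq : Real.sqrt (φ * L / K) = Real.sqrt φ * Real.sqrt (L / K) := by
    rw [← Real.sqrt_mul hφ0.le]
    congr 1
    ring
  set Φ : (Fin K → ℕ) → ℝ := fun h => ∑ x ∈ Icc 1 X, ∑ k ∈ range (2 * J + 1), (if Nn q a h x + J = Nn q b h x + k then (1 : ℝ) else 0) with hΦ
  have hEK : EK X K Φ ≤ X * ((2 * J + 1) * (8 * (Real.sqrt φ * Real.sqrt (L / K)))) := by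
    have e1 : EK X K Φ = ∑ x ∈ Icc 1 X, ∑ k ∈ range (2 * J + 1), PK X K (fun h => Nn q a h x + J = Nn q b h x + k) := by
      rw [hΦ, EK_sum]
      apply sum_congr rfl
      intro x _
      rw [EK_sum]
      apply sum_congr rfl
      intro k _
      unfold PK
      apply EK_congr
      intro h _
      by_cases hh : Nn q a h x + J = Nn q b h x + k <;> simp [hh]
    rw [e1]
    calc ∑ x ∈ Icc 1 X, ∑ k ∈ range (2 * J + 1), PK X K (fun h => Nn q a h x + J = Nn q b h x + k) ≤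
          ∑ x ∈ Icc 1 X, ∑ k ∈ range (2 * J + 1), (8 * (Real.sqrt φ * Real.sqrt (L / K))) :=
            sum_le_sum (fun x hx => sum_le_sum (fun k _ => by rw [← hsq]; exact hpt K hK x hx J k))
      _ = X * ((2 * J + 1) * (8 * (Real.sqrt φ * Real.sqrt (L / K)))) := by
          rw [sum_const, sum_const, Nat.card_Icc, Nat.add_sub_cancel, card_range, nsmul_eq_mul, nsmul_eq_mul]
          push_cast
          ring
  have hΦ0 : ∀ h ∈ Om X K, 0 ≤ Φ h := fun h _ => sum_nonneg (fun x _ => sum_nonneg (fun k _ => by split_ifs <;> norm_num))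
  refine (PK_mono (C := fun h => 8 * Real.sqrt φ / θ * ((2 * J + 1) * Real.sqrt (L / K) * X) ≤ Φ h) ?_).trans ((PK_markov hΦ0 (by positivity)).trans ?_)
  · intro h _ hh
    refine hh.trans ?_
    rw [card_filter]
    push_cast
    simp only [hΦ]
    apply sum_le_sum
    intro x _
    split_ifs with hc
    · have hk : Nn q a h x + J - Nn q b h x ∈ range (2 * J + 1) := by rw [mem_range]; omega
      have h5 := single_le_sum (f := fun k => if Nn q a h x + J = Nn q b h x + k then (1 : ℝ) else 0)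
        (fun k _ => by split_ifs <;> norm_num) hk
      refine le_trans (le_of_eq ?_) h5
      rw [if_pos (by omega)]
    · exact sum_nonneg (fun k _ => by split_ifs <;> norm_num)
  · rw [div_le_iff₀ (by positivity)]
    refine hEK.trans (le_of_eq ?_)
    field_simp

end Pool.Agent.N735.CL
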