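import Mathlib
import Pool.Agent.N735.CL.GumL

set_option autoImplicit false
set_option maxHeartbeats 2000000

/-! Independent samples from a finite set: the number of the events which do not occur in any of the
samples is asymptotically Poisson if the pair correlations are negligible. -/

namespace Pool.Agent.N735.CL

open Finset Filter Topology Asymptotics

section

variable {α : Type*}

/-- the mean value over a finite set -/
noncomputable def Ea (Ω : Finset α) (f : α → ℝ) : ℝ := (∑ v ∈ Ω, f v) / Ω.card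

/-- the samples -/
def OmA (Ω : Finset α) (K : ℕ) : Finset (Fin K → α) := Fintype.piFinset fun _ => Ω

/-- the mean value over the samples -/
noncomputable def EA (Ω : Finset α) (K : ℕ) (Φ : (Fin K → α) → ℝ) : ℝ := (∑ h ∈ OmA Ω K, Φ h) / (Ω.card : ℝ) ^ K

open Classical in
/-- the proportion of the samples with the property `B` -/
noncomputable def PA (Ω : Finset α) (K : ℕ) (B : (Fin K → α) → Prop) : ℝ := EA Ω K (fun v => if B v then 1 else 0)

open Classical in
/-- the number of the events which do not occur -/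
noncomputable def failsA (E : ℕ → α → Prop) (S : Finset ℕ) {K : ℕ} (h : Fin K → α) : ℕ :=
  (S.filter (fun m => ∀ i, ¬ E m (h i))).card

open Classical in
/-- the indicator function -/
noncomputable def ind (E : ℕ → α → Prop) (m : ℕ) (v : α) : ℝ := if E m v then 1 else 0

variable {Ω : Finset α} {K : ℕ}

lemma mem_OmA {h : Fin K → α} : h ∈ OmA Ω K ↔ ∀ i, h i ∈ Ω := by
  unfold OmA; rw [Fintype.mem_piFinset]

lemma card_OmA : (OmA Ω K).card = Ω.card ^ K := by simp [OmA]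

lemma EA_prod (f : α → ℝ) : EA Ω K (fun h => ∏ i, f (h i)) = (Ea Ω f) ^ K := by
  unfold EA Ea OmA
  rw [div_pow]
  congr 1
  have h := Finset.prod_univ_sum (fun _ : Fin K => Ω) (fun _ j => f j)
  rw [← h, prod_const, card_univ, Fintype.card_fin]

lemma EA_mono {Φ Ψ : (Fin K → α) → ℝ} (h : ∀ v ∈ OmA Ω K, Φ v ≤ Ψ v) : EA Ω K Φ ≤ EA Ω K Ψ := by
  unfold EA
  exact div_le_div_of_nonneg_right (sum_le_sum h) (by positivity)

lemma EA_congr {Φ Ψ : (Fin K → α) → ℝ} (h : ∀ v ∈ OmA Ω K, Φ v = Ψ v) : EA Ω K Φ = EA Ω K Ψ := by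
  unfold EA
  rw [sum_congr rfl h]

lemma EA_sum {ι : Type*} (s : Finset ι) (Φ : ι → (Fin K → α) → ℝ) :
    EA Ω K (fun v => ∑ j ∈ s, Φ j v) = ∑ j ∈ s, EA Ω K (Φ j) := by
  unfold EA
  rw [sum_comm, sum_div]

lemma EA_const_mul (c : ℝ) (Φ : (Fin K → α) → ℝ) : EA Ω K (fun v => c * Φ v) = c * EA Ω K Φ := by
  unfold EA
  rw [← mul_sum, mul_div_assoc]

lemma EA_sub (Φ Ψ : (Fin K → α) → ℝ) : EA Ω K (fun v => Φ v - Ψ v) = EA Ω K Φ - EA Ω K Ψ := by
  unfold EA
  rw [sum_sub_distrib, sub_div]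

lemma PA_mono {B C : (Fin K → α) → Prop} (h : ∀ v ∈ OmA Ω K, B v → C v) : PA Ω K B ≤ PA Ω K C := by
  apply EA_mono
  intro v hv
  by_cases hB : B v
  · rw [if_pos hB, if_pos (h v hv hB)]
  · rw [if_neg hB]; split_ifs <;> norm_num

lemma PA_nonneg (B : (Fin K → α) → Prop) : 0 ≤ PA Ω K B := by
  unfold PA EA
  apply div_nonneg (sum_nonneg (fun v _ => by split_ifs <;> norm_num)) (by positivity)

open Classical in
lemma PA_eq (B : (Fin K → α) → Prop) : PA Ω K B = (((OmA Ω K).filter B).card : ℝ) / (Ω.card : ℝ) ^ K := by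
  unfold PA EA
  rw [← Finset.sum_filter, sum_const, nsmul_eq_mul, mul_one]

lemma PA_le_one (B : (Fin K → α) → Prop) : PA Ω K B ≤ 1 := by
  classical
  rw [PA_eq]
  apply div_le_one_of_le₀ _ (by positivity)
  have h := card_filter_le (OmA Ω K) B
  rw [card_OmA] at h
  exact_mod_cast h

lemma EA_init (hΩ : Ω.Nonempty) (K : ℕ) (Φ : (Fin K → α) → ℝ) :
    EA Ω (K + 1) (fun h => Φ (fun i => h i.castSucc)) = EA Ω K Φ := by
  unfold EA
  have h : ∑ h ∈ OmA Ω (K + 1), Φ (fun i => h i.castSucc) = ∑ x ∈ OmA Ω K ×ˢ Ω, Φ x.1 := by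
    apply sum_nbij' (fun h => (fun i => h i.castSucc, h (Fin.last K))) (fun x => Fin.snoc x.1 x.2)
    · intro h hh
      rw [mem_OmA] at hh
      rw [mem_product, mem_OmA]
      exact ⟨fun i => hh i.castSucc, hh (Fin.last K)⟩
    · intro x hx
      rw [mem_product, mem_OmA] at hx
      rw [mem_OmA]
      intro i
      refine Fin.lastCases ?_ (fun j => ?_) i
      · simpa using hx.2
      · simpa using hx.1 j
    · intro h _
      funext i
      refine Fin.lastCases ?_ (fun j => ?_) i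
      · simp
      · simp
    · intro x _
      simp
    · intro h _
      simp
  have hX0 : (Ω.card : ℝ) ≠ 0 := by
    have := hΩ.card_pos
    positivity
  rw [h, sum_product]
  have h2 : ∑ t ∈ OmA Ω K, ∑ _a ∈ Ω, Φ t = Ω.card * ∑ t ∈ OmA Ω K, Φ t := by
    rw [mul_sum]
    apply sum_congr rfl
    intro t _
    rw [sum_const, nsmul_eq_mul]
  rw [h2, pow_succ, mul_comm ((Ω.card : ℝ) ^ K), mul_div_mul_left _ _ hX0]

lemma EA_pre (hΩ : Ω.Nonempty) (K' : ℕ) (Φ : (Fin K' → α) → ℝ) : ∀ n : ℕ,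
    EA Ω (K' + n) (fun h => Φ (fun i => h (Fin.castAdd n i))) = EA Ω K' Φ := by
  intro n
  induction n with
  | zero => rfl
  | succ n ih =>
    rw [← ih]
    exact EA_init hΩ (K' + n) (fun h => Φ (fun i => h (Fin.castAdd n i)))

lemma PA_castLE (hΩ : Ω.Nonempty) {K' K : ℕ} (hle : K' ≤ K) (B : (Fin K' → α) → Prop) :
    PA Ω K (fun h => B (fun i => h (Fin.castLE hle i))) = PA Ω K' B := by
  classical
  obtain ⟨n, rfl⟩ := Nat.exists_eq_add_of_le hle
  unfold PA
  exact EA_pre hΩ K' (fun v => if B v then 1 else 0) n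

/-- more samples -/
lemma PA_mono_len (hΩ : Ω.Nonempty) (E : ℕ → α → Prop) (S : Finset ℕ) {K' K : ℕ} (hle : K' ≤ K) :
    PA Ω K' (fun h => failsA E S h = 0) ≤ PA Ω K (fun h => failsA E S h = 0) := by
  classical
  rw [← PA_castLE hΩ hle (fun h => failsA E S h = 0)]
  apply PA_mono
  intro h _ hh
  unfold failsA at hh ⊢
  rw [card_eq_zero, filter_eq_empty_iff] at hh ⊢
  intro m hm hc
  exact hh hm (fun i => hc (Fin.castLE hle i))

/-- the mean value of the product -/
noncomputable def aA (Ω : Finset α) (E : ℕ → α → Prop) (T : Finset ℕ) : ℝ := Ea Ω (fun v => ∏ m ∈ T, (1 - ind E m v))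

lemma ind_nonneg (E : ℕ → α → Prop) (m : ℕ) (v : α) : 0 ≤ ind E m v := by unfold ind; split_ifs <;> norm_num

lemma ind_le_one (E : ℕ → α → Prop) (m : ℕ) (v : α) : ind E m v ≤ 1 := by unfold ind; split_ifs <;> norm_num

lemma prod_ind_nonneg (E : ℕ → α → Prop) (T : Finset ℕ) (v : α) : 0 ≤ ∏ m ∈ T, (1 - ind E m v) :=
  prod_nonneg (fun m _ => by linarith [ind_le_one E m v])

lemma prod_ind_le_one (E : ℕ → α → Prop) (T : Finset ℕ) (v : α) : ∏ m ∈ T, (1 - ind E m v) ≤ 1 :=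
  prod_le_one (fun m _ => by linarith [ind_le_one E m v]) (fun m _ => by linarith [ind_nonneg E m v])

lemma prod_ind_ge (E : ℕ → α → Prop) (T : Finset ℕ) (v : α) : 1 - ∑ m ∈ T, ind E m v ≤ ∏ m ∈ T, (1 - ind E m v) := by
  classical
  induction T using Finset.induction_on with
  | empty => simp
  | insert b T hb ih =>
    rw [sum_insert hb, prod_insert hb]
    have h1 := prod_ind_le_one E T v
    have h2 := prod_ind_nonneg E T v
    have h3 := ind_nonneg E b v
    have h4 := ind_le_one E b v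
    nlinarith

lemma Ea_mono {f g : α → ℝ} (h : ∀ v ∈ Ω, f v ≤ g v) : Ea Ω f ≤ Ea Ω g := by
  unfold Ea
  exact div_le_div_of_nonneg_right (sum_le_sum h) (by positivity)

lemma Ea_congr {f g : α → ℝ} (h : ∀ v ∈ Ω, f v = g v) : Ea Ω f = Ea Ω g := by
  unfold Ea
  rw [sum_congr rfl h]

lemma Ea_sub (f g : α → ℝ) : Ea Ω (fun v => f v - g v) = Ea Ω f - Ea Ω g := by
  unfold Ea
  rw [sum_sub_distrib, sub_div]

lemma Ea_sum {ι : Type*} (s : Finset ι) (Φ : ι → α → ℝ) :
    Ea Ω (fun v => ∑ j ∈ s, Φ j v) = ∑ j ∈ s, Ea Ω (Φ j) := by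
  unfold Ea
  rw [sum_comm, sum_div]

lemma Ea_const (hΩ : Ω.Nonempty) (c : ℝ) : Ea Ω (fun _ => c) = c := by
  unfold Ea
  rw [sum_const, nsmul_eq_mul]
  have : (Ω.card : ℝ) ≠ 0 := by
    have := hΩ.card_pos
    positivity
  field_simp

lemma Ea_nonneg {f : α → ℝ} (h : ∀ v ∈ Ω, 0 ≤ f v) : 0 ≤ Ea Ω f := by
  unfold Ea
  exact div_nonneg (sum_nonneg h) (by positivity)

lemma aA_nonneg (E : ℕ → α → Prop) (T : Finset ℕ) : 0 ≤ aA Ω E T := Ea_nonneg (fun v _ => prod_ind_nonneg E T v)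

lemma aA_ge (hΩ : Ω.Nonempty) (E : ℕ → α → Prop) (T : Finset ℕ) : 1 - ∑ m ∈ T, Ea Ω (ind E m) ≤ aA Ω E T := by
  have h : 1 - ∑ m ∈ T, Ea Ω (ind E m) = Ea Ω (fun a => 1 - ∑ m ∈ T, ind E m a) := by
    rw [Ea_sub, Ea_const hΩ, Ea_sum]
  rw [h]
  exact Ea_mono (fun a _ => prod_ind_ge E T a)

lemma aA_le (hΩ : Ω.Nonempty) (E : ℕ → α → Prop) (Q : ℝ) (hQ : 0 ≤ Q) (T : Finset ℕ)
    (h : ∀ m ∈ T, ∀ m' ∈ T, m ≠ m' → Ea Ω (fun a => ind E m a * ind E m' a) ≤ Q) :
    aA Ω E T ≤ 1 - ∑ m ∈ T, Ea Ω (ind E m) + (T.card : ℝ) ^ 2 * Q := by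
  classical
  induction T using Finset.induction_on with
  | empty =>
    unfold aA
    simp only [prod_empty, sum_empty, card_empty, Nat.cast_zero]
    rw [Ea_const hΩ]
    norm_num
  | insert b T hb ih =>
    have ih' := ih (fun m hm m' hm' hne => h m (mem_insert_of_mem hm) m' (mem_insert_of_mem hm') hne)
    rw [sum_insert hb, card_insert_of_notMem hb]
    have e1 : aA Ω E (insert b T) = aA Ω E T - Ea Ω (fun a => ind E b a * ∏ m ∈ T, (1 - ind E m a)) := by
      unfold aA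
      rw [← Ea_sub]
      apply Ea_congr
      intro a _
      rw [prod_insert hb]
      ring
    have e2 : Ea Ω (ind E b) - ∑ m ∈ T, Ea Ω (fun a => ind E b a * ind E m a) ≤ Ea Ω (fun a => ind E b a * ∏ m ∈ T, (1 - ind E m a)) := by
      have e3 : Ea Ω (ind E b) - ∑ m ∈ T, Ea Ω (fun a => ind E b a * ind E m a) = Ea Ω (fun a => ind E b a * (1 - ∑ m ∈ T, ind E m a)) := by
        rw [← Ea_sum, ← Ea_sub]
        apply Ea_congr
        intro a _
        rw [mul_sub, mul_one, mul_sum]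
      rw [e3]
      exact Ea_mono (fun a _ => mul_le_mul_of_nonneg_left (prod_ind_ge E T a) (ind_nonneg E b a))
    have e4 : ∑ m ∈ T, Ea Ω (fun a => ind E b a * ind E m a) ≤ T.card * Q := by
      have : ∀ m ∈ T, Ea Ω (fun a => ind E b a * ind E m a) ≤ Q := fun m hm =>
        h b (mem_insert_self _ _) m (mem_insert_of_mem hm) (fun hbm => hb (hbm ▸ hm))
      refine (sum_le_sum this).trans (le_of_eq ?_)
      rw [sum_const, nsmul_eq_mul]
    rw [e1]
    push_cast
    have hc : (0 : ℝ) ≤ T.card := Nat.cast_nonneg _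
    nlinarith

lemma EA_choose (E : ℕ → α → Prop) (S : Finset ℕ) (K r : ℕ) :
    EA Ω K (fun h => ((failsA E S h).choose r : ℝ)) = ∑ T ∈ powersetCard r S, (aA Ω E T) ^ K := by
  classical
  have h1 : ∀ h : Fin K → α, ((failsA E S h).choose r : ℝ) = ∑ T ∈ powersetCard r S, ∏ i, ∏ m ∈ T, (1 - ind E m (h i)) := by
    intro h
    have e2 : ∀ T ∈ powersetCard r S, ∏ i, ∏ m ∈ T, (1 - ind E m (h i)) = if T ⊆ S.filter (fun m => ∀ i, ¬ E m (h i)) then 1 else 0 := by
      intro T hT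
      rw [mem_powersetCard] at hT
      split_ifs with hT2
      · apply prod_eq_one
        intro i _
        apply prod_eq_one
        intro m hm
        have := (mem_filter.1 (hT2 hm)).2 i
        unfold ind
        rw [if_neg this]; norm_num
      · obtain ⟨m, hm, hmn⟩ := not_subset.1 hT2
        rw [mem_filter, not_and] at hmn
        have := hmn (hT.1 hm)
        push Not at this
        obtain ⟨i, hi⟩ := this
        apply prod_eq_zero (mem_univ i)
        apply prod_eq_zero hm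
        unfold ind
        rw [if_pos hi]; norm_num
    rw [sum_congr rfl e2, ← sum_filter, sum_const, nsmul_eq_mul, mul_one]
    unfold failsA
    rw [← card_powersetCard]
    congr 2
    ext T
    rw [mem_filter, mem_powersetCard, mem_powersetCard]
    constructor
    · rintro ⟨a, b⟩
      refine ⟨⟨a.trans (filter_subset _ _), b⟩, ?_⟩
      intro m hm
      have := a hm
      rw [mem_filter] at this ⊢
      exact this
    · rintro ⟨⟨_, b⟩, c⟩
      refine ⟨?_, b⟩
      intro m hm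
      have := c hm
      rw [mem_filter] at this ⊢
      exact this
  rw [EA_congr (fun h _ => h1 h), EA_sum]
  apply sum_congr rfl
  intro T _
  exact EA_prod (fun a => ∏ m ∈ T, (1 - ind E m a))

end

section

variable {α ι : Type*} {F : Filter ι} (E : ℕ → α → Prop) (Ω : ι → Finset α) (S : ι → Finset ℕ) (K : ι → ℕ) (ρ δ Q : ι → ℝ) (t : ℝ)
  (hS : Tendsto (fun x => (S x).card) F atTop) (hΩ : ∀ᶠ x in F, (Ω x).Nonempty)
  (h1 : ∀ᶠ x in F, ∀ m ∈ S x, |Ea (Ω x) (ind E m) - ρ x| ≤ δ x)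
  (h2 : ∀ᶠ x in F, ∀ m ∈ S x, ∀ m' ∈ S x, m ≠ m' → Ea (Ω x) (fun v => ind E m v * ind E m' v) ≤ Q x)
  (hQ : ∀ᶠ x in F, 0 ≤ Q x) (hδ0 : ∀ᶠ x in F, 0 ≤ δ x) (hρ0 : ∀ᶠ x in F, 0 ≤ ρ x)
  (hKρ : Tendsto (fun x => (K x : ℝ) * ρ x - Real.log (S x).card) F (𝓝 t))
  (hKδ : Tendsto (fun x => (K x : ℝ) * δ x) F (𝓝 0))
  (hKQ : Tendsto (fun x => (K x : ℝ) * Q x) F (𝓝 0))
  (hKρ2 : Tendsto (fun x => (K x : ℝ) * ρ x ^ 2) F (𝓝 0))
  (hρ : Tendsto ρ F (𝓝 0)) (hδ : Tendsto δ F (𝓝 0))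

include hS hΩ h1 h2 hQ hδ0 hρ0 hKρ hKδ hKQ hKρ2 hρ hδ

theorem moment_abs (r : ℕ) : Tendsto (fun x => EA (Ω x) (K x) (fun h => ((failsA E (S x) h).choose r : ℝ))) F
    (𝓝 (Real.exp (-t) ^ r / r.factorial)) := by
  have hch : Tendsto (fun x => (((S x).card.choose r : ℕ) : ℝ) * Real.exp (-(r * Real.log (S x).card))) F (𝓝 (1 / r.factorial)) := by
    have h1 : Tendsto (fun M : ℕ => ((M.choose r : ℕ) : ℝ) * Real.exp (-(r * Real.log M))) atTop (𝓝 (1 / r.factorial)) := by
      have e1 : (fun M : ℕ => ((M.choose r : ℕ) : ℝ) * Real.exp (-(r * Real.log M))) ~[atTop]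
          (fun M : ℕ => (M : ℝ) ^ r / r.factorial * Real.exp (-(r * Real.log M))) :=
        (isEquivalent_choose r).mul (IsEquivalent.refl (u := fun M : ℕ => Real.exp (-(r * Real.log M))))
      refine (IsEquivalent.tendsto_nhds_iff e1).mpr ?_
      refine tendsto_const_nhds.congr' ?_
      filter_upwards [eventually_ge_atTop 1] with M hM
      have hM0 : (0 : ℝ) < M := by exact_mod_cast hM
      rw [Real.exp_neg, Real.exp_nat_mul, Real.exp_log hM0]
      field_simp
    exact h1.comp hS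
  have hKδ2 : Tendsto (fun x => (K x : ℝ) * δ x ^ 2) F (𝓝 0) := by
    have := hKδ.mul hδ
    rw [mul_zero] at this
    refine this.congr (fun x => by ring)
  have hup : Tendsto (fun x => ((((S x).card.choose r : ℕ) : ℝ) * Real.exp (-(r * Real.log (S x).card))) *
      Real.exp (-(r * ((K x : ℝ) * ρ x - Real.log (S x).card)) + (r * ((K x : ℝ) * δ x) + r ^ 2 * ((K x : ℝ) * Q x)))) F
      (𝓝 (Real.exp (-t) ^ r / r.factorial)) := by
    have g1 : Tendsto (fun x => -(r * ((K x : ℝ) * ρ x - Real.log (S x).card)) + (r * ((K x : ℝ) * δ x) + r ^ 2 * ((K x : ℝ) * Q x))) F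
        (𝓝 (-(r * t) + (r * 0 + r ^ 2 * 0))) :=
      (hKρ.const_mul _).neg.add ((hKδ.const_mul _).add (hKQ.const_mul _))
    have g2 := hch.mul ((Real.continuous_exp.tendsto _).comp g1)
    have e : 1 / (r.factorial : ℝ) * Real.exp (-(r * t) + (r * 0 + r ^ 2 * 0)) = Real.exp (-t) ^ r / r.factorial := by
      rw [← Real.exp_nat_mul]
      have : -(r * t) + (r * 0 + r ^ 2 * 0) = (r : ℝ) * -t := by ring
      rw [this]; ring
    rw [e] at g2
    exact g2
  have hlo : Tendsto (fun x => ((((S x).card.choose r : ℕ) : ℝ) * Real.exp (-(r * Real.log (S x).card))) *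
      Real.exp (-(r * ((K x : ℝ) * ρ x - Real.log (S x).card)) - (r * ((K x : ℝ) * δ x) + 4 * r ^ 2 * ((K x : ℝ) * ρ x ^ 2) +
        4 * r ^ 2 * ((K x : ℝ) * δ x ^ 2)))) F (𝓝 (Real.exp (-t) ^ r / r.factorial)) := by
    have g1 : Tendsto (fun x => -(r * ((K x : ℝ) * ρ x - Real.log (S x).card)) - (r * ((K x : ℝ) * δ x) + 4 * r ^ 2 * ((K x : ℝ) * ρ x ^ 2) +
        4 * r ^ 2 * ((K x : ℝ) * δ x ^ 2))) F (𝓝 (-(r * t) - (r * 0 + 4 * r ^ 2 * 0 + 4 * r ^ 2 * 0))) :=
      (hKρ.const_mul _).neg.sub (((hKδ.const_mul _).add (hKρ2.const_mul _)).add (hKδ2.const_mul _))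
    have g2 := hch.mul ((Real.continuous_exp.tendsto _).comp g1)
    have e : 1 / (r.factorial : ℝ) * Real.exp (-(r * t) - (r * 0 + 4 * r ^ 2 * 0 + 4 * r ^ 2 * 0)) = Real.exp (-t) ^ r / r.factorial := by
      rw [← Real.exp_nat_mul]
      have : -(r * t) - (r * 0 + 4 * r ^ 2 * 0 + 4 * r ^ 2 * 0) = (r : ℝ) * -t := by ring
      rw [this]; ring
    rw [e] at g2
    exact g2
  have hsmall : ∀ᶠ x in F, r * (ρ x + δ x) ≤ 1 / 5 := by
    have : Tendsto (fun x => r * (ρ x + δ x)) F (𝓝 (r * (0 + 0))) := (hρ.add hδ).const_mul _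
    rw [add_zero, mul_zero] at this
    exact (this.eventually_lt_const (show (0 : ℝ) < 1 / 5 by norm_num)).mono (fun x hx => hx.le)
  refine tendsto_of_tendsto_of_tendsto_of_le_of_le' hlo hup ?_ ?_
  · filter_upwards [hΩ, h1, hδ0, hρ0, hsmall] with x hΩx h1x hδx hρx hsx
    rw [EA_choose]
    set y := r * (ρ x + δ x) with hy
    have hy0 : 0 ≤ y := by positivity
    have hT : ∀ T ∈ powersetCard r (S x), Real.exp (-(y + 2 * y ^ 2)) ^ K x ≤ aA (Ω x) E T ^ K x := by
      intro T hT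
      rw [mem_powersetCard] at hT
      apply pow_le_pow_left₀ (Real.exp_pos _).le
      refine le_trans ?_ (aA_ge hΩx E T)
      have h2 : ∑ m ∈ T, Ea (Ω x) (ind E m) ≤ y := by
        have h3 : ∀ m ∈ T, Ea (Ω x) (ind E m) ≤ ρ x + δ x := by
          intro m hm
          have := (abs_le.1 (h1x m (hT.1 hm))).2
          linarith
        refine (sum_le_sum h3).trans (le_of_eq ?_)
        rw [sum_const, nsmul_eq_mul, hT.2, hy]
      have h4 := exp_le_one_add (x := -y) (by rw [abs_neg, abs_of_nonneg hy0]; exact hsx)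
      have e : -y - 2 * (-y) ^ 2 = -(y + 2 * y ^ 2) := by ring
      rw [e] at h4
      linarith
    refine le_trans ?_ (card_nsmul_le_sum _ _ _ hT)
    rw [card_powersetCard, nsmul_eq_mul, ← Real.exp_nat_mul, mul_assoc, ← Real.exp_add]
    apply mul_le_mul_of_nonneg_left _ (Nat.cast_nonneg _)
    apply Real.exp_le_exp.2
    have hK0 : (0 : ℝ) ≤ K x := Nat.cast_nonneg _
    have h5 : y ^ 2 ≤ 2 * (r : ℝ) ^ 2 * (ρ x ^ 2 + δ x ^ 2) := by
      have : y ^ 2 = (r : ℝ) ^ 2 * (ρ x + δ x) ^ 2 := by rw [hy]; ring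
      rw [this]
      have h6 : (ρ x + δ x) ^ 2 ≤ 2 * (ρ x ^ 2 + δ x ^ 2) := by nlinarith [sq_nonneg (ρ x - δ x)]
      nlinarith [mul_le_mul_of_nonneg_left h6 (sq_nonneg (r : ℝ))]
    have h6 := mul_le_mul_of_nonneg_left h5 hK0
    have h7 : (K x : ℝ) * -(y + 2 * y ^ 2) = -(K x * y) - 2 * (K x * y ^ 2) := by ring
    rw [h7, hy]
    nlinarith
  · filter_upwards [hΩ, h1, h2, hQ] with x hΩx h1x h2x hQx
    rw [EA_choose]
    set z := -(r * ρ x) + (r * δ x + r ^ 2 * Q x) with hz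
    have hT : ∀ T ∈ powersetCard r (S x), aA (Ω x) E T ^ K x ≤ Real.exp z ^ K x := by
      intro T hT
      rw [mem_powersetCard] at hT
      apply pow_le_pow_left₀ (aA_nonneg E T)
      refine (aA_le hΩx E (Q x) hQx T (fun m hm m' hm' hne => h2x m (hT.1 hm) m' (hT.1 hm') hne)).trans ?_
      have h4 : r * (ρ x - δ x) ≤ ∑ m ∈ T, Ea (Ω x) (ind E m) := by
        have h3 : ∀ m ∈ T, ρ x - δ x ≤ Ea (Ω x) (ind E m) := by
          intro m hm
          have := (abs_le.1 (h1x m (hT.1 hm))).1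
          linarith
        refine le_trans (le_of_eq ?_) (sum_le_sum h3)
        rw [sum_const, nsmul_eq_mul, hT.2]
      rw [hT.2]
      have h5 := Real.add_one_le_exp z
      have h6 : z = -(r * (ρ x - δ x)) + r ^ 2 * Q x := by rw [hz]; ring
      rw [h6] at h5 ⊢
      linarith
    refine (sum_le_card_nsmul _ _ _ hT).trans ?_
    rw [card_powersetCard, nsmul_eq_mul, ← Real.exp_nat_mul, mul_assoc, ← Real.exp_add]
    apply mul_le_mul_of_nonneg_left _ (Nat.cast_nonneg _)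
    apply Real.exp_le_exp.2
    apply le_of_eq
    rw [hz]
    ring

/-- the number of the events which do not occur is asymptotically Poisson -/
theorem poisson_abs (k : ℕ) : Tendsto (fun x => PA (Ω x) (K x) (fun h => failsA E (S x) h = k)) F
    (𝓝 (Real.exp (-Real.exp (-t)) * Real.exp (-t) ^ k / k.factorial)) := by
  classical
  set lam := Real.exp (-t) with hlam
  rw [Metric.tendsto_nhds]
  intro θ hθ
  obtain ⟨R, hR, ht1, ht2⟩ := tail_small lam k (θ / 5) (by positivity)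
  have hm : ∀ r, Tendsto (fun x => EA (Ω x) (K x) (fun h => ((failsA E (S x) h).choose r : ℝ))) F
      (𝓝 (lam ^ r / r.factorial)) := fun r => moment_abs E Ω S K ρ δ Q t hS hΩ h1 h2 hQ hδ0 hρ0 hKρ hKδ hKQ hKρ2 hρ hδ r
  have hs : Tendsto (fun x => ∑ j ∈ range R, (-1) ^ j * ((k + j).choose k : ℝ) *
      EA (Ω x) (K x) (fun h => ((failsA E (S x) h).choose (k + j) : ℝ))) F
      (𝓝 (∑ j ∈ range R, (-1) ^ j * ((k + j).choose k : ℝ) * (lam ^ (k + j) / (k + j).factorial))) :=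
    tendsto_finsetSum _ (fun j _ => (hm (k + j)).const_mul _)
  have hs2 := (hm (k + (R - 1))).const_mul (((k + (R - 1)).choose k : ℕ) : ℝ)
  filter_upwards [(Metric.tendsto_nhds.1 hs) (θ / 5) (by positivity), (Metric.tendsto_nhds.1 hs2) (θ / 5) (by positivity)] with x h1 h2
  rw [Real.dist_eq] at h1 h2 ⊢
  have h3 : |PA (Ω x) (K x) (fun h => failsA E (S x) h = k) - ∑ j ∈ range R, (-1) ^ j * ((k + j).choose k : ℝ) *
      EA (Ω x) (K x) (fun h => ((failsA E (S x) h).choose (k + j) : ℝ))| ≤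
      ((k + (R - 1)).choose k : ℝ) * EA (Ω x) (K x) (fun h => ((failsA E (S x) h).choose (k + (R - 1)) : ℝ)) := by
    have e1 : ∑ j ∈ range R, (-1) ^ j * ((k + j).choose k : ℝ) * EA (Ω x) (K x) (fun h => ((failsA E (S x) h).choose (k + j) : ℝ)) =
        EA (Ω x) (K x) (fun h => ∑ j ∈ range R, (-1) ^ j * ((k + j).choose k : ℝ) * ((failsA E (S x) h).choose (k + j) : ℝ)) := by
      rw [EA_sum]
      apply sum_congr rfl
      intro j _
      rw [← EA_const_mul]
    have e2 : PA (Ω x) (K x) (fun h => failsA E (S x) h = k) = EA (Ω x) (K x) (fun h => if failsA E (S x) h = k then 1 else 0) := by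
      unfold PA
      apply EA_congr
      intro v _
      congr
    rw [e1, e2, ← EA_sub, ← EA_const_mul]
    rw [abs_le]
    constructor
    · have e3 : -EA (Ω x) (K x) (fun h => ((k + (R - 1)).choose k : ℝ) * ((failsA E (S x) h).choose (k + (R - 1)) : ℝ)) =
          EA (Ω x) (K x) (fun h => (-1) * (((k + (R - 1)).choose k : ℝ) * ((failsA E (S x) h).choose (k + (R - 1)) : ℝ))) := by
        rw [EA_const_mul (-1), neg_one_mul]
      rw [e3]
      apply EA_mono
      intro h _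
      have := (abs_le.1 (alt_choose k (failsA E (S x) h) R hR)).1
      linarith
    · apply EA_mono
      intro h _
      exact (abs_le.1 (alt_choose k (failsA E (S x) h) R hR)).2
  have h4 := abs_lt.1 h1
  have h5 := abs_lt.1 h2
  have h6 := abs_le.1 h3
  have h7 := abs_le.1 ht1
  have h8 := abs_le.1 ht2
  rw [abs_lt]
  constructor <;> linarith [h4.1, h4.2, h5.1, h5.2, h6.1, h6.2, h7.1, h7.2, h8.1, h8.2]

end

end Pool.Agent.N735.CL
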