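import Mathlib
import Pool.Agent.N735.CL.Tup

set_option autoImplicit false
set_option maxHeartbeats 2000000

/-! Tuples of primes: the number of the translates without a prime tuple is asymptotically Poisson. -/

namespace Pool.Agent.N735.CL

open Finset Filter Topology Asymptotics
open Pool.Agent.H646 (rat)

/-- all the `m + v j` are primes -/
def Ek (k : ℕ) (m : ℕ) (v : Fin k → ℕ) : Prop := ∀ j, (m + v j).Prime

lemma ind_Ek (k m : ℕ) (v : Fin k → ℕ) : ind (Ek k) m v = ∏ j, pr m (v j) := by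
  unfold ind Ek pr
  split_ifs with h
  · symm
    apply prod_eq_one
    intro j _
    rw [if_pos (h j)]
  · push Not at h
    obtain ⟨j, hj⟩ := h
    symm
    apply prod_eq_zero (mem_univ j)
    rw [if_neg hj]

lemma Ea_Om (X k : ℕ) (f : (Fin k → ℕ) → ℝ) : Ea (Om X k) f = EK X k f := by
  unfold Ea EK
  rw [card_Om]
  push_cast
  rfl

lemma Ea_ind (X k m : ℕ) : Ea (Om X k) (ind (Ek k) m) = (E1 X (pr m)) ^ k := by
  have h : ind (Ek k) m = fun v => ∏ j, (fun a => pr m a) (v j) := by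
    funext v; exact ind_Ek k m v
  rw [Ea_Om, h, EK_prod X k (fun a => pr m a)]

lemma Ea_ind2 (X k m m' : ℕ) : Ea (Om X k) (fun v => ind (Ek k) m v * ind (Ek k) m' v) = (E1 X (fun a => pr m a * pr m' a)) ^ k := by
  have h : (fun v => ind (Ek k) m v * ind (Ek k) m' v) = fun v => ∏ j, (fun a => pr m a * pr m' a) (v j) := by
    funext v
    rw [ind_Ek, ind_Ek, ← prod_mul_distrib]
  rw [Ea_Om, h, EK_prod X k (fun a => pr m a * pr m' a)]

/-- `X → ∞`, `|S| → ∞`, `S ⊆ {1, ..., X / log³ X}` -/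
noncomputable def gk : Filter (ℕ × Finset ℕ) :=
  (comap Prod.fst atTop ⊓ comap (fun x : ℕ × Finset ℕ => x.2.card) atTop) ⊓
    𝓟 {x : ℕ × Finset ℕ | ∀ m ∈ x.2, 1 ≤ m ∧ (m : ℝ) * Real.log x.1 ^ 3 ≤ x.1}

lemma gk_X : Tendsto (fun x : ℕ × Finset ℕ => x.1) gk atTop :=
  tendsto_comap.mono_left (inf_le_left.trans inf_le_left)

lemma gk_M : Tendsto (fun x : ℕ × Finset ℕ => x.2.card) gk atTop :=
  tendsto_comap.mono_left (inf_le_left.trans inf_le_right)

lemma gk_S : ∀ᶠ x : ℕ × Finset ℕ in gk, ∀ m ∈ x.2, 1 ≤ m ∧ (m : ℝ) * Real.log x.1 ^ 3 ≤ x.1 :=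
  (inf_le_right : gk ≤ _) (mem_principal_self _)

lemma gk_L : Tendsto (fun x : ℕ × Finset ℕ => Real.log (x.1 : ℝ)) gk atTop := tends_log.comp gk_X

lemma gk_lM : Tendsto (fun x : ℕ × Finset ℕ => Real.log (x.2.card : ℝ)) gk atTop := tends_log.comp gk_M

lemma gk_inv : Tendsto (fun x : ℕ × Finset ℕ => 1 / Real.log (x.1 : ℝ)) gk (𝓝 0) := by
  simp only [one_div]
  exact gk_L.inv_tendsto_atTop

lemma gk_LLk (k : ℕ) : Tendsto (fun x : ℕ × Finset ℕ => Real.log (Real.log (x.1 : ℝ)) ^ k / Real.log (x.1 : ℝ)) gk (𝓝 0) := by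
  have h1 := (Real.isLittleO_pow_log_id_atTop (n := k)).tendsto_div_nhds_zero
  exact h1.comp gk_L

/-- the length of the patterns -/
noncomputable def Kk (k : ℕ) (t : ℝ) (X M : ℕ) : ℕ := ⌊(Real.log M + t) / (eta X) ^ k⌋₊

theorem tup_poisson (k : ℕ) (hk : 2 ≤ k) (t : ℝ) (r : ℕ) : Tendsto (fun x : ℕ × Finset ℕ =>
    PA (Om x.1 k) (Kk k t x.1 x.2.card) (fun h => failsA (Ek k) x.2 h = r)) gk
    (𝓝 (Real.exp (-Real.exp (-t)) * Real.exp (-t) ^ r / r.factorial)) := by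
  obtain ⟨C₁, hC₁, hp⟩ := pc_all
  obtain ⟨C₂, hC₂, hr⟩ := rat_loglog
  set Q : ℝ := C₁ * C₂ with hQ
  have hQ0 : 0 < Q := by positivity
  -- the basic estimates
  have heta : ∀ᶠ x : ℕ × Finset ℕ in gk, 1 / (2 * Real.log (x.1 : ℝ)) ≤ eta x.1 ∧ eta x.1 ≤ 2 / Real.log (x.1 : ℝ) := by
    filter_upwards [gk_X.eventually (ev_eta (1 / 2) (by norm_num)), gk_L.eventually_ge_atTop 1] with x h1 hL
    have hL0 : 0 < Real.log (x.1 : ℝ) := by linarith
    have h2 := abs_le.1 h1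
    constructor
    · rw [div_le_iff₀ (by positivity)]; linarith
    · rw [le_div_iff₀ hL0]; linarith
  have hlogM : ∀ᶠ x : ℕ × Finset ℕ in gk, Real.log (x.2.card : ℝ) ≤ Real.log (x.1 : ℝ) := by
    filter_upwards [gk_S, gk_L.eventually_ge_atTop 1, gk_M.eventually_ge_atTop 1] with x hS hL hM
    apply Real.log_le_log (by exact_mod_cast hM)
    have : x.2 ⊆ Icc 1 x.1 := by
      intro m hm
      obtain ⟨h1, h2⟩ := hS m hm
      rw [mem_Icc]
      refine ⟨h1, ?_⟩
      have h3 : (1 : ℝ) ≤ Real.log (x.1 : ℝ) ^ 3 := one_le_pow₀ hL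
      have h4 : (m : ℝ) ≤ x.1 := by
        have : (0 : ℝ) ≤ m := Nat.cast_nonneg _
        nlinarith
      exact_mod_cast h4
    have h5 := card_le_card this
    rw [Nat.card_Icc, Nat.add_sub_cancel] at h5
    exact_mod_cast h5
  have hK : ∀ᶠ x : ℕ × Finset ℕ in gk, (Kk k t x.1 x.2.card : ℝ) ≤ (2 * Real.log (x.1 : ℝ)) ^ (k + 1) := by
    filter_upwards [heta, hlogM, gk_L.eventually_ge_atTop (|t| + 1), gk_lM.eventually_ge_atTop |t|] with x h1 h2 h3 h4
    set L := Real.log (x.1 : ℝ) with hL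
    have hL0 : 0 < L := by have := abs_nonneg t; linarith
    have h5 : 0 ≤ Real.log (x.2.card : ℝ) + t := by linarith [neg_abs_le t]
    have he0 : 0 < eta x.1 := lt_of_lt_of_le (by positivity) h1.1
    have h6 : (Kk k t x.1 x.2.card : ℝ) ≤ (Real.log (x.2.card : ℝ) + t) / eta x.1 ^ k := Nat.floor_le (by positivity)
    refine h6.trans ?_
    have h7 : 1 / eta x.1 ^ k ≤ (2 * L) ^ k := by
      rw [one_div, ← inv_pow]
      apply pow_le_pow_left₀ (inv_nonneg.2 he0.le)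
      rw [inv_le_comm₀ he0 (by positivity), ← one_div]
      exact h1.1
    calc (Real.log (x.2.card : ℝ) + t) / eta x.1 ^ k = (Real.log (x.2.card : ℝ) + t) * (1 / eta x.1 ^ k) := by ring
      _ ≤ (2 * L) * (2 * L) ^ k := by
          apply mul_le_mul _ h7 (by positivity) (by positivity)
          linarith [le_abs_self t]
      _ = (2 * L) ^ (k + 1) := by ring
  obtain ⟨k', rfl⟩ : ∃ k', k = k' + 2 := ⟨k - 2, by omega⟩
  set k := k' + 2 with hkd
  have hρ : Tendsto (fun x : ℕ × Finset ℕ => eta x.1 ^ k) gk (𝓝 0) := by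
    have h1 : Tendsto (fun x : ℕ × Finset ℕ => 2 * (1 / Real.log (x.1 : ℝ))) gk (𝓝 0) := by
      simpa using gk_inv.const_mul 2
    have h2 : Tendsto (fun x : ℕ × Finset ℕ => eta x.1) gk (𝓝 0) := by
      refine squeeze_zero' (Eventually.of_forall (fun x => eta_nonneg x.1)) ?_ h1
      filter_upwards [heta] with x hx
      refine hx.2.trans (le_of_eq (by ring))
    have h3 := h2.pow k
    rwa [zero_pow (by omega)] at h3
  set δ : ℕ × Finset ℕ → ℝ := fun x => k * (2 / Real.log (x.1 : ℝ)) ^ (k' + 1) / Real.log (x.1 : ℝ) ^ 3 with hδ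
  have hδ0 : ∀ᶠ x in gk, 0 ≤ δ x := by
    filter_upwards [gk_L.eventually_ge_atTop 1] with x hx
    simp only [hδ]
    positivity
  have hKδ : Tendsto (fun x : ℕ × Finset ℕ => (Kk k t x.1 x.2.card : ℝ) * δ x) gk (𝓝 0) := by
    have h1 : Tendsto (fun x : ℕ × Finset ℕ => (k * 2 ^ (2 * k) : ℝ) * (1 / Real.log (x.1 : ℝ))) gk (𝓝 0) := by
      simpa using gk_inv.const_mul (k * 2 ^ (2 * k) : ℝ)
    refine squeeze_zero' ?_ ?_ h1
    · filter_upwards [hδ0] with x hx
      positivity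
    · filter_upwards [hK, hδ0, gk_L.eventually_ge_atTop 1] with x h2 h3 h4
      have hL0 : 0 < Real.log (x.1 : ℝ) := by linarith
      refine (mul_le_mul_of_nonneg_right h2 h3).trans (le_of_eq ?_)
      simp only [hδ, hkd]
      rw [div_pow, mul_pow]
      field_simp
      ring
  have hδlim : Tendsto δ gk (𝓝 0) := by
    have h1 : Tendsto (fun x : ℕ × Finset ℕ => (k * 2 ^ (k' + 1) : ℝ) * (1 / Real.log (x.1 : ℝ))) gk (𝓝 0) := by
      simpa using gk_inv.const_mul (k * 2 ^ (k' + 1) : ℝ)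
    refine squeeze_zero' hδ0 ?_ h1
    filter_upwards [gk_L.eventually_ge_atTop 1] with x h4
    have hL0 : 0 < Real.log (x.1 : ℝ) := by linarith
    simp only [hδ]
    rw [div_pow]
    have e : (k : ℝ) * (2 ^ (k' + 1) / Real.log (x.1 : ℝ) ^ (k' + 1)) / Real.log (x.1 : ℝ) ^ 3 =
        (k * 2 ^ (k' + 1) : ℝ) * (1 / Real.log (x.1 : ℝ) ^ (k' + 4)) := by
      field_simp
      ring
    rw [e]
    apply mul_le_mul_of_nonneg_left _ (by positivity)
    apply one_div_le_one_div_of_le hL0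
    calc Real.log (x.1 : ℝ) = Real.log (x.1 : ℝ) ^ 1 := (pow_one _).symm
      _ ≤ _ := pow_le_pow_right₀ h4 (by omega)
  set Qf : ℕ × Finset ℕ → ℝ := fun x => (Q * Real.log (Real.log (x.1 : ℝ)) / Real.log (x.1 : ℝ) ^ 2) ^ k with hQf
  have hLL : ∀ᶠ x : ℕ × Finset ℕ in gk, 1 ≤ Real.log (Real.log (x.1 : ℝ)) := (Real.tendsto_log_atTop.comp gk_L).eventually_ge_atTop 1
  have hQf0 : ∀ᶠ x in gk, 0 ≤ Qf x := by
    filter_upwards [hLL] with x hx
    simp only [hQf]
    positivity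
  have hKQ : Tendsto (fun x : ℕ × Finset ℕ => (Kk k t x.1 x.2.card : ℝ) * Qf x) gk (𝓝 0) := by
    have h1 : Tendsto (fun x : ℕ × Finset ℕ => (2 ^ (k + 1) * Q ^ k : ℝ) * (Real.log (Real.log (x.1 : ℝ)) ^ k / Real.log (x.1 : ℝ))) gk (𝓝 0) := by
      simpa using (gk_LLk k).const_mul (2 ^ (k + 1) * Q ^ k : ℝ)
    refine squeeze_zero' ?_ ?_ h1
    · filter_upwards [hQf0] with x hx
      positivity
    · filter_upwards [hK, hQf0, gk_L.eventually_ge_atTop 1, hLL] with x h2 h3 h4 h5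
      have hL0 : 0 < Real.log (x.1 : ℝ) := by linarith
      refine (mul_le_mul_of_nonneg_right h2 h3).trans ?_
      simp only [hQf]
      have e : (2 * Real.log (x.1 : ℝ)) ^ (k + 1) * (Q * Real.log (Real.log (x.1 : ℝ)) / Real.log (x.1 : ℝ) ^ 2) ^ k =
          (2 ^ (k + 1) * Q ^ k : ℝ) * (Real.log (Real.log (x.1 : ℝ)) ^ k / Real.log (x.1 : ℝ) ^ (k' + 1)) := by
        rw [hkd]
        rw [div_pow, mul_pow, mul_pow]
        field_simp
        ring
      rw [e]
      apply mul_le_mul_of_nonneg_left _ (by positivity)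
      apply div_le_div_of_nonneg_left (by positivity) hL0
      calc Real.log (x.1 : ℝ) = Real.log (x.1 : ℝ) ^ 1 := (pow_one _).symm
        _ ≤ _ := pow_le_pow_right₀ h4 (by omega)
  have hKρ2 : Tendsto (fun x : ℕ × Finset ℕ => (Kk k t x.1 x.2.card : ℝ) * (eta x.1 ^ k) ^ 2) gk (𝓝 0) := by
    have h1 : Tendsto (fun x : ℕ × Finset ℕ => (2 ^ (3 * k + 1) : ℝ) * (1 / Real.log (x.1 : ℝ))) gk (𝓝 0) := by
      simpa using gk_inv.const_mul (2 ^ (3 * k + 1) : ℝ)
    refine squeeze_zero' (Eventually.of_forall (fun x => by positivity)) ?_ h1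
    filter_upwards [hK, heta, gk_L.eventually_ge_atTop 1] with x h2 h3 h4
    have hL0 : 0 < Real.log (x.1 : ℝ) := by linarith
    have h5 : (eta x.1 ^ k) ^ 2 ≤ ((2 / Real.log (x.1 : ℝ)) ^ k) ^ 2 :=
      pow_le_pow_left₀ (pow_nonneg (eta_nonneg _) _) (pow_le_pow_left₀ (eta_nonneg _) h3.2 _) _
    refine (mul_le_mul h2 h5 (by positivity) (by positivity)).trans ?_
    have e : (2 * Real.log (x.1 : ℝ)) ^ (k + 1) * ((2 / Real.log (x.1 : ℝ)) ^ k) ^ 2 =
        (2 ^ (3 * k + 1) : ℝ) * (1 / Real.log (x.1 : ℝ) ^ (k' + 1)) := by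
      rw [hkd]
      rw [div_pow, mul_pow]
      field_simp
      ring
    rw [e]
    apply mul_le_mul_of_nonneg_left _ (by positivity)
    apply one_div_le_one_div_of_le hL0
    calc Real.log (x.1 : ℝ) = Real.log (x.1 : ℝ) ^ 1 := (pow_one _).symm
      _ ≤ _ := pow_le_pow_right₀ h4 (by omega)
  have hKρ : Tendsto (fun x : ℕ × Finset ℕ => (Kk k t x.1 x.2.card : ℝ) * eta x.1 ^ k - Real.log (x.2.card : ℝ)) gk (𝓝 t) := by
    have h1 : Tendsto (fun x : ℕ × Finset ℕ => t - eta x.1 ^ k) gk (𝓝 t) := by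
      simpa using tendsto_const_nhds.sub hρ
    refine tendsto_of_tendsto_of_tendsto_of_le_of_le' h1 tendsto_const_nhds ?_ ?_
    · filter_upwards [heta, gk_L.eventually_ge_atTop 1] with x h2 h3
      have he0 : 0 < eta x.1 := lt_of_lt_of_le (by positivity) h2.1
      have hek : 0 < eta x.1 ^ k := pow_pos he0 k
      have h4 : (Real.log (x.2.card : ℝ) + t) / eta x.1 ^ k < (Kk k t x.1 x.2.card : ℝ) + 1 := Nat.lt_floor_add_one _
      rw [div_lt_iff₀ hek] at h4
      linarith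
    · filter_upwards [heta, gk_L.eventually_ge_atTop 1, gk_lM.eventually_ge_atTop |t|] with x h2 h3 h4
      have he0 : 0 < eta x.1 := lt_of_lt_of_le (by positivity) h2.1
      have hek : 0 < eta x.1 ^ k := pow_pos he0 k
      have h5 : 0 ≤ Real.log (x.2.card : ℝ) + t := by linarith [neg_abs_le t]
      have h6 : (Kk k t x.1 x.2.card : ℝ) ≤ (Real.log (x.2.card : ℝ) + t) / eta x.1 ^ k := Nat.floor_le (by positivity)
      rw [le_div_iff₀ hek] at h6
      linarith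
  refine poisson_abs (F := gk) (Ek k) (fun x : ℕ × Finset ℕ => Om x.1 k) (fun x => x.2) (fun x => Kk k t x.1 x.2.card)
    (fun x => eta x.1 ^ k) δ Qf t gk_M ?_ ?_ ?_ hQf0 hδ0 (Eventually.of_forall (fun x => pow_nonneg (eta_nonneg _) _))
    hKρ hKδ hKQ hKρ2 hρ hδlim r
  · filter_upwards [gk_X.eventually_ge_atTop 1] with x hx
    refine ⟨fun _ => 1, ?_⟩
    rw [mem_Om]
    intro _
    rw [mem_Icc]; omega
  · filter_upwards [gk_S, heta, gk_X.eventually (eta_window (1 / 2) (by norm_num)), gk_X.eventually_ge_atTop 1, gk_L.eventually_ge_atTop 1] with x hS he hw hX hL m hm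
    have hL0 : 0 < Real.log (x.1 : ℝ) := by linarith
    obtain ⟨hm1, hm2⟩ := hS m hm
    have hX0 : (0 : ℝ) < x.1 := by exact_mod_cast hX
    rw [Ea_ind]
    have h1 := abs_pow_sub_pow_le (E1 x.1 (pr m)) (eta x.1) k
    refine h1.trans ?_
    have hL3 : (1 : ℝ) ≤ Real.log (x.1 : ℝ) ^ 3 := one_le_pow₀ hL
    have hmX : m ≤ x.1 := by
      have : (m : ℝ) ≤ x.1 := by
        have : (0 : ℝ) ≤ m := Nat.cast_nonneg _
        nlinarith
      exact_mod_cast this
    have h2 : |E1 x.1 (pr m) - eta x.1| ≤ 1 / Real.log (x.1 : ℝ) ^ 3 := by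
      refine (E1_pr_diff x.1 m hX).trans ?_
      rw [div_le_div_iff₀ hX0 (by positivity)]
      linarith
    have h3 : max |E1 x.1 (pr m)| |eta x.1| ≤ 2 / Real.log (x.1 : ℝ) := by
      apply max_le
      · rw [abs_of_nonneg (E1_pr_nonneg _ _), le_div_iff₀ hL0]
        linarith [(abs_le.1 (hw m hmX)).2]
      · rw [abs_of_nonneg (eta_nonneg _)]
        exact he.2
    have h4 : max |E1 x.1 (pr m)| |eta x.1| ^ (k - 1) ≤ (2 / Real.log (x.1 : ℝ)) ^ (k - 1) :=
      pow_le_pow_left₀ (le_max_of_le_left (abs_nonneg _)) h3 _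
    have e : k - 1 = k' + 1 := by omega
    rw [e] at h4 ⊢
    calc |E1 x.1 (pr m) - eta x.1| * k * max |E1 x.1 (pr m)| |eta x.1| ^ (k' + 1) ≤
        (1 / Real.log (x.1 : ℝ) ^ 3) * k * (2 / Real.log (x.1 : ℝ)) ^ (k' + 1) := by gcongr
      _ = δ x := by simp only [hδ]; ring
  · filter_upwards [gk_S, gk_X.eventually hp, gk_X.eventually hr, gk_L.eventually_ge_atTop 1, hLL] with x hS h1 h2 hL hLLx m hm m' hm' hne
    have hL0 : 0 < Real.log (x.1 : ℝ) := by linarith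
    have hL3 : (1 : ℝ) ≤ Real.log (x.1 : ℝ) ^ 3 := one_le_pow₀ hL
    have hle : ∀ m ∈ x.2, 1 ≤ m ∧ m ≤ x.1 := by
      intro m hm
      obtain ⟨a, b⟩ := hS m hm
      refine ⟨a, ?_⟩
      have : (m : ℝ) ≤ x.1 := by
        have : (0 : ℝ) ≤ m := Nat.cast_nonneg _
        nlinarith
      exact_mod_cast this
    rw [Ea_ind2]
    have key : ∀ m ∈ x.2, ∀ m' ∈ x.2, m < m' → E1 x.1 (fun a => pr m a * pr m' a) ≤ Q * Real.log (Real.log (x.1 : ℝ)) / Real.log (x.1 : ℝ) ^ 2 := by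
      intro m hm m' hm' hlt
      have g1 := hle m hm
      have g2 := hle m' hm'
      have g3 := h1 m (m' - m) (by omega)
      have g4 : m + (m' - m) = m' := by omega
      rw [g4] at g3
      have g5 := h2 (m' - m) (mem_Icc.2 ⟨by omega, by omega⟩)
      rw [le_div_iff₀ (by positivity)]
      refine g3.trans ?_
      calc C₁ * rat (m' - m) ≤ C₁ * (C₂ * Real.log (Real.log (x.1 : ℝ))) := mul_le_mul_of_nonneg_left g5 hC₁.le
        _ = _ := by rw [hQ]; ring
    simp only [hQf]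
    apply pow_le_pow_left₀ (E1_nonneg (fun a _ => mul_nonneg (pr_nonneg _ a) (pr_nonneg _ a)))
    rcases lt_or_gt_of_ne hne with h | h
    · exact key m hm m' hm' h
    · refine le_trans (le_of_eq ?_) (key m' hm' m hm h)
      apply E1_congr
      intro a _
      ring

end Pool.Agent.N735.CL
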