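import Mathlib
import Pool.Agent.N735.CL.Tup2

set_option autoImplicit false
set_option maxHeartbeats 2000000

/-! The uniform version, and the powers. -/

namespace Pool.Agent.N735.CL

open Finset Filter Topology Asymptotics

theorem tup_unif (k : ℕ) (hk : 2 ≤ k) (t : ℝ) (r : ℕ) (ε : ℝ) (hε : 0 < ε) : ∃ Y : ℕ, ∀ X : ℕ, Y ≤ X → ∀ S : Finset ℕ, Y ≤ S.card →
    (∀ m ∈ S, 1 ≤ m ∧ (m : ℝ) * Real.log X ^ 3 ≤ X) →
    |PA (Om X k) (Kk k t X S.card) (fun h => failsA (Ek k) S h = r) - Real.exp (-Real.exp (-t)) * Real.exp (-t) ^ r / r.factorial| < ε := by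
  have h := (Metric.tendsto_nhds.1 (tup_poisson k hk t r)) ε hε
  unfold gk at h
  rw [eventually_inf_principal, eventually_inf] at h
  obtain ⟨s, hs, s', hs', hst⟩ := h
  obtain ⟨u, hu, hus⟩ := mem_comap.1 hs
  obtain ⟨u', hu', hus'⟩ := mem_comap.1 hs'
  obtain ⟨a, ha⟩ := mem_atTop_sets.1 hu
  obtain ⟨b, hb⟩ := mem_atTop_sets.1 hu'
  refine ⟨max a b, fun X hX S hS hm => ?_⟩
  have h1 := hst (X, S) ⟨hus (ha X (le_trans (le_max_left _ _) hX)), hus' (hb S.card (le_trans (le_max_right _ _) hS))⟩ hm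
  rw [Real.dist_eq] at h1
  exact h1

/-- the range of the entries of the patterns -/
noncomputable def XN (a N : ℕ) : ℕ := N ^ a * ⌈Real.log N⌉₊ ^ 4

/-- the powers -/
def powsA (a N : ℕ) : Finset ℕ := (Icc 1 N).image (fun n => n ^ a)

lemma powsA_card (a N : ℕ) (ha : 1 ≤ a) : (powsA a N).card = N := by
  unfold powsA
  rw [card_image_of_injective _ (Nat.pow_left_injective (by omega))]
  simp

lemma log_ceil : Tendsto (fun N : ℕ => Real.log (⌈Real.log (N : ℝ)⌉₊ : ℝ) / Real.log (N : ℝ)) atTop (𝓝 0) := by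
  have h1 : Tendsto (fun y : ℝ => Real.log (2 * y) / (2 * y)) atTop (𝓝 0) := by
    have := Real.isLittleO_log_id_atTop.tendsto_div_nhds_zero
    exact this.comp (tendsto_id.const_mul_atTop (by norm_num : (0 : ℝ) < 2))
  have h2 : Tendsto (fun N : ℕ => 2 * (Real.log (2 * Real.log (N : ℝ)) / (2 * Real.log (N : ℝ)))) atTop (𝓝 0) := by
    have := (h1.comp tends_log).const_mul 2
    simpa using this
  refine squeeze_zero' ?_ ?_ h2
  · filter_upwards [tends_log.eventually_ge_atTop 1] with N hN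
    have h3 : (1 : ℝ) ≤ ⌈Real.log (N : ℝ)⌉₊ := hN.trans (Nat.le_ceil _)
    exact div_nonneg (Real.log_nonneg h3) (by linarith)
  · filter_upwards [tends_log.eventually_ge_atTop 1] with N hN
    have h3 : (1 : ℝ) ≤ ⌈Real.log (N : ℝ)⌉₊ := hN.trans (Nat.le_ceil _)
    have h4 : (⌈Real.log (N : ℝ)⌉₊ : ℝ) ≤ 2 * Real.log N := by
      have := (Nat.ceil_lt_add_one (show 0 ≤ Real.log (N : ℝ) by linarith)).le
      linarith
    have h5 := Real.log_le_log (by linarith) h4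
    have e : 2 * (Real.log (2 * Real.log (N : ℝ)) / (2 * Real.log (N : ℝ))) = Real.log (2 * Real.log (N : ℝ)) / Real.log (N : ℝ) := by
      have : Real.log (N : ℝ) ≠ 0 := by linarith
      field_simp
    rw [e]
    exact div_le_div_of_nonneg_right h5 (by linarith)

lemma XN_log (a : ℕ) : Tendsto (fun N : ℕ => Real.log (XN a N : ℝ) / Real.log (N : ℝ)) atTop (𝓝 a) := by
  have h1 : Tendsto (fun N : ℕ => (a : ℝ) + 4 * (Real.log (⌈Real.log (N : ℝ)⌉₊ : ℝ) / Real.log (N : ℝ))) atTop (𝓝 (a + 4 * 0)) :=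
    tendsto_const_nhds.add (log_ceil.const_mul 4)
  rw [mul_zero, add_zero] at h1
  refine h1.congr' ?_
  filter_upwards [tends_log.eventually_ge_atTop 1, eventually_ge_atTop 1] with N hN hN1
  have h3 : (1 : ℝ) ≤ ⌈Real.log (N : ℝ)⌉₊ := hN.trans (Nat.le_ceil _)
  have hN0 : (0 : ℝ) < N := by exact_mod_cast hN1
  unfold XN
  push_cast
  rw [Real.log_mul (by positivity) (by positivity), Real.log_pow, Real.log_pow]
  have : Real.log (N : ℝ) ≠ 0 := by linarith
  field_simp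
  push_cast
  ring

lemma XN_tends (a : ℕ) (ha : 1 ≤ a) : Tendsto (fun N : ℕ => XN a N) atTop atTop := by
  apply tendsto_atTop_mono' atTop _ tendsto_id
  filter_upwards [tends_log.eventually_ge_atTop 1, eventually_ge_atTop 1] with N hN hN1
  have h3 : 1 ≤ ⌈Real.log (N : ℝ)⌉₊ := by
    have : (1 : ℝ) ≤ ⌈Real.log (N : ℝ)⌉₊ := hN.trans (Nat.le_ceil _)
    exact_mod_cast this
  unfold XN
  calc id N = N ^ 1 * 1 := by simp
    _ ≤ N ^ a * ⌈Real.log (N : ℝ)⌉₊ ^ 4 := Nat.mul_le_mul (Nat.pow_le_pow_right hN1 ha) (Nat.one_le_pow _ _ h3)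

lemma pows_gk (a : ℕ) (ha : 1 ≤ a) : Tendsto (fun N : ℕ => (XN a N, powsA a N)) atTop gk := by
  unfold gk
  rw [tendsto_inf, tendsto_inf, tendsto_comap_iff, tendsto_comap_iff, tendsto_principal]
  refine ⟨⟨XN_tends a ha, ?_⟩, ?_⟩
  · have : ((fun x : ℕ × Finset ℕ => x.2.card) ∘ fun N : ℕ => (XN a N, powsA a N)) = id := by
      funext N
      simp only [Function.comp]
      rw [powsA_card a N ha]; rfl
    rw [this]
    exact tendsto_id
  · have h1 := (XN_log a).eventually_lt_const (show (a : ℝ) < a + 1 by linarith)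
    filter_upwards [h1, tends_log.eventually_ge_atTop (((a : ℝ) + 1) ^ 3), tends_log.eventually_ge_atTop 1, eventually_ge_atTop 1] with N h1 h2 h3 hN1
    show ∀ m ∈ powsA a N, 1 ≤ m ∧ (m : ℝ) * Real.log (XN a N) ^ 3 ≤ XN a N
    intro m hm
    unfold powsA at hm
    rw [mem_image] at hm
    obtain ⟨n, hn, rfl⟩ := hm
    rw [mem_Icc] at hn
    refine ⟨Nat.one_le_pow _ _ hn.1, ?_⟩
    set l := Real.log (N : ℝ) with hl
    have hl0 : 0 < l := by linarith
    rw [div_lt_iff₀ hl0] at h1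
    have h4 : l ≤ ⌈l⌉₊ := Nat.le_ceil _
    have h5 : 0 ≤ Real.log (XN a N : ℝ) := Real.log_natCast_nonneg _
    have h6 : Real.log (XN a N : ℝ) ^ 3 ≤ (((a : ℝ) + 1) * l) ^ 3 := pow_le_pow_left₀ h5 h1.le 3
    have h7 : (((a : ℝ) + 1) * l) ^ 3 ≤ (⌈l⌉₊ : ℝ) ^ 4 := by
      calc (((a : ℝ) + 1) * l) ^ 3 = ((a : ℝ) + 1) ^ 3 * l ^ 3 := by ring
        _ ≤ l * l ^ 3 := mul_le_mul_of_nonneg_right h2 (by positivity)
        _ = l ^ 4 := by ring
        _ ≤ _ := pow_le_pow_left₀ hl0.le h4 4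
    have h8 : ((n : ℝ)) ^ a ≤ (N : ℝ) ^ a := pow_le_pow_left₀ (Nat.cast_nonneg _) (by exact_mod_cast hn.2) a
    have e : ((XN a N : ℕ) : ℝ) = (N : ℝ) ^ a * (⌈l⌉₊ : ℝ) ^ 4 := by unfold XN; push_cast; rfl
    rw [e]
    push_cast
    rw [e] at h6
    exact mul_le_mul h8 (h6.trans h7) (by rw [← e]; positivity) (by positivity)

lemma len_lim (a k : ℕ) (ha : 1 ≤ a) (t : ℝ) : Tendsto (fun N : ℕ => (Real.log (N : ℝ) + t) / (eta (XN a N)) ^ k / Real.log (N : ℝ) ^ (k + 1)) atTop (𝓝 ((a : ℝ) ^ k)) := by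
  have ha0 : (0 : ℝ) < a := by exact_mod_cast ha
  have h1 : Tendsto (fun N : ℕ => eta (XN a N) * Real.log (XN a N : ℝ)) atTop (𝓝 1) := by
    rw [Metric.tendsto_nhds]
    intro ε hε
    filter_upwards [(XN_tends a ha).eventually (ev_eta (ε / 2) (by positivity))] with N hN
    rw [Real.dist_eq]
    linarith
  have h2 : Tendsto (fun N : ℕ => (eta (XN a N) * Real.log (XN a N : ℝ)) / (Real.log (XN a N : ℝ) / Real.log (N : ℝ))) atTop (𝓝 (1 / a)) :=
    h1.div (XN_log a) ha0.ne'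
  have h3 : Tendsto (fun N : ℕ => eta (XN a N) * Real.log (N : ℝ)) atTop (𝓝 (1 / a)) := by
    refine h2.congr' ?_
    filter_upwards [tends_log.eventually_ge_atTop 1, (XN_log a).eventually_const_lt (show (0 : ℝ) < a from ha0)] with N hN hN2
    have : Real.log (N : ℝ) ≠ 0 := by linarith
    have h5 : Real.log (XN a N : ℝ) ≠ 0 := by
      intro h0
      rw [h0, zero_div] at hN2
      exact lt_irrefl _ hN2
    field_simp
  have h4 : Tendsto (fun N : ℕ => ((eta (XN a N) * Real.log (N : ℝ)) ^ k)⁻¹) atTop (𝓝 (((1 / a : ℝ)) ^ k)⁻¹) :=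
    (h3.pow k).inv₀ (by positivity)
  have h5 : Tendsto (fun N : ℕ => 1 + t / Real.log (N : ℝ)) atTop (𝓝 (1 + 0)) := by
    apply tendsto_const_nhds.add
    exact tendsto_const_nhds.div_atTop tends_log
  have h6 := h5.mul h4
  have e : (1 + 0) * (((1 / a : ℝ)) ^ k)⁻¹ = (a : ℝ) ^ k := by
    rw [add_zero, one_mul, one_div, inv_pow, inv_inv]
  rw [e] at h6
  refine h6.congr' ?_
  filter_upwards [tends_log.eventually_ge_atTop 1] with N hN
  have : Real.log (N : ℝ) ≠ 0 := by linarith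
  rw [mul_pow, mul_inv]
  field_simp
  ring

theorem pow_hi (a k : ℕ) (ha : 1 ≤ a) (hk : 2 ≤ k) (c : ℝ) (hc : (a : ℝ) ^ k < c) : Tendsto (fun N : ℕ =>
    PA (Om (XN a N) k) ⌊c * Real.log N ^ (k + 1)⌋₊ (fun h => failsA (Ek k) (powsA a N) h = 0)) atTop (𝓝 1) := by
  rw [Metric.tendsto_nhds]
  intro ε hε
  obtain ⟨t, ht⟩ : ∃ t : ℝ, 1 - ε / 2 < Real.exp (-Real.exp (-t)) := by
    have h1 : Tendsto (fun t : ℝ => Real.exp (-Real.exp (-t))) atTop (𝓝 1) := by
      have h2 : Tendsto (fun t : ℝ => -Real.exp (-t)) atTop (𝓝 0) := by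
        have := (Real.tendsto_exp_atBot.comp tendsto_neg_atTop_atBot).neg
        simpa using this
      have h3 := (Real.continuous_exp.tendsto 0).comp h2
      rwa [Real.exp_zero] at h3
    exact (h1.eventually_const_lt (show 1 - ε / 2 < 1 by linarith)).exists
  have h1 := (tup_poisson k hk t 0).comp (pows_gk a ha)
  simp only [pow_zero, Nat.factorial_zero, Nat.cast_one, mul_one, div_one] at h1
  filter_upwards [(Metric.tendsto_nhds.1 h1) (ε / 2) (by positivity), (len_lim a k ha t).eventually_lt_const hc,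
    tends_log.eventually_ge_atTop 1, (XN_tends a ha).eventually_ge_atTop 1] with N h2 h3 h4 h5
  have hl0 : 0 < Real.log (N : ℝ) := by linarith
  have hne : (Om (XN a N) k).Nonempty := by
    refine ⟨fun _ => 1, ?_⟩
    rw [mem_Om]
    intro _
    rw [mem_Icc]; omega
  simp only [Function.comp] at h2
  rw [powsA_card a N ha, Real.dist_eq] at h2
  rw [div_lt_iff₀ (by positivity)] at h3
  have hle : Kk k t (XN a N) N ≤ ⌊c * Real.log (N : ℝ) ^ (k + 1)⌋₊ := Nat.floor_le_floor h3.le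
  have h6 := PA_mono_len hne (Ek k) (powsA a N) hle
  have h7 := PA_le_one (Ω := Om (XN a N) k) (K := ⌊c * Real.log (N : ℝ) ^ (k + 1)⌋₊) (fun h => failsA (Ek k) (powsA a N) h = 0)
  have h8 := (abs_lt.1 h2).1
  rw [Real.dist_eq, abs_lt]
  constructor <;> linarith

theorem pow_lo (a k : ℕ) (ha : 1 ≤ a) (hk : 2 ≤ k) (c : ℝ) (hc : c < (a : ℝ) ^ k) : Tendsto (fun N : ℕ =>
    PA (Om (XN a N) k) ⌊c * Real.log N ^ (k + 1)⌋₊ (fun h => failsA (Ek k) (powsA a N) h = 0)) atTop (𝓝 0) := by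
  rw [Metric.tendsto_nhds]
  intro ε hε
  obtain ⟨t, ht⟩ : ∃ t : ℝ, Real.exp (-Real.exp (-t)) < ε / 2 := by
    have h1 : Tendsto (fun t : ℝ => Real.exp (-Real.exp (-t))) atBot (𝓝 0) := by
      have h2 : Tendsto (fun t : ℝ => Real.exp (-t)) atBot atTop := Real.tendsto_exp_atTop.comp tendsto_neg_atBot_atTop
      exact Real.tendsto_exp_atBot.comp (tendsto_neg_atTop_atBot.comp h2)
    exact (h1.eventually_lt_const (show 0 < ε / 2 by positivity)).exists
  have h1 := (tup_poisson k hk t 0).comp (pows_gk a ha)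
  simp only [pow_zero, Nat.factorial_zero, Nat.cast_one, mul_one, div_one] at h1
  filter_upwards [(Metric.tendsto_nhds.1 h1) (ε / 2) (by positivity), (len_lim a k ha t).eventually_const_lt hc,
    tends_log.eventually_ge_atTop 1, (XN_tends a ha).eventually_ge_atTop 1] with N h2 h3 h4 h5
  have hl0 : 0 < Real.log (N : ℝ) := by linarith
  have hne : (Om (XN a N) k).Nonempty := by
    refine ⟨fun _ => 1, ?_⟩
    rw [mem_Om]
    intro _
    rw [mem_Icc]; omega
  simp only [Function.comp] at h2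
  rw [powsA_card a N ha, Real.dist_eq] at h2
  rw [lt_div_iff₀ (by positivity)] at h3
  have hle : ⌊c * Real.log (N : ℝ) ^ (k + 1)⌋₊ ≤ Kk k t (XN a N) N := Nat.floor_le_floor h3.le
  have h6 := PA_mono_len hne (Ek k) (powsA a N) hle
  have h7 := PA_nonneg (Ω := Om (XN a N) k) (K := ⌊c * Real.log (N : ℝ) ^ (k + 1)⌋₊) (fun h => failsA (Ek k) (powsA a N) h = 0)
  have h8 := (abs_lt.1 h2).2
  rw [Real.dist_eq, sub_zero, abs_of_nonneg h7]
  linarith

end Pool.Agent.N735.CL
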